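import Pool.Agent.Lib.MP_23455a_nt.H3.D0
import Pool.Agent.Lib.MP_696deb_nt.B2.B1b

set_option autoImplicit false

open scoped NNReal Classical NumberTheorySymbols
open Filter Topology Finset

namespace Pool.Agent.H3

open Pool.Agent.Lib.MP_696deb_nt.B2

variable {H : Subgroup Gam}

theorem zeta_one : zeta 1 ^ 2 + zeta 1 + 1 = 0 := exists_omega.choose_spec

theorem zeta_succ_cube (m : ℕ) : zeta (m + 1) ^ 3 = zeta m := by
  cases m with
  | zero =>
    change zeta 1 ^ 3 = 1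
    linear_combination (zeta 1 - 1) * zeta_one
  | succ m => exact (IsAlgClosed.exists_pow_nat_eq (zeta (m + 1)) three_pos).choose_spec

theorem zeta_one_ne : zeta 1 ≠ 1 := fun h => by
  have := zeta_one
  rw [h] at this
  norm_num at this

theorem zeta_third (m : ℕ) : zeta (m + 1) ^ 3 ^ m = zeta 1 := by
  induction m with
  | zero => exact pow_one _
  | succ m ih => rw [pow_succ', pow_mul, zeta_succ_cube, ih]

theorem zeta_prim (m : ℕ) : IsPrimitiveRoot (zeta m) (3 ^ m) := by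
  cases m with
  | zero => exact IsPrimitiveRoot.one
  | succ m =>
    have h := orderOf_eq_prime_pow (x := zeta (m + 1)) (p := 3) (n := m)
      (by rw [zeta_third]; exact zeta_one_ne)
      (by rw [pow_succ, pow_mul, zeta_third]; exact zeta_succ_cube 0)
    exact h ▸ IsPrimitiveRoot.orderOf _

theorem zeta_add_pow (m n : ℕ) : zeta (m + n) ^ 3 ^ n = zeta m := by
  induction n with
  | zero => exact pow_one _
  | succ n ih => rw [pow_succ', pow_mul, ← add_assoc, zeta_succ_cube, ih]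

theorem b1b_zeta_cast (m k : ℕ) : zeta m ^ ((k : ZMod (3 ^ m)).val) = zeta m ^ k := by
  rw [ZMod.val_natCast, ← pow_eq_pow_mod k (zeta_prim m).pow_eq_one]

theorem zeta_val_add (m : ℕ) (a b : ZMod (3 ^ m)) :
    zeta m ^ (a + b).val = zeta m ^ a.val * zeta m ^ b.val := by
  rw [ZMod.val_add, ← pow_eq_pow_mod _ (zeta_prim m).pow_eq_one, pow_add]

theorem zeta_val_inj {m : ℕ} {a b : ZMod (3 ^ m)} (h : zeta m ^ a.val = zeta m ^ b.val) : a = b :=
  ZMod.val_injective _ ((zeta_prim m).pow_inj (ZMod.val_lt a) (ZMod.val_lt b) h)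

theorem exists_zeta_val {m : ℕ} {x : Qbar} (h : x ^ 3 ^ m = 1) :
    ∃ a : ZMod (3 ^ m), x = zeta m ^ a.val := by
  obtain ⟨i, -, hi⟩ := (zeta_prim m).eq_pow_of_pow_eq_one h
  exact ⟨i, by rw [b1b_zeta_cast, hi]⟩

theorem b1b_spec (m : ℕ) (g : Gam) : g (zeta m) = zeta m ^ (cy m g).val :=
  cyclotomicCharacter.spec 3 g.toRingEquiv (zeta m) (zeta_prim m).pow_eq_one

theorem b1b_cy_eq {m k : ℕ} {g : Gam} (h : g (zeta m) = zeta m ^ k) : cy m g = k :=
  zeta_val_inj (by rw [← b1b_spec, b1b_zeta_cast, h])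

theorem smul_zeta_val (m : ℕ) (g : Gam) (a : ZMod (3 ^ m)) :
    g (zeta m ^ a.val) = zeta m ^ (cy m g * a).val := by
  rw [map_pow, b1b_spec, ZMod.val_mul, ← pow_eq_pow_mod _ (zeta_prim m).pow_eq_one, pow_mul]

theorem cyc_mul (g h : Gam) : cyc (g * h) = cyc g * cyc h :=
  congrArg Units.val (map_mul (cyclotomicCharacter Qbar 3) g.toRingEquiv h.toRingEquiv)

theorem cyc_one : cyc 1 = 1 := congrArg Units.val (map_one (cyclotomicCharacter Qbar 3))

theorem cyc_unit (g : Gam) : IsUnit (cyc g) := Units.isUnit _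

theorem continuous_cyc : Continuous cyc :=
  Units.continuous_val.comp (cyclotomicCharacter.continuous 3 ℚ Qbar)

theorem sm_cy (m : ℕ) : Sm H (cy m) := by
  obtain ⟨U, h1, h2, h3⟩ := sm_apply (H := H) (zeta m)
  exact ⟨U, h1, h2, fun g hg h hh k =>
    zeta_val_inj (by rw [← b1b_spec, ← b1b_spec]; exact h3 g hg h hh k)⟩

theorem cyc_cc : cyc cc = -1 := by
  refine PadicInt.ext_of_toZModPow.1 fun m => ?_
  have h1 : cc (zeta m) * zeta m = 1 := jC.injective (by
    have h2 : ‖jC (zeta m)‖ = 1 := Complex.norm_eq_one_of_pow_eq_one (n := 3 ^ m)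
      (by rw [← map_pow, (zeta_prim m).pow_eq_one, map_one]) (by positivity)
    rw [map_mul, jC_cc, map_one, ← Complex.inv_eq_conj h2]
    exact inv_mul_cancel₀ (norm_ne_zero_iff.1 (by rw [h2]; exact one_ne_zero)))
  have h2 : cy m cc + (1 : ℕ) = 0 := zeta_val_inj (by
    rw [zeta_val_add, ← b1b_spec, b1b_zeta_cast, pow_one, h1, ZMod.val_zero, pow_zero])
  rw [map_neg, map_one]
  exact eq_neg_of_add_eq_zero_left (by rwa [Nat.cast_one] at h2)

theorem cy_mul (m : ℕ) (g h : Gam) : cy m (g * h) = cy m g * cy m h := by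
  rw [cy, cyc_mul, map_mul]; rfl

theorem cy_one (m : ℕ) : cy m 1 = 1 := by rw [cy, cyc_one, map_one]

theorem cy_unit (m : ℕ) (g : Gam) : IsUnit (cy m g) := (cyc_unit g).map _

theorem cy_cc (m : ℕ) : cy m cc = -1 := by rw [cy, cyc_cc, map_neg, map_one]

theorem cy_cast {m m' : ℕ} (h : m' ≤ m) (g : Gam) :
    ZMod.castHom (pow_dvd_pow 3 h) (ZMod (3 ^ m')) (cy m g) = cy m' g :=
  RingHom.congr_fun (PadicInt.zmod_cast_comp_toZModPow m' m h) (cyc g)

theorem cy_one_or (g : Gam) : cy 1 g = 1 ∨ cy 1 g = -1 := by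
  have h : ∀ u : ZMod (3 ^ 1), IsUnit u → u = 1 ∨ u = -1 := by decide
  exact h _ (cy_unit 1 g)

theorem mem_GK3 {g : Gam} : g ∈ GK 3 ↔ cy 1 g = 1 := by
  have h1 : (2 * zeta 1 + 1) ^ 2 = ((-((3 : ℕ) : ℤ) : ℤ) : Qbar) := by
    push_cast
    linear_combination 4 * zeta_one
  have h2 := chi_spec h1 g
  have h3 := b1b_spec 1 g
  have h0 : 2 * zeta 1 + 1 ≠ 0 := fun h => by
    rw [h] at h1
    norm_num at h1
  rw [map_add, map_mul, map_ofNat, map_one] at h2
  change chi _ g = 1 ↔ _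
  constructor
  · intro h
    rw [h] at h2
    refine (b1b_cy_eq (k := 1) ?_).trans Nat.cast_one
    push_cast at h2
    linear_combination h2 / 2
  · intro h
    have h4 : ((1 : ZMod (3 ^ 1))).val = 1 := by decide
    rw [h, h4, pow_one] at h3
    refine (Int.units_eq_one_or _).resolve_right fun e => h0 ?_
    rw [e, h3] at h2
    push_cast at h2
    linear_combination h2 / 2

theorem smul_zeta_one {g : Gam} (h : g ∈ GK 3) : g (zeta 1) = zeta 1 := by
  have h4 : ((1 : ZMod (3 ^ 1))).val = 1 := by decide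
  rw [b1b_spec, mem_GK3.1 h, h4, pow_one]

end Pool.Agent.H3
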