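import Pool.Agent.Lib.MP_23455a_nt.H3.BAa
import Pool.Agent.Lib.MP_696deb_nt.B2.B2c

set_option autoImplicit false

open scoped NNReal Classical NumberTheorySymbols
open Filter Topology Finset

namespace Pool.Agent.H3

open Pool.Agent.Lib.MP_696deb_nt.B2

variable {H : Subgroup Gam} {w v : Plc} {g φ : Gam}

/-- The three-adic degree on a decomposition group. -/
theorem exists_deg (w : Plc) : ∃ ω : Gam → ℤ_[3], ContinuousOn ω (Dec w) ∧ IsHom (Dec w) ω ∧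
    ∀ (n : ℕ) (φ : Gam), IsFrob w (w.p ^ n) φ → ω φ = n := by
  have pos : ∀ m : ℕ, 0 < 3 ^ m := fun m => by positivity
  have ex : ∀ g ∈ Dec w, ∀ m : ℕ, ∃ n, B2bR w.p (3 ^ m) g n := fun g hg m =>
    (b2b_res hg (pos m)).imp fun n hn => b2b_of_V (pos m) hn
  have key : ∀ g ∈ Dec w, ∃ a : ℤ_[3], ∀ m n : ℕ, B2bR w.p (3 ^ m) g n →
      PadicInt.toZModPow m a = n := by
    intro g hg
    choose f hf using ex g hg
    have hi : ∀ i, ((3 : ℕ) : ℤ) ^ i ∣ (f (i + 1) : ℤ) - f i := fun i => by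
      have := (b2b_uniq w.prime (pos i) (hf i)
        (b2b_down (pow_dvd_pow 3 (Nat.le_succ i)) (hf (i + 1)))).dvd
      exact_mod_cast this
    refine ⟨_, fun m n hn => (PadicInt.toZModPow_ofIntSeq_of_pow_dvd_sub
      (fun i => (f i : ℤ)) 3 hi m).trans ?_⟩
    rw [Int.cast_natCast]
    exact (ZMod.natCast_eq_natCast_iff _ _ _).2 (b2b_uniq w.prime (pos m) (hf m) hn)
  choose! ω hω using key
  refine ⟨ω, fun g hg => ?_, fun g hg k hk => ?_, fun n φ hφ => ?_⟩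
  · refine Metric.continuousWithinAt_iff'.2 fun ε hε => ?_
    obtain ⟨m, hm⟩ := PadicInt.exists_pow_neg_lt 3 hε
    obtain ⟨ζ, hζ⟩ := b2b_prim w.prime (pos m)
    obtain ⟨n, hn⟩ := ex g hg m
    have h1 : {k : Gam | k ζ = g ζ} ∈ 𝓝 g := (b2b_closed ζ fun y => y = g ζ).2.mem_nhds rfl
    filter_upwards [mem_nhdsWithin_of_mem_nhds h1, self_mem_nhdsWithin] with k hk hk'
    refine lt_of_le_of_lt ?_ hm
    have h2 : B2bR w.p (3 ^ m) k n := by
      intro z hz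
      have : NeZero (w.p ^ 3 ^ m - 1) := ⟨b2b_pos w.prime (pos m)⟩
      obtain ⟨i, -, rfl⟩ := hζ.eq_pow_of_pow_eq_one hz
      rw [← hn _ hz, map_pow, map_pow, hk]
    rw [dist_eq_norm, PadicInt.norm_le_pow_iff_mem_span_pow, ← PadicInt.ker_toZModPow,
      RingHom.mem_ker, map_sub, hω k hk' m n h2, hω g hg m n hn, sub_self]
  · refine PadicInt.ext_of_toZModPow.1 fun m => ?_
    obtain ⟨n, hn⟩ := ex g hg m
    obtain ⟨n', hn'⟩ := ex k hk m
    rw [map_add, hω g hg m n hn, hω k hk m n' hn', hω _ (mul_mem hg hk) m _ (b2b_mul hn hn'),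
      Nat.cast_add]
  · refine PadicInt.ext_of_toZModPow.1 fun m => ?_
    rw [map_natCast]
    exact hω φ hφ.1 m n (b2b_of_V (pos m) fun x hx _ => hφ.2 x hx)

theorem b2c_cyc {n : ℕ} (hw : w.p ≠ 3) (hφ : IsFrob w n φ) : cyc φ = n := by
  refine PadicInt.ext_of_toZModPow.1 fun m => ?_
  have hz := zeta_prim m
  have h0 : (3 : ℕ) ^ m ≠ 0 := by positivity
  have h1 := w.V_root_of_unity h0 hz.pow_eq_one
  have h2 : zeta m ^ n ≠ 0 := pow_ne_zero _ (hz.ne_zero h0)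
  have h3 : φ (zeta m) / zeta m ^ n = 1 := by
    refine w.eq_one_of_root (n := 3 ^ m) (fun e => hw ((Nat.prime_dvd_prime_iff_eq w.prime
      Nat.prime_three).1 (w.prime.dvd_of_dvd_pow e))) ?_ ?_
    · rw [div_pow, ← map_pow, pow_right_comm, hz.pow_eq_one, map_one, one_pow, div_one]
    · rw [div_sub_one h2, map_div₀, map_pow, h1, one_pow, div_one]
      exact hφ.2 _ h1.le
  have h4 : ∀ k : ℕ, zeta m ^ (k : ZMod (3 ^ m)).val = zeta m ^ k := fun k => by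
    rw [ZMod.val_natCast, ← pow_eq_pow_mod _ hz.pow_eq_one]
  have h5 := smul_zeta_val m φ (1 : ℕ)
  rw [h4, pow_one, Nat.cast_one, mul_one, (div_eq_one_iff_eq h2).1 h3, ← h4] at h5
  rw [map_natCast]
  exact (zeta_val_inj h5).symm

theorem cyc_ine (hw : w.p ≠ 3) (hg : g ∈ Ine w) : cyc g = 1 := by
  simpa using b2c_cyc hw (isFrob_one.2 hg)

theorem cyc_frob {n : ℕ} (hw : w.p ≠ 3) (hφ : IsFrob w n φ) : cyc φ = n := b2c_cyc hw hφ

theorem cy_ine {m : ℕ} (hw : w.p ≠ 3) (hg : g ∈ Ine w) : cy m g = 1 := by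
  rw [cy, cyc_ine hw hg, map_one]

theorem ine_le_GK3 (hw : w.p ≠ 3) : Ine w ≤ GK 3 := fun _ hg => mem_GK3.2 (cy_ine hw hg)

end Pool.Agent.H3
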