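import Pool.Agent.Lib.MP_23455a_nt.H3.BAb
import Pool.Agent.Lib.MP_23455a_nt.H3.BAc
import Pool.Agent.Lib.MP_696deb_nt.B2.B4a

set_option autoImplicit false

open scoped NNReal Classical NumberTheorySymbols
open Filter Topology Finset

namespace Pool.Agent.H3

open Pool.Agent.Lib.MP_696deb_nt.B2

variable {H D : Subgroup Gam} {w : Plc} {F : Type*} [Group F]

theorem b4a_ndvd (hw : w.p ≠ 3) (m : ℕ) : ¬ w.p ∣ 3 ^ m := fun h =>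
  hw ((Nat.prime_dvd_prime_iff_eq w.prime Nat.prime_three).1 (w.prime.dvd_of_dvd_pow h))

/-- Frobenius elements on roots of unity of three-power order. -/
theorem b4a_frob_root (hw : w.p ≠ 3) {n m : ℕ} {φ : Gam} (hφ : IsFrob w n φ) {ζ : Qbar}
    (h : ζ ^ 3 ^ m = 1) : φ ζ = ζ ^ n := by
  have h1 : w.V ζ = 1 := w.V_root_of_unity (pow_ne_zero m three_ne_zero) h
  have h0 : ζ ≠ 0 := by
    rintro rfl
    simp at h1
  rw [← div_eq_one_iff_eq (pow_ne_zero n h0)]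
  refine w.eq_one_of_root (b4a_ndvd hw m) ?_ ?_
  · rw [div_pow, ← map_pow, h, map_one, ← pow_mul, mul_comm, pow_mul, h, one_pow, div_one]
  · rw [div_sub_one (pow_ne_zero n h0), map_div₀, map_pow, h1, one_pow, div_one]
    exact hφ.2 ζ h1.le

theorem b4a_fix_root (hw : w.p ≠ 3) {m : ℕ} {σ : Gam} (hσ : σ ∈ Ine w) {ζ : Qbar}
    (h : ζ ^ 3 ^ m = 1) : σ ζ = ζ := by
  simpa using b4a_frob_root hw (isFrob_one.2 hσ) h

theorem b4a_pow_root (hw : w.p ≠ 3) {m : ℕ} {σ : Gam} (hσ : σ ∈ Ine w) {r ζ : Qbar}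
    (h : ζ ^ 3 ^ m = 1) (hr : σ r = r * ζ) (k : ℕ) : (σ ^ k) r = r * ζ ^ k := by
  induction k with
  | zero => simp
  | succ k ih =>
    rw [pow_succ', AlgEquiv.mul_apply, ih, map_mul, map_pow, hr, b4a_fix_root hw hσ h]
    ring

theorem b4a_odd (hw : w.p ≠ 3) {U : Subgroup Gam} (hU : Op U) (hN : U.Normal) {a : Qbar}
    (a0 : a ≠ 0) (ha : w.V a < 1) : ∃ M : ℕ, ∀ σ ∈ Ine w, ∀ r : Qbar, r ^ 3 ^ M = a → σ r = r →
      ∃ N, Nat.Coprime 3 N ∧ σ ^ N ∈ U := by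
  obtain ⟨U', u1, -, u2⟩ := sm_apply (H := ⊤) a
  obtain ⟨ϖ, -, p0, p1, hϖ⟩ := exists_unif (hU.inf u1) w
  obtain ⟨e, he⟩ := hϖ a (fun g hg => (u2 1 trivial g trivial (by simpa using hg.1.2)).symm) a0
  obtain ⟨e, rfl⟩ : ∃ n : ℕ, e = n := by
    refine Int.eq_ofNat_of_zero_le (not_lt.1 fun h => ?_)
    exact absurd (he ▸ ha) (not_lt.2 (one_le_zpow_of_nonpos₀ p0 p1.le h.le))
  have e0 : e ≠ 0 := by
    rintro rfl
    simp [he] at ha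
  obtain ⟨M, e', e1, rfl⟩ := Nat.exists_eq_pow_mul_and_not_dvd e0 3 (by norm_num)
  obtain ⟨j, n, n1, n2⟩ := Nat.exists_eq_pow_mul_and_not_dvd hU.index_ne_zero 3 (by norm_num)
  refine ⟨M, fun σ hσ r hr hs => ⟨e' * n, ((Nat.Prime.coprime_iff_not_dvd Nat.prime_three).2
    e1).mul_right ((Nat.Prime.coprime_iff_not_dvd Nat.prime_three).2 n1), ?_⟩⟩
  have r0 : r ≠ 0 := by
    rintro rfl
    exact a0 (by rw [← hr, zero_pow (pow_ne_zero M three_ne_zero)])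
  have hv : w.V r = w.V ϖ ^ e' := by
    rw [← pow_left_inj₀ zero_le zero_le (pow_ne_zero M three_ne_zero), ← map_pow, hr, he,
      zpow_natCast, ← pow_mul, mul_comm]
  refine b4a_mem hU hN (pow_mem hσ.1 _) (fun y hy y0 => ?_) (b4a_ndvd hw j) ?_
  · obtain ⟨k, hk⟩ := hϖ y (fun g hg => hy g hg.1.1) y0
    have v0 : w.V y ≠ 0 := (map_ne_zero _).2 y0
    have h1 : w.V (y ^ e' / r ^ k) = 1 := by
      rw [map_div₀, map_pow, map_zpow₀, hk, hv, ← zpow_natCast, ← zpow_natCast, ← zpow_mul,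
        ← zpow_mul, mul_comm, div_self (zpow_ne_zero _ p0.ne')]
    have h2 := b4a_unit hσ h1 (ζ := (σ y / y) ^ e') (by
      rw [map_div₀, map_pow, map_zpow₀, hs, div_pow]
      field_simp)
    have h3 := w.V.map_add_lt (b4a_tame hσ y0 e') h2
    rw [sub_add_sub_cancel, div_sub_one y0, map_div₀, div_lt_one (pos_iff_ne_zero.2 v0)] at h3
    rw [pow_mul]
    exact b4a_wild_pow (pow_mem hσ.1 _) y0 h3 n
  · rw [← pow_mul, mul_assoc, mul_comm n, ← n2, mul_comm, pow_mul]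
    exact pow_mem (U.pow_index_mem σ) _

theorem b4a_kill (hw : w.p ≠ 3) (hD : D ≤ Ine w) {π : Gam → F} (h1 : Sm D π) (h2 : IsMul D π)
    (h3 : ∀ g ∈ D, ∃ n : ℕ, π g ^ 3 ^ n = 1) {a : Qbar} (a0 : a ≠ 0) (ha : w.V a < 1) :
    ∃ M : ℕ, ∀ σ ∈ D, ∀ r : Qbar, r ^ 3 ^ M = a → σ r = r → π σ = 1 := by
  obtain ⟨U, u1, u2, u3⟩ := h1
  obtain ⟨M, hM⟩ := b4a_odd hw u1 u2 a0 ha
  refine ⟨M, fun σ hσ r hr hs => ?_⟩
  obtain ⟨N, n1, n2⟩ := hM σ (hD hσ) r hr hs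
  obtain ⟨n, hn⟩ := h3 σ hσ
  have := u3 1 D.one_mem _ (pow_mem hσ N) (by simpa using n2)
  rw [b4a_one h2, b4a_pow h2 hσ] at this
  exact (pow_eq_one_iff_of_coprime (n1.pow_left n)).1 ⟨hn, this.symm⟩

theorem b4a_gen (hw : w.p ≠ 3) (hD : D ≤ Ine w) {π : Gam → F} (h1 : Sm D π) (h2 : IsMul D π)
    (h3 : ∀ g ∈ D, ∃ n : ℕ, π g ^ 3 ^ n = 1) {a s : Qbar} (a0 : a ≠ 0) (ha : w.V a < 1)
    (hx : Fx D a) (hs : s ^ 3 = a) {τ : Gam} (hτ : τ ∈ D) (ht : τ s ≠ s) {σ : Gam} (hσ : σ ∈ D) :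
    ∃ k : ℕ, π σ = π τ ^ k := by
  obtain ⟨M, hM⟩ := b4a_kill hw hD h1 h2 h3 a0 ha
  obtain ⟨r, hr⟩ := IsAlgClosed.exists_pow_nat_eq s (pow_pos three_pos M)
  have hr' : r ^ 3 ^ (M + 1) = a := by rw [pow_succ, pow_mul, hr, hs]
  have r0 : r ≠ 0 := by
    rintro rfl
    exact a0 (by rw [← hr', zero_pow (pow_ne_zero _ three_ne_zero)])
  obtain ⟨ζ, z1, z2⟩ := b4a_root r0 hr' (hx τ hτ)
  obtain ⟨ξ, x1, x2⟩ := b4a_root r0 hr' (hx σ hσ)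
  have z3 : ¬ ζ ^ 3 ^ M = 1 := fun h => ht (by rw [← hr, map_pow, z2, mul_pow, h, mul_one])
  have z4 := IsPrimitiveRoot.orderOf ζ
  rw [orderOf_eq_prime_pow z3 z1] at z4
  obtain ⟨k, -, hk⟩ := z4.eq_pow_of_pow_eq_one x1
  refine ⟨k, ?_⟩
  rw [← b4a_pow h2 hτ]
  refine b4a_eq h2 (pow_mem hτ k) hσ (hM _ (mul_mem (inv_mem (pow_mem hτ k)) hσ) (r ^ 3)
    (by rw [← pow_mul, ← pow_succ', hr']) ?_)
  rw [map_pow, AlgEquiv.mul_apply, x2, ← hk, ← b4a_pow_root hw (hD hτ) z1 z2, ← AlgEquiv.mul_apply,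
    inv_mul_cancel, AlgEquiv.one_apply]

/-- The pro-three quotient of inertia at a place not above three is procyclic. -/
theorem tame_cyc (hH : Op H) (hw : w.p ≠ 3) : ∃ τ ∈ H ⊓ Ine w, ∀ (F : Type) [Group F]
    (π : Gam → F), Sm (H ⊓ Ine w) π → IsMul (H ⊓ Ine w) π →
    (∀ g ∈ H ⊓ Ine w, ∃ n : ℕ, π g ^ 3 ^ n = 1) → ∀ σ ∈ H ⊓ Ine w, ∃ k : ℕ, π σ = π τ ^ k := by
  obtain ⟨ϖ, hx, p0, p1, hϖ⟩ := exists_unif hH w
  obtain ⟨s, hs⟩ := IsAlgClosed.exists_pow_nat_eq ϖ three_pos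
  have a0 : ϖ ≠ 0 := (map_ne_zero w.V).1 p0.ne'
  have h : ¬ Fx (H ⊓ Ine w) s := fun h => by
    obtain ⟨k, hk⟩ := hϖ s h (by
      rintro rfl
      exact a0 (by rw [← hs]; simp))
    have h1 : w.V ϖ ^ (1 : ℤ) = w.V ϖ ^ (k * 3) := by
      rw [zpow_mul, ← hk, zpow_one, ← hs, map_pow, zpow_ofNat]
    have := zpow_right_injective₀ p0 p1.ne h1
    omega
  obtain ⟨τ, hτ⟩ := not_forall.1 h
  obtain ⟨t1, t2⟩ := Classical.not_imp.1 hτ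
  exact ⟨τ, t1, fun F _ π h1 h2 h3 σ hσ =>
    b4a_gen hw inf_le_right h1 h2 h3 a0 p1 (fun g hg => hx g hg.1) hs t1 t2 hσ⟩

theorem tame_gen (hw : w.p ≠ 3) {τ : Gam} (hτ : Gen w τ) {π : Gam → F} (h1 : Sm (Ine w) π)
    (h2 : IsMul (Ine w) π) (h3 : ∀ g ∈ Ine w, ∃ n : ℕ, π g ^ 3 ^ n = 1) {σ : Gam}
    (hσ : σ ∈ Ine w) : ∃ k : ℕ, π σ = π τ ^ k :=
  (IsAlgClosed.exists_pow_nat_eq (w.p : Qbar) three_pos).elim fun s hs =>
    b4a_gen hw le_rfl h1 h2 h3 (b4a_V_p w).1 (b4a_V_p w).2 (fun g _ => map_natCast g _) hs hτ.1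
      (hτ.2 s hs) hσ

/-- The action of Frobenius on tame inertia. -/
theorem tame_frob (hw : w.p ≠ 3) {π : Gam → F} (h1 : Sm (H ⊓ Ine w) π) (h2 : IsMul (H ⊓ Ine w) π)
    (h3 : ∀ g ∈ H ⊓ Ine w, ∃ n : ℕ, π g ^ 3 ^ n = 1) (hH : Op H) {n : ℕ} {φ σ : Gam}
    (hφ : IsFrob w n φ) (hσ : σ ∈ H ⊓ Ine w) (hσ' : φ * σ * φ⁻¹ ∈ H) :
    π (φ * σ * φ⁻¹) = π σ ^ n := by
  have _ := hH
  obtain ⟨M, hM⟩ := b4a_kill hw inf_le_right h1 h2 h3 (b4a_V_p w).1 (b4a_V_p w).2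
  obtain ⟨r, hr⟩ := IsAlgClosed.exists_pow_nat_eq (w.p : Qbar) (pow_pos three_pos M)
  have r0 : r ≠ 0 := by
    rintro rfl
    exact (b4a_V_p w).1 (by rw [← hr, zero_pow (pow_ne_zero _ three_ne_zero)])
  obtain ⟨ζ, z1, z2⟩ := b4a_root r0 hr (map_natCast σ _)
  obtain ⟨ξ, x1, x2⟩ := b4a_root r0 hr (map_natCast φ⁻¹ _)
  have hc : φ * σ * φ⁻¹ ∈ H ⊓ Ine w := ⟨hσ', conj_mem_Ine hφ.1 hσ.2⟩
  rw [← b4a_pow h2 hσ]
  refine b4a_eq h2 (pow_mem hσ n) hc (hM _ (mul_mem (inv_mem (pow_mem hσ n)) hc) r hr ?_)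
  have e : (φ * σ * φ⁻¹) r = (σ ^ n) r := by
    have e1 : σ (φ⁻¹ r) = φ⁻¹ r * ζ := by
      rw [x2, map_mul, z2, b4a_fix_root hw hσ.2 x1]
      ring
    rw [AlgEquiv.mul_apply, AlgEquiv.mul_apply, e1, map_mul, ← AlgEquiv.mul_apply, mul_inv_cancel,
      AlgEquiv.one_apply, b4a_frob_root hw hφ z1, b4a_pow_root hw hσ.2 z1 z2]
  rw [AlgEquiv.mul_apply, e, ← AlgEquiv.mul_apply, inv_mul_cancel, AlgEquiv.one_apply]

theorem b4a_zero (hw : w.p ≠ 3) {m : ℕ} {c : ZMod (3 ^ m)} {σ : Gam} (hσ : σ ∈ Ine w) {u : Qbar}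
    (hu : w.V u = 1) (h : σ u = u * zeta m ^ c.val) : c = 0 := by
  refine zeta_val_inj (m := m) ?_
  rw [ZMod.val_zero, pow_zero]
  refine w.eq_one_of_root (b4a_ndvd hw m) ?_ (b4a_unit hσ hu h)
  rw [← pow_mul, mul_comm, pow_mul, (zeta_prim m).pow_eq_one, one_pow]

/-- A cubic Kummer cocycle is unramified at a place not above three if and only if the valuation
is divisible by three. -/
theorem kum_unr_iff (hH : Op H) (hw : w.p ≠ 3) {a : Qbar} {κ : Gam → ZMod (3 ^ 1)}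
    (h : Kum 1 (H ⊓ Dec w) a κ) :
    (∀ σ ∈ H ⊓ Ine w, κ σ = 0) ↔ ∃ y, Fx H y ∧ w.V a = w.V y ^ 3 := by
  obtain ⟨r, r0, hr, h⟩ := h
  rw [pow_one] at hr
  constructor
  · intro h0
    obtain ⟨ϖ, hx, -, -, hϖ⟩ := exists_unif hH w
    obtain ⟨k, hk⟩ := hϖ r (fun g hg => by
      rw [h g ⟨hg.1, hg.2.1⟩, h0 g hg, ZMod.val_zero, pow_zero, mul_one]) r0
    exact ⟨ϖ ^ k, fun g hg => by rw [map_zpow₀, hx g hg], by rw [← hr, map_pow, hk, map_zpow₀]⟩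
  · rintro ⟨y, hy, hv⟩ σ hσ
    rw [← hr, map_pow, pow_left_inj₀ zero_le zero_le three_ne_zero] at hv
    have v0 : w.V y ≠ 0 := hv ▸ (map_ne_zero w.V).2 r0
    refine b4a_zero hw hσ.2 (u := r / y) (by rw [map_div₀, hv, div_self v0]) ?_
    rw [map_div₀, hy σ hσ.1, h σ ⟨hσ.1, hσ.2.1⟩]
    ring

/-- Kummer cocycles of units are unramified at places not above three. -/
theorem Kum.unr (hw : w.p ≠ 3) {m : ℕ} {a : Qbar} {κ : Gam → ZMod (3 ^ m)} (h : Kum m D a κ)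
    (ha : w.V a = 1) : ∀ σ ∈ D ⊓ Ine w, κ σ = 0 := by
  obtain ⟨r, -, hr, h⟩ := h
  rw [← hr, map_pow, pow_eq_one_iff_of_nonneg zero_le (pow_ne_zero m three_ne_zero)] at ha
  exact fun σ hσ => b4a_zero hw hσ.2 ha (h σ hσ.1)

theorem exists_gen (hw : w.p ≠ 3) : ∃ τ, Gen w τ := by
  obtain ⟨s, hs⟩ := IsAlgClosed.exists_pow_nat_eq (w.p : Qbar) three_pos
  have s0 : s ≠ 0 := by
    rintro rfl
    exact (b4a_V_p w).1 (by rw [← hs]; simp)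
  have p0 : (0 : ℝ≥0) < (w.p : ℝ≥0)⁻¹ := inv_pos.2 (by exact_mod_cast w.prime.pos)
  have p1 : (w.p : ℝ≥0)⁻¹ < 1 := w.hV ▸ (b4a_V_p w).2
  have h : ¬ Fx (Ine w) s := fun h => by
    obtain ⟨k, hk⟩ := V_of_fx_ine h s0
    have h1 : (w.p : ℝ≥0)⁻¹ ^ (1 : ℤ) = (w.p : ℝ≥0)⁻¹ ^ (k * 3) := by
      rw [zpow_mul, inv_zpow _ k, ← hk, zpow_one, ← w.hV, ← hs, map_pow, zpow_ofNat]
    have := zpow_right_injective₀ p0 p1.ne h1
    omega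
  obtain ⟨τ, hτ⟩ := not_forall.1 h
  obtain ⟨t1, t2⟩ := Classical.not_imp.1 hτ
  refine ⟨τ, t1, fun r hr e => t2 ?_⟩
  have r0 : r ≠ 0 := by
    rintro rfl
    exact (b4a_V_p w).1 (by rw [← hr]; simp)
  have h2 := b4a_fix_root hw (m := 1) t1 (ζ := s / r)
    (by rw [pow_one, div_pow, hs, hr, div_self (b4a_V_p w).1])
  rw [map_div₀, e] at h2
  exact (div_left_inj' r0).1 h2

end Pool.Agent.H3
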