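import Pool.Agent.Lib.MP_23455a_nt.H3.CFb

/-! The theorem of Albert, Brauer, Hasse and Noether. -/

set_option autoImplicit false

open scoped NNReal Classical
open Filter Topology Finset

namespace Pool.Agent.H3

open Pool.Agent.Lib.MP_696deb_nt.B2

variable {H : Subgroup Gam} {m : ℕ} {c : Gam → Gam → ZMod (3 ^ m)} {γ : Gam → Gam → Qbar}

theorem abhn_coh (hH : Op H) (hγ : CQ H γ) (hm : Coh H (γ ^ 3 ^ m) 1)
    (h : ∀ w : Plc, Coh (H ⊓ Dec w) γ 1) : Coh H γ 1 := by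
  obtain ⟨U, hU, -, hs⟩ := hγ.exists_split
  obtain ⟨H', a1, a2, a3, a4⟩ := devissage3 ⊤ (fun H' => Coh H' γ 1) hH hU
    (fun H' _ b1 b2 => hs.mono (le_inf (by simpa using b2) b1))
    fun H' H'' χ s c3 b1 b2 b3 b4 c2 c4 c5 c6 b5 => by
      have c1 : Op (H' ⊓ ⊤) := Subgroup.isOpen_mono (le_inf b2 le_top) b1
      have c8 : H' ⊓ ⊤ ≤ GK 3 := inf_le_left.trans b4
      have c9 : H' ⊓ ⊤ ≤ H := inf_le_left.trans b3
      obtain ⟨d, hd⟩ := kum_surj (m := 1) c1.closed c2 fun g hg k hk => by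
        rw [mem_GK3.1 (c8 hg), one_mul]
        exact c3 g hg k hk
      obtain ⟨a, a0, ha, c7⟩ := coh_Cy (n := 3 ^ 1) c1.closed c2 c3 c4 c5 (hγ.mono c9)
        (b5.mono (c6.le.trans inf_le_left))
      exact (c7.trans (hnt3 c1 c8 hd a0 ha fun w => (c7.mono inf_le_left).symm.trans
        ((h w).mono (inf_le_inf_right _ c9)))).mono (le_inf le_rfl le_top)
  exact coh_of_coprime a1 hγ (a4.mono inf_le_left)
    (by simpa [Subgroup.inf_relIndex_right] using a3) hm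

theorem abhn_spl (hH : Op H) (hc : C2 m H c) (h : ∀ w : Plc, Spl m (H ⊓ Dec w) c) : Spl m H c :=
  (spl_iff_coh hH.closed hc).2 (abhn_coh (m := m) hH hc.cq (by rw [zc_pow]; exact Coh.refl H 1) fun w =>
    (spl_iff_coh (hH.closed.inter (closed_Dec w)) (hc.mono inf_le_left)).1 (h w))

end Pool.Agent.H3
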