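import Pool.Agent.Lib.MP_23455a_nt.H3.CLl

/-! The local invariant is compatible with conjugation. -/

set_option autoImplicit false

open scoped NNReal Classical
open Filter Topology Finset

namespace Pool.Agent.H3

open Pool.Agent.Lib.MP_696deb_nt.B2

variable {m : ℕ} {H : Subgroup Gam} {w : Plc} {c : Gam → Gam → ZMod (3 ^ m)}

theorem LD.conj_le (hn : H.Normal) {v : Plc} (L : LD H w) (L' : LD H v) {g : Gam} (e : g • w = v) :
    L'.f ∣ L.f ∧ w.V L.π ≤ v.V L'.π := by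
  subst e
  refine ⟨L'.dvd _ _ (hn.conj_mem _ L.φ_mem g) (L.frob.smul g), ?_⟩
  obtain ⟨a, ha⟩ := L'.val (g L.π) (fun σ hσ => by
    rw [← g.apply_symm_apply (σ _)]
    exact congrArg g (L.π_fx (g⁻¹ * σ * g) (hn.conj_mem' _ hσ.1 g))) (cla_ne g L.π_ne)
  rw [smul_V, show g⁻¹ (g L.π) = L.π from g.symm_apply_apply _] at ha
  rw [ha]
  simpa using zpow_le_zpow_right_of_le_one₀ L'.π_pos L'.π_lt.le
    ((zpow_lt_one_iff_right_of_lt_one₀ L'.π_pos L'.π_lt).1 (ha ▸ L.π_lt) : (1 : ℤ) ≤ a)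

theorem linv_conj (g : Gam) (hH : Op H) (hn : H.Normal) (h : C2 m (H ⊓ Dec w) c) :
    linv m H (g • w) (fun x y => cy m g * c (g⁻¹ * x * g) (g⁻¹ * y * g)) = linv m H w c := by
  obtain ⟨L⟩ := exists_LD hH w
  obtain ⟨L'⟩ := exists_LD hH (g • w)
  obtain ⟨k, ⟨b, b1, b2, b3⟩, h2⟩ := linv_spec hH L h
  obtain ⟨f1, v1⟩ := L.conj_le hn L' rfl
  obtain ⟨f2, v2⟩ := L'.conj_le hn L (inv_smul_smul g w)
  have cm : ∀ x ∈ H ⊓ Dec (g • w), g⁻¹ * x * g ∈ H ⊓ Dec w := fun x hx =>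
    ⟨hn.conj_mem' _ hx.1 g, mem_Dec_smul.1 hx.2⟩
  have ml : ∀ x y : Gam, g⁻¹ * (x * y) * g = g⁻¹ * x * g * (g⁻¹ * y * g) := fun x y => by group
  have ap : ∀ (x : Gam) (z : Qbar), x (g z) = g ((g⁻¹ * x * g) z) := fun x z =>
    (g.apply_symm_apply _).symm
  have c2 : IsHom (H ⊓ Dec (g • w)) fun x => L.om m (g⁻¹ * x * g) := fun x hx y hy => by
    simp only [ml, L.om_hom m _ (cm x hx) _ (cm y hy)]
  have e1 : L.om m (g⁻¹ * L'.φ * g) = 1 := by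
    have k1 := L'.frob.smul g⁻¹
    rw [inv_smul_smul, inv_inv, Nat.dvd_antisymm f1 f2] at k1
    have k2 := L.frob.inv_mul_mem k1
    have k3 := mul_mem (inv_mem L.φ_mem') (cm _ L'.φ_mem')
    have k4 := L.om_hom m _ L.φ_mem' _ k3
    rwa [mul_inv_cancel_left, L.om_ine m ⟨k3.1, k2⟩, L.om_φ, add_zero] at k4
  have e2 := L'.unr_eq ((L.om_sm m).conj g⁻¹ g cm) c2 fun σ hσ =>
    L.om_ine m ⟨hn.conj_mem' _ hσ.1 g, mem_Ine_smul.1 hσ.2⟩
  simp only [e1, one_mul] at e2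
  rw [h2]
  refine linv_eq hH L' (Coh.trans ⟨fun x => g (b (g⁻¹ * x * g)), (b1.conj g⁻¹ g cm).comp g,
    fun x => cla_ne g (b2 _), fun x hx y hy => ?_⟩ (L'.Cy_val hH m (a := g (L.π ^ k))
      (fun x hx => by rw [ap, L.fx_zpow k _ (cm x hx)]) ?_))
  · have k1 := congrArg g (b3 _ (cm x hx) _ (cm y hy))
    simp only [zc, LD.ur, Cy, car, map_mul, smul_zeta_val, map_pow g (L.π ^ k), e2 x hx,
      e2 y hy] at k1
    simp only [zc, Cy, car, ml, ap x, k1]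
  · rw [smul_V, show g⁻¹ (g (L.π ^ k)) = L.π ^ k from g.symm_apply_apply _, map_zpow₀,
      le_antisymm v1 v2]

end Pool.Agent.H3
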