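import Pool.Agent.Lib.MP_23455a_nt.H3.CRd
import Pool.Agent.Lib.MP_23455a_nt.H3.CRe
import Pool.Agent.Lib.MP_696deb_nt.B2.CRf

/-! The reciprocity law. -/

set_option autoImplicit false

open scoped NNReal Classical
open Filter Topology Finset

namespace Pool.Agent.H3

open Pool.Agent.Lib.MP_696deb_nt.B2

variable {m : ℕ} {H : Subgroup Gam} {c : Gam → Gam → ZMod (3 ^ m)}

theorem crf_ur_succ {w : Plc} (L : LD H w) {t d M : ℕ} (hM : M = t + d) (k : ℤ) :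
    Coh (H ⊓ Dec w) (L.ur t k) (L.ur M (3 ^ d * k)) := by
  subst hM
  exact L.ur_succ t d k

/-- The invariant of a class that is cyclic for an unramified character. -/
theorem linv_of_Cy (hH : Op H) {w : Plc} (L : LD H w) (hc : C2 m (H ⊓ Dec w) c) {t : ℕ}
    {χ : Gam → ZMod (3 ^ t)} (h1 : Sm (H ⊓ Dec w) χ) (h2 : IsHom (H ⊓ Dec w) χ)
    (h3 : ∀ σ ∈ H ⊓ Ine w, χ σ = 0) {a : Qbar} (ha : Fx (H ⊓ Dec w) a) {k : ℤ}
    (hk : w.V a = w.V L.π ^ k) (h : Coh (H ⊓ Dec w) (zc m c) (Cy (3 ^ t) χ a)) :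
    (3 : ℤ) ^ (m + t) ∣
      3 ^ t * ((linv m H w c).val : ℤ) - 3 ^ m * (((χ L.φ).val : ℤ) * k) := by
  obtain ⟨j, hj, e⟩ := linv_spec hH L hc
  have a0 : a ≠ 0 := by
    rintro rfl
    rw [map_zero] at hk
    exact (zpow_pos L.π_pos k).ne hk
  have c1 : Coh (H ⊓ Dec w) (Cy (3 ^ t) χ a)
      (Cy (3 ^ t) (fun g => ((χ L.φ).val : ZMod (3 ^ t)) * L.om t g) a) :=
    Cy_congr (fun g hg => by rw [ZMod.natCast_zmod_val]; exact L.unr_eq h1 h2 h3 g hg) a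
  have c2 := Cy_nsmul (L.om_sm t) (L.om_hom t) a0 ha (χ L.φ).val
  have c3 : Coh (H ⊓ Dec w) (Cy (3 ^ t) (L.om t) (a ^ (χ L.φ).val))
      (L.ur t (((χ L.φ).val : ℤ) * k)) :=
    L.Cy_val hH t (fun g hg => by rw [map_pow, ha g hg])
      (by rw [map_pow, hk, mul_comm, zpow_mul, zpow_natCast])
  have c4 := (crf_ur_succ L (rfl : m + t = m + t) j).symm.trans (hj.symm.trans
    (h.trans (c1.trans (c2.trans (c3.trans (crf_ur_succ L (Nat.add_comm m t) _))))))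
  have c5 := (ZMod.intCast_eq_intCast_iff_dvd_sub _ _ _).1 ((L.ur_coh_iff hH _ _ _).1 c4)
  have c6 : ((3 ^ m : ℕ) : ℤ) ∣ j - ((linv m H w c).val : ℤ) := by
    rw [← ZMod.intCast_eq_intCast_iff_dvd_sub, Int.cast_natCast, ZMod.natCast_zmod_val, e]
  push_cast at c5 c6
  obtain ⟨x, hx⟩ := c5
  obtain ⟨y, hy⟩ := c6
  refine ⟨-x - y, ?_⟩
  rw [pow_add] at hx ⊢
  linear_combination -hx - 3 ^ t * hy

theorem pow_dvd_relIndex (hH : Op H) {n t : ℕ} {θ : ℤ → ZMod (3 ^ t)} {χ : Gam → ZMod (3 ^ t)}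
    (hθ : Dir n θ) (hχ : IsCyc n θ χ) (h2 : IsHom H χ) {w : Plc} (hw : ¬ w.p ∣ n)
    (h : ∀ j : ℕ, (j : ZMod (3 ^ t)) * θ w.p = 0 → 3 ^ (m + H.index) ∣ j) :
    3 ^ m ∣ (kerOn H χ h2 ⊓ Dec w).relIndex (H ⊓ Dec w) := by
  obtain ⟨L⟩ := exists_LD hH w
  set j := (kerOn H χ h2 ⊓ Dec w).relIndex (H ⊓ Dec w) with hj
  have hN : ((kerOn H χ h2 ⊓ Dec w).subgroupOf (H ⊓ Dec w)).Normal :=
    ⟨fun k hk g => ⟨crf_ker_normal h2 g.2.1 hk.1,
      (Dec w).mul_mem ((Dec w).mul_mem g.2.2 hk.2) ((Dec w).inv_mem g.2.2)⟩⟩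
  have h3 : L.φ ^ j ∈ kerOn H χ h2 :=
    (Subgroup.mem_subgroupOf.1 (Subgroup.pow_index_mem
      ((kerOn H χ h2 ⊓ Dec w).subgroupOf (H ⊓ Dec w)) ⟨L.φ, L.φ_mem'⟩)).1
  have hcop : IsCoprime (w.p : ℤ) n :=
    Nat.isCoprime_iff_coprime.2 ((Nat.Prime.coprime_iff_not_dvd w.prime).2 hw)
  have h4 := h3.2
  rw [crf_hom_pow h2 L.φ_mem, hχ.frob w _ _ hw L.frob, Nat.cast_pow, hθ.pow hcop, ← mul_assoc,
    ← Nat.cast_mul] at h4
  have h5 := h _ h4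
  have h6 : L.f ≤ H.index := by
    have a1 : (H ⊓ Dec w).relIndex (Dec w) ≤ H.index := by
      rw [Subgroup.inf_relIndex_right, ← Subgroup.relIndex_top_right]
      exact Subgroup.relIndex_le_of_le_right le_top
        (by rw [Subgroup.relIndex_top_right]; exact hH.index_ne_zero)
    rw [L.ef] at a1
    exact (Nat.le_mul_of_pos_left _ L.e_pos).trans a1
  obtain ⟨v, u, hu, hf⟩ := Nat.exists_eq_pow_mul_and_not_dvd L.f_pos.ne' 3 (by norm_num)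
  have h7 : v ≤ H.index := by
    have a1 : v < 3 ^ v := Nat.lt_pow_self (by norm_num)
    have a2 : 3 ^ v ≤ L.f := Nat.le_of_dvd L.f_pos ⟨u, hf⟩
    omega
  have h8 : 3 ^ v * 3 ^ m ∣ 3 ^ v * (j * u) := by
    rw [← pow_add, show 3 ^ v * (j * u) = j * L.f by rw [hf]; ring]
    exact (pow_dvd_pow 3 (by omega)).trans h5
  exact (Nat.Coprime.pow_left m ((Nat.Prime.coprime_iff_not_dvd Nat.prime_three).2 hu)).dvd_of_dvd_mul_right
    (Nat.dvd_of_mul_dvd_mul_left (by positivity) h8)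

theorem recip_of (habhn : ∀ (m : ℕ) (H : Subgroup Gam) (c : Gam → Gam → ZMod (3 ^ m)), Op H →
      C2 m H c → (∀ w, linv m H w c = 0) → Spl m H c)
    (s : Finset Plc) (hH : Op H) (hc : C2 m H c) (hs : Apart H s)
    (h : ∀ w, Away H s w → linv m H w c = 0) : ∑ w ∈ s, linv m H w c = 0 := by
  obtain ⟨n, t, θ, hn, hS, hθ, hord⟩ := exists_theta (s.image Plc.p)
    (fun p hp => by
      obtain ⟨w, -, rfl⟩ := mem_image.1 hp
      exact w.prime) (m + H.index)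
  obtain ⟨χ, hχ⟩ := exists_cyc hn hθ
  have away : ∀ w : Plc, w.p ∉ s.image Plc.p → Away H s w := fun w hw v hv g _ e =>
    hw (mem_image.2 ⟨v, hv, by rw [← e]; rfl⟩)
  have sm : ∀ G : Subgroup Gam, Sm G χ := fun G => hχ.sm.mono le_top
  have hm : ∀ G : Subgroup Gam, IsHom G χ := fun G g _ k _ => hχ.hom g trivial k trivial
  obtain ⟨U, hU, hK⟩ := kerOn_open (sm H) (hm H)
  have hK1 : Op (kerOn H χ (hm H)) := hK ▸ hU.inf hH
  have hK2 : kerOn H χ (hm H) ≤ H := fun g hg => hg.1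
  have loc : ∀ w, C2 m (H ⊓ Dec w) c := fun w => hc.mono inf_le_left
  have hsp := habhn m _ c hK1 (hc.mono hK2) fun w => by
    rw [linv_res hK1 hK2 (loc w)]
    by_cases hw : w.p ∈ s.image Plc.p
    · rw [(ZMod.natCast_eq_zero_iff _ _).2
        (pow_dvd_relIndex hH hθ hχ (hm H) (hS _ hw) (hord _ hw)), zero_mul]
    · rw [h w (away w hw), mul_zero]
  have hsp' : Coh (kerOn H χ (hm H)) (zc m c) 1 :=
    coh_one_iff.2 ((spl_iff hK1.closed (hc.mono hK2)).1 hsp)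
  obtain ⟨u, v, ψ, σ, htu, ψ1, ψ2, hσ, hσ1, hψ⟩ := exists_scale (sm H) (hm H)
  have hker : kerOn H ψ ψ2 = kerOn H χ (hm H) := by
    ext g
    refine and_congr_right fun hg => ?_
    rw [← ZMod.val_eq_zero, ← ZMod.val_eq_zero, hψ g hg]
    simp
  obtain ⟨a, a0, ha, hca⟩ := coh_Cy hH.closed ψ1 ψ2 hσ hσ1 hc.cq (hker ▸ hsp')
  have clo : ∀ w, IsClosed ((H ⊓ Dec w : Subgroup Gam) : Set Gam) := fun w =>
    hH.closed.inter (closed_Dec w)
  have nS : ∀ w : Plc, w.p ∣ n → w.p ∉ s.image Plc.p := fun w hw k => hS _ k hw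
  obtain ⟨β, β0, hβ, hap⟩ := approx_norm hH ψ1 ψ2 hσ hσ1 a0 ha n.primeFactors (fun w hw =>
    (hca.mono inf_le_left).symm.trans (coh_one_iff.2 ((spl_iff (clo w) (loc w)).1
      ((linv_zero_iff hH (loc w)).1 (h w (away w (nS w (Nat.dvd_of_mem_primeFactors hw))))))))
    (ε := (n : ℝ≥0)⁻¹) (by positivity)
  have hNf : Fx H (Nm σ (3 ^ u) β) := fx_Nm ψ2 hσ hσ1 hβ
  have hN0 : Nm σ (3 ^ u) β ≠ 0 := prod_ne_zero_iff.2 fun i _ => (map_ne_zero _).2 β0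
  set b := a / Nm σ (3 ^ u) β with hb
  have b0 : b ≠ 0 := div_ne_zero a0 hN0
  have hbf : Fx H b := fun g hg => by rw [hb, map_div₀, ha g hg, hNf g hg]
  have hcb : Coh H (zc m c) (Cy (3 ^ u) ψ b) := by
    have e : a = b * Nm σ (3 ^ u) β := (div_mul_cancel₀ a hN0).symm
    have k1 := (Cy_split_iff hH.closed ψ1 ψ2 hσ hσ1 hN0 hNf).2 ⟨β, hβ, rfl⟩
    have k2 := (Coh.refl H (Cy (3 ^ u) ψ b)).mul k1
    rw [mul_one, ← Cy_mul, ← e] at k2
    exact hca.trans k2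
  have hcb' : Coh H (zc m c) (Cy (3 ^ t) χ b) :=
    hcb.trans (Cy_scale (d := 3 ^ v) (by rw [htu, pow_add]) hψ b).symm
  have near : ∀ w : Plc, w.p ∣ n → w.V (b - 1) ≤ w.V n := fun w hw =>
    (hap w (Nat.mem_primeFactors.2 ⟨w.prime, hw, hn.ne'⟩)).le.trans (crf_V_nat w hn)
  have unit : ∀ w : Plc, w.p ∣ n → w.V b = 1 := fun w hw => by
    have k1 : w.V ((n : ℤ) : Qbar) ≠ 1 := fun k =>
      (Plc.V_int_eq_one w).1 k (Int.natCast_dvd_natCast.2 hw)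
    have k2 : w.V (b - 1) < 1 := by
      refine (near w hw).trans_lt (lt_of_le_of_ne ?_ ?_)
      · simpa using w.V_int_le n
      · simpa using k1
    have k3 := w.V.map_one_add_of_lt k2
    rwa [add_sub_cancel] at k3
  obtain ⟨B, hB⟩ := finite_supp b0
  obtain ⟨s', ss, hs', h1, h2⟩ := exists_apart_ext hH hs (B.filter fun p => ¬ p ∣ n)
  have nd : ∀ w ∈ s', ¬ w.p ∣ n := fun w hw => by
    by_cases k : w ∈ s
    · exact hS _ (mem_image_of_mem _ k)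
    · exact (mem_filter.1 (h1 w hw k).1).2
  let L : ∀ w, LD H w := fun w => (exists_LD hH w).some
  choose k hk using fun w => (L w).val b (fun g hg => hbf g hg.1) b0
  have hsum := sum_theta hH hn hθ hχ hbf b0 near s' hs' nd (fun w hw => by
    by_cases k1 : w.p ∣ n
    · exact unit w k1
    · by_contra k2
      exact h2 w (mem_filter.2 ⟨by_contra fun k3 => k2 (hB w k3), k1⟩) hw) L k fun w _ => hk w
  have hdv : (3 : ℤ) ^ (m + t) ∣ ∑ w ∈ s', (3 ^ t * ((linv m H w c).val : ℤ) -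
      3 ^ m * (((χ (L w).φ).val : ℤ) * k w)) :=
    dvd_sum fun w hw => linv_of_Cy hH (L w) (loc w) (sm _) (hm _)
      (fun g hg => hχ.ine w (nd w hw) g hg.2) (fun g hg => hbf g hg.1) (hk w)
      (hcb'.mono inf_le_left)
  rw [sum_sub_distrib, ← mul_sum, ← mul_sum] at hdv
  have h3 : ((3 ^ t : ℕ) : ℤ) ∣ ∑ w ∈ s', (((χ (L w).φ).val : ℤ) * k w) := by
    rw [← ZMod.intCast_zmod_eq_zero_iff_dvd]
    push_cast
    simpa only [ZMod.natCast_zmod_val] using hsum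
  push_cast at h3
  have h4 : ((3 ^ m : ℕ) : ℤ) ∣ ∑ w ∈ s', ((linv m H w c).val : ℤ) := by
    obtain ⟨x, hx⟩ := hdv
    obtain ⟨y, hy⟩ := h3
    refine ⟨x + y, mul_left_cancel₀ (pow_ne_zero t (three_ne_zero (α := ℤ))) ?_⟩
    rw [hy, pow_add] at hx
    push_cast
    linear_combination hx
  rw [← ZMod.intCast_zmod_eq_zero_iff_dvd] at h4
  push_cast at h4
  simp only [ZMod.natCast_zmod_val] at h4
  rw [← h4]
  exact sum_subset ss fun w hw k1 => h w (h1 w hw k1).2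

end Pool.Agent.H3
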