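import Pool.Agent.Lib.MP_23455a_nt.H3.CFc
import Pool.Agent.Lib.MP_23455a_nt.H3.CFd
import Pool.Agent.Lib.MP_23455a_nt.H3.CL
import Pool.Agent.Lib.MP_23455a_nt.H3.CRf

/-! Class field theory at the prime three. -/

set_option autoImplicit false

open scoped NNReal Classical
open Filter Topology Finset

namespace Pool.Agent.H3

open Pool.Agent.Lib.MP_696deb_nt.B2

theorem linv_abhn {H : Subgroup Gam} {m : ℕ} {c : Gam → Gam → ZMod (3 ^ m)} (hH : Op H)
    (hc : C2 m H c) (h : ∀ w, linv m H w c = 0) : Spl m H c :=
  abhn_spl hH hc fun w => (linv_zero_iff hH (hc.mono inf_le_left)).1 (h w)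

theorem exists_cft : Nonempty CFT :=
  ⟨{ inv := linv
     add := linv_add
     congr := linv_congr
     zero_iff := linv_zero_iff
     red := fun h hH hc => linv_red h hH hc
     inc := linv_inc
     res := linv_res
     conj := linv_conj
     unr := linv_unr
     kum := linv_kum
     unit := fun {_ _ w _ _ _} hH h1 h2 h3 h4 h5 => by
       obtain ⟨L⟩ := exists_LD hH w
       simpa using linv_cup_unr hH L (k := 0) h1 h2 h3 h4 (by simpa using h5)
     crit := fun hH h1 h2 h => linv_crit hH h1 h2 h
     recip := recip_of fun _ _ _ => linv_abhn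
     abhn := linv_abhn }⟩

end Pool.Agent.H3
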