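import Pool.Agent.Lib.MP_23455a_nt.H3.HNb

/-! Local cubes at the tame primes; a number that is not a cube is not a local cube somewhere. -/

set_option autoImplicit false

namespace Pool.Agent.H3.Cub

open Pool.Agent.Lib.MP_580eba_nt NumberField Subgroup WithZero

universe u

variable {K : Type u} [Field K] [NumberField K]

theorem mem_CB_iff_res {v : Pl K} (h : val v (3 : K) = 1) {x : Kˣ} (hx : x ∈ UU v) :
    x ∈ CB v ↔ IsCube (res v x) := by
  rw [mem_CB, U9_eq_U1 h]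
  constructor
  · rintro ⟨t, ht⟩
    have h1 : t ^ 3 ∈ UU v := by simpa using div_mem hx (U1_le_UU v ht)
    have h2 : val v (t : K) = 1 := val_eq_one_of_cube h1
    exact ⟨res v t, by rw [(div_mem_U1_iff_res hx h1).1 ht, ← res_npow h2.le]; rfl⟩
  · rintro ⟨z, hz⟩
    obtain ⟨t, ht, rfl⟩ := exists_unit_res (z := z) (by
      rintro rfl; exact res_ne_zero hx (by simpa using hz))
    exact ⟨t, (div_mem_U1_iff_res hx (pow_mem ht 3)).2 (by
      rw [hz, ← res_npow (mem_UU.1 ht).le]; rfl)⟩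

/-- The units modulo local cubes form a cyclic group of exponent three. -/
theorem hnd_gen {v : Pl K} (h : val v (3 : K) = 1) :
    ∃ γ : Kˣ, ∀ x : Kˣ, ∃ j : Fin 3, x ∈ UU v → x / γ ^ (j : ℕ) ∈ CB v := by
  obtain ⟨g, hg⟩ := IsCyclic.exists_monoid_generator (α := (RF v)ˣ)
  obtain ⟨γ, hγ, h1⟩ := exists_unit_res g.ne_zero
  refine ⟨γ, fun x => ?_⟩
  by_cases hx : x ∈ UU v
  · obtain ⟨n, hn⟩ := hg (Units.mk0 _ (res_ne_zero hx))
    have h2 : x / γ ^ n ∈ U9 v := by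
      rw [U9_eq_U1 h, div_mem_U1_iff_res hx (pow_mem hγ n), Units.val_pow_eq_pow_val,
        res_npow (mem_UU.1 hγ).le, h1]
      exact (congrArg Units.val hn).symm
    refine ⟨⟨n % 3, Nat.mod_lt n (by norm_num)⟩, fun _ => mem_CB.2 ⟨γ ^ (n / 3), ?_⟩⟩
    rwa [div_div, ← pow_mul, ← pow_add, mul_comm, Nat.mod_add_div]
  · exact ⟨0, fun h => absurd h hx⟩

theorem relIndex_CB {v : Pl K} (h : val v (3 : K) = 1) :
    (CB v).relIndex (UU v) ≠ 0 ∧ (CB v).relIndex (UU v) ≤ 3 := by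
  obtain ⟨γ, hγ⟩ := hnd_gen h
  choose j hj using hγ
  simpa using relIndex_ne_zero_of_fun (A := CB v) (B := UU v) j fun x hx y hy e => by
    simpa [e] using div_mem (hj x hx) (hj y hy)

theorem cb_gen {v : Pl K} (h : val v (3 : K) = 1) {x y : Kˣ} (hx : x ∈ UU v) (hy : y ∈ UU v)
    (hy' : y ∉ CB v) : ∃ j : ℕ, x / y ^ j ∈ CB v := by
  obtain ⟨γ, hγ⟩ := hnd_gen h
  obtain ⟨i, hi⟩ := hγ x
  obtain ⟨j, hj⟩ := hγ y
  obtain ⟨m, hm⟩ : ∃ m : ℕ, j * j = 1 + m * 3 := by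
    fin_cases j
    exacts [absurd (by simpa using hj hy) hy', ⟨0, rfl⟩, ⟨1, rfl⟩]
  have h1 := div_mem (div_mem (hi hx) (pow_mem (hj hy) (j * i))) (cube_mem_CB v (γ ^ (i * m)))
  refine ⟨j * i, ?_⟩
  rwa [div_pow, ← pow_mul, ← pow_mul, ← mul_assoc, hm, add_mul, one_mul, pow_add,
    show m * 3 * i = i * m * 3 by ring, div_div_eq_mul_div, ← mul_assoc, div_mul_cancel,
    div_right_comm, mul_div_cancel_right] at h1

theorem exists_inert3 [IsTotallyComplex K] {ζ : K} (hζ : ζ ^ 2 + ζ + 1 = 0) {b : Kˣ}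
    (hb : ¬ IsCube (b : K)) {S : Set (Pl K)} (hS : S.Finite) : ∃ v ∉ S, b ∉ CB v := by
  classical
  by_contra! h
  have h2 := finite_val (three_ne_zero' K)
  obtain ⟨v₀, hv₀⟩ := (hS.union h2).exists_notMem
  obtain ⟨π, hπ0, hπ⟩ := exists_ord_eq v₀ 1
  obtain ⟨q, hq⟩ := exists_approx_unit (insert v₀ h2.toFinset)
    (fun v => if v = v₀ then Units.mk0 π hπ0 else 1) (fun v => val v 9)
    fun v => val_ne_zero v (by norm_num)
  have h3 : ord v₀ (q : K) = 1 := by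
    have : q / Units.mk0 π hπ0 ∈ U9 v₀ := by simpa [mem_U9] using hq v₀ (Finset.mem_insert_self _ _)
    exact (div_mem_UU.1 (Ug_le_UU _ _ _ _ this)).trans hπ
  have h4 : ∀ v, val v (3 : K) < 1 → q ∈ U9 v := fun v hv => by
    have h5 : v ≠ v₀ := by rintro rfl; exact hv₀ (Or.inr hv.ne)
    simpa [mem_U9, h5] using hq v (Finset.mem_insert_of_mem (h2.mem_toFinset.2 hv.ne))
  have h5 := dvd_of_mem_CB (h v₀ fun h5 => hv₀ (Or.inl h5))
  have h8 : ord v₀ ((b * q : Kˣ) : K) = ord v₀ (b : K) + 1 := by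
    rw [Units.val_mul, ord_mul v₀ b.ne_zero q.ne_zero, h3]
  obtain ⟨F, _, _, _, Q, hQ⟩ := exists_CD hζ (b * q) fun h6 => by
    have := dvd_of_isCube v₀ h6
    omega
  have := isTotallyComplex_of_algebra K F
  obtain ⟨E, _, _, _, Q', hQ'⟩ := exists_CD Q.hζ' (mp K F q) fun h6 => by
    obtain ⟨j, h7⟩ := Q.isCube_or h6
    have h9 := dvd_of_isCube v₀ (x := q * Q.a ^ (j : ℕ)) h7
    rw [Units.val_mul, ord_mul v₀ q.ne_zero (Units.ne_zero _), Units.val_pow_eq_pow_val, ord_pow,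
      hQ, h8, h3] at h9
    obtain ⟨t, h7⟩ := h7
    rw [hQ, Units.val_mul] at h7
    fin_cases j
    · simp at h9
    · simp only [Nat.cast_one, one_mul] at h9
      omega
    · have ht : t ≠ 0 := by rintro rfl; simp at h7
      refine hb ⟨b * q / t, ?_⟩
      field_simp
      simp only at h7
      linear_combination -h7
  refine Q'.first (Q'.tame_of fun v hv => ?_) fun j _ => ?_
  · rw [hQ']
    exact mp_mem_CB (mem_sup_right (h4 _ ((val_three_map v).1 hv)))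
  · obtain ⟨x, hx⟩ := exists_approx_unit (finite_und (L := F) hS).toFinset j (fun _ => 1)
      fun _ => one_ne_zero
    refine ⟨x, fun v => ?_⟩
    by_cases hv : und K v ∈ S
    · rw [← inv_mem_iff, inv_div]
      exact Q'.U1_le_Loc v (hx v ((finite_und hS).mem_toFinset.2 hv))
    · refine Q'.mem_Loc_of_split ?_ _
      simpa [hQ, hQ'] using div_mem (Q.mp_a_mem v) (mp_mem_CB (h _ hv))

end Pool.Agent.H3.Cub
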