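import Pool.Agent.Lib.MP_23455a_nt.H3.HNc
import Pool.Agent.Lib.MP_23455a_nt.H3.HNd

/-! The second inequality and the norm theorem for tame cyclic cubic extensions. -/

set_option autoImplicit false

namespace Pool.Agent.H3.Cub

open Pool.Agent.Lib.MP_580eba_nt NumberField Subgroup WithZero

universe u

variable {K M : Type u} [Field K] [Field M] [NumberField K] [NumberField M] [Algebra K M]

theorem CD.second [IsTotallyComplex K] (Q : CD K M) :
    Q.NL.relIndex (JJ K) ≠ 0 ∧ Q.NL.relIndex (JJ K) ≤ 3 := by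
  classical
  obtain ⟨T₀, -, hT₀⟩ := exists_gens (∅ : Finset (Pl K))
  set S := T₀ ∪ (finite_val (three_ne_zero' K)).toFinset ∪ (finite_val Q.a.ne_zero).toFinset with hS
  have hS1 : ∀ j ∈ JJ K, ∃ x : Kˣ, ∀ v ∉ S, j v / x ∈ UU v := fun j hj =>
    (hT₀ j hj).imp fun x hx v hv => hx v fun h => hv (by simp [hS, h])
  have hS2 : ∀ v ∉ S, val v (3 : K) = 1 := fun v hv => by
    by_contra h; exact hv (by simp [hS, h])
  have hS3 : ∀ v ∉ S, Q.a ∈ UU v := fun v hv => by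
    by_contra h; exact hv (by simp [hS, show val v (Q.a : K) ≠ 1 from h])
  clear_value S
  let Λ : Finset (Pl K) → Subgroup Kˣ := fun T => (⨅ v : T, CB v.1) ⊓ ES S
  have hΛ : ∀ T, (ES S).map (pw3 Kˣ) ≤ Λ T := by
    rintro T _ ⟨t, ht, rfl⟩
    exact ⟨mem_iInf.2 fun v => cube_mem_CB _ t, pow_mem ht 3⟩
  have h0 : ((ES S).map (pw3 Kˣ)).relIndex (ES S) ≠ 0 := by rw [index_ES3 Q.hζ]; positivity
  have h0' : ∀ T, (Λ T).relIndex (ES S) ≠ 0 := fun T h => h0 (relIndex_eq_zero_of_le_left (hΛ T) h)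
  obtain ⟨T, ⟨hT1, hT2, hT3⟩, hT4⟩ := Set.Finite.exists_maximalFor'
    (fun T => (Λ T).relIndex (ES S))
    {T : Finset (Pl K) | (∀ v ∈ T, v ∉ S) ∧ (∀ v ∈ T, Q.a ∈ CB v) ∧
      ∀ e : Pl K → Kˣ, (∀ v ∈ T, e v ∈ UU v) → ∃ x ∈ ES S, ∀ v ∈ T, e v / x ∈ CB v}
    ((Set.finite_Iic _).subset (by rintro _ ⟨T, -, rfl⟩; exact relIndex_le_of_le_left (hΛ T) h0))
    ⟨∅, by simp, by simp, fun _ _ => ⟨1, one_mem _, by simp⟩⟩
  have h1 : ∀ v ∉ S, Q.a ∈ CB v → Λ T ≤ CB v := fun v hv ha b hb => by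
    by_contra h1
    have h2 : Λ (insert v T) ≤ Λ T := inf_le_inf_right _
      (le_iInf fun w => iInf_le_of_le ⟨w.1, Finset.mem_insert_of_mem w.2⟩ le_rfl)
    have h3 := relIndex_mul_relIndex _ _ _ h2 (inf_le_right : Λ T ≤ ES S)
    have h4 := hT4 (j := insert v T) ⟨by simpa [hv] using hT1, by simpa [ha] using hT2, fun e he => by
      obtain ⟨x, hx, h4⟩ := hT3 e fun w hw => he w (Finset.mem_insert_of_mem hw)
      obtain ⟨j, h5⟩ := cb_gen (hS2 _ hv) (div_mem (he _ (Finset.mem_insert_self _ _))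
        (mem_ES.1 hx _ hv)) (mem_ES.1 hb.2 _ hv) h1
      refine ⟨x * b ^ j, mul_mem hx (pow_mem hb.2 j), fun w hw => ?_⟩
      rw [← div_div]
      rcases Finset.mem_insert.1 hw with rfl | hw'
      · exact h5
      · exact div_mem (h4 w hw') (pow_mem (mem_iInf.1 hb.1 ⟨w, hw'⟩) j)⟩
      (relIndex_le_of_le_left h2 (h0' _))
    have h5 : (Λ (insert v T)).relIndex (Λ T) = 1 := by
      simp only [← h3] at h4
      refine le_antisymm (Nat.le_of_mul_le_mul_right (by rwa [one_mul]) (Nat.pos_of_ne_zero (h0' T)))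
        (Nat.pos_of_ne_zero fun h => h0' (insert v T) (by rw [← h3, h, zero_mul]))
    exact h1 (mem_iInf.1 (relIndex_eq_one.1 h5 hb).1 ⟨v, Finset.mem_insert_self _ _⟩)
  have h2 : ∀ b ∈ Λ T, ∃ j : Fin 3, IsCube ((b : K) * Q.a ^ (j : ℕ)) := fun b hb => by
    refine Q.isCube_or (by_contra fun h2 => ?_)
    have := isTotallyComplex_of_algebra K M
    obtain ⟨u, hu, h3⟩ := exists_inert3 Q.hζ' (b := mp K M b) h2 (finite_und S.finite_toSet)
    obtain ⟨j, h4⟩ := cb_gen (hS2 _ hu) (mem_ES.1 hb.2 _ hu) (hS3 _ hu)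
      fun h5 => h3 (mp_mem_CB (h1 _ hu h5 hb))
    exact h3 (by simpa using mul_mem (mp_mem_CB h4) (pow_mem (Q.mp_a_mem u) j))
  choose! jj h2 using h2
  have h3 : 3 ^ (S.card + Fintype.card (InfinitePlace K)) ≤ 3 * 3 ^ T.card := by
    rw [← index_ES3 Q.hζ, ← relIndex_mul_relIndex _ _ _ (hΛ T) inf_le_right]
    refine Nat.mul_le_mul ((relIndex_ne_zero_of_fun (B := Λ T) jj
      fun x hx y hy h => mem_map_pw3 (div_mem hx.2 hy.2) ?_).2.trans_eq (by simp)) ?_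
    · obtain ⟨s, hs⟩ := h2 x hx
      obtain ⟨t, ht⟩ := h2 y hy
      exact ⟨s / t, by rw [div_pow, ← hs, ← ht, h, Units.val_div_eq_div_val,
        mul_div_mul_right _ _ (pow_ne_zero _ Q.a.ne_zero)]⟩
    · rw [inf_relIndex_right]
      refine (relIndex_iInf_le _).trans ((Finset.prod_le_pow_card _ _ 3 fun v _ => ?_).trans_eq
        (by simp))
      have h4 := relIndex_CB (hS2 _ (hT1 _ v.2))
      exact (relIndex_le_of_le_right (fun x hx => mem_ES.1 hx _ (hT1 _ v.2)) h4.1).trans h4.2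
  set A := (cst (Pl K) Kˣ).range with hA
  let B : Subgroup (Pl K → Kˣ) := Subgroup.pi {v | v ∉ S ∪ T} UU
  let E := (⨅ v : S, (CB v.1).comap (Pi.evalMonoidHom (fun _ => Kˣ) v.1)) ⊓ B
  have hB : B ≤ JJ K := fun j hj => (S ∪ T).finite_toSet.subset fun v hv => by
    by_contra h; exact hv (hj v h)
  have h4 : JJ K = B ⊔ A := by
    refine le_antisymm (fun j hj => ?_) (sup_le hB (by rintro _ ⟨x, rfl⟩; exact cst_mem_JJ x))
    obtain ⟨x, hx⟩ := hS1 j hj
    exact mem_sup.2 ⟨j / cst _ _ x, fun v hv => hx v fun h => hv (Finset.mem_union_left _ h),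
      _, ⟨x, rfl⟩, div_mul_cancel _ _⟩
  have h5 : ∀ v : S, ((CB v.1).comap (Pi.evalMonoidHom (fun _ => Kˣ) v.1)).relIndex B ≠ 0 ∧
      ((CB v.1).comap (Pi.evalMonoidHom (fun _ => Kˣ) v.1)).relIndex B ≤
        9 * nP v.1 ^ (ord v.1 (3 : K)).toNat := fun v => by
    obtain ⟨h5, h6⟩ := index_CB Q.hζ v.1
    rw [← relIndex_top_right] at h5 h6
    rw [relIndex_comap]
    exact ⟨fun h => h5 (relIndex_eq_zero_of_le_right le_top h),
      (relIndex_le_of_le_right le_top h5).trans h6⟩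
  have h6 : E.relIndex B ≠ 0 ∧
      E.relIndex B ≤ 9 ^ (S.card + Fintype.card (InfinitePlace K)) := by
    rw [inf_relIndex_right]
    refine ⟨relIndex_iInf_ne_zero fun v => (h5 v).1, (relIndex_iInf_le _).trans
      ((Finset.prod_le_prod' fun v _ => (h5 v).2).trans_eq ?_)⟩
    rw [Finset.prod_coe_sort S fun v => 9 * nP v ^ (ord v (3 : K)).toNat, Finset.prod_mul_distrib,
      prod_nP_three hS2, Finset.prod_const, pow_add]
  have h7 : E.comap (cst (Pl K) Kˣ) ⊓ ES (S ∪ T) = (ES (S ∪ T)).map (pw3 Kˣ) ⊓ ES (S ∪ T) := by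
    refine le_antisymm (fun b hb => ?_) ?_
    · refine ⟨mem_map_pw3 hb.2 (by_contra fun h7 => ?_), hb.2⟩
      obtain ⟨F, _, _, _, Q', rfl⟩ := exists_CD Q.hζ b h7
      have h8 : ∀ v ∈ S, Q'.a ∈ CB v := fun v hv => mem_iInf.1 hb.1.1 ⟨v, hv⟩
      refine Q'.first (Q'.tame_of fun v hv => h8 v (by_contra fun h => hv.ne (hS2 v h)))
        fun j hj => ?_
      obtain ⟨x, hx⟩ := hS1 j hj
      obtain ⟨y, hy, h9⟩ := hT3 (fun v => j v / x) fun v hv => hx v (hT1 v hv)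
      refine ⟨x * y, fun v => ?_⟩
      rw [← div_div]
      by_cases h10 : v ∈ S
      · exact Q'.mem_Loc_of_split (h8 v h10) _
      by_cases h11 : v ∈ T
      · exact Q'.CB_le_Loc v (h9 v h11)
      · exact Q'.UU_le_Loc (hS2 v h10) (mem_ES.1 hb.2 v (by simp [h10, h11]))
          (div_mem (hx v h10) (mem_ES.1 hy v h10))
    · rintro _ ⟨⟨t, -, rfl⟩, ht⟩
      exact ⟨⟨mem_iInf.2 fun v => cube_mem_CB _ t, fun v hv => mem_ES.1 ht v hv⟩, ht⟩
  have h8 : A ⊓ B = (ES (S ∪ T)).map (cst (Pl K) Kˣ) := by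
    refine le_antisymm ?_ ?_
    · rintro _ ⟨⟨x, rfl⟩, hx⟩
      exact ⟨x, mem_ES.2 hx, rfl⟩
    · rintro _ ⟨x, hx, rfl⟩
      exact ⟨⟨x, rfl⟩, mem_ES.1 hx⟩
  have h9 : 3 ^ ((S ∪ T).card + Fintype.card (InfinitePlace K)) * (E ⊔ A).relIndex (JJ K) =
      E.relIndex B := by
    rw [← index_ES3 Q.hζ, ← relIndex_congr_left h7, relIndex_comap, ← h8, h4,
      relIndex_sup_of_le le_sup_right, ← inf_relIndex_right (E ⊔ A),
      sup_inf_assoc_of_le _ (inf_le_right : E ≤ B), ← relIndex_sup_left (A ⊓ B) E,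
      relIndex_mul_relIndex _ _ _ le_sup_left (sup_le inf_le_right inf_le_right)]
  have h10 : E ⊔ A ≤ Q.NL := by
    refine sup_le (fun j hj => mem_sup_right ⟨fun v _ => ?_, hB hj.2⟩) le_sup_left
    by_cases h10 : v ∈ S
    · exact Q.CB_le_Loc v (mem_iInf.1 hj.1 ⟨v, h10⟩)
    by_cases h11 : v ∈ T
    · exact Q.mem_Loc_of_split (hT2 v h11) _
    · exact Q.UU_le_Loc (hS2 v h10) (hS3 v h10) (hj.2 v (by simp [h10, h11]))
  have h11 : (E ⊔ A).relIndex (JJ K) ≠ 0 := fun h => h6.1 (by rw [← h9, h, mul_zero])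
  refine ⟨fun h => h11 (relIndex_eq_zero_of_le_left h10 h), (relIndex_le_of_le_left h10 h11).trans ?_⟩
  rw [← h9, Finset.card_union_of_disjoint (Finset.disjoint_right.2 hT1), add_right_comm, pow_add,
    show (9 : ℕ) = 3 * 3 from rfl, mul_pow, mul_assoc] at h6
  have h12 := (Nat.le_of_mul_le_mul_left h6.2 (by positivity)).trans h3
  rw [mul_comm 3] at h12
  exact Nat.le_of_mul_le_mul_left h12 (by positivity)

theorem CD.hasse [IsTotallyComplex K] (Q : CD K M) (ht : Q.Tame) {b : Kˣ}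
    (hb : ∀ v, b ∈ Q.Loc v) : ∃ y, Q.nm y = mp K M b := by
  obtain ⟨c, hc, h1, h2⟩ := Q.main ht
  have := (Nat.le_of_dvd (Nat.pos_of_ne_zero Q.second.1) h1).trans Q.second.2
  exact h2 (by omega) b hb

/-- If `d` is a cube then the norm form represents everything. -/
theorem nf_of_cube {F : Type*} [Field F] [CharZero F] {ζ r : F} (hζ : ζ ^ 2 + ζ + 1 = 0)
    (hr : r ≠ 0) (a : F) :
    a = nf (r ^ 3) ((a + 2) / 3) ((a - 1) / (3 * r)) ((a - 1) / (3 * r ^ 2)) := by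
  rw [nf]
  field_simp
  ring

theorem hasse_tame [IsTotallyComplex K] {ζ d a : K} (hζ : ζ ^ 2 + ζ + 1 = 0) (hd : d ≠ 0)
    (ha : a ≠ 0) (h3 : ∀ v : Pl K, val v (3 : K) < 1 → val v (d - 1) < val v (9 : K))
    (h : ∀ v : Pl K, ∃ x y z : K, val v (a - nf d x y z) < val v a) :
    ∃ x y z : K, a = nf d x y z := by
  by_cases h0 : IsCube d
  · obtain ⟨r, rfl⟩ := h0
    exact ⟨_, _, _, nf_of_cube hζ (ne_zero_pow three_ne_zero hd) a⟩
  obtain ⟨M, _, _, _, Q, hQ⟩ := exists_CD hζ (Units.mk0 d hd) h0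
  have e : d = Q.a := by rw [hQ, Units.val_mk0]
  obtain ⟨w, hw⟩ := Q.hasse (b := Units.mk0 a ha)
    (Q.tame_of fun v hv => mem_sup_right (mem_U9.2 (e ▸ h3 v hv))) fun v => by
      obtain ⟨x, y, z, h1⟩ := h v
      have h2 : nf d x y z ≠ 0 := fun h2 => by simp [h2] at h1
      have h4 := Q.nm_nf x y z rfl
      rw [← e] at h4
      have h5 := Q.mem_Loc_of_nm (x := Units.mk0 _ h2) (y := Units.mk0 _ (left_ne_zero_of_mul
        (left_ne_zero_of_mul (h4 ▸ (map_ne_zero _).2 h2))))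
        (Units.ext (by rw [Q.nm_val]; exact h4.symm)) v
      have h6 : Units.mk0 _ h2 / Units.mk0 a ha ∈ U1 v :=
        div_mem_U1.2 (by rwa [Valuation.map_sub_swap])
      simpa using div_mem h5 (Q.U1_le_Loc v h6)
  obtain ⟨x, y, z, h1⟩ := Q.span w
  exact ⟨x, y, z, (algebraMap K M).injective (by
    rw [e, ← Q.nm_nf x y z h1, ← Q.nm_val, hw]
    rfl)⟩

end Pool.Agent.H3.Cub
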