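import Pool.Agent.Lib.MP_23455a_nt.H3.CLb
import Pool.Agent.Lib.MP_23455a_nt.H3.HNe
import Pool.Agent.Lib.MP_696deb_nt.B2.CFa

/-! The norm theorem of Hasse for cyclic cubic extensions of fields with the cube roots of unity. -/

set_option autoImplicit false

open scoped NNReal Classical
open Filter Topology Finset

namespace Pool.Agent.H3

open Pool.Agent.Lib.MP_696deb_nt.B2
open Pool.Agent.Lib.MP_580eba_nt (Pl val)

variable {G H : Subgroup Gam} {m : ℕ} {c : Gam → Gam → ZMod (3 ^ m)} {d a : Qbar}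
  {χ κ : Gam → ZMod (3 ^ 1)}

/-- `a` is represented by the norm form of the cube root of `d` over the fixed field of `D`. -/
def Nc (D : Subgroup Gam) (d a : Qbar) : Prop :=
  ∃ x y z, Fx D x ∧ Fx D y ∧ Fx D z ∧ a = Cub.nf d x y z

theorem spl_iff_coh (hG : IsClosed (G : Set Gam)) (hc : C2 m G c) :
    Spl m G c ↔ Coh G (zc m c) 1 :=
  (spl_iff hG hc).trans coh_one_iff.symm

theorem tc_of_GK3 (h : H ≤ GK 3) : TC H := fun g hg hk => by
  obtain ⟨k, rfl⟩ := hg.conj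
  have h1 := mem_GK3.1 (h hk)
  rw [cy_mul, cy_mul, mul_right_comm, ← cy_mul, mul_inv_cancel, cy_one, cy_cc, one_mul] at h1
  exact absurd h1 (by decide)

theorem cfb_three (x : ZMod (3 ^ 1)) : x = 0 ∨ x = 1 ∨ x + x = 1 := by
  revert x
  decide

theorem cfb_id {ζ : Qbar} (h : ζ ^ 2 + ζ + 1 = 0) (r x y z : Qbar) :
    (x + y * r + z * r ^ 2) * (x + y * (r * ζ) + z * (r * ζ) ^ 2) *
      (x + y * (r * ζ * ζ) + z * (r * ζ * ζ) ^ 2) = Cub.nf (r ^ 3) x y z := by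
  have h2 : ζ ^ 2 = -ζ - 1 := by linear_combination h
  have h3 : ζ ^ 3 = 1 := by linear_combination (ζ - 1) * h
  have h4 : (r * ζ * ζ) ^ 2 = r ^ 2 * ζ := by linear_combination r ^ 2 * ζ * h3
  rw [h4, mul_pow, mul_assoc r, ← sq, h2, Cub.nf]
  linear_combination (x + y * r + z * r ^ 2) * (-(y * r - z * r ^ 2) ^ 2) * h

/-- A cyclic class of degree three vanishes if and only if the number is a norm. -/
theorem Cy_iff_Nc (hG : IsClosed (G : Set Gam)) (h3 : G ≤ GK 3) (h : Kum 1 G d χ) (h0 : a ≠ 0)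
    (ha : Fx G a) : Coh G (Cy (3 ^ 1) χ a) 1 ↔ Nc G d a := by
  have c1 := b3b_hom h3 h
  have s1 := h.sm
  obtain ⟨r, r0, rfl, k1⟩ := h
  have hz := zeta_one
  have fz : ∀ g ∈ G, g (zeta 1) = zeta 1 := fun g hg => smul_zeta_one (h3 hg)
  have r1 : ∀ g ∈ G, χ g = 0 → g r = r := fun g hg e => by
    rw [k1 g hg, e, ZMod.val_zero, pow_zero, mul_one]
  by_cases h1 : ∀ g ∈ G, χ g = 0
  · refine iff_of_true (Coh.of_eq fun g hg k hk => by simp [Cy, car, h1 g hg, h1 k hk])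
      ⟨_, _, _, fun g hg => ?_, fun g hg => ?_, fun g hg => ?_, Cub.nf_of_cube hz r0 a⟩
    all_goals simp [map_ofNat, ha g hg, r1 g hg (h1 g hg)]
  obtain ⟨s, hs, e1⟩ : ∃ s ∈ G, χ s = 1 := by
    push Not at h1
    obtain ⟨s, hs, e⟩ := h1
    rcases cfb_three (χ s) with e | e | e
    · contradiction
    · exact ⟨s, hs, e⟩
    · exact ⟨s * s, mul_mem hs hs, (c1 s hs s hs).trans e⟩
  have r2 : s r = r * zeta 1 := by
    rw [k1 s hs, e1]
    exact congrArg _ (pow_one _)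
  have hN : ∀ β, Nm s (3 ^ 1) β = β * s β * s (s β) := fun β => by
    simp [Nm, prod_range_succ, pow_succ]
  have hN' : ∀ x y z, s x = x → s y = y → s z = z →
      Nm s (3 ^ 1) (x + y * r + z * r ^ 2) = Cub.nf (r ^ 3 ^ 1) x y z := fun x y z hx hy hz' => by
    rw [hN, pow_one, ← cfb_id hz]
    simp only [map_add, map_mul, map_pow, hx, hy, hz', r2, fz s hs]
  rw [Cy_split_iff hG s1 c1 hs e1 h0 ha]
  constructor
  · rintro ⟨β, hβ, e⟩
    have f1 : ∀ u, Fx (kerOn G χ c1) u → Fx (kerOn G χ c1) (s u) := fun u hu p hp => by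
      obtain ⟨p', hp', e'⟩ := clc_swap c1 hp hs
      rw [← AlgEquiv.mul_apply, e', AlgEquiv.mul_apply, hu p' hp']
    have f2 : ∀ u, Fx (kerOn G χ c1) u → s u = u → Fx G u := fun u hu e' g hg => by
      obtain ⟨p, hp, e2⟩ := clc_mem c1 hg (pow_mem hs (χ g).val)
        ((ZMod.natCast_zmod_val _).symm.trans (clc_pow c1 hs e1 _).symm)
      rw [e2, AlgEquiv.mul_apply, hu p hp]
      exact pow_mem (show s ∈ MulAction.stabilizer Gam u from e') _
    have f3 : s (s (s β)) = β :=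
      hβ (s ^ 3 ^ 1) ⟨pow_mem hs _, by rw [clc_pow c1 hs e1, ZMod.natCast_self]⟩
    have z0 : zeta 1 ≠ 0 := fun e => by simp [e] at hz
    have g1 : s ((β + s β + s (s β)) / 3) = (β + s β + s (s β)) / 3 := by
      simp only [map_div₀, map_add, map_ofNat, f3]
      ring
    have g2 : s ((β + zeta 1 ^ 2 * s β + zeta 1 * s (s β)) / (3 * r)) =
        (β + zeta 1 ^ 2 * s β + zeta 1 * s (s β)) / (3 * r) := by
      simp only [map_div₀, map_add, map_mul, map_pow, map_ofNat, f3, r2, fz s hs]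
      field_simp
      linear_combination -(zeta 1 - 1) * s β * hz
    have g3 : s ((β + zeta 1 * s β + zeta 1 ^ 2 * s (s β)) / (3 * r ^ 2)) =
        (β + zeta 1 * s β + zeta 1 ^ 2 * s (s β)) / (3 * r ^ 2) := by
      simp only [map_div₀, map_add, map_mul, map_pow, map_ofNat, f3, r2, fz s hs]
      field_simp
      linear_combination -(zeta 1 - 1) * (s β + zeta 1 * s (s β)) * hz
    refine ⟨_, _, _, f2 _ (fun p hp => ?_) g1, f2 _ (fun p hp => ?_) g2, f2 _ (fun p hp => ?_) g3, ?_⟩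
    iterate 3 simp only [map_div₀, map_add, map_mul, map_pow, map_ofNat, hβ p hp, f1 β hβ p hp,
      f1 _ (f1 β hβ) p hp, fz p hp.1, r1 p hp.1 hp.2]
    rw [← hN' _ _ _ g1 g2 g3, e]
    congr 1
    field_simp
    linear_combination -(s β + s (s β)) * hz
  · rintro ⟨x, y, z, hx, hy, hz', e⟩
    refine ⟨x + y * r + z * r ^ 2, fun p hp => ?_, e.trans (hN' x y z (hx s hs) (hy s hs) (hz' s hs)).symm⟩
    simp only [map_add, map_mul, map_pow, hx p hp.1, hy p hp.1, hz' p hp.1, r1 p hp.1 hp.2]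

theorem spl_cup_swap (h3 : G ≤ GK 3) (s1 : Sm G χ) (c1 : IsHom G χ) (s2 : Sm G κ) (c2 : IsHom G κ)
    (h : Spl 1 G (cup 1 χ κ)) : Spl 1 G (cup 1 κ χ) := by
  obtain ⟨b, b1, b2⟩ := h
  refine ⟨fun g => -(χ g * κ g) - b g, (s1.comp₂ s2 (· * ·)).comp₂ b1 fun x y => -x - y,
    fun g hg k hk => ?_⟩
  have e := b2 g hg k hk
  simp only [cup, mem_GK3.1 (h3 hg), c1 g hg k hk, c2 g hg k hk] at e ⊢
  linear_combination -e

/-- The cubic symbol is skew. -/
theorem Nc.symm (hG : IsClosed (G : Set Gam)) (h3 : G ≤ GK 3) (hd : d ≠ 0) (h0 : a ≠ 0)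
    (h1 : Fx G d) (h2 : Fx G a) (h : Nc G d a) : Nc G a d := by
  obtain ⟨χ, hχ⟩ := exists_kum 1 hd h1
  obtain ⟨κ, hκ⟩ := exists_kum 1 h0 h2
  have c1 := b3b_hom h3 hχ
  have c2 := b3b_hom h3 hκ
  exact (Cy_iff_Nc hG h3 hκ hd h1).1 ((cup_coh hκ.sm c2 hχ).symm.trans
    ((spl_iff_coh hG (c2_cup hκ.sm c2 hχ.sm hχ.coc)).1 (spl_cup_swap h3 hχ.sm c1 hκ.sm c2
      ((spl_iff_coh hG (c2_cup hχ.sm c1 hκ.sm hκ.coc)).2 ((cup_coh hχ.sm c1 hκ).trans
        ((Cy_iff_Nc hG h3 hχ h0 h2).2 h))))))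

/-- Convergence for a valuation. -/
def Lm (w : Plc) (x : ℕ → Qbar) (a : Qbar) : Prop := Tendsto (fun n => w.V (a - x n)) atTop (𝓝 0)

theorem Lm.const (w : Plc) (a : Qbar) : Lm w (fun _ => a) a := by simp [Lm]

theorem Lm.add {w : Plc} {x y : ℕ → Qbar} {a b : Qbar} (hx : Lm w x a) (hy : Lm w y b) :
    Lm w (fun n => x n + y n) (a + b) := by
  have h := Tendsto.add hx hy
  rw [add_zero] at h
  refine tendsto_of_tendsto_of_tendsto_of_le_of_le tendsto_const_nhds h (fun _ => zero_le) fun n => ?_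
  simp only [add_sub_add_comm]
  exact w.V.map_add_le le_self_add le_add_self

theorem Lm.mul {w : Plc} {x y : ℕ → Qbar} {a b : Qbar} (hx : Lm w x a) (hy : Lm w y b) :
    Lm w (fun n => x n * y n) (a * b) := by
  have h := ((Tendsto.const_mul (w.V a) hy).add (Tendsto.mul_const (w.V b) hx)).add
    (Tendsto.mul hx hy)
  simp only [mul_zero, zero_mul, add_zero, ← map_mul] at h
  refine tendsto_of_tendsto_of_tendsto_of_le_of_le tendsto_const_nhds h (fun _ => zero_le) fun n => ?_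
  beta_reduce
  rw [show a * b - x n * y n = a * (b - y n) + (a - x n) * b - (a - x n) * (b - y n) by ring]
  exact w.V.map_sub_le ((w.V.map_add_le le_self_add le_add_self).trans le_self_add) le_add_self

theorem Lm.nf {w : Plc} {x y z : ℕ → Qbar} {a b c : Qbar} (d : Qbar) (hx : Lm w x a) (hy : Lm w y b)
    (hz : Lm w z c) : Lm w (fun n => Cub.nf d (x n) (y n) (z n)) (Cub.nf d a b c) := by
  have e : ∀ u v t : Qbar, Cub.nf d u v t =
      u * u * u + d * (v * v * v) + d ^ 2 * (t * t * t) + -3 * d * u * v * t := fun u v t => by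
    rw [Cub.nf]
    ring
  simp only [e]
  exact ((((hx.mul hx).mul hx).add ((Lm.const w d).mul ((hy.mul hy).mul hy))).add
    ((Lm.const w _).mul ((hz.mul hz).mul hz))).add ((((Lm.const w _).mul hx).mul hy).mul hz)

theorem exists_lm (hH : Op H) (s : Finset Plc) (hs : Apart H s) (x : Plc → Qbar)
    (hx : ∀ w, Fx (H ⊓ Dec w) (x w)) : ∃ y : ℕ → Qbar, (∀ n, Fx H (y n)) ∧ ∀ w ∈ s, Lm w y (x w) := by
  choose y h1 h2 using fun n : ℕ => approx_weak hH s hs x (fun w _ => hx w)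
    (ε := ((n : ℝ≥0) + 1)⁻¹) (by positivity)
  refine ⟨y, h1, fun w hw => tendsto_of_tendsto_of_tendsto_of_le_of_le tendsto_const_nhds ?_
    (fun _ => zero_le) fun n => (h2 n w hw).le⟩
  simpa using tendsto_one_div_add_atTop_nhds_zero_nat (𝕜 := ℝ≥0)

/-- Local norms are approximated by global norms. -/
theorem cfb_approx (hH : Op H) (s : Finset Plc) (hs : Apart H s)
    (h : ∀ w : Plc, Nc (H ⊓ Dec w) d a) {e : Qbar} (he : e ≠ 0) :
    ∃ x y z, Fx H x ∧ Fx H y ∧ Fx H z ∧ ∀ w ∈ s, w.V (a - Cub.nf d x y z) < w.V e := by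
  choose u v t hu hv ht k using h
  obtain ⟨x, x1, x2⟩ := exists_lm hH s hs u hu
  obtain ⟨y, y1, y2⟩ := exists_lm hH s hs v hv
  obtain ⟨z, z1, z2⟩ := exists_lm hH s hs t ht
  obtain ⟨n, hn⟩ := ((eventually_all_finset s).2 fun w hw =>
    Tendsto.eventually_lt_const (b3a_pos w he) (Lm.nf d (x2 w hw) (y2 w hw) (z2 w hw))).exists
  exact ⟨_, _, _, x1 n, y1 n, z1 n, fun w hw => by rw [k w]; exact hn w hw⟩

theorem fx_nf {x y z : Qbar} (h1 : Fx H d) (hx : Fx H x) (hy : Fx H y) (hz : Fx H z) :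
    Fx H (Cub.nf d x y z) := fun g hg => by
  simp only [Cub.nf, map_sub, map_add, map_mul, map_pow, map_ofNat, h1 g hg, hx g hg, hy g hg,
    hz g hg]

/-- The tame case for the fixed field of an open subgroup. -/
theorem cfb_tame (hH : Op H) (h3 : H ≤ GK 3) (hd : d ≠ 0) (ha : a ≠ 0) (h1 : Fx H d) (h2 : Fx H a)
    (h9 : ∀ w : Plc, w.p = 3 → w.V (d - 1) < w.V 9) (h : ∀ w : Plc, Nc (H ⊓ Dec w) d a) :
    Nc H d a := by
  have := nf_Kf hH
  have := tc_Kf hH (tc_of_GK3 h3)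
  obtain ⟨x, y, z, e⟩ := Cub.hasse_tame (K := Kf H) (d := ⟨d, b3a_fx.1 h1⟩) (a := ⟨a, b3a_fx.1 h2⟩)
    (ζ := ⟨zeta 1, b3a_fx.1 fun g hg => smul_zeta_one (h3 hg)⟩) (Subtype.ext zeta_one)
    (fun e => hd (congrArg Subtype.val e)) (fun e => ha (congrArg Subtype.val e))
    (fun v hv => by
      obtain ⟨w, hw⟩ := exists_over v
      have k1 : w.V ((3 : ℤ) : Qbar) < 1 := by
        have : w.V 3 < w.V 1 := (hw 3 1).1 (by rwa [map_one])
        rwa [map_one, ← Int.cast_ofNat] at this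
      have k2 : (w.p : ℤ) ∣ 3 := by_contra fun k => k1.ne (w.V_int_eq_one.2 k)
      have k3 : w.p = 3 :=
        (Nat.prime_dvd_prime_iff_eq w.prime Nat.prime_three).1 (by exact_mod_cast k2)
      exact (hw _ _).2 (h9 w k3))
    (fun v => by
      obtain ⟨w, hw⟩ := exists_over v
      obtain ⟨x, y, z, hx, hy, hz, k⟩ := cfb_approx hH {w} (by simp +contextual [Apart]) h ha
      exact ⟨⟨x, b3a_fx.1 hx⟩, ⟨y, b3a_fx.1 hy⟩, ⟨z, b3a_fx.1 hz⟩,
        (hw _ _).2 (k w (mem_singleton_self w))⟩)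
  exact ⟨x, y, z, fx_Kf x, fx_Kf y, fx_Kf z, congrArg Subtype.val e⟩

/-- The norm theorem. -/
theorem hnt3 (hH : Op H) (h3 : H ≤ GK 3) (hd : Kum 1 H d χ) (ha : a ≠ 0) (h2 : Fx H a)
    (h : ∀ w : Plc, Coh (H ⊓ Dec w) (Cy (3 ^ 1) χ a) 1) : Coh H (Cy (3 ^ 1) χ a) 1 := by
  have cl : ∀ w : Plc, IsClosed ((H ⊓ Dec w : Subgroup Gam) : Set Gam) := fun w =>
    hH.closed.inter (closed_Dec w)
  obtain ⟨d0, h1⟩ := hd.fx
  obtain ⟨T, hT, -, hT'⟩ := exists_reps hH {3}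
  obtain ⟨x, y, z, hx, hy, hz, k⟩ := cfb_approx hH T hT (fun w => (Cy_iff_Nc (cl w)
    (inf_le_left.trans h3) (hd.mono inf_le_left) ha fun g hg => h2 g hg.1).1 (h w))
    (mul_ne_zero (show (9 : Qbar) ≠ 0 by norm_num) ha)
  have f1 := fx_nf h1 hx hy hz
  obtain ⟨n, hn⟩ : ∃ n, n = Cub.nf d x y z := ⟨_, rfl⟩
  rw [← hn] at f1 k
  have k1 : ∀ w : Plc, w.p = 3 → w.V (a - n) < w.V 9 * w.V a := fun w hw => by
    have h4 := hT' w (mem_singleton.2 hw)
    simp only [Away, not_forall, not_not] at h4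
    obtain ⟨w₀, hw₀, g, hg, rfl⟩ := h4
    rw [← map_mul, smul_V, smul_V, map_sub, map_mul, map_ofNat, h2 _ (inv_mem hg),
      f1 _ (inv_mem hg)]
    exact k w₀ hw₀
  have k2 : ∀ w : Plc, w.p = 3 → w.V n = w.V a := fun w hw => by
    refine w.V.map_eq_of_sub_lt ?_
    rw [Valuation.map_sub_swap]
    exact (k1 w hw).trans_le (mul_le_of_le_one_left' (by exact_mod_cast w.V_int_le 9))
  have n0 : n ≠ 0 := fun e => by
    obtain ⟨w, hw⟩ := exists_plc Nat.prime_three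
    exact (b3a_pos w ha).ne (by rw [← k2 w hw, e, map_zero])
  have a0 : a * n⁻¹ ≠ 0 := mul_ne_zero ha (inv_ne_zero n0)
  have f2 : Fx H (a * n⁻¹) := fun g hg => by rw [map_mul, map_inv₀, h2 g hg, f1 g hg]
  have c1 : Coh H (Cy (3 ^ 1) χ n) 1 := (Cy_iff_Nc hH.closed h3 hd n0 f1).2 ⟨x, y, z, hx, hy, hz, hn⟩
  have c2 : Nc H (a * n⁻¹) d := cfb_tame hH h3 a0 d0 f2 h1 (fun w hw => by
      rw [show a * n⁻¹ - 1 = (a - n) / n by field_simp, map_div₀, div_lt_iff₀ (b3a_pos w n0), k2 w hw]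
      exact k1 w hw) fun w =>
    Nc.symm (cl w) (inf_le_left.trans h3) d0 a0 (fun g hg => h1 g hg.1) (fun g hg => f2 g hg.1)
      ((Cy_iff_Nc (cl w) (inf_le_left.trans h3) (hd.mono inf_le_left) a0 fun g hg => f2 g hg.1).1 (by
        simpa only [Cy_mul, Cy_inv, inv_one, mul_one] using (h w).mul (c1.mono inf_le_left).inv))
  have c3 := ((Cy_iff_Nc hH.closed h3 hd a0 f2).2 (c2.symm hH.closed h3 a0 d0 f2 h1)).mul c1
  rwa [← Cy_mul, inv_mul_cancel_right₀ n0, mul_one] at c3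

end Pool.Agent.H3
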