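import Pool.Agent.Lib.MP_23455a_nt.H3.HNa

/-! Units outside a finite set modulo cubes, and the number of local cube classes. -/

set_option autoImplicit false

namespace Pool.Agent.H3.Cub

open Pool.Agent.Lib.MP_580eba_nt NumberField Subgroup WithZero

variable {K : Type*} [Field K] [NumberField K]

theorem stab_pw3 {M : Type*} [CommGroup M] (A : Subgroup M) : Stab 1 (pw3 M) A :=
  ⟨by rintro _ ⟨x, -, rfl⟩; exact one_mem _, by rintro _ ⟨x, hx, rfl⟩; exact pow_mem hx 3⟩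

theorem transfer_pw3 {M M' : Type*} [CommGroup M] [CommGroup M'] (f : M →* M') (A' : Subgroup M')
    (B : Subgroup M) {r : ℚ} :
    HQ 1 (pw3 M) (A'.comap f ⊓ B) B r ↔ HQ 1 (pw3 M') A' (B.map f ⊔ A') r :=
  HQ.transfer f (fun _ => map_one f) (fun x => map_pow f x 3) (stab_pw3 _) (stab_pw3 _)

theorem finite_pw3 {M : Type*} [CommGroup M] {A B : Subgroup M} (h : A ≤ B)
    (h' : A.relIndex B ≠ 0) : HQ 1 (pw3 M) A B 1 :=
  HQ.of_finite (fun _ => rfl) (fun _ => one_pow 3) h (stab_pw3 _) (stab_pw3 _) h'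

theorem mid_pw3 {M : Type*} [CommGroup M] {A B C : Subgroup M} (h : A ≤ B) (h' : B ≤ C) {r s : ℚ}
    (hr : HQ 1 (pw3 M) A B r) (hs : HQ 1 (pw3 M) B C s) : HQ 1 (pw3 M) A C (r * s) :=
  HQ.mid (fun _ => rfl) (fun _ => one_pow 3) h h' (stab_pw3 _) (stab_pw3 _) (stab_pw3 _) hr hs

theorem HQ_ES3_empty : HQ 1 (pw3 Kˣ) ⊥ (ES (∅ : Finset (Pl K))) (3 ^ Units.rank K) := by
  let f : (𝓞 K)ˣ →* Kˣ := Units.map (algebraMap (𝓞 K) K : 𝓞 K →* K)
  have h1 : (⊥ : Subgroup Kˣ).comap f ⊓ ⊤ = ⊥ := by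
    rw [inf_top_eq, MonoidHom.comap_bot, MonoidHom.ker_eq_bot_iff]
    exact Units.map_injective (IsFractionRing.injective (𝓞 K) K)
  have h2 : (⊤ : Subgroup _).map f ⊔ ⊥ = ES ∅ := by
    rw [sup_bot_eq]
    ext x
    rw [mem_ES]
    constructor
    · rintro ⟨u, -, rfl⟩ v -
      exact val_unit v u
    · intro hx
      obtain ⟨u, hu⟩ := exists_unit_of_val fun v => hx v (by simp)
      exact ⟨u, mem_top _, Units.ext hu⟩
  let π := QuotientGroup.mk' (Units.torsion K)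
  have h3 : (⊥ : Subgroup _).comap π ⊓ ⊤ = Units.torsion K := by
    rw [inf_top_eq, MonoidHom.comap_bot]
    exact QuotientGroup.ker_mk' _
  have h4 : (⊤ : Subgroup _).map π ⊔ ⊥ = ⊤ := by
    rw [sup_bot_eq, ← MonoidHom.range_eq_map]
    exact QuotientGroup.range_mk' _
  have H : HQ 1 (pw3 ((𝓞 K)ˣ ⧸ Units.torsion K)) ⊥ ⊤ _ :=
    HQ_pow_free (Additive ((𝓞 K)ˣ ⧸ Units.torsion K)) three_ne_zero
  rw [← h4, ← transfer_pw3, h3, Units.finrank_modTorsion] at H
  rw [← h2, ← transfer_pw3, h1]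
  simpa using mid_pw3 bot_le le_top (finite_pw3 bot_le (by simp [Nat.card_pos.ne'])) H

theorem HQ_ES3_mid (S : Finset (Pl K)) : HQ 1 (pw3 Kˣ) (ES (∅ : Finset (Pl K))) (ES S) (3 ^ S.card) := by
  classical
  let o : Kˣ →* Multiplicative (S → ℤ) := MonoidHom.mk'
    (fun x => Multiplicative.ofAdd fun v => ord (v : Pl K) (x : K)) fun x y =>
      funext fun v => ord_mul _ x.ne_zero y.ne_zero
  have h1 : (⊥ : Subgroup _).comap o ⊓ ES S = ES ∅ := by
    ext x
    rw [mem_inf, mem_ES, mem_ES]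
    refine ⟨fun h v _ => ?_, fun h => ⟨funext fun v => mem_UU'.1 (h v (by simp)), fun v _ => h v (by simp)⟩⟩
    by_cases hv : v ∈ S
    · exact mem_UU'.2 (congrFun h.1 ⟨v, hv⟩)
    · exact h.2 v hv
  choose t ht0 ht using fun v : Pl K => exists_ord_eq v 1
  let ι : Multiplicative (S → ℤ) →* (Pl K → Kˣ) := MonoidHom.mk'
    (fun n v => if h : v ∈ S then Units.mk0 (t v) (ht0 v) ^ n.toAdd ⟨v, h⟩ else 1) fun m n => by
      funext v
      by_cases h : v ∈ S <;> simp [h, zpow_add]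
  have h2 : (JJ K).comap ι = ⊤ := eq_top_iff.2 fun n _ => S.finite_toSet.subset fun v hv => by
    by_contra h
    exact hv (by simp [ι, show v ∉ S from h, one_mem])
  have h3 : ((cst (Pl K) Kˣ).range ⊔ UUU K).comap ι ≤ (ES S).map o ⊔ ⊥ := fun n hn => by
    obtain ⟨_, ⟨x, rfl⟩, u, hu, h⟩ := mem_sup.1 hn
    have h4 : ∀ v, ord v (x : K) = ord v (ι n v : K) := fun v => by
      rw [← h, Pi.mul_apply, Units.val_mul, ord_mul v (Units.ne_zero _) (u v).ne_zero,
        mem_UU'.1 (mem_UUU.1 hu v), add_zero, cst_apply]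
    refine mem_sup_left ⟨x, mem_ES.2 fun v hv => mem_UU'.2 ?_, funext fun v => ?_⟩
    · simp [h4, ι, hv, ord_one]
    · change ord v.1 (x : K) = _
      simp [h4, ι, ord_zpow, ht]
      rfl
  have h4 := relIndex_comap_ne_zero ι (relIndex_class K)
  rw [h2] at h4
  have H := HQ.left (fun _ => rfl) (fun _ => one_pow 3) bot_le le_top (stab_pw3 _) (stab_pw3 _)
    (stab_pw3 _) (finite_pw3 le_top fun h => h4 (relIndex_eq_zero_of_le_left h3 h))
    (HQ_pow_free (S → ℤ) three_ne_zero)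
  rw [← transfer_pw3, h1] at H
  simpa using H

theorem HQ_ES3 (S : Finset (Pl K)) :
    HQ 1 (pw3 Kˣ) ⊥ (ES S) (3 ^ (S.card + Units.rank K)) := by
  rw [add_comm, pow_add]
  exact mid_pw3 bot_le (fun x hx => mem_ES.2 fun v _ => mem_ES.1 hx v (by simp))
    HQ_ES3_empty (HQ_ES3_mid S)

theorem index_ES3_eq (S : Finset (Pl K)) : ((ES S).map (pw3 Kˣ)).relIndex (ES S) =
    3 ^ (S.card + Units.rank K) * hq (pw3 Kˣ) 1 ⊥ (ES S) := by
  have H := (HQ_ES3 S).2.2
  rw [hq, sup_bot_eq, MonoidHom.comap_bot, MonoidHom.ker_one, top_inf_eq] at H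
  exact_mod_cast H

theorem le_index_ES3 (S : Finset (Pl K)) :
    3 ^ (S.card + Units.rank K) ≤ ((ES S).map (pw3 Kˣ)).relIndex (ES S) := by
  rw [index_ES3_eq]
  exact Nat.le_mul_of_pos_right _ (Nat.pos_of_ne_zero (HQ_ES3 S).2.1)

theorem index_ES3 {ζ : K} (hζ : ζ ^ 2 + ζ + 1 = 0) (S : Finset (Pl K)) :
    ((ES S).map (pw3 Kˣ)).relIndex (ES S) =
      3 ^ (S.card + Fintype.card (InfinitePlace K)) := by
  have h0 : ζ ≠ 0 := by rintro rfl; simp at hζ
  have h3 : Units.mk0 ζ h0 ^ 3 = 1 := Units.ext (by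
    push_cast [Units.val_mk0]; linear_combination (ζ - 1) * hζ)
  have h1 : hq (pw3 Kˣ) 1 ⊥ (ES S) = 3 := by
    have h2 : (⊥ : Subgroup Kˣ).comap (pw3 Kˣ) ⊓ ES S = zpowers (Units.mk0 ζ h0) := by
      refine le_antisymm (fun x hx => ?_)
        (zpowers_le.2 ⟨h3, mem_ES.2 fun v _ => (val_zeta v hζ).1⟩)
      have h4 : (x : K) ^ 3 = 1 := by simpa using congrArg Units.val (mem_bot.1 hx.1)
      have h5 : ((x : K) - 1) * (x - ζ) * (x - ζ ^ 2) = 0 := by
        linear_combination h4 + (-(x : K) ^ 2 + ζ * x - (ζ - 1)) * hζ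
      simp only [mul_eq_zero, sub_eq_zero] at h5
      rcases h5 with (h | h) | h
      · rw [show x = 1 from Units.ext h]; exact one_mem _
      · rw [show x = Units.mk0 ζ h0 from Units.ext h]; exact mem_zpowers _
      · rw [show x = Units.mk0 ζ h0 ^ 2 from Units.ext h]; exact npow_mem_zpowers _ _
    rw [hq, h2, map_one_eq_bot, bot_sup_eq, relIndex_bot_left, Nat.card_zpowers]
    refine orderOf_eq_prime h3 fun h => ?_
    rw [show ζ = 1 from congrArg Units.val h] at hζ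
    norm_num at hζ
  have h2 : Fintype.card (InfinitePlace K) = Units.rank K + 1 :=
    (Nat.succ_pred_eq_of_pos Fintype.card_pos).symm
  rw [index_ES3_eq, h1, h2, ← add_assoc, pow_succ]

theorem mem_map_pw3 {S : Finset (Pl K)} {x : Kˣ} (hx : x ∈ ES S) (h : IsCube (x : K)) :
    x ∈ (ES S).map (pw3 Kˣ) := by
  obtain ⟨t, rfl⟩ := exists_cube_eq h
  exact ⟨t, mem_ES.2 fun v hv => val_eq_one_of_cube (mem_ES.1 hx v hv), rfl⟩

theorem index_CB {ζ : K} (hζ : ζ ^ 2 + ζ + 1 = 0) (v : Pl K) :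
    (CB v).index ≠ 0 ∧ (CB v).index ≤ 9 * nP v ^ (ord v (3 : K)).toNat := by
  classical
  have h2 : (3 : K) ≠ 0 := three_ne_zero
  have h1 := relIndex_ne_zero_of_fun (A := UU v ⊔ CB v) (B := ⊤)
    (fun x => (ord v (x : K) : ZMod 3)) fun x _ y _ h => by
      obtain ⟨t, ht⟩ := exists_div_cube (v := v) (x := x / y) (by
        rw [Units.val_div_eq_div_val, ord_div v x.ne_zero y.ne_zero]
        exact (ZMod.intCast_eq_intCast_iff_dvd_sub _ _ 3).1 h.symm)
      exact mem_sup.2 ⟨_, ht, _, cube_mem_CB v t, div_mul_cancel _ _⟩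
  obtain ⟨π, hπ0, hπ⟩ := exists_ord_eq v 1
  have hπ1 : val v π = exp (-1) := by rw [val_eq_exp v hπ0, hπ]
  have hex : ∀ x : Kˣ, ∃ (e : Fin 3) (a : 𝓞 K), x ^ 3 ∈ U9 v →
      val v ((a : K) - (ζ ^ (e : ℕ) * x - 1) / (3 * π)) < val v 3 := fun x => by
    by_cases hx : x ^ 3 ∈ U9 v
    · obtain ⟨e, he⟩ := exists_near (x := (x : K)) hζ hx
      obtain ⟨a, ha⟩ := v.exists_valuation_sub_lt_of_integer
        (x := (ζ ^ (e : ℕ) * x - 1) / (3 * π)) (by
          rw [map_div₀, map_mul]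
          refine div_le_one_of_le₀ ?_ zero_le
          change val v _ ≤ val v 3 * val v π
          rw [← lt_mul_exp_iff_le (mul_ne_zero (val_ne_zero v h2) (val_ne_zero v hπ0)), hπ1,
            mul_assoc, ← exp_add]
          simpa using he)
        (Units.mk0 _ (val_ne_zero v h2))
      exact ⟨e, a, fun _ => ha⟩
    · exact ⟨1, 0, fun h => absurd h hx⟩
  choose e a ha using hex
  have : Finite (𝓞 K ⧸ v.asIdeal ^ (ord v (3 : K)).toNat) :=
    Ring.HasFiniteQuotients.finiteQuotient (pow_ne_zero _ v.ne_bot)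
  have h3 := relIndex_ne_zero_of_fun (A := U9 v) (B := (U9 v).comap (pw3 Kˣ) ⊓ UU v)
    (fun x => (e x, Ideal.Quotient.mk (v.asIdeal ^ (ord v (3 : K)).toNat) (a x)))
    fun x hx y hy h => by
      obtain ⟨h3, h4⟩ := Prod.ext_iff.1 h
      have h5 := (v.intValuation_le_pow_iff_mem _ _).2 (Ideal.Quotient.eq.1 h4)
      rw [← v.valuation_of_algebraMap (K := K), Int.toNat_of_nonneg (ord_nonneg (val_three_le v)),
        ← val_eq_exp v h2] at h5
      have h6 := Valuation.map_add_le _ (Valuation.map_sub_le _ h5 (ha x hx.1).le) (ha y hy.1).le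
      have h7 : ζ ≠ 0 := by rintro rfl; simp at hζ
      have h8 : ((x / y : Kˣ) : K) - 1 = (algebraMap (𝓞 K) K (a x - a y) -
          ((a x : K) - (ζ ^ (e x : ℕ) * x - 1) / (3 * π)) +
          ((a y : K) - (ζ ^ (e y : ℕ) * y - 1) / (3 * π))) * (3 * π) / (ζ ^ (e y : ℕ) * y) := by
        simp only at h3
        rw [h3, map_sub, Units.val_div_eq_div_val]
        field_simp
        ring
      rw [mem_U9, h8, map_div₀, map_mul, map_mul, map_mul, map_pow, (val_zeta v hζ).1, one_pow,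
        mem_UU.1 hy.2, mul_one, div_one, val_nine, pow_two, ← mul_assoc]
      refine lt_of_le_of_lt (mul_le_mul_left (mul_le_mul_left h6 _) _) ?_
      refine mul_lt_of_lt_one_right (mul_pos (val_pos v h2) (val_pos v h2)) ?_
      rw [hπ1, ← exp_zero, exp_lt_exp]
      decide
  have h4 := (finite_pw3 (A := U9 v) (Ug_le_UU v _ _ _) (relIndex_Ug v _ _ _)).2.2
  rw [one_mul, Nat.cast_inj, hq, hq, map_one_eq_bot, bot_sup_eq,
    show (U9 v).comap (1 : Kˣ →* Kˣ) = ⊤ from eq_top_iff.2 fun _ _ => one_mem (U9 v),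
    top_inf_eq] at h4
  rw [← h4, Nat.card_prod, Nat.card_fin,
    show Nat.card (𝓞 K ⧸ v.asIdeal ^ (ord v (3 : K)).toNat) = nP v ^ (ord v (3 : K)).toNat from
      map_pow Ideal.absNorm v.asIdeal _] at h3
  have h5 : (UU v).map (pw3 Kˣ) ⊔ U9 v ≤ CB v := sup_le_sup_right (map_le_range _ _) _
  rw [relIndex_top_right, Nat.card_zmod] at h1
  rw [← relIndex_mul_index (le_sup_right : CB v ≤ UU v ⊔ CB v), relIndex_sup_right]
  refine ⟨mul_ne_zero (fun h => h3.1 (relIndex_eq_zero_of_le_left h5 h)) h1.1, ?_⟩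
  refine (Nat.mul_le_mul ((relIndex_le_of_le_left h5 h3.1).trans h3.2) h1.2).trans_eq (by ring)

theorem prod_nP_three [IsTotallyComplex K] {S : Finset (Pl K)}
    (hS : ∀ v ∉ S, val v (3 : K) = 1) :
    ∏ v ∈ S, nP v ^ (ord v (3 : K)).toNat = 9 ^ Fintype.card (InfinitePlace K) := by
  have h := absNorm_eq_prod (b := (3 : ℕ)) (S := S) (by simp) fun v hv =>
    (ord_eq_zero_iff v three_ne_zero).2 (hS v hv)
  rw [Algebra.norm_natCast, RingOfIntegers.rank, IsTotallyComplex.finrank] at h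
  rw [InfinitePlace.card_eq_nrRealPlaces_add_nrComplexPlaces, IsTotallyComplex.nrRealPlaces_eq_zero,
    zero_add]
  exact h.symm.trans (by simp [pow_mul])

end Pool.Agent.H3.Cub
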