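import Pool.Agent.Lib.MP_23455a_nt.H3.BAa
import Pool.Agent.Lib.MP_23455a_nt.H3.HNc
import Pool.Agent.Lib.MP_696deb_nt.B2.CFa

/-! Units outside a finite set of places, modulo cubes. -/

set_option autoImplicit false

open scoped NNReal Classical
open Filter Topology Finset

namespace Pool.Agent.H3

open Pool.Agent.Lib.MP_696deb_nt.B2
open Pool.Agent.Lib.MP_580eba_nt (mem_ES ES)

/-- Independent elements modulo cubes. -/
theorem exists_indep3 {M : Type} [CommGroup M] (E : Subgroup M) {n : ℕ}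
    (h : 3 ^ n ≤ (E.map (powMonoidHom 3)).relIndex E) : ∃ a : Fin n → M, (∀ i, a i ∈ E) ∧
      ∀ t : Fin n → ZMod 3, ∏ i, a i ^ (t i).val ∈ E.map (powMonoidHom 3) → t = 0 := by
  let Q := E ⧸ (E.map (powMonoidHom 3)).subgroupOf E
  have h1 : 3 ^ n ≤ Nat.card (Additive Q) := h
  have : Finite (Additive Q) := Nat.finite_of_card_ne_zero ((pow_pos three_pos n).trans_le h1).ne'
  let _ : Module (ZMod 3) (Additive Q) := AddCommGroup.zmodModule fun x => by
    obtain ⟨y, rfl⟩ := QuotientGroup.mk_surjective (α := E) x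
    exact (QuotientGroup.eq_one_iff (y ^ 3)).2 ⟨y, y.2, rfl⟩
  have := Fact.mk Nat.prime_three
  rw [Module.natCard_eq_pow_finrank (K := ZMod 3), Nat.card_zmod] at h1
  obtain ⟨v, hv⟩ := exists_linearIndependent_of_le_finrank
    ((pow_le_pow_iff_right₀ (by norm_num)).1 h1)
  choose a ha using fun i => QuotientGroup.mk_surjective (α := E) (v i)
  refine ⟨fun i => a i, fun i => (a i).2, fun t ht => funext (Fintype.linearIndependent_iff.1 hv t ?_)⟩
  have h2 : QuotientGroup.mk' _ (∏ i, a i ^ (t i).val) = (1 : Q) :=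
    (QuotientGroup.eq_one_iff _).2 (by simpa [Subgroup.mem_subgroupOf] using ht)
  rw [map_prod] at h2
  refine Eq.trans (sum_congr rfl fun i _ => ?_) ((ofMul_prod _ _).symm.trans (congrArg _ h2))
  rw [map_pow, ofMul_pow, ← Nat.cast_smul_eq_nsmul (ZMod 3), ZMod.natCast_zmod_val, ← ha]
  rfl

theorem su : SUStmt := by
  intro H s N hH hT hs hN
  have := nf_Kf hH
  have := tc_Kf hH hT
  choose u hu using fun w : Plc => exists_un (H := H) w
  have h1 : (s.image u).card = s.card := card_image_of_injOn fun v hv w hw h => by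
    obtain ⟨g, hg, e⟩ := Un.conj hH (hu v) (h ▸ hu w)
    exact hs v hv w hw g hg e
  have h2 : Fintype.card (NumberField.InfinitePlace (Kf H)) = H.index / 2 := by
    rw [NumberField.InfinitePlace.card_eq_nrRealPlaces_add_nrComplexPlaces,
      NumberField.IsTotallyComplex.nrRealPlaces_eq_zero, ← finrank_Kf hH,
      NumberField.IsTotallyComplex.finrank]
    omega
  have h3 : 3 ^ N ≤ ((ES (s.image u)).map (powMonoidHom 3)).relIndex (ES (s.image u)) := by
    rcases hN with h | ⟨h, h'⟩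
    · refine le_trans (pow_le_pow_right₀ (by norm_num) ?_) (Cub.le_index_ES3 _)
      have h4 : 0 < Fintype.card (NumberField.InfinitePlace (Kf H)) := Fintype.card_pos
      rw [NumberField.Units.rank]
      omega
    · rw [Cub.index_ES3 (ζ := ⟨zeta 1, b3a_fx.1 fun g hg => smul_zeta_one (h' hg)⟩)
        (Subtype.ext zeta_one), h1, h2, h, add_comm]
  obtain ⟨a, ha, hi⟩ := exists_indep3 _ h3
  refine ⟨fun i => ((a i : Kf H) : Qbar), fun i => ⟨?_, fx_Kf _, fun w hw => ?_⟩, fun t ht => ?_⟩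
  · exact fun h => (a i).ne_zero (Subtype.ext h)
  · refine ((hu w).eq_one _).1 (mem_ES.1 (ha i) _ fun h => ?_)
    obtain ⟨v, hv, e⟩ := mem_image.1 h
    obtain ⟨g, hg, e'⟩ := Un.conj hH (hu v) (e ▸ hu w)
    exact hw v hv g hg e'
  · obtain ⟨b, hb, e⟩ := ht
    refine hi t (Cub.mem_map_pw3 (Subgroup.prod_mem _ fun i _ => pow_mem (ha i) _)
      ⟨⟨b, b3a_fx.1 hb⟩, Subtype.ext ?_⟩)
    rw [Units.coe_prod, SubmonoidClass.coe_finsetProd]
    exact e

end Pool.Agent.H3
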