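import Pool.Agent.Lib.MP_23455a_nt.H3.D0
import Pool.Agent.Lib.MP_696deb_nt.B2.CH2

/-! The density theorem of Frobenius for elements whose order divides twice a power of three. -/

set_option autoImplicit false

open scoped NNReal Classical
open Filter Topology Finset NumberField Asymptotics

namespace Pool.Agent.H3

open Pool.Agent.Lib.MP_696deb_nt.B2
open Pool.Agent.Lib.MP_aed2da_nt.QC (pw w_nonneg pw_nonneg pw_le summable_pw P_bigO w_le_half two_le)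

section Field

variable {K L L' : Type} [Field K] [NumberField K] [Field L] [NumberField L] [Field L']
  [NumberField L']

/-- Sets of primes of upper densities one half and one third do not cover. -/
theorem ch3_an (T T' : Set (Ideal (𝓞 K)))
    (h : ∀ s : ℝ, 1 < s → ∀ u : Finset (Ideal (𝓞 K)), (∀ P ∈ u, P ∈ T) →
      2 * ∑ P ∈ u, pw s P ≤ ∑' Q : Ideal (𝓞 L), pw s Q)
    (h' : ∀ s : ℝ, 1 < s → ∀ u : Finset (Ideal (𝓞 K)), (∀ P ∈ u, P ∈ T') →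
      3 * ∑ P ∈ u, pw s P ≤ ∑' Q : Ideal (𝓞 L'), pw s Q) (B : Finset ℕ) :
    ∃ P : Ideal (𝓞 K), P.IsMaximal ∧ (Ideal.absNorm P).Prime ∧ Ideal.absNorm P ∉ B ∧
      P ∉ T ∧ P ∉ T' := by
  by_contra hcon
  have hfin : {Q : Ideal (𝓞 K) | Ideal.absNorm Q ∈ B}.Finite :=
    (B.finite_toSet.biUnion fun n _ => Ideal.finite_setOfPred_absNorm_eq (S := 𝓞 K) n).subset
      fun Q hQ => Set.mem_biUnion hQ rfl
  obtain ⟨C, hC⟩ : ∃ C : ℝ, ∀ s : ℝ, 1 < s → ∑' P : Ideal (𝓞 K), pw s P ≤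
      C + (∑' Q : Ideal (𝓞 L), pw s Q) / 2 + (∑' Q : Ideal (𝓞 L'), pw s Q) / 3 := by
    refine ⟨hfin.toFinset.card + Module.finrank ℤ (𝓞 K) * ∑' p : ℕ, 1 / (p : ℝ) ^ 2,
      fun s hs => (summable_pw hs).tsum_le_of_sum_le fun u => ?_⟩
    have h2 : ∀ Q ∈ u, pw s Q ≤ (if Q ∈ hfin.toFinset then 1 else 0) +
        (if Q.IsMaximal ∧ ¬ (Ideal.absNorm Q).Prime then Lib.MP_aed2da_nt.QC.w s Q else 0) +
        (if Q ∈ T then pw s Q else 0) + (if Q ∈ T' then pw s Q else 0) := by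
      intro Q _
      have k0 := w_nonneg s Q
      have k0' := pw_nonneg s Q
      have k1 : (0 : ℝ) ≤ if Q ∈ hfin.toFinset then 1 else 0 := by positivity
      have k2 : 0 ≤ if Q.IsMaximal ∧ ¬ (Ideal.absNorm Q).Prime then
        Lib.MP_aed2da_nt.QC.w s Q else 0 := by positivity
      have k3 : 0 ≤ if Q ∈ T then pw s Q else 0 := by positivity
      have k4 : 0 ≤ if Q ∈ T' then pw s Q else 0 := by positivity
      by_cases hm : Q.IsMaximal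
      · by_cases hp : (Ideal.absNorm Q).Prime
        · by_cases hB : Ideal.absNorm Q ∈ B
          · rw [if_pos (hfin.mem_toFinset.2 hB)]
            linarith [w_le_half hs.le hm, pw_le s Q]
          · by_cases hT : Q ∈ T
            · rw [if_pos hT]
              linarith
            · rw [if_pos (by_contra fun k => hcon ⟨Q, hm, hp, hB, hT, k⟩ : Q ∈ T')]
              linarith
        · rw [if_pos (⟨hm, hp⟩ : Q.IsMaximal ∧ ¬ (Ideal.absNorm Q).Prime)]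
          linarith [pw_le s Q]
      · have k5 : pw s Q = 0 := if_neg hm
        linarith
    refine (sum_le_sum h2).trans ?_
    rw [sum_add_distrib, sum_add_distrib, sum_add_distrib, ← sum_filter, ← sum_filter,
      ← sum_filter, ← sum_filter, sum_const, nsmul_eq_mul, mul_one]
    have k1 := h s hs (u.filter fun Q => Q ∈ T) fun P hP => (mem_filter.1 hP).2
    have k2 := h' s hs (u.filter fun Q => Q ∈ T') fun P hP => (mem_filter.1 hP).2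
    have k3 := ch1_high hs (u.filter fun Q => Q.IsMaximal ∧ ¬ (Ideal.absNorm Q).Prime)
      fun Q hQ => (mem_filter.1 hQ).2
    have k4 : ((u.filter fun Q => Q ∈ hfin.toFinset).card : ℝ) ≤ hfin.toFinset.card :=
      Nat.cast_le.2 (card_le_card fun Q hQ => (mem_filter.1 hQ).2)
    linarith
  obtain ⟨c, hc⟩ := (P_bigO K).bound
  obtain ⟨d, hd⟩ := (P_bigO L).bound
  obtain ⟨e, he⟩ := (P_bigO L').bound
  refine ch1_log (IsBigO.of_bound (6 * C + 6 * c + 3 * d + 2 * e) ?_)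
  filter_upwards [hc, hd, he, Ioo_mem_nhdsGT one_lt_two] with s k1 k2 k3 hs
  have k4 := hC s hs.1
  have k5 : Real.log (s - 1) ≤ 0 := Real.log_nonpos (by linarith [hs.1]) (by linarith [hs.2])
  rw [norm_one, mul_one, Real.norm_eq_abs, abs_le] at k1 k2 k3 ⊢
  constructor <;> linarith [k1.1, k2.2, k3.2]

/-- The prime below a place whose Frobenius element fixes the field. -/
theorem ch3_res (j : L →+* Qbar) {v : Plc} {φ : Gam} (hφ : IsFrob v v.p φ)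
    (h : ∀ x, φ (j x) = j x) : (ch2I v j).IsMaximal ∧ Ideal.absNorm (ch2I v j) ≤ v.p ∧
      ∀ x : 𝓞 L, ∃ n : ℤ, v.V (j x - n) < 1 := by
  have : Fact v.p.Prime := ⟨v.prime⟩
  have h1 : (v.p : 𝓞 L) ∈ ch2I v j := by
    have h2 := (v.V_int_le v.p).lt_of_ne fun e => v.V_int_eq_one.1 e dvd_rfl
    simpa [ch2_mem] using h2
  have hm : (ch2I v j).IsMaximal := (ch2_prime v j).isMaximal fun e => by
    rw [e, Ideal.mem_bot, Nat.cast_eq_zero] at h1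
    exact v.prime.ne_zero h1
  let _ := Ideal.Quotient.field (ch2I v j)
  have : CharP (𝓞 L ⧸ ch2I v j) v.p := (CharP.charP_iff_prime_eq_zero v.prime).2 (by
    simpa using Ideal.Quotient.eq_zero_iff_mem.2 h1)
  have h2 : ∀ x : 𝓞 L, ∃ n : ℤ, (n : 𝓞 L ⧸ ch2I v j) = Ideal.Quotient.mk _ x := fun x => by
    refine (mem_bot_iff_intCast v.p _).1 ((Subfield.mem_bot_iff_pow_eq_self _ v.p).2 ?_)
    have h3 := hφ.2 _ (ch2_le v j x)
    rw [h] at h3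
    rw [← map_pow, eq_comm, Ideal.Quotient.eq, ch2_mem]
    simpa using h3
  refine ⟨hm, ?_, fun x => ?_⟩
  · rw [Ideal.absNorm_apply, Submodule.cardQuot_apply]
    refine (Nat.card_le_card_of_surjective (ZMod.castHom (dvd_refl v.p) (𝓞 L ⧸ ch2I v j))
      fun y => ?_).trans (Nat.card_zmod _).le
    obtain ⟨x, rfl⟩ := Ideal.Quotient.mk_surjective y
    obtain ⟨n, hn⟩ := h2 x
    exact ⟨n, by rw [map_intCast, hn]⟩
  · obtain ⟨n, hn⟩ := h2 x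
    rw [← map_intCast (Ideal.Quotient.mk (ch2I v j)), eq_comm, Ideal.Quotient.eq, ch2_mem] at hn
    exact ⟨n, by simpa using hn⟩

theorem ch3_sep (j : L →+* Qbar) : ∃ S : Finset ℕ, ∀ (v : Plc) (g : Gam), v.p ∉ S →
    (∀ x : 𝓞 L, v.V (g (j x) - j x) < 1) → ∀ x, g (j x) = j x := by
  choose S hS using fun i => ch2_sep (j (RingOfIntegers.basis L i))
  refine ⟨univ.biUnion S, fun v g hv h x => ?_⟩
  have h2 : (g.toAlgHom.comp j.toRatAlgHom).toLinearMap = j.toRatAlgHom.toLinearMap :=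
    (integralBasis L).ext fun i => by
      rw [integralBasis_apply]
      exact hS i v (fun k => hv (mem_biUnion.2 ⟨i, mem_univ _, k⟩)) g (h _)
  exact LinearMap.congr_fun h2 x

/-- The primes which split in an extension have small density. -/
theorem ch3_bound {H J : Subgroup Gam} (hJ : Op J) (hle : J ≤ H)
    (hn : ∀ g ∈ H, ∀ φ ∈ J, g * φ * g⁻¹ ∈ J) {m : ℕ} (r : Fin m → Gam) (hr : ∀ i, r i ∈ H)
    (hr' : ∀ i i', r i' * (r i)⁻¹ ∈ J → i = i') (j : K →+* Qbar)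
    (hj : ∀ x, Fx H x ↔ ∃ y, j y = x) :
    ∃ (L : Type) (_ : Field L) (_ : NumberField L) (S : Finset ℕ), ∀ s : ℝ, 1 < s →
      ∀ u : Finset (Ideal (𝓞 K)), (∀ P ∈ u, P ∈ {P : Ideal (𝓞 K) | ∃ (v : Plc) (φ : Gam),
        v.p ∉ S ∧ P = ch2I v j ∧ v.p = Ideal.absNorm P ∧ IsFrob v v.p φ ∧ φ ∈ J}) →
      m * ∑ P ∈ u, pw s P ≤ ∑' Q : Ideal (𝓞 L), pw s Q := by
  obtain ⟨L, _, _, l, hl⟩ := ch2_field hJ
  obtain ⟨S, hS⟩ := ch3_sep l
  refine ⟨L, inferInstance, inferInstance, S, fun s hs u hu => ?_⟩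
  choose v φ h1 h2 h3 h4 h5 using fun P : u => hu P P.2
  have h6 := fun (P : u) (i : Fin m) => ch3_res l (v := r i • v P) ((h4 P).smul (r i))
    fun x => (hl _).2 ⟨x, rfl⟩ _ (hn _ (hr i) _ (h5 P))
  have h7 : ∀ x : 𝓞 K, ∃ y : 𝓞 L, ∀ (P : u) (i : Fin m),
      x ∈ (P : Ideal (𝓞 K)) ↔ y ∈ ch2I (r i • v P) l := fun x => by
    have k1 : Fx H (j x) := (hj _).2 ⟨x, rfl⟩
    obtain ⟨y, hy⟩ := (hl _).1 fun g hg => k1 g (hle hg)
    have k2 : IsIntegral ℤ y := by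
      rw [← isIntegral_algHom_iff l.toIntAlgHom l.injective]
      exact (show l y = j x from hy) ▸ x.isIntegral_coe.map j.toIntAlgHom
    obtain ⟨y, rfl⟩ : ∃ Y : 𝓞 L, (Y : L) = y := ⟨⟨y, k2⟩, rfl⟩
    refine ⟨y, fun P i => ?_⟩
    rw [ch2_mem, smul_V, hy, k1 _ (inv_mem (hr i)), ← ch2_mem, ← h2]
  have h8 : Function.Injective fun x : u × Fin m => ch2I (r x.2 • v x.1) l := by
    rintro ⟨P, i⟩ ⟨P', i'⟩ e
    have e : ch2I (r i • v P) l = ch2I (r i' • v P') l := e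
    obtain rfl : P = P' := Subtype.ext (Ideal.ext fun x => by
      obtain ⟨y, hy⟩ := h7 x
      rw [hy P i, hy P' i', e])
    refine congrArg _ (hr' _ _ (mem_of_fx hJ.closed fun x hx => ?_))
    obtain ⟨y, rfl⟩ := (hl x).1 hx
    refine hS (r i' • v P) _ (h1 P) (fun x => ?_) y
    obtain ⟨n, k1⟩ := (h6 P i).2.2 x
    have k2 : x - n ∈ ch2I (r i • v P) l := by simpa [ch2_mem] using k1
    rw [e, ch2_mem] at k2
    have k3 : (v P).V ((r i)⁻¹ (l x) - n) < 1 := by simpa [smul_V] using k1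
    have k4 : (v P).V ((r i')⁻¹ (l x) - n) < 1 := by simpa [smul_V] using k2
    have k5 := (v P).V.map_sub_lt k3 k4
    rw [sub_sub_sub_cancel_right] at k5
    rw [smul_V, map_sub, ← AlgEquiv.mul_apply, inv_mul_cancel_left]
    exact k5
  refine le_trans ?_ ((summable_pw hs).sum_le_tsum (univ.map ⟨_, h8⟩) fun Q _ => pw_nonneg s Q)
  rw [sum_map, Fintype.sum_prod_type, ← sum_coe_sort u, mul_sum]
  refine sum_le_sum fun P _ => ?_
  have h9 : ∀ i ∈ (univ : Finset (Fin m)), pw s (P : Ideal (𝓞 K)) ≤ pw s (ch2I (r i • v P) l) := by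
    intro i _
    refine (pw_le s _).trans ?_
    rw [pw, if_pos (h6 P i).1, Lib.MP_aed2da_nt.QC.w, Lib.MP_aed2da_nt.QC.w, ← h3]
    exact Real.rpow_le_rpow_of_nonpos (Nat.cast_pos.2 (two_pos.trans_le (two_le (h6 P i).1)))
      (Nat.cast_le.2 (h6 P i).2.1) (by linarith)
  simpa using card_nsmul_le_sum _ _ _ h9

end Field

/-- A Frobenius element outside of two normal subgroups. -/
theorem exists_frob_avoid {H J J' : Subgroup Gam} (hH : Op H) (hJ : Op J) (hJ' : Op J')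
    (hle : J ≤ H) (hle' : J' ≤ H) (hn : ∀ g ∈ H, ∀ φ ∈ J, g * φ * g⁻¹ ∈ J)
    (hn' : ∀ g ∈ H, ∀ φ ∈ J', g * φ * g⁻¹ ∈ J') (r : Fin 2 → Gam) (r' : Fin 3 → Gam)
    (h1 : ∀ i, r i ∈ H) (h1' : ∀ i, r' i ∈ H) (h2 : ∀ i i', r i' * (r i)⁻¹ ∈ J → i = i')
    (h2' : ∀ i i', r' i' * (r' i)⁻¹ ∈ J' → i = i') (B : Finset ℕ) :
    ∃ (v : Plc) (φ : Gam), v.p ∉ B ∧ IsFrob v v.p φ ∧ φ ∈ H ∧ φ ∉ J ∧ φ ∉ J' := by
  obtain ⟨K, _, _, j, hj⟩ := ch2_field hH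
  obtain ⟨S, hS⟩ := ch2_fix j
  obtain ⟨L, _, _, T, hT⟩ := ch3_bound hJ hle hn r h1 h2 j hj
  obtain ⟨L', _, _, T', hT'⟩ := ch3_bound hJ' hle' hn' r' h1' h2' j hj
  obtain ⟨P, a1, a2, a3, a4, a5⟩ := ch3_an _ _ hT hT' (B ∪ (S ∪ (T ∪ T')))
  obtain ⟨v, hv, rfl⟩ := ch2_plc j a1 a2
  obtain ⟨φ, hφ⟩ := exists_frob v
  rw [← hv, mem_union, mem_union, mem_union, not_or, not_or, not_or] at a3
  refine ⟨v, φ, a3.1, hφ, mem_of_fx hH.closed fun x hx => ?_,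
    fun e => a4 ⟨v, φ, a3.2.2.1, rfl, hv, hφ, e⟩, fun e => a5 ⟨v, φ, a3.2.2.2, rfl, hv, hφ, e⟩⟩
  obtain ⟨y, rfl⟩ := (hj x).1 hx
  exact hS v φ a3.2.1 a1 hv hφ y

theorem ch3_rep {J : Subgroup Gam} {s : Gam} {m : ℕ} (h : ∀ d, 0 < d → d < m → s ^ d ∉ J)
    (i i' : Fin m) (e : s ^ (i' : ℕ) * (s ^ (i : ℕ))⁻¹ ∈ J) : i = i' := by
  have hi := i.2
  have hi' := i'.2
  rcases lt_trichotomy (i : ℕ) i' with k | k | k
  · rw [← pow_sub s k.le] at e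
    exact absurd e (h _ (by omega) (by omega))
  · exact Fin.ext k
  · have e' := inv_mem e
    rw [mul_inv_rev, inv_inv, ← pow_sub s k.le] at e'
    exact absurd e' (h _ (by omega) (by omega))

theorem cheb : ChebStmt := by
  intro U s k B hU hN hs
  obtain ⟨σ, hσ⟩ : ∃ σ : Gam ⧸ U, σ = s := ⟨_, rfl⟩
  have h0 : σ ^ (2 * 3 ^ k : ℤ) = 1 := by
    have h1 := (QuotientGroup.eq_one_iff _).2 hs
    rw [QuotientGroup.mk_pow, ← hσ, ← zpow_natCast] at h1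
    exact_mod_cast h1
  have fin : ∀ (φ : Gam) (n : ℤ), σ ^ n = φ → ¬ 2 ∣ n → ¬ 3 ∣ n →
      ∃ a : ℕ, a.Coprime 6 ∧ φ⁻¹ * s ^ a ∈ U := by
    intro φ n e h2 h3
    have h1 : (1 : ℤ) ≤ 3 ^ k := one_le_pow₀ (by norm_num)
    have h4 : 0 ≤ n + 6 * (3 ^ k * |n|) := by nlinarith [abs_nonneg n, neg_abs_le n]
    obtain ⟨a, ha⟩ := Int.eq_ofNat_of_zero_le h4
    refine ⟨a, ?_, QuotientGroup.eq.1 ?_⟩
    · refine (Nat.Coprime.mul_left (Nat.prime_two.coprime_iff_not_dvd.2 ?_)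
        (Nat.prime_three.coprime_iff_not_dvd.2 ?_)).symm <;> omega
    · rw [QuotientGroup.mk_pow, ← hσ, ← zpow_natCast, ← ha, zpow_add,
        show 6 * (3 ^ k * |n|) = 2 * 3 ^ k * (3 * |n|) by ring, zpow_mul, h0, one_zpow, mul_one, e]
  obtain ⟨J, hJ⟩ : ∃ J : ℤ → Subgroup Gam, ∀ m g, g ∈ J m ↔ ∃ n : ℤ, σ ^ (m * n) = g :=
    ⟨fun m => (Subgroup.zpowers (σ ^ m)).comap (QuotientGroup.mk' U), fun m g => by
      simp only [Subgroup.mem_comap, Subgroup.mem_zpowers_iff, zpow_mul, QuotientGroup.mk'_apply]⟩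
  have ho : ∀ m, Op (J m) := fun m => Subgroup.isOpen_mono (fun g hg => (hJ m g).2
    ⟨0, by rw [mul_zero, zpow_zero, (QuotientGroup.eq_one_iff g).2 hg]⟩) hU
  have hle : ∀ m, J m ≤ J 1 := fun m g hg => by
    obtain ⟨n, e⟩ := (hJ m g).1 hg
    exact (hJ 1 g).2 ⟨m * n, by rw [one_mul, e]⟩
  have hn : ∀ m, ∀ g ∈ J 1, ∀ φ ∈ J m, g * φ * g⁻¹ ∈ J m := fun m g hg φ hφ => by
    obtain ⟨a, e⟩ := (hJ 1 g).1 hg
    obtain ⟨n, e'⟩ := (hJ m φ).1 hφ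
    refine (hJ m _).2 ⟨n, ?_⟩
    rw [QuotientGroup.mk_mul, QuotientGroup.mk_mul, QuotientGroup.mk_inv, ← e, ← e',
      zpow_mul_comm, mul_inv_cancel_right]
  have hp : ∀ d : ℕ, s ^ d ∈ J 1 := fun d => pow_mem ((hJ 1 s).2 ⟨1, by simp [hσ]⟩) d
  by_cases h3 : s ∈ J 3
  · obtain ⟨n, e⟩ := (hJ 3 s).1 h3
    have h4 : σ ^ (3 * n - 1) = 1 := by rw [zpow_sub_one, e, ← hσ, mul_inv_cancel]
    obtain ⟨a, b, hab⟩ : IsCoprime ((3 : ℤ) ^ k) (3 * n - 1) :=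
      IsCoprime.pow_left ⟨n, -1, by ring⟩
    have h5 : σ ^ 2 = 1 := by
      rw [← zpow_natCast, show ((2 : ℕ) : ℤ) = 2 * 3 ^ k * a + (3 * n - 1) * (2 * b) by
        push_cast; linear_combination (-2) * hab, zpow_add, zpow_mul, h0, zpow_mul, h4]
      simp
    obtain ⟨v, φ, a, b1, b2, ⟨c, rfl⟩, b4⟩ := Lib.MP_696deb_nt.B2.cheb U s 1 B hU hN
      ((QuotientGroup.eq_one_iff _).1 (by rw [QuotientGroup.mk_pow, ← hσ, pow_one, h5]))
    refine ⟨v, φ, 1, b1, b2, Nat.coprime_one_left 6, QuotientGroup.eq.1 ?_⟩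
    rw [QuotientGroup.eq.2 b4, QuotientGroup.mk_pow, QuotientGroup.mk_pow, ← hσ, pow_succ, pow_mul,
      h5, one_pow, one_mul, pow_one]
  have h4 : ∀ d, 0 < d → d < 3 → s ^ d ∉ J 3 := fun d d0 d3 e => by
    obtain rfl | rfl : d = 1 ∨ d = 2 := by omega
    · exact h3 (by rwa [pow_one] at e)
    · have h5 : s ^ 3 ∈ J 3 := (hJ 3 _).2 ⟨1, by
        rw [QuotientGroup.mk_pow, ← hσ, mul_one, ← zpow_natCast]; rfl⟩
      have h6 := mul_mem (inv_mem e) h5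
      rw [pow_succ s 2, inv_mul_cancel_left] at h6
      exact h3 h6
  have h5 : ∀ (φ : Gam) (m n : ℤ), σ ^ n = φ → φ ∉ J m → ¬ m ∣ n := by
    rintro φ m _ e h ⟨n, rfl⟩
    exact h ((hJ m φ).2 ⟨n, e⟩)
  by_cases h2 : s ∈ J 2
  · obtain ⟨v, φ, b1, b2, b3, -, b4⟩ := exists_frob_avoid (ho 1) (ho 3) (ho 3) (hle 3) (hle 3)
      (hn 3) (hn 3) (fun i => s ^ (i : ℕ)) (fun i => s ^ (i : ℕ)) (fun _ => hp _) (fun _ => hp _)
      (ch3_rep fun d d0 d2 => h4 d d0 (by omega)) (ch3_rep h4) B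
    obtain ⟨n, e⟩ := (hJ 1 φ).1 b3
    rw [one_mul] at e
    have h6 := h5 φ 3 n e b4
    by_cases h7 : 2 ∣ n
    · obtain ⟨c, e'⟩ := (hJ 2 s).1 h2
      have h8 : σ ^ (2 * c - 1) = 1 := by rw [zpow_sub_one, e', ← hσ, mul_inv_cancel]
      have h9 : σ ^ (n + (2 * c - 1) * 3) = φ := by
        rw [zpow_add, zpow_mul, h8, one_zpow, mul_one, e]
      obtain ⟨a, ha⟩ := fin φ _ h9 (by omega) (by omega)
      exact ⟨v, φ, a, b1, b2, ha⟩
    · obtain ⟨a, ha⟩ := fin φ n e h7 h6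
      exact ⟨v, φ, a, b1, b2, ha⟩
  · obtain ⟨v, φ, b1, b2, b3, b4, b5⟩ := exists_frob_avoid (ho 1) (ho 2) (ho 3) (hle 2) (hle 3)
      (hn 2) (hn 3) (fun i => s ^ (i : ℕ)) (fun i => s ^ (i : ℕ)) (fun _ => hp _) (fun _ => hp _)
      (ch3_rep fun d d0 d2 => by
        obtain rfl : d = 1 := by omega
        rwa [pow_one]) (ch3_rep h4) B
    obtain ⟨n, e⟩ := (hJ 1 φ).1 b3
    rw [one_mul] at e
    obtain ⟨a, ha⟩ := fin φ n e (h5 φ 2 n e b4) (h5 φ 3 n e b5)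
    exact ⟨v, φ, a, b1, b2, ha⟩

end Pool.Agent.H3
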