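import Pool.Agent.Lib.MP_23455a_nt.H3.BAd
import Pool.Agent.Lib.MP_23455a_nt.H3.BAe
import Pool.Agent.Lib.MP_696deb_nt.B2.CL0

/-! Local class field theory: definitions. -/

set_option autoImplicit false

open scoped NNReal Classical
open Filter Topology Finset

namespace Pool.Agent.H3

open Pool.Agent.Lib.MP_696deb_nt.B2

/-- The cochain of roots of unity attached to an additive cochain. -/
noncomputable def zc (m : ℕ) (c : Gam → Gam → ZMod (3 ^ m)) (g h : Gam) : Qbar :=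
  zeta m ^ (c g h).val

/-- The local data of the fixed field of `H ⊓ Dec w`: residue degree, ramification index,
Frobenius element, uniformizer, normalised degree map. -/
structure LD (H : Subgroup Gam) (w : Plc) where
  f : ℕ
  e : ℕ
  φ : Gam
  π : Qbar
  ω : Gam → ℤ_[3]
  f_pos : 0 < f
  e_pos : 0 < e
  φ_mem : φ ∈ H
  frob : IsFrob w (w.p ^ f) φ
  dvd : ∀ (n : ℕ) (ψ : Gam), ψ ∈ H → IsFrob w (w.p ^ n) ψ → f ∣ n
  gen : ∀ g ∈ H ⊓ Dec w, ∀ U : Subgroup Gam, Op U →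
    ∃ (j : ℕ) (σ : Gam), σ ∈ H ⊓ Ine w ∧ (φ ^ j * σ)⁻¹ * g ∈ U ⊓ (H ⊓ Dec w)
  π_fx : Fx H π
  π_pos : 0 < w.V π
  π_lt : w.V π < 1
  val : ∀ x, Fx (H ⊓ Ine w) x → x ≠ 0 → ∃ k : ℤ, w.V x = w.V π ^ k
  V_p : w.V π ^ e = (w.p : ℝ≥0)⁻¹
  e_eq : (H ⊓ Ine w).relIndex (Ine w) = e
  ef : (H ⊓ Dec w).relIndex (Dec w) = e * f
  ω_sm : ∀ t, Sm (H ⊓ Dec w) fun g => PadicInt.toZModPow t (ω g)
  ω_hom : IsHom (H ⊓ Dec w) ω
  ω_φ : ω φ = 1
  ω_ine : ∀ σ ∈ H ⊓ Ine w, ω σ = 0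

/-- The unramified character of order `3 ^ t`. -/
noncomputable def LD.om {H : Subgroup Gam} {w : Plc} (L : LD H w) (t : ℕ) (g : Gam) :
    ZMod (3 ^ t) := PadicInt.toZModPow t (L.ω g)

/-- The unramified class with invariant `k / 3 ^ t`. -/
noncomputable def LD.ur {H : Subgroup Gam} {w : Plc} (L : LD H w) (t : ℕ) (k : ℤ) :
    Gam → Gam → Qbar := Cy (3 ^ t) (L.om t) (L.π ^ k)

/-- The number of cube classes. -/
noncomputable def cbIdx (D : Subgroup Gam) : ℕ := ((FU D).map (powMonoidHom 3)).relIndex (FU D)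

end Pool.Agent.H3
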