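import Pool.Agent.Lib.MP_23455a_nt.H3.CL0
import Pool.Agent.Lib.MP_696deb_nt.B2.CLa

/-! Cohomologous cochains and cyclic cocycles: formal properties. -/

set_option autoImplicit false

open scoped NNReal Classical
open Filter Topology Finset

namespace Pool.Agent.H3

open Pool.Agent.Lib.MP_696deb_nt.B2

variable {G P : Subgroup Gam} {γ γ' γ'' δ δ' : Gam → Gam → Qbar}

theorem C2.cq {m : ℕ} {c : Gam → Gam → ZMod (3 ^ m)} (h : C2 m G c) : CQ G (zc m c) := by
  refine ⟨h.1.comp fun x => zeta m ^ x.val, fun g _ k _ => b3b_ne m _, fun g hg k hk l hl => ?_⟩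
  simp only [zc]
  rw [smul_zeta_val, ← zeta_val_add, ← zeta_val_add, h.2 g hg k hk l hl]

theorem zc_add (m : ℕ) (c c' : Gam → Gam → ZMod (3 ^ m)) : zc m (c + c') = zc m c * zc m c' :=
  funext fun g => funext fun k => zeta_val_add m (c g k) (c' g k)

theorem zc_pow (m : ℕ) (c : Gam → Gam → ZMod (3 ^ m)) : zc m c ^ 3 ^ m = 1 :=
  funext fun g => funext fun k => b3b_pow m (c g k)

theorem cla_zeta (m n : ℕ) : zeta (m + n) ^ 3 ^ n = zeta m := by
  induction n with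
  | zero => rw [pow_zero, pow_one, add_zero]
  | succ n ih => rw [pow_succ', pow_mul, ← add_assoc, zeta_succ_cube, ih]

theorem zc_red {m m' : ℕ} (h : m' ≤ m) (c : Gam → Gam → ZMod (3 ^ m)) :
    zc m' (fun g k => ZMod.castHom (pow_dvd_pow 3 h) (ZMod (3 ^ m')) (c g k)) =
      zc m c ^ 3 ^ (m - m') := by
  funext g k
  obtain ⟨d, rfl⟩ := Nat.exists_eq_add_of_le h
  simp only [zc, Pi.pow_apply]
  rw [ZMod.castHom_apply, ZMod.cast_eq_val, b1b_zeta_cast, Nat.add_sub_cancel_left,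
    pow_right_comm, cla_zeta]

theorem zc_inc (m n : ℕ) (c : Gam → Gam → ZMod (3 ^ m)) :
    zc (m + n) (fun g k => 3 ^ n * ((c g k).val : ZMod (3 ^ (m + n)))) = zc m c := by
  funext g k
  simp only [zc]
  have e : (3 : ZMod (3 ^ (m + n))) ^ n * ((c g k).val : ZMod (3 ^ (m + n))) =
      ((3 ^ n * (c g k).val : ℕ) : ZMod (3 ^ (m + n))) := by
    rw [Nat.cast_mul, Nat.cast_pow, Nat.cast_ofNat]
  rw [e, b1b_zeta_cast, pow_mul, cla_zeta]

variable {n : ℕ} [NeZero n] {χ χ' : Gam → ZMod n} {a b : Qbar}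

/-- The cup product with a Kummer cocycle is the cyclic cocycle. -/
theorem cup_coh {m : ℕ} {χ κ : Gam → ZMod (3 ^ m)} (h1 : Sm G χ) (h2 : IsHom G χ)
    (h3 : Kum m G a κ) : Coh G (zc m (cup m χ κ)) (Cy (3 ^ m) χ a) := by
  have ha := h3.fx.2
  obtain ⟨r, r0, r1, r2⟩ := h3
  refine Coh.symm ⟨fun g => g r ^ (χ g).val, (sm_apply r).comp₂ h1 fun x y => x ^ y.val,
    fun g => pow_ne_zero _ (cla_ne g r0), fun g hg k hk => ?_⟩
  have e1 : g (k r) = g r * zeta m ^ (cy m g * κ k).val := by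
    rw [r2 k hk, map_mul, smul_zeta_val]
  have e2 : g (k r) ^ 3 ^ m = a := by
    rw [← AlgEquiv.mul_apply, ← map_pow, r1, ha _ (mul_mem hg hk)]
  have e3 : zc m (cup m χ κ) g k = (zeta m ^ (cy m g * κ k).val) ^ (χ g).val := by
    rw [← pow_mul, ← b1b_zeta_cast, Nat.cast_mul, ZMod.natCast_zmod_val, ZMod.natCast_zmod_val,
      zc, cup, mul_assoc, mul_comm]
  have e4 : g (k r) ^ (χ g).val * g (k r) ^ (χ k).val =
      g (k r) ^ (χ (g * k)).val * a ^ car (3 ^ m) χ g k := by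
    rw [← pow_add, car_spec h2 hg hk, pow_add, pow_mul, e2]
  dsimp only
  rw [e3, Cy, map_pow, AlgEquiv.mul_apply, mul_comm, ← e4, ← mul_assoc, ← mul_pow,
    mul_comm _ (g r), ← e1]

end Pool.Agent.H3
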