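import Pool.Agent.Lib.MP_23455a_nt.H3.CLa
import Pool.Agent.Lib.MP_696deb_nt.B2.CLc
import Pool.Agent.Lib.MP_696deb_nt.B2.B4c

/-! Descent along subgroups of index three. -/

set_option autoImplicit false

open scoped NNReal Classical
open Filter Topology Finset

namespace Pool.Agent.H3

open Pool.Agent.Lib.MP_696deb_nt.B2

variable {G U : Subgroup Gam} {γ : Gam → Gam → Qbar}

theorem coh_of_coprime (hU : Op U) (h : CQ G γ) (hs : Coh (U ⊓ G) γ 1)
    (ho : ¬ 3 ∣ (U ⊓ G).relIndex G) {t : ℕ} (ht : Coh G (γ ^ 3 ^ t) 1) : Coh G γ 1 := by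
  have h1 := coh_pow_index hU h hs
  set n := (U ⊓ G).relIndex G
  have hc : Nat.Coprime n (3 ^ (t + 1)) :=
    ((Nat.Prime.coprime_iff_not_dvd Nat.prime_three).2 ho).symm.pow_right _
  obtain ⟨u, -, hu⟩ := Nat.exists_mul_mod_eq_one_of_coprime hc
    (Nat.one_lt_pow (Nat.succ_ne_zero t) (by norm_num))
  have e : n * u = 1 + 3 ^ t * (3 * (n * u / 3 ^ (t + 1))) := by
    have := Nat.mod_add_div (n * u) (3 ^ (t + 1))
    rw [hu] at this
    rw [← mul_assoc, ← pow_succ]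
    exact this.symm
  have h2 := h1.pow u
  rw [← pow_mul, e, one_pow, pow_add, pow_one, pow_mul] at h2
  have h3 := (Coh.refl G γ).mul (ht.pow (3 * (n * u / 3 ^ (t + 1))))
  rw [one_pow, mul_one] at h3
  exact h3.symm.trans h2

theorem clb_third {X : Type} [Group X] (S : Subgroup X) [Finite S] {k : ℕ}
    (h : Nat.card S = 3 ^ (k + 1)) : ∃ (T : Subgroup X) (f : S →* Multiplicative (ZMod 3)),
      T ≤ S ∧ Nat.card T = 3 ^ k ∧ Function.Surjective f ∧ ∀ x : S, f x = 1 ↔ (x : X) ∈ T := by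
  have : Fact (Nat.Prime 3) := ⟨Nat.prime_three⟩
  obtain ⟨K, hK⟩ := Sylow.exists_subgroup_card_pow_prime (G := S) 3 (n := k)
    (by rw [h]; exact pow_dvd_pow 3 k.le_succ)
  have e1 := K.index_mul_card
  rw [hK, h, pow_succ'] at e1
  have e2 : K.index = 3 := Nat.eq_of_mul_eq_mul_right (by positivity) e1
  have : K.Normal := Subgroup.normal_of_index_eq_minFac_card (by
    rw [e2, h, Nat.pow_minFac k.succ_ne_zero, Nat.prime_three.minFac_eq])
  let e : S ⧸ K ≃* Multiplicative (ZMod 3) := mulEquivOfPrimeCardEq (p := 3) e2 (by simp)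
  refine ⟨K.map S.subtype, e.toMonoidHom.comp (QuotientGroup.mk' K), Subgroup.map_subtype_le K,
    by rw [Subgroup.card_map_of_injective S.subtype_injective, hK],
    e.surjective.comp (QuotientGroup.mk'_surjective K), fun x => ?_⟩
  exact (e.map_eq_one_iff.trans (QuotientGroup.eq_one_iff x)).trans
    (Subgroup.mem_map_iff_mem S.subtype_injective).symm

theorem mem_GK3_of_pow {g : Gam} {k : ℕ} (h : g ^ 3 ^ k ∈ GK 3) : g ∈ GK 3 := by
  have e : ∀ n : ℕ, cy 1 (g ^ n) = cy 1 g ^ n := fun n => by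
    induction n with
    | zero => rw [pow_zero g, cy_one, pow_zero (cy 1 g)]
    | succ n ih => rw [pow_succ g, cy_mul, ih, pow_succ (cy 1 g)]
  rw [mem_GK3, e] at h
  refine mem_GK3.2 ((cy_one_or g).resolve_right fun k1 => ?_)
  rw [k1, (Odd.pow (by decide)).neg_one_pow] at h
  exact absurd h (by decide)

/-- Descent along a Sylow subgroup and a chain of cyclic cubic steps. -/
theorem devissage3 (D : Subgroup Gam) (Q : Subgroup Gam → Prop) {H U : Subgroup Gam} (hH : Op H)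
    (hU : Op U) (h0 : ∀ H' : Subgroup Gam, Op H' → H' ≤ H → H' ⊓ D ≤ U → Q H')
    (h2 : ∀ (H' H'' : Subgroup Gam) (χ : Gam → ZMod 3) (s : Gam) (c : IsHom (H' ⊓ D) χ),
      Op H'' → H'' ≤ H' → H' ≤ H → H' ≤ GK 3 → Sm (H' ⊓ D) χ → s ∈ H' ⊓ D → χ s = 1 →
      kerOn (H' ⊓ D) χ c = H'' ⊓ D → Q H'' → Q H') :
    ∃ H' : Subgroup Gam, Op H' ∧ H' ≤ H ∧ ¬ 3 ∣ (H' ⊓ D).relIndex (H ⊓ D) ∧ Q H' := by
  have : Fact (Nat.Prime 3) := ⟨Nat.prime_three⟩
  obtain ⟨N, hN, hNn, hNle⟩ := exists_normal_le ((hH.inf hU).inf (op_GK 3))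
  have : Finite (Gam ⧸ N) := N.quotient_finite_of_isOpen hN
  set π := QuotientGroup.mk' N with hπ
  set A := (H ⊓ D).map π with hA
  have hker : ∀ S : Subgroup (Gam ⧸ N), N ≤ S.comap π := fun S g hg => by
    rw [Subgroup.mem_comap, hπ, QuotientGroup.mk'_apply, (QuotientGroup.eq_one_iff g).2 hg]
    exact S.one_mem
  have hop : ∀ S : Subgroup (Gam ⧸ N), Op (S.comap π) := fun S =>
    Subgroup.isOpen_mono (hker S) hN
  have hle : ∀ S ≤ A, S.comap π ≤ H := fun S hS g hg => by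
    obtain ⟨a, ha, e⟩ := hS hg
    have e1 : a⁻¹ * g ∈ N := QuotientGroup.eq.1 e
    simpa using H.mul_mem ha.1 (hNle e1).1.1
  have key : ∀ k : ℕ, ∀ S ≤ A, Nat.card S = 3 ^ k → Q (S.comap π) := by
    intro k
    induction k with
    | zero =>
      intro S hS hc
      refine h0 _ (hop S) (hle S hS) fun g hg => ?_
      have e : π g ∈ S := hg.1
      rw [Subgroup.card_eq_one.1 hc, Subgroup.mem_bot] at e
      exact (hNle ((QuotientGroup.eq_one_iff g).1 e)).1.2
    | succ k ih =>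
      intro S hS hc
      obtain ⟨T, f, h1, h3, h4, h5⟩ := clb_third S hc
      obtain ⟨⟨x, hx⟩, h6⟩ := h4 (Multiplicative.ofAdd 1)
      obtain ⟨s, hs, rfl⟩ := hS hx
      let χ : Gam → ZMod 3 := fun g => if h : π g ∈ S then (f ⟨π g, h⟩).toAdd else 0
      have e : ∀ g (h : π g ∈ S), χ g = (f ⟨π g, h⟩).toAdd := fun g h => dif_pos h
      refine h2 _ _ χ s (fun g hg l hl => ?_) (hop T) (Subgroup.comap_mono h1) (hle S hS)
        (fun g hg => ?_) (b1a_open N hN fun g _ l _ k1 => ?_) ⟨hx, hs.2⟩ (by rw [e s hx, h6]; rfl)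
        (Subgroup.ext fun g => ⟨fun k1 => ⟨(h5 ⟨π g, k1.1.1⟩).1 ((e g k1.1.1).symm.trans k1.2),
          k1.1.2⟩, fun k1 => ⟨⟨h1 k1.1, k1.2⟩, (e g (h1 k1.1)).trans ((h5 _).2 k1.1)⟩⟩)
        (ih T (h1.trans hS) h3)
      · rw [e _ (mul_mem hg hl).1, e g hg.1, e l hl.1, ← toAdd_mul, ← map_mul]
        rfl
      · refine mem_GK3_of_pow (k := k + 1) (hNle ((QuotientGroup.eq_one_iff _).1 ?_)).2
        have k1 := congrArg Subtype.val (pow_card_eq_one' (x := (⟨π g, hg⟩ : S)))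
        rwa [hc] at k1
      · simp only [χ, show π g = π l from QuotientGroup.eq.2 k1]
  obtain ⟨S⟩ : Nonempty (Sylow 3 A) := inferInstance
  obtain ⟨k, hk⟩ := S.isPGroup'.exists_card_eq
  have hS : (S : Subgroup A).map A.subtype ≤ A := Subgroup.map_subtype_le _
  refine ⟨_, hop _, hle _ hS, ?_, key k _ hS ?_⟩
  · have e : ((S : Subgroup A).map A.subtype).subgroupOf A = S :=
      Subgroup.comap_map_eq_self_of_injective A.subtype_injective _
    rw [clb_rel π D _ _ inf_le_right, ← hA, Subgroup.relIndex, e]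
    exact S.not_dvd_index
  · rw [Subgroup.card_map_of_injective A.subtype_injective, hk]

theorem relIndex_kerOn {n : ℕ} [NeZero n] {χ : Gam → ZMod n} (c : IsHom G χ) {s : Gam}
    (hs : s ∈ G) (h1 : χ s = 1) : (kerOn G χ c).relIndex G = n := by
  let f : G →* Multiplicative (ZMod n) := MonoidHom.mk' (fun g => Multiplicative.ofAdd (χ g))
    fun g l => congrArg Multiplicative.ofAdd (c g g.2 l l.2)
  have e : (kerOn G χ c).subgroupOf G = f.ker := Subgroup.ext fun g => ⟨fun h => h.2, fun h => ⟨g.2, h⟩⟩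
  have e1 : f.range = ⊤ := MonoidHom.range_eq_top.2 fun t => ⟨⟨s ^ t.toAdd.val, pow_mem hs _⟩,
    congrArg Multiplicative.ofAdd ((clc_pow c hs h1 _).trans (ZMod.natCast_zmod_val _))⟩
  rw [Subgroup.relIndex, e, Subgroup.index_ker, e1, Subgroup.card_top]
  exact Nat.card_zmod n

end Pool.Agent.H3
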