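import Pool.Agent.Lib.MP_23455a_nt.H3.CLa
import Pool.Agent.Lib.MP_696deb_nt.B2.CLe

/-! Existence of local data. -/

set_option autoImplicit false

open scoped NNReal Classical
open Filter Topology Finset

namespace Pool.Agent.H3

open Pool.Agent.Lib.MP_696deb_nt.B2

variable {H H' : Subgroup Gam} {w : Plc}

theorem cle_eq_iff (t : ℕ) (x y : ℤ_[3]) :
    PadicInt.toZModPow t x = PadicInt.toZModPow t y ↔ (3 : ℤ_[3]) ^ t ∣ x - y := by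
  rw [← sub_eq_zero, ← map_sub, ← RingHom.mem_ker, PadicInt.ker_toZModPow,
    Ideal.mem_span_singleton]
  rfl

theorem cle_cont (t : ℕ) : Continuous fun x : ℤ_[3] => PadicInt.toZModPow t x := by
  refine continuous_iff_continuousAt.2 fun x => ?_
  have hpos : (0 : ℝ) < ((3 : ℕ) : ℝ) ^ (-(t : ℤ)) := by positivity
  refine (continuousAt_const (y := PadicInt.toZModPow t x)).congr ?_
  filter_upwards [Metric.ball_mem_nhds x hpos] with y hy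
  rw [mem_ball_iff_norm'] at hy
  rw [cle_eq_iff, ← Ideal.mem_span_singleton]
  exact (PadicInt.norm_le_pow_iff_mem_span_pow _ t).1 hy.le

theorem exists_LD (hH : Op H) (w : Plc) : Nonempty (LD H w) := by
  have ex := cle_exists hH w
  obtain ⟨hf, φ, h1, h2⟩ := Nat.find_spec ex
  have hd := cle_dvd hf h1 h2 fun n hn => Nat.find_min ex hn
  generalize Nat.find ex = f at hf h2 hd
  have hg := cle_gen hH h1 h2 hd
  obtain ⟨π, p1, p2, p3, p4⟩ := exists_unif hH w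
  obtain ⟨ω, o1, o2, o3⟩ := exists_deg w
  have osm : ∀ t, Sm (H ⊓ Dec w) fun g => PadicInt.toZModPow t (ω g) := fun t =>
    (Sm.of_continuousOn (closed_Dec w) ((cle_cont t).comp_continuousOn o1)).mono inf_le_right
  obtain ⟨a, m, hm, hfa⟩ := Nat.exists_eq_pow_mul_and_not_dvd hf.ne' 3 (by norm_num)
  have hu : IsUnit (m : ℤ_[3]) :=
    PadicInt.isUnit_iff.2 (PadicInt.norm_natCast_eq_one_iff.2 ((Nat.Prime.coprime_iff_not_dvd Nat.prime_three).2 hm))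
  have hfa' : (f : ℤ_[3]) = 3 ^ a * m := by rw [hfa]; push_cast; rfl
  have f0 : (f : ℤ_[3]) ≠ 0 := Nat.cast_ne_zero.2 hf.ne'
  have hdv : ∀ g ∈ H ⊓ Dec w, (f : ℤ_[3]) ∣ ω g := by
    intro g hg'
    obtain ⟨U, u1, -, u3⟩ := osm a
    obtain ⟨j, σ, hσ, hm'⟩ := hg g hg' U u1
    have hfr := (cle_frob_pow h2 j).mul_ine hσ.2
    have e := u3 _ ⟨mul_mem (pow_mem h1 j) hσ.1, hfr.1⟩ g hg' hm'.1
    simp only [o3 _ _ hfr, cle_eq_iff] at e
    rw [hfa', hu.mul_right_dvd]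
    have e2 : (3 : ℤ_[3]) ^ a ∣ ((f * j : ℕ) : ℤ_[3]) := by
      push_cast; rw [hfa', mul_assoc]; exact dvd_mul_right _ _
    simpa using dvd_sub e2 e
  have hq : ∀ g, ∃ x : ℤ_[3], g ∈ H ⊓ Dec w → ω g = f * x := fun g => by
    by_cases h : g ∈ H ⊓ Dec w
    · obtain ⟨x, hx⟩ := hdv g h
      exact ⟨x, fun _ => hx⟩
    · exact ⟨0, fun k => absurd k h⟩
  choose ω' hω using hq
  refine ⟨⟨f, (H ⊓ Ine w).relIndex (Ine w), φ, π, ω', hf, Nat.pos_of_ne_zero fun h => ?_, h1, h2,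
    hd, hg, p1, p2, p3, p4, ram_eq hH p1 p2 p3 p4, rfl, cle_ef hH hf h1 h2 hd, fun t => ?_,
    fun g k1 h k2 => ?_, ?_, fun σ hσ => ?_⟩⟩
  · rw [Subgroup.inf_relIndex_right] at h
    exact hH.index_ne_zero (Subgroup.index_eq_zero_of_relIndex_eq_zero h)
  · obtain ⟨U, u1, u2, u3⟩ := osm (a + t)
    refine ⟨U, u1, u2, fun g k1 h k2 k3 => ?_⟩
    have e := u3 g k1 h k2 k3
    simp only [cle_eq_iff] at e ⊢
    rw [hω g k1, hω h k2, ← mul_sub, hfa', pow_add, mul_assoc,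
      mul_dvd_mul_iff_left (pow_ne_zero _ (by norm_num)), hu.dvd_mul_left] at e
    exact e
  · refine mul_left_cancel₀ f0 ?_
    rw [mul_add, ← hω g k1, ← hω h k2, ← hω _ (mul_mem k1 k2), o2 g k1.2 h k2.2]
  · refine mul_left_cancel₀ f0 ?_
    rw [← hω φ ⟨h1, h2.1⟩, o3 f φ h2, mul_one]
  · refine mul_left_cancel₀ f0 ?_
    rw [← hω σ ⟨hσ.1, Ine_le w hσ.2⟩, o3 0 σ (by rw [pow_zero]; exact isFrob_one.2 hσ.2), mul_zero,
      Nat.cast_zero]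

theorem LD.φ_mem' (L : LD H w) : L.φ ∈ H ⊓ Dec w := ⟨L.φ_mem, L.frob.1⟩

theorem LD.π_ne (L : LD H w) : L.π ≠ 0 := fun h => by
  have := L.π_pos
  rw [h, map_zero] at this
  exact lt_irrefl _ this

theorem LD.fx_zpow (L : LD H w) (k : ℤ) : Fx (H ⊓ Dec w) (L.π ^ k) := fun g hg => by
  rw [map_zpow₀, L.π_fx g hg.1]

theorem LD.om_sm (L : LD H w) (t : ℕ) : Sm (H ⊓ Dec w) (L.om t) := L.ω_sm t

theorem LD.om_hom (L : LD H w) (t : ℕ) : IsHom (H ⊓ Dec w) (L.om t) := fun g hg h hh => by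
  simp only [LD.om, L.ω_hom g hg h hh, map_add]

theorem LD.om_φ (L : LD H w) (t : ℕ) : L.om t L.φ = 1 := by
  simp only [LD.om, L.ω_φ, map_one]

theorem LD.om_ine (L : LD H w) (t : ℕ) {σ : Gam} (h : σ ∈ H ⊓ Ine w) : L.om t σ = 0 := by
  simp only [LD.om, L.ω_ine σ h, map_zero]

theorem LD.om_red (L : LD H w) {t t' : ℕ} (h : t' ≤ t) (g : Gam) :
    L.om t' g = ((L.om t g).val : ZMod (3 ^ t')) := by
  rw [ZMod.natCast_val]
  exact (PadicInt.cast_toZModPow t' t h _).symm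

theorem cle_val (L : LD H w) {t : ℕ} {χ : Gam → ZMod (3 ^ t)} (h2 : IsHom (H ⊓ Dec w) χ)
    (h3 : ∀ σ ∈ H ⊓ Ine w, χ σ = 0) (j : ℕ) {σ : Gam} (hσ : σ ∈ H ⊓ Ine w) :
    χ (L.φ ^ j * σ) = j * χ L.φ := by
  rw [h2 _ (pow_mem L.φ_mem' j) _ ⟨hσ.1, Ine_le w hσ.2⟩, h3 σ hσ, add_zero,
    cle_pow h2 L.φ_mem']

/-- An unramified character is a multiple of the normalised one. -/
theorem LD.unr_eq (L : LD H w) {t : ℕ} {χ : Gam → ZMod (3 ^ t)} (h1 : Sm (H ⊓ Dec w) χ)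
    (h2 : IsHom (H ⊓ Dec w) χ) (h3 : ∀ σ ∈ H ⊓ Ine w, χ σ = 0) :
    ∀ g ∈ H ⊓ Dec w, χ g = χ L.φ * L.om t g := by
  intro g hg
  obtain ⟨U, u1, -, u3⟩ := h1.comp₂ (L.om_sm t) Prod.mk
  obtain ⟨j, σ, hσ, hm⟩ := L.gen g hg U u1
  have e := u3 _ (mul_mem (pow_mem L.φ_mem' j) ⟨hσ.1, Ine_le w hσ.2⟩) g hg hm.1
  obtain ⟨e1, e2⟩ := Prod.mk.inj e
  rw [← e1, ← e2, cle_val L h2 h3 j hσ, cle_val L (L.om_hom t) (fun _ h => L.om_ine t h) j hσ,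
    L.om_φ, mul_one, mul_comm]

/-- Comparison of the data of two fields. -/
theorem LD.tower (L : LD H w) (L' : LD H' w) (h : H' ≤ H) : ∃ e f : ℕ, L'.e = e * L.e ∧
    L'.f = f * L.f ∧ (H' ⊓ Dec w).relIndex (H ⊓ Dec w) = e * f ∧ w.V L.π = w.V L'.π ^ e ∧
    ∀ t, ∀ g ∈ H' ⊓ Dec w, L.om t g = f * L'.om t g := by
  obtain ⟨f, hf⟩ := L.dvd L'.f L'.φ (h L'.φ_mem) L'.frob
  have he : L'.e = (H' ⊓ Ine w).relIndex (H ⊓ Ine w) * L.e := by
    rw [← L.e_eq, ← L'.e_eq,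
      Subgroup.relIndex_mul_relIndex _ _ _ (inf_le_inf_right _ h) inf_le_right]
  refine ⟨(H' ⊓ Ine w).relIndex (H ⊓ Ine w), f, he, by rw [hf, mul_comm], ?_, ?_,
    fun t g hg => ?_⟩
  · have := Subgroup.relIndex_mul_relIndex (H' ⊓ Dec w) (H ⊓ Dec w) (Dec w)
      (inf_le_inf_right _ h) inf_le_right
    rw [L.ef, L'.ef, he, hf] at this
    refine Nat.eq_of_mul_eq_mul_right (Nat.mul_pos L.e_pos L.f_pos) ?_
    rw [this]; ring
  · refine (pow_left_inj₀ zero_le zero_le L.e_pos.ne').1 ?_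
    rw [← pow_mul, ← he, L.V_p, L'.V_p]
  · have hle : H' ⊓ Dec w ≤ H ⊓ Dec w := inf_le_inf_right _ h
    rw [L'.unr_eq ((L.om_sm t).mono hle) (fun a ha b hb => L.om_hom t a (hle ha) b (hle hb))
      (fun σ hσ => L.om_ine t ⟨h hσ.1, hσ.2⟩) g hg]
    have a1 := cle_frob_pow L.frob f
    rw [← hf] at a1
    have a2 : (L.φ ^ f)⁻¹ * L'.φ ∈ H ⊓ Ine w :=
      ⟨H.mul_mem (H.inv_mem (H.pow_mem L.φ_mem f)) (h L'.φ_mem), a1.inv_mul_mem L'.frob⟩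
    have := cle_val L (L.om_hom t) (fun _ h => L.om_ine t h) f a2
    rw [mul_inv_cancel_left, L.om_φ, mul_one] at this
    rw [this]

end Pool.Agent.H3
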