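import Pool.Agent.Lib.MP_23455a_nt.H3.CLe
import Pool.Agent.Lib.MP_696deb_nt.B2.CLf

/-! Units are norms from unramified extensions. -/

set_option autoImplicit false

open scoped NNReal Classical
open Filter Topology Finset

namespace Pool.Agent.H3

open Pool.Agent.Lib.MP_696deb_nt.B2

variable {H : Subgroup Gam} {w : Plc}

theorem clf_q (L : LD H w) : 1 < w.p ^ L.f := Nat.one_lt_pow L.f_pos.ne' w.prime.one_lt

theorem clf_qn (L : LD H w) {n : ℕ} (hn : n ≠ 0) : 1 < (w.p ^ L.f) ^ n :=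
  Nat.one_lt_pow hn (clf_q L)

theorem clf_ndvd (L : LD H w) {n : ℕ} (hn : n ≠ 0) : ¬ w.p ∣ (w.p ^ L.f) ^ n - 1 := fun h =>
  w.prime.not_dvd_one ((Nat.dvd_sub_iff_right (clf_qn L hn).le
    (dvd_pow (dvd_pow_self _ L.f_pos.ne') hn)).1 h)

theorem clf_om_pow (L : LD H w) (t j : ℕ) : L.om t (L.φ ^ j) = j := by
  induction j with
  | zero =>
    have h := (kerOn (H ⊓ Dec w) (L.om t) (L.om_hom t)).one_mem
    simpa using h.2
  | succ j ih =>
    rw [pow_succ, L.om_hom t _ (pow_mem L.φ_mem' j) _ L.φ_mem', ih, L.om_φ]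
    push_cast
    rfl

theorem LD.fx_root (L : LD H w) (t : ℕ) {z : Qbar} (hz : z ^ ((w.p ^ L.f) ^ 3 ^ t - 1) = 1) :
    Fx (kerOn (H ⊓ Dec w) (L.om t) (L.om_hom t)) z := by
  rintro g ⟨hg, g0⟩
  have n0 : 3 ^ t ≠ 0 := pow_ne_zero _ three_ne_zero
  obtain ⟨U, hU, -, kU⟩ := L.om_sm t
  obtain ⟨j, σ, hσ, ⟨u1, u2⟩, -⟩ := L.gen g hg _ (hU.inf (b3a_op z))
  have hσ' : σ ∈ H ⊓ Dec w := ⟨hσ.1, Ine_le w hσ.2⟩
  have hm : L.φ ^ j * σ ∈ H ⊓ Dec w := mul_mem (pow_mem L.φ_mem' j) hσ'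
  have e1 := kU _ hm _ hg u1
  rw [g0, L.om_hom t _ (pow_mem L.φ_mem' j) _ hσ', clf_om_pow, L.om_ine t hσ, add_zero,
    ZMod.natCast_eq_zero_iff] at e1
  obtain ⟨k, rfl⟩ := e1
  have e2 : g z = (L.φ ^ (3 ^ t * k) * σ) z := by
    have e3 : ((L.φ ^ (3 ^ t * k) * σ)⁻¹ * g) z = z := u2
    conv_rhs => rw [← e3]
    rw [← AlgEquiv.mul_apply, mul_inv_cancel_left]
  rw [e2, frob_root ((L.frob.pow _).mul_ine hσ.2) (clf_ndvd L n0) hz, pow_mul]
  exact clf_iter (clf_qn L n0).le hz k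

theorem LD.fx_root0 (L : LD H w) {z : Qbar} (hz : z ^ (w.p ^ L.f - 1) = 1) :
    Fx (H ⊓ Dec w) z := by
  intro g hg
  have : Subsingleton (ZMod (3 ^ 0)) := (inferInstance : Subsingleton (ZMod 1))
  exact L.fx_root 0 (by simpa using hz) g ⟨hg, Subsingleton.elim _ _⟩

/-- Teichmuller representatives. -/
theorem LD.teich (L : LD H w) {a : Qbar} (ha : Fx (H ⊓ Dec w) a) (hv : w.V a = 1) :
    ∃ z : Qbar, z ^ (w.p ^ L.f - 1) = 1 ∧ w.V (a - z) < 1 := by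
  have hq := clf_q L
  have : NeZero (w.p ^ L.f - 1) := ⟨by omega⟩
  obtain ⟨ζ, hζ⟩ := HasEnoughRootsOfUnity.exists_primitiveRoot Qbar (w.p ^ L.f - 1)
  have h1 := L.frob.2 a hv.le
  rw [ha _ L.φ_mem', w.V.map_sub_swap] at h1
  have h2 : a ^ w.p ^ L.f - a = a * (a ^ (w.p ^ L.f - 1) - 1) := by
    conv_lhs => rw [← Nat.sub_add_cancel hq.le, pow_succ]
    ring
  rw [h2, map_mul, hv, one_mul] at h1
  have h3 := congrArg (Polynomial.eval a) (Polynomial.X_pow_sub_one_eq_prod (by omega) hζ)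
  simp only [Polynomial.eval_sub, Polynomial.eval_pow, Polynomial.eval_X, Polynomial.eval_one,
    Polynomial.eval_prod, Polynomial.eval_C] at h3
  rw [h3, map_prod] at h1
  by_contra hne
  push Not at hne
  refine h1.not_ge (Finset.one_le_prod' fun z hz => hne z ?_)
  exact (Polynomial.mem_nthRootsFinset (by omega) 1).1 hz

/-- Roots of unity of the base are norms of roots of unity. -/
theorem clf_root_norm (L : LD H w) {n : ℕ} (hn : n ≠ 0) {z : Qbar}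
    (hz : z ^ (w.p ^ L.f - 1) = 1) :
    ∃ x : Qbar, x ^ ((w.p ^ L.f) ^ n - 1) = 1 ∧ z = Nm L.φ n x := by
  have hq := clf_q L
  have hqn := clf_qn L hn
  have : NeZero (w.p ^ L.f - 1) := ⟨by omega⟩
  have : NeZero ((w.p ^ L.f) ^ n - 1) := ⟨by omega⟩
  obtain ⟨ζ, hζ⟩ := HasEnoughRootsOfUnity.exists_primitiveRoot Qbar ((w.p ^ L.f) ^ n - 1)
  have h1 : Nm L.φ n ζ = ζ ^ ∑ i ∈ range n, (w.p ^ L.f) ^ i := by
    rw [← prod_pow_eq_pow_sum]
    exact prod_congr rfl fun i _ => frob_root (L.frob.pow i) (clf_ndvd L hn) hζ.pow_eq_one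
  have h2 : (w.p ^ L.f) ^ n - 1 = (∑ i ∈ range n, (w.p ^ L.f) ^ i) * (w.p ^ L.f - 1) := by
    have h3 := geom_sum_mul_add (w.p ^ L.f - 1) n
    rw [Nat.sub_add_cancel hq.le] at h3
    omega
  obtain ⟨i, -, hi⟩ := (hζ.pow (by omega) h2).eq_pow_of_pow_eq_one hz
  refine ⟨ζ ^ i, by rw [pow_right_comm, hζ.pow_eq_one, one_pow], ?_⟩
  rw [clf_Nm_pow, h1, hi]

/-- A root of unity whose trace is a unit. -/
theorem clf_trace (L : LD H w) {n : ℕ} (hn : n ≠ 0) :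
    ∃ y : Qbar, y ^ ((w.p ^ L.f) ^ n - 1) = 1 ∧ w.V (∑ i ∈ range n, (L.φ ^ i) y) = 1 := by
  have hq := clf_q L
  have hqn := clf_qn L hn
  have hM : (w.p ^ L.f) ^ n - 1 ≠ 0 := by omega
  have : NeZero ((w.p ^ L.f) ^ n - 1) := ⟨hM⟩
  obtain ⟨ζ, hζ⟩ := HasEnoughRootsOfUnity.exists_primitiveRoot Qbar ((w.p ^ L.f) ^ n - 1)
  have z0 : ζ ≠ 0 := hζ.ne_zero hM
  have z1 := w.V_root_of_unity hM hζ.pow_eq_one
  have hk : ∀ k : ℕ, (ζ ^ k) ^ ((w.p ^ L.f) ^ n - 1) = 1 := fun k => by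
    rw [pow_right_comm, hζ.pow_eq_one, one_pow]
  by_contra hne
  push Not at hne
  have h1 : ∀ k : ℕ, w.V ((ζ ^ k)⁻¹ * ∑ i ∈ range n, (L.φ ^ i) (ζ ^ k)) < 1 := fun k => by
    refine b2a_mul_lt w (by rw [map_inv₀, map_pow, z1, one_pow, inv_one]) ?_
    refine lt_of_le_of_ne (w.V.map_sum_le fun i _ => ?_) (hne _ (hk k))
    rw [mem_Dec.1 (pow_mem L.frob.1 i), map_pow, z1, one_pow]
  have h2 := w.V.map_sum_lt one_ne_zero
    (s := range ((w.p ^ L.f) ^ n - 1)) fun k _ => h1 k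
  have h3 : ∑ k ∈ range ((w.p ^ L.f) ^ n - 1), (ζ ^ k)⁻¹ * ∑ i ∈ range n, (L.φ ^ i) (ζ ^ k) =
      (((w.p ^ L.f) ^ n - 1 : ℕ) : ℤ) := by
    have e : ∀ k : ℕ, (ζ ^ k)⁻¹ * ∑ i ∈ range n, (L.φ ^ i) (ζ ^ k) =
        ∑ i ∈ range n, (ζ ^ ((w.p ^ L.f) ^ i - 1)) ^ k := fun k => by
      rw [mul_sum]
      refine sum_congr rfl fun i _ => ?_
      have hi : 1 ≤ (w.p ^ L.f) ^ i := Nat.one_le_pow _ _ (by omega)
      rw [frob_root (L.frob.pow i) (clf_ndvd L hn) (hk k), pow_right_comm ζ _ k]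
      conv_lhs => rw [← Nat.sub_add_cancel hi, pow_succ']
      rw [inv_mul_cancel_left₀ (pow_ne_zero _ z0)]
    rw [sum_congr rfl fun k _ => e k, sum_comm,
      sum_eq_single 0 (fun i hi i0 => ?_) (fun h => absurd (mem_range.2 (by omega)) h)]
    · simp
    · have e2 := geom_sum_mul (ζ ^ ((w.p ^ L.f) ^ i - 1)) ((w.p ^ L.f) ^ n - 1)
      rw [hk, sub_self, mul_eq_zero] at e2
      refine e2.resolve_right fun h => ?_
      have h4 := clf_qn L i0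
      have h5 : (w.p ^ L.f) ^ i < (w.p ^ L.f) ^ n := Nat.pow_lt_pow_right hq (mem_range.1 hi)
      exact hζ.pow_ne_one_of_pos_of_lt (by omega) (by omega) (sub_eq_zero.1 h)
  rw [h3, w.V_int_eq_one.2 (by exact_mod_cast clf_ndvd L hn)] at h2
  exact h2.false

/-- Principal units are norms. -/
theorem clf_one_norm (L : LD H w) (t : ℕ) {u : Qbar} (hu : Fx (H ⊓ Dec w) u)
    (hv : w.V (u - 1) < 1) :
    ∃ β, Fx (kerOn (H ⊓ Dec w) (L.om t) (L.om_hom t)) β ∧ u = Nm L.φ (3 ^ t) β := by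
  have n0 : 3 ^ t ≠ 0 := pow_ne_zero _ three_ne_zero
  have hM : (w.p ^ L.f) ^ 3 ^ t - 1 ≠ 0 := by have := clf_qn L n0; omega
  obtain ⟨y, hy, ty⟩ := clf_trace L n0
  have y1 := w.V_root_of_unity hM hy
  have y0 : y ≠ 0 := fun h => by simp [h] at y1
  have fy := L.fx_root t hy
  have fy' : Fx (kerOn (H ⊓ Dec w) (L.om t) (L.om_hom t)) y⁻¹ := fun g hg => by
    rw [map_inv₀, fy g hg]
  have u1 : w.V u ≤ 1 := by
    rw [show u = (u - 1) + 1 by ring]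
    exact w.V.map_add_le hv.le (by simp)
  set c : ℕ → Qbar := fun i => (L.φ ^ i) y⁻¹ with hc
  have c1 : ∀ i, w.V (c i) = 1 := fun i => by
    rw [hc, mem_Dec.1 (pow_mem L.frob.1 i), map_inv₀, y1, inv_one]
  have N1 : w.V (Nm L.φ (3 ^ t) y⁻¹) = 1 := by
    rw [Nm, map_prod]
    exact prod_eq_one fun i _ => c1 i
  set P : Polynomial Qbar := ∏ i ∈ range (3 ^ t), (Polynomial.X + Polynomial.C (c i)) with hP
  have mP : P.Monic := Polynomial.monic_prod_of_monic _ _ fun i _ => Polynomial.monic_X_add_C _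
  have dP : P.natDegree = 3 ^ t := by
    rw [hP, Polynomial.natDegree_prod_of_monic _ _ fun i _ => Polynomial.monic_X_add_C _]
    simp
  have eP : ∀ x, Fx (H ⊓ Dec w) x → P.eval x = Nm L.φ (3 ^ t) (x + y⁻¹) := fun x hx => by
    rw [hP, Polynomial.eval_prod, Nm]
    refine prod_congr rfl fun i _ => ?_
    rw [map_add, hx _ (pow_mem L.φ_mem' i)]
    simp [hc]
  have fN := fx_Nm (L.om_hom t) L.φ_mem' (L.om_φ t) fy'
  have mF : (P - Polynomial.C (u * Nm L.φ (3 ^ t) y⁻¹)).Monic := by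
    refine mP.sub_of_left (Polynomial.degree_C_le.trans_lt ?_)
    rw [← Polynomial.natDegree_pos_iff_degree_pos, dP]
    exact Nat.pos_of_ne_zero n0
  have fk : ∀ (D : Subgroup Gam) (k : ℕ), Fx D (k : Qbar) := fun D k g _ => map_natCast g k
  have k1 : ∀ k : ℕ, Fx (H ⊓ Dec w)
      ((P - Polynomial.C (u * Nm L.φ (3 ^ t) y⁻¹)).eval (k : Qbar)) := fun k g hg => by
    rw [Polynomial.eval_sub, Polynomial.eval_C, eP _ (fk _ k), map_sub, map_mul, hu g hg, fN g hg,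
      fx_Nm (L.om_hom t) L.φ_mem' (L.om_φ t)
        (fun s hs => by rw [map_add, map_natCast, fy' s hs]) g hg]
  have k2 : ∀ j, w.V ((P - Polynomial.C (u * Nm L.φ (3 ^ t) y⁻¹)).coeff j) ≤ 1 := fun j => by
    rw [Polynomial.coeff_sub]
    refine w.V.map_sub_le (clf_coeff c _ (fun i => (c1 i).le) j) ?_
    rw [Polynomial.coeff_C]
    split_ifs
    · exact b2a_mul_le w u1 N1.le
    · simp
  have k3 : w.V ((P - Polynomial.C (u * Nm L.φ (3 ^ t) y⁻¹)).eval 0) < 1 := by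
    rw [Polynomial.eval_sub, Polynomial.eval_C, eP 0 fun g _ => map_zero g, zero_add,
      ← one_sub_mul, map_mul, N1, mul_one, w.V.map_sub_swap]
    exact hv
  have k4 : w.V ((Polynomial.derivative (P - Polynomial.C (u * Nm L.φ (3 ^ t) y⁻¹))).eval 0)
      = 1 := by
    have e : (Polynomial.derivative P).eval 0 =
        Nm L.φ (3 ^ t) y⁻¹ * ∑ i ∈ range (3 ^ t), (L.φ ^ i) y := by
      rw [hP, Polynomial.derivative_prod_finset, Polynomial.eval_finsetSum, mul_sum]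
      refine sum_congr rfl fun i hi => ?_
      have e1 : Nm L.φ (3 ^ t) y⁻¹ = (∏ j ∈ (range (3 ^ t)).erase i, c j) * c i :=
        (prod_erase_mul _ c hi).symm
      have e2 : c i * (L.φ ^ i) y = 1 := by
        rw [hc, ← map_mul, inv_mul_cancel₀ y0, map_one]
      rw [e1, mul_assoc, e2]
      simp [Polynomial.eval_prod]
    rw [Polynomial.derivative_sub, Polynomial.derivative_C, sub_zero, e, map_mul, N1, ty, one_mul]
  obtain ⟨T, fT, eT, -⟩ := exists_hensel (D := H ⊓ Dec w) (w := w) inf_le_right _ mF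
    (fun j => ⟨clf_fx_coeff _ k1 j, k2 j⟩) (x := 0) (fun g _ => map_zero g) (by simp) k3 k4
  refine ⟨(T + y⁻¹) * y, fun g hg => by rw [map_mul, map_add, fT g hg.1, fy' g hg, fy g hg], ?_⟩
  rw [Polynomial.eval_sub, Polynomial.eval_C, eP T fT, sub_eq_zero] at eT
  rw [clf_Nm_mul, eT, mul_assoc, ← clf_Nm_mul, inv_mul_cancel₀ y0]
  simp [Nm]

theorem LD.unit_norm (L : LD H w) (t : ℕ) {a : Qbar} (ha : Fx (H ⊓ Dec w) a) (hv : w.V a = 1) :
    ∃ β, Fx (kerOn (H ⊓ Dec w) (L.om t) (L.om_hom t)) β ∧ a = Nm L.φ (3 ^ t) β := by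
  have n0 : 3 ^ t ≠ 0 := pow_ne_zero _ three_ne_zero
  obtain ⟨z, hz, kz⟩ := L.teich ha hv
  have z1 := w.V_root_of_unity (by have := clf_q L; omega) hz
  have z0 : z ≠ 0 := fun h => by simp [h] at z1
  obtain ⟨x, hx, ex⟩ := clf_root_norm L n0 hz
  obtain ⟨β, fβ, eβ⟩ := clf_one_norm L t (u := a / z)
    (fun g hg => by rw [map_div₀, ha g hg, L.fx_root0 hz g hg])
    (by rwa [div_sub_one z0, map_div₀, z1, div_one])
  refine ⟨β * x, fun g hg => by rw [map_mul, fβ g hg, L.fx_root t hx g hg], ?_⟩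
  rw [clf_Nm_mul, ← eβ, ← ex, div_mul_cancel₀ _ z0]

end Pool.Agent.H3
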