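import Pool.Agent.Lib.MP_23455a_nt.H3.CLe
import Pool.Agent.Lib.MP_696deb_nt.B2.CLh

/-! The number of cube classes of a local field that contains the cube roots of unity. -/

set_option autoImplicit false

open scoped NNReal Classical
open Filter Topology Finset

namespace Pool.Agent.H3

open Pool.Agent.Lib.MP_696deb_nt.B2

variable {H D : Subgroup Gam} {w : Plc}

theorem clh_om (w : Plc) : w.V (zeta 1) = 1 ∧ w.V (zeta 1 - 1) ^ 2 = w.V 3 ∧
    w.V (zeta 1 ^ 2 - 1) = w.V (zeta 1 - 1) ∧ w.V (zeta 1 - 1) ≤ 1 := by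
  have h1 : w.V (zeta 1) = 1 := w.V_root_of_unity three_ne_zero (zeta_prim 1).pow_eq_one
  have h2 : (zeta 1 - 1) ^ 2 = -(3 * zeta 1) := by linear_combination zeta_one
  have h3 : zeta 1 ^ 2 - 1 = -(zeta 1 ^ 2 * (zeta 1 - 1)) := by
    linear_combination (zeta 1 - 1) * zeta_one
  refine ⟨h1, ?_, ?_, w.V.map_sub_le h1.le w.V.map_one.le⟩
  · rw [← map_pow, h2, Valuation.map_neg, map_mul, h1, mul_one]
  · rw [h3, Valuation.map_neg, map_mul, map_pow, h1, one_pow, one_mul]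

/-- Cube roots of numbers that are close to one. -/
theorem exists_cbrt (hD : D ≤ Dec w) {a : Qbar} (ha : Fx D a) (h : w.V (a - 1) < w.V 9) :
    ∃ r, Fx D r ∧ r ^ 3 = a ∧ w.V (r - 1) * w.V 3 = w.V (a - 1) := by
  obtain ⟨o1, o2, o3, o4⟩ := clh_om w
  have o5 : w.V 9 ≤ w.V (zeta 1 - 1) ^ 3 := by
    rw [show (9 : Qbar) = 3 * 3 by norm_num, map_mul, ← o2, ← pow_add]
    exact pow_le_pow_of_le_one zero_le o4 (by norm_num)
  have fac : ∀ r x : Qbar, r ^ 3 - x ^ 3 = (r - x) * (r * zeta 1 - x) * (r * zeta 1 ^ 2 - x) :=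
    fun r x => by
      linear_combination (r ^ 3 * (1 - zeta 1) + r ^ 2 * x * zeta 1 - r * x ^ 2) * zeta_one
  have cube : ∀ (r : Qbar) (j : ℕ), (r * zeta 1 ^ j) ^ 3 = r ^ 3 := fun r j => by
    have e : zeta 1 ^ 3 = 1 := (zeta_prim 1).pow_eq_one
    rw [mul_pow, pow_right_comm, e, one_pow, mul_one]
  obtain ⟨r, r1, r2⟩ : ∃ r, r ^ 3 = a ∧ w.V (r - 1) < w.V (zeta 1 - 1) := by
    obtain ⟨r, hr⟩ := IsAlgClosed.exists_pow_nat_eq a three_pos
    by_contra k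
    push Not at k
    have k1 := k r hr
    have k2 := k (r * zeta 1) (by rw [← hr, ← cube r 1, pow_one])
    have k3 := k (r * zeta 1 ^ 2) (by rw [← hr, cube])
    have e := fac r 1
    rw [one_pow, hr] at e
    refine absurd (h.trans_le o5) (not_lt.2 ?_)
    rw [e, map_mul, map_mul, pow_succ, sq]
    exact mul_le_mul' (mul_le_mul' k1 k2) k3
  have v1 : w.V r = 1 := by
    rw [← sub_add_cancel r 1, add_comm]
    exact w.V.map_one_add_of_lt (r2.trans_le o4)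
  have v2 : w.V (r * zeta 1 - 1) = w.V (zeta 1 - 1) := by
    have e : w.V (r * (zeta 1 - 1)) = w.V (zeta 1 - 1) := by rw [map_mul, v1, one_mul]
    rw [show r * zeta 1 - 1 = r * (zeta 1 - 1) + (r - 1) by ring,
      w.V.map_add_eq_of_lt_left (by rwa [e]), e]
  have v3 : w.V (r * zeta 1 ^ 2 - 1) = w.V (zeta 1 - 1) := by
    have e : w.V (r * (zeta 1 ^ 2 - 1)) = w.V (zeta 1 - 1) := by rw [map_mul, v1, one_mul, o3]
    rw [show r * zeta 1 ^ 2 - 1 = r * (zeta 1 ^ 2 - 1) + (r - 1) by ring,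
      w.V.map_add_eq_of_lt_left (by rwa [e]), e]
  refine ⟨r, fun g hg => ?_, r1, ?_⟩
  · have e := fac r (g r)
    have e1 : w.V (g r - 1) = w.V (r - 1) := by
      rw [← mem_Dec.1 (hD hg) (r - 1), map_sub g, map_one g]
    rw [← map_pow, r1, ha g hg, sub_self, zero_eq_mul, mul_eq_zero, sub_eq_zero, sub_eq_zero,
      sub_eq_zero] at e
    rcases e with (e | e) | e
    · exact e.symm
    · rw [← e, v2] at e1
      exact absurd e1 r2.ne'
    · rw [← e, v3] at e1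
      exact absurd e1 r2.ne'
  · have e := fac r 1
    rw [one_pow, r1] at e
    rw [e, map_mul, map_mul, v2, v3, ← o2, mul_assoc, sq]

theorem clh_cube (L : Lib.MP_696deb_nt.B2.LD H w) {d i : ℕ} (hd : w.V 3 = w.V L.π ^ d)
    (hi : d < i) : (L.U i).map (powMonoidHom 3) = L.U (i + d) := by
  refine le_antisymm ?_ fun a ha => ?_
  · rintro _ ⟨x, hx, rfl⟩
    have h := pow_mem hx 3
    refine ⟨h.1, h.2.1, ?_⟩
    have e : ((powMonoidHom 3 x : Qbarˣ) : Qbar) - 1 = (x - 1) * ((x - 1) * (x + 2) + 3) := by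
      rw [powMonoidHom_apply, Units.val_pow_eq_pow_val]; ring
    have h2 : w.V ((x : Qbar) + 2) ≤ 1 :=
      w.V.map_add_le hx.2.1.le (by exact_mod_cast w.V_int_le 2)
    rw [e, map_mul, pow_add]
    refine mul_le_mul' hx.2.2 (w.V.map_add_le ?_ hd.le)
    rw [map_mul]
    exact (mul_le_of_le_one_right' h2).trans (L.clh_anti hi.le hx).2.2
  · have h4 : w.V 9 = w.V L.π ^ (d + d) := by
      rw [show (9 : Qbar) = 3 * 3 by norm_num, map_mul, hd, pow_add]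
    obtain ⟨r, h1, h2, h3⟩ := exists_cbrt inf_le_right ha.1
      (ha.2.2.trans_lt (h4 ▸ pow_lt_pow_right_of_lt_one₀ L.π_pos L.π_lt (by omega)))
    have h5 : w.V r = 1 := by
      have := ha.2.1
      rw [← h2, map_pow] at this
      exact (pow_eq_one_iff_of_nonneg zero_le three_ne_zero).1 this
    refine ⟨Units.mk0 r fun h => by simp [h] at h5, ⟨h1, h5, ?_⟩, Units.ext h2⟩
    have h6 := ha.2.2
    rwa [← h3, hd, pow_add, mul_le_mul_iff_left₀ (pow_pos L.π_pos d)] at h6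

theorem clh_ker {x : Qbarˣ} (h : x ∈ (powMonoidHom 3 : Qbarˣ →* Qbarˣ).ker) :
    (x : Qbar) = 1 ∨ (x : Qbar) = zeta 1 ∨ (x : Qbar) = zeta 1 ^ 2 := by
  have h1 : (x : Qbar) ^ 3 ^ 1 = 1 := by
    rw [pow_one, ← Units.val_pow_eq_pow_val]
    exact congrArg Units.val h
  obtain ⟨i, hi, e⟩ := (zeta_prim 1).eq_pow_of_pow_eq_one h1
  rw [← e]
  interval_cases i <;> simp

theorem clh_unit (L : Lib.MP_696deb_nt.B2.LD H w) (h3 : H ⊓ Dec w ≤ GK 3) {d : ℕ}
    (hd : w.V 3 = w.V L.π ^ d) :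
    ((L.U 0).map (powMonoidHom 3)).relIndex (L.U 0) = 3 * (w.p ^ L.f) ^ d := by
  obtain ⟨o1, o2, o3, o4⟩ := clh_om w
  have hB : L.U (d + 1) ≤ L.U 0 := L.clh_anti (Nat.zero_le _)
  have hK : (powMonoidHom 3 : Qbarˣ →* Qbarˣ).ker ≤ L.U 0 := fun x hx => by
    refine L.clh_zero.2 ?_
    rcases clh_ker hx with e | e | e <;> rw [e]
    · exact ⟨fun g _ => map_one g, map_one _⟩
    · exact ⟨fun g hg => smul_zeta_one (h3 hg), o1⟩
    · exact ⟨fun g hg => by rw [map_pow, smul_zeta_one (h3 hg)], by rw [map_pow, o1, one_pow]⟩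
  have h1 : (L.U (d + 1)).relIndex (L.U 0) ≠ 0 := by
    refine Subgroup.relIndex_ne_zero_trans ?_ L.U_zero
    rw [add_comm, L.clh_steps one_pos]
    exact pow_ne_zero _ (pow_ne_zero _ w.prime.ne_zero)
  have h2 : (L.U (d + 1)).relIndex (L.U (d + 1) ⊔ (powMonoidHom 3 : Qbarˣ →* Qbarˣ).ker) = 3 := by
    have k : ¬ w.V (zeta 1 - 1) ≤ w.V L.π ^ (d + 1) := fun k => by
      have k1 : w.V L.π ^ d ≤ w.V L.π ^ (d + 1) := by
        rw [← hd, ← o2, sq]
        exact (mul_le_of_le_one_right' o4).trans k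
      rw [pow_le_pow_iff_right_of_lt_one₀ L.π_pos L.π_lt] at k1
      omega
    have e : L.U (d + 1) ⊓ (powMonoidHom 3 : Qbarˣ →* Qbarˣ).ker = ⊥ := by
      refine eq_bot_iff.2 fun x hx => ?_
      have k2 := hx.1.2.2
      rcases clh_ker hx.2 with e | e | e
      · exact Units.ext e
      · exact absurd (e ▸ k2) k
      · rw [e, o3] at k2
        exact absurd k2 k
    rw [Subgroup.relIndex_sup_left, ← Subgroup.inf_relIndex_right, e, Subgroup.relIndex_bot_left]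
    exact (zeta_prim 1).card_rootsOfUnity
  have h3 := Subgroup.relIndex_mul_relIndex _ _ _ le_sup_left (sup_le hB hK)
  have h4 := Subgroup.relIndex_map_map (powMonoidHom 3 : Qbarˣ →* Qbarˣ) (L.U (d + 1)) (L.U 0)
  have hS : (L.U 0).map (powMonoidHom 3) ≤ L.U 0 := by
    rintro _ ⟨x, hx, rfl⟩
    exact pow_mem hx 3
  have h5 := Subgroup.relIndex_mul_relIndex _ _ _ (Subgroup.map_mono hB) hS
  rw [h4, sup_eq_left.2 hK, clh_cube L hd (Nat.lt_succ_self d), ← Subgroup.relIndex_mul_relIndex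
    _ _ _ (L.clh_anti (Nat.le_add_right (d + 1) d)) hB, L.clh_steps (Nat.succ_pos d), ← h3,
    h2] at h5
  rw [← h3] at h1
  refine mul_left_cancel₀ (right_ne_zero_of_mul h1) (h5.trans ?_)
  ring

theorem clh_idx (L : Lib.MP_696deb_nt.B2.LD H w) (h3 : H ⊓ Dec w ≤ GK 3) {d : ℕ}
    (hd : w.V 3 = w.V L.π ^ d) : cbIdx (H ⊓ Dec w) = 9 * (w.p ^ L.f) ^ d := by
  have hU : L.U 0 ≤ FU (H ⊓ Dec w) := fun _ h => h.1
  have hS : (FU (H ⊓ Dec w)).map (powMonoidHom 3) ≤ FU (H ⊓ Dec w) := by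
    rintro _ ⟨x, hx, rfl⟩
    exact pow_mem hx 3
  have h1 : (FU (H ⊓ Dec w)).map (powMonoidHom 3) ⊓ L.U 0 = (L.U 0).map (powMonoidHom 3) := by
    refine le_antisymm ?_ (le_inf (Subgroup.map_mono hU) ?_)
    · rintro _ ⟨⟨x, hx, rfl⟩, h⟩
      refine ⟨x, L.clh_zero.2 ⟨hx, ?_⟩, rfl⟩
      have h2 := h.2.1
      rw [powMonoidHom_apply, Units.val_pow_eq_pow_val, map_pow] at h2
      exact (pow_eq_one_iff_of_nonneg zero_le three_ne_zero).1 h2
    · rintro _ ⟨x, hx, rfl⟩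
      exact pow_mem hx 3
  obtain ⟨ϖ, hϖ⟩ : ∃ ϖ : Qbarˣ, (ϖ : Qbar) = L.π := ⟨Units.mk0 _ L.π_ne, rfl⟩
  have hF : ϖ ∈ FU (H ⊓ Dec w) := fun g hg => by rw [hϖ]; exact L.π_fx g hg.1
  have v0 := L.π_pos.ne'
  have inj := zpow_right_injective₀ L.π_pos L.π_lt.ne
  choose v hv using fun x : FU (H ⊓ Dec w) => L.clh_val x.2 x.1.ne_zero
  have va : ∀ x y, v (x * y) = v x + v y := fun x y => inj (by
    simp only [← hv, zpow_add₀ v0, Subgroup.coe_mul, Units.val_mul, map_mul])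
  let f : FU (H ⊓ Dec w) →* Multiplicative (ZMod 3) := MonoidHom.mk'
    (fun x => Multiplicative.ofAdd (v x : ZMod 3)) fun x y => by rw [va, Int.cast_add, ofAdd_add]
  have f1 : f.range = ⊤ := MonoidHom.range_eq_top.2 fun t => by
    obtain ⟨k, hk⟩ := ZMod.intCast_surjective (Multiplicative.toAdd t)
    refine ⟨⟨ϖ ^ k, zpow_mem hF k⟩, congrArg Multiplicative.ofAdd (Eq.trans ?_ hk)⟩
    refine congrArg _ (inj ?_)
    simp only [← hv, Units.val_zpow_eq_zpow_val, map_zpow₀, hϖ]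
  have f2 : (L.U 0 ⊔ (FU (H ⊓ Dec w)).map (powMonoidHom 3)).subgroupOf (FU (H ⊓ Dec w)) =
      f.ker := by
    ext b
    rw [Subgroup.mem_subgroupOf, show b ∈ f.ker ↔ (v b : ZMod 3) = 0 from Iff.rfl,
      ZMod.intCast_zmod_eq_zero_iff_dvd]
    constructor
    · intro h
      obtain ⟨u, hu, _, ⟨x, hx, rfl⟩, e⟩ := Subgroup.mem_sup.1 h
      refine ⟨v ⟨x, hx⟩, inj ?_⟩
      simp only
      rw [← hv, ← e, mul_comm ((3 : ℕ) : ℤ), zpow_mul, ← hv, Units.val_mul, map_mul, hu.2.1,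
        one_mul, powMonoidHom_apply, Units.val_pow_eq_pow_val, map_pow, zpow_natCast]
    · rintro ⟨k, hk⟩
      refine Subgroup.mem_sup.2 ⟨b * (ϖ ^ v b)⁻¹, L.clh_zero.2
        ⟨mul_mem b.2 (inv_mem (zpow_mem hF _)), ?_⟩, _, ⟨ϖ ^ k, zpow_mem hF k, rfl⟩, ?_⟩
      · rw [Units.val_mul, Units.val_inv_eq_inv_val, Units.val_zpow_eq_zpow_val, map_mul,
          map_inv₀, map_zpow₀, hϖ, hv, mul_inv_cancel₀ (zpow_ne_zero _ v0)]
      · rw [powMonoidHom_apply, ← zpow_natCast, ← zpow_mul, mul_comm k, ← hk,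
          inv_mul_cancel_right]
  have h4 : (L.U 0 ⊔ (FU (H ⊓ Dec w)).map (powMonoidHom 3)).relIndex (FU (H ⊓ Dec w)) = 3 := by
    rw [Subgroup.relIndex, f2, Subgroup.index_ker, f1, Subgroup.card_top]
    exact Nat.card_zmod 3
  rw [cbIdx, ← Subgroup.relIndex_mul_relIndex _ _ _ le_sup_right (sup_le hU hS), h4,
    Subgroup.relIndex_sup_right, ← Subgroup.inf_relIndex_right, h1, clh_unit L h3 hd]
  ring

theorem cbIdx_eq (hH : Op H) (h3 : H ⊓ Dec w ≤ GK 3) : cbIdx (H ⊓ Dec w) =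
    if w.p = 3 then 9 * 3 ^ (H ⊓ Dec w).relIndex (Dec w) else 9 := by
  obtain ⟨L⟩ := Lib.MP_696deb_nt.B2.exists_LD hH w
  split_ifs with h
  · have h1 := w.hV
    rw [← L.V_p, h, Nat.cast_ofNat] at h1
    rw [clh_idx L h3 h1, h, L.ef, ← pow_mul, mul_comm L.f]
  · have h1 : w.V ((3 : ℤ) : Qbar) = 1 := w.V_int_eq_one.2 fun k =>
      h ((Nat.prime_dvd_prime_iff_eq w.prime Nat.prime_three).1 (by exact_mod_cast k))
    rw [clh_idx L h3 (d := 0) (by simpa using h1), pow_zero, mul_one]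

end Pool.Agent.H3
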