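import Pool.Agent.Lib.MP_23455a_nt.H3.CLb
import Pool.Agent.Lib.MP_23455a_nt.H3.CLh

/-! The norm index of a cyclic cubic extension of local fields. -/

set_option autoImplicit false

open scoped NNReal Classical
open Filter Topology Finset

namespace Pool.Agent.H3

open Pool.Agent.Lib.MP_696deb_nt.B2

/-- A count of indices for a module over the cyclic group of order three. -/
theorem cli_abs {A : Type} [CommGroup A] (s T N P : A →* A) (hT : ∀ x, T x = s x / x)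
    (hN : ∀ x, N x = x * s x * s (s x)) (hP : ∀ x, P x = x ^ 3) (h3 : ∀ x, s (s (s x)) = x)
    (h90 : N.ker ≤ T.range) (hμ : P.ker ≤ T.ker) (hc : Nat.card P.ker = 3)
    (h0 : (T.ker.map P).relIndex T.ker ≠ 0)
    (h4 : (T.ker.map P).relIndex T.ker ^ 3 = 81 * P.range.index) :
    N.range.relIndex T.ker = 3 := by
  have kT : ∀ x, x ∈ T.ker ↔ s x = x := fun x => by rw [MonoidHom.mem_ker, hT, div_eq_one]
  have eN : ∀ x ∈ T.ker, N x = P x := fun x hx => by
    rw [hN, hP, (kT x).1 hx, (kT x).1 hx, pow_succ, sq]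
  have hB : T.range = N.ker := le_antisymm (by
    rintro _ ⟨x, rfl⟩
    rw [MonoidHom.mem_ker, hN, hT, map_div, map_div, h3, div_mul_div_cancel', div_mul_div_cancel',
      div_self']) h90
  have cm : ∀ x, T (P x) = P (T x) := fun x => by rw [hP, hP, map_pow]
  have a0 : T.ker.map P = T.ker.map N := Subgroup.ext fun y =>
    ⟨fun ⟨x, hx, e⟩ => ⟨x, hx, (eN x hx).trans e⟩, fun ⟨x, hx, e⟩ => ⟨x, hx, (eN x hx).symm.trans e⟩⟩
  have a1 : N.range ≤ T.ker := by
    rintro _ ⟨x, rfl⟩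
    rw [kT, hN, map_mul, map_mul, h3, mul_comm, mul_assoc]
  have a2 : P.ker ≤ T.range := fun x hx => by
    rw [hB, MonoidHom.mem_ker, eN x (hμ hx)]
    exact hx
  have a3 : T.range.map T ≤ T.range := Subgroup.map_le_range _ _
  have a4 : T.range.map P = (T.range.map T).map T := by
    have e : ∀ x ∈ T.range, T (T x) = P (s x)⁻¹ := fun x hx => by
      have k : N x = 1 := by rwa [hB] at hx
      rw [hN] at k
      rw [hT, hT, hP, map_div, div_div_div_eq, inv_pow, eq_inv_iff_mul_eq_one, ← k,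
        div_mul_eq_mul_div, div_eq_iff_eq_mul, pow_succ, sq]
      simp only [mul_comm, mul_left_comm]
    have e1 : ∀ x ∈ T.range, s x ∈ T.range := by
      rintro _ ⟨y, rfl⟩
      exact ⟨s y, by rw [hT, hT, map_div]⟩
    refine le_antisymm ?_ ?_
    · rintro _ ⟨x, hx, rfl⟩
      have k := inv_mem (e1 _ (e1 x hx))
      exact ⟨_, ⟨_, k, rfl⟩, by rw [e _ k, map_inv s, h3, inv_inv]⟩
    · rintro _ ⟨_, ⟨x, hx, rfl⟩, rfl⟩
      exact ⟨_, inv_mem (e1 x hx), (e x hx).symm⟩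
  have a5 : P.range.map T = T.range.map P := by
    rw [MonoidHom.map_range, MonoidHom.map_range, show T.comp P = P.comp T from MonoidHom.ext cm]
  have a6 : T.range.map T ⊓ P.ker = ⊥ := eq_bot_iff.2 (by
    rintro _ ⟨⟨x, hx, rfl⟩, h⟩
    have k : N x = 1 := by rwa [SetLike.mem_coe, hB] at hx
    have k1 : s x = T x * x := by rw [hT, div_mul_cancel]
    have k2 : P (T x) = 1 := h
    refine hμ (show P x = 1 from ?_)
    rw [hN, k1, map_mul, (kT _).1 (hμ h), k1] at k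
    rw [← k, ← mul_one (P x), ← k2, hP, hP, pow_succ, pow_succ (T x), sq, sq]
    simp only [mul_comm, mul_left_comm, mul_assoc])
  have key : ∀ (f : A →* A) (H K : Subgroup A),
      (H.map f).relIndex (K.map f) = (H ⊔ f.ker).relIndex K := fun f H K => by
    rw [← Subgroup.relIndex_comap, Subgroup.comap_map_eq]
  have key' : ∀ (f : A →* A) (H : Subgroup A), (H.map f).relIndex f.range = (H ⊔ f.ker).index :=
    fun f H => by rw [MonoidHom.range_eq_map, key, Subgroup.relIndex_top_right]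
  have b1 := Subgroup.relIndex_mul_relIndex _ _ _ (a0 ▸ Subgroup.map_le_range N T.ker) a1
  have b2 : (T.ker.map P).relIndex N.range = (T.range.map T).relIndex T.range := by
    rw [a0, key', key', hB, sup_comm]
  have b3 := Subgroup.relIndex_mul_index (le_sup_left : P.range ≤ P.range ⊔ T.ker)
  rw [Subgroup.relIndex_sup_left, ← key', a5, a4, ← Subgroup.relIndex_mul_relIndex _ _ _
    (Subgroup.map_mono a3) a3, key, ← Subgroup.inf_relIndex_right (_ ⊔ T.ker),
    sup_inf_assoc_of_le _ a3, show T.ker ⊓ T.range = P.ker from le_antisymm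
      (fun x hx => (eN x hx.1).symm.trans (hB.le hx.2)) (le_inf hμ a2)] at b3
  have b4 := Subgroup.relIndex_mul_relIndex _ _ _ le_sup_left (sup_le a3 a2)
  rw [Subgroup.relIndex_sup_left, ← Subgroup.inf_relIndex_right, a6, Subgroup.relIndex_bot_left,
    hc] at b4
  have b5 := Subgroup.relIndex_mul_relIndex (T.ker.map P) (P.range ⊓ T.ker) T.ker
    (le_inf (Subgroup.map_le_range _ _) (a0 ▸ (Subgroup.map_le_range _ _).trans a1)) inf_le_right
  rw [Subgroup.inf_relIndex_right, ← Subgroup.map_comap_eq, key, sup_eq_left.2 hμ,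
    Subgroup.relIndex_ker, show T.ker.comap P = P.ker.comap T from Subgroup.ext fun x =>
      (congrArg (· = 1) (cm x)).to_iff, Subgroup.map_comap_eq, inf_eq_right.2 a2, hc] at b5
  rw [b2] at b1
  rw [← b3, ← b4, ← b5] at h4
  rw [← b4, ← b5] at b1
  rw [← b5] at h0
  generalize P.range.relIndex T.ker = e at *
  generalize (T.range.map T ⊔ P.ker).relIndex T.range = y at *
  have e0 : e ≠ 0 := right_ne_zero_of_mul h0
  have k1 : e ^ 2 = (3 * y) ^ 2 := mul_left_cancel₀ (mul_ne_zero (by norm_num : 27 ≠ 0) e0)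
    (by linear_combination h4)
  have k2 : e = 3 * y := (Nat.pow_left_injective two_ne_zero) k1
  rw [← k2, mul_comm] at b1
  exact mul_right_cancel₀ e0 b1

variable {G H : Subgroup Gam} {w : Plc} {χ : Gam → ZMod 3} {s : Gam}

theorem Nm_three (s : Gam) (β : Qbar) : Nm s 3 β = β * s β * s (s β) := by
  simp [Nm, prod_range_succ]

theorem cli_s_fx (h2 : IsHom G χ) (hs : s ∈ G) {x : Qbar} (hx : Fx (kerOn G χ h2) x) :
    Fx (kerOn G χ h2) (s x) := fun g hg => by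
  obtain ⟨p, hp, e⟩ := clc_swap h2 hg hs
  rw [← AlgEquiv.mul_apply, e, AlgEquiv.mul_apply, hx p hp]

theorem cli_fx (h2 : IsHom G χ) (hs : s ∈ G) (hs1 : χ s = 1) {x : Qbar}
    (hx : Fx (kerOn G χ h2) x) (h : s x = x) : Fx G x := fun g hg => by
  obtain ⟨p, hp, e⟩ := clc_mem h2 hg (pow_mem hs (χ g).val)
    (by rw [clc_pow h2 hs hs1, ZMod.natCast_zmod_val])
  rw [e, AlgEquiv.mul_apply, hx p hp]
  exact pow_mem (show s ∈ MulAction.stabilizer Gam x from h) _

theorem cli_sss (h2 : IsHom G χ) (hs : s ∈ G) (hs1 : χ s = 1) {x : Qbar}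
    (hx : Fx (kerOn G χ h2) x) : s (s (s x)) = x :=
  hx (s ^ 3) ⟨pow_mem hs 3, clc_pow h2 hs hs1 3⟩

theorem cli_h90 (hG : IsClosed (G : Set Gam)) (h1 : Sm G χ) (h2 : IsHom G χ) (hs : s ∈ G)
    (hs1 : χ s = 1) {x : Qbar} (hx : Fx (kerOn G χ h2) x) (h : Nm s 3 x = 1) :
    ∃ y, y ≠ 0 ∧ Fx (kerOn G χ h2) y ∧ x * y = s y := by
  have x0 : x ≠ 0 := fun e => by simp [e, Nm_three] at h
  have e : ∀ i c : ℕ, Nm s (i + 3 * c) x = Nm s i x := fun i c => by
    induction c with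
    | zero => rfl
    | succ c ih =>
      rw [mul_add_one, ← add_assoc, ← clc_Nm h2 hs hs1 hx (pow_mem hs _) (clc_pow h2 hs hs1 _), h,
        map_one, mul_one, ih]
  obtain ⟨y, y0, hy⟩ := h90 hG (f := fun g => Nm s (χ g).val x) (h1.comp fun c => Nm s c.val x)
    (fun g _ => prod_ne_zero_iff.2 fun _ _ => (map_ne_zero _).2 x0) fun g hg k hk => by
      rw [clc_Nm h2 hs hs1 hx hg (ZMod.natCast_zmod_val _).symm, car_spec h2 hg hk, e]
  refine ⟨y, y0, fun g hg => ?_, ?_⟩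
  · rw [← hy g hg.1, hg.2]
    simp [Nm]
  · rw [← hy s hs, hs1, ZMod.val_one]
    simp [Nm]

theorem norm_gen (hG : IsClosed (G : Set Gam)) (h3 : G ≤ GK 3) (h1 : Sm G χ) (h2 : IsHom G χ)
    (hs : s ∈ G) (hs1 : χ s = 1) (h0 : cbIdx G ≠ 0) (h4 : cbIdx G ^ 3 = 81 * cbIdx (kerOn G χ h2))
    {a b : Qbar} (ha0 : a ≠ 0) (ha : Fx G a) (hb0 : b ≠ 0) (hb : Fx G b)
    (nb : ¬ ∃ β, Fx (kerOn G χ h2) β ∧ b = Nm s 3 β) :
    ∃ (j : ℕ) (β : Qbar), Fx (kerOn G χ h2) β ∧ a = b ^ j * Nm s 3 β := by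
  have : Fact (Nat.Prime 3) := ⟨Nat.prime_three⟩
  set L := FU (kerOn G χ h2)
  let s' : L →* L := ((Units.map (s : Qbar →* Qbar)).comp L.subtype).codRestrict L
    fun x => cli_s_fx h2 hs x.2
  let T : L →* L := s' / MonoidHom.id L
  let N : L →* L := MonoidHom.id L * s' * s'.comp s'
  let P : L →* L := powMonoidHom 3
  have eN : ∀ x : L, ((N x : Qbarˣ) : Qbar) = Nm s 3 (x : Qbarˣ) := fun x => (Nm_three s _).symm
  have kT : ∀ x : L, x ∈ T.ker ↔ (x : Qbarˣ) ∈ FU G := fun x => div_eq_one.trans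
    ⟨fun h => cli_fx h2 hs hs1 x.2 (congrArg (fun y : L => ((y : Qbarˣ) : Qbar)) h),
      fun h => Subtype.ext (Units.ext (h s hs))⟩
  have hμ : ∀ x : Qbarˣ, x ∈ (powMonoidHom 3 : Qbarˣ →* Qbarˣ).ker → x ∈ FU G := fun x hx g hg => by
    rcases clh_ker hx with e | e | e <;> simp [e, smul_zeta_one (h3 hg)]
  have eF : T.ker.map L.subtype = FU G := Subgroup.ext fun x =>
    ⟨by rintro ⟨y, hy, rfl⟩; exact (kT y).1 hy,
      fun h => ⟨⟨x, fun g hg => h g hg.1⟩, (kT _).2 h, rfl⟩⟩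
  have eP : ∀ K : Subgroup L, (K.map P).map L.subtype = (K.map L.subtype).map (powMonoidHom 3) :=
    fun K => by rw [Subgroup.map_map, Subgroup.map_map]; rfl
  have e1 : (T.ker.map P).relIndex T.ker = cbIdx G := by
    rw [← Subgroup.relIndex_map_map_of_injective _ _ L.subtype_injective, eP, eF, cbIdx]
  have e2 : P.range.index = cbIdx (kerOn G χ h2) := by
    rw [← Subgroup.relIndex_top_right, MonoidHom.range_eq_map,
      ← Subgroup.relIndex_map_map_of_injective _ _ L.subtype_injective, eP,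
      ← MonoidHom.range_eq_map, Subgroup.range_subtype, cbIdx]
  have e3 : P.ker.map L.subtype = (powMonoidHom 3 : Qbarˣ →* Qbarˣ).ker := Subgroup.ext fun x =>
    ⟨by rintro ⟨y, hy, rfl⟩; exact congrArg Subtype.val hy,
      fun h => ⟨⟨x, fun g hg => hμ x h g hg.1⟩, Subtype.ext h, rfl⟩⟩
  have key := cli_abs s' T N P (fun _ => rfl) (fun _ => rfl) (fun _ => rfl)
    (fun x => Subtype.ext (Units.ext (cli_sss h2 hs hs1 x.2))) (fun x hx => by
      obtain ⟨y, y0, hy, e⟩ := cli_h90 hG h1 h2 hs hs1 x.2 (by rw [← eN, hx]; rfl)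
      exact ⟨⟨Units.mk0 y y0, hy⟩, div_eq_iff_eq_mul.2 (Subtype.ext (Units.ext e.symm))⟩)
    (fun x hx => (kT x).2 (hμ _ (congrArg Subtype.val hx))) (by
      rw [← Subgroup.card_map_of_injective L.subtype_injective, e3]
      exact (zeta_prim 1).card_rootsOfUnity) (e1 ▸ h0) (by rwa [e1, e2])
  let u : ∀ x : Qbar, x ≠ 0 → Fx G x → T.ker := fun x x0 hx =>
    ⟨⟨Units.mk0 x x0, fun g hg => hx g hg.1⟩, (kT _).2 hx⟩
  obtain ⟨j, hj⟩ := mem_powers_of_prime_card (G := T.ker ⧸ N.range.subgroupOf T.ker) key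
    (g := (u b hb0 hb : T.ker)) (g' := (u a ha0 ha : T.ker)) fun h => by
      obtain ⟨y, hy⟩ := (QuotientGroup.eq_one_iff _).1 h
      exact nb ⟨_, y.2, by rw [← eN, hy]; rfl⟩
  obtain ⟨y, hy⟩ := QuotientGroup.eq.1 ((QuotientGroup.mk_pow _ _ j).trans hj)
  refine ⟨j, _, y.2, ?_⟩
  rw [← eN, hy]
  simp [u, hb0]

theorem norm_gen_local (hH : Op H) (h3 : H ≤ GK 3) (h1 : Sm (H ⊓ Dec w) χ)
    (h2 : IsHom (H ⊓ Dec w) χ) (hs : s ∈ H ⊓ Dec w) (hs1 : χ s = 1) {a b : Qbar} (ha0 : a ≠ 0)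
    (ha : Fx (H ⊓ Dec w) a) (hb0 : b ≠ 0) (hb : Fx (H ⊓ Dec w) b)
    (nb : ¬ ∃ β, Fx (kerOn (H ⊓ Dec w) χ h2) β ∧ b = Nm s 3 β) :
    ∃ (j : ℕ) (β : Qbar), Fx (kerOn (H ⊓ Dec w) χ h2) β ∧ a = b ^ j * Nm s 3 β := by
  have e3 := Subgroup.relIndex_mul_relIndex (kerOn (H ⊓ Dec w) χ h2) (H ⊓ Dec w) (Dec w)
    (fun g hg => hg.1) inf_le_right
  obtain ⟨U, hU, e⟩ := kerOn_open h1 h2
  have e4 := cbIdx_eq (hU.inf hH) (w := w) (inf_le_left.trans (inf_le_right.trans h3))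
  have e5 := cbIdx_eq hH (w := w) (inf_le_left.trans h3)
  rw [inf_assoc, ← e, ← e3, relIndex_kerOn h2 hs hs1] at e4
  refine norm_gen (hH.closed.inter (closed_Dec w)) (inf_le_left.trans h3) h1 h2 hs hs1 ?_ ?_
    ha0 ha hb0 hb nb
  · rw [e5]
    split_ifs <;> positivity
  · rw [e5, e4]
    split_ifs
    · ring
    · rfl

end Pool.Agent.H3
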