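import Pool.Agent.Lib.MP_23455a_nt.H3.CLg
import Pool.Agent.Lib.MP_23455a_nt.H3.CLi
import Pool.Agent.Lib.MP_696deb_nt.B2.CLj

/-! Every three-primary class is unramified. -/

set_option autoImplicit false

open scoped NNReal Classical
open Filter Topology Finset

namespace Pool.Agent.H3

open Pool.Agent.Lib.MP_696deb_nt.B2

variable {H H' : Subgroup Gam} {w : Plc} {γ : Gam → Gam → Qbar}

theorem LD.clj_one (hH : Op H) (L : LD H w) (t : ℕ) (k : ℤ) :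
    Coh (H ⊓ Dec w) (L.ur t k) 1 ↔ (3 : ℤ) ^ t ∣ k := by
  rw [← L.ur_zero t, L.ur_coh_iff hH, Int.cast_zero, ZMod.intCast_zmod_eq_zero_iff_dvd,
    Nat.cast_pow, Nat.cast_ofNat]

/-- The unramified class of order three is cyclic for every cubic character. -/
theorem LD.cub_ur (hH' : Op H') (L : LD H w) (h : H' ≤ H) {χ : Gam → ZMod 3} {s : Gam}
    (c1 : Sm (H ⊓ Dec w) χ) (c2 : IsHom (H ⊓ Dec w) χ) (c3 : s ∈ H ⊓ Dec w) (c4 : χ s = 1)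
    (hk : kerOn (H ⊓ Dec w) χ c2 = H' ⊓ Dec w) : ∃ b, b ≠ 0 ∧ Fx (H ⊓ Dec w) b ∧
      Coh (H ⊓ Dec w) (L.ur 1 1) (Cy 3 χ b) ∧ ¬ Coh (H ⊓ Dec w) (Cy 3 χ b) 1 := by
  have hH : Op H := Subgroup.isOpen_mono h hH'
  obtain ⟨L'⟩ := exists_LD hH' w
  have hα : Coh (H' ⊓ Dec w) (L.ur 1 1) 1 :=
    (L.ur_res hH' L' h 1 1).trans ((L'.clj_one hH' _ _).2 (by
      rw [← hk, relIndex_kerOn c2 c3 c4]; norm_num))
  obtain ⟨b, b0, b1, b2⟩ := coh_Cy (hH.closed.inter (closed_Dec w)) c1 c2 c3 c4 (L.cq_ur 1 1)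
    (hk ▸ hα)
  refine ⟨b, b0, b1, b2, fun e => ?_⟩
  have := (L.clj_one hH 1 1).1 (b2.trans e)
  norm_num at this

theorem clj_three (hH' : Op H') (h : H' ≤ H) (h3 : H ≤ GK 3) {χ : Gam → ZMod 3} {s : Gam}
    (c1 : Sm (H ⊓ Dec w) χ) (c2 : IsHom (H ⊓ Dec w) χ) (c3 : s ∈ H ⊓ Dec w) (c4 : χ s = 1)
    (hk : kerOn (H ⊓ Dec w) χ c2 = H' ⊓ Dec w) (hγ : CQ (H ⊓ Dec w) γ) (L : LD H w)
    (L' : LD H' w) {t : ℕ} {k : ℤ} (hc : Coh (H' ⊓ Dec w) γ (L'.ur t k)) :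
    ∃ k, Coh (H ⊓ Dec w) γ (L.ur (t + 1) k) := by
  have hH : Op H := Subgroup.isOpen_mono h hH'
  have hG : IsClosed ((H ⊓ Dec w : Subgroup Gam) : Set Gam) := hH.closed.inter (closed_Dec w)
  have e1 := L.ur_res hH' L' h (t + 1) k
  have e2 := L'.ur_succ t 1 k
  rw [show (H' ⊓ Dec w).relIndex (H ⊓ Dec w) = 3 from hk ▸ relIndex_kerOn c2 c3 c4] at e1
  rw [pow_one] at e2
  have c := L.cq_ur (t + 1) k
  have e3 := ((hc.trans e2).trans e1.symm).div (c.mono (inf_le_inf_right _ h)).2.1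
  obtain ⟨a, a0, a1, a2⟩ := coh_Cy hG c1 c2 c3 c4 (hγ.mul c.inv) (hk ▸ e3)
  obtain ⟨b, b0, b1, b2, b3⟩ := L.cub_ur hH' h c1 c2 c3 c4 hk
  obtain ⟨j, β, hβ, e⟩ := norm_gen_local hH h3 c1 c2 c3 c4 a0 a1 b0 b1
    fun e => b3 ((Cy_split_iff hG c1 c2 c3 c4 b0 b1).2 e)
  have e4 := (b2.symm.pow j).mul ((Cy_split_iff hG c1 c2 c3 c4 (right_ne_zero_of_mul (e ▸ a0))
    (fx_Nm c2 c3 c4 hβ)).2 ⟨β, hβ, rfl⟩)
  rw [← Cy_pow, ← Cy_mul, ← e, mul_one, ← L.ur_mul] at e4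
  have e5 := L.ur_succ 1 t (j * 1)
  rw [add_comm 1 t] at e5
  exact ⟨_, by
    rw [L.ur_add]
    exact ((a2.trans e4).cancel c.2.1).trans (e5.mul (Coh.refl _ _))⟩

theorem LD.exists_ur (hH : Op H) (L : LD H w) (hγ : CQ (H ⊓ Dec w) γ) {m : ℕ}
    (hm : Coh (H ⊓ Dec w) (γ ^ 3 ^ m) 1) : ∃ k : ℤ, Coh (H ⊓ Dec w) γ (L.ur m k) := by
  obtain ⟨U, u1, -, u3⟩ := hγ.exists_split
  obtain ⟨H', h1, h2, h3, h4⟩ := devissage3 (Dec w)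
    (fun H' => ∀ L' : LD H' w, ∃ t k, Coh (H' ⊓ Dec w) γ (L'.ur t k)) hH u1
    (fun H' _ h e L' => ⟨0, 0, by
      rw [L'.ur_zero]
      exact u3.mono (le_inf e (inf_le_inf_right _ h))⟩)
    fun H' H'' χ s c2 o h h' h3 c1 c3 c4 hk q L' => by
      obtain ⟨L''⟩ := exists_LD o w
      obtain ⟨t, k, hc⟩ := q L''
      exact ⟨_, clj_three o h h3 c1 c2 c3 c4 hk (hγ.mono (inf_le_inf_right _ h')) L' L'' hc⟩
  obtain ⟨L'⟩ := exists_LD h1 w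
  obtain ⟨t, k, hc⟩ := h4 L'
  obtain ⟨u, v, huv⟩ : IsCoprime (((H' ⊓ Dec w).relIndex (H ⊓ Dec w) : ℕ) : ℤ) ((3 ^ t : ℕ) : ℤ) :=
    Nat.isCoprime_iff_coprime.2
      (((Nat.Prime.coprime_iff_not_dvd Nat.prime_three).2 h3).symm.pow_right t)
  have c := L.cq_ur t (u * k)
  have e1 : Coh (H' ⊓ Dec w) (L.ur t (u * k)) (L'.ur t k) :=
    (L.ur_res h1 L' h2 t _).trans ((L'.ur_coh_iff h1 t _ _).2
      ((ZMod.intCast_eq_intCast_iff_dvd_sub _ _ _).2 ⟨v * k, by linear_combination (-k) * huv⟩))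
  have e2 := (hc.trans e1.symm).div (c.mono (inf_le_inf_right _ h2)).2.1
  have e3 : Coh (H ⊓ Dec w) ((γ * (L.ur t (u * k))⁻¹) ^ 3 ^ (m + t)) 1 := by
    have e4 := (hm.pow (3 ^ t)).mul (((L.clj_one hH t ((3 ^ (m + t) : ℕ) * (u * k))).2
      ⟨3 ^ m * (u * k), by push_cast; ring⟩).inv)
    rwa [one_pow, inv_one, mul_one, L.ur_mul, ← pow_mul, ← pow_add, ← inv_pow, ← mul_pow] at e4
  rw [clj_inf h2] at e2 h3
  have e5 := (coh_of_coprime h1 (hγ.mul c.inv) e2 h3 e3).cancel c.2.1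
  rw [one_mul] at e5
  have e6 := (e5.pow (3 ^ m)).symm.trans hm
  rw [← L.ur_mul] at e6
  obtain ⟨j, hj⟩ := (L.clj_one hH _ _).1 e6
  have e7 := L.ur_succ t m (u * k)
  rw [Nat.cast_pow, Nat.cast_ofNat] at hj
  rw [hj, add_comm] at e7
  exact ⟨j, (e5.trans e7).trans (L.ur_succ m t j).symm⟩

end Pool.Agent.H3
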