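import Pool.Agent.Lib.MP_23455a_nt.H3.CLj

/-! The local invariant. -/

set_option autoImplicit false

open scoped NNReal Classical
open Filter Topology Finset

namespace Pool.Agent.H3

open Pool.Agent.Lib.MP_696deb_nt.B2

variable {m : ℕ} {H H' : Subgroup Gam} {w : Plc} {c c' : Gam → Gam → ZMod (3 ^ m)}

/-- The local invariant. -/
noncomputable def linv (m : ℕ) (H : Subgroup Gam) (w : Plc) (c : Gam → Gam → ZMod (3 ^ m)) :
    ZMod (3 ^ m) :=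
  if h : ∃ k : ℤ, ∀ L : LD H w, Coh (H ⊓ Dec w) (zc m c) (L.ur m k) then (h.choose : ZMod (3 ^ m))
  else 0

theorem linv_eq (hH : Op H) (L : LD H w) {k : ℤ} (h : Coh (H ⊓ Dec w) (zc m c) (L.ur m k)) :
    linv m H w c = k := by
  have ex : ∃ k : ℤ, ∀ L : LD H w, Coh (H ⊓ Dec w) (zc m c) (L.ur m k) :=
    ⟨k, fun L' => h.trans (by simpa using L.ur_res hH L' le_rfl m k)⟩
  rw [linv, dif_pos ex]
  exact (L.ur_coh_iff hH m _ _).1 ((ex.choose_spec L).symm.trans h)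

theorem linv_spec (hH : Op H) (L : LD H w) (h : C2 m (H ⊓ Dec w) c) :
    ∃ k : ℤ, Coh (H ⊓ Dec w) (zc m c) (L.ur m k) ∧ linv m H w c = k := by
  obtain ⟨k, hk⟩ := L.exists_ur hH h.cq (m := m) (by rw [zc_pow]; exact Coh.refl _ _)
  exact ⟨k, hk, linv_eq hH L hk⟩

theorem linv_add (hH : Op H) (h : C2 m (H ⊓ Dec w) c) (h' : C2 m (H ⊓ Dec w) c') :
    linv m H w (c + c') = linv m H w c + linv m H w c' := by
  obtain ⟨L⟩ := exists_LD hH w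
  obtain ⟨k, h1, h2⟩ := linv_spec hH L h
  obtain ⟨k', h3, h4⟩ := linv_spec hH L h'
  rw [h2, h4, ← Int.cast_add]
  refine linv_eq hH L ?_
  rw [zc_add, L.ur_add]
  exact h1.mul h3

theorem linv_congr (h : ∀ g ∈ H ⊓ Dec w, ∀ k ∈ H ⊓ Dec w, c g k = c' g k) :
    linv m H w c = linv m H w c' := by
  have h1 : Coh (H ⊓ Dec w) (zc m c) (zc m c') :=
    Coh.of_eq fun g hg k hk => by rw [zc, zc, h g hg k hk]
  exact congrArg (fun P : ℤ → Prop => if h : ∃ k, P k then (h.choose : ZMod (3 ^ m)) else 0)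
    (funext fun k => propext (forall_congr' fun L : LD H w =>
      (⟨h1.symm.trans, h1.trans⟩ : Coh _ _ (L.ur m k) ↔ Coh _ _ (L.ur m k))))

theorem linv_zero_iff (hH : Op H) (h : C2 m (H ⊓ Dec w) c) :
    linv m H w c = 0 ↔ Spl m (H ⊓ Dec w) c := by
  obtain ⟨L⟩ := exists_LD hH w
  obtain ⟨k, h1, h2⟩ := linv_spec hH L h
  rw [spl_iff (hH.closed.inter (closed_Dec w)) h, ← coh_one_iff, ← L.ur_zero m]
  exact ⟨fun h0 => h1.trans ((L.ur_coh_iff hH m _ _).2 (by rw [← h2, h0, Int.cast_zero])),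
    fun hs => (linv_eq hH L hs).trans Int.cast_zero⟩

theorem linv_red {m' : ℕ} (hm : m' ≤ m) (hH : Op H) (h : C2 m (H ⊓ Dec w) c) :
    linv m' H w (fun g k => ZMod.castHom (pow_dvd_pow 3 hm) (ZMod (3 ^ m')) (c g k)) =
      ZMod.castHom (pow_dvd_pow 3 hm) (ZMod (3 ^ m')) (linv m H w c) := by
  obtain ⟨L⟩ := exists_LD hH w
  obtain ⟨k, h1, h2⟩ := linv_spec hH L h
  rw [h2, map_intCast]
  refine linv_eq hH L ?_
  have h3 := (L.ur_succ m' (m - m') k).symm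
  have h4 := L.ur_mul m k (3 ^ (m - m'))
  rw [Nat.add_sub_cancel' hm] at h3
  rw [Nat.cast_pow, Nat.cast_ofNat] at h4
  rw [zc_red hm]
  exact (h1.pow _).trans (h4 ▸ h3)

theorem linv_inc (n : ℕ) (hH : Op H) (h : C2 m (H ⊓ Dec w) c) :
    linv (m + n) H w (fun g k => 3 ^ n * ((c g k).val : ZMod (3 ^ (m + n)))) =
      3 ^ n * ((linv m H w c).val : ZMod (3 ^ (m + n))) := by
  obtain ⟨L⟩ := exists_LD hH w
  obtain ⟨k, h1, h2⟩ := linv_spec hH L h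
  have h3 := (L.ur_coh_iff hH m k (linv m H w c).val).2
    (by rw [Int.cast_natCast, ZMod.natCast_zmod_val, h2])
  refine (linv_eq hH L (k := 3 ^ n * (linv m H w c).val) ?_).trans (by push_cast; rfl)
  rw [zc_inc]
  exact (h1.trans h3).trans (L.ur_succ m n _)

theorem linv_res (hH' : Op H') (hle : H' ≤ H) (h : C2 m (H ⊓ Dec w) c) :
    linv m H' w c = ((H' ⊓ Dec w).relIndex (H ⊓ Dec w) : ZMod (3 ^ m)) * linv m H w c := by
  have hH : Op H := Subgroup.isOpen_mono hle hH'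
  obtain ⟨L⟩ := exists_LD hH w
  obtain ⟨L'⟩ := exists_LD hH' w
  obtain ⟨k, h1, h2⟩ := linv_spec hH L h
  rw [h2, linv_eq hH' L' ((h1.mono (inf_le_inf_right _ hle)).trans (L.ur_res hH' L' hle m k)),
    Int.cast_mul, Int.cast_natCast]

theorem linv_unr (hH : Op H) (h : C2 m (H ⊓ Dec w) c)
    (hu : ∀ g ∈ H ⊓ Dec w, ∀ k ∈ H ⊓ Dec w, ∀ σ ∈ H ⊓ Ine w, ∀ σ' ∈ H ⊓ Ine w,
      c (g * σ) (k * σ') = c g k) : linv m H w c = 0 := by
  obtain ⟨L⟩ := exists_LD hH w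
  obtain ⟨k, h1, h2⟩ := linv_spec hH L h
  have h3 := L.dvd_of_unr hH h.cq
    (fun g _ k _ => w.V_root_of_unity (pow_ne_zero m three_ne_zero) (b3b_pow m (c g k)))
    (fun g hg k hk σ hσ σ' hσ' => by rw [zc, zc, hu g hg k hk σ hσ σ' hσ']) h1
  rw [h2, ZMod.intCast_zmod_eq_zero_iff_dvd]
  exact_mod_cast h3

/-- The symbol of an unramified character. -/
theorem linv_cup_unr (hH : Op H) (L : LD H w) {χ κ : Gam → ZMod (3 ^ m)} {a : Qbar} {k : ℤ}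
    (h1 : Sm (H ⊓ Dec w) χ) (h2 : IsHom (H ⊓ Dec w) χ) (h3 : ∀ σ ∈ H ⊓ Ine w, χ σ = 0)
    (h4 : Kum m (H ⊓ Dec w) a κ) (h5 : w.V a = w.V L.π ^ k) :
    linv m H w (cup m χ κ) = χ L.φ * k := by
  obtain ⟨a0, ha⟩ := h4.fx
  have e1 := Cy_congr (χ' := fun g => ((χ L.φ).val : ZMod (3 ^ m)) * L.om m g)
    (fun g hg => by rw [ZMod.natCast_zmod_val, ← L.unr_eq h1 h2 h3 g hg]) a
  have e2 := Cy_nsmul (L.om_sm m) (L.om_hom m) a0 ha (χ L.φ).val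
  have e3 := L.Cy_val hH m (a := a ^ (χ L.φ).val) (k := (χ L.φ).val * k)
    (fun g hg => by rw [map_pow, ha g hg]) (by rw [map_pow, h5, mul_comm, zpow_mul, zpow_natCast])
  rw [linv_eq hH L ((((cup_coh h1 h2 h4).trans e1).trans e2).trans e3), Int.cast_mul,
    Int.cast_natCast, ZMod.natCast_zmod_val]

theorem linv_kum {χ κ : Gam → ZMod (3 ^ m)} {a : Qbar} {φ : Gam} (k : ℤ) (hH : Op H)
    (hI : Ine w ≤ H) (hφ : φ ∈ H) (hf : IsFrob w (w.p ^ (H ⊓ Dec w).relIndex (Dec w)) φ)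
    (h1 : Sm (H ⊓ Dec w) χ) (h2 : IsHom (H ⊓ Dec w) χ) (h3 : ∀ σ ∈ Ine w, χ σ = 0)
    (h4 : Kum m (H ⊓ Dec w) a κ) (h5 : w.V a = ((w.p : ℝ≥0) ^ k)⁻¹) :
    linv m H w (cup m χ κ) = χ φ * k := by
  obtain ⟨L⟩ := exists_LD hH w
  have e1 : L.e = 1 := by rw [← L.e_eq, inf_eq_right.2 hI, Subgroup.relIndex_self]
  have e2 := L.V_p
  rw [L.ef, e1, one_mul] at hf
  rw [e1, pow_one] at e2
  have e3 := L.frob.inv_mul_mem hf
  have e4 := h2 _ L.φ_mem' _ ⟨H.mul_mem (H.inv_mem L.φ_mem) hφ, Ine_le w e3⟩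
  rw [mul_inv_cancel_left, h3 _ e3, add_zero] at e4
  rw [e4]
  exact linv_cup_unr hH L h1 h2 (fun σ hσ => h3 σ hσ.2) h4 (by rw [h5, e2, inv_zpow])

end Pool.Agent.H3
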