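import Pool.Agent.Lib.MP_23455a_nt.H3.CLk
import Pool.Agent.Lib.MP_696deb_nt.B2.CLl

/-! Characters that kill all units are unramified. -/

set_option autoImplicit false

open scoped NNReal Classical
open Filter Topology Finset

namespace Pool.Agent.H3

open Pool.Agent.Lib.MP_696deb_nt.B2

variable {m : ℕ} {H : Subgroup Gam} {w : Plc}

/-- A character is a multiple of a surjective character. -/
theorem exists_scale {G : Subgroup Gam} {t : ℕ} {χ : Gam → ZMod (3 ^ t)} (h1 : Sm G χ) (h2 : IsHom G χ) :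
    ∃ (u v : ℕ) (ψ : Gam → ZMod (3 ^ u)) (s : Gam), t = v + u ∧ Sm G ψ ∧ IsHom G ψ ∧ s ∈ G ∧
      ψ s = 1 ∧ ∀ g ∈ G, (χ g).val = 3 ^ v * (ψ g).val := by
  obtain ⟨v, hv, hP, hmax⟩ : ∃ v ≤ t, (∀ g ∈ G, 3 ^ v ∣ (χ g).val) ∧
      (v < t → ¬ ∀ g ∈ G, 3 ^ (v + 1) ∣ (χ g).val) :=
    ⟨Nat.findGreatest (fun v => ∀ g ∈ G, 3 ^ v ∣ (χ g).val) t, Nat.findGreatest_le t,
      Nat.findGreatest_spec (P := fun v => ∀ g ∈ G, 3 ^ v ∣ (χ g).val) (Nat.zero_le t)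
        fun g _ => one_dvd _,
      fun h => Nat.findGreatest_is_greatest (P := fun v => ∀ g ∈ G, 3 ^ v ∣ (χ g).val)
        (Nat.lt_succ_self _) h⟩
  obtain ⟨u, rfl⟩ := Nat.exists_eq_add_of_le hv
  have p2 : 0 < 3 ^ v := by positivity
  have hval : ∀ g, (((χ g).val / 3 ^ v : ℕ) : ZMod (3 ^ u)).val = (χ g).val / 3 ^ v := fun g =>
    ZMod.val_cast_of_lt (Nat.div_lt_of_lt_mul ((ZMod.val_lt _).trans_eq (pow_add 3 v u)))
  have hom : IsHom G fun g => (((χ g).val / 3 ^ v : ℕ) : ZMod (3 ^ u)) := fun g hg k hk => by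
    have e := car_spec h2 hg hk
    generalize car (3 ^ (v + u)) χ g k = c at e
    have e1 : (χ g).val / 3 ^ v + (χ k).val / 3 ^ v = (χ (g * k)).val / 3 ^ v + 3 ^ u * c := by
      refine Nat.eq_of_mul_eq_mul_left p2 ?_
      rw [mul_add, mul_add, Nat.mul_div_cancel' (hP g hg), Nat.mul_div_cancel' (hP k hk),
        Nat.mul_div_cancel' (hP _ (mul_mem hg hk)), ← mul_assoc, ← pow_add, e]
    dsimp only
    rw [← Nat.cast_add, e1, Nat.cast_add, Nat.cast_mul, ZMod.natCast_self, zero_mul, add_zero]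
  obtain ⟨g, hg, cop⟩ : ∃ g ∈ G, ((χ g).val / 3 ^ v).Coprime (3 ^ u) := by
    rcases Nat.eq_zero_or_pos u with rfl | hu
    · exact ⟨1, one_mem _, Nat.coprime_one_right _⟩
    · have h3 := hmax (Nat.lt_add_of_pos_right hu)
      push Not at h3
      obtain ⟨g, hg, h4⟩ := h3
      refine ⟨g, hg, Nat.Coprime.pow_right _ ((Nat.prime_three.coprime_iff_not_dvd.2 ?_).symm)⟩
      intro h5
      exact h4 (by rw [pow_succ]; exact (Nat.dvd_div_iff_mul_dvd (hP g hg)).1 h5)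
  obtain ⟨y, hy⟩ := ((ZMod.isUnit_iff_coprime _ _).2 cop).exists_left_inv
  refine ⟨u, v, fun g => (((χ g).val / 3 ^ v : ℕ) : ZMod (3 ^ u)), g ^ y.val, rfl,
    h1.comp fun x => ((x.val / 3 ^ v : ℕ) : ZMod (3 ^ u)), hom, pow_mem hg _, ?_, fun k hk => ?_⟩
  · refine (cle_pow hom hg _).trans ?_
    rw [ZMod.natCast_zmod_val, hy]
  · rw [hval, Nat.mul_div_cancel' (hP k hk)]

theorem exists_root3 {D : Subgroup Gam} (hD : D ≤ Dec w) {a : Qbar} (m : ℕ) (ha : Fx D a)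
    (h : w.V (a - 1) < w.V (3 ^ (m + 1))) : ∃ r, Fx D r ∧ r ^ 3 ^ m = a := by
  induction m generalizing a with
  | zero => exact ⟨a, ha, by simp⟩
  | succ m ih =>
    have h2 : w.V 3 ≤ 1 := by simpa using w.V_int_le 3
    obtain ⟨s, s1, s2, s3⟩ := exists_cbrt hD ha (h.trans_le (by
      rw [show (3 : Qbar) ^ (m + 1 + 1) = 3 ^ m * 9 by ring, map_mul, map_pow]
      exact mul_le_of_le_one_left' (pow_le_one' h2 m)))
    rw [← s3, pow_succ, map_mul] at h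
    obtain ⟨r, r1, r2⟩ := ih s1 (lt_of_mul_lt_mul_right h zero_le)
    exact ⟨r, r1, by rw [pow_succ, pow_mul, r2, s2]⟩

/-- The symbol is nondegenerate in the character. -/
theorem eq_zero_of_split (hH : Op H) {χ : Gam → ZMod (3 ^ m)} (h1 : Sm (H ⊓ Dec w) χ)
    (h2 : IsHom (H ⊓ Dec w) χ)
    (h : ∀ a, a ≠ 0 → Fx (H ⊓ Dec w) a → Coh (H ⊓ Dec w) (Cy (3 ^ m) χ a) 1) :
    ∀ g ∈ H ⊓ Dec w, χ g = 0 := by
  obtain ⟨u, v, ψ, s, e, k1, k2, hs, k3, k4⟩ := exists_scale h1 h2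
  cases u with
  | zero =>
    intro g hg
    rw [← ZMod.val_eq_zero, k4 g hg, Subsingleton.elim (α := ZMod 1) (ψ g) 0, ZMod.val_zero,
      mul_zero]
  | succ u =>
    let η : Gam → ZMod 3 := fun g =>
      ZMod.castHom (dvd_pow_self 3 u.succ_ne_zero) (ZMod 3) (ψ g)
    have c1 : Sm (H ⊓ Dec w) η := k1.comp _
    have c2 : IsHom (H ⊓ Dec w) η := fun g hg k hk => by simp only [η, k2 g hg k hk, map_add]
    obtain ⟨U, hU, hk⟩ := kerOn_open c1 c2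
    obtain ⟨L⟩ := exists_LD hH w
    obtain ⟨b, b0, b1, -, b3⟩ := L.cub_ur (hU.inf hH) inf_le_right c1 c2 hs
      (by simp only [η, k3, map_one]) (by rw [hk, inf_assoc])
    refine absurd ((Cy_red (d := 3 ^ u) (pow_succ 3 u) k1 k2 (fun g _ => ?_) b0 b1).trans
      ((Cy_scale (d := 3 ^ v) (by rw [e, pow_add]) k4 _).symm.trans
        (h _ (pow_ne_zero _ b0) (cll_fx_pow b1 _)))) b3
    simp only [η, ZMod.castHom_apply, ZMod.cast_eq_val]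

/-- Local units are killed as soon as the global numbers that are units at the place are. -/
theorem cll_unit (hH : Op H) {χ : Gam → ZMod (3 ^ m)} (h1 : Sm (H ⊓ Dec w) χ)
    (h2 : IsHom (H ⊓ Dec w) χ)
    (h : ∀ a κ, Fx H a → w.V a = 1 → Kum m H a κ → linv m H w (cup m χ κ) = 0) {u : Qbar}
    (hu : Fx (H ⊓ Dec w) u) (hv : w.V u = 1) : Coh (H ⊓ Dec w) (Cy (3 ^ m) χ u) 1 := by
  have e0 : (0 : ℝ≥0) < w.V (3 ^ (m + 1)) := b3a_pos w (pow_ne_zero _ three_ne_zero)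
  have e1 : w.V (3 ^ (m + 1)) ≤ 1 := by exact_mod_cast w.V_int_le (3 ^ (m + 1))
  obtain ⟨y, hy, hd⟩ := approx hH hu e0
  have vy : w.V y = 1 := by
    rw [← hv]
    exact w.V.map_eq_of_sub_lt (by rw [w.V.map_sub_swap, hv]; exact hd.trans_le e1)
  have y0 : y ≠ 0 := fun h0 => by simp [h0] at vy
  have u0 : u ≠ 0 := fun h0 => by simp [h0] at hv
  have hy' : Fx (H ⊓ Dec w) y := fun g hg => hy g hg.1
  obtain ⟨r, hr, hr'⟩ := exists_root3 (D := H ⊓ Dec w) (w := w) inf_le_right (a := u / y) m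
    (fun g hg => by rw [map_div₀, hu g hg, hy' g hg])
    (by rw [div_sub_one y0, map_div₀, vy, div_one]; exact hd)
  have r0 : r ≠ 0 := fun h0 => by
    rw [h0, zero_pow (pow_ne_zero _ three_ne_zero)] at hr'
    exact div_ne_zero u0 y0 hr'.symm
  obtain ⟨κ, hκ⟩ := exists_kum m y0 hy
  have hκ' : Kum m (H ⊓ Dec w) y κ := hκ.mono inf_le_left
  have hc := c2_cup h1 h2 hκ'.sm hκ'.coc
  have h3 : Coh (H ⊓ Dec w) (zc m (cup m χ κ)) 1 :=
    coh_one_iff.2 ((spl_iff (cll_closed hH w) hc).1 ((linv_zero_iff hH hc).1 (h y κ hy vy hκ)))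
  have h4 := ((cup_coh h1 h2 hκ').symm.trans h3).mul (Cy_pow_n h1 h2 r0 hr)
  rwa [← Cy_mul, hr', mul_div_cancel₀ _ y0, mul_one] at h4

theorem linv_crit (hH : Op H) {χ : Gam → ZMod (3 ^ m)} (h1 : Sm (H ⊓ Dec w) χ)
    (h2 : IsHom (H ⊓ Dec w) χ)
    (h : ∀ a κ, Fx H a → w.V a = 1 → Kum m H a κ → linv m H w (cup m χ κ) = 0) :
    ∀ σ ∈ H ⊓ Ine w, χ σ = 0 := by
  obtain ⟨L⟩ := exists_LD hH w
  have hπ : Fx (H ⊓ Dec w) L.π := fun g hg => L.π_fx g hg.1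
  obtain ⟨k, hk⟩ := L.exists_ur hH (cq_Cy h1 h2 L.π_ne hπ) (m := m)
    (by rw [← Cy_pow]; exact Cy_pow_n h1 h2 L.π_ne hπ)
  obtain ⟨c, hc⟩ : ∃ c : ℕ, (c : ZMod (3 ^ m)) = -k := ⟨_, ZMod.natCast_zmod_val _⟩
  set ψ : Gam → ZMod (3 ^ m) := fun g => c * L.om m g with hψ
  have s1 : Sm (H ⊓ Dec w) ψ := (L.om_sm m).comp fun x => c * x
  have s2 : IsHom (H ⊓ Dec w) ψ := fun g hg k hk => by
    simp only [hψ, L.om_hom m g hg k hk, mul_add]
  have t1 : Sm (H ⊓ Dec w) (χ + ψ) := h1.comp₂ s1 (· + ·)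
  have t2 : IsHom (H ⊓ Dec w) (χ + ψ) := fun g hg k hk => by
    simp only [Pi.add_apply, h2 g hg k hk, s2 g hg k hk]
    ring
  have t3 : ∀ a, a ≠ 0 → Fx (H ⊓ Dec w) a → Coh (H ⊓ Dec w) (Cy (3 ^ m) (χ + ψ) a)
      (Cy (3 ^ m) χ a * Cy (3 ^ m) (L.om m) (a ^ c)) := fun a a0 ha =>
    (Cy_add h1 h2 s1 s2 a0 ha).trans
      ((Coh.refl _ _).mul (Cy_nsmul (L.om_sm m) (L.om_hom m) a0 ha c))
  have t4 : Coh (H ⊓ Dec w) (Cy (3 ^ m) (χ + ψ) L.π) 1 := by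
    have h3 := (t3 _ L.π_ne hπ).trans (hk.mul (Coh.refl _ _))
    rw [← zpow_natCast] at h3
    change Coh _ _ (L.ur m k * L.ur m c) at h3
    rw [← L.ur_add] at h3
    rw [← L.ur_zero m]
    exact h3.trans ((L.ur_coh_iff hH m _ _).2 (by push_cast; rw [hc, add_neg_cancel]))
  have t5 : ∀ j : ℤ, Coh (H ⊓ Dec w) (Cy (3 ^ m) (χ + ψ) (L.π ^ j)) 1 := fun j => by
    obtain ⟨n, rfl | rfl⟩ := j.eq_nat_or_neg
    · rw [zpow_natCast, Cy_pow]
      simpa using t4.pow n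
    · rw [zpow_neg, zpow_natCast, Cy_inv, Cy_pow]
      simpa using (t4.pow n).inv
  have t6 := eq_zero_of_split hH t1 t2 fun a a0 ha => by
    obtain ⟨j, hj⟩ := L.val a (fun g hg => ha g ⟨hg.1, Ine_le w hg.2⟩) a0
    have p0 : L.π ^ j ≠ 0 := zpow_ne_zero _ L.π_ne
    have hu : Fx (H ⊓ Dec w) (a / L.π ^ j) := fun g hg => by
      rw [map_div₀, ha g hg, L.fx_zpow j g hg]
    have hv : w.V (a / L.π ^ j) = 1 := by
      rw [map_div₀, map_zpow₀, hj, div_self (zpow_ne_zero _ L.π_pos.ne')]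
    have h3 := (t3 _ (div_ne_zero a0 p0) hu).trans ((cll_unit hH h1 h2 h hu hv).mul
      (L.Cy_unit hH m (cll_fx_pow hu c) (by rw [map_pow, hv, one_pow])))
    have h4 := (t5 j).mul h3
    rwa [← Cy_mul, mul_div_cancel₀ _ p0, mul_one, mul_one] at h4
  intro σ hσ
  simpa [hψ, L.om_ine m hσ] using t6 σ ⟨hσ.1, Ine_le w hσ.2⟩

end Pool.Agent.H3
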