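import Pool.Agent.Lib.MP_23455a_nt.H3.CR0
import Pool.Agent.Lib.MP_696deb_nt.B2.CRa

/-! Dirichlet characters with large local orders. -/

set_option autoImplicit false

open scoped NNReal Classical
open Filter Topology Finset

namespace Pool.Agent.H3

open Pool.Agent.Lib.MP_696deb_nt.B2

/-- A Dirichlet character of three-power order with values in the circle. -/
def CRaCh (n : ℕ) (θ : ℤ → UnitAddCircle) : Prop :=
  (∀ a b : ℤ, IsCoprime a n → IsCoprime b n → θ (a * b) = θ a + θ b) ∧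
    (∀ a b : ℤ, (n : ℤ) ∣ a - b → θ a = θ b) ∧ ∃ t : ℕ, ∀ a, 3 ^ t • θ a = 0

theorem cra_lt {A : Type} [AddCommGroup A] {x z : A} {a c : ℕ} (hx : addOrderOf x = 3 ^ a)
    (hz : addOrderOf z = 3 ^ c) (h : a < c) : addOrderOf (x + z) = 3 ^ c := by
  rw [← hz]
  refine (AddCommute.all x z).addOrderOf_add_eq_right_of_forall_prime_mul_dvd
    (addOrderOf_pos_iff.1 (by rw [hz]; positivity)) fun p hp hd => ?_
  rw [hx] at hd
  rw [(Nat.prime_dvd_prime_iff_eq hp Nat.prime_three).1 (hp.dvd_of_dvd_pow hd), hx, hz, ← pow_succ']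
  exact pow_dvd_pow 3 h

theorem cra_add {A : Type} [AddCommGroup A] {x y : A} {a b j N : ℕ} (hx : addOrderOf x = 3 ^ a)
    (hy : addOrderOf y = 3 ^ b) (hj : j ≠ b - a) (h : N ≤ a ∨ N + j ≤ b) :
    3 ^ N ∣ addOrderOf (x + 3 ^ j • y) := by
  have hz : addOrderOf (3 ^ j • y) = 3 ^ (b - j) := by
    rw [addOrderOf_nsmul' y (by positivity), hy]
    rcases le_total j b with h1 | h1
    · rw [Nat.gcd_eq_right (pow_dvd_pow 3 h1), Nat.pow_div h1 three_pos]
    · rw [Nat.gcd_eq_left (pow_dvd_pow 3 h1), Nat.div_self (by positivity),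
        Nat.sub_eq_zero_of_le h1, pow_zero]
  rcases Nat.eq_zero_or_pos N with rfl | hN
  · exact one_dvd _
  rcases lt_trichotomy a (b - j) with h1 | h1 | h1
  · rw [cra_lt hx hz h1]
    exact pow_dvd_pow 3 (by omega)
  · omega
  · rw [add_comm, cra_lt hz hx h1]
    exact pow_dvd_pow 3 (by omega)

theorem cra_prime {q : ℕ} (hq : 2 ≤ q) (M : ℕ) : ∃ r : ℕ, r.Prime ∧ M < r ∧
    ∃ ψ, CRaCh r ψ ∧ addOrderOf (ψ q) = 3 ^ (M + 1) := by
  have : Fact (Nat.Prime 3) := ⟨Nat.prime_three⟩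
  obtain ⟨r, hr, hd, ho⟩ : ∃ r, r.Prime ∧ r ∣ (q ^ 3 ^ M) ^ 2 + q ^ 3 ^ M + 1 ∧ r ≠ 3 := by
    have h0 := Nat.one_lt_pow (n := 3 ^ M) (by positivity) hq
    generalize q ^ 3 ^ M = x at h0 ⊢
    by_contra! h
    have h1 := Nat.eq_prime_pow_of_unique_prime_dvd (n := x ^ 2 + x + 1) (p := 3) (by omega)
      fun hp hd => h _ hp hd
    generalize (x ^ 2 + x + 1).primeFactorsList.length = k at h1
    have h2 : 2 ≤ k := by
      by_contra! h2
      interval_cases k <;> nlinarith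
    have h3 := (ZMod.natCast_eq_zero_iff _ 9).2 (h1 ▸ pow_dvd_pow 3 h2)
    push_cast at h3
    generalize (x : ZMod 9) = y at h3
    revert y
    decide
  have := Fact.mk hr
  have h1 : ((q : ZMod r) ^ 3 ^ M) ^ 2 + (q : ZMod r) ^ 3 ^ M + 1 = 0 := by
    exact_mod_cast (ZMod.natCast_eq_zero_iff _ r).2 hd
  have h0 : (q : ZMod r) ^ 3 ^ (M + 1) = 1 := by
    rw [pow_succ, pow_mul]
    linear_combination ((q : ZMod r) ^ 3 ^ M - 1) * h1
  have hu : IsUnit ((q : ℤ) : ZMod r) := by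
    rw [Int.cast_natCast]
    exact IsUnit.of_pow_eq_one h0 (by positivity)
  have h2 : hu.unit ^ 3 ^ (M + 1) = 1 := Units.ext (by simpa using h0)
  have h3 : hu.unit ^ 3 ^ M ≠ 1 := fun h => by
    have h4 : (q : ZMod r) ^ 3 ^ M = 1 := by simpa using congrArg Units.val h
    rw [h4] at h1
    exact ho ((Nat.prime_dvd_prime_iff_eq hr Nat.prime_three).1
      ((ZMod.natCast_eq_zero_iff 3 r).1 (by linear_combination h1)))
  obtain ⟨φ, p1, p2, p3⟩ := cra_cyc (ZMod r)ˣ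
  obtain ⟨v, m, hm, e⟩ :=
    Nat.exists_eq_pow_mul_and_not_dvd (n := Nat.card (ZMod r)ˣ) Nat.card_pos.ne' 3 (by norm_num)
  have k1 : ∀ x, 3 ^ v • m • φ x = 0 := fun x => by
    rw [smul_smul, ← e, ← p2, pow_card_eq_one', p3]
  have k3 : addOrderOf (m • φ hu.unit) = 3 ^ (M + 1) := by
    rw [Nat.Coprime.addOrderOf_nsmul] <;> rw [addOrderOf_eq_prime_pow (p := 3) (n := M)
      (by rwa [← p2, p3]) (by rwa [← p2, p3])]
    exact ((Nat.Prime.coprime_iff_not_dvd Nat.prime_three).2 hm).pow_left _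
  refine ⟨r, hr, ?_, fun a => if h : IsUnit (a : ZMod r) then m • φ h.unit else 0,
    ⟨fun a b ha hb => ?_, fun a b h => ?_, v, fun a => ?_⟩, by simp only [dif_pos hu, k3]⟩
  · have h4 : 3 ^ (M + 1) ∣ Nat.card (ZMod r)ˣ := by
      rw [← k3, e]
      exact (addOrderOf_dvd_of_nsmul_eq_zero (k1 _)).mul_right m
    have h5 := Nat.le_of_dvd Nat.card_pos h4
    rw [Nat.card_eq_fintype_card, ZMod.card_units] at h5
    have := Nat.lt_pow_self (n := M + 1) (by norm_num : 1 < 3)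
    omega
  · have ha' := (ZMod.coe_int_isUnit_iff_isCoprime a r).2 ha.symm
    have hb' := (ZMod.coe_int_isUnit_iff_isCoprime b r).2 hb.symm
    have hab : IsUnit ((a * b : ℤ) : ZMod r) := by rw [Int.cast_mul]; exact ha'.mul hb'
    simp only [dif_pos ha', dif_pos hb', dif_pos hab]
    rw [← smul_add, ← p1]
    exact congrArg (fun x => m • φ x) (Units.ext (by simp))
  · simp only [(ZMod.intCast_eq_intCast_iff_dvd_sub b a r).2 h]
  · beta_reduce
    split_ifs
    · exact k1 _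
    · exact smul_zero _

theorem cra_comb {n r : ℕ} {θ ψ : ℤ → UnitAddCircle} (h : CRaCh n θ) (h' : CRaCh r ψ) (k : ℕ) :
    CRaCh (n * r) fun a => θ a + k • ψ a := by
  obtain ⟨h1, h2, t, h3⟩ := h
  obtain ⟨k1, k2, u, k3⟩ := h'
  refine ⟨fun a b ha hb => ?_, fun a b hab => ?_, t + u, fun a => ?_⟩
  · rw [Nat.cast_mul] at ha hb
    simp only [h1 a b ha.of_mul_right_left hb.of_mul_right_left,
      k1 a b ha.of_mul_right_right hb.of_mul_right_right, smul_add]
    abel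
  · rw [Nat.cast_mul] at hab
    simp only [h2 a b (dvd_of_mul_right_dvd hab), k2 a b (dvd_of_mul_left_dvd hab)]
  · rw [smul_add, smul_comm _ k, pow_add, mul_smul _ _ (ψ a), k3, mul_comm, mul_smul, h3]
    simp only [smul_zero, add_zero]

theorem cra_ind (B N : ℕ) (S : Finset ℕ) (hS : ∀ p ∈ S, p.Prime) :
    ∃ (n : ℕ) (θ : ℤ → UnitAddCircle), 0 < n ∧ (∀ p : ℕ, p.Prime → p ∣ n → B < p) ∧ CRaCh n θ ∧
      ∀ p ∈ S, 3 ^ N ∣ addOrderOf (θ p) := by
  have : Fact (Nat.Prime 3) := ⟨Nat.prime_three⟩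
  induction S using Finset.induction_on with
  | empty =>
    exact ⟨1, 0, one_pos, fun p hp hd => absurd hd hp.not_dvd_one,
      ⟨fun _ _ _ _ => (add_zero _).symm, fun _ _ _ => rfl, 0, fun _ => smul_zero _⟩,
      fun p hp => absurd hp (notMem_empty p)⟩
  | insert q S _ ih =>
    obtain ⟨n, θ, hn, h1, h2, h4⟩ := ih fun p hp => hS p (mem_insert_of_mem hp)
    obtain ⟨r, hr, k1, ψ, k2, k3⟩ :=
      cra_prime (hS q (mem_insert_self q S)).two_le (B + N + (insert q S).card)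
    choose a ha using fun x => (exists_addOrderOf_eq_prime_pow_iff (p := 3) (x := θ x)).2
      (h2.2.2.imp fun t ht => ht x)
    choose b hb using fun x => (exists_addOrderOf_eq_prime_pow_iff (p := 3) (x := ψ x)).2
      (k2.2.2.imp fun t ht => ht x)
    obtain ⟨j, hj, hj'⟩ := exists_mem_notMem_of_card_lt_card
      (s := (insert q S).image fun p : ℕ => b p - a p) (t := Icc 1 ((insert q S).card + 1))
      (card_image_le.trans_lt (by simp))
    rw [mem_Icc] at hj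
    refine ⟨n * r, _, mul_pos hn hr.pos, fun p hp hd => ?_, cra_comb h2 k2 (3 ^ j),
      fun p hp => cra_add (ha p) (hb p) (fun e => hj' (mem_image.2 ⟨p, hp, e.symm⟩)) ?_⟩
    · rcases (Nat.Prime.dvd_mul hp).1 hd with h | h
      · exact h1 p hp h
      · rw [(Nat.prime_dvd_prime_iff_eq hp hr).1 h]
        omega
    · rcases mem_insert.1 hp with rfl | hp
      · have := Nat.pow_right_injective (by norm_num : 2 ≤ 3) ((hb p).symm.trans k3)
        omega
      · have := h4 p hp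
        rw [ha] at this
        exact Or.inl ((Nat.pow_dvd_pow_iff_le_right (by norm_num)).1 this)

theorem exists_theta (S : Finset ℕ) (hS : ∀ p ∈ S, p.Prime) (N : ℕ) :
    ∃ (n t : ℕ) (θ : ℤ → ZMod (3 ^ t)), 0 < n ∧ (∀ p ∈ S, ¬ p ∣ n) ∧ Dir n θ ∧
      ∀ p ∈ S, ∀ j : ℕ, (j : ZMod (3 ^ t)) * θ p = 0 → 3 ^ N ∣ j := by
  obtain ⟨n, θ, hn, h1, ⟨h2, h3, t, h4⟩, h6⟩ := cra_ind (S.sup id) N S hS
  have key : ∀ a, ∃ z : ZMod (3 ^ t), ZMod.toAddCircle z = θ a := fun a => by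
    obtain ⟨m, -, hm⟩ := (AddCircle.nsmul_eq_zero_iff (by positivity)).1 (h4 a)
    exact ⟨m, by rw [ZMod.toAddCircle_natCast, ← hm, mul_one]⟩
  choose θ' h7 using key
  refine ⟨n, t, θ', hn, fun p hp hd => ?_, ⟨fun a b ha hb => ZMod.toAddCircle_injective _ ?_,
    fun a b hab => ZMod.toAddCircle_injective _ ?_⟩, fun p hp j hj => ?_⟩
  · exact absurd (le_sup (f := id) hp) (not_le.2 (h1 p (hS p hp) hd))
  · rw [map_add, h7, h7, h7, h2 a b ha hb]
  · rw [h7, h7, h3 a b hab]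
  · refine (h6 p hp).trans (addOrderOf_dvd_of_nsmul_eq_zero ?_)
    rw [← h7, ← map_nsmul, nsmul_eq_mul, hj, map_zero]

theorem Dir.one {n t : ℕ} {θ : ℤ → ZMod (3 ^ t)} (h : Dir n θ) : θ 1 = 0 := by
  have e := h.1 1 1 isCoprime_one_left isCoprime_one_left
  rwa [mul_one, left_eq_add] at e

theorem Dir.pow {n t : ℕ} {θ : ℤ → ZMod (3 ^ t)} (h : Dir n θ) {a : ℤ} (ha : IsCoprime a n)
    (k : ℕ) : θ (a ^ k) = k * θ a := by
  induction k with
  | zero => rw [pow_zero, h.one, Nat.cast_zero, zero_mul]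
  | succ k ih => rw [pow_succ, h.1 _ _ ha.pow_left ha, ih, Nat.cast_succ, add_one_mul]

theorem cra_nat {n t : ℕ} {θ : ℤ → ZMod (3 ^ t)} (h : Dir n θ) {B : Finset ℕ}
    (hB : ∀ p ∈ B, p.Prime) (m : ℕ) : m ≠ 0 → m.Coprime n → (∀ p : ℕ, p.Prime → p ∣ m → p ∈ B) →
      θ m = ∑ p ∈ B, (padicValNat p m : ZMod (3 ^ t)) * θ p := by
  induction m using induction_on_primes with
  | zero => exact fun h0 => absurd rfl h0
  | one => intro _ _ _; simp [h.one]
  | prime_mul q a hq ih =>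
    intro h0 hc hm
    have ha := right_ne_zero_of_mul h0
    have := Fact.mk hq
    rw [Nat.cast_mul, h.1 _ _ (Nat.isCoprime_iff_coprime.2 hc.coprime_mul_right)
      (Nat.isCoprime_iff_coprime.2 hc.coprime_mul_left),
      ih ha hc.coprime_mul_left fun p hp hd => hm p hp (hd.mul_left q),
      ← one_mul (θ q), ← Nat.cast_one, ← padicValNat_self (p := q),
      ← sum_eq_single_of_mem (f := fun p => (padicValNat p q : ZMod (3 ^ t)) * θ p) q
        (hm q hq (dvd_mul_right q a)) fun p hp hne => ?_, ← sum_add_distrib]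
    · refine sum_congr rfl fun p hp => ?_
      have := Fact.mk (hB p hp)
      rw [padicValNat.mul hq.ne_zero ha, Nat.cast_add, add_mul]
    · have := Fact.mk (hB p hp)
      rw [padicValNat_primes hne, Nat.cast_zero, zero_mul]

/-- The value on a positive rational number that is congruent to one. -/
theorem Dir.sum_val {n t : ℕ} {θ : ℤ → ZMod (3 ^ t)} (h : Dir n θ) (hn : 0 < n) {r : ℚ}
    (hr : 0 < r) (h1 : ∀ p : ℕ, p.Prime → p ∣ n →
      r = 1 ∨ (padicValNat p n : ℤ) ≤ padicValRat p (r - 1))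
    (B : Finset ℕ) (hB : ∀ p ∈ B, p.Prime) (h2 : ∀ p : ℕ, p.Prime → p ∉ B → padicValRat p r = 0) :
    ∑ p ∈ B, (padicValRat p r : ZMod (3 ^ t)) * θ p = 0 := by
  by_cases hr1 : r = 1
  · simp [hr1]
  obtain ⟨A, hA⟩ := Int.eq_ofNat_of_zero_le (Rat.num_pos.2 hr).le
  have hA0 : A ≠ 0 := fun e => (Rat.num_pos.2 hr).ne' (by rw [hA, e, Nat.cast_zero])
  have hc : A.Coprime r.den := by simpa [hA] using r.reduced
  have hv : ∀ p, padicValRat p r = (padicValNat p A : ℤ) - padicValNat p r.den := fun p => by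
    rw [padicValRat_def, hA, padicValInt.of_nat]
  have hd : (r.den : ℚ) ≠ 0 := Nat.cast_ne_zero.2 r.den_nz
  have e : r - 1 = (((A : ℤ) - r.den : ℤ) : ℚ) / r.den := by
    rw [← hA, Int.cast_sub, sub_div, Rat.num_div_den, Int.cast_natCast, div_self hd]
  have h0 : (A : ℤ) - r.den ≠ 0 := fun h0 => hr1 (by
    rw [h0, Int.cast_zero, zero_div] at e
    exact sub_eq_zero.1 e)
  have hno : ∀ p : ℕ, p.Prime → p ∣ A → ¬ p ∣ r.den := fun p hp k1 k2 =>
    hp.ne_one (Nat.eq_one_of_dvd_coprimes hc k1 k2)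
  have key : ∀ p : ℕ, p.Prime → p ∣ n → (p : ℤ) ^ padicValNat p n ∣ (A : ℤ) - r.den ∧
      (p : ℤ) ∣ (A : ℤ) - r.den := fun p hp hp' => by
    have := Fact.mk hp
    have k1 := (h1 p hp hp').resolve_left hr1
    rw [e, padicValRat.div (Int.cast_ne_zero.2 h0) hd, padicValRat.of_int,
      padicValRat.of_nat] at k1
    have k2 := (padicValInt_dvd_iff (p := p) (padicValNat p n) ((A : ℤ) - r.den)).2
      (Or.inr (by omega))
    exact ⟨k2, (dvd_pow_self _ ((dvd_iff_padicValNat_ne_zero hn.ne').1 hp')).trans k2⟩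
  have c1 : A.Coprime n := Nat.coprime_of_dvd fun p hp k1 k2 => hno p hp k1
    (Int.natCast_dvd_natCast.1 ((dvd_sub_right (Int.natCast_dvd_natCast.2 k1)).1 (key p hp k2).2))
  have c2 : r.den.Coprime n := Nat.coprime_of_dvd fun p hp k1 k2 => hno p hp
    (Int.natCast_dvd_natCast.1 ((dvd_sub_left (Int.natCast_dvd_natCast.2 k1)).1 (key p hp k2).2)) k1
  have c3 : (n : ℤ) ∣ (A : ℤ) - r.den := by
    rw [Int.natCast_dvd, Nat.dvd_iff_prime_pow_dvd_dvd]
    intro p k hp hk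
    rcases Nat.eq_zero_or_pos k with rfl | hk0
    · exact one_dvd _
    have := Fact.mk hp
    rw [← Int.natCast_dvd, Nat.cast_pow]
    exact (pow_dvd_pow _ ((padicValNat_dvd_iff_le hn.ne').1 hk)).trans
      (key p hp ((dvd_pow_self p hk0.ne').trans hk)).1
  have e1 := cra_nat h hB A hA0 c1 fun p hp k1 => by_contra fun k2 => by
    have := Fact.mk hp
    have k3 := h2 p hp k2
    have k4 := (dvd_iff_padicValNat_ne_zero hA0).1 k1
    rw [hv, padicValNat.eq_zero_of_not_dvd (hno p hp k1)] at k3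
    omega
  have e2 := cra_nat h hB r.den r.den_nz c2 fun p hp k1 => by_contra fun k2 => by
    have := Fact.mk hp
    have k3 := h2 p hp k2
    have k4 := (dvd_iff_padicValNat_ne_zero r.den_nz).1 k1
    rw [hv, padicValNat.eq_zero_of_not_dvd fun k5 => hno p hp k5 k1] at k3
    omega
  simp only [hv, Int.cast_sub, Int.cast_natCast, sub_mul, sum_sub_distrib]
  rw [← e1, ← e2, h.2 _ _ c3, sub_self]

end Pool.Agent.H3
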