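import Pool.Agent.Lib.MP_23455a_nt.H3.CR0
import Pool.Agent.Lib.MP_23455a_nt.H3.CLl
import Pool.Agent.Lib.MP_696deb_nt.B2.CRb

/-! Cyclotomic characters and small lemmas. -/

set_option autoImplicit false

open scoped NNReal Classical
open Filter Topology Finset

namespace Pool.Agent.H3

open Pool.Agent.Lib.MP_696deb_nt.B2

variable {G H : Subgroup Gam}

theorem exists_cyc {n t : ℕ} {θ : ℤ → ZMod (3 ^ t)} (hn : 0 < n) (h : Dir n θ) :
    ∃ χ, IsCyc n θ χ := by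
  have : NeZero n := ⟨hn.ne'⟩
  obtain ⟨ζ, hζ⟩ := HasEnoughRootsOfUnity.exists_primitiveRoot Qbar n
  have h0 : ζ ≠ 0 := hζ.ne_zero hn.ne'
  have ex : ∀ x : Qbar, ∃ i : ℕ, x ^ n = 1 → ζ ^ i = x := fun x => by
    by_cases hx : x ^ n = 1
    · obtain ⟨i, -, hi⟩ := hζ.eq_pow_of_pow_eq_one hx
      exact ⟨i, fun _ => hi⟩
    · exact ⟨0, fun h => absurd h hx⟩
  choose A hA using ex
  have hA' : ∀ g : Gam, ζ ^ A (g ζ) = g ζ := fun g =>
    hA _ (by rw [← map_pow, hζ.pow_eq_one, map_one])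
  have key : ∀ (g : Gam) (k : ℤ), g ζ = ζ ^ k → θ (A (g ζ)) = θ k := fun g k hk => by
    refine h.2 _ _ ((hζ.zpow_eq_one_iff_dvd _).1 ?_)
    rw [zpow_sub₀ h0, zpow_natCast, hA', hk, div_self (zpow_ne_zero _ h0)]
  have cop : ∀ g : Gam, IsCoprime ((A (g ζ) : ℕ) : ℤ) (n : ℤ) := fun g => by
    refine Nat.isCoprime_iff_coprime.2 ((hζ.pow_iff_coprime hn _).1 ?_)
    rw [hA']
    exact hζ.map_of_injective g.injective
  have fr : ∀ (w : Plc) (k : ℕ) (φ : Gam), ¬ w.p ∣ n → IsFrob w k φ → θ (A (φ ζ)) = θ k :=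
    fun w k φ h1 h2 => key φ k (by rw [frob_root h2 h1 hζ.pow_eq_one, zpow_natCast])
  refine ⟨fun g => θ (A (g ζ)), (sm_apply ζ).comp fun x => θ (A x), fun g _ k _ => ?_,
    fun w hw σ hσ => ?_, fr⟩
  · rw [← h.1 _ _ (cop g) (cop k)]
    refine key _ _ ?_
    rw [← Nat.cast_mul, zpow_natCast, pow_mul, hA', ← map_pow, hA', AlgEquiv.mul_apply]
  · have h1 := h.1 1 1 isCoprime_one_left isCoprime_one_left
    rw [mul_one] at h1
    rw [fr w 1 σ hw (isFrob_one.2 hσ), Nat.cast_one]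
    exact left_eq_add.1 h1

end Pool.Agent.H3
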