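import Pool.Agent.Lib.MP_23455a_nt.H3.CRa
import Pool.Agent.Lib.MP_23455a_nt.H3.CLe
import Pool.Agent.Lib.MP_696deb_nt.B2.CRd

/-! The product formula for cyclotomic symbols. -/

set_option autoImplicit false

open scoped NNReal Classical
open Filter Topology Finset

namespace Pool.Agent.H3

open Pool.Agent.Lib.MP_696deb_nt.B2

theorem crd_val {H : Subgroup Gam} (hH : Op H) {a : Qbar} (ha : Fx H a) {r : ℚ}
    (hr : nq H a = r) (hr0 : 0 < r) (s : Finset Plc) (hs : Apart H s)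
    (h3 : ∀ w, Away H s w → w.V a = 1) (L : ∀ w, LD H w) (k : Plc → ℤ)
    (hk : ∀ w ∈ s, w.V a = w.V (L w).π ^ k w) {p : ℕ} (hp : p.Prime) :
    padicValRat p r = ∑ v ∈ s.filter (fun v => v.p = p), (L v).f * k v := by
  obtain ⟨w, rfl⟩ := exists_plc hp
  have p1 := crd_one_lt w
  have p0 : (w.p : ℝ≥0) ≠ 0 := (zero_lt_one.trans p1).ne'
  have h := nq_val hH ha w (s.filter fun v => v.p = w.p)
    (fun v hv u hu => hs v (mem_filter.1 hv).1 u (mem_filter.1 hu).1)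
    (fun v hv => (mem_filter.1 hv).2) fun v hv hA => h3 v fun u hu g hg e =>
      hA u (mem_filter.2 ⟨hu, by rw [← hv, ← e, smul_p]⟩) g hg e
  have e : ∀ v ∈ s.filter (fun v => v.p = w.p), v.V a ^ (H ⊓ Dec v).relIndex (Dec v) =
      ((w.p : ℝ≥0)⁻¹) ^ (((L v).f : ℤ) * k v) := fun v hv => by
    rw [hk v (mem_filter.1 hv).1, (L v).ef, ← (mem_filter.1 hv).2, ← (L v).V_p, ← zpow_natCast,
      ← zpow_natCast, ← zpow_mul, ← zpow_mul]
    congr 1
    push_cast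
    ring
  rw [hr, w.V_rat hr0.ne', prod_congr rfl e, crd_prod _ (inv_ne_zero p0), inv_zpow, inv_inj] at h
  exact zpow_right_injective₀ (zero_lt_one.trans p1) p1.ne' h

theorem sum_theta_pos {H : Subgroup Gam} (hH : Op H) {n t : ℕ} {θ : ℤ → ZMod (3 ^ t)}
    {χ : Gam → ZMod (3 ^ t)} (hn : 0 < n) (hθ : Dir n θ) (hχ : IsCyc n θ χ) {a : Qbar}
    (ha : Fx H a) {r : ℚ} (hr : nq H a = r) (hr0 : 0 < r)
    (h1 : ∀ w : Plc, w.p ∣ n → w.V (a - 1) ≤ w.V n) (s : Finset Plc) (hs : Apart H s)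
    (h2 : ∀ w ∈ s, ¬ w.p ∣ n) (h3 : ∀ w, Away H s w → w.V a = 1) (L : ∀ w, LD H w) (k : Plc → ℤ)
    (hk : ∀ w ∈ s, w.V a = w.V (L w).π ^ k w) : ∑ w ∈ s, χ (L w).φ * k w = 0 := by
  have key := hθ.sum_val hn hr0 (fun p hp hpn => ?_) (s.image Plc.p) (fun p hp => ?_)
    (fun p hp hB => ?_)
  · rw [← sum_fiberwise_of_maps_to (g := Plc.p) (t := s.image Plc.p)
      fun w hw => mem_image_of_mem _ hw, ← key]
    refine sum_congr rfl fun p hp => ?_
    obtain ⟨w, -, rfl⟩ := mem_image.1 hp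
    rw [crd_val hH ha hr hr0 s hs h3 L k hk w.prime, Int.cast_sum, sum_mul]
    refine sum_congr rfl fun v hv => ?_
    have hv1 := h2 v (mem_filter.1 hv).1
    rw [hχ.frob v _ _ hv1 (L v).frob, Nat.cast_pow,
      hθ.pow (Nat.isCoprime_iff_coprime.2 (v.prime.coprime_iff_not_dvd.2 hv1)), (mem_filter.1 hv).2]
    push_cast
    ring
  · obtain ⟨w, rfl⟩ := exists_plc hp
    refine or_iff_not_imp_left.2 fun r1 => ?_
    have p1 := crd_one_lt w
    have p0 := zero_lt_one.trans p1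
    have e1 : w.V n < 1 := lt_of_le_of_ne (by exact_mod_cast w.V_int_le n) fun e =>
      (w.V_int_eq_one (a := n)).1 (by exact_mod_cast e) (by exact_mod_cast hpn)
    have h := nq_near hH w e1 fun v hv => (h1 v (hv ▸ hpn)).trans_eq (by
      rw [crd_nat v hn, crd_nat w hn, hv])
    have e2 := w.V_rat (sub_ne_zero.2 r1)
    rw [Rat.cast_sub, Rat.cast_one] at e2
    rwa [hr, e2, crd_nat w hn, inv_le_inv₀ (zpow_pos p0 _) (zpow_pos p0 _),
      zpow_le_zpow_iff_right₀ p1] at h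
  · obtain ⟨w, -, rfl⟩ := mem_image.1 hp
    exact w.prime
  · rw [crd_val hH ha hr hr0 s hs h3 L k hk hp]
    exact sum_eq_zero fun v hv =>
      absurd (mem_image.2 ⟨v, (mem_filter.1 hv).1, (mem_filter.1 hv).2⟩) hB

theorem sum_theta {H : Subgroup Gam} (hH : Op H) {n t : ℕ} {θ : ℤ → ZMod (3 ^ t)}
    {χ : Gam → ZMod (3 ^ t)} (hn : 0 < n) (hθ : Dir n θ) (hχ : IsCyc n θ χ) {a : Qbar}
    (ha : Fx H a) (a0 : a ≠ 0) (h1 : ∀ w : Plc, w.p ∣ n → w.V (a - 1) ≤ w.V n) (s : Finset Plc)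
    (hs : Apart H s) (h2 : ∀ w ∈ s, ¬ w.p ∣ n) (h3 : ∀ w, Away H s w → w.V a = 1)
    (L : ∀ w, LD H w) (k : Plc → ℤ) (hk : ∀ w ∈ s, w.V a = w.V (L w).π ^ k w) :
    ∑ w ∈ s, χ (L w).φ * k w = 0 := by
  obtain ⟨r, hr⟩ := nq_rat hH ha
  have r0 : r ≠ 0 := fun e => nq_ne hH a0 (by rw [hr, e, Rat.cast_zero])
  have key := sum_theta_pos hH hn hθ hχ (a := a ^ 2) (fun g hg => by rw [map_pow, ha g hg])
    (r := r ^ 2) (by
      let _ := crcFin hH
      rw [Rat.cast_pow, ← hr, crc_prod, crc_prod, ← prod_pow]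
      exact prod_congr rfl fun y _ => map_pow _ _ _) (by positivity) (fun w hw => by
      have k1 : w.V (a - 1 + (2 : ℤ)) ≤ 1 :=
        w.V.map_add_le ((h1 w hw).trans (by exact_mod_cast w.V_int_le n)) (w.V_int_le 2)
      rw [show a ^ 2 - 1 = (a - 1) * (a - 1 + (2 : ℤ)) by push_cast; ring, map_mul]
      exact (mul_le_of_le_one_right' k1).trans (h1 w hw)) s hs h2
    (fun w hw => by rw [map_pow, h3 w hw, one_pow]) L (fun w => k w * 2)
    fun w hw => by rw [map_pow, hk w hw, zpow_mul]; rfl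
  have u : IsUnit ((2 : ℕ) : ZMod (3 ^ t)) :=
    (ZMod.isUnit_iff_coprime _ _).2 (Nat.Coprime.pow_right _ (by norm_num))
  refine u.mul_left_eq_zero.1 ?_
  rw [← key, sum_mul]
  exact sum_congr rfl fun w _ => by push_cast; ring

end Pool.Agent.H3
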