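import Pool.Agent.Lib.MP_696deb_nt.B2.D0

/-! The statements of class field theory and duality at the prime three. -/

set_option autoImplicit false

open scoped NNReal Classical
open Filter Topology Finset

namespace Pool.Agent.H3

open Pool.Agent.Lib.MP_696deb_nt.B2

theorem exists_omega : ∃ x : Qbar, x ^ 2 + x + 1 = 0 := by
  obtain ⟨r, hr⟩ := IsAlgClosed.exists_pow_nat_eq (-3 : Qbar) two_pos
  exact ⟨(r - 1) / 2, by linear_combination hr / 4⟩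

/-- A compatible system of primitive roots of unity of three-power order. -/
noncomputable def zeta : ℕ → Qbar
  | 0 => 1
  | 1 => exists_omega.choose
  | m + 2 => (IsAlgClosed.exists_pow_nat_eq (zeta (m + 1)) three_pos).choose

/-- The three-adic cyclotomic character. -/
noncomputable def cyc (g : Gam) : ℤ_[3] := (cyclotomicCharacter Qbar 3 g.toRingEquiv : ℤ_[3]ˣ)

/-- Its reduction. -/
noncomputable def cy (m : ℕ) (g : Gam) : ZMod (3 ^ m) := PadicInt.toZModPow m (cyc g)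

/-- Generators of the pro-three part of the inertia group at a place not above three. -/
def Gen (w : Plc) (τ : Gam) : Prop := τ ∈ Ine w ∧ ∀ r : Qbar, r ^ 3 = w.p → τ r ≠ r

/-- Smooth two-cocycles with values in the roots of unity of order `3 ^ m`, written additively. -/
def C2 (m : ℕ) (H : Subgroup Gam) (c : Gam → Gam → ZMod (3 ^ m)) : Prop :=
  Sm2 H c ∧ ∀ g ∈ H, ∀ h ∈ H, ∀ k ∈ H, cy m g * c h k + c g (h * k) = c (g * h) k + c g h

/-- Coboundaries. -/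
def Spl (m : ℕ) (H : Subgroup Gam) (c : Gam → Gam → ZMod (3 ^ m)) : Prop :=
  ∃ b : Gam → ZMod (3 ^ m), Sm H b ∧ ∀ g ∈ H, ∀ h ∈ H, c g h = b g + cy m g * b h - b (g * h)

/-- `κ` is a Kummer cocycle of `a` on `H`. -/
def Kum (m : ℕ) (H : Subgroup Gam) (a : Qbar) (κ : Gam → ZMod (3 ^ m)) : Prop :=
  ∃ r : Qbar, r ≠ 0 ∧ r ^ 3 ^ m = a ∧ ∀ h ∈ H, h r = r * zeta m ^ (κ h).val

/-- The cup product of a character and a Kummer cocycle. -/
noncomputable def cup (m : ℕ) (χ κ : Gam → ZMod (3 ^ m)) (g h : Gam) : ZMod (3 ^ m) :=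
  χ g * cy m g * κ h

/-- Local invariants of three-primary Brauer classes, with the reciprocity law. -/
structure CFT where
  inv : (m : ℕ) → Subgroup Gam → Plc → (Gam → Gam → ZMod (3 ^ m)) → ZMod (3 ^ m)
  add : ∀ {m H w c c'}, Op H → C2 m (H ⊓ Dec w) c → C2 m (H ⊓ Dec w) c' →
    inv m H w (c + c') = inv m H w c + inv m H w c'
  congr : ∀ {m H w c c'}, (∀ g ∈ H ⊓ Dec w, ∀ h ∈ H ⊓ Dec w, c g h = c' g h) →
    inv m H w c = inv m H w c'
  zero_iff : ∀ {m H w c}, Op H → C2 m (H ⊓ Dec w) c →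
    (inv m H w c = 0 ↔ Spl m (H ⊓ Dec w) c)
  red : ∀ {m m' H w c} (h : m' ≤ m), Op H → C2 m (H ⊓ Dec w) c →
    inv m' H w (fun g k => ZMod.castHom (pow_dvd_pow 3 h) (ZMod (3 ^ m')) (c g k)) =
      ZMod.castHom (pow_dvd_pow 3 h) (ZMod (3 ^ m')) (inv m H w c)
  inc : ∀ {m H w c} (n : ℕ), Op H → C2 m (H ⊓ Dec w) c →
    inv (m + n) H w (fun g k => 3 ^ n * ((c g k).val : ZMod (3 ^ (m + n)))) =
      3 ^ n * ((inv m H w c).val : ZMod (3 ^ (m + n)))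
  res : ∀ {m H H' w c}, Op H' → H' ≤ H → C2 m (H ⊓ Dec w) c →
    inv m H' w c = ((H' ⊓ Dec w).relIndex (H ⊓ Dec w) : ZMod (3 ^ m)) * inv m H w c
  conj : ∀ {m H w c} (g : Gam), Op H → H.Normal → C2 m (H ⊓ Dec w) c →
    inv m H (g • w) (fun x y => cy m g * c (g⁻¹ * x * g) (g⁻¹ * y * g)) = inv m H w c
  unr : ∀ {m H w c}, Op H → C2 m (H ⊓ Dec w) c →
    (∀ g ∈ H ⊓ Dec w, ∀ h ∈ H ⊓ Dec w, ∀ σ ∈ H ⊓ Ine w, ∀ σ' ∈ H ⊓ Ine w,
      c (g * σ) (h * σ') = c g h) → inv m H w c = 0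
  kum : ∀ {m H w χ κ a φ} (k : ℤ), Op H → Ine w ≤ H → φ ∈ H →
    IsFrob w (w.p ^ (H ⊓ Dec w).relIndex (Dec w)) φ → Sm (H ⊓ Dec w) χ → IsHom (H ⊓ Dec w) χ →
    (∀ σ ∈ Ine w, χ σ = 0) → Kum m (H ⊓ Dec w) a κ → w.V a = ((w.p : ℝ≥0) ^ k)⁻¹ →
    inv m H w (cup m χ κ) = χ φ * k
  unit : ∀ {m H w χ κ a}, Op H → Sm (H ⊓ Dec w) χ → IsHom (H ⊓ Dec w) χ →
    (∀ σ ∈ H ⊓ Ine w, χ σ = 0) → Kum m (H ⊓ Dec w) a κ → w.V a = 1 → inv m H w (cup m χ κ) = 0
  crit : ∀ {m H w χ}, Op H → Sm (H ⊓ Dec w) χ → IsHom (H ⊓ Dec w) χ →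
    (∀ a κ, Fx H a → w.V a = 1 → Kum m H a κ → inv m H w (cup m χ κ) = 0) →
    ∀ σ ∈ H ⊓ Ine w, χ σ = 0
  recip : ∀ {m H c} (s : Finset Plc), Op H → C2 m H c → Apart H s →
    (∀ w, Away H s w → inv m H w c = 0) → ∑ w ∈ s, inv m H w c = 0
  abhn : ∀ {m H c}, Op H → C2 m H c → (∀ w, inv m H w c = 0) → Spl m H c

/-- The number of units outside a finite set of places, modulo cubes. -/
def SUStmt : Prop := ∀ (H : Subgroup Gam) (s : Finset Plc) (N : ℕ), Op H → TC H → Apart H s →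
  (N + 1 = H.index / 2 + s.card ∨ N = H.index / 2 + s.card ∧ H ≤ GK 3) → ∃ a : Fin N → Qbar,
    (∀ i, a i ≠ 0 ∧ Fx H (a i) ∧ ∀ w, Away H s w → w.V (a i) = 1) ∧
    ∀ t : Fin N → ZMod 3, (∃ b, Fx H b ∧ ∏ i, a i ^ (t i).val = b ^ 3) → t = 0

/-- The density theorem of Frobenius for elements whose order divides twice a power of three. -/
def ChebStmt : Prop := ∀ (U : Subgroup Gam) (s : Gam) (k : ℕ) (B : Finset ℕ),
  Op U → U.Normal → s ^ (2 * 3 ^ k) ∈ U →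
  ∃ (w : Plc) (φ : Gam) (a : ℕ), w.p ∉ B ∧ IsFrob w w.p φ ∧ a.Coprime 6 ∧ φ⁻¹ * s ^ a ∈ U

section

variable {M M' : Type} [AddCommGroup M] [AddCommGroup M']

/-- An action of `H` that factors through a finite three-group on the elements that fix the cube
roots of unity. -/
structure Act (H : Subgroup Gam) (a : Gam → M →+ M) : Prop where
  sm : Sm H a
  one : ∀ x, a 1 x = x
  mul : ∀ g ∈ H, ∀ h ∈ H, ∀ x, a (g * h) x = a g (a h x)
  three : ∀ g ∈ H, g ∈ GK 3 → ∃ n : ℕ, ∀ x, a (g ^ 3 ^ n) x = x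

/-- Smooth one-cocycles on `H`. -/
def Coc (H : Subgroup Gam) (a : Gam → M →+ M) (c : Gam → M) : Prop :=
  Sm H c ∧ ∀ g ∈ H, ∀ h ∈ H, c (g * h) = c g + a g (c h)

theorem Coc.zero (H : Subgroup Gam) (a : Gam → M →+ M) : Coc H a 0 :=
  ⟨⟨⊤, isOpen_univ, inferInstance, fun _ _ _ _ _ => rfl⟩, by simp⟩

theorem Coc.add {H : Subgroup Gam} {a : Gam → M →+ M} {c c' : Gam → M} (h : Coc H a c)
    (h' : Coc H a c') : Coc H a (c + c') := by
  obtain ⟨⟨U, u1, u2, u3⟩, h⟩ := h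
  obtain ⟨⟨V, v1, v2, v3⟩, h'⟩ := h'
  refine ⟨⟨U ⊓ V, u1.inter v1, inferInstance, fun g hg k hk e => ?_⟩, fun g hg k hk => ?_⟩
  · rw [Pi.add_apply, Pi.add_apply, u3 g hg k hk e.1, v3 g hg k hk e.2]
  · simp only [Pi.add_apply, h g hg k hk, h' g hg k hk, map_add]
    abel

theorem Coc.neg {H : Subgroup Gam} {a : Gam → M →+ M} {c : Gam → M} (h : Coc H a c) :
    Coc H a (-c) := by
  obtain ⟨⟨U, u1, u2, u3⟩, h⟩ := h
  refine ⟨⟨U, u1, u2, fun g hg k hk e => ?_⟩, fun g hg k hk => ?_⟩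
  · rw [Pi.neg_apply, Pi.neg_apply, u3 g hg k hk e]
  · simp only [Pi.neg_apply, h g hg k hk, map_neg]
    abel

/-- The group of cocycles, normalised to vanish outside of `H`. -/
def Z1 (H : Subgroup Gam) (a : Gam → M →+ M) : AddSubgroup (Gam → M) where
  carrier := {c | Coc H a c ∧ ∀ g ∉ H, c g = 0}
  zero_mem' := ⟨Coc.zero H a, fun _ _ => rfl⟩
  add_mem' := fun h h' => ⟨h.1.add h'.1, fun g hg => by
    rw [Pi.add_apply, h.2 g hg, h'.2 g hg, add_zero]⟩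
  neg_mem' := fun h => ⟨h.1.neg, fun g hg => by rw [Pi.neg_apply, h.2 g hg, neg_zero]⟩

/-- Restriction to `D`, extended by zero. -/
noncomputable def rs (D : Subgroup Gam) : (Gam → M) →+ (Gam → M) where
  toFun c g := if g ∈ D then c g else 0
  map_zero' := funext fun g => by simp
  map_add' c c' := funext fun g => by
    by_cases h : g ∈ D <;> simp [h]

theorem rs_of_mem {D : Subgroup Gam} {g : Gam} (h : g ∈ D) (c : Gam → M) : rs D c g = c g :=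
  if_pos h

theorem rs_of_notMem {D : Subgroup Gam} {g : Gam} (h : g ∉ D) (c : Gam → M) : rs D c g = 0 :=
  if_neg h

/-- Coboundaries. -/
def cob (a : Gam → M →+ M) (x : M) (g : Gam) : M := a g x - x

/-- The cup product along a pairing. -/
def cupb {m : ℕ} (b : M →+ M' →+ ZMod (3 ^ m)) (a' : Gam → M' →+ M') (c : Gam → M) (c' : Gam → M')
    (g h : Gam) : ZMod (3 ^ m) := b (c g) (a' g (c' h))

/-- Two modules in duality with values in the roots of unity of order `3 ^ m`. -/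
structure Dual (m : ℕ) (H : Subgroup Gam) (a : Gam → M →+ M) (a' : Gam → M' →+ M')
    (b : M →+ M' →+ ZMod (3 ^ m)) : Prop where
  act : Act H a
  act' : Act H a'
  eqv : ∀ g ∈ H, ∀ x y, b (a g x) (a' g y) = cy m g * b x y
  left : ∀ x, (∀ y, b x y = 0) → x = 0
  right : ∀ y, (∀ x, b x y = 0) → y = 0

/-- The cocycles that are unramified away from `s`. -/
def Zu (H : Subgroup Gam) (a : Gam → M →+ M) (s : Finset Plc) : AddSubgroup (Gam → M) where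
  carrier := {c | c ∈ Z1 H a ∧ ∀ w, Away H s w → ∀ σ ∈ H ⊓ Ine w, c σ = 0}
  zero_mem' := ⟨zero_mem _, fun _ _ _ _ => rfl⟩
  add_mem' := fun h h' => ⟨add_mem h.1 h'.1, fun w hw σ hσ => by
    simp [h.2 w hw σ hσ, h'.2 w hw σ hσ]⟩
  neg_mem' := fun h => ⟨neg_mem h.1, fun w hw σ hσ => by simp [h.2 w hw σ hσ]⟩

theorem mem_Zu {H : Subgroup Gam} {a : Gam → M →+ M} {s : Finset Plc} {c : Gam → M} :
    c ∈ Zu H a s ↔ c ∈ Z1 H a ∧ ∀ w, Away H s w → ∀ σ ∈ H ⊓ Ine w, c σ = 0 := Iff.rfl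

/-- Away from `s` no place lies above three and inertia acts trivially. -/
def GoodA (H : Subgroup Gam) (a : Gam → M →+ M) (s : Finset Plc) : Prop :=
  ∀ w, Away H s w → w.p ≠ 3 ∧ ∀ σ ∈ H ⊓ Ine w, ∀ x, a σ x = x

/-- `c` is a coboundary on `D`. -/
def IsCob (D : Subgroup Gam) (a : Gam → M →+ M) (c : Gam → M) : Prop :=
  ∃ x, ∀ g ∈ D, c g = cob a x g

end

/-- Local duality. -/
def LDStmt (F : CFT) : Prop := ∀ (m : ℕ) (H : Subgroup Gam) (w : Plc) (M M' : Type)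
  [AddCommGroup M] [AddCommGroup M'] [Finite M] [Finite M'] (a : Gam → M →+ M)
  (a' : Gam → M' →+ M') (b : M →+ M' →+ ZMod (3 ^ m)), Op H → H.Normal →
  Dual m (H ⊓ Dec w) a a' b → Finite (Z1 (H ⊓ Dec w) a) ∧ ∀ c, Coc (H ⊓ Dec w) a c →
    (∀ c', Coc (H ⊓ Dec w) a' c' → F.inv m H w (cupb b a' c c') = 0) → IsCob (H ⊓ Dec w) a c

/-- Global duality. -/
def PTStmt (F : CFT) : Prop := ∀ (m : ℕ) (H : Subgroup Gam) (M M' : Type)
  [AddCommGroup M] [AddCommGroup M'] [Finite M] [Finite M'] (a : Gam → M →+ M)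
  (a' : Gam → M' →+ M') (b : M →+ M' →+ ZMod (3 ^ m)) (s : Finset Plc), Op H → H.Normal → TC H →
  Dual m H a a' b → Apart H s → GoodA H a s → Finite (Zu H a s) ∧ ∀ x : Plc → Gam → M,
    (∀ w ∈ s, Coc (H ⊓ Dec w) a (x w)) →
    (∀ c' ∈ Zu H a' s, ∑ w ∈ s, F.inv m H w (cupb b a' (x w) c') = 0) →
    ∃ c ∈ Zu H a s, ∀ w ∈ s, IsCob (H ⊓ Dec w) a (c - x w)

end Pool.Agent.H3
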