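import Mathlib

/-! The algebraic interface: systems of skew matrices over quotients of the ring of power series,
and the statement `PAStmt`. -/

set_option autoImplicit false

open scoped Classical
open Finset Matrix PowerSeries

namespace Pool.Agent.H3

/-- The ring of power series over the three-adic integers. -/
abbrev Lam : Type := PowerSeries ℤ_[3]

noncomputable instance lamCommRing : CommRing Lam := MvPowerSeries.instCommRing
noncomputable instance lamRing : Ring Lam := CommRing.toRing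
noncomputable instance lamCommSemiring : CommSemiring Lam := CommRing.toCommSemiring
noncomputable instance lamSemiring : Semiring Lam := CommSemiring.toSemiring
noncomputable instance lamAddCommGroup : AddCommGroup Lam := Ring.toAddCommGroup
noncomputable instance lamAddCommMonoid : AddCommMonoid Lam := Semiring.toAddCommMonoid
noncomputable instance lamAlgebra : Algebra Lam Lam := Algebra.id Lam
noncomputable instance lamNatAlgebra : Algebra ℕ Lam := Semiring.toNatAlgebra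
noncomputable instance lamIntAlgebra : Algebra ℤ Lam := Ring.toIntAlgebra Lam

/-- The ideal generated by `3 ^ j` and `X ^ i`. -/
noncomputable def aa (j i : ℕ) : Ideal Lam := Ideal.span {3 ^ j, X ^ i}

/-- The finite coefficient rings. -/
abbrev Ak (k : ℕ) : Type := Lam ⧸ aa k k

/-- The class of `1 + X`. -/
noncomputable def tk (k : ℕ) : Ak k := Ideal.Quotient.mk _ (1 + X)

/-- The value at zero. -/
noncomputable def evk (k : ℕ) : Ak k →+* ZMod (3 ^ k) :=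
  Ideal.Quotient.lift _ ((PadicInt.toZModPow k).comp constantCoeff) fun a ha => by
    refine Submodule.span_induction (p := fun a _ => (PadicInt.toZModPow k).comp constantCoeff a = 0)
      ?_ (map_zero _) (fun x y _ _ hx hy => by rw [map_add, hx, hy, add_zero])
      (fun x y _ hy => by rw [smul_eq_mul, map_mul, hy, mul_zero]) ha
    rintro x (rfl | rfl)
    · rw [map_pow, map_ofNat]
      exact_mod_cast ZMod.natCast_self (3 ^ k)
    · rcases eq_or_ne k 0 with rfl | hi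
      · exact Subsingleton.elim (α := ZMod 1) _ _
      · simp [hi]

/-- The index set after `m` steps. -/
def Ix (ι : Type) : ℕ → Type
  | 0 => ι
  | m + 1 => Ix ι m ⊕ Fin 2

instance instFintypeIx (ι : Type) [Fintype ι] : ∀ m, Fintype (Ix ι m)
  | 0 => ‹Fintype ι›
  | m + 1 => @instFintypeSum _ _ (instFintypeIx ι m) _

/-- The type of an index. -/
def tyX {ι : Type} (ty : ι → Fin 2) : ∀ m, Ix ι m → Fin 2
  | 0 => ty
  | m + 1 => Sum.elim (tyX ty m) id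

section

variable {O : Type} [CommRing O] {ι : Type} [Fintype ι]

/-- The matrix of complex conjugation. -/
def tauM (O : Type) [CommRing O] : Matrix (Fin 2) (Fin 2) O := !![-1, 0; 0, 1]

/-- The matrix that exchanges the coordinates. -/
def swM (O : Type) [CommRing O] : Matrix (Fin 2) (Fin 2) O := !![0, 1; 1, 0]

/-- The matrix `M'` extends the matrix `M` by the rows `v`. -/
def StM (v : Matrix (Fin 2) ι O) (M : Matrix ι ι O) (M' : Matrix (ι ⊕ Fin 2) (ι ⊕ Fin 2) O) : Prop :=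
  ∃ (u : Oˣ) (C : Matrix (Fin 2) (Fin 2) O),
    M' = fromBlocks M (-((u : O) • (swM O * v))ᵀ) ((u : O) • (swM O * v)) C

/-- The relation of Kolyvagin between two vectors. -/
def StK (v : Matrix (Fin 2) ι O) (κ : ι → O) (κ' : ι ⊕ Fin 2 → O) : Prop :=
  ∃ w : Oˣ, κ' ∘ Sum.inr = (w : O) • (tauM O *ᵥ (v *ᵥ κ))

end

/-- The group theoretic data that are common to all branches. -/
structure Fr (G : Type) [Group G] (θ : G →* G) where
  N : Subgroup G
  normal : N.Normal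
  θN : ∀ s ∈ N, θ s ∈ N
  z : G
  y0 : G
  y1 : G
  St : ℕ → Type
  n0 : St 0
  Nx : ∀ {m}, St m → G → St (m + 1) → Prop
  step : ∀ {m} (n : St m), ∀ s ∈ N, ∃ n', Nx n s n'

/-- One branch: universal cocycles and skew matrices. -/
structure Br (O : Type) [CommRing O] (t : O) {G : Type} [Group G] {θ : G →* G} (Φ : Fr G θ)
    (ι : Type) [Fintype ι] where
  act : G →* Matrix (Fin 2) (Fin 2) O
  actN : ∀ s ∈ Φ.N, act s = 1
  act_z : act Φ.z = t • 1
  act_θz : t • act (θ Φ.z) = 1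
  c : ∀ {m}, Φ.St m → G → Matrix (Fin 2) (Ix ι m) O
  M : ∀ {m}, Φ.St m → Matrix (Ix ι m) (Ix ι m) O
  coc : ∀ {m} (n : Φ.St m) g h, c n (g * h) = c n g + act g * c n h
  skew : ∀ {m} (n : Φ.St m), (M n)ᵀ = -M n
  inp : ∀ {m} (n : Φ.St m) i, ∃ s ∈ Φ.N, ∃ j, c n s j = Pi.single i 1
  step : ∀ {m} {n : Φ.St m} {s n'}, Φ.Nx n s n' → StM (c n s + c n (θ s)) (M n) (M n')

/-- A branch with Kolyvagin classes. -/
structure KBr (O : Type) [CommRing O] (t : O) {G : Type} [Group G] {θ : G →* G} (Φ : Fr G θ)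
    (ι : Type) [Fintype ι] extends Br O t Φ ι where
  κ : ∀ {m}, Φ.St m → Ix ι m → O
  ker : ∀ {m} (n : Φ.St m), M n *ᵥ κ n = 0
  kstep : ∀ {m} {n : Φ.St m} {s n'}, Φ.Nx n s n' → StK (c n s + c n (θ s)) (κ n) (κ n')
  act_y0 : ∃ u : Oˣ, act Φ.y0 = (u : O) • tauM O
  act_y1 : IsUnit (act Φ.y1 0 1)

/-- The three branches: the curve, the reference motive, and the split motive. -/
structure Sys (O : Type) [CommRing O] (t : O) (G : Type) [Group G] (θ : G →* G) (e : ℕ)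
    (ι ι0 : Type) [Fintype ι] [Fintype ι0] (ty : ι0 → Fin 2) where
  Φ : Fr G θ
  E : KBr O t Φ ι
  R : KBr O t Φ ι
  Z : Br O t Φ ι0
  irr : E.act Φ.y1 1 0 ∣ 3 ^ e
  cM : ∀ {m} (n : Φ.St m) i j, 3 ∣ E.M n i j - R.M n i j
  cc : ∀ {m} (n : Φ.St m) g i j, 3 ∣ E.c n g i j - R.c n g i j
  cκ : ∀ {m} (n : Φ.St m) i, 3 ∣ E.κ n i - R.κ n i
  blk : ∀ {m} (n : Φ.St m) i j, tyX ty m i = tyX ty m j → Z.M n i j = 0
  pure : ∀ {m} (n : Φ.St m) g i j, tyX ty m j ≠ i → Z.c n g i j = 0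
  T : ∀ {m}, Φ.St m → Matrix (Ix ι0 m) (Ix ι m) O
  T_ty : ∀ {m} (n : Φ.St m) i, tyX ty m i = 1 → T n i = 0
  T_inr : ∀ {m} (n : Φ.St (m + 1)),
    T n (Sum.inr 0) = Pi.single (M := fun _ => O) (Sum.inr 0 : Ix ι m ⊕ Fin 2) ((t - 1) ^ 3)
  trM : ∀ {m} (n : Φ.St m) i, ∃ a, ∃ s ∈ Φ.N, (Z.M n * T n) i = a ᵥ* R.M n + R.c n s 1
  trc : ∀ {m} (n : Φ.St m), ∀ s ∈ Φ.N, ∃ a, ∃ s' ∈ Φ.N,
    (Z.c n s * T n) 0 = (t - 1) ^ 3 • R.c n s 0 + a ᵥ* R.M n + R.c n s' 1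

/-- The data at the trivial character. -/
structure Zero (k : ℕ) {ι : Type} [Fintype ι] (M : Matrix ι ι (Ak k)) (κ : ι → Ak k) where
  v : Matrix (Fin 2) ι (ZMod (3 ^ k))
  P : Matrix (ι ⊕ Fin 2) (ι ⊕ Fin 2) (ZMod (3 ^ k))
  y : ι ⊕ Fin 2 → ZMod (3 ^ k)
  skew : Pᵀ = -P
  ker : P *ᵥ y = 0
  stM : StM v (M.map (evk k)) P
  stK : StK v (evk k ∘ κ) y

/-- The number of elements of the kernel that are killed by `3 ^ j`. -/
noncomputable def cnt {k : ℕ} {ι : Type} [Fintype ι] (P : Matrix ι ι (ZMod (3 ^ k))) (j : ℕ) : ℕ :=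
  Nat.card {x : ι → ZMod (3 ^ k) // P *ᵥ x = 0 ∧ 3 ^ j • x = 0}

/-- The data at level `k`. -/
structure Lev (G : Type) [Group G] (θ : G →* G) (e k : ℕ) (ι ι0 : Type) [Fintype ι] [Fintype ι0]
    (ty : ι0 → Fin 2) (μ : ℤ) (s f o : ℕ) where
  S : Sys (Ak k) (tk k) G θ e ι ι0 ty
  ZE : Zero k (ι := ι) (S.E.M S.Φ.n0) (S.E.κ S.Φ.n0)
  ZR : Zero k (ι := ι) (S.R.M S.Φ.n0) (S.R.κ S.Φ.n0)
  g : ι ⊕ Fin 2 → ZMod (3 ^ k)
  g_ker : ZE.P *ᵥ g = 0
  g_prim : ∃ i, IsUnit (g i)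
  g_loc : ∃ i, ¬ 3 ^ e ∣ g (Sum.inr i)
  y_eq : ZE.y = μ • g
  cntE : ∀ j, e ≤ j → j ≤ k → cnt ZE.P j = 3 ^ (j + s)
  y_loc : ∃ i, ¬ 3 ^ e ∣ ZR.y (Sum.inr i)
  d : ι ⊕ Fin 2 → ZMod (3 ^ k)
  d_inj : ∀ x, ZR.P *ᵥ x = 0 → d ⬝ᵥ x = 0 → 3 ^ e • x = 0
  d_dvd : ∀ x, 3 ^ (k - e) • (ZR.P *ᵥ x) = 0 → 3 ^ o ∣ d ⬝ᵥ x
  d_y : ¬ 3 ^ (f + o + 1) ∣ d ⬝ᵥ ZR.y
  cntR : ∀ j, e ≤ j → j ≤ k → 3 ^ (j + 2 * f) ≤ cnt ZR.P j

/-- The result of the patching argument. -/
def PAStmt : Prop := ∀ (G : Type) [Group G] (θ : G →* G) (e : ℕ) (ι ι0 : Type) [Fintype ι]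
  [Fintype ι0] (ty : ι0 → Fin 2) (μ : ℤ) (s f o : ℕ) (lv : ℕ → ℕ), (∀ k, k < lv k) →
  (univ.filter fun i => ty i = 0).card ≤ (univ.filter fun i => ty i = 1).card + 1 →
  (∀ k, Lev G θ e (lv k) ι ι0 ty μ s f o) → μ ≠ 0 ∧ s = 2 * padicValInt 3 μ

end Pool.Agent.H3
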