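import Pool.Agent.Lib.MP_23455a_nt.H3.BAa
import Pool.Agent.Lib.MP_23455a_nt.H3.PA0
import Pool.Agent.Lib.MP_696deb_nt.B2.B4a
import Pool.Agent.Lib.MP_696deb_nt.B2.B4c

/-! Frobenius elements, generators of inertia, the Kummer cocycle of three, and representations of
rank two. -/

set_option autoImplicit false

open scoped NNReal Classical NumberTheorySymbols
open Filter Topology Finset Matrix

namespace Pool.Agent.H3

open Pool.Agent.Lib.MP_696deb_nt.B2

theorem cc_inv : cc⁻¹ = cc := inv_eq_of_mul_eq_one_right cc_mul_cc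

theorem conj_cc_mem {n : ℕ} {g : Gam} (hg : g ∈ GK n) : cc * g * cc ∈ GK n := by
  simpa only [cc_inv] using (normal_GK n).conj_mem g hg cc

theorem d0b_ndvd {w : Plc} (hw : w.p ≠ 3) (m : ℕ) : ¬ w.p ∣ 3 ^ m := fun e =>
  hw ((Nat.prime_dvd_prime_iff_eq w.prime Nat.prime_three).1 (w.prime.dvd_of_dvd_pow e))

theorem zeta_val_pow (m : ℕ) (a : ZMod (3 ^ m)) : (zeta m ^ a.val) ^ 3 ^ m = 1 := by
  rw [pow_right_comm, (zeta_prim m).pow_eq_one, one_pow]

theorem zeta_ne (m : ℕ) : zeta m ≠ 0 := (zeta_prim m).ne_zero (pow_ne_zero m three_ne_zero)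

theorem d0b_cyc_frob {w : Plc} {φ : Gam} {n : ℕ} (hw : w.p ≠ 3) (hφ : IsFrob w n φ) : cyc φ = n := by
  refine PadicInt.ext_of_toZModPow.1 fun m => ?_
  rw [map_natCast]
  exact b1b_cy_eq (b3a_frob hφ (d0b_ndvd hw m) (zeta_prim m).pow_eq_one)

theorem d0b_cyc_ine {w : Plc} {g : Gam} (hw : w.p ≠ 3) (hg : g ∈ Ine w) : cyc g = 1 := by
  simpa using d0b_cyc_frob hw (isFrob_one.2 hg)

theorem d0b_ine_zero {w : Plc} (hw : w.p ≠ 3) {m : ℕ} {c : ZMod (3 ^ m)} {σ : Gam} (hσ : σ ∈ Ine w)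
    {u : Qbar} (hu : w.V u = 1) (h : σ u = u * zeta m ^ c.val) : c = 0 := by
  refine zeta_val_inj (m := m) ?_
  rw [ZMod.val_zero, pow_zero]
  exact w.eq_one_of_root (d0b_ndvd hw m) (zeta_val_pow m c) (b4a_unit hσ hu h)

/-- A number whose valuation is not integral is moved by inertia. -/
theorem exists_ine_ne {w : Plc} {x : Qbar} {a b : ℕ} (a0 : a ≠ 0) (hb : ¬ a ∣ b)
    (h : w.V x ^ a = w.V w.p ^ b) : ∃ σ ∈ Ine w, σ x ≠ x := by
  by_contra! k
  have h1 := b2a_one_lt w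
  have p0 : (w.p : ℝ≥0) ≠ 0 := (zero_lt_one.trans h1).ne'
  have x0 : x ≠ 0 := by
    rintro rfl
    rw [map_zero, zero_pow a0, w.hV] at h
    exact pow_ne_zero b (inv_ne_zero p0) h.symm
  obtain ⟨j, hj⟩ := V_of_fx_ine (w := w) k x0
  rw [hj, w.hV, inv_pow, inv_pow, _root_.inv_inj, ← zpow_natCast, ← zpow_natCast,
    ← _root_.zpow_mul] at h
  have := zpow_right_injective₀ (zero_lt_one.trans h1) h1.ne' h
  exact hb (Int.natCast_dvd_natCast.1 ⟨j, by rw [← this, mul_comm]⟩)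

theorem d0b_exists_gen {w : Plc} (hw : w.p ≠ 3) : ∃ τ, Gen w τ := by
  obtain ⟨r, hr⟩ := IsAlgClosed.exists_pow_nat_eq (w.p : Qbar) three_pos
  obtain ⟨τ, h1, h2⟩ := exists_ine_ne (w := w) (x := r) (a := 3) (b := 1) three_ne_zero
    (by norm_num) (by rw [← map_pow, hr, pow_one])
  have p0 : (w.p : Qbar) ≠ 0 := Nat.cast_ne_zero.2 w.prime.ne_zero
  have r0 : r ≠ 0 := by
    rintro rfl
    exact p0 (by rw [← hr]; norm_num)
  refine ⟨τ, h1, fun s hs e => h2 ?_⟩
  have h3 : (s / r) ^ 3 ^ 1 = 1 := by rw [pow_one, div_pow, hs, hr, div_self p0]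
  have h4 := b3a_frob (isFrob_one.2 h1) (d0b_ndvd hw 1) h3
  have s0 : s ≠ 0 := by
    rintro rfl
    simp at h3
  rw [pow_one, map_div₀, e, div_eq_div_iff ((map_ne_zero τ).2 r0) r0] at h4
  exact (mul_left_cancel₀ s0 h4).symm

/-- A Frobenius element. -/
noncomputable def fr (w : Plc) : Gam := (exists_frob w).choose

theorem fr_spec (w : Plc) : IsFrob w w.p (fr w) := (exists_frob w).choose_spec

/-- Its square. -/
noncomputable def fq (w : Plc) : Gam := fr w * fr w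

/-- A generator of the pro-three part of the inertia group. -/
noncomputable def gn (w : Plc) : Gam := if h : w.p ≠ 3 then (d0b_exists_gen h).choose else 1

theorem gn_spec {w : Plc} (h : w.p ≠ 3) : Gen w (gn w) := by
  rw [gn, dif_pos h]
  exact (d0b_exists_gen h).choose_spec

/-- A place above three. -/
noncomputable def w3 : Plc := (exists_plc Nat.prime_three).choose

theorem w3_p : w3.p = 3 := (exists_plc Nat.prime_three).choose_spec

/-- An element as a member of the group of the quadratic field. -/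
noncomputable def toK (n : ℕ) (g : Gam) : GK n := if h : g ∈ GK n then ⟨g, h⟩ else 1

theorem toK_coe {n : ℕ} {g : Gam} (h : g ∈ GK n) : (toK n g : Gam) = g := by rw [toK, dif_pos h]

/-- Complex conjugation on the group of the quadratic field. -/
noncomputable def thK (n : ℕ) : GK n →* GK n where
  toFun g := ⟨cc * g * cc, conj_cc_mem g.2⟩
  map_one' := Subtype.ext (by simp [cc_mul_cc])
  map_mul' g h := Subtype.ext (by simp [mul_assoc, ← mul_assoc cc cc, cc_mul_cc])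

theorem thK_coe {n : ℕ} (g : GK n) : (thK n g : Gam) = cc * g * cc := rfl

theorem exists_lim (a : ∀ m : ℕ, ZMod (3 ^ m)) (h : ∀ m,
    ZMod.castHom (pow_dvd_pow 3 (Nat.le_succ m)) (ZMod (3 ^ m)) (a (m + 1)) = a m) :
    ∃ x : ℤ_[3], ∀ m, PadicInt.toZModPow m x = a m :=
  ⟨_, fun m => (PadicInt.toZModPow_ofIntSeq_of_pow_dvd_sub (fun m => (a m).val) 3 (fun i => by
    have := (ZMod.intCast_eq_intCast_iff_dvd_sub (a i).val (a (i + 1)).val (3 ^ i)).1 (by
      simpa using (h i).symm)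
    exact_mod_cast this) m).trans (by
      rw [Int.cast_natCast, ZMod.natCast_zmod_val])⟩

theorem cc_cc (x : Qbar) : cc (cc x) = x := by
  rw [← AlgEquiv.mul_apply, cc_mul_cc, AlgEquiv.one_apply]

theorem exists_real_cbrt (a : {x : Qbar // cc x = x}) :
    ∃ r : {x : Qbar // cc x = x}, r.1 ^ 3 = a.1 := by
  obtain ⟨a, h⟩ := a
  obtain ⟨r, hr⟩ := IsAlgClosed.exists_pow_nat_eq a three_pos
  refine ⟨⟨a / (r * cc r), by rw [map_div₀, map_mul, cc_cc, h, mul_comm]⟩, ?_⟩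
  rcases eq_or_ne a 0 with rfl | a0
  · simp
  · simp only [div_pow, mul_pow, ← map_pow, hr, h]
    field_simp

/-- A compatible system of real roots of three. -/
noncomputable def rt3' : ℕ → {x : Qbar // cc x = x}
  | 0 => ⟨3, map_ofNat cc 3⟩
  | m + 1 => (exists_real_cbrt (rt3' m)).choose

/-- The real root of three of order `3 ^ m`. -/
noncomputable def rt3 (m : ℕ) : Qbar := (rt3' m).1

theorem rt3_cube (m : ℕ) : rt3 (m + 1) ^ 3 = rt3 m := (exists_real_cbrt (rt3' m)).choose_spec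

theorem cc_rt3 (m : ℕ) : cc (rt3 m) = rt3 m := (rt3' m).2

theorem rt3_pow (m : ℕ) : rt3 m ^ 3 ^ m = 3 := by
  induction m with
  | zero => exact pow_one _
  | succ m ih => rw [pow_succ', pow_mul, rt3_cube, ih]

theorem rt3_ne (m : ℕ) : rt3 m ≠ 0 := fun h => by
  have := rt3_pow m
  rw [h, zero_pow (pow_ne_zero m three_ne_zero)] at this
  norm_num at this

theorem exists_kk (g : Gam) : ∃ x : ℤ_[3], ∀ m,
    g (rt3 m) = rt3 m * zeta m ^ (PadicInt.toZModPow m x).val := by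
  have h : ∀ m, ∃ a : ZMod (3 ^ m), g (rt3 m) = rt3 m * zeta m ^ a.val := fun m => by
    obtain ⟨ζ, h1, h2⟩ := b4a_root (rt3_ne m) (rt3_pow m) (map_ofNat g 3)
    obtain ⟨a, rfl⟩ := exists_zeta_val h1
    exact ⟨a, h2⟩
  choose a ha using h
  obtain ⟨x, hx⟩ := exists_lim a fun m => by
    have h1 := congrArg (· ^ 3) (ha (m + 1))
    simp only [← map_pow, mul_pow, rt3_cube] at h1
    rw [pow_right_comm, zeta_succ_cube, ha m, mul_right_inj' (rt3_ne m), ← b1b_zeta_cast m (a (m + 1)).val] at h1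
    rw [zeta_val_inj h1, ZMod.castHom_apply, ZMod.natCast_val]
  exact ⟨x, fun m => hx m ▸ ha m⟩

/-- The three-adic Kummer cocycle of three. -/
noncomputable def kk (g : Gam) : ℤ_[3] := (exists_kk g).choose

/-- Its reduction. -/
noncomputable def km (m : ℕ) (g : Gam) : ZMod (3 ^ m) := PadicInt.toZModPow m (kk g)

theorem km_spec (m : ℕ) (g : Gam) : g (rt3 m) = rt3 m * zeta m ^ (km m g).val :=
  (exists_kk g).choose_spec m

theorem km_eq {m : ℕ} {g : Gam} {a : ZMod (3 ^ m)} (h : g (rt3 m) = rt3 m * zeta m ^ a.val) :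
    km m g = a := zeta_val_inj (mul_left_cancel₀ (rt3_ne m) ((km_spec m g).symm.trans h))

theorem kum_km (m : ℕ) (H : Subgroup Gam) : Kum m H 3 (km m) :=
  ⟨rt3 m, rt3_ne m, rt3_pow m, fun g _ => km_spec m g⟩

theorem km_mul (m : ℕ) (g h : Gam) : km m (g * h) = km m g + cy m g * km m h :=
  km_eq (by rw [AlgEquiv.mul_apply, km_spec m h, map_mul, smul_zeta_val, km_spec m g, zeta_val_add,
    mul_assoc])

theorem kk_mul (g h : Gam) : kk (g * h) = kk g + cyc g * kk h :=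
  PadicInt.ext_of_toZModPow.1 fun m => by
    rw [map_add, map_mul]
    exact km_mul m g h

theorem km_of_fix {m : ℕ} {g : Gam} (h : g (rt3 m) = rt3 m) : km m g = 0 := km_eq (by simp [h])

theorem kk_of_fix {g : Gam} (h : ∀ m, g (rt3 m) = rt3 m) : kk g = 0 :=
  PadicInt.ext_of_toZModPow.1 fun m => (km_of_fix (h m)).trans (map_zero _).symm

theorem kk_one : kk 1 = 0 := kk_of_fix fun _ => rfl

theorem kk_cc : kk cc = 0 := kk_of_fix cc_rt3

theorem kk_ine {w : Plc} (hw : w.p ≠ 3) {σ : Gam} (hσ : σ ∈ Ine w) : kk σ = 0 := by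
  refine PadicInt.ext_of_toZModPow.1 fun m => (d0b_ine_zero hw hσ ?_ (km_spec m σ)).trans (map_zero _).symm
  have h : w.V ((3 : ℤ) : Qbar) = 1 := w.V_int_eq_one.2 fun e =>
    d0b_ndvd hw 1 (by exact_mod_cast e)
  rw [Int.cast_ofNat, ← rt3_pow m, map_pow] at h
  exact (pow_eq_one_iff_of_nonneg zero_le (pow_ne_zero m three_ne_zero)).1 h

theorem sm_km (m : ℕ) {H : Subgroup Gam} : Sm H (km m) := by
  obtain ⟨U, h1, h2, h3⟩ := sm_apply (H := H) (rt3 m)
  exact ⟨U, h1, h2, fun g hg k hk e => km_eq ((h3 g hg k hk e).trans (km_spec m k))⟩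

theorem km_cast {m m' : ℕ} (h : m' ≤ m) (g : Gam) :
    ZMod.castHom (pow_dvd_pow 3 h) (ZMod (3 ^ m')) (km m g) = km m' g :=
  RingHom.congr_fun (PadicInt.zmod_cast_comp_toZModPow m' m h) (kk g)

theorem exists_z1 {w : Plc} (hw : w.p = 3) : ∃ σ ∈ Ine w, cy 1 σ = -1 := by
  obtain ⟨σ, h1, h2⟩ := exists_ine_ne (w := w) (x := rt (-(3 : ℕ))) (a := 2) (b := 1) two_ne_zero
    (by norm_num) (by rw [← map_pow, rt_sq, pow_one, hw, Int.cast_neg, w.V.map_neg, Int.cast_natCast])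
  exact ⟨σ, h1, (cy_one_or σ).resolve_left fun e => h2 (chi_eq_one.1 (mem_GK3.2 e))⟩

theorem exists_z2 {w : Plc} (hw : w.p = 3) : ∃ σ ∈ Ine w, cy 1 σ = 1 ∧ km 1 σ ≠ 0 := by
  by_contra! k
  have k1 : ∀ σ ∈ Ine w, cy 1 σ = 1 → σ (rt3 1) = rt3 1 := fun σ h e => by
    rw [km_spec, k σ h e, ZMod.val_zero, pow_zero, mul_one]
  obtain ⟨τ, h1, h2⟩ := exists_z1 hw
  have k2 : ∀ σ ∈ Ine w, cy 1 σ = -1 → σ (rt3 1) = τ (rt3 1) ∧ σ (τ (rt3 1)) = rt3 1 :=
    fun σ h e => ⟨by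
      have h3 : cy 1 τ * cy 1 (τ⁻¹ * σ) = -1 := by rw [← cy_mul, mul_inv_cancel_left, e]
      rw [h2, neg_one_mul, neg_inj] at h3
      have := congrArg τ (k1 _ (mul_mem (inv_mem h1) h) h3)
      rwa [← AlgEquiv.mul_apply, mul_inv_cancel_left] at this,
      k1 _ (mul_mem h h1) (by rw [cy_mul, e, h2, neg_mul_neg, one_mul])⟩
  obtain ⟨σ, h3, h4⟩ := exists_ine_ne (w := w) (x := rt3 1 * τ (rt3 1)) (a := 3) (b := 2)
    three_ne_zero (by norm_num) (by
      have : rt3 1 ^ 3 = 3 := rt3_cube 0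
      rw [← map_pow, mul_pow, ← map_pow, this, map_ofNat, ← map_pow, sq, hw, Nat.cast_ofNat])
  refine h4 ?_
  rw [map_mul]
  rcases cy_one_or σ with e | e
  · rw [k1 σ h3 e, ← AlgEquiv.mul_apply σ τ,
      (k2 _ (mul_mem h3 h1) (by rw [cy_mul, e, h2, one_mul])).1]
  · rw [(k2 σ h3 e).1, (k2 σ h3 e).2, mul_comm]

/-- An element of inertia at three that moves the cube roots of unity. -/
noncomputable def z1 : Gam := (exists_z1 w3_p).choose

theorem z1_spec : z1 ∈ Ine w3 ∧ cy 1 z1 = -1 := (exists_z1 w3_p).choose_spec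

/-- An element of inertia at three that fixes the cube roots of unity and moves the cube roots of
three. -/
noncomputable def z2 : Gam := (exists_z2 w3_p).choose

theorem z2_spec : z2 ∈ Ine w3 ∧ cy 1 z2 = 1 ∧ km 1 z2 ≠ 0 := (exists_z2 w3_p).choose_spec

/-- Reduction of a three-adic matrix. -/
noncomputable def mred (m : ℕ) (A : Matrix (Fin 2) (Fin 2) ℤ_[3]) :
    Matrix (Fin 2) (Fin 2) (ZMod (3 ^ m)) := A.map (PadicInt.toZModPow m)

/-- The determinant of two vectors. -/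
def det2 {R : Type*} [CommRing R] (x y : Fin 2 → R) : R := x 0 * y 1 - x 1 * y 0

/-- Representations of rank two that are unramified outside three, with prescribed reduction. -/
structure Rp (ε : ZMod (3 ^ 1)) where
  ρ : Gam →* Matrix (Fin 2) (Fin 2) ℤ_[3]
  sm : ∀ m, Sm ⊤ fun g => mred m (ρ g)
  det : ∀ g, (ρ g).det = cyc g
  conj : ρ cc = tauM ℤ_[3]
  unr : ∀ w : Plc, w.p ≠ 3 → ∀ σ ∈ Ine w, ρ σ = 1
  md : ∀ g, mred 1 (ρ g) = !![cy 1 g, ε * km 1 g; 0, 1]

/-- The extension of the trivial character by the cyclotomic character with class `3 ^ a`. -/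
noncomputable def rpK (a : ℕ) : Rp a where
  ρ :=
    { toFun g := !![cyc g, a * kk g; 0, 1]
      map_one' := by rw [cyc_one, kk_one, mul_zero, one_fin_two]
      map_mul' g h := by
        rw [mul_fin_two, cyc_mul, kk_mul]
        congr <;> ring }
  sm m := ((sm_cy m).comp₂ (sm_km m) fun x y => !![x, a * y; 0, 1]).congr fun g _ => by
    ext i j
    fin_cases i <;> fin_cases j <;> simp [mred, cy, km]
  det g := by simp [det_fin_two]
  conj := by simp [cyc_cc, kk_cc, tauM]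
  unr w hw σ hσ := by
    change !![cyc σ, a * kk σ; 0, 1] = 1
    rw [d0b_cyc_ine hw hσ, kk_ine hw hσ, mul_zero, one_fin_two]
  md g := by
    ext i j
    fin_cases i <;> fin_cases j <;> simp [mred, cy, km]

theorem rpK_apply (a : ℕ) (g : Gam) : (rpK a).ρ g = !![cyc g, a * kk g; 0, 1] := rfl

end Pool.Agent.H3
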