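import Pool.Agent.Lib.MP_23455a_nt.H3.D0b

/-! Groups of points with torsion coordinates, ring class systems,
systems of Heegner points, and the statements on the classes of Kolyvagin and on the local
condition at three. -/

set_option autoImplicit false

open scoped NNReal Classical
open Finset Matrix NumberTheorySymbols

namespace Pool.Agent.H3

open Pool.Agent.Lib.MP_696deb_nt.B2

/-- Three-adic matrices. -/
abbrev M3 : Type := Matrix (Fin 2) (Fin 2) ℤ_[3]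

section

variable {B : Type} [CommRing B]

/-- The character of the tower. -/
def psi {N : ℕ} (t : B) (d : Gam → ZMod N) (g : Gam) : B := t ^ (d g).val

/-- The twisted matrices. -/
noncomputable def tmat (ρ : Gam →* M3) (j : ℤ_[3] →+* B) (ψ : Gam → B) (g : Gam) :
    Matrix (Fin 2) (Fin 2) B := ψ g • (ρ g).map j

/-- The twisted action. -/
noncomputable def tact (ρ : Gam →* M3) (j : ℤ_[3] →+* B) (ψ : Gam → B) (g : Gam) :
    (Fin 2 → B) →+ (Fin 2 → B) := (Matrix.mulVecLin (tmat ρ j ψ g)).toAddMonoidHom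

theorem tact_apply (ρ : Gam →* M3) (j : ℤ_[3] →+* B) (ψ : Gam → B) (g : Gam) (x : Fin 2 → B) :
    tact ρ j ψ g x = ψ g • ((ρ g).map j *ᵥ x) := smul_mulVec (ψ g) ((ρ g).map j) x

/-- The pairing. -/
def bdet {m : ℕ} (tr : B →+ ZMod (3 ^ m)) : (Fin 2 → B) →+ (Fin 2 → B) →+ ZMod (3 ^ m) :=
  AddMonoidHom.mk' (fun x => AddMonoidHom.mk' (fun y => tr (det2 x y)) fun y y' => by
    rw [← map_add]
    exact congrArg tr (by simp only [det2, Pi.add_apply]; ring)) fun x x' =>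
      AddMonoidHom.ext fun y => by
        change tr _ = tr _ + tr _
        rw [← map_add]
        exact congrArg tr (by simp only [det2, Pi.add_apply]; ring)

theorem bdet_apply {m : ℕ} (tr : B →+ ZMod (3 ^ m)) (x y : Fin 2 → B) :
    bdet tr x y = tr (det2 x y) := rfl

end

/-- A group of points whose torsion has coordinates in a representation. `G w` is the group of
points with a reduction at `w`, and `K w` consists of the points of which a multiple prime to three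
reduces to zero. -/
structure Mot (P : Type) [AddCommGroup P] [DistribMulAction Gam P] extends Rp 1 where
  crd : (m : ℕ) → P → Fin 2 → ZMod (3 ^ m)
  G : Plc → AddSubgroup P
  K : Plc → AddSubgroup P
  a : ℕ → ℤ
  crd_add : ∀ m x y, 3 ^ m • x = 0 → 3 ^ m • y = 0 → crd m (x + y) = crd m x + crd m y
  crd_inj : ∀ m x, 3 ^ m • x = 0 → crd m x = 0 → x = 0
  crd_smul : ∀ m g x, 3 ^ m • x = 0 → crd m (g • x) = mred m (ρ g) *ᵥ crd m x
  crd_red : ∀ m k x, 3 ^ (m + k) • x = 0 → crd m (3 ^ k • x) = fun i =>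
    ZMod.castHom (pow_dvd_pow 3 (Nat.le_add_right m k)) (ZMod (3 ^ m)) (crd (m + k) x i)
  smP : ∀ x : P, Sm ⊤ fun g => g • x
  div : ∀ x : P, ∃ y, 3 • y = x
  G_sat : ∀ w x, 3 • x ∈ G w → x ∈ G w
  G_smul : ∀ w, ∀ g ∈ Dec w, ∀ x ∈ G w, g • x ∈ G w
  K_smul : ∀ w, ∀ g ∈ Dec w, ∀ x ∈ K w, g • x ∈ K w
  K_ine : ∀ w, w.p ≠ 3 → ∀ σ ∈ Ine w, ∀ x ∈ G w, σ • x - x ∈ K w
  K_tors : ∀ w m, w.p ≠ 3 → ∀ x ∈ K w, 3 ^ m • x = 0 → x = 0
  a_dvd : ∀ l : ℕ, (l + 1 : ℤ) ∣ a l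
  es : ∀ w φ, w.p % 3 = 2 → IsFrob w w.p φ → ∀ x ∈ G w,
    φ • φ • x - a w.p • φ • x + w.p • x ∈ K w

section

variable {P P' : Type} [AddCommGroup P] [DistribMulAction Gam P] [AddCommGroup P']
  [DistribMulAction Gam P']

/-- The point `x` is killed by `3 ^ m` and has the coordinates `v`. -/
def Mot.Cd (M : Mot P) (m : ℕ) (x : P) (v : Fin 2 → ZMod (3 ^ m)) : Prop :=
  3 ^ m • x = 0 ∧ M.crd m x = v

/-- Cochains that are coboundaries in the group of all points. -/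
def KumP (M : Mot P) (m : ℕ) (D : Subgroup Gam) (x : Gam → Fin 2 → ZMod (3 ^ m)) : Prop :=
  ∃ S : P, ∀ g ∈ D, M.Cd m (g • S - S) (x g)

/-- The Kummer condition with coefficients in `B`. -/
def KumC (M : Mot P) (D : Subgroup Gam) {B : Type} [AddCommGroup B] (c : Gam → Fin 2 → B) : Prop :=
  ∀ (m : ℕ) (f : B →+ ZMod (3 ^ m)), KumP M m D fun g i => f (c g i)

/-- What is used of the elliptic curve. -/
structure Mot.Ell (M : Mot P) : Prop where
  surj : ∀ m v, ∃ x, M.Cd m x v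
  top : ∀ w, M.G w = ⊤
  cm : ∃ v : ℤ_[3], v ≠ 0 ∧ ∀ g ∈ GK 3,
    M.ρ g 0 0 = M.ρ g 1 1 ∧ M.ρ g 1 0 = -3 * v ^ 2 * M.ρ g 0 1
  iso : ∀ (m : ℕ) (D : Subgroup Gam) (x y : Gam → Fin 2 → ZMod (3 ^ m)),
    IsClosed (D : Set Gam) → KumP M m D x → KumP M m D y →
    Spl m D fun g h => det2 (x g) (mred m (M.ρ g) *ᵥ y h)
  ine : ∀ (w : Plc) (x : Gam → Fin 2 → ZMod (3 ^ 1)), w.p = 3 → KumP M 1 (Ine w) x →
    ∀ σ ∈ Ine w, x σ 1 = 0
  nrm : ∀ (w : Plc) (φ : Gam) (r : ℕ), w.p = 3 → IsFrob w 3 φ → ∃ x : P,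
    (∀ σ ∈ Ine w, σ • x = x) ∧ φ ^ 3 ^ r • x = x ∧
      ∀ y : P, (∀ g ∈ Dec w, g • y = y) → 3 • y ≠ ∑ i ∈ range (3 ^ r), φ ^ i • x

end

/-- The discriminants that are used. -/
structure Nk (n : ℕ) : Prop where
  sqf : Squarefree n
  m12 : n % 12 = 11

/-- Admissible conductors: products of distinct odd inert primes that are two modulo three. -/
def Adm (n c : ℕ) : Prop :=
  Squarefree c ∧ ∀ l : ℕ, l.Prime → l ∣ c → l % 3 = 2 ∧ l ≠ 2 ∧ J(-n | l) = -1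

/-- The three-primary ring class groups with the reciprocity maps. -/
structure RC (n : ℕ) where
  C : ℕ → Type
  [grp : ∀ c, CommGroup (C c)]
  [fin : ∀ c, Fintype (C c)]
  pr : ∀ c c', C c' →* C c
  ψ : ∀ c, Gam → C c
  three : ∀ c (a : C c), ∃ k : ℕ, a ^ 3 ^ k = 1
  sm : ∀ c, Adm n c → Sm (GK n) (ψ c)
  mul : ∀ c, Adm n c → ∀ g ∈ GK n, ∀ h ∈ GK n, ψ c (g * h) = ψ c g * ψ c h
  surj : ∀ c, Adm n c → ∀ a, ∃ g ∈ GK n, ψ c g = a
  pr_ψ : ∀ c c', Adm n c' → c ∣ c' → ∀ g ∈ GK n, pr c c' (ψ c' g) = ψ c g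
  dih : ∀ c, Adm n c → ∀ g ∉ GK n, ψ c (g * g) = 1
  unr : ∀ c (w : Plc), Adm n c → ¬ w.p ∣ c → ∀ σ ∈ GK n ⊓ Ine w, ψ c σ = 1
  card : ∀ c d l, d = c * l → l.Prime → Adm n d → Nat.card (pr c d).ker = ordProj[3] (l + 1)
  gen : ∀ c d (w : Plc) (τ : Gam), d = c * w.p → Adm n d → Gen w τ →
    (pr c d).ker = Subgroup.zpowers (ψ d τ)

attribute [instance] RC.grp RC.fin

section

variable {n : ℕ} {P P' : Type} [AddCommGroup P] [DistribMulAction Gam P] [AddCommGroup P']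
  [DistribMulAction Gam P']

/-- The traces of Heegner points to the three-primary ring class fields. -/
structure HP (S : RC n) (M : Mot P) where
  y : ∀ c, S.C c → P
  gal : ∀ c, Adm n c → ∀ g ∈ GK n, ∀ a, g • y c a = y c (S.ψ c g * a)
  good : ∀ c (w : Plc), Adm n c → w.p ≠ 3 → ∀ a, y c a ∈ M.G w
  trace : ∀ c d l, d = c * l → l.Prime → Adm n d → ∀ a,
    ∑ a' with S.pr c d a' = a, y d a' = M.a l • y c a
  kron : ∀ c d (w : Plc) (φ : Gam), d = c * w.p → Adm n d → IsFrob w w.p φ → ∀ a',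
    y d a' - ordCompl[3] (w.p + 1) • φ • y c (S.pr c d a') ∈ M.K w

variable {S : RC n} {M : Mot P} {M' : Mot P'}

/-- The trace to the quadratic field. -/
noncomputable def HP.tot (Y : HP S M) : P := ∑ a, Y.y 1 a

/-- Two systems have the same Kummer classes modulo three. -/
def HP.Cmp (Y : HP S M) (Y' : HP S M') : Prop := ∀ c, Adm n c → ∀ a, ∃ r r',
  3 • r = Y.y c a ∧ 3 • r' = Y'.y c a ∧
    ∀ g ∈ GK n, S.ψ c g = 1 → M.crd 1 (g • r - r) = M'.crd 1 (g • r' - r')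

/-- The character of the Galois group that belongs to a character of a ring class group. -/
noncomputable def RC.chi (S : RC n) {l N : ℕ} (ν : S.C l →* Multiplicative (ZMod N)) (g : Gam) :
    ZMod N := (ν (S.ψ l g)).toAdd

/-- Sets of inert places over different primes that are deep for the level `k`. -/
structure DpQ (n k : ℕ) (lam : Plc) (Q : Finset Plc) : Prop where
  adm : ∀ w ∈ Q, Adm n w.p
  ne : ∀ w ∈ Q, w.p ≠ lam.p
  dvd : ∀ w ∈ Q, 3 ^ k ∣ w.p + 1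
  inj : ∀ w ∈ Q, ∀ v ∈ Q, w.p = v.p → w = v

/-- The hypotheses on the tower and on the ring of coefficients. -/
structure TwC (n k s : ℕ) (lam : Plc) {B : Type} [CommRing B] (t : B) : Prop where
  nk : Nk n
  adm : Adm n lam.p
  le : k ≤ s
  dvd : 3 ^ (s + k) ∣ lam.p + 1
  kil : (3 : B) ^ k = 0
  nrm : ∑ i ∈ range (3 ^ s), t ^ i = 0

/-- The properties of the classes of Kolyvagin. -/
structure KCl (Y : HP S M) (k : ℕ) {s : ℕ} (lam : Plc)
    (ν : S.C lam.p →* Multiplicative (ZMod (3 ^ s))) {B : Type} [CommRing B] (j : ℤ_[3] →+* B)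
    (t : B) (κ : Finset Plc → Gam → Fin 2 → B) : Prop where
  coc : ∀ Q, DpQ n k lam Q → Coc (GK n) (tact M.ρ j (psi t (S.chi ν))) (κ Q)
  unr : ∀ Q, DpQ n k lam Q → ∀ w : Plc, w.p ≠ 3 → w.p ≠ lam.p → (∀ v ∈ Q, w.p ≠ v.p) →
    ∀ σ ∈ GK n ⊓ Ine w, κ Q σ = 0
  tr : ∀ Q, DpQ n k lam Q → ∀ w ∈ insert lam Q, κ Q (fq w) = 0
  kum : ∀ Q, DpQ n k lam Q → ∀ w : Plc, w.p = 3 → KumC M (Ine w) (κ Q)
  step : ∀ Q w, w ∉ Q → DpQ n k lam (insert w Q) →
    (M.ρ (fr w)).map j *ᵥ κ (insert w Q) (gn w) = κ Q (fq w)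
  zero : ∀ (ε : B →+* ZMod (3 ^ k)) (x : P), ε t = 1 → 3 ^ k • x = Y.tot →
    M.Cd k ((S.chi ν (gn lam)).val • (fq lam • x - x))
      (mred k (M.ρ (fr lam)) *ᵥ fun i => ε (κ ∅ (gn lam) i))

end

/-- The classes of Kolyvagin of two systems. -/
def KCStmt : Prop := ∀ (n k s : ℕ) (P P' : Type) [AddCommGroup P] [DistribMulAction Gam P]
  [AddCommGroup P'] [DistribMulAction Gam P'] (S : RC n) (M : Mot P) (M' : Mot P') (Y : HP S M)
  (Y' : HP S M') (lam : Plc) (ν : S.C lam.p →* Multiplicative (ZMod (3 ^ s))) (B : Type)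
  [CommRing B] (j : ℤ_[3] →+* B) (t : B), TwC n k s lam t → Y.Cmp Y' →
  ∃ κ κ', KCl Y k lam ν j t κ ∧ KCl Y' k lam ν j t κ' ∧ ∀ Q, DpQ n k lam Q → ∃ v, ∀ g ∈ GK n,
    ∀ i, 3 ∣ κ Q g i - κ' Q g i - cob (tact M.ρ j (psi t (S.chi ν))) v g i

/-- The local condition at three. -/
def Loc3Stmt (F : CFT) : Prop := ∀ (P : Type) [AddCommGroup P] [DistribMulAction Gam P]
  (M : Mot P) (H : Subgroup Gam) (w : Plc), M.Ell → Op H → Dec w ≤ H → w.p = 3 →
  (∀ (k s : ℕ) (B : Type) [CommRing B] [Finite B] (j : ℤ_[3] →+* B) (t : B)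
    (tr : B →+ ZMod (3 ^ k)) (d : Gam → ZMod (3 ^ s)) (φ : Gam) (c' : Gam → Fin 2 → B),
    t ^ 3 ^ s = 1 → (∀ x, (∀ y, tr (x * y) = 0) → x = 0) → Sm (Dec w) d → IsHom (Dec w) d →
    (∀ σ ∈ Ine w, d σ = 0) → IsFrob w 3 φ → IsUnit (d φ) →
    Coc (H ⊓ Dec w) (tact M.ρ j (psi t (-d))) c' →
    (KumC M (Ine w) c' ↔ ∀ c, Coc (H ⊓ Dec w) (tact M.ρ j (psi t d)) c → KumC M (Ine w) c →
      F.inv k H w (cupb (bdet tr) (tact M.ρ j (psi t (-d))) c c') = 0)) ∧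
  ∀ (k : ℕ) (c : Gam → Fin 2 → ZMod (3 ^ k)),
    Coc (H ⊓ Dec w) (tact M.ρ (PadicInt.toZModPow k) 1) c → KumP M k (Ine w) c →
      KumP M k (Dec w) c

end Pool.Agent.H3
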