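import Pool.Agent.Lib.MP_23455a_nt.H3.D1
import Pool.Agent.Lib.MP_23455a_nt.Kum
import Pool.Agent.Lib.MP_696deb_nt.B2.CM1

/-! The curve of conductor twenty-seven, the multiplicative group, and the statements on modular
functions and Heegner points. -/

set_option autoImplicit false

open scoped NNReal Classical
open Finset Matrix NumberTheorySymbols

namespace Pool.Agent.H3

open Pool.Agent.Lib.MP_696deb_nt.B2 Pool.Agent.Lib.MP_696deb_nt.B2.CM
open Pool.Agent.Lib.MP_696deb_nt (xco yco)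
open Pool.Agent.Lib.MP_23455a_nt (W27 pm phiX phiY fT gm mu e3)

/-- The algebraic points of the modular curve. -/
abbrev PW : Type := Lib.MP_23455a_nt.Pt Qbar

/-- The complex points of the modular curve. -/
abbrev PC : Type := Lib.MP_23455a_nt.Pt ℂ

noncomputable instance : DistribMulAction Gam PW where
  smul g P := pm (g : Qbar →+* Qbar) P
  one_smul P := by cases P <;> rfl
  mul_smul g h P := by cases P <;> rfl
  smul_zero g := map_zero (pm (g : Qbar →+* Qbar))
  smul_add g := map_add (pm (g : Qbar →+* Qbar))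

theorem smul_pw (g : Gam) (P : PW) : g • P = pm (g : Qbar →+* Qbar) P := rfl

/-- The rational point of order three. -/
noncomputable def T3 : PW := Lib.MP_23455a_nt.T

/-- The kernel of reduction. -/
noncomputable def K1 (w : Plc) : AddSubgroup PW :=
  AddSubgroup.closure {P | 1 < w.V (xco P)}

/-- The multiplicative group. -/
abbrev PR : Type := Additive Qbarˣ

/-- The number that belongs to a point of the multiplicative group. -/
def PR.val (x : PR) : Qbar := (Additive.toMul x : Qbarˣ)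

noncomputable instance : DistribMulAction Gam PR where
  smul g x := Additive.ofMul (Units.map (g : Qbar →* Qbar) (Additive.toMul x))
  one_smul _ := rfl
  mul_smul _ _ _ := rfl
  smul_zero g := congrArg Additive.ofMul (map_one (Units.map (g : Qbar →* Qbar)))
  smul_add g _ _ := congrArg Additive.ofMul (map_mul (Units.map (g : Qbar →* Qbar)) _ _)

theorem PR.val_smul (g : Gam) (x : PR) : (g • x).val = g x.val := rfl

theorem PR.val_add (x y : PR) : (x + y).val = x.val * y.val := rfl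

theorem PR.val_ne (x : PR) : x.val ≠ 0 := Units.ne_zero _

theorem PR.ext {x y : PR} (h : x.val = y.val) : x = y := Units.ext h

/-- The reference motive. -/
structure Mot.IsR (M : Mot PR) : Prop where
  ρ : M.ρ = (rpK 1).ρ
  a : ∀ l, M.a l = l + 1
  G : ∀ w x, x ∈ M.G w ↔ w.V x.val = 1
  K : ∀ w x, x ∈ M.K w ↔ w.V (x.val - 1) < 1
  crd : ∀ m (a : ZMod (3 ^ m)) (x : PR), x.val = zeta m ^ a.val → M.crd m x = ![a, 0]

section

variable {P : Type} [AddCommGroup P] [DistribMulAction Gam P]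

/-- The quotient by the rational point of order three. -/
structure Isog (φ : PW →+ P) : Prop where
  surj : Function.Surjective φ
  ker : ∀ x, φ x = 0 ↔ x ∈ AddSubgroup.zmultiples T3
  smul : ∀ (g : Gam) x, φ (g • x) = g • φ x

/-- The motive of the quotient curve. -/
structure Mot.IsE (M : Mot P) (φ : PW →+ P) : Prop where
  ell : M.Ell
  a : ∀ l, M.a l = 0
  K : ∀ w, ∀ x ∈ K1 w, φ x ∈ M.K w
  crd : ∀ a : ZMod (3 ^ 1), M.crd 1 (φ (mu (zeta 1 ^ a.val))) = ![-a, 0]

end

/-- The existence of the reference motive. -/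
def RMStmt : Prop := ∃ M : Mot PR, M.IsR

/-- The existence of the motive of the quotient curve. -/
def EMStmt : Prop := ∀ (P : Type) [AddCommGroup P] [DistribMulAction Gam P] (φ : PW →+ P),
  Isog φ → ∃ M : Mot P, M.IsE φ

/-- The modular parametrization. -/
noncomputable def pt27 (τ : ℂ) : PC :=
  if h : (W27.baseChange ℂ).toAffine.Nonsingular (phiX τ) (phiY τ) then .some _ _ h else 0

/-- The Hecke correspondence and the modular parametrization. -/
structure MDStmt : Prop where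
  hecke : ∀ (l : ℕ) (τ : ℂ), l.Prime → l % 3 = 2 → l ≠ 2 → 0 < τ.im →
    ∑ i, pt27 (hk l τ i) ∈ AddSubgroup.zmultiples (Lib.MP_23455a_nt.T : PC)
  norm : ∀ (l : ℕ) (τ : ℂ), l.Prime → l % 3 = 2 → l ≠ 2 → 0 < τ.im →
    ∏ i, fT (pt27 (hk l τ i)) = fT (pt27 τ) ^ (l + 1)
  kron : ∀ (w : Plc) (φ : Gam) (τ : ℂ) (P : PW), w.p ≠ 3 → w.p ≠ 2 → IsFrob w w.p φ →
    0 < τ.im → pm jC P = pt27 τ → w.V (xco P) ≤ 1 → ∃ N : Option (Fin w.p) → PW,
      (∀ i, pm jC (N i) = pt27 (hk w.p τ i)) ∧
      ∃ i, N i - φ • P ∈ K1 w ∧ ∀ j ≠ i, φ • N j - P ∈ K1 w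

/-- Heegner points of conductor `c` for the square root `r` of `-n` modulo `108`. -/
structure Hg27 (n c : ℕ) (r : ℤ) (τ : ℂ) : Prop where
  pos : 0 < τ.im
  iv : IsIv (Oc n c) (sp2 (27 * τ) 1)
  sub : ∀ z ∈ sp2 (27 * τ) 1, be n c (r * c) * z ∈ sp2 (27 * τ) 27

/-- Systems of representatives of the Heegner points of conductor one. -/
def HReps27 (n : ℕ) (r : ℤ) {ι : Type} (τ : ι → ℂ) : Prop :=
  (∀ i, Hg27 n 1 r (τ i)) ∧ Function.Bijective fun i => cl (Oc n 1) (sp2 (27 * τ i) 1)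

/-- The system is the one of the theory of complex multiplication. -/
def RC.Std {n : ℕ} (S : RC n) : Prop := ∃ q : ∀ c, Pc n c →* S.C c,
  (∀ c, Function.Surjective (q c)) ∧ (∀ c x, q c x = 1 ↔ ∃ k : ℕ, ¬ 3 ∣ k ∧ x ^ k = 1) ∧
    (∀ c g, S.ψ c g = q c (rho n c g)) ∧ ∀ c c' x, S.pr c c' (q c' x) = q c (pj n c c' x)

/-- The existence of the ring class system. -/
def RCStmt : Prop := ∀ n, Nk n → ∃ S : RC n, S.Std

section

variable {n : ℕ} {S : RC n} {P : Type} [AddCommGroup P] [DistribMulAction Gam P]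

/-- The valuations of the norm of the modular unit at the places above three. -/
def HP.Val {M : Mot PR} (Y : HP S M) : Prop := ∀ w : Plc, w.p = 3 → ∃ a b N : ℤ, ¬ 3 ∣ N ∧
  w.V Y.tot.val = ((3 : ℝ≥0) ^ a)⁻¹ ∧ (cc • w).V Y.tot.val = ((3 : ℝ≥0) ^ b)⁻¹ ∧
    a - b = N * Fintype.card (S.C 1)

/-- The trace is the image of the Heegner point of the complex theory. -/
def HP.Link {M : Mot P} (Y : HP S M) (φ : PW →+ P) (r : ℤ) : Prop :=
  ∀ (ι : Type) [Fintype ι] (τ : ι → ℂ), HReps27 n r τ →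
    ∃ y : PW, pm jC y = ∑ i, pt27 (τ i) ∧ φ y = Y.tot

end

/-- The existence of the two systems of Heegner points. -/
def HPStmt : Prop := ∀ (n : ℕ) (r : ℤ) (S : RC n) (P : Type) [AddCommGroup P]
  [DistribMulAction Gam P] (φ : PW →+ P) (M : Mot P) (M' : Mot PR), Nk n → 108 ∣ r ^ 2 + n →
  S.Std → Isog φ → M.IsE φ → M'.IsR →
  ∃ (Y : HP S M) (Y' : HP S M'), Y.Cmp Y' ∧ Y'.Val ∧ Y.Link φ r

end Pool.Agent.H3
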