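import Pool.Agent.Lib.MP_23455a_nt.H3.D1

/-! The interface between the Selmer machine, the computations at the trivial character and the
choice of the prime of the tower. -/

set_option autoImplicit false

open scoped NNReal Classical
open Finset Matrix NumberTheorySymbols

namespace Pool.Agent.H3

open Pool.Agent.Lib.MP_696deb_nt.B2

section

variable {P : Type} [AddCommGroup P] [DistribMulAction Gam P] {M : Mot P} {m : ℕ}
  {D : Subgroup Gam}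

theorem Mot.Cd.d2_zero : M.Cd m 0 0 :=
  ⟨smul_zero _, by simpa using M.crd_add m 0 0 (smul_zero _) (smul_zero _)⟩

theorem Mot.Cd.d2_add {x y : P} {u v : Fin 2 → ZMod (3 ^ m)} (h : M.Cd m x u) (k : M.Cd m y v) :
    M.Cd m (x + y) (u + v) :=
  ⟨by rw [smul_add, h.1, k.1, add_zero], by rw [M.crd_add m x y h.1 k.1, h.2, k.2]⟩

theorem Mot.Cd.d2_neg {x : P} {u : Fin 2 → ZMod (3 ^ m)} (h : M.Cd m x u) : M.Cd m (-x) (-u) := by
  have h1 : 3 ^ m • -x = 0 := by rw [smul_neg, h.1, neg_zero]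
  have h2 := M.crd_add m x (-x) h.1 h1
  rw [add_neg_cancel, Mot.Cd.d2_zero.2, h.2] at h2
  exact ⟨h1, eq_neg_of_add_eq_zero_right h2.symm⟩

/-- The Kummer cochains form a group. -/
def KumG (M : Mot P) (m : ℕ) (D : Subgroup Gam) : AddSubgroup (Gam → Fin 2 → ZMod (3 ^ m)) where
  carrier := {x | KumP M m D x}
  zero_mem' := ⟨0, fun g _ => by simpa using Mot.Cd.d2_zero⟩
  add_mem' := fun ⟨S, h⟩ ⟨S', h'⟩ => ⟨S + S', fun g hg => by
    rw [smul_add, add_sub_add_comm]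
    exact (h g hg).d2_add (h' g hg)⟩
  neg_mem' := fun ⟨S, h⟩ => ⟨-S, fun g hg => by
    rw [smul_neg, ← neg_sub']
    exact (h g hg).d2_neg⟩

theorem mem_KumG {x : Gam → Fin 2 → ZMod (3 ^ m)} : x ∈ KumG M m D ↔ KumP M m D x := Iff.rfl

/-- The cochains that vanish at the two normalising elements. -/
def NrmG (B : Type) [AddCommGroup B] : AddSubgroup (Gam → Fin 2 → B) where
  carrier := {c | c z1 0 = 0 ∧ c z2 0 = 0}
  zero_mem' := ⟨rfl, rfl⟩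
  add_mem' h h' := ⟨by simp [h.1, h'.1], by simp [h.2, h'.2]⟩
  neg_mem' h := ⟨by simp [h.1], by simp [h.2]⟩

theorem mem_NrmG {B : Type} [AddCommGroup B] {c : Gam → Fin 2 → B} :
    c ∈ NrmG B ↔ c z1 0 = 0 ∧ c z2 0 = 0 := Iff.rfl

/-- The cochains that are unramified outside three. -/
def UnrG (n : ℕ) (A : Type) [AddCommGroup A] : AddSubgroup (Gam → A) where
  carrier := {c | ∀ w : Plc, w.p ≠ 3 → ∀ σ ∈ GK n ⊓ Ine w, c σ = 0}
  zero_mem' _ _ _ _ := rfl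
  add_mem' h h' w hw σ hσ := by simp [h w hw σ hσ, h' w hw σ hσ]
  neg_mem' h w hw σ hσ := by simp [h w hw σ hσ]

theorem mem_UnrG {n : ℕ} {A : Type} [AddCommGroup A] {c : Gam → A} :
    c ∈ UnrG n A ↔ ∀ w : Plc, w.p ≠ 3 → ∀ σ ∈ GK n ⊓ Ine w, c σ = 0 := Iff.rfl

/-- The action at the trivial character. -/
noncomputable abbrev act0 (ρ : Gam →* M3) (k : ℕ) :
    Gam → (Fin 2 → ZMod (3 ^ k)) →+ (Fin 2 → ZMod (3 ^ k)) := tact ρ (PadicInt.toZModPow k) 1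

/-- Normalised cocycles with the Kummer condition at the two places above three. -/
noncomputable def Loc0 (M : Mot P) (n k : ℕ) : AddSubgroup (Gam → Fin 2 → ZMod (3 ^ k)) :=
  Z1 (GK n) (act0 M.ρ k) ⊓ KumG M k (Ine w3) ⊓ KumG M k (Ine (cc • w3)) ⊓ NrmG _

theorem mem_Loc0 {n k : ℕ} {c : Gam → Fin 2 → ZMod (3 ^ k)} : c ∈ Loc0 M n k ↔
    ((c ∈ Z1 (GK n) (act0 M.ρ k) ∧ KumP M k (Ine w3) c) ∧ KumP M k (Ine (cc • w3)) c) ∧
      c z1 0 = 0 ∧ c z2 0 = 0 := Iff.rfl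

/-- The normalised Selmer group at the trivial character. -/
noncomputable def Sel0 (M : Mot P) (n k : ℕ) : AddSubgroup (Gam → Fin 2 → ZMod (3 ^ k)) :=
  Loc0 M n k ⊓ UnrG n _

/-- The number of Selmer elements that are killed by `3 ^ j`. -/
noncomputable def cnt0 (M : Mot P) (n k j : ℕ) : ℕ :=
  Nat.card {c : Gam → Fin 2 → ZMod (3 ^ k) // c ∈ Sel0 M n k ∧ 3 ^ j • c = 0}

/-- What is used of the multiplicative group. -/
structure Mot.Mul (M : Mot P) : Prop where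
  rho : M.ρ = (rpK 1).ρ
  kum : ∀ m D x, KumP M m D x ↔ (∀ g ∈ D, x g 1 = 0) ∧ ∃ a, Kum m D a fun g => x g 0

/-- The relation at the prime of the tower. -/
def Lnk (k : ℕ) (lam : Plc) (κ : Gam → Fin 2 → Ak k) (y : Gam → Fin 2 → ZMod (3 ^ k)) : Prop :=
  y (fq lam) = tauM _ *ᵥ fun i => evk k (κ (gn lam) i)

/-- The data at the trivial character for the curve. -/
structure ZE (M : Mot P) (n k e σ : ℕ) (μ : ℤ) (lam : Plc) (κ : Gam → Fin 2 → Ak k) where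
  g : Gam → Fin 2 → ZMod (3 ^ k)
  mem : g ∈ Sel0 M n k
  prim : 3 ^ (k - 1) • g ≠ 0
  loc : ∃ i, ¬ 3 ^ e ∣ g (fq lam) i
  lnk : Lnk k lam κ (μ • g)
  cnt : ∀ j, e ≤ j → j ≤ k → cnt0 M n k j = 3 ^ (j + σ)

/-- The data at the trivial character for the multiplicative group. -/
structure ZR (M : Mot P) (n k e f o : ℕ) (lam : Plc) (κ : Gam → Fin 2 → Ak k) where
  y : Gam → Fin 2 → ZMod (3 ^ k)
  mem : y ∈ Sel0 M n k
  loc : ∃ i, ¬ 3 ^ e ∣ y (fq lam) i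
  lnk : Lnk k lam κ y
  d : (Gam → Fin 2 → ZMod (3 ^ k)) → ZMod (3 ^ k)
  d_add : ∀ c ∈ Loc0 M n k, ∀ c' ∈ Loc0 M n k, d (c + c') = d c + d c'
  d_inj : ∀ c ∈ Sel0 M n k, d c = 0 → 3 ^ e • c = 0
  d_dvd : ∀ c ∈ Loc0 M n k, 3 ^ (k - e) • c ∈ Sel0 M n k → 3 ^ o ∣ d c
  d_y : ¬ 3 ^ (f + o + 1) ∣ d y
  cnt : ∀ j, e ≤ j → j ≤ k → 3 ^ (j + 2 * f) ≤ cnt0 M n k j

end

/-- The primes of the tower. -/
structure Twr {n : ℕ} (S : RC n) (ρ : Gam →* M3) (k s : ℕ) (lam : Plc)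
    (ν : S.C lam.p →* Multiplicative (ZMod (3 ^ s))) : Prop where
  adm : Adm n lam.p
  le : 4 * k ≤ s
  dvd : 3 ^ (s + k) ∣ lam.p + 1
  rho : mred k (ρ (cc * fr lam)) = 1
  kum : km k (cc * fr lam) = 0
  gen : S.chi ν (gn lam) = 1
  frob : IsUnit (S.chi ν (fr w3))

/-- Numbers all of whose valuations are divisible by `3 ^ m`. -/
def CNStmt : Prop := ∀ n : ℕ, Nk n → ∃ e : ℕ, ∀ (m : ℕ) (a : Qbar) (κ : Gam → ZMod (3 ^ m)),
  Kum m (GK n) a κ → κ ∈ UnrG n (ZMod (3 ^ m)) →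
  (∀ w : Plc, w = w3 ∨ w = cc • w3 → ∃ j : ℤ, w.V a = ((3 : ℝ≥0) ^ (3 ^ m * j))⁻¹) →
  ∃ x, ∀ g ∈ GK n, 3 ^ e * κ g = (cy m g - 1) * x

/-- The Selmer machine. -/
def SEStmt : Prop := ∀ (n : ℕ) (P P' : Type) [AddCommGroup P] [DistribMulAction Gam P]
  [AddCommGroup P'] [DistribMulAction Gam P'] (S : RC n) (M : Mot P) (M' : Mot P') (Y : HP S M)
  (Y' : HP S M'), Nk n → M.Ell → M'.Mul → ∃ b : ℕ, ∀ (k s e σ f o : ℕ) (μ : ℤ) (lam : Plc)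
  (ν : S.C lam.p →* Multiplicative (ZMod (3 ^ s))) (j : ℤ_[3] →+* Ak k)
  (κ κ' : Finset Plc → Gam → Fin 2 → Ak k), b ≤ k → b ≤ e → Twr S M.ρ k s lam ν →
  KCl Y k lam ν j (tk k) κ → KCl Y' k lam ν j (tk k) κ' →
  (∀ Q, DpQ n k lam Q → ∃ v, ∀ g ∈ GK n, ∀ i,
    3 ∣ κ Q g i - κ' Q g i - cob (tact M.ρ j (psi (tk k) (S.chi ν))) v g i) →
  ZE M n k e σ μ lam (κ ∅) → ZR M' n k e f o lam (κ' ∅) →
  ∃ r ≤ b, ∃ r0 ≤ b, ∃ r1 ≤ b, r0 ≤ r1 + 1 ∧ Nonempty (Lev (GK n) (thK n) e k (Fin r)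
    (Fin r0 ⊕ Fin r1) (Sum.elim (fun _ => 0) fun _ => 1) μ σ f o)

end Pool.Agent.H3
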