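import Pool.Agent.Lib.MP_23455a_nt.H3.D1b
import Pool.Agent.Lib.MP_23455a_nt.H3.D2
import Pool.Agent.Lib.MP_23455a_nt.H3.KM

/-! The statements at the trivial character, the choice of the prime of the tower, and the main
statement in terms of decomposition groups. -/

set_option autoImplicit false

open scoped NNReal Classical
open Finset Matrix NumberTheorySymbols

namespace Pool.Agent.H3

open Pool.Agent.Lib.MP_696deb_nt.B2
open Pool.Agent.Lib.MP_23455a_nt (pm)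

/-- The `h`-th power of every prime ideal is principal. -/
def Prin (n h : ℕ) : Prop := h ≠ 0 ∧ ∀ w : Plc, ∃ π, Fx (GK n) π ∧
  w.V π = ((w.p : ℝ≥0) ^ h)⁻¹ ∧ ∀ v, Away (GK n) {w} v → v.V π = 1

/-- The elements that act trivially at level `K`. -/
noncomputable def Np (ρ : Gam →* M3) (n K : ℕ) : Subgroup Gam where
  carrier := {g | g ∈ GK n ∧ mred K (ρ g) = 1 ∧ km K g = 0}
  one_mem' := ⟨one_mem _, by rw [map_one, mred_one], by rw [km, kk_one, map_zero]⟩
  mul_mem' h h' := ⟨mul_mem h.1 h'.1, by rw [map_mul, mred_mul, h.2.1, h'.2.1, one_mul], by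
    rw [km_mul, h.2.2, h'.2.2, mul_zero, add_zero]⟩
  inv_mem' {g} h := ⟨inv_mem h.1, by
    have := mred_mul K (ρ g⁻¹) (ρ g)
    rwa [← map_mul, inv_mul_cancel, map_one, mred_one, h.2.1, mul_one, eq_comm] at this, by
    have := km_mul K g⁻¹ g
    rwa [inv_mul_cancel, h.2.2, mul_zero, add_zero, km, kk_one, map_zero, eq_comm] at this⟩

theorem mem_Np {ρ : Gam →* M3} {n K : ℕ} {g : Gam} :
    g ∈ Np ρ n K ↔ g ∈ GK n ∧ mred K (ρ g) = 1 ∧ km K g = 0 := Iff.rfl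

section

variable (P : Type) [AddCommGroup P] [DistribMulAction Gam P]

/-- The action on points. -/
noncomputable def actP (g : Gam) : P →+ P := DistribSMul.toAddMonoidHom P g

theorem actP_apply (g : Gam) (x : P) : actP P g x = g • x := rfl

/-- The points over the quadratic field. -/
noncomputable def FixG (n : ℕ) : AddSubgroup P where
  carrier := {x | ∀ g ∈ GK n, g • x = x}
  zero_mem' g _ := smul_zero g
  add_mem' h h' g hg := by rw [smul_add, h g hg, h' g hg]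
  neg_mem' h g hg := by rw [smul_neg, h g hg]

/-- The functions that are coboundaries on `D`. -/
noncomputable def CobG (D : Subgroup Gam) : AddSubgroup (Gam → P) where
  carrier := {c | IsCob D (actP P) c}
  zero_mem' := ⟨0, fun g _ => by simp [cob]⟩
  add_mem' := fun ⟨x, h⟩ ⟨y, h'⟩ => ⟨x + y, fun g hg => by
    rw [Pi.add_apply, h g hg, h' g hg, cob, cob, cob, map_add, add_sub_add_comm]⟩
  neg_mem' := fun ⟨x, h⟩ => ⟨-x, fun g hg => by
    rw [Pi.neg_apply, h g hg, cob, cob, map_neg, neg_sub']⟩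

theorem mem_CobG {D : Subgroup Gam} {c : Gam → P} :
    c ∈ CobG P D ↔ ∃ x, ∀ g ∈ D, c g = g • x - x := Iff.rfl

/-- Locally trivial cocycles whose classes have three-power order. -/
noncomputable def ShaZ (n : ℕ) : AddSubgroup (Gam → P) where
  carrier := {c | c ∈ Z1 (GK n) (actP P) ∧ (∀ w, c ∈ CobG P (GK n ⊓ Dec w)) ∧
    ∃ m, 3 ^ m • c ∈ CobG P (GK n)}
  zero_mem' := ⟨zero_mem _, fun _ => zero_mem _, 0, by rw [smul_zero]; exact zero_mem _⟩
  add_mem' := fun {a b} ⟨h1, h2, m, h3⟩ ⟨k1, k2, m', k3⟩ => ⟨add_mem h1 k1,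
    fun w => add_mem (h2 w) (k2 w), m + m', by
      rw [smul_add, pow_add]
      exact add_mem (by rw [mul_comm, mul_smul]; exact nsmul_mem h3 _)
        (by rw [mul_smul]; exact nsmul_mem k3 _)⟩
  neg_mem' := fun ⟨h1, h2, m, h3⟩ => ⟨neg_mem h1, fun w => neg_mem (h2 w), m, by
    rw [smul_neg]; exact neg_mem h3⟩

/-- The three-primary part of the group of Tate and Shafarevich. -/
abbrev ShaD (n : ℕ) : Type := ShaZ P n ⧸ (CobG P (GK n)).addSubgroupOf (ShaZ P n)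

variable {P}

/-- The point generates the group of points over the quadratic field modulo torsion. -/
structure Rk1 (n : ℕ) (x : P) : Prop where
  mem : x ∈ FixG P n
  inf : ¬ IsOfFinAddOrder x
  gen : ∀ y ∈ FixG P n, ∃ a : ℤ, IsOfFinAddOrder (y - a • x)

end

/-- The choice of the prime of the tower. -/
def TWStmt : Prop := ∀ (n h e m : ℕ) (S : RC n) (ρ : Rp 1) (c : Gam → Fin 2 → ZMod (3 ^ m)),
  Nk n → Prin n h → ordProj[3] h = 3 ^ e → Fintype.card (S.C 1) = 3 ^ e →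
  Coc (GK n) (act0 ρ.ρ m) c → (∀ K, ∃ s ∈ Np ρ.ρ n K, 3 ^ e • (c s + c (cc * s * cc)) ≠ 0) →
  ∀ k s, 4 * k ≤ s → ∃ (lam : Plc) (ν : S.C lam.p →* Multiplicative (ZMod (3 ^ s))),
    Twr S ρ.ρ k s lam ν ∧ c (fq lam) ≠ 0

/-- The data at the trivial character for the multiplicative group. -/
def ZRStmt : Prop := ∀ (n h e0 : ℕ) (S : RC n) (ρ : Rp 1) (M : Mot PR) (Y : HP S M),
  Nk n → Prin n h → ordProj[3] h = 3 ^ e0 → Fintype.card (S.C 1) = 3 ^ e0 → M.IsR → Y.Val →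
  ∃ b f o : ℕ, ∀ (k s e : ℕ) (lam : Plc) (ν : S.C lam.p →* Multiplicative (ZMod (3 ^ s)))
    (j : ℤ_[3] →+* Ak k) (κ : Finset Plc → Gam → Fin 2 → Ak k), b ≤ e → e ≤ k →
    Twr S ρ.ρ k s lam ν → KCl Y k lam ν j (tk k) κ → Nonempty (ZR M n k e f o lam (κ ∅))

/-- The data at the trivial character for the curve. -/
def ZEStmt : Prop := ∀ (n e0 σ : ℕ) (μ : ℤ) (P : Type) [AddCommGroup P] [DistribMulAction Gam P]
  (S : RC n) (M : Mot P) (Y : HP S M) (x : P), Nk n → M.Ell → Rk1 n x →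
  IsOfFinAddOrder (Y.tot - μ • x) → Nat.card (ShaD P n) = 3 ^ σ →
  ∃ b : ℕ, ∀ e, b ≤ e → ∃ c : Gam → Fin 2 → ZMod (3 ^ e), Coc (GK n) (act0 M.ρ e) c ∧
    (∀ K, ∃ s ∈ Np M.ρ n K, 3 ^ e0 • (c s + c (cc * s * cc)) ≠ 0) ∧
    ∀ (k s : ℕ) (lam : Plc) (ν : S.C lam.p →* Multiplicative (ZMod (3 ^ s)))
      (j : ℤ_[3] →+* Ak k) (κ : Finset Plc → Gam → Fin 2 → Ak k), e ≤ k →
      Twr S M.ρ k s lam ν → c (fq lam) ≠ 0 → KCl Y k lam ν j (tk k) κ →
      Nonempty (ZE M n k e σ μ lam (κ ∅))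

/-- The main statement in terms of decomposition groups. -/
def CoreStmt : Prop := ∀ (n : ℕ) (r μ : ℤ) (P : Type) [AddCommGroup P] [DistribMulAction Gam P]
  (φ : PW →+ P) (ι : Type) [Fintype ι] (τ : ι → ℂ) (y : PW) (x : P), Nk n → 108 ∣ r ^ 2 + n →
  Isog φ → HReps27 n r τ → pm jC y = ∑ i, pt27 (τ i) → Rk1 n x →
  IsOfFinAddOrder (φ y - μ • x) → Finite (ShaD P n) →
  μ ≠ 0 ∧ Nat.card (ShaD P n) = 9 ^ padicValInt 3 μ

end Pool.Agent.H3
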