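import Pool.Agent.Lib.MP_23455a_nt.LocS

/-! Local points are approximated by algebraic points. -/

set_option autoImplicit false

open NumberField Filter Topology WeierstrassCurve.Affine
open scoped Classical NNReal

namespace Pool.Agent.H3

open Pool.Agent.Lib.MP_23455a_nt
open Pool.Agent.Lib.MP_580eba_nt (Pl)

section

variable {k L : Type} [Field k] [IsAlgClosed k] [CharZero k] [NormedField L]

theorem fid_near (j : k →+* L) (a b c : k) (z : L) : ∃ r, r ^ 3 + a * r ^ 2 + b * r + c = 0 ∧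
    ‖j r - z‖ ^ 3 ≤ ‖z ^ 3 + j a * z ^ 2 + j b * z + j c‖ := by
  open Polynomial in
  obtain ⟨r, hr⟩ := IsAlgClosed.exists_root (X ^ 3 + C a * X ^ 2 + C b * X + C c : k[X]) (by
    rw [show degree _ = 3 by compute_degree!]; norm_num)
  simp only [Polynomial.IsRoot.def, Polynomial.eval_add, Polynomial.eval_pow, Polynomial.eval_X,
    Polynomial.eval_mul, Polynomial.eval_C] at hr
  obtain ⟨u, hu⟩ := IsAlgClosed.exists_pow_nat_eq ((a + r) ^ 2 - 4 * (b + r * (a + r))) two_pos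
  obtain ⟨s, t, rfl, rfl, rfl⟩ : ∃ s t, a = -(r + s + t) ∧ b = r * s + r * t + s * t ∧
      c = -(r * s * t) := ⟨(-(a + r) + u) / 2, (-(a + r) - u) / 2, by ring,
    by linear_combination hu / 4, by linear_combination hr - r * hu / 4⟩
  rw [show z ^ 3 + j (-(r + s + t)) * z ^ 2 + j (r * s + r * t + s * t) * z + j (-(r * s * t)) =
    -((j r - z) * (j s - z) * (j t - z)) by simp only [map_neg, map_add, map_mul]; ring,
    norm_neg, norm_mul, norm_mul]
  obtain ⟨m, hm, h⟩ := ({r, s, t} : Finset k).exists_min_image (fun x => ‖j x - z‖) (by simp)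
  refine ⟨m, ?_, ?_⟩
  · simp only [Finset.mem_insert, Finset.mem_singleton] at hm
    rcases hm with rfl | rfl | rfl <;> ring
  · rw [pow_three']
    have h1 := h r (by simp)
    have h2 := h s (by simp)
    have h3 := h t (by simp)
    gcongr

theorem fid_mem (j : k →+* L) {a b c : k} {z : L} (h : z ^ 3 + j a * z ^ 2 + j b * z + j c = 0) :
    z ∈ j.range := by
  obtain ⟨r, -, hr⟩ := fid_near j a b c z
  rw [h, norm_zero] at hr
  exact ⟨r, by simpa [sub_eq_zero] using hr.antisymm (by positivity)⟩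

/-- Continuity of roots. -/
theorem fid_root (j : k →+* L) (a b c : ℕ → k) {z : L} (h : Tendsto
    (fun n => z ^ 3 + j (a n) * z ^ 2 + j (b n) * z + j (c n)) atTop (𝓝 0)) : ∃ r : ℕ → k,
    (∀ n, r n ^ 3 + a n * r n ^ 2 + b n * r n + c n = 0) ∧ Tendsto (fun n => j (r n)) atTop (𝓝 z) := by
  choose r h1 h2 using fun n => fid_near j (a n) (b n) (c n) z
  refine ⟨r, h1, Metric.tendsto_nhds.2 fun ε hε => ?_⟩
  filter_upwards [Metric.tendsto_nhds.1 h _ (pow_pos hε 3)] with n hn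
  rw [dist_zero_right] at hn
  rw [dist_eq_norm]
  exact lt_of_pow_lt_pow_left₀ 3 hε.le ((h2 n).trans_lt hn)

theorem fid_sep {ι : Type} [Finite ι] {a : ℕ → L} {z : L} (h : Tendsto a atTop (𝓝 z))
    {f : ι → ℕ → L} {g : ι → L} (hf : ∀ i, Tendsto (f i) atTop (𝓝 (g i)))
    (hg : Function.Injective g) : ∀ᶠ n in atTop, ∀ i j, ‖f i n - g j‖ = ‖a n - z‖ → i = j := by
  simp only [eventually_all]
  intro i j
  by_cases e : i = j
  · exact .of_forall fun _ _ => e
  filter_upwards [(tendsto_iff_norm_sub_tendsto_zero.1 h).eventually_lt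
    ((hf i).sub_const (g j)).norm (norm_pos_iff.2 (sub_ne_zero.2 (hg.ne e)))] with n hn k
  exact absurd k hn.ne'

theorem fid_cube {a : ℕ → L} {z : L} (h : Tendsto a atTop (𝓝 z)) (hz : z ≠ 0) :
    ∀ᶠ n in atTop, ∀ u w : L, u ^ 3 = 1 → w ^ 3 = 1 → ‖a n / u - z / w‖ = ‖a n - z‖ → u = w := by
  have : Finite {u : L | u ^ 3 = 1} := ((Polynomial.nthRootsFinset 3 (1 : L)).finite_toSet.subset
    fun w hw => (Polynomial.mem_nthRootsFinset (by norm_num) 1).2 hw).to_subtype
  filter_upwards [fid_sep (ι := {u : L | u ^ 3 = 1}) h (fun u => h.div_const u)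
    fun u w e => Subtype.ext (inv_injective (mul_left_cancel₀ hz (by
      simpa only [div_eq_mul_inv] using e)))] with n hn u w hu hw e
  exact congrArg Subtype.val (hn ⟨u, hu⟩ ⟨w, hw⟩ e)

theorem fid_rho {a : ℕ → L} {z : L} (h : Tendsto a atTop (𝓝 z)) (h0 : z ≠ 0) (h1 : z + 1 ≠ 0)
    (h2 : z ^ 2 + z + 1 ≠ 0) : ∀ᶠ n in atTop, ∀ i j : ZMod 3,
      ‖rho^[i.val] (a n) - rho^[j.val] z‖ = ‖a n - z‖ → i = j := by
  refine fid_sep h (fun i => ?_) fun i j => rho_inj h0 h1 h2
  have key : ∀ {a : ℕ → L} {z : L}, Tendsto a atTop (𝓝 z) → 1 + z ≠ 0 →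
      Tendsto (fun n => rho (a n)) atTop (𝓝 (rho z)) := fun h e =>
    tendsto_const_nhds.div (h.const_add 1) e
  have h3 : 1 + z ≠ 0 := by rwa [add_comm]
  obtain rfl | rfl | rfl := zmod_cases i
  · exact h
  · exact key h h3
  · exact key (key h h3) (by rw [rho]; grind)

variable [CharZero L]

theorem fid_sat (j : k →+* L) {Z : Pt L} (h : 3 • Z ∈ (pm j).range) : Z ∈ (pm j).range := by
  obtain ⟨A, hA⟩ := h
  obtain ⟨A, rfl⟩ := exists_third A
  obtain ⟨i, w, hw, rfl⟩ := exists_e3_add (hA.symm.trans (map_nsmul _ _ _))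
  obtain ⟨w, rfl⟩ := fid_mem j (a := 0) (b := 0) (c := -1) (z := w) (by simp [hw])
  exact ⟨A + e3 i w, by rw [map_add, pm_e3 _ _ (j.injective (by simpa using hw))]⟩

end

attribute [local instance] nKv nOm uOm

variable {K : Type} [Field K] [NumberField K] {v : Pl K}

theorem fid_seq {y : Om v} (h : ∀ s : GalK (Kv v), s y = y) :
    ∃ a : ℕ → K, Tendsto (fun n => algebraMap K (Om v) (a n)) atTop (𝓝 y) := by
  have : CharZero (Kv v) := algebraRat.charZero _
  obtain ⟨y, rfl⟩ := (InfiniteGalois.mem_range_algebraMap_iff_fixed y).2 h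
  have h1 : algebraMap (Kv v) (Om v) y ∈ closure (Set.range (algebraMap K (Om v))) :=
    (v.denseRange_algebraMap K).induction_on y (isClosed_closure.preimage cont_Kv) fun x =>
      subset_closure ⟨x, IsScalarTower.algebraMap_apply ..⟩
  obtain ⟨a, h2, h3⟩ := mem_closure_iff_seq_limit.1 h1
  choose b hb using h2
  exact ⟨b, by simpa only [hb] using h3⟩

theorem fid_norm (s : GalK (Kv v)) (x y : Om v) : ‖s x - s y‖ = ‖x - y‖ := by
  rw [← map_sub]
  exact congrArg NNReal.toReal (Wv_aut s _)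

theorem fid_core (j : Kb K →ₐ[K] Om v) {R : Pt (Om v)}
    (h : ∀ s : GalK (Kv v), pm (s : Om v →+* Om v) (3 • R) = 3 • R) : ∃ R' : Pt (Kb K),
    ∀ s : GalK (Kv v), pm (s : Om v →+* Om v) (R - pm (j : Kb K →+* Om v) R') =
      R - pm (j : Kb K →+* Om v) R' := by
  generalize hJ : (j : Kb K →+* Om v) = J
  have hK : ∀ a, J (algebraMap K _ a) = algebraMap K _ a := fun a => hJ ▸ j.commutes a
  by_cases h0 : R ∈ (pm J).range
  · obtain ⟨R, rfl⟩ := h0
    exact ⟨R, fun s => by rw [sub_self, map_zero]⟩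
  replace h0 := mt (fid_sat J) h0
  rcases e : 3 • R with _ | ⟨x, y, k⟩
  · exact absurd (e ▸ zero_mem _) h0
  have e0 : 3 • R ≠ 0 := e ▸ Point.some_ne_zero k
  have h1 := ns_iff.1 k
  have hx : x ∉ J.range := by
    rintro ⟨x, rfl⟩
    obtain ⟨y, rfl⟩ := fid_mem J (a := 1) (b := 7 - x ^ 3) (c := 0) (z := y)
      (by simp only [map_sub, map_pow, map_ofNat, map_one, map_zero]; linear_combination y * h1)
    exact h0 ⟨mkP x y (J.injective (by simpa [map_ofNat] using h1)), e.symm⟩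
  have x0 : x ≠ 0 := fun k => hx (k ▸ zero_mem _)
  have x3 : x ≠ 3 := fun k => hx ⟨3, (map_ofNat J 3).trans k.symm⟩
  rw [e] at h
  obtain ⟨v1, v2⟩ := vv_ne e0
  have v3 := vv_cubic e
  have g1 : gm R ^ 3 = y - 3 * x + 5 := by rw [gm_cube, e, fT_some k fun k => x3 k.1]
  obtain ⟨b, hb⟩ := fid_seq (y := y) fun s => ((Point.some.injEq ..).mp (h s)).2
  obtain ⟨a, a1, ha⟩ := fid_root J 0 0 (fun n => algebraMap K _ (-(b n ^ 2 + b n + 7))) (z := x) (by
    simp only [hK, map_neg, map_add, map_pow, map_ofNat, Pi.zero_apply, map_zero]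
    convert (((hb.pow 2).add hb).add_const 7).neg.const_add _ using 2
    linear_combination h1)
  obtain ⟨V, V1, hV⟩ := fid_root J (fun n => algebraMap K _ (1 - b n))
    (fun n => algebraMap K _ (-2 - b n)) (fun _ => -1) (z := vv R) (by
    simp only [hK, map_neg, map_sub, map_ofNat, map_one]
    convert ((((hb.const_sub 1).mul_const _).const_add _).add
      ((hb.const_sub (-2)).mul_const _)).add_const _ using 2
    linear_combination -v3)
  obtain ⟨γ, γ1, hγ⟩ := fid_root J 0 0 (fun n => -(algebraMap K _ (b n) - 3 * a n + 5))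
    (z := gm R) (by
    simp only [hK, map_neg, map_add, map_sub, map_mul, map_ofNat, Pi.zero_apply, map_zero]
    convert ((hb.sub (ha.const_mul 3)).add_const 5).neg.const_add _ using 2
    linear_combination -g1)
  obtain ⟨n, n1, n2, n3, n4, n5⟩ := ((fid_cube ha x0).and ((fid_cube hγ (gm_ne R)).and
    ((fid_rho hV v1 v2 (by grind)).and ((ha.eventually_ne x3).and
      (hγ.eventually_ne (gm_ne R)))))).exists
  have a2 := a1 n
  have V2 := V1 n
  have γ2 := γ1 n
  simp only [map_neg, map_add, map_sub, map_pow, map_ofNat, map_one, Pi.zero_apply] at a2 V2 γ2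
  have hs : ∀ s : GalK (Kv v), s (J (algebraMap K _ (b n))) = J (algebraMap K _ (b n)) := fun s => by
    rw [hK, IsScalarTower.algebraMap_apply K (Kv v), s.commutes]
  generalize algebraMap K (Kb K) (b n) = b at a2 V2 γ2 hs
  generalize a n = a, V n = V, γ n = γ at *
  have k' : b ^ 2 + b = a ^ 3 - 7 := by linear_combination -a2
  obtain ⟨Q, q1, q2⟩ := exists_third_vv (h := ns_iff.2 k') (V := V) (by linear_combination V2)
  have γ0 : γ ≠ 0 := fun k => n5 (by rw [k, map_zero])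
  have w3 : (gm Q / γ) ^ 3 = 1 := by
    rw [div_pow, gm_cube, q1, fT_some _ fun k => n4 (by rw [k.1, map_ofNat]),
      div_eq_one_iff_eq (pow_ne_zero 3 γ0)]
    linear_combination -γ2
  have q3 : gm (Q + e3 0 (gm Q / γ)) = γ := mul_right_cancel₀ (div_ne_zero (gm_ne Q) γ0)
    ((gm_add_e3 Q 0 w3).trans (mul_div_cancel₀ _ γ0).symm)
  have q4 : vv (Q + e3 0 (gm Q / γ)) = V :=
    (vv_add_e3 (q1 ▸ Point.some_ne_zero _) 0 w3).trans q2
  have q5 : 3 • (Q + e3 0 (gm Q / γ)) = mkP a b k' := by rw [nsmul_add, three_e3 0 w3, add_zero, q1]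
  generalize Q + e3 0 (gm Q / γ) = Q at q3 q4 q5
  refine ⟨Q, fun s => ?_⟩
  have s1 : s x = x := ((Point.some.injEq ..).mp (h s)).1
  have s2 : s (J a) = J a := by
    have k1 : J a ^ 3 = J b ^ 2 + J b + 7 := by
      simpa only [map_add, map_pow, map_ofNat] using
        congrArg J (show a ^ 3 = b ^ 2 + b + 7 by linear_combination -k')
    have k2 : s (J a) ^ 3 = J a ^ 3 := by
      rw [← map_pow, k1, map_add, map_add, map_pow, hs, map_ofNat]
    by_cases k3 : J a = 0
    · rw [k3, map_zero]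
    have k4 := (map_ne_zero s).2 k3
    exact ((div_eq_one_iff_eq k4).1 (n1 (J a / s (J a)) 1 (by
      rw [div_pow, k2, div_self (pow_ne_zero 3 k3)]) (one_pow 3) (by
        rw [div_div_cancel₀ k3, div_one, ← fid_norm s (J a) x, s1]))).symm
  have s3 : 3 • pm (s : Om v →+* Om v) (pm J Q) = 3 • pm J Q := by
    rw [← map_nsmul, ← map_nsmul, q5]
    exact (Point.some.injEq ..).mpr ⟨s2, hs s⟩
  have s4 : 3 • pm J Q ≠ 0 := by
    rw [← map_nsmul, q5]
    exact Point.some_ne_zero _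
  obtain ⟨i, w, hw, e1⟩ := exists_e3_add (P := R) (Q := pm (s : Om v →+* Om v) R)
    (by rw [← map_nsmul, e, h])
  obtain ⟨i', w', hw', e2⟩ := exists_e3_add s3
  have w0 : ∀ {w : Om v}, w ^ 3 = 1 → w ≠ 0 := fun h => by grind
  rw [← q4, ← vv_pm J Q] at n3
  rw [← q3, ← gm_pm J Q] at n2
  generalize pm J Q = Q at *
  obtain rfl : i' = i := n3 _ _ (by
    rw [← vv_add_e3 e0 i hw, ← vv_add_e3 s4 i' hw', ← e1, ← e2, vv_pm, vv_pm]
    exact fid_norm s _ _)
  obtain rfl : w' = w := n2 _ _ hw' hw (by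
    rw [← eq_div_of_mul_eq (w0 hw) (gm_add_e3 R i' hw),
      ← eq_div_of_mul_eq (w0 hw') (gm_add_e3 Q i' hw'), ← e1, ← e2, gm_pm, gm_pm]
    exact fid_norm s _ _)
  rw [map_sub, e1, e2, add_sub_add_right_eq_sub]

end Pool.Agent.H3
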