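import Pool.Agent.Lib.MP_23455a_nt.H3.CLe
import Pool.Agent.Lib.MP_696deb_nt.B2.GWb
import Pool.Agent.Lib.MP_696deb_nt.B2.GWl

/-! Duality for finite Galois modules: definitions. -/

set_option autoImplicit false

open scoped NNReal Classical
open Finset

namespace Pool.Agent.H3

open Pool.Agent.Lib.MP_696deb_nt.B2

/-- The group with three elements, in the form that is used by the local invariants. -/
abbrev Z3 : Type := ZMod (3 ^ 1)

theorem Z3.mul_self {t : Z3} (h : t ≠ 0) : t * t = 1 := by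
  revert t
  decide

theorem Z3.three (t : Z3) : 3 • t = 0 := by
  revert t
  decide

theorem Z3.val_smul (s t : Z3) : s.val • t = s * t := by
  rw [nsmul_eq_mul, ZMod.natCast_zmod_val]

theorem Z3.mul_ne {s t : Z3} (h : s ≠ 0) (h' : t ≠ 0) : s * t ≠ 0 := by
  revert s t
  decide

theorem Z3.one_ne : (1 : Z3) ≠ 0 := by decide

theorem Z3.card : Nat.card Z3 = 3 := Nat.card_zmod _

theorem Z3.map {A : Type} [AddCommGroup A] (f : Z3 →+ A) (s t : Z3) : f (s * t) = s.val • f t := by
  rw [← Z3.val_smul, map_nsmul]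

/-- The trivial action on the group with three elements. -/
def tr (_ : Gam) : Z3 →+ Z3 := AddMonoidHom.id Z3

@[simp] theorem tr_apply (g : Gam) (t : Z3) : tr g t = t := rfl

/-- Multiplication as a pairing. -/
def mu3 : Z3 →+ Z3 →+ ZMod (3 ^ 1) := AddMonoidHom.mul

@[simp] theorem mu3_apply (s t : Z3) : mu3 s t = s * t := rfl

/-- The embedding of the group with three elements into a cyclic group. -/
def up (n : ℕ) (t : Z3) : ZMod (3 ^ (1 + n)) := 3 ^ n * (t.val : ZMod (3 ^ (1 + n)))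

section

variable {M M' N N' : Type} [AddCommGroup M] [AddCommGroup M'] [AddCommGroup N] [AddCommGroup N']

/-- The invariants. -/
def H0 (D : Subgroup Gam) (a : Gam → M →+ M) : AddSubgroup M where
  carrier := {x | ∀ g ∈ D, a g x = x}
  zero_mem' := fun _ _ => map_zero _
  add_mem' := fun h h' g hg => by rw [map_add, h g hg, h' g hg]
  neg_mem' := fun h g hg => by rw [map_neg, h g hg]

theorem mem_H0 {D : Subgroup Gam} {a : Gam → M →+ M} {x : M} :
    x ∈ H0 D a ↔ ∀ g ∈ D, a g x = x := Iff.rfl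

/-- The coboundary map. -/
noncomputable def cobH (D : Subgroup Gam) (a : Gam → M →+ M) : M →+ (Gam → M) :=
  (rs D).comp
    { toFun := cob a
      map_zero' := funext fun g => by simp [cob]
      map_add' := fun x y => funext fun g => by
        simp only [cob, map_add, Pi.add_apply]
        abel }

theorem cobH_apply (D : Subgroup Gam) (a : Gam → M →+ M) (x : M) :
    cobH D a x = rs D (cob a x) := rfl

/-- The group of coboundaries. -/
noncomputable def B1 (D : Subgroup Gam) (a : Gam → M →+ M) : AddSubgroup (Gam → M) :=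
  (cobH D a).range

theorem mem_B1 {D : Subgroup Gam} {a : Gam → M →+ M} {c : Gam → M} :
    c ∈ B1 D a ↔ ∃ x, rs D (cob a x) = c := Iff.rfl

/-- The cocycles that are unramified away from `s` and satisfy a condition at each place of `s`. -/
noncomputable def ZcU (H : Subgroup Gam) (a : Gam → M →+ M) (s : Finset Plc)
    (U : Plc → AddSubgroup (Gam → M)) : AddSubgroup (Gam → M) :=
  Zu H a s ⊓ ⨅ w ∈ s, (U w).comap (rs (H ⊓ Dec w))

theorem mem_Zc {H : Subgroup Gam} {a : Gam → M →+ M} {s : Finset Plc}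
    {U : Plc → AddSubgroup (Gam → M)} {c : Gam → M} :
    c ∈ ZcU H a s U ↔ c ∈ Zu H a s ∧ ∀ w ∈ s, rs (H ⊓ Dec w) c ∈ U w := by
  simp [ZcU, AddSubgroup.mem_iInf]

/-- The cocycles that are rigidly trivial at all places of `s`. -/
def Rs (H : Subgroup Gam) (a : Gam → M →+ M) (s : Finset Plc) :
    AddSubgroup ((Gam → M) × (Plc → M)) where
  carrier := {z | z.1 ∈ Z1 H a ∧ (∀ w, Away H s w → ∀ σ ∈ H ⊓ Ine w, z.1 σ = 0) ∧
    (∀ w ∈ s, ∀ g ∈ H ⊓ Dec w, z.1 g = cob a (z.2 w) g) ∧ ∀ w ∉ s, z.2 w = 0}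
  zero_mem' := ⟨zero_mem _, fun _ _ _ _ => rfl, fun _ _ _ _ => by simp [cob], fun _ _ => rfl⟩
  add_mem' := fun h h' => ⟨add_mem h.1 h'.1,
    fun w hw σ hσ => by simp [h.2.1 w hw σ hσ, h'.2.1 w hw σ hσ],
    fun w hw g hg => by
      simp only [Prod.fst_add, Prod.snd_add, Pi.add_apply, h.2.2.1 w hw g hg, h'.2.2.1 w hw g hg,
        cob, map_add]
      abel,
    fun w hw => by simp [h.2.2.2 w hw, h'.2.2.2 w hw]⟩
  neg_mem' := fun h => ⟨neg_mem h.1, fun w hw σ hσ => by simp [h.2.1 w hw σ hσ],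
    fun w hw g hg => by
      simp only [Prod.fst_neg, Prod.snd_neg, Pi.neg_apply, h.2.2.1 w hw g hg, cob, map_neg]
      abel,
    fun w hw => by simp [h.2.2.2 w hw]⟩

/-- The local degree at places above three. -/
noncomputable def ldeg (H : Subgroup Gam) (w : Plc) : ℕ :=
  if w.p = 3 then (H ⊓ Dec w).relIndex (Dec w) else 0

/-- The finiteness of the set of cubic characters with bounded ramification. -/
def FinH (H : Subgroup Gam) : Prop := ∀ s : Finset Plc, Finite (Zu H tr s)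

/-- Generators of the pro-three quotient of inertia. -/
def TG (H : Subgroup Gam) (w : Plc) (τ : Gam) : Prop :=
  τ ∈ H ⊓ Ine w ∧ ∀ (F : Type) [Group F] (π : Gam → F), Sm (H ⊓ Ine w) π → IsMul (H ⊓ Ine w) π →
    (∀ g ∈ H ⊓ Ine w, ∃ n : ℕ, π g ^ 3 ^ n = 1) → ∀ σ ∈ H ⊓ Ine w, ∃ k : ℕ, π σ = π τ ^ k

theorem exists_TG {H : Subgroup Gam} {w : Plc} (hH : Op H) (hw : w.p ≠ 3) : ∃ τ, TG H w τ :=
  tame_cyc hH hw

/-- A submodule of order three, the quotient, and the dual sequence. -/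
structure Step (n : ℕ) (H : Subgroup Gam) (a : Gam → M →+ M) (a' : Gam → M' →+ M')
    (b : M →+ M' →+ ZMod (3 ^ (1 + n))) (a2 : Gam → N →+ N) (a2' : Gam → N' →+ N')
    (b2 : N →+ N' →+ ZMod (3 ^ (1 + n))) (ι : Z3 →+ M) (π : M →+ N) (j : N' →+ M')
    (ε : M' →+ Z3) : Prop where
  h3 : H ≤ GK 3
  dual : Dual (1 + n) H a a' b
  dual2 : Dual (1 + n) H a2 a2' b2
  ι_inj : Function.Injective ι
  π_surj : Function.Surjective π
  ex : ∀ x, π x = 0 ↔ ∃ t, ι t = x
  j_inj : Function.Injective j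
  ε_surj : Function.Surjective ε
  ex' : ∀ y, ε y = 0 ↔ ∃ z, j z = y
  aι : ∀ g ∈ H, ∀ t, a g (ι t) = ι t
  πa : ∀ g ∈ H, ∀ x, π (a g x) = a2 g (π x)
  ja : ∀ g ∈ H, ∀ z, j (a2' g z) = a' g (j z)
  εa : ∀ g ∈ H, ∀ y, ε (a' g y) = ε y
  bj : ∀ x z, b x (j z) = b2 (π x) z
  bι : ∀ t y, b (ι t) y = up n (t * ε y)

/-- The obstruction to lifting a cocycle. -/
noncomputable def ob (a : Gam → M →+ M) (ι : Z3 →+ M) (π : M →+ N) (c : Gam → N) (g h : Gam) :
    Z3 :=
  Function.invFun ι (Function.invFun π (c g) + a g (Function.invFun π (c h)) -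
    Function.invFun π (c (g * h)))

/-- The image of the rigidly trivial cocycles in the group of order three. -/
noncomputable def imR (H : Subgroup Gam) (a' : Gam → M' →+ M') (s : Finset Plc) (ε : M' →+ Z3) :
    AddSubgroup ((Gam → Z3) × (Plc → Z3)) :=
  (Rs H a' s).map (AddMonoidHom.prodMap (ε.compLeft Gam) (ε.compLeft Plc))

/-- The part of the image with trivial character. -/
noncomputable def R0 (H : Subgroup Gam) (a' : Gam → M' →+ M') (s : Finset Plc) (ε : M' →+ Z3) :
    AddSubgroup ((Gam → Z3) × (Plc → Z3)) := imR H a' s ε ⊓ (AddMonoidHom.fst _ _).ker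

/-- The characters in the image. -/
noncomputable def SR (H : Subgroup Gam) (a' : Gam → M' →+ M') (s : Finset Plc) (ε : M' →+ Z3) :
    AddSubgroup (Gam → Z3) := (imR H a' s ε).map (AddMonoidHom.fst _ _)

/-- The cocycles that have a lift, possibly with more ramification. -/
noncomputable def KLift (H : Subgroup Gam) (a : Gam → M →+ M) (a2 : Gam → N →+ N) (s : Finset Plc)
    (π : M →+ N) : AddSubgroup (Gam → N) := Zu H a2 s ⊓ (Z1 H a).map (π.compLeft Gam)

end

end Pool.Agent.H3
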