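import Pool.Agent.Lib.MP_23455a_nt.H3.GW0

/-! Pairings of finite abelian groups. -/

set_option autoImplicit false

open scoped NNReal Classical
open Finset

namespace Pool.Agent.H3

open Pool.Agent.Lib.MP_696deb_nt.B2

/-- Orthogonal subgroups for the standard scalar product. -/
theorem dot_card_le {ι : Type} [Fintype ι] (W W' : AddSubgroup (ι → Z3))
    (h : ∀ x ∈ W, ∀ y ∈ W', ∑ i, x i * y i = 0) :
    Nat.card W * Nat.card W' ≤ 3 ^ Fintype.card ι := by
  let P : (ι → Z3) →+ (ι → Z3) →+ ZMod (3 ^ 1) := AddMonoidHom.mk'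
    (fun x => AddMonoidHom.mk' (fun y => ∑ i, x i * y i) fun y z => by
      simp only [Pi.add_apply, mul_add, Finset.sum_add_distrib])
    fun x z => AddMonoidHom.ext fun y => by
      simp only [Pi.add_apply, add_mul, Finset.sum_add_distrib, AddMonoidHom.mk'_apply,
        AddMonoidHom.add_apply]
  have hP : ∀ x y, P x y = ∑ i, x i * y i := fun _ _ => rfl
  have hk : P.ker = ⊥ := by
    refine eq_bot_iff.2 fun x hx => AddSubgroup.mem_bot.2 (funext fun i => ?_)
    have h1 : P x (Pi.single i 1) = 0 := DFunLike.congr_fun (AddMonoidHom.mem_ker.1 hx) _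
    rw [hP, Finset.sum_eq_single i (fun j _ hj => by rw [Pi.single_eq_of_ne hj, mul_zero])
      (fun hi => absurd (Finset.mem_univ i) hi), Pi.single_eq_same, mul_one] at h1
    exact h1
  have h1 := card_ann P W
  have h2 := Z3.card
  rw [hk, inf_bot_eq, AddSubgroup.card_bot, mul_one, Nat.card_fun, h2,
    Nat.card_eq_fintype_card (α := ι)] at h1
  rw [← h1]
  exact Nat.mul_le_mul_left _ (AddSubgroup.card_le_of_le (show W' ≤ ann P W from
    fun y hy x hx => h x hx y hy))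

theorem GWa_up_nat (n k : ℕ) : up n (k : Z3) = 3 ^ n * (k : ZMod (3 ^ (1 + n))) := by
  have h := ZMod.natCast_self (3 ^ (1 + n))
  rw [Nat.cast_pow, Nat.cast_ofNat] at h
  rw [up, ZMod.val_natCast]
  nth_rw 2 [← Nat.mod_add_div k (3 ^ 1)]
  push_cast
  linear_combination (-(k / 3 : ℕ) : ZMod (3 ^ (1 + n))) * h

theorem up_add (n : ℕ) (s t : Z3) : up n (s + t) = up n s + up n t := by
  rw [← ZMod.natCast_zmod_val s, ← ZMod.natCast_zmod_val t, ← Nat.cast_add, GWa_up_nat, GWa_up_nat,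
    GWa_up_nat, Nat.cast_add, mul_add]

theorem up_zero (n : ℕ) : up n 0 = 0 := by
  rw [up, ZMod.val_zero, Nat.cast_zero, mul_zero]

theorem up_mul (n : ℕ) (s t : Z3) : up n (s * t) = s.val • up n t :=
  Z3.map (AddMonoidHom.mk' (up n) (up_add n)) s t

theorem up_eq_zero {n : ℕ} {t : Z3} : up n t = 0 ↔ t = 0 := by
  refine ⟨fun h => ?_, fun h => by rw [h, up_zero]⟩
  have h1 : ((3 ^ n * t.val : ℕ) : ZMod (3 ^ (1 + n))) = 0 := by
    rw [Nat.cast_mul, Nat.cast_pow, Nat.cast_ofNat]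
    exact h
  have h2 := (ZMod.natCast_eq_zero_iff _ _).1 h1
  rw [add_comm, pow_add] at h2
  rw [← ZMod.natCast_zmod_val t]
  exact (ZMod.natCast_eq_zero_iff _ _).2 (Nat.dvd_of_mul_dvd_mul_left (by positivity) h2)

theorem up_inj {n : ℕ} {s t : Z3} (h : up n s = up n t) : s = t :=
  (injective_iff_map_eq_zero (AddMonoidHom.mk' (up n) (up_add n))).2
    (fun _ k => up_eq_zero.1 k) h

theorem up_sum {ι : Type} (n : ℕ) (s : Finset ι) (t : ι → Z3) :
    up n (∑ i ∈ s, t i) = ∑ i ∈ s, up n (t i) :=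
  map_sum (AddMonoidHom.mk' (up n) (up_add n)) t s

theorem exists_up {n : ℕ} {x : ZMod (3 ^ (1 + n))} (h : 3 • x = 0) : ∃ t, up n t = x := by
  have h1 : ((3 * x.val : ℕ) : ZMod (3 ^ (1 + n))) = 0 := by
    rw [Nat.cast_mul, ZMod.natCast_zmod_val, ← nsmul_eq_mul]
    exact h
  have h2 : 3 * 3 ^ n ∣ 3 * x.val := by
    rw [← pow_succ', add_comm n 1]
    exact (ZMod.natCast_eq_zero_iff _ _).1 h1
  obtain ⟨k, hk⟩ := Nat.dvd_of_mul_dvd_mul_left three_pos h2
  refine ⟨k, ?_⟩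
  rw [GWa_up_nat, ← ZMod.natCast_zmod_val x, hk, Nat.cast_mul, Nat.cast_pow, Nat.cast_ofNat]

theorem cy_mul_up (n : ℕ) {g : Gam} (hg : g ∈ GK 3) (t : Z3) :
    cy (1 + n) g * up n t = up n t := by
  have h1 : (((cy (1 + n) g).val : ℕ) : Z3) = 1 := by
    rw [← mem_GK3.1 hg, ← cy_cast (Nat.le_add_right 1 n) g, ZMod.castHom_apply, ZMod.natCast_val]
  have h2 := GWa_up_nat n ((cy (1 + n) g).val * t.val)
  rw [Nat.cast_mul, h1, one_mul, ZMod.natCast_zmod_val, Nat.cast_mul, ZMod.natCast_zmod_val] at h2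
  refine Eq.trans ?_ h2.symm
  rw [up]
  ring

end Pool.Agent.H3
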