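import Pool.Agent.Lib.MP_23455a_nt.H3.GWa

/-! Elementary facts on cocycles. -/

set_option autoImplicit false

open scoped NNReal Classical
open Finset

namespace Pool.Agent.H3

open Pool.Agent.Lib.MP_696deb_nt.B2

variable {M M' : Type} [AddCommGroup M] [AddCommGroup M'] {m : ℕ} {H D : Subgroup Gam} {w : Plc}
  {a : Gam → M →+ M} {a' : Gam → M' →+ M'} {b : M →+ M' →+ ZMod (3 ^ m)} {c c₁ : Gam → M}
  {c' c₁' : Gam → M'}

theorem Act.mono (h : Act H a) (k : D ≤ H) : Act D a :=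
  ⟨h.sm.mono k, h.one, fun g hg x hx => h.mul g (k hg) x (k hx), fun g hg => h.three g (k hg)⟩

theorem Dual.mono (h : Dual m H a a' b) (k : D ≤ H) : Dual m D a a' b :=
  ⟨h.act.mono k, h.act'.mono k, fun g hg => h.eqv g (k hg), h.left, h.right⟩

theorem Dual.flip (h : Dual m H a a' b) : Dual m H a' a b.flip :=
  ⟨h.act', h.act, fun g hg y x => h.eqv g hg x y, h.right, h.left⟩

theorem act_tr (H : Subgroup Gam) : Act H tr :=
  ⟨Sm.const (AddMonoidHom.id Z3), fun _ => rfl, fun _ _ _ _ _ => rfl, fun _ _ _ => ⟨0, fun _ => rfl⟩⟩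

theorem dual_tr (h3 : H ≤ GK 3) : Dual 1 H tr tr mu3 :=
  ⟨act_tr H, act_tr H, fun g hg x y => by rw [mem_GK3.1 (h3 hg), one_mul, tr_apply, tr_apply],
    fun x h => (mul_one x).symm.trans (h 1), fun y h => (one_mul y).symm.trans (h 1)⟩

theorem coc_tr {χ : Gam → Z3} : Coc H tr χ ↔ Sm H χ ∧ IsHom H χ := Iff.rfl

theorem Kum.coc_tr {x : Qbar} {κ : Gam → Z3} (h : Kum 1 H x κ) (h3 : H ≤ GK 3) : Coc H tr κ :=
  ⟨h.sm, b3b_hom h3 h⟩

theorem cupb_tr (χ κ : Gam → Z3) {g : Gam} (hg : g ∈ GK 3) (h : Gam) :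
    cupb mu3 tr χ κ g h = cup 1 χ κ g h := by
  rw [cupb, cup, mem_GK3.1 hg, mul_one, mu3_apply, tr_apply]

theorem Coc.mono (h : Coc H a c) (k : D ≤ H) : Coc D a c :=
  ⟨h.1.mono k, fun g hg x hx => h.2 g (k hg) x (k hx)⟩

theorem Coc.congr (h : Coc H a c) (k : ∀ g ∈ H, c g = c₁ g) : Coc H a c₁ :=
  ⟨h.1.congr k, fun g hg x hx => by
    rw [← k _ (mul_mem hg hx), ← k g hg, ← k x hx]
    exact h.2 g hg x hx⟩

theorem Coc.sub (h : Coc H a c) (k : Coc H a c₁) : Coc H a (c - c₁) := by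
  rw [sub_eq_add_neg]
  exact h.add k.neg

theorem Coc.one (ha : Act H a) (h : Coc H a c) : c 1 = 0 := by
  have e := h.2 1 H.one_mem 1 H.one_mem
  rw [mul_one, ha.one] at e
  exact left_eq_add.1 e

/-- The image of a cocycle under an equivariant map. -/
theorem Coc.map {N : Type} [AddCommGroup N] {a2 : Gam → N →+ N} (h : Coc H a c) (f : M →+ N)
    (hf : ∀ g ∈ H, ∀ x, f (a g x) = a2 g (f x)) : Coc H a2 fun g => f (c g) :=
  ⟨h.1.comp f, fun g hg x hx => by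
    show f (c (g * x)) = f (c g) + a2 g (f (c x))
    rw [h.2 g hg x hx, map_add, hf g hg]⟩

/-- A cochain whose image under an injective equivariant map is a cocycle is a cocycle. -/
theorem Coc.of_map {N : Type} [AddCommGroup N] {a2 : Gam → N →+ N} {c2 : Gam → N}
    (h : Coc H a2 c2) (f : M →+ N) (hi : Function.Injective f)
    (hf : ∀ g ∈ H, ∀ x, f (a g x) = a2 g (f x)) (hc : ∀ g ∈ H, f (c g) = c2 g) : Coc H a c := by
  obtain ⟨⟨U, u1, u2, u3⟩, h2⟩ := h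
  refine ⟨⟨U, u1, u2, fun g hg x hx e => hi ?_⟩, fun g hg x hx => hi ?_⟩
  · rw [hc g hg, hc x hx, u3 g hg x hx e]
  · rw [hc _ (mul_mem hg hx), map_add, hf g hg, hc g hg, hc x hx, h2 g hg x hx]

theorem cob_coc (ha : Act H a) (x : M) : Coc H a (cob a x) :=
  ⟨ha.sm.comp fun φ => φ x - x, fun g hg k hk => by
    simp only [cob, ha.mul g hg k hk, map_sub]
    abel⟩

theorem rs_mem_Z1 (h : Coc D a c) : rs D c ∈ Z1 D a :=
  ⟨h.congr fun _ hg => (rs_of_mem hg c).symm, fun _ hg => rs_of_notMem hg c⟩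

theorem rs_eq_self (h : c ∈ Z1 D a) : rs D c = c := by
  funext g
  by_cases hg : g ∈ D
  · exact rs_of_mem hg c
  · rw [rs_of_notMem hg, h.2 g hg]

theorem rs_mem_B1 : rs D c ∈ B1 D a ↔ ∃ x, ∀ g ∈ D, c g = cob a x g := by
  rw [mem_B1]
  refine exists_congr fun x => ⟨fun e g hg => ?_, fun e => funext fun g => ?_⟩
  · rw [← rs_of_mem hg c, ← e, rs_of_mem hg]
  · by_cases hg : g ∈ D
    · rw [rs_of_mem hg, rs_of_mem hg, e g hg]
    · rw [rs_of_notMem hg, rs_of_notMem hg]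

theorem B1_le (ha : Act D a) : B1 D a ≤ Z1 D a := by
  rintro _ ⟨x, rfl⟩
  exact rs_mem_Z1 (cob_coc ha x)

theorem card_H0_B1 (D : Subgroup Gam) (a : Gam → M →+ M) :
    Nat.card (H0 D a) * Nat.card (B1 D a) = Nat.card M := by
  have e : H0 D a = (cobH D a).ker := by
    ext x
    rw [mem_H0, AddMonoidHom.mem_ker, cobH_apply]
    refine ⟨fun h => funext fun g => ?_, fun h g hg => ?_⟩
    · by_cases hg : g ∈ D
      · rw [rs_of_mem hg, cob, h g hg, sub_self, Pi.zero_apply]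
      · exact rs_of_notMem hg _
    · have h1 := congrFun h g
      rw [rs_of_mem hg, cob, Pi.zero_apply] at h1
      exact sub_eq_zero.1 h1
  rw [e]
  exact (card_ker_range (cobH D a)).symm

theorem Dual.card_eq [Finite M] [Finite M'] (h : Dual m H a a' b) : Nat.card M' = Nat.card M := by
  have e1 : b.ker = ⊥ := (AddSubgroup.eq_bot_iff_forall _).2 fun x hx =>
    h.left x fun y => by rw [AddMonoidHom.mem_ker.1 hx, AddMonoidHom.zero_apply]
  have e2 : b.flip.ker = ⊥ := (AddSubgroup.eq_bot_iff_forall _).2 fun y hy =>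
    h.right y fun x => by
      rw [← AddMonoidHom.flip_apply b x y, AddMonoidHom.mem_ker.1 hy, AddMonoidHom.zero_apply]
  have e := pair_card b
  rw [e1, e2, AddSubgroup.card_bot, AddSubgroup.card_bot, mul_one, mul_one] at e
  exact e.symm

theorem Dual.pow_smul (h : Dual m H a a' b) (x : M) : 3 ^ m • x = 0 :=
  h.left _ fun y => by
    rw [map_nsmul, AddMonoidHom.nsmul_apply, nsmul_eq_mul, ZMod.natCast_self, zero_mul]

theorem Dual.ine (h : Dual m H a a' b) (hw : w.p ≠ 3) (k : ∀ σ ∈ H ⊓ Ine w, ∀ x, a σ x = x) :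
    ∀ σ ∈ H ⊓ Ine w, ∀ y, a' σ y = y := by
  intro σ hσ y
  refine sub_eq_zero.1 (h.right _ fun x => ?_)
  have e := h.eqv σ hσ.1 x y
  rw [k σ hσ, cy, cyc_ine hw hσ.2, map_one, one_mul] at e
  rw [map_sub, e, sub_self]

theorem GoodA.dual {s : Finset Plc} (k : GoodA H a s) (h : Dual m H a a' b) : GoodA H a' s :=
  fun w hw => ⟨(k w hw).1, h.ine (k w hw).1 (k w hw).2⟩

theorem GoodA.mono {s s' : Finset Plc} (k : GoodA H a s) (h : s ⊆ s') : GoodA H a s' :=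
  fun w hw => k w fun v hv => hw v (h hv)

/-- Ramification only depends on the class of the place. -/
theorem Coc.unr_smul (ha : Act H a) (h : Coc H a c) (k : ∀ σ ∈ H ⊓ Ine w, ∀ x, a σ x = x)
    (hc : ∀ σ ∈ H ⊓ Ine w, c σ = 0) {g : Gam} (hg : g ∈ H) :
    ∀ σ ∈ H ⊓ Ine (g • w), c σ = 0 := by
  intro σ hσ
  have hτ : g⁻¹ * σ * g ∈ H ⊓ Ine w :=
    ⟨H.mul_mem (H.mul_mem (H.inv_mem hg) hσ.1) hg, mem_Ine_smul.1 hσ.2⟩
  have e0 : σ * g = g * (g⁻¹ * σ * g) := by group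
  have e1 := h.2 σ hσ.1 g hg
  rw [e0, h.2 g hg _ hτ.1, hc _ hτ, map_zero, add_zero] at e1
  have e2 : ∀ x, a σ (a g x) = a g x := fun x => by
    rw [← ha.mul σ hσ.1 g hg, e0, ha.mul g hg _ hτ.1, k _ hτ]
  have e3 : a g (a g⁻¹ (c g)) = c g := by
    rw [← ha.mul g hg _ (inv_mem hg), mul_inv_cancel, ha.one]
  have e4 := e2 (a g⁻¹ (c g))
  rw [e3] at e4
  rw [e4] at e1
  exact right_eq_add.1 e1

/-- A smooth cocycle is unramified at almost all primes. -/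
theorem Coc.finite_ram (ha : Act H a) (h : Coc H a c) :
    ∃ s : Finset ℕ, ∀ w : Plc, w.p ∉ s → ∀ σ ∈ H ⊓ Ine w, c σ = 0 := by
  obtain ⟨U, u1, -, u3⟩ := h.1
  obtain ⟨s, hs⟩ := Lib.MP_696deb_nt.B2.finite_ram u1
  refine ⟨s, fun w hw σ hσ => ?_⟩
  rw [← u3 1 H.one_mem σ hσ.1 (by simpa using hs w hw hσ.2), h.one ha]

end Pool.Agent.H3
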