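import Pool.Agent.Lib.MP_23455a_nt.H3.GWc

/-! Cup products and local invariants. -/

set_option autoImplicit false

open scoped NNReal Classical
open Finset

namespace Pool.Agent.H3

open Pool.Agent.Lib.MP_696deb_nt.B2

variable {M M' : Type} [AddCommGroup M] [AddCommGroup M'] {m : ℕ} {H D : Subgroup Gam} {w : Plc}
  {a : Gam → M →+ M} {a' : Gam → M' →+ M'} {b : M →+ M' →+ ZMod (3 ^ m)} {c c₁ : Gam → M}
  {c' c₁' : Gam → M'}

theorem c2_cupb (hd : Dual m D a a' b) (h : Coc D a c) (h' : Coc D a' c') :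
    C2 m D (cupb b a' c c') := by
  refine ⟨(h.1.comp₂ hd.act'.sm Prod.mk).left.comp₂ h'.1.right fun x y => b x.1 (x.2 y),
    fun g hg k hk l hl => ?_⟩
  simp only [cupb]
  rw [← hd.eqv g hg, h.2 g hg k hk, h'.2 k hk l hl, hd.act'.mul g hg k hk]
  simp only [map_add, AddMonoidHom.add_apply]
  ring

theorem spl_cupb_left (hd : Dual m D a a' b) {x : M} (h : ∀ g ∈ D, c g = cob a x g)
    (h' : Coc D a' c') : Spl m D (cupb b a' c c') := by
  refine ⟨fun g => b x (c' g), h'.1.comp fun y => b x y, fun g hg k hk => ?_⟩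
  simp only [cupb]
  rw [h g hg, h'.2 g hg k hk, cob, map_sub, AddMonoidHom.sub_apply, hd.eqv g hg, map_add]
  ring

theorem spl_cupb_right (hd : Dual m D a a' b) (h : Coc D a c) {y : M'}
    (h' : ∀ g ∈ D, c' g = cob a' y g) : Spl m D (cupb b a' c c') := by
  refine ⟨fun g => -b (c g) (a' g y), h.1.comp₂ hd.act'.sm fun x f => -b x (f y),
    fun g hg k hk => ?_⟩
  simp only [cupb]
  rw [mul_neg, ← hd.eqv g hg, h' k hk, h.2 g hg k hk, hd.act'.mul g hg k hk, cob]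
  simp only [map_add, map_sub, AddMonoidHom.add_apply]
  ring

theorem inv_cupb_congr (F : CFT) (h : ∀ g ∈ H ⊓ Dec w, c g = c₁ g)
    (h' : ∀ g ∈ H ⊓ Dec w, c' g = c₁' g) :
    F.inv m H w (cupb b a' c c') = F.inv m H w (cupb b a' c₁ c₁') :=
  F.congr fun g hg k hk => by rw [cupb, cupb, h g hg, h' k hk]

theorem inv_cupb_rs (F : CFT) :
    F.inv m H w (cupb b a' (rs (H ⊓ Dec w) c) (rs (H ⊓ Dec w) c')) =
      F.inv m H w (cupb b a' c c') :=
  inv_cupb_congr F (fun _ hg => rs_of_mem hg _) fun _ hg => rs_of_mem hg _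

theorem inv_cupb_left (F : CFT) (hH : Op H) (hd : Dual m (H ⊓ Dec w) a a' b) {x : M}
    (h : ∀ g ∈ H ⊓ Dec w, c g = cob a x g) (h' : Coc (H ⊓ Dec w) a' c') :
    F.inv m H w (cupb b a' c c') = 0 :=
  (F.zero_iff hH (spl_cupb_left hd h h').c2).2 (spl_cupb_left hd h h')

theorem inv_cupb_right (F : CFT) (hH : Op H) (hd : Dual m (H ⊓ Dec w) a a' b)
    (h : Coc (H ⊓ Dec w) a c) {y : M'} (h' : ∀ g ∈ H ⊓ Dec w, c' g = cob a' y g) :
    F.inv m H w (cupb b a' c c') = 0 :=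
  (F.zero_iff hH (spl_cupb_right hd h h').c2).2 (spl_cupb_right hd h h')

theorem inv_cupb_add_left (F : CFT) (hH : Op H) (hd : Dual m (H ⊓ Dec w) a a' b)
    (h : Coc (H ⊓ Dec w) a c) (h₁ : Coc (H ⊓ Dec w) a c₁) (h' : Coc (H ⊓ Dec w) a' c') :
    F.inv m H w (cupb b a' (c + c₁) c') =
      F.inv m H w (cupb b a' c c') + F.inv m H w (cupb b a' c₁ c') :=
  (F.congr fun g _ k _ => by simp [cupb]).trans (F.add hH (c2_cupb hd h h') (c2_cupb hd h₁ h'))

theorem inv_cupb_add_right (F : CFT) (hH : Op H) (hd : Dual m (H ⊓ Dec w) a a' b)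
    (h : Coc (H ⊓ Dec w) a c) (h' : Coc (H ⊓ Dec w) a' c') (h₁ : Coc (H ⊓ Dec w) a' c₁') :
    F.inv m H w (cupb b a' c (c' + c₁')) =
      F.inv m H w (cupb b a' c c') + F.inv m H w (cupb b a' c c₁') :=
  (F.congr fun g _ k _ => by simp [cupb]).trans (F.add hH (c2_cupb hd h h') (c2_cupb hd h h₁))

/-- The cup product is anticommutative. -/
theorem inv_cupb_flip (F : CFT) (hH : Op H) (hd : Dual m (H ⊓ Dec w) a a' b)
    (h : Coc (H ⊓ Dec w) a c) (h' : Coc (H ⊓ Dec w) a' c') :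
    F.inv m H w (cupb b.flip a c' c) = -F.inv m H w (cupb b a' c c') := by
  have k1 := c2_cupb hd.flip h' h
  have k2 := c2_cupb hd h h'
  rw [eq_neg_iff_add_eq_zero, ← F.add hH k1 k2, F.zero_iff hH (k1.add k2)]
  refine ⟨fun g => -b (c g) (c' g), h.1.comp₂ h'.1 fun x y => -b x y, fun g hg k hk => ?_⟩
  simp only [cupb, Pi.add_apply, AddMonoidHom.flip_apply]
  rw [mul_neg, ← hd.eqv g hg, h.2 g hg k hk, h'.2 g hg k hk]
  simp only [map_add, AddMonoidHom.add_apply]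
  ring

/-- The local pairing. -/
theorem exists_lp (F : CFT) (hH : Op H) (hd : Dual m (H ⊓ Dec w) a a' b) :
    ∃ P : Z1 (H ⊓ Dec w) a →+ Z1 (H ⊓ Dec w) a' →+ ZMod (3 ^ m),
      ∀ c c', P c c' = F.inv m H w (cupb b a' c c') :=
  ⟨AddMonoidHom.mk' (fun c => AddMonoidHom.mk' (fun c' => F.inv m H w (cupb b a' c c'))
    fun c' c₁ => inv_cupb_add_right F hH hd c.2.1 c'.2.1 c₁.2.1) fun c c₁ =>
      AddMonoidHom.ext fun c' => inv_cupb_add_left F hH hd c.2.1 c₁.2.1 c'.2.1, fun _ _ => rfl⟩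

theorem inv_cupb_unr (F : CFT) (hH : Op H) (hd : Dual m (H ⊓ Dec w) a a' b)
    (k : ∀ σ ∈ H ⊓ Ine w, ∀ y, a' σ y = y) (h : Coc (H ⊓ Dec w) a c) (h' : Coc (H ⊓ Dec w) a' c')
    (u : ∀ σ ∈ H ⊓ Ine w, c σ = 0) (u' : ∀ σ ∈ H ⊓ Ine w, c' σ = 0) :
    F.inv m H w (cupb b a' c c') = 0 := by
  refine F.unr hH (c2_cupb hd h h') fun g hg l hl σ hσ τ hτ => ?_
  have hσ' : σ ∈ H ⊓ Dec w := ⟨hσ.1, hσ.2.1⟩
  rw [cupb, cupb, h.2 g hg σ hσ', h'.2 l hl τ ⟨hτ.1, hτ.2.1⟩, u σ hσ, u' τ hτ, map_zero, map_zero,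
    add_zero, add_zero, hd.act'.mul g hg σ hσ', k σ hσ]

/-- The reciprocity law for cup products. -/
theorem gw_recip (F : CFT) (hH : Op H) (hd : Dual m H a a' b) {s : Finset Plc}
    (hs : Apart H s) (hg : GoodA H a s) (h : Coc H a c) (h' : Coc H a' c')
    (u : ∀ w, Away H s w → ∀ σ ∈ H ⊓ Ine w, c σ = 0)
    (u' : ∀ w, Away H s w → ∀ σ ∈ H ⊓ Ine w, c' σ = 0) :
    ∑ w ∈ s, F.inv m H w (cupb b a' c c') = 0 :=
  F.recip s hH (c2_cupb hd h h') hs fun w hw => inv_cupb_unr F hH (hd.mono inf_le_left)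
    ((hg.dual hd) w hw).2 (h.mono inf_le_left) (h'.mono inf_le_left) (u w hw) (u' w hw)

/-- The invariant of a global class depends only on the class of the place. -/
theorem CFT.inv_smul (F : CFT) (hH : Op H) {η : Gam → Gam → ZMod (3 ^ m)}
    (h : C2 m H η) {g : Gam} (hg : g ∈ H) (w : Plc) : F.inv m H (g • w) η = F.inv m H w η := by
  obtain ⟨B, hB⟩ := F.finite hH h
  obtain ⟨s, s1, s2, s3⟩ := gw_exists_ext hH (s := {w}) (fun v hv v' hv' _ _ _ =>
    (mem_singleton.1 hv).trans (mem_singleton.1 hv').symm) B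
  have hw : w ∈ s := s1 (mem_singleton_self w)
  have k : ∀ v, Away H s v → F.inv m H v η = 0 := fun v hv => hB v fun e => s3 v e hv
  have e1 := F.recip s hH h s2 k
  have e2 := F.recip (insert (g • w) (s.erase w)) hH h (fun v hv v' hv' l hl e => by
    rcases mem_insert.1 hv with rfl | hv <;> rcases mem_insert.1 hv' with rfl | hv'
    · rfl
    · exact absurd (s2 w hw v' (mem_of_mem_erase hv') _ (mul_mem hl hg) (by rw [mul_smul, e])).symm
        (ne_of_mem_erase hv')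
    · exact absurd (s2 v (mem_of_mem_erase hv) w hw _ (mul_mem (inv_mem hg) hl)
        (by rw [mul_smul, e, inv_smul_smul])) (ne_of_mem_erase hv)
    · exact s2 v (mem_of_mem_erase hv) v' (mem_of_mem_erase hv') l hl e)
    fun v hv => k v fun v' hv' l hl e => by
      by_cases e' : v' = w
      · exact hv _ (mem_insert_self _ _) _ (mul_mem hl (inv_mem hg))
          (by rw [mul_smul, inv_smul_smul, ← e', e])
      · exact hv _ (mem_insert_of_mem (mem_erase.2 ⟨e', hv'⟩)) l hl e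
  rw [sum_insert fun e => ne_of_mem_erase e (s2 w hw _ (mem_of_mem_erase e) g hg rfl).symm] at e2
  rw [← add_sum_erase _ _ hw] at e1
  exact add_right_cancel (e2.trans e1.symm)

/-- The invariant of a cocycle with values in the subgroup of order three. -/
theorem inv_up (F : CFT) (hH : Op H) {η : Gam → Gam → Z3} (h : C2 1 (H ⊓ Dec w) η) (n : ℕ) :
    F.inv (1 + n) H w (fun g k => up n (η g k)) = up n (F.inv 1 H w η) :=
  F.inc n hH h

theorem c2_up (h3 : D ≤ GK 3) {η : Gam → Gam → Z3} (h : C2 1 D η) (n : ℕ) :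
    C2 (1 + n) D fun g k => up n (η g k) := by
  refine ⟨h.1.comp (up n), fun g hg k hk l hl => ?_⟩
  have e := h.2 g hg k hk l hl
  rw [mem_GK3.1 (h3 hg), one_mul] at e
  rw [cy_mul_up n (h3 hg), ← up_add, ← up_add, e]

end Pool.Agent.H3
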