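import Pool.Agent.Lib.MP_23455a_nt.H3.GWd

/-! The obstruction to lifting a cocycle. -/

set_option autoImplicit false

open scoped NNReal Classical
open Finset

namespace Pool.Agent.H3

open Pool.Agent.Lib.MP_696deb_nt.B2

variable {M M' N N' : Type} [AddCommGroup M] [AddCommGroup M'] [AddCommGroup N] [AddCommGroup N']
  {n : ℕ} {H D : Subgroup Gam} {w : Plc} {a : Gam → M →+ M} {a' : Gam → M' →+ M'}
  {b : M →+ M' →+ ZMod (3 ^ (1 + n))} {a2 : Gam → N →+ N} {a2' : Gam → N' →+ N'}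
  {b2 : N →+ N' →+ ZMod (3 ^ (1 + n))} {ι : Z3 →+ M} {π : M →+ N} {j : N' →+ M'} {ε : M' →+ Z3}

theorem Step.GWf_πs (S : Step n D a a' b a2 a2' b2 ι π j ε) (y : N) :
    π (Function.invFun π y) = y := Function.invFun_eq (S.π_surj y)

theorem Step.GWf_ιr (S : Step n D a a' b a2 a2' b2 ι π j ε) {x : M} (h : π x = 0) :
    ι (Function.invFun ι x) = x := Function.invFun_eq ((S.ex x).1 h)

/-- Cohomologous cocycles have the same invariant. -/
theorem GWf_inv_cob (F : CFT) (hH : Op H) {m : ℕ} {η η' : Gam → Gam → ZMod (3 ^ m)}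
    (h : C2 m (H ⊓ Dec w) η) (β : Gam → ZMod (3 ^ m)) (hβ : Sm (H ⊓ Dec w) β)
    (e : ∀ g ∈ H ⊓ Dec w, ∀ k ∈ H ⊓ Dec w,
      η' g k = η g k + (β g + cy m g * β k - β (g * k))) : F.inv m H w η' = F.inv m H w η := by
  have h1 : Spl m (H ⊓ Dec w) fun g k => β g + cy m g * β k - β (g * k) :=
    ⟨β, hβ, fun _ _ _ _ => rfl⟩
  rw [F.congr (c' := η + fun g k => β g + cy m g * β k - β (g * k)) e, F.add hH h h1.c2,
    (F.zero_iff hH h1.c2).2 h1, add_zero]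

/-- The kernel of the map on cocycles. -/
theorem GWf_Z1 {A B C : Type} [AddCommGroup A] [AddCommGroup B] [AddCommGroup C] {f : A →+ B}
    {p : B →+ C} (hi : Function.Injective f) (ex : ∀ x, p x = 0 ↔ ∃ t, f t = x)
    {aA : Gam → A →+ A} {aB : Gam → B →+ B} (hf : ∀ g ∈ D, ∀ x, f (aA g x) = aB g (f x)) :
    Z1 D aB ⊓ (p.compLeft Gam).ker = (Z1 D aA).map (f.compLeft Gam) := by
  ext c
  constructor
  · rintro ⟨⟨h1, h2⟩, h3⟩
    choose χ hχ using fun g => (ex (c g)).1 (congrFun h3 g)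
    exact ⟨χ, ⟨h1.of_map f hi hf fun g _ => hχ g, fun g hg => hi (by rw [hχ, h2 g hg, map_zero])⟩,
      funext hχ⟩
  · rintro ⟨χ, ⟨h1, h2⟩, rfl⟩
    exact ⟨⟨h1.map f hf, fun g hg => (congrArg f (h2 g hg)).trans (map_zero f)⟩,
      funext fun g => (ex _).2 ⟨χ g, rfl⟩⟩

theorem GWf_Zu {A B C : Type} [AddCommGroup A] [AddCommGroup B] [AddCommGroup C] {f : A →+ B}
    {p : B →+ C} (hi : Function.Injective f) (ex : ∀ x, p x = 0 ↔ ∃ t, f t = x)
    {aA : Gam → A →+ A} {aB : Gam → B →+ B} (hf : ∀ g ∈ H, ∀ x, f (aA g x) = aB g (f x))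
    (s : Finset Plc) : Zu H aB s ⊓ (p.compLeft Gam).ker = (Zu H aA s).map (f.compLeft Gam) := by
  ext c
  constructor
  · rintro ⟨⟨h1, h2⟩, h3⟩
    obtain ⟨χ, h4, rfl⟩ := (GWf_Z1 hi ex hf).le ⟨h1, h3⟩
    exact ⟨χ, ⟨h4, fun v hv σ hσ => hi ((h2 v hv σ hσ).trans (map_zero f).symm)⟩, rfl⟩
  · rintro ⟨χ, ⟨h1, h2⟩, rfl⟩
    obtain ⟨h3, h4⟩ := (GWf_Z1 hi ex hf).ge ⟨χ, h1, rfl⟩
    exact ⟨⟨h3, fun v hv σ hσ => (congrArg f (h2 v hv σ hσ)).trans (map_zero f)⟩, h4⟩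

theorem GWf_card {A B : Type} [AddCommGroup A] [AddCommGroup B] {f : A →+ B}
    (hi : Function.Injective f) (P : AddSubgroup (Gam → A)) :
    Nat.card (P.map (f.compLeft Gam)) = Nat.card P ∧
      (Finite P → Finite (P.map (f.compLeft Gam))) := by
  have h : Function.Injective (f.compLeft Gam) := fun _ _ e => funext fun g => hi (congrFun e g)
  exact ⟨AddSubgroup.card_map_of_injective h, fun _ =>
    Finite.of_equiv _ (P.equivMapOfInjective _ h).toEquiv⟩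

theorem Step.ι_ob (S : Step n D a a' b a2 a2' b2 ι π j ε) {c : Gam → N} (h : Coc D a2 c)
    {g k : Gam} (hg : g ∈ D) (hk : k ∈ D) : ι (ob a ι π c g k) =
      Function.invFun π (c g) + a g (Function.invFun π (c k)) - Function.invFun π (c (g * k)) :=
  S.GWf_ιr (by
    rw [map_sub, map_add, S.πa g hg, S.GWf_πs, S.GWf_πs, S.GWf_πs, h.2 g hg k hk, sub_self])

theorem Step.ob_c2 (S : Step n D a a' b a2 a2' b2 ι π j ε) {c : Gam → N} (h : Coc D a2 c) :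
    C2 1 D (ob a ι π c) := by
  refine ⟨(h.1.left.comp₂ (S.dual.act.sm.left.comp₂ h.1.right fun A y => A (Function.invFun π y))
    fun x z => Function.invFun π x + z).comp₂ h.1.mul fun u v =>
      Function.invFun ι (u - Function.invFun π v), fun g hg k hk l hl => S.ι_inj ?_⟩
  rw [mem_GK3.1 (S.h3 hg), one_mul, map_add, map_add, ← S.aι g hg (ob a ι π c k l), S.ι_ob h hk hl,
    S.ι_ob h hg (mul_mem hk hl), S.ι_ob h (mul_mem hg hk) hl, S.ι_ob h hg hk,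
    S.dual.act.mul g hg k hk, map_sub, map_add, mul_assoc]
  abel

theorem Step.ob_spl (S : Step n D a a' b a2 a2' b2 ι π j ε) {c : Gam → N} (h : Coc D a2 c) :
    Spl 1 D (ob a ι π c) ↔ ∃ c₁, Coc D a c₁ ∧ ∀ g ∈ D, π (c₁ g) = c g := by
  constructor
  · rintro ⟨β, h1, h2⟩
    refine ⟨fun g => Function.invFun π (c g) - ι (β g),
      ⟨h.1.comp₂ h1 fun y t => Function.invFun π y - ι t, fun g hg k hk => ?_⟩, fun g _ => ?_⟩
    · have e := S.ι_ob h hg hk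
      rw [h2 g hg k hk, mem_GK3.1 (S.h3 hg), one_mul, map_sub, map_add] at e
      beta_reduce
      rw [map_sub, S.aι g hg]
      linear_combination (norm := abel1) e
    · rw [map_sub, S.GWf_πs, (S.ex _).2 ⟨β g, rfl⟩, sub_zero]
  · rintro ⟨c₁, h1, h2⟩
    have e : ∀ g ∈ D, ι (Function.invFun ι (Function.invFun π (c g) - c₁ g)) =
        Function.invFun π (c g) - c₁ g := fun g hg =>
      S.GWf_ιr (by rw [map_sub, S.GWf_πs, h2 g hg, sub_self])
    refine ⟨fun g => Function.invFun ι (Function.invFun π (c g) - c₁ g),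
      h.1.comp₂ h1.1 fun y x => Function.invFun ι (Function.invFun π y - x),
      fun g hg k hk => S.ι_inj ?_⟩
    rw [S.ι_ob h hg hk, mem_GK3.1 (S.h3 hg), one_mul, map_sub, map_add, ← S.aι g hg (Function.invFun ι _),
      ← S.aι g hg (Function.invFun ι (Function.invFun π (c k) - c₁ k)), S.aι g hg, e g hg, e k hk,
      e _ (mul_mem hg hk), h1.2 g hg k hk, map_sub]
    abel

theorem Step.inv_ob_add (S : Step n (H ⊓ Dec w) a a' b a2 a2' b2 ι π j ε) (F : CFT) (hH : Op H)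
    {c c₁ : Gam → N} (h : Coc (H ⊓ Dec w) a2 c) (h₁ : Coc (H ⊓ Dec w) a2 c₁) :
    F.inv 1 H w (ob a ι π (c + c₁)) = F.inv 1 H w (ob a ι π c) + F.inv 1 H w (ob a ι π c₁) := by
  have e : ∀ y z : N, ι (Function.invFun ι (Function.invFun π (y + z) - Function.invFun π y -
      Function.invFun π z)) = Function.invFun π (y + z) - Function.invFun π y -
      Function.invFun π z := fun y z =>
    S.GWf_ιr (by rw [map_sub, map_sub, S.GWf_πs, S.GWf_πs, S.GWf_πs]; abel)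
  rw [← F.add hH (S.ob_c2 h) (S.ob_c2 h₁)]
  refine GWf_inv_cob F hH ((S.ob_c2 h).add (S.ob_c2 h₁)) _ (h.1.comp₂ h₁.1 fun y z =>
    Function.invFun ι (Function.invFun π (y + z) - Function.invFun π y - Function.invFun π z))
    fun g hg k hk => S.ι_inj ?_
  have e1 := S.aι g hg (Function.invFun ι (Function.invFun π (c k + c₁ k) -
    Function.invFun π (c k) - Function.invFun π (c₁ k)))
  rw [S.ι_ob (h.add h₁) hg hk, mem_GK3.1 (S.h3 hg), one_mul, Pi.add_apply (ob a ι π c),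
    Pi.add_apply (ob a ι π c g), map_add, map_add, map_sub, map_add, ← e1, S.ι_ob h hg hk,
    S.ι_ob h₁ hg hk, e, e, e, map_sub, map_sub]
  simp only [Pi.add_apply]
  abel

theorem Step.inv_ob_unr (S : Step n (H ⊓ Dec w) a a' b a2 a2' b2 ι π j ε) (F : CFT) (hH : Op H)
    {c : Gam → N} (h : Coc (H ⊓ Dec w) a2 c) (k : ∀ σ ∈ H ⊓ Ine w, ∀ x, a σ x = x)
    (u : ∀ σ ∈ H ⊓ Ine w, c σ = 0) : F.inv 1 H w (ob a ι π c) = 0 := by
  have k2 : ∀ σ ∈ H ⊓ Ine w, ∀ y, a2 σ y = y := fun σ hσ y => by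
    obtain ⟨x, rfl⟩ := S.π_surj y
    rw [← S.πa σ ⟨hσ.1, hσ.2.1⟩, k σ hσ]
  have e : ∀ g ∈ H ⊓ Dec w, ∀ σ ∈ H ⊓ Ine w, c (g * σ) = c g := fun g hg σ hσ => by
    rw [h.2 g hg σ ⟨hσ.1, hσ.2.1⟩, u σ hσ, map_zero, add_zero]
  refine F.unr hH (S.ob_c2 h) fun g hg l hl σ hσ σ' hσ' => ?_
  have m1 : σ ∈ H ⊓ Dec w := ⟨hσ.1, hσ.2.1⟩
  have m2 : σ' ∈ H ⊓ Dec w := ⟨hσ'.1, hσ'.2.1⟩
  rw [ob, ob, h.2 _ (mul_mem hg m1) _ (mul_mem hl m2), h.2 g hg l hl, e g hg σ hσ, e l hl σ' hσ',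
    S.dual.act.mul g hg σ m1, S.dual2.act.mul g hg σ m1, k σ hσ, k2 σ hσ]

/-- The obstruction is dual to the connecting map. -/
theorem Step.inv_ob_cup (S : Step n (H ⊓ Dec w) a a' b a2 a2' b2 ι π j ε) (F : CFT) (hH : Op H)
    {c : Gam → N} (h : Coc (H ⊓ Dec w) a2 c) {c' : Gam → N'} {y : M'}
    (h' : ∀ g ∈ H ⊓ Dec w, j (c' g) = cob a' y g) :
    F.inv (1 + n) H w (cupb b2 a2' c c') = up n (ε y * F.inv 1 H w (ob a ι π c)) := by
  have h1 := (S.ob_c2 h).smul (ε y)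
  rw [← F.smul hH (S.ob_c2 h), ← inv_up F hH h1]
  refine GWf_inv_cob F hH (c2_up S.h3 h1 n) _ (h.1.comp₂ S.dual.act'.sm fun z A =>
    -b (Function.invFun π z) (A y)) fun g hg k hk => ?_
  have e1 := S.bι (ob a ι π c g k) (a' g (a' k y))
  rw [S.ι_ob h hg hk, S.εa g hg, S.εa k hk, map_sub, map_add, AddMonoidHom.sub_apply,
    AddMonoidHom.add_apply, S.dual.eqv g hg, mul_comm (ob a ι π c g k)] at e1
  have e2 := S.bj (Function.invFun π (c g)) (a2' g (c' k))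
  rw [S.GWf_πs, S.ja g hg, h' k hk, cob, map_sub, map_sub] at e2
  rw [cupb, S.dual.act'.mul g hg k hk]
  linear_combination e1 - e2

theorem Step.inv_cup_j (S : Step n (H ⊓ Dec w) a a' b a2 a2' b2 ι π j ε) (F : CFT)
    (c : Gam → M) (c' : Gam → N') : F.inv (1 + n) H w (cupb b a' c fun g => j (c' g)) =
      F.inv (1 + n) H w (cupb b2 a2' (fun g => π (c g)) c') := by
  refine F.congr fun g hg k _ => ?_
  rw [cupb, cupb, ← S.ja g hg, S.bj]

theorem Step.inv_cup_ι (S : Step n (H ⊓ Dec w) a a' b a2 a2' b2 ι π j ε) (F : CFT) (hH : Op H)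
    {χ : Gam → Z3} (h : Coc (H ⊓ Dec w) tr χ) {c' : Gam → M'} (h' : Coc (H ⊓ Dec w) a' c') :
    F.inv (1 + n) H w (cupb b a' (fun g => ι (χ g)) c') =
      up n (F.inv 1 H w (cupb mu3 tr χ fun g => ε (c' g))) := by
  rw [← inv_up F hH (c2_cupb (dual_tr S.h3) h (h'.map ε fun g hg y => S.εa g hg y))]
  refine F.congr fun g hg k _ => ?_
  rw [cupb, cupb, S.bι, S.εa g hg, mu3_apply, tr_apply]

/-- The exact sequence of cocycles. -/
theorem Step.card_ker (S : Step n D a a' b a2 a2' b2 ι π j ε) :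
    Nat.card (Z1 D a ⊓ (π.compLeft Gam).ker : AddSubgroup (Gam → M)) = Nat.card (Z1 D tr) ∧
      (Finite (Z1 D tr) → Finite (Z1 D a ⊓ (π.compLeft Gam).ker : AddSubgroup (Gam → M))) := by
  rw [GWf_Z1 (aA := tr) S.ι_inj S.ex fun g hg t => (S.aι g hg t).symm]
  exact GWf_card S.ι_inj _

theorem Step.card_ker' (S : Step n D a a' b a2 a2' b2 ι π j ε) :
    Nat.card (Z1 D a' ⊓ (ε.compLeft Gam).ker : AddSubgroup (Gam → M')) = Nat.card (Z1 D a2') := by
  rw [GWf_Z1 S.j_inj S.ex' S.ja]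
  exact (GWf_card S.j_inj _).1

theorem Step.card_ker_Zu (S : Step n H a a' b a2 a2' b2 ι π j ε) (s : Finset Plc) :
    Nat.card (Zu H a s ⊓ (π.compLeft Gam).ker : AddSubgroup (Gam → M)) = Nat.card (Zu H tr s) ∧
      (Finite (Zu H tr s) → Finite (Zu H a s ⊓ (π.compLeft Gam).ker : AddSubgroup (Gam → M))) := by
  rw [GWf_Zu (aA := tr) S.ι_inj S.ex fun g hg t => (S.aι g hg t).symm]
  exact GWf_card S.ι_inj _

end Pool.Agent.H3
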