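import Pool.Agent.Lib.MP_23455a_nt.H3.GWd
import Pool.Agent.Lib.MP_23455a_nt.H3.CLh
import Pool.Agent.Lib.MP_23455a_nt.H3.CLa
import Pool.Agent.Lib.MP_696deb_nt.B2.CLc

/-! Cubic characters of local fields. -/

set_option autoImplicit false

open scoped NNReal Classical
open Finset

namespace Pool.Agent.H3

open Pool.Agent.Lib.MP_696deb_nt.B2

variable {H D : Subgroup Gam} {w : Plc} {χ κ : Gam → Z3}

/-- Every smooth cubic character of a closed subgroup is a Kummer character. -/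
theorem exists_kum_tr (h3 : D ≤ GK 3) (hD : IsClosed (D : Set Gam)) (h : Coc D tr χ) :
    ∃ x, Kum 1 D x χ :=
  kum_surj hD h.1 fun g hg k hk => by rw [h.2 g hg k hk, mem_GK3.1 (h3 hg), one_mul, tr_apply]

theorem GWg_uniq (h3 : D ≤ GK 3) {x : Qbar} (h : Kum 1 D x χ) (h' : Kum 1 D x κ) :
    ∀ g ∈ D, χ g = κ g := by
  obtain ⟨t, ht⟩ := h.sub h'
  exact fun g hg => sub_eq_zero.1 (by rw [ht g hg, mem_GK3.1 (h3 hg), sub_self, zero_mul])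

theorem GWg_sq (h3 : D ≤ GK 3) {x : Qbar} (h : Kum 1 D x χ) :
    (∃ r, Fx D r ∧ r ^ 3 = x) ↔ ∀ g ∈ D, χ g = 0 :=
  h.pow_iff.trans ⟨fun ⟨t, ht⟩ g hg => by rw [ht g hg, mem_GK3.1 (h3 hg), sub_self, zero_mul],
    fun k => ⟨0, fun g hg => by rw [k g hg, mul_zero]⟩⟩

theorem GWg_odd (L : LD H w) {y : Qbar} (hy : Fx (H ⊓ Ine w) y) : w.V L.π ≠ w.V y ^ 3 := by
  intro h
  obtain ⟨k, hk⟩ := L.val y hy fun h0 => L.π_pos.ne' (by simp [h, h0])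
  rw [hk, ← zpow_natCast, ← zpow_mul] at h
  have h1 : (1 : ℤ) = k * (3 : ℕ) :=
    zpow_right_injective₀ L.π_pos L.π_lt.ne ((zpow_one _).trans h)
  omega

theorem GWg_kum (L : LD H w) : ∃ κ, Kum 1 (H ⊓ Dec w) L.π κ :=
  exists_kum 1 L.π_ne fun g hg => L.π_fx g hg.1

theorem GWg_om (L : LD H w) : Coc (H ⊓ Dec w) tr (L.om 1) := coc_tr.2 ⟨L.om_sm 1, L.om_hom 1⟩

theorem card_Z1_tr_eq (h3 : D ≤ GK 3) (hD : IsClosed (D : Set Gam)) :
    Nat.card (Z1 D tr) = cbIdx D := by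
  choose κ hκ using fun x : FU D => exists_kum (H := D) 1 x.1.ne_zero x.2
  let f : FU D →* Multiplicative (Z1 D tr) := MonoidHom.mk'
    (fun x => Multiplicative.ofAdd ⟨rs D (κ x), rs_mem_Z1 ((hκ x).coc_tr h3)⟩) fun x y => by
      refine congrArg Multiplicative.ofAdd (Subtype.ext (funext fun g => ?_))
      change rs D (κ (x * y)) g = (rs D (κ x) + rs D (κ y)) g
      rw [← map_add]
      by_cases hg : g ∈ D
      · rw [rs_of_mem hg, rs_of_mem hg]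
        exact GWg_uniq h3 (hκ (x * y)) ((hκ x).mul (hκ y)) g hg
      · rw [rs_of_notMem hg, rs_of_notMem hg]
  have h1 : f.range = ⊤ := MonoidHom.range_eq_top.2 fun c => by
    obtain ⟨x, hx⟩ := exists_kum_tr h3 hD (Multiplicative.toAdd c).2.1
    refine ⟨⟨Units.mk0 x hx.fx.1, hx.fx.2⟩, congrArg Multiplicative.ofAdd (Subtype.ext
      (funext fun g => ?_))⟩
    by_cases hg : g ∈ D
    · exact (rs_of_mem hg _).trans (GWg_uniq h3 (hκ _) hx g hg)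
    · exact (rs_of_notMem hg _).trans ((Multiplicative.toAdd c).2.2 g hg).symm
  have h2 : ((FU D).map (powMonoidHom 3)).subgroupOf (FU D) = f.ker := by
    ext x
    have h4 : x ∈ f.ker ↔ ∀ g ∈ D, κ x g = 0 := by
      refine (Subtype.ext_iff.trans funext_iff).trans ⟨fun h g hg => ?_, fun h g => ?_⟩
      · exact (rs_of_mem hg _).symm.trans (h g)
      · by_cases hg : g ∈ D
        · exact (rs_of_mem hg _).trans (h g hg)
        · exact rs_of_notMem hg _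
    rw [h4, ← GWg_sq h3 (hκ x), Subgroup.mem_subgroupOf, Subgroup.mem_map]
    constructor
    · rintro ⟨r, r1, r2⟩
      exact ⟨r, r1, congrArg Units.val r2⟩
    · rintro ⟨r, r1, r2⟩
      exact ⟨Units.mk0 r fun h => x.1.ne_zero (by rw [← r2, h, zero_pow three_ne_zero]), r1,
        Units.ext r2⟩
  rw [cbIdx, Subgroup.relIndex, h2, Subgroup.index_ker, h1, Subgroup.card_top]
  rfl

theorem card_Z1_tr (hH : Op H) (h3 : H ⊓ Dec w ≤ GK 3) :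
    Nat.card (Z1 (H ⊓ Dec w) tr) = 3 ^ (2 + ldeg H w) := by
  rw [card_Z1_tr_eq h3 (GWg_closed hH w), cbIdx_eq hH h3, ldeg]
  split_ifs
  · rw [pow_add]
    rfl
  · rfl

theorem finite_Z1_tr (hH : Op H) (h3 : H ⊓ Dec w ≤ GK 3) : Finite (Z1 (H ⊓ Dec w) tr) :=
  Nat.finite_of_card_ne_zero (by rw [card_Z1_tr hH h3]; positivity)

theorem inv_tr_cup (F : CFT) (h3 : H ⊓ Dec w ≤ GK 3) :
    F.inv 1 H w (cupb mu3 tr χ κ) = F.inv 1 H w (cup 1 χ κ) :=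
  F.congr fun _ hg k _ => cupb_tr χ κ (h3 hg) k

theorem Coc.tr_mul (h : Coc D tr χ) (t : Z3) : Coc D tr fun g => t * χ g :=
  h.map (AddMonoidHom.mulLeft t) fun _ _ _ => rfl

theorem inv_tr_mul (F : CFT) (hH : Op H) (h3 : H ⊓ Dec w ≤ GK 3) (h : Coc (H ⊓ Dec w) tr χ)
    (h' : Coc (H ⊓ Dec w) tr κ) (s t : Z3) {χ' κ' : Gam → Z3}
    (e : ∀ g ∈ H ⊓ Dec w, χ' g = s * χ g) (e' : ∀ g ∈ H ⊓ Dec w, κ' g = t * κ g) :
    F.inv 1 H w (cupb mu3 tr χ' κ') = s * t * F.inv 1 H w (cupb mu3 tr χ κ) := by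
  rw [← F.smul hH (c2_cupb (dual_tr h3) h h')]
  refine F.congr fun g hg k hk => ?_
  simp only [cupb, mu3_apply, tr_apply, e g hg, e' k hk]
  ring

/-- A uniformizer is not a norm from the unramified cubic extension. -/
theorem inv_om_unif (F : CFT) (hH : Op H) (h3 : H ⊓ Dec w ≤ GK 3) (L : LD H w)
    (h : Kum 1 (H ⊓ Dec w) L.π κ) : F.inv 1 H w (cupb mu3 tr (L.om 1) κ) ≠ 0 := by
  intro h0
  have c := c2_cup (L.om_sm 1) (L.om_hom 1) h.sm h.coc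
  rw [inv_tr_cup F h3, F.zero_iff hH c, spl_iff (GWg_closed hH w) c, ← coh_one_iff] at h0
  obtain ⟨β, hβ, e⟩ := (Cy_split_iff (GWg_closed hH w) (L.om_sm 1) (L.om_hom 1) L.φ_mem' (L.om_φ 1)
    L.π_ne h.fx.2).1 ((cup_coh (L.om_sm 1) (L.om_hom 1) h).symm.trans h0)
  refine GWg_odd L (y := β) (fun g hg => hβ g ⟨GWg_le H w hg, L.om_ine 1 hg⟩) ?_
  rw [e, Nm, map_prod, prod_congr rfl fun i _ => mem_Dec.1 (pow_mem L.φ_mem'.2 i) β, prod_const,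
    card_range]
  rfl

/-- The Hilbert symbol is nondegenerate. -/
theorem nondeg_tr (F : CFT) (hH : Op H) (h3 : H ⊓ Dec w ≤ GK 3) (h : Coc (H ⊓ Dec w) tr χ)
    (k : ∀ κ, Coc (H ⊓ Dec w) tr κ → F.inv 1 H w (cupb mu3 tr χ κ) = 0) :
    ∀ g ∈ H ⊓ Dec w, χ g = 0 := by
  obtain ⟨h1, h2⟩ := coc_tr.1 h
  obtain ⟨L⟩ := exists_LD hH w
  have h4 := L.unr_eq h1 h2 (F.crit hH h1 h2 fun a κ _ _ hκ =>
    (inv_tr_cup F h3).symm.trans (k κ ((hκ.mono inf_le_left).coc_tr h3)))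
  by_cases h5 : χ L.φ = 0
  · exact fun g hg => by rw [h4 g hg, h5, zero_mul]
  · obtain ⟨κ, hκ⟩ := GWg_kum L
    have h6 := k κ (hκ.coc_tr h3)
    rw [inv_tr_mul F hH h3 (GWg_om L) (hκ.coc_tr h3) _ 1 h4 fun g _ => (one_mul _).symm,
      mul_one] at h6
    exact absurd h6 (Z3.mul_ne h5 (inv_om_unif F hH h3 L hκ))

section

variable {M : Type} [AddCommGroup M] {a : Gam → M →+ M} {c : Gam → M} {τ : Gam}

/-- A cocycle that kills a generator of tame inertia is unramified. -/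
theorem TG.unr (hτ : TG H w τ) (h : Coc (H ⊓ Dec w) a c) {m : ℕ} (hm : ∀ x : M, 3 ^ m • x = 0)
    (k : ∀ σ ∈ H ⊓ Ine w, ∀ x, a σ x = x) (h0 : c τ = 0) : ∀ σ ∈ H ⊓ Ine w, c σ = 0 := by
  intro σ hσ
  obtain ⟨j, hj⟩ := hτ.2 (Multiplicative M) (fun g => Multiplicative.ofAdd (c g))
    ((h.1.mono (GWg_le H w)).comp _) (fun g hg g' hg' => by
      beta_reduce
      rw [h.2 g (GWg_le H w hg) g' (GWg_le H w hg'), k g hg, ofAdd_add])
    (fun g _ => ⟨m, by rw [← ofAdd_nsmul, hm, ofAdd_zero]⟩) σ hσ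
  simpa [h0] using hj

/-- An unramified cocycle that kills Frobenius is zero. -/
theorem LD.unr_zero (L : LD H w) (ha : Act (H ⊓ Dec w) a) (h : Coc (H ⊓ Dec w) a c)
    (u : ∀ σ ∈ H ⊓ Ine w, c σ = 0) (h0 : c L.φ = 0) : ∀ g ∈ H ⊓ Dec w, c g = 0 := by
  have h1 : ∀ j : ℕ, c (L.φ ^ j) = 0 := fun j => by
    induction j with
    | zero => exact h.one ha
    | succ j ih => rw [pow_succ, h.2 _ (pow_mem L.φ_mem' j) _ L.φ_mem', ih, h0, map_zero, add_zero]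
  intro g hg
  obtain ⟨U, u1, -, u3⟩ := h.1
  obtain ⟨j, σ, hσ, e⟩ := L.gen g hg U u1
  rw [← u3 _ (mul_mem (pow_mem L.φ_mem' j) (GWg_le H w hσ)) g hg e.1,
    h.2 _ (pow_mem L.φ_mem' j) _ (GWg_le H w hσ), h1, u σ hσ, map_zero, add_zero]

end

theorem GWg_unr {τ : Gam} (hτ : TG H w τ) (h : Coc (H ⊓ Dec w) tr χ) (h0 : χ τ = 0) :
    ∀ σ ∈ H ⊓ Ine w, χ σ = 0 :=
  hτ.unr h (m := 1) Z3.three (fun _ _ _ => rfl) h0

theorem TG.kum_unif {τ : Gam} (hτ : TG H w τ) (hH : Op H) (h3 : H ⊓ Dec w ≤ GK 3) (hw : w.p ≠ 3)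
    (L : LD H w) (h : Kum 1 (H ⊓ Dec w) L.π κ) : κ τ ≠ 0 := by
  intro h0
  obtain ⟨y, hy, e⟩ := (kum_unr_iff hH hw h).1 (GWg_unr hτ (h.coc_tr h3) h0)
  exact GWg_odd L (fun g hg => hy g hg.1) e

/-- The tame symbol of a character and an unramified character. -/
theorem inv_tr_unr (F : CFT) (hH : Op H) (h3 : H ⊓ Dec w ≤ GK 3) (hw : w.p ≠ 3) (L : LD H w)
    {τ : Gam} (hτ : TG H w τ) : ∃ u : Z3, u ≠ 0 ∧ ∀ χ κ : Gam → Z3, Coc (H ⊓ Dec w) tr χ →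
      Coc (H ⊓ Dec w) tr κ → (∀ σ ∈ H ⊓ Ine w, κ σ = 0) →
      F.inv 1 H w (cupb mu3 tr χ κ) = χ τ * (u * κ L.φ) := by
  obtain ⟨p, hp⟩ := GWg_kum L
  have p1 := hp.coc_tr h3
  have p2 := hτ.kum_unif hH h3 hw L hp
  have h7 := inv_cupb_flip F hH (dual_tr h3) (GWg_om L) p1
  rw [show mu3.flip = mu3 from AddMonoidHom.ext fun x => AddMonoidHom.ext fun y => mul_comm y x]
    at h7
  refine ⟨p τ * F.inv 1 H w (cupb mu3 tr p (L.om 1)), Z3.mul_ne p2 ?_, fun χ κ h h' u => ?_⟩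
  · rw [h7, neg_ne_zero]
    exact inv_om_unif F hH h3 L hp
  have h4 := L.unr_eq (coc_tr.1 h').1 (coc_tr.1 h').2 u
  have h5 := h.sub (p1.tr_mul (χ τ * p τ))
  have h6 := inv_cupb_unr F hH (dual_tr h3) (fun _ _ _ => rfl) h5 h' (GWg_unr hτ h5 (by
    rw [Pi.sub_apply, mul_assoc, Z3.mul_self p2, mul_one, sub_self])) u
  have h8 := inv_cupb_add_left F hH (dual_tr h3) h5 (p1.tr_mul (χ τ * p τ)) h'
  rw [sub_add_cancel, h6, zero_add, inv_tr_mul F hH h3 p1 (GWg_om L) _ _ (fun _ _ => rfl) h4] at h8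
  rw [h8]
  ring

end Pool.Agent.H3
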