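import Pool.Agent.Lib.MP_23455a_nt.H3.GWe
import Pool.Agent.Lib.MP_23455a_nt.H3.GWf
import Pool.Agent.Lib.MP_23455a_nt.H3.GWg
import Pool.Agent.Lib.MP_696deb_nt.B2.CFa

/-! Finiteness, separation by places, and the count of units. -/

set_option autoImplicit false

open scoped NNReal Classical
open Finset

namespace Pool.Agent.H3

open Pool.Agent.Lib.MP_696deb_nt.B2

open Pool.Agent.Lib.MP_580eba_nt (Pl val ord ES mem_ES UU JJ mem_UU mem_UU' div_mem_UU)

theorem GWi_fg {K : Type} [Field K] [NumberField K] (S : Finset (Pl K)) :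
    Module.Finite ℤ (Additive (ES S)) := by
  let o : Additive (ES S) →ₗ[ℤ] (S → ℤ) := (AddMonoidHom.mk'
    (fun (x : Additive (ES S)) (v : S) => ord v.1 ((x.toMul : Kˣ) : K)) fun x y => funext fun v =>
      Lib.MP_580eba_nt.ord_mul _ (x.toMul : Kˣ).ne_zero (y.toMul : Kˣ).ne_zero).toIntLinearMap
  let f : (NumberField.RingOfIntegers K)ˣ →* ES S :=
    (Units.map (algebraMap (NumberField.RingOfIntegers K) K).toMonoidHom).codRestrict _ fun u =>
      mem_ES.2 fun v _ => Lib.MP_580eba_nt.val_unit v u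
  refine ⟨Submodule.fg_of_fg_map_of_fg_inf_ker o (IsNoetherian.noetherian _) ?_⟩
  have e : ⊤ ⊓ LinearMap.ker o = (⊤ : Submodule ℤ _).map f.toAdditive.toIntLinearMap := by
    ext x
    constructor
    · rintro ⟨-, hx⟩
      obtain ⟨u, hu⟩ := Lib.MP_580eba_nt.exists_unit_of_val (x := ((x.toMul : Kˣ) : K)) fun v => by
        by_cases hv : v ∈ S
        · exact mem_UU'.2 (congrFun hx ⟨v, hv⟩)
        · exact mem_ES.1 x.toMul.2 v hv
      exact ⟨Additive.ofMul u, trivial, congrArg Additive.ofMul (Subtype.ext (Units.ext hu))⟩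
    · rintro ⟨u, -, rfl⟩
      exact ⟨trivial, funext fun v => mem_UU'.1 (Lib.MP_580eba_nt.val_unit v.1 u.toMul)⟩
  rw [e]
  exact Module.Finite.fg_top.map _

variable {H : Subgroup Gam}

theorem GWi_coc {χ : Gam → Z3} (h : Coc H tr χ) :
    ∀ g ∈ H, ∀ k ∈ H, χ (g * k) = χ g + χ k := h.2

theorem GWi_one {χ : Gam → Z3} (h : Coc H tr χ) : χ 1 = 0 := h.one (act_tr H)

theorem GWi_conj {χ : Gam → Z3} (h : Coc H tr χ) {g k : Gam} (hg : g ∈ H) (hk : k ∈ H) :
    χ (g⁻¹ * k * g) = χ k := by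
  have h1 := GWi_coc h g⁻¹ (inv_mem hg) g hg
  rw [inv_mul_cancel, GWi_one h] at h1
  rw [GWi_coc h _ (mul_mem (inv_mem hg) hk) g hg, GWi_coc h _ (inv_mem hg) k hk, add_right_comm,
    ← h1, zero_add]

theorem GWi_pow {χ : Gam → Z3} (h : Coc H tr χ) {g : Gam} (hg : g ∈ H) (n : ℕ) :
    χ (g ^ n) = n * χ g := by
  induction n with
  | zero => rw [pow_zero, GWi_one h, Nat.cast_zero, zero_mul]
  | succ n ih => rw [pow_succ, GWi_coc h _ (pow_mem hg n) g hg, ih, Nat.cast_succ, add_one_mul]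

theorem GWi_ne {n : ℕ} (h : ¬ 3 ∣ n) : (n : Z3) ≠ 0 := mt (ZMod.natCast_eq_zero_iff _ _).1 h

theorem GWi_away {s : Finset Plc} {w : Plc} (h : w.p ∉ s.image Plc.p) : Away H s w := by
  intro v hv g _ e
  exact h (mem_image.2 ⟨v, hv, by rw [← e, smul_p]⟩)

/-- There are finitely many cubic characters with bounded ramification. -/
theorem finH (hH : Op H) (h3 : H ≤ GK 3) : FinH H := by
  intro s
  have := nf_Kf hH
  obtain ⟨t, -, -, ht⟩ := exists_reps hH (insert 3 (s.image Plc.p))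
  choose u hu using fun w : Plc => exists_un (H := H) w
  obtain ⟨T, -, hT⟩ := Lib.MP_580eba_nt.exists_gens (K := Kf H) ∅
  choose κ hκ using fun x : (Kf H)ˣ => exists_kum (H := H) 1
    (a := ((x : Kf H) : Qbar)) (fun h => x.ne_zero (Subtype.ext h)) (fx_Kf _)
  let f : Additive (ES (t.image u ∪ T)) →+ (Gam → Z3) := AddMonoidHom.mk'
    (fun x => rs H (κ x.toMul)) fun x y => by
      rw [← map_add]
      funext g
      by_cases hg : g ∈ H
      · rw [rs_of_mem hg, rs_of_mem hg]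
        exact GWg_uniq h3 (hκ _) ((hκ x.toMul).mul (hκ y.toMul)) g hg
      · rw [rs_of_notMem hg, rs_of_notMem hg]
  have := GWi_fg (t.image u ∪ T)
  have f1 : Finite (LinearMap.range f.toIntLinearMap) := Module.finite_of_fg_torsion _ fun x =>
    ⟨⟨3, mem_nonZeroDivisors_of_ne_zero three_ne_zero⟩, Subtype.ext (funext fun g =>
      (natCast_zsmul (x.1 g) 3).trans (Z3.three _))⟩
  refine Finite.Set.subset (LinearMap.range f.toIntLinearMap : Set (Gam → Z3)) fun χ hχ => ?_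
  obtain ⟨a, ha⟩ := exists_kum_tr h3 hH.closed hχ.1.1
  let x : (Kf H)ˣ := Units.mk0 ⟨a, b3a_fx.1 ha.fx.2⟩ fun h => ha.fx.1 (congrArg Subtype.val h)
  have key : ∀ v : Pl (Kf H), ∃ y : (Kf H)ˣ, (v ∈ t.image u → y = 1) ∧
      (v ∉ t.image u → ord v (x : Kf H) = 3 * ord v (y : Kf H)) := fun v => by
    by_cases hv : v ∈ t.image u
    · exact ⟨1, fun _ => rfl, fun h => absurd hv h⟩
    obtain ⟨w, hw⟩ := exists_over v
    have k : w.p ∉ insert 3 (s.image Plc.p) := fun k => ht w k fun w' hw' g hg e =>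
      hv (mem_image.2 ⟨w', hw', ((hu w').smul hg).uniq (e ▸ hw)⟩)
    rw [mem_insert, not_or] at k
    obtain ⟨y, y1, y2⟩ := (kum_unr_iff hH k.1 (ha.mono inf_le_left)).1 (hχ.2 w (GWi_away k.2))
    have y0 : y ≠ 0 := fun h => (b3a_pos w ha.fx.1).ne' (by simp [y2, h])
    refine ⟨Units.mk0 ⟨y, b3a_fx.1 y1⟩ fun h => y0 (congrArg Subtype.val h),
      fun h => absurd h hv, fun _ => ?_⟩
    obtain ⟨Y, hY⟩ : ∃ Y : Kf H, (Y : Qbar) = y := ⟨⟨y, b3a_fx.1 y1⟩, rfl⟩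
    have e : w.V ((x : Kf H) : Qbar) = w.V ((Y ^ 3 : Kf H) : Qbar) := by
      rw [IntermediateField.coe_pow, map_pow, hY]
      exact y2
    have e1 : val v (x : Kf H) = val v (Y ^ 3) :=
      le_antisymm (not_lt.1 fun h => ((hw _ _).1 h).ne' e) (not_lt.1 fun h => ((hw _ _).1 h).ne e)
    have e2 : Y = ⟨y, b3a_fx.1 y1⟩ := Subtype.ext hY
    rw [Lib.MP_580eba_nt.ord_congr e1, Lib.MP_580eba_nt.ord_pow, e2]
    rfl
  choose y y1 y2 using key
  obtain ⟨z, hz⟩ := hT y ((Lib.MP_580eba_nt.finite_ord (x : Kf H)).subset fun v hv h => hv (by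
    by_cases k : v ∈ t.image u
    · rw [y1 v k]
      exact one_mem _
    · have := y2 v k
      exact mem_UU'.2 (by omega)))
  have m : x / z ^ 3 ∈ ES (t.image u ∪ T) := mem_ES.2 fun v hv => by
    rw [mem_union, not_or] at hv
    rw [div_mem_UU, y2 v hv.1, div_mem_UU.1 (hz v hv.2), Units.val_pow_eq_pow_val,
      Lib.MP_580eba_nt.ord_pow]
    rfl
  refine ⟨Additive.ofMul ⟨_, m⟩, funext fun g => ?_⟩
  by_cases hg : g ∈ H
  · refine (rs_of_mem hg _).trans (GWg_uniq h3 (hκ _) ?_ g hg)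
    obtain ⟨r, r0, r1, r2⟩ := ha
    have z0 : ((z : Kf H) : Qbar) ≠ 0 := fun h => z.ne_zero (Subtype.ext h)
    refine ⟨r / ((z : Kf H) : Qbar), div_ne_zero r0 z0, ?_, fun k hk => ?_⟩
    · rw [div_pow, r1]
      simp [x]
    · rw [map_div₀, r2 k hk, fx_Kf _ k hk]
      ring
  · exact (rs_of_notMem hg _).trans (hχ.1.2 g hg).symm

theorem finite_Zu (hH : Op H) (h3 : H ≤ GK 3) {M M' : Type} [AddCommGroup M] [AddCommGroup M'] [Finite M]
    [Finite M'] {m : ℕ} {a : Gam → M →+ M} {a' : Gam → M' →+ M'} {b : M →+ M' →+ ZMod (3 ^ m)}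
    (hd : Dual m H a a' b) (s : Finset Plc) : Finite (Zu H a s) := by
  obtain rfl | ⟨n, rfl⟩ : m = 0 ∨ ∃ n, m = 1 + n := by
    rcases m with _ | n
    · exact Or.inl rfl
    · exact Or.inr ⟨n, add_comm _ _⟩
  · have := hd.subsingleton_zero
    infer_instance
  · refine dual_ind h3 (P := fun _ _ _ _ a _ _ => Finite (Zu H a s)) ?_ ?_ M M' a a' b hd
    · intro M M' _ _ _ _ a a' b
      infer_instance
    · intro M M' N N' _ _ _ _ _ _ _ _ a a' b a2 a2' b2 ι π j ε S ih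
      refine finite_of_map (π.compLeft Gam) _ ((S.card_ker_Zu s).2 (finH hH h3 s))
        (Set.Finite.to_subtype ((Set.toFinite (Zu H a2 s : Set (Gam → N))).subset ?_))
      rintro _ ⟨c, hc, rfl⟩
      obtain ⟨⟨h1, h0⟩, hu⟩ := mem_Zu.1 hc
      refine mem_Zu.2 ⟨⟨h1.map π S.πa, fun g hg => ?_⟩, fun w hw σ hσ => ?_⟩
      · show π (c g) = 0
        rw [h0 g hg, map_zero]
      · show π (c σ) = 0
        rw [hu w hw σ hσ, map_zero]

/-- A nonzero character is nonzero on infinitely many decomposition groups. -/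
theorem exists_plc_ne (ch : ChebStmt) (hH : Op H) {χ : Gam → Z3} (h : Coc H tr χ) {g : Gam}
    (hg : g ∈ H) (h1 : χ g ≠ 0) (B : Finset ℕ) :
    ∃ w : Plc, w.p ∉ B ∧ ∃ φ ∈ H ⊓ Dec w, χ φ ≠ 0 := by
  obtain ⟨U, u1, u2, u3⟩ := h.1
  obtain ⟨V, v1, v2, v3⟩ := exists_normal_le hH
  have o : Op (U ⊓ V) := u1.inf v1
  obtain ⟨k, u, hu, e⟩ := Nat.exists_eq_pow_mul_and_not_dvd o.index_ne_zero 3 (by norm_num)
  have p1 : (g ^ u) ^ (2 * 3 ^ k) ∈ U ⊓ V := by
    rw [mul_comm, pow_mul, ← pow_mul g, mul_comm, ← e]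
    exact pow_mem (Subgroup.pow_index_mem _ g) 2
  obtain ⟨w, φ, n, hw, hφ, hn, k1⟩ := ch (U ⊓ V) (g ^ u) k B o inferInstance p1
  have g1 : (g ^ u) ^ n ∈ H := pow_mem (pow_mem hg _) _
  have f1 : φ ∈ H := inv_mem_iff.1 ((mul_mem_cancel_right g1).1 (v3 k1.2))
  refine ⟨w, hw, φ, ⟨f1, hφ.1⟩, ?_⟩
  rw [u3 φ f1 _ g1 k1.1, GWi_pow h (pow_mem hg _), GWi_pow h hg]
  refine Z3.mul_ne (GWi_ne fun k => ?_) (Z3.mul_ne (GWi_ne hu) h1)
  exact absurd (Nat.eq_one_of_dvd_coprimes hn k (by norm_num)) (by norm_num)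

/-- Finitely many new places separate finitely many characters. -/
theorem exists_sep (ch : ChebStmt) (hH : Op H) {s : Finset Plc} (hs : Apart H s) (B : Finset ℕ)
    (W : AddSubgroup (Gam → Z3)) [Finite W] (hW : W ≤ Z1 H tr) :
    ∃ s' : Finset Plc, s ⊆ s' ∧ Apart H s' ∧ (∀ w : Plc, w.p ∈ B → ¬ Away H s' w) ∧
      ∀ χ ∈ W, (∀ w ∈ s', w ∉ s → ∀ g ∈ H ⊓ Dec w, χ g = 0) → χ = 0 := by
  have key : ∀ χ : W, ∃ p : ℕ, χ.1 ≠ 0 → ∃ w : Plc, w.p = p ∧ w.p ∉ s.image Plc.p ∧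
      ∃ φ ∈ H ⊓ Dec w, χ.1 φ ≠ 0 := by
    intro χ
    by_cases h0 : χ.1 = 0
    · exact ⟨0, fun k => absurd h0 k⟩
    · obtain ⟨g, hg⟩ := Function.ne_iff.1 h0
      have hH' : g ∈ H := by
        by_contra k
        exact hg ((hW χ.2).2 g k)
      obtain ⟨w, h1, h2⟩ := exists_plc_ne ch hH (hW χ.2).1 hH' hg (s.image Plc.p)
      exact ⟨w.p, fun _ => ⟨w, rfl, h1, h2⟩⟩
  choose p hp using key
  have := Fintype.ofFinite W
  obtain ⟨s', h1, h2, h3⟩ := gw_exists_ext hH hs (B ∪ univ.image p)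
  refine ⟨s', h1, h2, fun w hw => h3 w (mem_union_left _ hw), fun χ hχ h => ?_⟩
  by_contra h0
  obtain ⟨w, e, k1, φ, k2, k3⟩ := hp ⟨χ, hχ⟩ h0
  refine h3 w (mem_union_right _ (mem_image.2 ⟨_, mem_univ _, e.symm⟩)) fun v hv g hg e' => ?_
  subst e'
  refine k3 ?_
  have k5 : g⁻¹ * φ * g ∈ H := mul_mem (mul_mem (inv_mem hg) k2.1) hg
  have k4 := h v hv (fun k => k1 (mem_image.2 ⟨v, k, rfl⟩)) (g⁻¹ * φ * g)
    ⟨k5, mem_Dec_smul.1 k2.2⟩
  rwa [GWi_conj (hW hχ).1 hg k2.1] at k4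

theorem GWi_kum_prod {ι : Type} {a : ι → Qbar} {κ : ι → Gam → Z3} (h : ∀ i, Kum 1 H (a i) (κ i))
    (t : Finset ι) : Kum 1 H (∏ i ∈ t, a i) (∑ i ∈ t, κ i) := by
  induction t using Finset.induction_on with
  | empty => exact ⟨1, one_ne_zero, by simp, fun g _ => by simp⟩
  | insert i t hi ih =>
    rw [prod_insert hi, sum_insert hi]
    exact (h i).mul ih

theorem GWi_kum_pow {a : Qbar} {κ : Gam → Z3} (h : Kum 1 H a κ) (n : ℕ) :
    Kum 1 H (a ^ n) (n • κ) := by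
  have := GWi_kum_prod (ι := ℕ) (a := fun _ => a) (κ := fun _ => κ) (fun _ => h) (range n)
  rwa [prod_const, sum_const, card_range] at this

theorem su_card (su : SUStmt) (hH : Op H) (hT : TC H) (h3 : H ≤ GK 3) {s : Finset Plc}
    (hs : Apart H s) (h2 : ∀ w, Away H s w → w.p ≠ 3) :
    3 ^ (H.index / 2 + s.card) ≤ Nat.card (Zu H tr s) := by
  obtain ⟨a, ha, hi⟩ := su H s _ hH hT hs (Or.inr ⟨rfl, h3⟩)
  choose κ hκ using fun i => exists_kum 1 (ha i).1 (ha i).2.1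
  have := finH hH h3 s
  let f : (Fin (H.index / 2 + s.card) → Z3) →+ (Gam → Z3) := (rs H).comp
    { toFun := fun x g => ∑ i, x i * κ i g
      map_zero' := funext fun g => by simp
      map_add' := fun x y => funext fun g => by simp [add_mul, sum_add_distrib] }
  have hf' : ∀ x, f x = rs H (∑ i, (x i).val • κ i) := fun x =>
    congrArg (rs H) (funext fun g => by
      rw [Finset.sum_apply]
      exact sum_congr (s₁ := univ) rfl fun i _ => (Z3.val_smul (x i) (κ i g)).symm)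
  have hk := fun x : Fin (H.index / 2 + s.card) → Z3 =>
    GWi_kum_prod (fun i => GWi_kum_pow (hκ i) (x i).val) univ
  have mem : ∀ x, f x ∈ Zu H tr s := fun x => by
    rw [hf']
    refine mem_Zu.2 ⟨rs_mem_Z1 ((hk x).coc_tr h3), fun w hw σ hσ => ?_⟩
    rw [rs_of_mem hσ.1]
    refine (hk x).unr (h2 w hw) ?_ σ hσ
    rw [map_prod]
    exact prod_eq_one fun i _ => by rw [map_pow, (ha i).2.2 w hw, one_pow]
  have inj : Function.Injective f := by
    refine (injective_iff_map_eq_zero f).2 fun x hx => ?_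
    obtain ⟨r, r1, r2⟩ := (GWg_sq h3 (hk x)).2 fun g hg => by
      rw [← rs_of_mem hg (∑ i, (x i).val • κ i), ← hf', hx]
      rfl
    exact hi x ⟨r, r1, r2.symm⟩
  have le := Nat.card_le_card_of_injective (fun x => (⟨f x, mem x⟩ : Zu H tr s))
    fun x y e => inj (congrArg Subtype.val e)
  simpa [Nat.card_eq_fintype_card] using le

end Pool.Agent.H3
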