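import Pool.Agent.Lib.MP_23455a_nt.H3.GWh
import Pool.Agent.Lib.MP_696deb_nt.B2.B4c

/-! Conjugation and corestriction of cocycles; local duality. -/

set_option autoImplicit false

open scoped NNReal Classical
open Finset

namespace Pool.Agent.H3

open Pool.Agent.Lib.MP_696deb_nt.B2

variable {M M' : Type} [AddCommGroup M] [AddCommGroup M'] {m : ℕ} {G H D E : Subgroup Gam}
  {w : Plc} {a : Gam → M →+ M} {a' : Gam → M' →+ M'} {b : M →+ M' →+ ZMod (3 ^ m)}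
  {c c₁ : Gam → M} {c' : Gam → M'} {g r t : Gam}

/-- The conjugate of a cochain. -/
noncomputable def cj (a : Gam → M →+ M) (t : Gam) (c : Gam → M) (g : Gam) : M :=
  a t (c (t⁻¹ * g * t))

theorem Act.cj (ha : Act G a) (ht : t ∈ G) (hg : g ∈ G) (x : M) :
    a t (a (t⁻¹ * g * t) x) = a g (a t x) := by
  rw [← ha.mul t ht _ (mul_mem (mul_mem (inv_mem ht) hg) ht), ← ha.mul g hg t ht, ← mul_assoc,
    mul_inv_cancel_left]

theorem Coc.cj (h : Coc D a c) (ha : Act G a) (ht : t ∈ G) (hE : E ≤ G)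
    (k : ∀ g ∈ E, t⁻¹ * g * t ∈ D) : Coc E a (cj a t c) :=
  ⟨(h.1.conj t⁻¹ t k).comp (a t), fun g hg l hl => by
    rw [H3.cj, H3.cj, H3.cj, show t⁻¹ * (g * l) * t = t⁻¹ * g * t * (t⁻¹ * l * t) by group,
      h.2 _ (k g hg) _ (k l hl), map_add, ha.cj ht (hE hg)]⟩

theorem Coc.cj_eq (h : Coc D a c) (ht : t ∈ D) (hg : g ∈ D) :
    H3.cj a t c g = c g + cob a (c t) g := by
  have e := h.2 t ht _ (mul_mem (mul_mem (inv_mem ht) hg) ht)
  rw [← mul_assoc, mul_inv_cancel_left, h.2 g hg t ht] at e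
  rw [H3.cj, cob]
  linear_combination (norm := abel1) -e

theorem cj_mul (ha : Act G a) (hr : r ∈ G) (ht : t ∈ G) (c : Gam → M) :
    cj a r (cj a t c) = cj a (r * t) c := funext fun g => by
  rw [cj, cj, cj, ha.mul r hr t ht]
  simp only [mul_inv_rev, mul_assoc]

theorem cj_one (ha : Act G a) (c : Gam → M) : cj a 1 c = c := funext fun g => by
  rw [cj, ha.one, inv_one, one_mul, mul_one]

theorem cj_sub (a : Gam → M →+ M) (t : Gam) (c c₁ : Gam → M) :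
    cj a t (c - c₁) = cj a t c - cj a t c₁ := funext fun _ => map_sub _ _ _

theorem IsCob.cj (h : IsCob D a c) (ha : Act G a) (ht : t ∈ G) (hE : E ≤ G)
    (k : ∀ g ∈ E, t⁻¹ * g * t ∈ D) : IsCob E a (cj a t c) := by
  obtain ⟨x, hx⟩ := h
  exact ⟨a t x, fun g hg => by rw [H3.cj, hx _ (k g hg), cob, cob, map_sub, ha.cj ht (hE hg)]⟩

theorem IsCob.gw_add (h : IsCob D a c) (k : IsCob D a c₁) : IsCob D a (c + c₁) := by
  obtain ⟨x, hx⟩ := h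
  obtain ⟨y, hy⟩ := k
  refine ⟨x + y, fun g hg => ?_⟩
  rw [Pi.add_apply, hx g hg, hy g hg, cob, cob, cob, map_add]
  abel

theorem IsCob.gw_neg (h : IsCob D a c) : IsCob D a (-c) := by
  obtain ⟨x, hx⟩ := h
  refine ⟨-x, fun g hg => ?_⟩
  rw [Pi.neg_apply, hx g hg, cob, cob, map_neg]
  abel

theorem IsCob.gw_nsmul (h : IsCob D a c) (n : ℕ) : IsCob D a (n • c) := by
  obtain ⟨x, hx⟩ := h
  exact ⟨n • x, fun g hg => by rw [Pi.smul_apply, hx g hg, cob, cob, map_nsmul, nsmul_sub]⟩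

theorem IsCob.gw_congr (h : IsCob D a c) (hE : E ≤ D) (k : ∀ g ∈ E, c₁ g = c g) : IsCob E a c₁ := by
  obtain ⟨x, hx⟩ := h
  exact ⟨x, fun g hg => (k g hg).trans (hx g (hE hg))⟩

theorem Coc.cj_cob (h : Coc D a c) (ht : t ∈ D) : IsCob D a (H3.cj a t c - c) :=
  ⟨c t, fun g hg => by rw [Pi.sub_apply, h.cj_eq ht hg, add_sub_cancel_left]⟩

theorem gw_half (hm : ∀ x : M, 3 ^ m • x = 0) : ∃ n : ℕ, ∀ x : M, n • (x + x) = x := by
  obtain ⟨n, hn⟩ : Odd (3 ^ m) := Odd.pow (by decide)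
  refine ⟨n + 1, fun x => ?_⟩
  rw [← two_nsmul, ← mul_nsmul', show (n + 1) * 2 = 3 ^ m + 1 by omega, add_nsmul, hm, zero_add,
    one_nsmul]

theorem gw_cancel {x y : ZMod (3 ^ m)} (h : x + x = y + y) : x = y := by
  obtain ⟨n, hn⟩ := gw_half (m := m) fun x : ZMod (3 ^ m) => by
    rw [nsmul_eq_mul, ZMod.natCast_self, zero_mul]
  rw [← hn x, h, hn]

theorem gw_conj (hD : ∀ g, g ∈ D ↔ g ∈ G ∧ g ∈ GK 3) (ht : t ∈ G) :
    ∀ g ∈ D, t⁻¹ * g * t ∈ D := fun g hg => (hD _).2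
  ⟨mul_mem (mul_mem (inv_mem ht) ((hD g).1 hg).1) ht, (normal_GK 3).conj_mem' g ((hD g).1 hg).2 t⟩

/-- Conjugates under two elements outside of the subgroup of index two are cohomologous. -/
theorem Coc.cj_cj (h : Coc D a c) (ha : Act G a) (hD : ∀ g, g ∈ D ↔ g ∈ G ∧ g ∈ GK 3)
    (hr : r ∈ G) (r3 : r ∉ GK 3) (ht : t ∈ G) (t3 : t ∉ GK 3) :
    IsCob D a (H3.cj a r c - H3.cj a t c) := by
  have k : t⁻¹ * r ∈ D := (hD _).2 ⟨mul_mem (inv_mem ht) hr, mul_mem_GK (mt inv_mem_iff.1 t3) r3⟩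
  have := (h.cj_cob k).cj ha ht (fun g hg => ((hD g).1 hg).1) (gw_conj hD ht)
  rwa [cj_sub, cj_mul ha ht ((hD _).1 k).1, mul_inv_cancel_left] at this

/-- Corestriction. -/
theorem Coc.cor (h : Coc D a c) (ha : Act G a) (hD : ∀ g, g ∈ D ↔ g ∈ G ∧ g ∈ GK 3)
    (ht : t ∈ G) (t3 : t ∉ GK 3) : ∃ C, Coc G a C ∧ ∀ g ∈ D, C g = c g + H3.cj a t c g := by
  have le : D ≤ G := fun g hg => ((hD g).1 hg).1
  obtain ⟨f, f1, f2⟩ : ∃ f : Gam → M, (∀ x ∈ GK 3, f x = c x) ∧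
      ∀ x ∉ GK 3, f x = a t (c (t⁻¹ * x)) :=
    ⟨fun x => if x ∈ GK 3 then c x else a t (c (t⁻¹ * x)), fun _ k => if_pos k, fun _ k => if_neg k⟩
  have m1 : ∀ x ∈ G, x ∉ GK 3 → t⁻¹ * x ∈ D := fun x hx k =>
    (hD _).2 ⟨mul_mem (inv_mem ht) hx, mul_mem_GK (mt inv_mem_iff.1 t3) k⟩
  have m2 : ∀ k ∈ GK 3, k * t ∉ GK 3 := fun k hk e => t3 ((mul_mem_cancel_left hk).1 e)
  have f3 : ∀ x ∈ G, ∀ k ∈ D, f (x * k) = f x + a x (c k) := fun x hx k hk => by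
    by_cases e : x ∈ GK 3
    · rw [f1 _ (mul_mem e ((hD k).1 hk).2), f1 x e, h.2 x ((hD x).2 ⟨hx, e⟩) k hk]
    · rw [f2 _ fun q => e ((mul_mem_cancel_right ((hD k).1 hk).2).1 q), f2 x e, ← mul_assoc,
        h.2 _ (m1 x hx e) k hk, map_add, ← ha.mul t ht _ (le (m1 x hx e)), mul_inv_cancel_left]
  have f4 : ∀ g ∈ D, f g + f (g * t) = c g + H3.cj a t c g := fun g hg => by
    rw [f1 g ((hD g).1 hg).2, f2 _ (m2 g ((hD g).1 hg).2), H3.cj, mul_assoc]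
  have f5 : ∀ g ∈ G, ∀ k ∈ G, f (g * k) + f (g * k * t) =
      f g + f (g * t) + a g (f k + f (k * t)) := fun g hg k hk => by
    by_cases e : k ∈ GK 3
    · have hk' := (hD k).2 ⟨hk, e⟩
      rw [f4 k hk', f3 g hg k hk', show g * k * t = g * t * (t⁻¹ * k * t) by group,
        f3 _ (mul_mem hg ht) _ (gw_conj hD ht k hk'), ha.mul g hg t ht, H3.cj, map_add]
      abel
    · have e' := mul_mem_GK e t3
      rw [mul_assoc, f3 g hg _ ((hD _).2 ⟨mul_mem hk ht, e'⟩), f1 _ e', f2 k e,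
        show g * k = g * t * (t⁻¹ * k) by group, f3 _ (mul_mem hg ht) _ (m1 k hk e),
        ha.mul g hg t ht, map_add]
      abel
  obtain ⟨U, u1, u2, u3⟩ := h.1
  have u4 : ∀ u ∈ D, u ∈ U → c u = 0 := fun u hu k => by
    rw [← u3 1 (one_mem _) u hu (by simpa using k), h.one (ha.mono le)]
  refine ⟨fun g => f g + f (g * t), ⟨Sm.of_open (U ⊓ GK 3) (u1.inf (op_GK 3)) fun g hg u hu => ?_,
    f5⟩, f4⟩
  have hu' := (hD u).2 ⟨hu.1, hu.2.2⟩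
  rw [f5 g hg u hu.1, f4 u hu', H3.cj, u4 u hu' hu.2.1,
    u4 _ (gw_conj hD ht u hu') (u2.conj_mem' u hu.2.1 t), map_zero, add_zero, map_zero, add_zero]

/-- Restriction to the subgroup of index two is injective on classes. -/
theorem Coc.of_res (h : Coc G a c) (ha : Act G a) (hm : ∀ x : M, 3 ^ m • x = 0)
    (hD : ∀ g, g ∈ D ↔ g ∈ G ∧ g ∈ GK 3) (k : IsCob D a c) : IsCob G a c := by
  by_cases h3 : G ≤ GK 3
  · exact k.gw_congr (fun g hg => (hD g).2 ⟨hg, h3 hg⟩) fun _ _ => rfl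
  obtain ⟨t, ht, t3⟩ := SetLike.not_le_iff_exists.1 h3
  obtain ⟨x, hx⟩ := k
  obtain ⟨n, hn⟩ := gw_half hm
  have e := h.sub (cob_coc ha x)
  have e0 : ∀ g ∈ D, (c - cob a x) g = 0 := fun g hg => sub_eq_zero.2 (hx g hg)
  obtain ⟨y, hy⟩ : ∃ y, y = (c - cob a x) t := ⟨_, rfl⟩
  have e1 : ∀ g ∈ D, a g y = y := fun g hg => by
    have := e.cj_eq ht ((hD g).1 hg).1
    rw [H3.cj, e0 _ (gw_conj hD ht g hg), e0 g hg, map_zero, zero_add, ← hy] at this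
    exact sub_eq_zero.1 this.symm
  have e2 : a t y = -y := by
    have := e.2 t ht t ht
    rw [e0 _ ((hD _).2 ⟨mul_mem ht ht, mul_mem_GK t3 t3⟩), ← hy] at this
    exact eq_neg_of_add_eq_zero_right this.symm
  have e3 : IsCob G a (c - cob a x) := ⟨-(n • y), fun g hg => by
    by_cases q : g ∈ GK 3
    · rw [e0 g ((hD g).2 ⟨hg, q⟩), cob, map_neg, map_nsmul, e1 g ((hD g).2 ⟨hg, q⟩), sub_self]
    · have k : t⁻¹ * g ∈ D :=
        (hD _).2 ⟨mul_mem (inv_mem ht) hg, mul_mem_GK (mt inv_mem_iff.1 t3) q⟩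
      rw [← mul_inv_cancel_left t g, e.2 t ht _ ((hD _).1 k).1, e0 _ k, map_zero, add_zero, ← hy,
        cob, ha.mul t ht _ ((hD _).1 k).1, map_neg, map_nsmul, e1 _ k, map_neg, map_nsmul, e2,
        neg_nsmul, neg_neg, sub_neg_eq_add, ← nsmul_add, hn]⟩
  exact (e3.gw_add ⟨x, fun _ _ => rfl⟩).gw_congr le_rfl fun g _ => (sub_add_cancel _ _).symm

theorem finite_of_res [Finite M] (hD : ∀ g, g ∈ D ↔ g ∈ G ∧ g ∈ GK 3)
    {P Q : AddSubgroup (Gam → M)} (hP : P ≤ Z1 G a) (hQ : Finite Q) (h : ∀ c ∈ P, rs D c ∈ Q) :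
    Finite P := by
  obtain ⟨t, ht, k⟩ : ∃ t ∈ G, ∀ g ∈ G, g ∉ GK 3 → t⁻¹ * g ∈ GK 3 := by
    by_cases h3 : G ≤ GK 3
    · exact ⟨1, one_mem _, fun g hg q => absurd (h3 hg) q⟩
    · obtain ⟨t, ht, t3⟩ := SetLike.not_le_iff_exists.1 h3
      exact ⟨t, ht, fun g _ q => mul_mem_GK (mt inv_mem_iff.1 t3) q⟩
  refine Finite.of_injective (β := Q × M) (fun c => (⟨_, h c.1 c.2⟩, c.1 t)) fun c d e => ?_
  have e1 : ∀ g ∈ D, c.1 g = d.1 g := fun g hg => by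
    rw [← rs_of_mem hg c.1, ← rs_of_mem hg d.1]
    exact congrFun (congrArg (fun z => z.1.1) e) g
  refine Subtype.ext (funext fun g => ?_)
  by_cases hg : g ∈ G
  · by_cases q : g ∈ GK 3
    · exact e1 g ((hD g).2 ⟨hg, q⟩)
    · have l := mul_mem (inv_mem ht) hg
      rw [← mul_inv_cancel_left t g, (hP c.2).1.2 t ht _ l, (hP d.2).1.2 t ht _ l,
        e1 _ ((hD _).2 ⟨l, k g hg q⟩), show c.1 t = d.1 t from congrArg Prod.snd e]
  · rw [(hP c.2).2 g hg, (hP d.2).2 g hg]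

/-- Invariance of the local pairing under conjugation. -/
theorem inv_cj (F : CFT) (hH : Op H) (hN : H.Normal) (hd : Dual m G a a' b) (ht : t ∈ G)
    (k : H ⊓ Dec w ≤ G) (k' : H ⊓ Dec (t • w) ≤ G) (h : Coc (H ⊓ Dec w) a c)
    (h' : Coc (H ⊓ Dec w) a' c') :
    F.inv m H (t • w) (cupb b a' (cj a t c) (cj a' t c')) = F.inv m H w (cupb b a' c c') := by
  rw [← F.conj t hH hN (c2_cupb (hd.mono k) h h')]
  refine F.congr fun g hg l _ => ?_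
  rw [cupb, cupb, cj, cj, ← hd.eqv t ht, hd.act'.cj ht (k' hg)]

theorem inv_cob_right (F : CFT) (hH : Op H) (hd : Dual m (H ⊓ Dec w) a a' b)
    (h : Coc (H ⊓ Dec w) a c) {c₁' : Gam → M'} (h' : Coc (H ⊓ Dec w) a' c')
    (k : IsCob (H ⊓ Dec w) a' (c₁' - c')) :
    F.inv m H w (cupb b a' c c₁') = F.inv m H w (cupb b a' c c') := by
  obtain ⟨y, hy⟩ := k
  rw [← add_zero (F.inv m H w (cupb b a' c c')), ← inv_cupb_right F hH hd h (y := y) fun _ _ => rfl,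
    ← inv_cupb_add_right F hH hd h h' (cob_coc hd.act' y)]
  exact inv_cupb_congr F (fun _ _ => rfl) fun g hg => by
    rw [Pi.add_apply, ← hy g hg, Pi.sub_apply, add_sub_cancel]

theorem gw_loc (H : Subgroup Gam) (w : Plc) (g : Gam) :
    g ∈ H ⊓ GK 3 ⊓ Dec w ↔ g ∈ H ⊓ Dec w ∧ g ∈ GK 3 :=
  ⟨fun h => ⟨⟨h.1.1, h.2⟩, h.1.2⟩, fun h => ⟨⟨h.1.1, h.2⟩, h.1.2⟩⟩

theorem gw_le (H : Subgroup Gam) (w : Plc) : H ⊓ GK 3 ⊓ Dec w ≤ H ⊓ Dec w := fun _ h => ⟨h.1.1, h.2⟩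

theorem inv_cj_self (F : CFT) (hH : Op H) (hN : H.Normal) (hd : Dual m (H ⊓ Dec w) a a' b)
    (ht : t ∈ H ⊓ Dec w) (h : Coc (H ⊓ Dec w) a c) (h' : Coc (H ⊓ GK 3 ⊓ Dec w) a' c') :
    F.inv m (H ⊓ GK 3) w (cupb b a' c (cj a' t c')) = F.inv m (H ⊓ GK 3) w (cupb b a' c c') := by
  have := normal_GK 3
  have e : t • w = w := ht.2
  have o := hH.inf (op_GK 3)
  have k := inv_cj F o inferInstance hd ht (gw_le H w) (by rw [e]; exact gw_le H w)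
    (h.mono (gw_le H w)) h'
  have h1 := h'.cj hd.act' ht (gw_le H w) (gw_conj (gw_loc H w) ht)
  have h2 := h.cj hd.act ht (gw_le H w) fun g hg => gw_le H w (gw_conj (gw_loc H w) ht g hg)
  have l := hd.mono (gw_le H w)
  rw [e] at k
  rw [← k, ← neg_inj, ← inv_cupb_flip F o l (h.mono (gw_le H w)) h1, ← inv_cupb_flip F o l h2 h1]
  exact (inv_cob_right F o l.flip h1 (h.mono (gw_le H w))
    ((h.cj_cob ht).gw_congr (gw_le H w) fun _ _ => rfl)).symm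

/-- Local duality. -/
theorem ld (F : CFT) : LDStmt F := by
  intro m H w M M' _ _ _ _ a a' b hH hN hd
  have o := hH.inf (op_GK 3)
  have l := hd.mono (gw_le H w)
  have core := ld_core F o (fun g hg => hg.1.2) l
  refine ⟨finite_of_res (gw_loc H w) le_rfl core.1 fun c hc => rs_mem_Z1 (hc.1.mono (gw_le H w)),
    fun c hc k => hc.of_res hd.act hd.pow_smul (gw_loc H w)
      (core.2.2 c (hc.mono (gw_le H w)) fun c' hc' => ?_)⟩
  have k' : ∀ C, Coc (H ⊓ Dec w) a' C → F.inv m (H ⊓ GK 3) w (cupb b a' c C) = 0 := fun C hC => by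
    rw [F.res o inf_le_left (c2_cupb hd hc hC), k C hC, mul_zero]
  by_cases h3 : H ⊓ Dec w ≤ GK 3
  · exact k' c' (hc'.mono fun g hg => (gw_loc H w g).2 ⟨hg, h3 hg⟩)
  obtain ⟨t, ht, t3⟩ := SetLike.not_le_iff_exists.1 h3
  obtain ⟨C, c1, c2⟩ := hc'.cor hd.act' (gw_loc H w) ht t3
  refine gw_cancel ?_
  nth_rw 2 [← inv_cj_self F hH hN hd ht hc hc']
  rw [← inv_cupb_add_right F o l (hc.mono (gw_le H w)) hc'
    (hc'.cj hd.act' ht (gw_le H w) (gw_conj (gw_loc H w) ht)), add_zero, ← k' C c1]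
  exact inv_cupb_congr F (fun _ _ => rfl) fun g hg => (c2 g hg).symm

end Pool.Agent.H3
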