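import Pool.Agent.Lib.MP_580eba_nt.Step

/-! Cyclic cubic extensions and local norms: definitions. -/

set_option autoImplicit false

namespace Pool.Agent.H3.Cub

open Pool.Agent.Lib.MP_580eba_nt NumberField Subgroup WithZero

/-- Kummer data for a cyclic cubic extension. -/
structure CD (K M : Type*) [Field K] [Field M] [Algebra K M] where
  ζ : K
  σ : M ≃ₐ[K] M
  r : M
  a : Kˣ
  hζ : ζ ^ 2 + ζ + 1 = 0
  σr : σ • r = algebraMap K M ζ * r
  cb : r ^ 3 = algebraMap K M a
  span : ∀ x, ∃ s t u : K,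
    x = algebraMap K M s + algebraMap K M t * r + algebraMap K M u * r ^ 2

/-- Cubes. -/
def IsCube {K : Type*} [Field K] (x : K) : Prop := ∃ t, x = t ^ 3

/-- The norm form of a cube root of `d`. -/
def nf {K : Type*} [Field K] (d x y z : K) : K :=
  x ^ 3 + d * y ^ 3 + d ^ 2 * z ^ 3 - 3 * d * x * y * z

/-- The cubing map. -/
abbrev pw3 (M : Type*) [CommGroup M] : M →* M := powMonoidHom 3

/-- Units congruent to one modulo nine times the prime. -/
noncomputable def U9 {K : Type*} [Field K] [NumberField K] (v : Pl K) : Subgroup Kˣ :=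
  Ug v (val v 9) (val_ne_zero v (by norm_num)) (by simpa using val_natCast_le v 9)

/-- Local cubes. -/
noncomputable def CB {K : Type*} [Field K] [NumberField K] (v : Pl K) : Subgroup Kˣ :=
  (pw3 Kˣ).range ⊔ U9 v

namespace CD

variable {K M : Type*} [Field K] [Field M] [NumberField K] [NumberField M] [Algebra K M]
  (Q : CD K M)

/-- The ramified primes. -/
def R : Set (Pl M) := {u | Q.σ ∈ In (M ≃ₐ[K] M) u}

/-- The norm map. -/
def nm : Mˣ →* Mˣ := MonoidHom.mk'
  (fun y => y * actU (M ≃ₐ[K] M) M Q.σ y * actU (M ≃ₐ[K] M) M (Q.σ * Q.σ) y) fun x y => by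
    rw [map_mul, map_mul, mul_mul_mul_comm x y, mul_mul_mul_comm]

/-- Local norms. -/
noncomputable def Loc (v : Pl K) : Subgroup Kˣ :=
  ⨅ (u : Pl M) (_ : und K u = v) (_ : Q.σ • u = u), (Q.nm.range ⊔ WW Q.R u).comap (mp K M)

/-- No ramification above three. -/
def Tame : Prop := ∀ u ∈ Q.R, val u (3 : M) = 1

/-- Principal ideles times local norms. -/
noncomputable def NL : Subgroup (Pl K → Kˣ) :=
  (cst (Pl K) Kˣ).range ⊔ (Subgroup.pi Set.univ Q.Loc ⊓ JJ K)

end CD

end Pool.Agent.H3.Cub
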