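import Pool.Agent.Lib.MP_23455a_nt.H3.HN0

/-! Existence of cubic Kummer extensions, and local cubes. -/

set_option autoImplicit false

namespace Pool.Agent.H3.Cub

open Pool.Agent.Lib.MP_580eba_nt NumberField Subgroup WithZero

universe u

theorem exists_CD {K : Type u} [Field K] [NumberField K] {ζ : K} (hζ : ζ ^ 2 + ζ + 1 = 0) (b : Kˣ)
    (hb : ¬ IsCube (b : K)) :
    ∃ (M : Type u) (_ : Field M) (_ : NumberField M) (_ : Algebra K M) (Q : CD K M), Q.a = b := by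
  have hirr : Irreducible (Polynomial.X ^ 3 - Polynomial.C (b : K)) :=
    X_pow_sub_C_irreducible_of_prime Nat.prime_three fun t ht => hb ⟨t, ht.symm⟩
  have hf : Fact (Irreducible (Polynomial.X ^ 3 - Polynomial.C (b : K))) := ⟨hirr⟩
  have hmon : (Polynomial.X ^ 3 - Polynomial.C (b : K)).Monic :=
    Polynomial.monic_X_pow_sub_C _ (by norm_num)
  have hfin : Module.Finite K (AdjoinRoot (Polynomial.X ^ 3 - Polynomial.C (b : K))) :=
    (AdjoinRoot.powerBasis hirr.ne_zero).finite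
  have h3 : ζ ^ 3 = 1 := by linear_combination (ζ - 1) * hζ
  have hr : AdjoinRoot.root (Polynomial.X ^ 3 - Polynomial.C (b : K)) ^ 3 =
      algebraMap K _ (b : K) := root_X_pow_sub_C_pow 3 (b : K)
  let φ : AdjoinRoot (Polynomial.X ^ 3 - Polynomial.C (b : K)) →ₐ[K]
      AdjoinRoot (Polynomial.X ^ 3 - Polynomial.C (b : K)) :=
    AdjoinRoot.liftAlgHom _ (Algebra.ofId K _)
      (algebraMap K _ ζ * AdjoinRoot.root (Polynomial.X ^ 3 - Polynomial.C (b : K))) (by
        rw [Polynomial.eval₂_sub, Polynomial.eval₂_X_pow, Polynomial.eval₂_C, mul_pow, ← map_pow,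
          h3, map_one, one_mul, hr]
        exact sub_self _)
  refine ⟨AdjoinRoot (Polynomial.X ^ 3 - Polynomial.C (b : K)), inferInstance,
    NumberField.of_module_finite K _, inferInstance,
    ⟨ζ, AlgEquiv.ofBijective φ φ.bijective, AdjoinRoot.root _, b, hζ, ?_, hr, fun x => ?_⟩, rfl⟩
  · change φ (AdjoinRoot.root _) = _
    simp only [φ, AdjoinRoot.liftAlgHom_root]
  · obtain ⟨p, rfl⟩ := AdjoinRoot.mk_surjective x
    have hd : (p %ₘ (Polynomial.X ^ 3 - Polynomial.C (b : K))).natDegree < 3 := by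
      have := Polynomial.natDegree_modByMonic_lt p hmon (fun h => by
        have := congrArg Polynomial.natDegree h
        rw [Polynomial.natDegree_X_pow_sub_C, Polynomial.natDegree_one] at this
        exact absurd this (by norm_num))
      rwa [Polynomial.natDegree_X_pow_sub_C] at this
    have he : AdjoinRoot.mk (Polynomial.X ^ 3 - Polynomial.C (b : K)) p =
        AdjoinRoot.mk _ (p %ₘ (Polynomial.X ^ 3 - Polynomial.C (b : K))) := by
      rw [AdjoinRoot.mk_eq_mk]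
      exact ⟨p /ₘ (Polynomial.X ^ 3 - Polynomial.C (b : K)), by
        rw [sub_eq_iff_eq_add', Polynomial.modByMonic_add_div]⟩
    refine ⟨(p %ₘ (Polynomial.X ^ 3 - Polynomial.C (b : K))).coeff 0,
      (p %ₘ (Polynomial.X ^ 3 - Polynomial.C (b : K))).coeff 1,
      (p %ₘ (Polynomial.X ^ 3 - Polynomial.C (b : K))).coeff 2, ?_⟩
    rw [he, ← AdjoinRoot.aeval_eq, Polynomial.aeval_eq_sum_range' hd]
    simp only [Finset.sum_range_succ, Finset.sum_range_zero, zero_add, pow_zero, pow_one,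
      Algebra.smul_def, mul_one]

variable {K M : Type*} [Field K] [Field M] [NumberField K] [NumberField M] [Algebra K M]

theorem val_three_le (v : Pl K) : val v (3 : K) ≤ 1 := by
  simpa using val_natCast_le v 3

theorem val_three_eq_one {v : Pl K} (h : ¬ val v (3 : K) < 1) : val v (3 : K) = 1 :=
  le_antisymm (val_three_le v) (not_lt.1 h)

theorem val_nine (v : Pl K) : val v (9 : K) = val v 3 ^ 2 := by
  rw [← map_pow]; norm_num

theorem val_three_map (u : Pl M) : val u (3 : M) < 1 ↔ val (und K u) (3 : K) < 1 := by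
  rw [← val_map_lt_one, map_ofNat (algebraMap K M)]

theorem val_zeta (v : Pl K) {ζ : K} (hζ : ζ ^ 2 + ζ + 1 = 0) :
    val v ζ = 1 ∧ val v (ζ - 1) ^ 2 = val v 3 := by
  have h3 : ζ ^ 3 = 1 := by linear_combination (ζ - 1) * hζ
  have h1 : val v ζ = 1 := by
    have : val v ζ ^ 3 = 1 := by rw [← map_pow, h3, map_one]
    rwa [pow_eq_one_iff_left (by norm_num)] at this
  refine ⟨h1, ?_⟩
  rw [← map_pow, show (ζ - 1) ^ 2 = -(3 * ζ) by linear_combination hζ, Valuation.map_neg, map_mul,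
    h1, mul_one]

theorem val_eq_one_of_cube {v : Pl K} {x : K} (h : val v (x ^ 3) = 1) : val v x = 1 := by
  rwa [map_pow, pow_eq_one_iff_left (by norm_num)] at h

theorem le_val_three {v : Pl K} {a b c : K} {l : ℤᵐ⁰} (hb : val v (b - a) = l)
    (hc : val v (c - a) = l) (h1 : l ^ 2 ≤ val v a) (h2 : val v a < l) :
    (l ^ 2) ^ 2 ≤ val v (a * b * c) := by
  have e1 : val v b = l := by
    rw [← hb, eq_comm]
    exact Valuation.map_sub_eq_of_lt_left _ (by
      by_contra! h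
      exact absurd (Valuation.map_sub_lt _ (h.trans_lt h2) h2) (by rw [hb]; exact lt_irrefl _)) |>.trans rfl
  have e2 : val v c = l := by
    rw [← hc, eq_comm]
    exact Valuation.map_sub_eq_of_lt_left _ (by
      by_contra! h
      exact absurd (Valuation.map_sub_lt _ (h.trans_lt h2) h2) (by rw [hc]; exact lt_irrefl _)) |>.trans rfl
  rw [map_mul, map_mul, e1, e2, mul_assoc, pow_two (l ^ 2), ← pow_two l]
  exact mul_le_mul' h1 le_rfl

/-- A cube root of a number close to one is close to a cube root of unity. -/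
theorem exists_near {v : Pl K} {ζ x : K} (hζ : ζ ^ 2 + ζ + 1 = 0)
    (h : val v (x ^ 3 - 1) < val v 9) : ∃ i : Fin 3, val v (ζ ^ (i : ℕ) * x - 1) < val v 3 := by
  obtain ⟨h1, h2⟩ := val_zeta v hζ
  have h9 : val v (9 : K) ≤ 1 := by simpa using val_natCast_le v 9
  have hx : val v x = 1 := val_eq_one_of_cube (val_eq_one_of_sub (h.trans_le h9))
  have hl : val v (ζ - 1) ≤ 1 := Valuation.map_sub_le _ h1.le (by simp)
  by_contra! hn
  have a0 := hn 0
  have a1 := hn 1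
  have a2 := hn 2
  simp only [Fin.val_zero, pow_zero, one_mul, Fin.val_one, pow_one, Fin.val_two] at a0 a1 a2
  rw [← h2] at a0 a1 a2
  rw [val_nine, ← h2] at h
  have d01 : val v ((ζ * x - 1) - (x - 1)) = val v (ζ - 1) := by
    rw [show (ζ * x - 1) - (x - 1) = (ζ - 1) * x by ring, map_mul, hx, mul_one]
  have d12 : val v ((ζ ^ 2 * x - 1) - (ζ * x - 1)) = val v (ζ - 1) := by
    rw [show (ζ ^ 2 * x - 1) - (ζ * x - 1) = (ζ - 1) * ζ * x by ring, map_mul, map_mul, hx, h1,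
      mul_one, mul_one]
  have d20 : val v ((x - 1) - (ζ ^ 2 * x - 1)) = val v (ζ - 1) := by
    rw [show (x - 1) - (ζ ^ 2 * x - 1) = (ζ - 1) * ζ ^ 2 * x by
      linear_combination (-(ζ - 1) * x) * hζ, map_mul, map_mul, map_pow, hx, h1, one_pow,
      mul_one, mul_one]
  have hp : (x - 1) * (ζ * x - 1) * (ζ ^ 2 * x - 1) = x ^ 3 - 1 := by
    linear_combination ((ζ - 1) * x ^ 3 - ζ * x ^ 2 + x) * hζ
  refine absurd h (not_lt.2 ?_)
  by_cases c0 : val v (x - 1) < val v (ζ - 1)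
  · rw [← hp]
    exact le_val_three d01 ((Valuation.map_sub_swap _ _ _).trans d20) a0 c0
  by_cases c1 : val v (ζ * x - 1) < val v (ζ - 1)
  · rw [← hp, show (x - 1) * (ζ * x - 1) * (ζ ^ 2 * x - 1) =
      (ζ * x - 1) * (ζ ^ 2 * x - 1) * (x - 1) by ring]
    exact le_val_three d12 ((Valuation.map_sub_swap _ _ _).trans d01) a1 c1
  by_cases c2 : val v (ζ ^ 2 * x - 1) < val v (ζ - 1)
  · rw [← hp, show (x - 1) * (ζ * x - 1) * (ζ ^ 2 * x - 1) =
      (ζ ^ 2 * x - 1) * (x - 1) * (ζ * x - 1) by ring]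
    exact le_val_three d20 ((Valuation.map_sub_swap _ _ _).trans d12) a2 c2
  rw [← hp, map_mul, map_mul, show (val v (ζ - 1) ^ 2) ^ 2 =
    val v (ζ - 1) * val v (ζ - 1) * val v (ζ - 1) * val v (ζ - 1) by
      rw [pow_two, pow_two, ← mul_assoc]]
  exact (mul_le_of_le_one_right' hl).trans
    (mul_le_mul' (mul_le_mul' (not_lt.1 c0) (not_lt.1 c1)) (not_lt.1 c2))

theorem mem_U9 {v : Pl K} {x : Kˣ} : x ∈ U9 v ↔ val v ((x : K) - 1) < val v 9 := Iff.rfl

theorem U9_le_U1 (v : Pl K) : U9 v ≤ U1 v := fun _ hx =>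
  lt_of_lt_of_le hx (by simpa using val_natCast_le v 9)

theorem U9_eq_U1 {v : Pl K} (h : val v (3 : K) = 1) : U9 v = U1 v := by
  ext x
  rw [mem_U9, mem_U1, val_nine, h, one_pow]

theorem mem_CB {v : Pl K} {x : Kˣ} : x ∈ CB v ↔ ∃ t : Kˣ, x / t ^ 3 ∈ U9 v := by
  constructor
  · intro h
    obtain ⟨_, ⟨t, rfl⟩, y, hy, rfl⟩ := mem_sup.1 h
    exact ⟨t, by simpa using hy⟩
  · rintro ⟨t, ht⟩
    exact mem_sup.2 ⟨_, ⟨t, rfl⟩, _, ht, by simp⟩

theorem cube_mem_CB (v : Pl K) (t : Kˣ) : t ^ 3 ∈ CB v := mem_sup_left ⟨t, rfl⟩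

theorem mp_mem_U9 {u : Pl M} {x : Kˣ} : mp K M x ∈ U9 u ↔ x ∈ U9 (und K u) := by
  rw [mem_U9, mem_U9, show ((mp K M x : Mˣ) : M) = algebraMap K M x from rfl,
    ← map_one (algebraMap K M), ← map_sub, ← map_ofNat (algebraMap K M) 9, val_map_lt_iff]

theorem mp_mem_CB {u : Pl M} {x : Kˣ} (h : x ∈ CB (und K u)) : mp K M x ∈ CB u := by
  obtain ⟨t, ht⟩ := mem_CB.1 h
  exact mem_CB.2 ⟨mp K M t, by rw [← map_pow, ← map_div]; exact mp_mem_U9.2 ht⟩

theorem dvd_of_mem_CB {v : Pl K} {x : Kˣ} (h : x ∈ CB v) : (3 : ℤ) ∣ ord v (x : K) := by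
  obtain ⟨t, ht⟩ := mem_CB.1 h
  exact ⟨ord v t, by
    rw [div_mem_UU.1 (Ug_le_UU v _ _ _ ht), Units.val_pow_eq_pow_val, ord_pow]; norm_num⟩

theorem exists_div_cube {v : Pl K} {x : Kˣ} (h : (3 : ℤ) ∣ ord v (x : K)) :
    ∃ t : Kˣ, x / t ^ 3 ∈ UU v := by
  obtain ⟨n, hn⟩ := h
  obtain ⟨t, ht, h2⟩ := exists_ord_eq v n
  exact ⟨Units.mk0 t ht, div_mem_UU.2 (by
    rw [Units.val_pow_eq_pow_val, ord_pow, Units.val_mk0, h2, hn]; norm_num)⟩

omit [NumberField K] in
theorem exists_cube_eq {x : Kˣ} (h : IsCube (x : K)) : ∃ t : Kˣ, t ^ 3 = x := by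
  obtain ⟨t, ht⟩ := h
  exact ⟨Units.mk0 t (by rintro rfl; simp at ht), Units.ext (by simp [ht])⟩

theorem dvd_of_isCube (v : Pl K) {x : Kˣ} (h : IsCube (x : K)) : (3 : ℤ) ∣ ord v (x : K) := by
  obtain ⟨t, rfl⟩ := exists_cube_eq h
  exact dvd_of_mem_CB (cube_mem_CB v t)

end Pool.Agent.H3.Cub
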