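import Pool.Agent.Lib.MP_23455a_nt.H3.HNg

/-! Local norms and the first inequality for tame cyclic cubic extensions. -/

set_option autoImplicit false

namespace Pool.Agent.H3.Cub

open Pool.Agent.Lib.MP_580eba_nt NumberField Subgroup WithZero

variable {K M : Type*} [Field K] [Field M] [NumberField K] [NumberField M] [Algebra K M]

namespace CD

variable (Q : CD K M)

theorem mem_Loc {v : Pl K} {x : Kˣ} : x ∈ Q.Loc v ↔ ∀ u : Pl M, und K u = v → Q.σ • u = u →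
    ∃ y, mp K M x / Q.nm y ∈ WW Q.R u := by
  simp only [Loc, mem_iInf, mem_comap]
  refine forall₃_congr fun u _ _ => ⟨fun h => ?_, fun ⟨y, hy⟩ => ?_⟩
  · obtain ⟨_, ⟨y, rfl⟩, z, hz, h⟩ := mem_sup.1 h
    exact ⟨y, by simpa [← h] using hz⟩
  · exact mem_sup.2 ⟨_, ⟨y, rfl⟩, _, hy, by simp⟩

theorem mem_Loc_of_nm {x : Kˣ} {y : Mˣ} (h : mp K M x = Q.nm y) (v : Pl K) : x ∈ Q.Loc v := by
  exact Q.mem_Loc.2 fun u _ _ => ⟨y, by rw [h, div_self']; exact one_mem _⟩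

theorem U1_le_Loc (v : Pl K) : U1 v ≤ Q.Loc v := by
  exact fun x hx => Q.mem_Loc.2 fun u hu _ =>
    ⟨1, by rw [map_one, div_one]; exact U1_le_WW _ _ (mp_mem_U1.2 (hu ▸ hx))⟩

theorem CB_le_Loc (v : Pl K) : CB v ≤ Q.Loc v := by
  refine sup_le ?_ ((U9_le_U1 v).trans (Q.U1_le_Loc v))
  rintro _ ⟨t, rfl⟩
  exact Q.mem_Loc_of_nm (Q.nm_mp t).symm v

theorem UU_le_Loc {v : Pl K} (h : val v (3 : K) = 1) (h1 : Q.a ∈ UU v) : UU v ≤ Q.Loc v := by
  refine fun x hx => Q.mem_Loc.2 fun u hu _ => ⟨1, ?_⟩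
  subst hu
  rw [map_one, div_one, WW_of_notMem (Q.notMem_R h (by rw [mem_UU'.1 h1]; exact dvd_zero _))]
  exact mp_mem_UU.2 hx

theorem mem_Loc_of_split {v : Pl K} (h : Q.a ∈ CB v) (x : Kˣ) : x ∈ Q.Loc v := by
  exact Q.mem_Loc.2 fun _ hu h' => absurd h' (Q.split (hu ▸ h))

theorem lft_mem {i : Pl K → Kˣ} (hi : i ∈ JJ K) (h : ∀ v, i v ∈ Q.Loc v) :
    lft K M i ∈ (JJ M).map (nrm (tw (Pl M) (actU (M ≃ₐ[K] M) M))) ⊔ WWW Q.R := by
  classical
  have := Q.isGalois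
  choose w hw using exists_und (K := K) M
  choose y hy using fun (u : Pl M) (hu : Q.σ • u = u) => Q.mem_Loc.1 (h (und K u)) u rfl hu
  let j : Pl M → Mˣ := fun u =>
    if hu : Q.σ • u = u then y u hu else if u = w (und K u) then mp K M (i (und K u)) else 1
  refine mem_sup.2 ⟨_, ⟨j, (finite_und hi).subset fun u hu h1 => hu ?_, rfl⟩, lft K M i / _,
    mem_WWW.2 fun u => ?_, mul_div_cancel _ _⟩
  · simp only [j]
    split_ifs with h2 h3
    · have h3 := div_mem_UU.1 (WW_le _ _ (hy u h2))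
      rw [Q.ord_nm h2, mem_UU'.1 (mp_mem_UU.2 h1)] at h3
      exact mem_UU'.2 (by omega)
    · exact mp_mem_UU.2 h1
    · exact one_mem _
  · rw [Pi.div_apply, nrm_apply, Finset.prod_apply]
    simp only [tw_apply]
    by_cases h2 : Q.σ • u = u
    · have h3 : ∀ g : M ≃ₐ[K] M, g • u = u := fun g => by
        rcases Q.cases g with rfl | rfl | rfl
        exacts [one_smul _ _, h2, by rw [mul_smul, h2, h2]]
      simp only [h3, j, dif_pos]
      rw [← nrm_apply, ← Q.nm_eq]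
      exact hy u h2
    have h3 : ∀ g : M ≃ₐ[K] M, ¬ Q.σ • g • u = g • u := fun g hg => h2 (by
      have h4 : g⁻¹ * (Q.σ * g) = 1 := Q.free h2 (by rw [mul_smul, mul_smul, hg, inv_smul_smul])
      rw [inv_mul_eq_one, eq_comm, mul_eq_right] at h4
      rw [h4, one_smul])
    obtain ⟨g, hg⟩ := exists_smul_eq (M ≃ₐ[K] M) (hw (und K u)).symm
    simp only [j, dif_neg (h3 _), und_smul]
    rw [Finset.prod_eq_single g⁻¹ (fun g' _ h4 => ?_) fun h4 => absurd (Finset.mem_univ _) h4,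
      inv_inv, if_pos hg, act_mp]
    · exact (div_self' (lft K M i u)).symm ▸ one_mem _
    · rw [if_neg fun h5 => h4 ?_, map_one]
      have h6 : g⁻¹ * g'⁻¹ = 1 := Q.free h2 (by rw [mul_smul, h5, ← hg, inv_smul_smul])
      rw [inv_mul_eq_one] at h6
      rw [h6, inv_inv]

theorem main [IsTotallyComplex K] (ht : Q.Tame) : ∃ c : ℕ, c ≠ 0 ∧ 3 * c ∣ Q.NL.relIndex (JJ K) ∧
    (c = 1 → ∀ b : Kˣ, (∀ v, b ∈ Q.Loc v) → ∃ y, Q.nm y = mp K M b) := by
  have := Q.isGalois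
  obtain ⟨c, hc, h1, h2⟩ := side Q.mem_zpowers Q.finite_R Q.smul_mem_R fun u x hx => by
    by_cases hu : u ∈ Q.R
    · have h0 := smul_eq_of_mem_In hu
      have h3 := hx Q.σ h0
      have h3' := hx (Q.σ * Q.σ) (by rw [mul_smul, h0, h0])
      rw [WW_of_mem hu] at h3 h3' ⊢
      rw [div_mem_U1, actU_val] at h3 h3'
      obtain ⟨s, hs⟩ := Q.fixed (x := (x + Q.σ • (x : M) + (Q.σ * Q.σ) • (x : M)) / 3) (by
        rw [smul_div₀', smul_add, smul_add, ← mul_smul, ← mul_smul, ← mul_assoc, Q.σ_cube, one_smul,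
          show Q.σ • (3 : M) = 3 from map_ofNat Q.σ 3]
        ring)
      have h4 : val u (algebraMap K M s - x) < val u (x : M) := by
        rw [hs, show (x + Q.σ • (x : M) + (Q.σ * Q.σ) • (x : M)) / 3 - x =
          ((Q.σ • (x : M) - x) + ((Q.σ * Q.σ) • (x : M) - x)) / 3 by ring, map_div₀, ht u hu, div_one]
        exact Valuation.map_add_lt _ h3 h3'
      have h5 : s ≠ 0 := by rintro rfl; simp at h4
      refine ⟨Units.mk0 s h5, ?_⟩
      rw [← inv_mem_iff, inv_div, div_mem_U1]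
      exact h4
    · rw [WW_of_notMem hu]
      exact exists_div_mp_mem_UU (Q.ee_eq_one hu) x
  rw [Q.card] at h1
  refine ⟨c, hc, h1.trans (relIndex_dvd_of_le_left _ (sup_le_sup_left
    (fun i hi => Q.lft_mem hi.2 fun v => hi.1 v trivial) _)), fun h b hb => ?_⟩
  obtain ⟨y, hy⟩ := h2 h b (Q.lft_mem (cst_mem_JJ b) hb)
  exact ⟨y, (Q.nm_eq y).trans hy⟩

theorem first [IsTotallyComplex K] (ht : Q.Tame) :
    ¬ ∀ j ∈ JJ K, ∃ x : Kˣ, ∀ v, j v / x ∈ Q.Loc v := by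
  intro h
  obtain ⟨c, hc, h1, -⟩ := Q.main ht
  rw [relIndex_eq_one.2 fun j hj => ?_] at h1
  · have := Nat.le_of_dvd one_pos h1
    omega
  · obtain ⟨x, hx⟩ := h j hj
    exact mem_sup.2 ⟨_, ⟨x, rfl⟩, j / cst _ _ x,
      ⟨fun v _ => hx v, (JJ K).div_mem hj (cst_mem_JJ x)⟩, mul_div_cancel _ _⟩

end CD

end Pool.Agent.H3.Cub
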