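import Pool.Agent.Lib.MP_23455a_nt.H3.HNa

/-! Cyclic cubic extensions: Galois group, norms, ramification. -/

set_option autoImplicit false
set_option linter.unusedSectionVars false

namespace Pool.Agent.H3.Cub

open Pool.Agent.Lib.MP_580eba_nt NumberField Subgroup WithZero

theorem g_cube_cases {F : Type*} [Field F] {z s t : F} (hz : z ^ 2 + z + 1 = 0)
    (h : s ^ 3 = t ^ 3) : s = t ∨ s = z * t ∨ s = z ^ 2 * t := by
  have h1 : (s - t) * ((s - z * t) * (s - z ^ 2 * t)) = 0 := by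
    linear_combination h + (-s ^ 2 * t + z * s * t ^ 2 - (z - 1) * t ^ 3) * hz
  rcases mul_eq_zero.1 h1 with h2 | h2
  · exact Or.inl (sub_eq_zero.1 h2)
  · rcases mul_eq_zero.1 h2 with h3 | h3
    · exact Or.inr (Or.inl (sub_eq_zero.1 h3))
    · exact Or.inr (Or.inr (sub_eq_zero.1 h3))

theorem g_norm_id {F : Type*} [Field F] {z : F} (hz : z ^ 2 + z + 1 = 0) (A B C : F) :
    (A + B + C) * (A + z * B + z ^ 2 * C) * (A + z ^ 2 * B + z ^ 4 * C) =
      A ^ 3 + B ^ 3 + C ^ 3 - 3 * A * B * C := by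
  linear_combination (A + B + C) * ((z - 1) * B ^ 2 + (z - 1) * (z ^ 3 + 1) * C ^ 2 + A * B +
    (z ^ 2 - z + 1) * A * C + (z ^ 3 - z + 1) * B * C) * hz

variable {K M : Type*} [Field K] [Field M] [NumberField K] [NumberField M] [Algebra K M]

namespace CD

variable (Q : CD K M)

theorem r0 : Q.r ≠ 0 := fun h => by
  have := Q.cb
  rw [h, zero_pow three_ne_zero, eq_comm, map_eq_zero] at this
  exact Q.a.ne_zero this

theorem hζ' : algebraMap K M Q.ζ ^ 2 + algebraMap K M Q.ζ + 1 = 0 := by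
  have := congrArg (algebraMap K M) Q.hζ
  rwa [map_add, map_add, map_pow, map_one, map_zero] at this

omit [NumberField K] [NumberField M] in
theorem g_smul_nf (g : M ≃ₐ[K] M) (s t u : K) :
    g • (algebraMap K M s + algebraMap K M t * Q.r + algebraMap K M u * Q.r ^ 2) =
      algebraMap K M s + algebraMap K M t * g • Q.r + algebraMap K M u * (g • Q.r) ^ 2 := by
  rw [smul_add, smul_add, smul_mul', smul_mul', smul_algebraMap, smul_algebraMap, smul_algebraMap,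
    smul_pow']

omit [NumberField K] [NumberField M] in
theorem g_ext {g h : M ≃ₐ[K] M} (H : g • Q.r = h • Q.r) : g = h := AlgEquiv.ext fun x => by
  obtain ⟨s, t, u, rfl⟩ := Q.span x
  exact (Q.g_smul_nf g s t u).trans (H ▸ (Q.g_smul_nf h s t u).symm)

omit [NumberField K] [NumberField M] in
theorem g_σσr : Q.σ • Q.σ • Q.r = algebraMap K M Q.ζ ^ 2 * Q.r := by
  rw [Q.σr, smul_mul', smul_algebraMap, Q.σr]
  ring

theorem cases (g : M ≃ₐ[K] M) : g = 1 ∨ g = Q.σ ∨ g = Q.σ * Q.σ := by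
  have h : (g • Q.r) ^ 3 = Q.r ^ 3 := by rw [← smul_pow', Q.cb, smul_algebraMap]
  rcases g_cube_cases Q.hζ' h with h | h | h
  · exact Or.inl (Q.g_ext (by rw [h, one_smul]))
  · exact Or.inr (Or.inl (Q.g_ext (h.trans Q.σr.symm)))
  · exact Or.inr (Or.inr (Q.g_ext (by rw [h, mul_smul, Q.g_σσr])))

theorem σ_cube : Q.σ * Q.σ * Q.σ = 1 := Q.g_ext (by
  rw [mul_smul, mul_smul, Q.g_σσr, smul_mul', smul_pow', smul_algebraMap, Q.σr, one_smul]
  linear_combination (algebraMap K M Q.ζ - 1) * Q.r * Q.hζ')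

theorem g_σ_ne : Q.σ ≠ 1 := fun h => Q.r0 (by
  have h1 := Q.σr
  rw [h, one_smul] at h1
  linear_combination (1 / 3 : M) * Q.r * Q.hζ' + (1 / 3 : M) * (algebraMap K M Q.ζ + 2) * h1)

theorem g_σσ_ne : Q.σ * Q.σ ≠ 1 := fun h => Q.g_σ_ne (by
  have h1 := Q.σ_cube
  rwa [h, one_mul] at h1)

theorem g_σ_ne_σσ : Q.σ ≠ Q.σ * Q.σ := fun h => Q.g_σ_ne (by
  have h1 := Q.σ_cube
  rw [← h, ← h] at h1
  exact h1)

theorem fixed {x : M} (h : Q.σ • x = x) : ∃ s, algebraMap K M s = x := by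
  have h2 : (Q.σ * Q.σ) • x = x := by rw [mul_smul, h, h]
  obtain ⟨s, t, u, rfl⟩ := Q.span x
  rw [Q.g_smul_nf, mul_smul, Q.g_σσr] at h2
  rw [Q.g_smul_nf, Q.σr] at h
  exact ⟨s, by
    linear_combination (1 / 3 : M) * h + (1 / 3 : M) * h2 - (1 / 3 : M) * (algebraMap K M t * Q.r +
      algebraMap K M u * Q.r ^ 2 * (algebraMap K M Q.ζ ^ 2 - algebraMap K M Q.ζ + 1)) * Q.hζ'⟩

include Q in
theorem isGalois : IsGalois K M := IsGalois.of_fixedField_eq_bot K M (eq_bot_iff.2 fun _ hx =>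
  IntermediateField.mem_bot.2 (Q.fixed (hx ⟨Q.σ, mem_top _⟩)))

theorem mem_zpowers (g : M ≃ₐ[K] M) : g ∈ zpowers Q.σ := by
  rcases Q.cases g with rfl | rfl | rfl
  exacts [one_mem _, Subgroup.mem_zpowers _,
    mul_mem (Subgroup.mem_zpowers _) (Subgroup.mem_zpowers _)]

theorem g_univ_eq [DecidableEq (M ≃ₐ[K] M)] :
    (Finset.univ : Finset (M ≃ₐ[K] M)) = {1, Q.σ, Q.σ * Q.σ} :=
  Finset.ext fun g => by simpa using Q.cases g

theorem g_notMem [DecidableEq (M ≃ₐ[K] M)] :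
    (1 : M ≃ₐ[K] M) ∉ ({Q.σ, Q.σ * Q.σ} : Finset (M ≃ₐ[K] M)) := by
  rw [Finset.mem_insert, Finset.mem_singleton, not_or]
  exact ⟨Q.g_σ_ne.symm, Q.g_σσ_ne.symm⟩

include Q in
theorem card : Fintype.card (M ≃ₐ[K] M) = 3 := by
  classical
  rw [← Finset.card_univ, Q.g_univ_eq, Finset.card_insert_of_notMem Q.g_notMem,
    Finset.card_pair Q.g_σ_ne_σσ]

theorem nrm_eq {A : Type*} [CommGroup A] (a : (M ≃ₐ[K] M) →* Monoid.End A) (x : A) :
    nrm a x = x * a Q.σ x * a (Q.σ * Q.σ) x := by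
  classical
  rw [nrm_apply, Q.g_univ_eq, Finset.prod_insert Q.g_notMem, Finset.prod_pair Q.g_σ_ne_σσ, act_one,
    mul_assoc]

theorem nm_eq (y : Mˣ) : Q.nm y = nrm (actU (M ≃ₐ[K] M) M) y := (Q.nrm_eq _ y).symm

theorem nm_val (y : Mˣ) : (Q.nm y : M) = y * Q.σ • (y : M) * Q.σ • Q.σ • (y : M) := rfl

theorem nm_mp (t : Kˣ) : Q.nm (mp K M t) = mp K M (t ^ 3) := by
  rw [Q.nm_eq, Q.nrm_eq, act_mp, act_mp, pow_three', map_mul, map_mul]

theorem nm_nf (s t u : K) {x : M}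
    (h : x = algebraMap K M s + algebraMap K M t * Q.r + algebraMap K M u * Q.r ^ 2) :
    x * Q.σ • x * Q.σ • Q.σ • x = algebraMap K M (nf (Q.a : K) s t u) := by
  have h1 := g_norm_id Q.hζ' (algebraMap K M s) (algebraMap K M t * Q.r)
    (algebraMap K M u * Q.r ^ 2)
  rw [← mul_smul, h, Q.g_smul_nf, Q.g_smul_nf, mul_smul, Q.g_σσr, Q.σr, nf]
  simp only [map_sub, map_add, map_mul, map_pow, map_ofNat, ← Q.cb]
  linear_combination h1

theorem ord_nm {u : Pl M} (h : Q.σ • u = u) (y : Mˣ) :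
    ord u (Q.nm y : M) = 3 * ord u (y : M) := by
  have h1 : Q.σ • (y : M) ≠ 0 := (smul_ne_zero_iff_ne _).2 y.ne_zero
  rw [nm_val, ord_mul u (mul_ne_zero y.ne_zero h1) ((smul_ne_zero_iff_ne _).2 h1),
    ord_mul u y.ne_zero h1, ord_smul_of_eq h (Q.σ • (y : M)), ord_smul_of_eq h]
  ring

theorem free {u : Pl M} (h : Q.σ • u ≠ u) {g : M ≃ₐ[K] M} (hg : g • u = u) : g = 1 := by
  rcases Q.cases g with rfl | rfl | rfl
  · rfl
  · exact absurd hg h
  · refine absurd ?_ h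
    conv_lhs => rw [← hg, ← mul_smul, ← mul_assoc, Q.σ_cube, one_smul]

omit [NumberField K] [NumberField M] in
theorem g_div_cube (t : Kˣ) :
    (Q.r / algebraMap K M t) ^ 3 = algebraMap K M (Q.a / t ^ 3 : Kˣ) := by
  simp [div_pow, Q.cb]

omit [NumberField K] [NumberField M] in
theorem g_smul_div (t : Kˣ) :
    Q.σ • (Q.r / algebraMap K M t) = algebraMap K M Q.ζ * (Q.r / algebraMap K M t) := by
  rw [smul_div₀', smul_algebraMap, Q.σr, mul_div_assoc]

theorem notMem_R {u : Pl M} (h : val (und K u) (3 : K) = 1)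
    (h1 : (3 : ℤ) ∣ ord (und K u) (Q.a : K)) : u ∉ Q.R := fun hu => by
  obtain ⟨t, ht⟩ := exists_div_cube h1
  have h2 : val u (Q.r / algebraMap K M t) = 1 :=
    val_eq_one_of_cube (by rw [Q.g_div_cube]; exact (val_map_eq_one u).2 ht)
  have h3 := mem_In.1 hu _ h2.le
  rw [Q.g_smul_div, ← sub_one_mul, map_mul, h2, mul_one] at h3
  have h4 := (val_zeta u Q.hζ').2
  rw [← map_ofNat (algebraMap K M) 3, (val_map_eq_one u).2 h] at h4
  exact (pow_lt_one₀ zero_le h3 two_ne_zero).ne h4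

theorem finite_R : Q.R.Finite := by
  refine (finite_und ((finite_val (three_ne_zero' K)).union (finite_ord (Q.a : K)))).subset
    fun u hu => ?_
  by_contra h
  simp only [Set.mem_ofPred_eq, Set.mem_union, not_or, not_not] at h
  exact Q.notMem_R h.1 (by rw [h.2]; exact dvd_zero _) hu

theorem smul_mem_R (g : M ≃ₐ[K] M) (u : Pl M) (h : u ∈ Q.R) : g • u ∈ Q.R := by
  rcases Q.cases g with rfl | rfl | rfl
  · rwa [one_smul]
  · rwa [smul_eq_of_mem_In h]
  · rwa [mul_smul, smul_eq_of_mem_In h, smul_eq_of_mem_In h]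

theorem ee_eq_one {u : Pl M} (h : u ∉ Q.R) : ee K u = 1 := by
  have := Q.isGalois
  rw [← card_In (M ≃ₐ[K] M), Subgroup.card_eq_one, Subgroup.eq_bot_iff_forall]
  intro g hg
  rcases Q.cases g with rfl | rfl | rfl
  · rfl
  · exact absurd hg h
  · refine absurd ?_ h
    have h1 := mul_mem hg hg
    rwa [← mul_assoc, Q.σ_cube, one_mul] at h1

theorem split {u : Pl M} (h : Q.a ∈ CB (und K u)) : Q.σ • u ≠ u := fun hu => by
  obtain ⟨t, ht⟩ := mem_CB.1 h
  have h1 : val u ((Q.r / algebraMap K M t) ^ 3 - 1) < val u 9 := by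
    rw [Q.g_div_cube]
    exact mem_U9.1 (mp_mem_U9.2 ht)
  obtain ⟨i, hi⟩ := exists_near Q.hζ' h1
  set x := algebraMap K M Q.ζ ^ (i : ℕ) * (Q.r / algebraMap K M t) with hx
  have h2 : Q.σ • x = algebraMap K M Q.ζ * x := by
    rw [hx, smul_mul', smul_pow', smul_algebraMap, Q.g_smul_div]
    ring
  have h3 : val u (algebraMap K M Q.ζ * x - 1) < val u 3 := by
    rwa [← h2, ← smul_one Q.σ, ← smul_sub, val_smul_of_eq hu]
  have h4 := Valuation.map_sub_lt _ h3 hi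
  rw [sub_sub_sub_cancel_right, ← sub_one_mul, map_mul,
    val_eq_one_of_sub (hi.trans_le (val_three_le u)), mul_one, ← (val_zeta u Q.hζ').2] at h4
  have h5 : val u (algebraMap K M Q.ζ - 1) ≤ 1 :=
    Valuation.map_sub_le _ (val_zeta u Q.hζ').1.le (by simp)
  exact absurd h4 (not_lt.2 (by rw [pow_two]; exact mul_le_of_le_one_left' h5))

theorem tame_of (h : ∀ v, val v (3 : K) < 1 → Q.a ∈ CB v) : Q.Tame := fun _ hu =>
  val_three_eq_one fun h1 => Q.split (h _ ((val_three_map _).1 h1)) (smul_eq_of_mem_In hu)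

theorem mp_a_mem (u : Pl M) : mp K M Q.a ∈ CB u := by
  rw [show mp K M Q.a = Units.mk0 Q.r Q.r0 ^ 3 from Units.ext Q.cb.symm]
  exact cube_mem_CB _ _

theorem isCube_or {x : K} (h : IsCube (algebraMap K M x)) :
    ∃ j : Fin 3, IsCube (x * (Q.a : K) ^ (j : ℕ)) := by
  obtain ⟨y, hy⟩ := h
  have key : ∀ j : ℕ, Q.σ • (y * Q.r ^ j) = y * Q.r ^ j → IsCube (x * (Q.a : K) ^ j) := by
    intro j hj
    obtain ⟨s, hs⟩ := Q.fixed hj
    exact ⟨s, (algebraMap K M).injective (by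
      rw [map_mul, map_pow, map_pow, hs, hy, ← Q.cb]
      ring)⟩
  have h1 : (Q.σ • y) ^ 3 = y ^ 3 := by rw [← smul_pow', ← hy, smul_algebraMap]
  rcases g_cube_cases Q.hζ' h1 with h | h | h
  · exact ⟨0, key 0 (by rw [pow_zero, mul_one, h])⟩
  · refine ⟨2, key 2 ?_⟩
    rw [smul_mul', smul_pow', h, Q.σr]
    linear_combination (algebraMap K M Q.ζ - 1) * y * Q.r ^ 2 * Q.hζ'
  · refine ⟨1, key 1 ?_⟩
    rw [pow_one, smul_mul', h, Q.σr]
    linear_combination (algebraMap K M Q.ζ - 1) * y * Q.r * Q.hζ'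

end CD

end Pool.Agent.H3.Cub
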