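import Pool.Agent.Lib.MP_23455a_nt.H3.RM
import Pool.Agent.Lib.MP_23455a_nt.LocS
import Pool.Agent.Lib.MP_696deb_nt.B2.CMh
import Pool.Agent.Lib.MP_696deb_nt.B2.CMd

/-! Heegner points of level twenty-seven: definitions. -/

set_option autoImplicit false

open scoped NNReal Classical
open Finset NumberTheorySymbols

namespace Pool.Agent.H3

open Pool.Agent.Lib.MP_696deb_nt.B2 Pool.Agent.Lib.MP_696deb_nt.B2.CM
open Pool.Agent.Lib.MP_23455a_nt (pm phiX phiY fT lat)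

/-- The standing hypotheses for Heegner points. -/
structure OkT (n c : ℕ) (r : ℤ) : Prop extends Ok n c where
  root : 108 ∣ r ^ 2 + n
  cop : ¬ 3 ∣ n * c

/-- A Heegner point in the upper half plane that belongs to a class. -/
noncomputable def tauP (n c : ℕ) (r : ℤ) (x : Pc n c) : ℂ :=
  Classical.epsilon fun τ => Hg27 n c r τ ∧ cl (Oc n c) (sp2 (27 * τ) 1) = x

/-- The Heegner point of a class, as an algebraic point. -/
noncomputable def yW (n c : ℕ) (r : ℤ) (x : Pc n c) : PW :=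
  Function.invFun (pm jC) (pt27 (tauP n c r x))

/-- A nonzero number as a point of the multiplicative group. -/
noncomputable def PR.mk (x : Qbar) (h : x ≠ 0) : PR := Additive.ofMul (Units.mk0 x h)

theorem PR.val_mk (x : Qbar) (h : x ≠ 0) : (PR.mk x h).val = x := rfl

theorem PR.val_sum {ι : Type} (s : Finset ι) (f : ι → PR) :
    (∑ i ∈ s, f i).val = ∏ i ∈ s, (f i).val := by
  rw [PR.val, toMul_sum, Units.coe_prod]; rfl

/-- Systems of points that are indexed by the full ring class groups. -/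
structure PreHP (n : ℕ) [∀ c, Fintype (Pc n c)] {P : Type} [AddCommGroup P]
    [DistribMulAction Gam P] (M : Mot P) where
  yq : ∀ c, Pc n c → P
  gal : ∀ c, Adm n c → ∀ g ∈ GK n, ∀ x, g • yq c x = yq c (rho n c g * x)
  good : ∀ c (w : Plc), Adm n c → w.p ≠ 3 → ∀ x, yq c x ∈ M.G w
  trace : ∀ c l, l.Prime → Adm n (c * l) → ∀ z,
    ∑ x with pj n c (c * l) x = z, yq (c * l) x = M.a l • yq c z
  kron : ∀ c (w : Plc) (φ : Gam), Adm n (c * w.p) → IsFrob w w.p φ → ∀ x,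
    yq (c * w.p) x - φ • yq c (pj n c (c * w.p) x) ∈ M.K w

variable {n c d l : ℕ} {r : ℤ} {τ : ℂ}

theorem Nk.ok (hn : Nk n) (hc : Adm n c) : Ok n c :=
  ⟨by have := hn.m12; omega, by have := hn.m12; omega, hc.1.ne_zero⟩

theorem Nk.okT (hn : Nk n) (hr : 108 ∣ r ^ 2 + n) (hc : Adm n c) : OkT n c r :=
  ⟨hn.ok hc, hr, fun h => (Nat.prime_three.dvd_mul.1 h).elim (by have := hn.m12; omega) fun k =>
    absurd (hc.2 3 Nat.prime_three k).1 (by norm_num)⟩

theorem hp0_one : Adm n 1 := ⟨squarefree_one, fun _ hl h => absurd (Nat.dvd_one.1 h) hl.ne_one⟩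

theorem hp0_dvd (h : Adm n d) (hc : c ∣ d) : Adm n c :=
  ⟨h.1.squarefree_of_dvd hc, fun l hl k => h.2 l hl (k.trans hc)⟩

theorem hp0_mul (h : Adm n (c * l)) (hl : l.Prime) :
    l % 3 = 2 ∧ l ≠ 2 ∧ J(-n | l) = -1 ∧ ¬ l ∣ c :=
  have k := h.2 l hl (dvd_mul_left l c)
  ⟨k.1, k.2.1, k.2.2, fun k => hl.not_isUnit (h.1 l (mul_dvd_mul_right k l))⟩

theorem OkT.of_mul (ok : OkT n (c * l) r) : OkT n c r :=
  ⟨⟨ok.m4, ok.gt, left_ne_zero_of_mul ok.ne⟩, ok.root,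
    fun h => ok.cop (mul_assoc n c l ▸ h.mul_right l)⟩

theorem OkT.ndvd (ok : OkT n c r) : ¬ (3 : ℤ) ∣ r * c := fun h => by
  rcases Int.prime_three.dvd_or_dvd h with ⟨k, rfl⟩ | h
  · obtain ⟨m, hm⟩ := ok.root
    have : (3 : ℤ) ∣ n := ⟨36 * m - 3 * k ^ 2, by linear_combination hm⟩
    exact ok.cop (Dvd.dvd.mul_right (by exact_mod_cast this) c)
  · exact ok.cop (Dvd.dvd.mul_left (by exact_mod_cast h) n)

theorem lat27_eq (hτ : 0 < τ.im) : (lat τ).lattice = sp2 τ 1 := by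
  ext z
  simp only [Lib.MP_23455a_nt.mem_lat hτ, mem_sp2, mul_one]

theorem pt27_eq (hτ : 0 < τ.im) : pt27 τ =
    .some (phiX τ) (phiY τ) (Lib.MP_23455a_nt.ns_iff.2 (Lib.MP_23455a_nt.phi_eq hτ)) := dif_pos _

theorem fT_pt27 (hτ : 0 < τ.im) : fT (pt27 τ) = phiY τ - 3 * phiX τ + 5 := by
  have h := (Lib.MP_23455a_nt.ord27_lat hτ).pt.2.2.1
  rw [Lib.MP_23455a_nt.kx_lat hτ, Lib.MP_23455a_nt.ky_lat hτ] at h
  rw [pt27_eq hτ, Lib.MP_23455a_nt.fT_some]
  exact fun e => h (by rw [e.1, e.2]; norm_num)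

end Pool.Agent.H3
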