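import Pool.Agent.Lib.MP_23455a_nt.H3.D0b
import Pool.Agent.Lib.MP_23455a_nt.H3.BAd
import Pool.Agent.Lib.MP_23455a_nt.H3.BAe

/-! Cocycles on tame decomposition groups and the local pairing at deep places. -/

set_option autoImplicit false

open scoped NNReal Classical
open Finset

namespace Pool.Agent.H3

open Pool.Agent.Lib.MP_696deb_nt.B2


/-- An odd place that is unramified in the fixed field of `H`, the order `q` of the residue field,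
a Frobenius element and a generator of the tame inertia group. -/
structure Tm (H : Subgroup Gam) (w : Plc) (q : ℕ) (φ τ : Gam) : Prop where
  op : Op H
  odd : w.p ≠ 3
  ine : Ine w ≤ H
  mem : φ ∈ H
  frob : IsFrob w q φ
  deg : q = w.p ^ (H ⊓ Dec w).relIndex (Dec w)
  gen : Gen w τ
  cop : ¬ 3 ∣ (H ⊓ Dec w).relIndex (Dec w)
  dg : ∀ {g}, g ∈ H ⊓ Dec w → ∀ {U : Subgroup Gam}, Op U →
    ∃ (n : ℕ) (σ : Gam), σ ∈ Ine w ∧ (φ ^ n * σ)⁻¹ * g ∈ U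

theorem tm_split {H : Subgroup Gam} {w : Plc} {φ τ : Gam} (hH : Op H) (hw : w.p ≠ 3)
    (hD : Dec w ≤ H) (hφ : IsFrob w w.p φ) (hτ : Gen w τ) : Tm H w w.p φ τ :=
  ⟨hH, hw, (Ine_le w).trans hD, hD hφ.1, hφ, by
    rw [inf_eq_right.2 hD, Subgroup.relIndex_self, pow_one], hτ, by
    rw [inf_eq_right.2 hD, Subgroup.relIndex_self]; norm_num, fun hg _ hU => by
    obtain ⟨n, σ, h1, h2⟩ := dec_gen hφ hg.2 hU
    exact ⟨n, σ, h1, h2.1⟩⟩

theorem tm_inert {n : ℕ} {w : Plc} {φ τ : Gam} (hw : w.p ≠ 3) (hI : Ine w ≤ GK n)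
    (hφ : IsFrob w w.p φ) (h' : φ ∉ GK n) (hτ : Gen w τ) : Tm (GK n) w (w.p ^ 2) (φ * φ) τ :=
  ⟨op_GK n, hw, hI, mul_mem_GK h' h', by rw [sq]; exact hφ.mul hφ, by
    rw [relIndex_inert hφ.1 h'], hτ, by rw [relIndex_inert hφ.1 h']; norm_num, fun hg _ hU => by
    obtain ⟨n, σ, h1, h2⟩ := dec_gen_inert hφ h' hI hg hU
    exact ⟨n, σ, h1, h2.1⟩⟩

section


variable {M : Type} [AddCommGroup M] {D H : Subgroup Gam} {a : Gam → M →+ M} {c : Gam → M}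
  {w : Plc} {q m : ℕ} {φ τ g σ : Gam}

theorem Act.lo_mono {D' : Subgroup Gam} (h : Act D a) (k : D' ≤ D) : Act D' a :=
  ⟨h.sm.mono k, h.one, fun g hg g' hg' => h.mul g (k hg) g' (k hg'), fun g hg => h.three g (k hg)⟩

theorem Coc.lo_mono {D' : Subgroup Gam} (h : Coc D a c) (k : D' ≤ D) : Coc D' a c :=
  ⟨h.1.mono k, fun g hg g' hg' => h.2 g (k hg) g' (k hg')⟩

theorem Coc.lo_congr {c' : Gam → M} (h : Coc D a c) (k : ∀ g ∈ D, c' g = c g) : Coc D a c' :=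
  ⟨h.1.congr fun g hg => (k g hg).symm, fun g hg g' hg' => by
    rw [k _ (mul_mem hg hg'), k g hg, k g' hg', h.2 g hg g' hg']⟩

theorem Coc.lo_sub {c' : Gam → M} (h : Coc D a c) (k : Coc D a c') : Coc D a (c - c') := by
  rw [sub_eq_add_neg]
  exact h.add k.neg

theorem Coc.lo_one (ha : Act D a) (h : Coc D a c) : c 1 = 0 := by
  have := h.2 1 D.one_mem 1 D.one_mem
  rwa [mul_one, ha.one, left_eq_add] at this

theorem lo_coc_cob (ha : Act D a) (x : M) : Coc D a (cob a x) :=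
  ⟨ha.sm.comp fun f => f x - x, fun g hg h hh => by
    simp only [cob, ha.mul g hg h hh, map_sub]
    abel⟩

theorem Coc.lo_rs (h : Coc D a c) : rs D c ∈ Z1 D a :=
  ⟨h.lo_congr fun _ hg => rs_of_mem hg c, fun _ hg => rs_of_notMem hg c⟩

theorem Act.lo_inv (ha : Act D a) (hg : g ∈ D) (x : M) : a g⁻¹ (a g x) = x := by
  rw [← ha.mul _ (inv_mem hg) _ hg, inv_mul_cancel, ha.one]

theorem Act.lo_inv' (ha : Act D a) (hg : g ∈ D) (x : M) : a g (a g⁻¹ x) = x := by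
  rw [← ha.mul _ hg _ (inv_mem hg), mul_inv_cancel, ha.one]

theorem Coc.lo_inv (ha : Act D a) (h : Coc D a c) (hg : g ∈ D) : c g⁻¹ = -a g⁻¹ (c g) := by
  have := h.2 _ (inv_mem hg) _ hg
  rw [inv_mul_cancel, h.lo_one ha] at this
  exact eq_neg_of_add_eq_zero_left this.symm

theorem Coc.lo_pow (ha : Act D a) (h : Coc D a c) (hg : g ∈ D) (k : ℕ) :
    c (g ^ k) = ∑ i ∈ range k, a (g ^ i) (c g) := by
  induction k with
  | zero => simpa using h.lo_one ha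
  | succ k ih => rw [pow_succ, h.2 _ (pow_mem hg k) _ hg, ih, sum_range_succ]

theorem Coc.lo_pow_fix (ha : Act D a) (h : Coc D a c) (hg : g ∈ D) (e : a g (c g) = c g) (k : ℕ) :
    c (g ^ k) = k • c g := by
  induction k with
  | zero => simpa using h.lo_one ha
  | succ k ih => rw [pow_succ', h.2 _ hg _ (pow_mem hg k), ih, map_nsmul, e, succ_nsmul']

theorem Act.lo_pow_mem (ha : Act D a) (hg : g ∈ D) {N : AddSubgroup M} (hN : ∀ x ∈ N, a g x ∈ N)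
    (k : ℕ) : ∀ x ∈ N, a (g ^ k) x ∈ N := by
  induction k with
  | zero => intro x hx; rwa [pow_zero, ha.one]
  | succ k ih => intro x hx; rw [pow_succ, ha.mul _ (pow_mem hg k) _ hg]; exact ih _ (hN x hx)

theorem Coc.lo_pow_mem (ha : Act D a) (h : Coc D a c) (hg : g ∈ D) {N : AddSubgroup M}
    (hN : ∀ x ∈ N, a g x ∈ N) (e : c g ∈ N) (k : ℕ) : c (g ^ k) ∈ N := by
  rw [h.lo_pow ha hg]
  exact sum_mem fun i _ => ha.lo_pow_mem hg hN i _ e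

/-- The affine action attached to a cocycle. -/
noncomputable def loAff (ha : Act D a) (h : Coc D a c) (g : Gam) : Equiv.Perm M :=
  if hg : g ∈ D then ⟨fun x => c g + a g x, fun x => c g⁻¹ + a g⁻¹ x, fun x => by
      simp only [map_add, ha.lo_inv hg, h.lo_inv ha hg]
      abel, fun x => by
      simp only [map_add, map_neg, ha.lo_inv' hg, h.lo_inv ha hg]
      abel⟩ else 1

theorem loAff_apply (ha : Act D a) (h : Coc D a c) (hg : g ∈ D) (x : M) :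
    loAff ha h g x = c g + a g x := by
  rw [loAff, dif_pos hg]
  rfl

theorem loAff_mul (ha : Act D a) (h : Coc D a c) : IsMul D (loAff ha h) := fun g hg k hk => by
  ext x
  simp only [Equiv.Perm.mul_apply, loAff_apply ha h (mul_mem hg hk), loAff_apply ha h hg,
    loAff_apply ha h hk, h.2 g hg k hk, ha.mul g hg k hk, map_add, add_assoc]

theorem loAff_pow (ha : Act D a) (h : Coc D a c) (hg : g ∈ D) (k : ℕ) :
    loAff ha h (g ^ k) = loAff ha h g ^ k := by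
  induction k with
  | zero =>
    ext x
    simp [loAff_apply ha h D.one_mem, h.lo_one ha, ha.one]
  | succ k ih => rw [pow_succ, loAff_mul ha h _ (pow_mem hg k) _ hg, ih, pow_succ]

theorem loAff_sm (ha : Act D a) (h : Coc D a c) : Sm D (loAff ha h) := by
  obtain ⟨U, u1, u2, u3⟩ := h.1.comp₂ ha.sm Prod.mk
  refine ⟨U, u1, u2, fun g hg k hk e => ?_⟩
  have := Prod.mk.inj (u3 g hg k hk e)
  ext x
  rw [loAff_apply ha h hg, loAff_apply ha h hk, this.1, this.2]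

theorem loAff_two (hM : ∀ x : M, 3 ^ m • x = 0) (ha : Act D a) (h : Coc D a c) (hg : g ∈ D)
    (h3 : g ∈ GK 3) : ∃ n : ℕ, loAff ha h g ^ 3 ^ n = 1 := by
  obtain ⟨n, hn⟩ := ha.three g hg h3
  have h1 := pow_mem hg (3 ^ n)
  refine ⟨n + m, ?_⟩
  rw [← loAff_pow ha h hg, pow_add, pow_mul]
  ext x
  have e : ∀ k, a ((g ^ 3 ^ n) ^ k) x = x := fun k => by
    induction k with
    | zero => rw [pow_zero, ha.one]
    | succ k ih => rw [pow_succ, ha.mul _ (pow_mem h1 k) _ h1, hn, ih]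
  rw [loAff_apply ha h (pow_mem h1 _), h.lo_pow_fix ha h1 (hn _), hM, e, zero_add]
  rfl

theorem loAff_eq (ha : Act D a) (h : Coc D a c) {k : Gam} (hg : g ∈ D) (hk : k ∈ D)
    (e : loAff ha h g = loAff ha h k) : c g = c k ∧ ∀ x, a g x = a k x := by
  have e1 : ∀ x, c g + a g x = c k + a k x := fun x => by
    rw [← loAff_apply ha h hg, e, loAff_apply ha h hk]
  have e2 : c g = c k := by simpa using e1 0
  exact ⟨e2, fun x => add_left_cancel (e2 ▸ e1 x)⟩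

theorem Tm.φ_mem (t : Tm H w q φ τ) : φ ∈ H ⊓ Dec w := ⟨t.mem, t.frob.1⟩

theorem Tm.ine_le (t : Tm H w q φ τ) : Ine w ≤ H ⊓ Dec w := le_inf t.ine (Ine_le w)

theorem Tm.τ_mem (t : Tm H w q φ τ) : τ ∈ H ⊓ Dec w := t.ine_le t.gen.1

/-- The unramified character. -/
theorem exists_om (w : Plc) (m : ℕ) : ∃ ω : Gam → ZMod (3 ^ m), Sm (Dec w) ω ∧
    IsHom (Dec w) ω ∧ ∀ (n : ℕ) (φ : Gam), IsFrob w (w.p ^ n) φ → ω φ = n := by
  obtain ⟨ω, h1, h2, h3⟩ := exists_deg w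
  have hc : Continuous (PadicInt.toZModPow (p := 3) m) := by
    refine continuous_of_continuousAt_zero _ (tendsto_const_nhds.congr' ?_)
    filter_upwards [Metric.closedBall_mem_nhds (0 : ℤ_[3]) (zpow_pos three_pos (-(m : ℤ)))] with x hx
    rw [mem_closedBall_zero_iff] at hx
    have := (PadicInt.norm_le_pow_iff_mem_span_pow x m).1 (by exact_mod_cast hx)
    rw [← PadicInt.ker_toZModPow, RingHom.mem_ker] at this
    rw [this, map_zero]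
  exact ⟨fun g => PadicInt.toZModPow m (ω g),
    Sm.of_continuousOn (closed_Dec w) (hc.comp_continuousOn h1),
    fun g hg k hk => by simp only [h2 g hg k hk, map_add], fun n φ h => by
      simp only [h3 n φ h, map_natCast]⟩

theorem Tm.exists_om (t : Tm H w q φ τ) (m : ℕ) : ∃ ω : Gam → ZMod (3 ^ m), Sm (H ⊓ Dec w) ω ∧
    IsHom (H ⊓ Dec w) ω ∧ ω φ = 1 ∧ ∀ σ ∈ Ine w, ω σ = 0 := by
  obtain ⟨ω, h1, h2, h3⟩ := H3.exists_om w m
  obtain ⟨u, hu⟩ : IsUnit (((H ⊓ Dec w).relIndex (Dec w) : ℕ) : ZMod (3 ^ m)) :=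
    (ZMod.isUnit_iff_coprime _ _).2 (Nat.Coprime.pow_right _
      ((Nat.coprime_comm.1 ((Nat.Prime.coprime_iff_not_dvd Nat.prime_three).2 t.cop))))
  refine ⟨fun g => u⁻¹.1 * ω g, (h1.mono inf_le_right).comp _, fun g hg k hk => by
    simp only [h2 g hg.2 k hk.2, mul_add], ?_, fun σ hσ => ?_⟩
  · simp only [h3 _ φ (t.deg ▸ t.frob), ← hu, Units.inv_mul]
  · simp only [h3 0 σ (isFrob_one.2 hσ), Nat.cast_zero, mul_zero]

variable (hM : ∀ x : M, 3 ^ m • x = 0)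
include hM

/-- Elements of the inertia group act like powers of the generator. -/
theorem Gen.lo_pow (hw : w.p ≠ 3) (hτ : Gen w τ) (ha : Act (Ine w) a) (h : Coc (Ine w) a c)
    (hσ : σ ∈ Ine w) : ∃ k : ℕ, c σ = c (τ ^ k) ∧ ∀ x, a σ x = a (τ ^ k) x := by
  obtain ⟨k, hk⟩ := tame_gen hw hτ (loAff_sm ha h) (loAff_mul ha h)
    (fun g hg => loAff_two hM ha h hg (ine_le_GK3 hw hg)) hσ
  exact ⟨k, loAff_eq ha h hσ (pow_mem hτ.1 k) (by rw [hk, loAff_pow ha h hτ.1])⟩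

theorem Tm.ine_pow (t : Tm H w q φ τ) (ha : Act (H ⊓ Dec w) a) (h : Coc (H ⊓ Dec w) a c)
    (hσ : σ ∈ Ine w) : ∃ k : ℕ, c σ = c (τ ^ k) ∧ ∀ x, a σ x = a (τ ^ k) x :=
  t.gen.lo_pow hM t.odd (ha.lo_mono t.ine_le) (h.lo_mono t.ine_le) hσ

theorem Tm.mem_ine (t : Tm H w q φ τ) (ha : Act (H ⊓ Dec w) a) (h : Coc (H ⊓ Dec w) a c)
    {N : AddSubgroup M} (hN : ∀ x ∈ N, a τ x ∈ N) (e : c τ ∈ N) (hσ : σ ∈ Ine w) : c σ ∈ N := by
  obtain ⟨k, hk, -⟩ := t.ine_pow hM ha h hσ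
  exact hk ▸ h.lo_pow_mem ha t.τ_mem hN e k

theorem Tm.zero_ine (t : Tm H w q φ τ) (ha : Act (H ⊓ Dec w) a) (h : Coc (H ⊓ Dec w) a c)
    (e : c τ = 0) (hσ : σ ∈ Ine w) : c σ = 0 :=
  t.mem_ine hM ha h (N := ⊥) (fun x hx => by rw [AddSubgroup.mem_bot.1 hx, map_zero]; rfl) e hσ

/-- The values of a cocycle lie in a stable subgroup as soon as the two generating values do. -/
theorem Tm.mem_of (t : Tm H w q φ τ) (ha : Act (H ⊓ Dec w) a) (h : Coc (H ⊓ Dec w) a c)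
    {N : AddSubgroup M} (hN : ∀ x ∈ N, a τ x ∈ N) (hN' : ∀ x ∈ N, a φ x ∈ N) (e : c τ ∈ N)
    (e' : c φ ∈ N) (hg : g ∈ H ⊓ Dec w) : c g ∈ N := by
  obtain ⟨U, u1, -, u3⟩ := h.1
  obtain ⟨n, σ, hσ, k⟩ := t.dg hg u1
  have h1 := pow_mem t.φ_mem n
  rw [← u3 _ (mul_mem h1 (t.ine_le hσ)) g hg k, h.2 _ h1 _ (t.ine_le hσ)]
  exact add_mem (h.lo_pow_mem ha t.φ_mem hN' e' n)
    (ha.lo_pow_mem t.φ_mem hN' n _ (t.mem_ine hM ha h hN e hσ))

theorem Tm.eq_zero (t : Tm H w q φ τ) (ha : Act (H ⊓ Dec w) a) (h : Coc (H ⊓ Dec w) a c)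
    (e : c τ = 0) (e' : c φ = 0) (hg : g ∈ H ⊓ Dec w) : c g = 0 :=
  have k : ∀ g, ∀ x ∈ (⊥ : AddSubgroup M), a g x ∈ (⊥ : AddSubgroup M) := fun g x hx => by
    rw [AddSubgroup.mem_bot.1 hx, map_zero]; rfl
  t.mem_of hM ha h (k τ) (k φ) e e' hg

theorem Tm.ext (t : Tm H w q φ τ) (ha : Act (H ⊓ Dec w) a) {c' : Gam → M}
    (h : Coc (H ⊓ Dec w) a c) (h' : Coc (H ⊓ Dec w) a c') (e : c τ = c' τ) (e' : c φ = c' φ)
    (hg : g ∈ H ⊓ Dec w) : c g = c' g :=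
  sub_eq_zero.1 (t.eq_zero hM ha (h.lo_sub h') (sub_eq_zero.2 e) (sub_eq_zero.2 e') hg)

theorem Tm.eq_cob (t : Tm H w q φ τ) (ha : Act (H ⊓ Dec w) a) (h : Coc (H ⊓ Dec w) a c) {x : M}
    (e : c τ = a τ x - x) (e' : c φ = a φ x - x) (hg : g ∈ H ⊓ Dec w) : c g = cob a x g :=
  t.ext hM ha h (lo_coc_cob ha x) e e' hg

/-- An element fixed by the two generators is fixed by the decomposition group. -/
theorem Tm.fix (t : Tm H w q φ τ) (ha : Act (H ⊓ Dec w) a) {x : M} (e : a τ x = x)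
    (e' : a φ x = x) (hg : g ∈ H ⊓ Dec w) : a g x = x :=
  sub_eq_zero.1 (t.eq_zero hM ha (lo_coc_cob ha x) (sub_eq_zero.2 e) (sub_eq_zero.2 e') hg)

theorem Tm.conj' (t : Tm H w q φ τ) (ha : Act (H ⊓ Dec w) a) (h : Coc (H ⊓ Dec w) a c) {n : ℕ}
    {ψ : Gam} (hψ : IsFrob w n ψ) (hσ : σ ∈ Ine w) :
    c (ψ * σ * ψ⁻¹) = c (σ ^ n) ∧ ∀ x, a (ψ * σ * ψ⁻¹) x = a (σ ^ n) x := by
  have k : H ⊓ Ine w ≤ H ⊓ Dec w := inf_le_inf_left H (Ine_le w)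
  have h1 := conj_mem_Ine hψ.1 hσ
  have ha' := ha.lo_mono k
  have h' := h.lo_mono k
  have hσ' : σ ∈ H ⊓ Ine w := ⟨t.ine hσ, hσ⟩
  have := tame_frob t.odd (loAff_sm ha' h') (loAff_mul ha' h') (fun g hg => loAff_two hM ha' h' hg (ine_le_GK3 t.odd hg.2))
    t.op hψ hσ' (t.ine h1)
  exact loAff_eq ha' h' ⟨t.ine h1, h1⟩ (pow_mem hσ' n) (by rw [this, loAff_pow ha' h' hσ'])

theorem Tm.conj (t : Tm H w q φ τ) (ha : Act (H ⊓ Dec w) a) (h : Coc (H ⊓ Dec w) a c)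
    (hσ : σ ∈ Ine w) : c (φ * σ * φ⁻¹) = c (σ ^ q) ∧ ∀ x, a (φ * σ * φ⁻¹) x = a (σ ^ q) x :=
  t.conj' hM ha h t.frob hσ

/-- The tame relation. -/
theorem Tm.rel (t : Tm H w q φ τ) (ha : Act (H ⊓ Dec w) a) (h : Coc (H ⊓ Dec w) a c)
    (hσ : σ ∈ Ine w) : c φ + a φ (c σ) = c (σ ^ q) + a (σ ^ q) (c φ) := by
  obtain ⟨e1, e2⟩ := t.conj hM ha h hσ
  rw [← e1, ← e2, ← h.2 _ t.φ_mem _ (t.ine_le hσ),
    ← h.2 _ (t.ine_le (conj_mem_Ine t.frob.1 hσ)) _ t.φ_mem, inv_mul_cancel_right]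

theorem Tm.act_rel (t : Tm H w q φ τ) (ha : Act (H ⊓ Dec w) a) (hσ : σ ∈ Ine w) (x : M) :
    a φ (a σ x) = a (σ ^ q) (a φ x) := by
  rw [← (t.conj hM ha (Coc.zero _ a) hσ).2, ← ha.mul _ t.φ_mem _ (t.ine_le hσ),
    ← ha.mul _ (t.ine_le (conj_mem_Ine t.frob.1 hσ)) _ t.φ_mem, inv_mul_cancel_right]

end


variable {M M' : Type} [AddCommGroup M] [AddCommGroup M'] {D H : Subgroup Gam}
  {a : Gam → M →+ M} {a' : Gam → M' →+ M'} {c : Gam → M} {w : Plc} {q m : ℕ} {φ τ g σ : Gam}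

theorem act_triv (h : ∀ g ∈ D, ∀ x, a g x = x) : Act D a :=
  ⟨(Sm.const (AddMonoidHom.id M)).congr fun g hg => AddMonoidHom.ext fun x => (h g hg x).symm,
    h 1 D.one_mem, fun g hg k hk x => by rw [h _ (mul_mem hg hk), h k hk, h g hg],
    fun g hg _ => ⟨0, h _ (pow_mem hg _)⟩⟩

theorem coc_triv (h : ∀ g ∈ D, ∀ x, a g x = x) : Coc D a c ↔ Sm D c ∧ IsHom D c :=
  and_congr_right fun _ => forall₂_congr fun g hg => forall₂_congr fun _ _ => by rw [h g hg]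

theorem Tm.cy_one (t : Tm H w q φ τ) (hq : (q : ZMod (3 ^ m)) = 1) (hg : g ∈ H ⊓ Dec w) :
    cy m g = 1 := by
  obtain ⟨U, u1, -, u3⟩ := sm_cy (H := H ⊓ Dec w) m
  obtain ⟨n, σ, hσ, k⟩ := t.dg hg u1
  have e : ∀ n : ℕ, cyc (φ ^ n) = (q : ℤ_[3]) ^ n := fun n => by
    rw [cyc_frob t.odd (t.frob.pow n), Nat.cast_pow]
  rw [← u3 _ (mul_mem (pow_mem t.φ_mem n) (t.ine_le hσ)) g hg k, cy, cyc_mul, e, cyc_ine t.odd hσ,
    mul_one, map_pow, map_natCast, hq, one_pow]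

theorem lo2_c2 {χ χ' : Gam → ZMod (3 ^ m)} (hD : ∀ g ∈ D, cy m g = 1) (h : Sm D χ ∧ IsHom D χ)
    (h' : Sm D χ' ∧ IsHom D χ') : C2 m D fun g k => χ g * χ' k :=
  ⟨h.1.left.comp₂ h'.1.right (· * ·), fun g hg k hk l hl => by
    simp only [hD g hg, h.2 g hg k hk, h'.2 k hk l hl]
    ring⟩

theorem lo2_flip (F : CFT) (hH : Op H) {χ χ' : Gam → ZMod (3 ^ m)}
    (hD : ∀ g ∈ H ⊓ Dec w, cy m g = 1) (h : Sm (H ⊓ Dec w) χ ∧ IsHom (H ⊓ Dec w) χ)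
    (h' : Sm (H ⊓ Dec w) χ' ∧ IsHom (H ⊓ Dec w) χ') :
    F.inv m H w (fun g k => χ g * χ' k) + F.inv m H w (fun g k => χ' g * χ k) = 0 := by
  rw [← F.add hH (lo2_c2 hD h h') (lo2_c2 hD h' h),
    F.zero_iff hH ((lo2_c2 hD h h').add (lo2_c2 hD h' h))]
  refine ⟨fun g => -(χ g * χ' g), h.1.comp₂ h'.1 fun x y => -(x * y), fun g hg k hk => ?_⟩
  simp only [Pi.add_apply, hD g hg, h.2 g hg k hk, h'.2 g hg k hk]
  ring

theorem lo2_isUnit {x : ZMod (3 ^ m)} (h : ¬ 3 ∣ x.val) : IsUnit x := by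
  rw [← ZMod.natCast_zmod_val x, ZMod.isUnit_iff_coprime]
  exact Nat.Coprime.pow_right _
    (Nat.coprime_comm.1 ((Nat.Prime.coprime_iff_not_dvd Nat.prime_three).2 h))

theorem lo2_unit {κ : Gam → ZMod (3 ^ m)} (hτ : Gen w τ) (h : τ ∈ D)
    (hκ : Kum m D w.p κ) : IsUnit (κ τ) := by
  rcases m with _ | m
  · exact isUnit_of_subsingleton (M := ZMod 1) _
  obtain ⟨r, r0, r1, r2⟩ := hκ
  refine lo2_isUnit fun ⟨j, hj⟩ => hτ.2 (r ^ 3 ^ m) (by rw [← pow_mul, ← pow_succ, r1]) ?_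
  rw [map_pow, r2 τ h, mul_pow, hj, ← pow_mul, mul_right_comm, ← pow_succ', pow_mul,
    (zeta_prim (m + 1)).pow_eq_one, one_pow, mul_one]

theorem lo2_half (x : ZMod (3 ^ m)) (h : x + x = 0) : x = 0 := by
  have h2 : IsUnit ((2 : ℕ) : ZMod (3 ^ m)) :=
    (ZMod.isUnit_iff_coprime _ _).2 (Nat.Coprime.pow_right _ (by norm_num))
  exact h2.mul_right_eq_zero.1 (by rw [Nat.cast_two, two_mul, h])

/-- A symplectic basis of the characters of the decomposition group. -/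
theorem Tm.basis (t : Tm H w q φ τ) (hq : (q : ZMod (3 ^ m)) = 1) :
    ∃ ω κ : Gam → ZMod (3 ^ m), (Sm (H ⊓ Dec w) ω ∧ IsHom (H ⊓ Dec w) ω) ∧
      (Sm (H ⊓ Dec w) κ ∧ IsHom (H ⊓ Dec w) κ) ∧ ω φ = 1 ∧ ω τ = 0 ∧ IsUnit (κ τ) ∧ ∀ F : CFT,
      F.inv m H w (fun g k => ω g * ω k) = 0 ∧ F.inv m H w (fun g k => ω g * κ k) = 1 ∧
      F.inv m H w (fun g k => κ g * ω k) = -1 ∧ F.inv m H w (fun g k => κ g * κ k) = 0 := by
  obtain ⟨ω, o1, o2, o3, o4⟩ := t.exists_om m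
  obtain ⟨κ, hκ⟩ := exists_kum (H := H ⊓ Dec w) (a := (w.p : Qbar)) m
    (by exact_mod_cast w.prime.ne_zero) fun g _ => map_natCast g _
  have hD : ∀ g ∈ H ⊓ Dec w, cy m g = 1 := fun g hg => t.cy_one hq hg
  have k2 : Sm (H ⊓ Dec w) κ ∧ IsHom (H ⊓ Dec w) κ :=
    ⟨hκ.sm, fun g hg k hk => by rw [hκ.coc g hg k hk, hD g hg, one_mul]⟩
  refine ⟨ω, κ, ⟨o1, o2⟩, k2, o3, o4 τ t.gen.1, lo2_unit t.gen t.τ_mem hκ, fun F => ?_⟩
  have e1 : F.inv m H w (fun g k => ω g * κ k) = 1 := by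
    have := F.kum (κ := κ) 1 t.op t.ine t.mem (t.deg ▸ t.frob) o1 o2 o4 hκ (by
      rw [w.hV, zpow_one])
    rw [o3, Int.cast_one, mul_one] at this
    rw [← this]
    exact F.congr fun g hg k _ => by rw [cup, hD g hg, mul_one]
  have e2 := lo2_flip F t.op hD ⟨o1, o2⟩ k2
  exact ⟨lo2_half _ (lo2_flip F t.op hD ⟨o1, o2⟩ ⟨o1, o2⟩), e1,
    by rw [eq_neg_of_add_eq_zero_right e2, e1], lo2_half _ (lo2_flip F t.op hD k2 k2)⟩

theorem lo2_coc [Module (ZMod (3 ^ m)) M] {ω κ : Gam → ZMod (3 ^ m)} (h : Sm D ω ∧ IsHom D ω)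
    (h' : Sm D κ ∧ IsHom D κ) (x y : M) :
    Sm D (fun g => ω g • x + κ g • y) ∧ IsHom D fun g => ω g • x + κ g • y :=
  ⟨h.1.comp₂ h'.1 fun s t => s • x + t • y, fun g hg k hk => by
    simp only [h.2 g hg k hk, h'.2 g hg k hk, add_smul]
    abel⟩

/-- Cocycles with prescribed values at the two generators. -/
theorem Tm.exists_coc (t : Tm H w q φ τ) (hq : (q : ZMod (3 ^ m)) = 1)
    (hM : ∀ x : M, 3 ^ m • x = 0) (ha : ∀ g ∈ H ⊓ Dec w, ∀ x, a g x = x) (x y : M) :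
    ∃ c ∈ Z1 (H ⊓ Dec w) a, c φ = x ∧ c τ = y := by
  obtain ⟨ω, κ, o, k, o1, o2, ⟨u, hu⟩, -⟩ := t.basis hq
  let _ := AddCommGroup.zmodModule hM
  refine ⟨_, ((coc_triv ha).2 (lo2_coc o k (x - κ φ • (u⁻¹ • y)) (u⁻¹ • y))).lo_rs, ?_, ?_⟩
  · rw [rs_of_mem t.φ_mem, o1, one_smul, sub_add_cancel]
  · rw [rs_of_mem t.τ_mem, o2, zero_smul, zero_add, ← hu, ← Units.smul_def, smul_inv_smul]

/-- The explicit formula for the local pairing. -/
theorem Tm.deep_inv (t : Tm H w q φ τ) (hq : (q : ZMod (3 ^ m)) = 1) :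
    ∃ u : (ZMod (3 ^ m))ˣ, ∀ (F : CFT) (M M' : Type) [AddCommGroup M] [AddCommGroup M']
      (b : M →+ M' →+ ZMod (3 ^ m)) (a : Gam → M →+ M) (a' : Gam → M' →+ M') (c : Gam → M)
      (c' : Gam → M'), (∀ x : M, 3 ^ m • x = 0) → (∀ y : M', 3 ^ m • y = 0) →
      (∀ g ∈ H ⊓ Dec w, ∀ x, a g x = x) → (∀ g ∈ H ⊓ Dec w, ∀ y, a' g y = y) →
      Coc (H ⊓ Dec w) a c → Coc (H ⊓ Dec w) a' c' →
      F.inv m H w (cupb b a' c c') = u * (b (c φ) (c' τ) - b (c τ) (c' φ)) := by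
  obtain ⟨ω, κ, o, k, o1, o2, ⟨u, hu⟩, hF⟩ := t.basis hq
  refine ⟨u⁻¹, fun F M M' _ _ b a a' c c' hM hM' ha ha' hc hc' => ?_⟩
  obtain ⟨f1, f2, f3, f4⟩ := hF F
  let _ := AddCommGroup.zmodModule hM
  let _ := AddCommGroup.zmodModule hM'
  have hD : ∀ g ∈ H ⊓ Dec w, cy m g = 1 := fun g hg => t.cy_one hq hg
  have key : ∀ {N : Type} [AddCommGroup N] [Module (ZMod (3 ^ m)) N] {e : Gam → N →+ N}
      {z : Gam → N}, (∀ x : N, 3 ^ m • x = 0) → (∀ g ∈ H ⊓ Dec w, ∀ x, e g x = x) →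
      Coc (H ⊓ Dec w) e z → ∀ g ∈ H ⊓ Dec w,
        z g = ω g • (z φ - κ φ • (u⁻¹ • z τ)) + κ g • (u⁻¹ • z τ) := fun hN he hz g hg => by
    refine t.ext hN (act_triv he) hz ((coc_triv he).2 (lo2_coc o k _ _)) ?_ ?_ hg
    · rw [o2, zero_smul, zero_add, ← hu, ← Units.smul_def, smul_inv_smul]
    · rw [o1, one_smul, sub_add_cancel]
  set y := u⁻¹ • c τ with hy
  set y' := u⁻¹ • c' τ with hy'
  set x := c φ - κ φ • y with hx
  set x' := c' φ - κ φ • y' with hx'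
  have bl : ∀ (s : ZMod (3 ^ m)) (z : M) (z' : M'), b (s • z) z' = s * b z z' := fun s z z' =>
    ZMod.map_smul (b.flip z') s z
  have br : ∀ (s : ZMod (3 ^ m)) (z : M) (z' : M'), b z (s • z') = s * b z z' := fun s z z' =>
    ZMod.map_smul (b z) s z'
  have e : F.inv m H w (cupb b a' c c') = F.inv m H w
      (((fun g k => b x x' * (ω g * ω k)) + fun g k => b x y' * (ω g * κ k)) +
        ((fun g k => b y x' * (κ g * ω k)) + fun g k => b y y' * (κ g * κ k))) :=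
    F.congr fun g hg l hl => by
      rw [cupb, ha' g hg, key hM ha hc g hg, key hM' ha' hc' l hl]
      simp only [Pi.add_apply, map_add, AddMonoidHom.add_apply, bl, br, ← hx, ← hx', ← hy, ← hy']
      ring
  have c1 := lo2_c2 hD o o
  have c2 := lo2_c2 hD o k
  have c3 := lo2_c2 hD k o
  have c4 := lo2_c2 hD k k
  rw [e, F.add t.op ((c1.smul _).add (c2.smul _)) ((c3.smul _).add (c4.smul _)),
    F.add t.op (c1.smul _) (c2.smul _), F.add t.op (c3.smul _) (c4.smul _), F.smul t.op c1,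
    F.smul t.op c2, F.smul t.op c3, F.smul t.op c4, f1, f2, f3, f4]
  simp only [hx, hx', hy, hy', map_sub, AddMonoidHom.sub_apply, Units.smul_def, bl, br]
  ring

end Pool.Agent.H3
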