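import Pool.Agent.Lib.MP_23455a_nt.H3.D2
import Pool.Agent.Lib.MP_23455a_nt.H3.KM
import Pool.Agent.Lib.MP_23455a_nt.H3.GWd
import Pool.Agent.Lib.MP_23455a_nt.H3.SL0

/-! Pairings, families of points over an unramified tower and their classes. -/

set_option autoImplicit false

open scoped NNReal Classical
open Finset Matrix

namespace Pool.Agent.H3

open Pool.Agent.Lib.MP_696deb_nt.B2

section

variable {A A' : Type} [AddCommGroup A] [AddCommGroup A'] {m : ℕ} {D : Subgroup Gam}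
  {a : Gam → A →+ A} {a' : Gam → A' →+ A'} {b : A →+ A' →+ ZMod (3 ^ m)} {c : Gam → A}
  {c' : Gam → A'}

/-- Equivariant pairings. -/
structure Pg (m : ℕ) (D : Subgroup Gam) (a : Gam → A →+ A) (a' : Gam → A' →+ A')
    (b : A →+ A' →+ ZMod (3 ^ m)) : Prop where
  sm : Sm D a'
  mul : ∀ g ∈ D, ∀ h ∈ D, ∀ x, a' (g * h) x = a' g (a' h x)
  eqv : ∀ g ∈ D, ∀ x y, b (a g x) (a' g y) = cy m g * b x y

theorem Pg.c2 (hd : Pg m D a a' b) (h : Coc D a c) (h' : Coc D a' c') :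
    C2 m D (cupb b a' c c') := by
  refine ⟨(h.1.comp₂ hd.sm Prod.mk).left.comp₂ h'.1.right fun x y => b x.1 (x.2 y),
    fun g hg k hk l hl => ?_⟩
  simp only [cupb]
  rw [← hd.eqv g hg, h.2 g hg k hk, h'.2 k hk l hl, hd.mul g hg k hk]
  simp only [map_add, AddMonoidHom.add_apply]
  ring

theorem Pg.left (hd : Pg m D a a' b) {x : A} (h : ∀ g ∈ D, c g = cob a x g)
    (h' : Coc D a' c') : Spl m D (cupb b a' c c') := by
  refine ⟨fun g => b x (c' g), h'.1.comp fun y => b x y, fun g hg k hk => ?_⟩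
  simp only [cupb]
  rw [h g hg, h'.2 g hg k hk, cob, map_sub, AddMonoidHom.sub_apply, hd.eqv g hg, map_add]
  ring

theorem Pg.right (hd : Pg m D a a' b) (h : Coc D a c) {y : A'}
    (h' : ∀ g ∈ D, c' g = cob a' y g) : Spl m D (cupb b a' c c') := by
  refine ⟨fun g => -b (c g) (a' g y), h.1.comp₂ hd.sm fun x f => -b x (f y),
    fun g hg k hk => ?_⟩
  simp only [cupb]
  rw [mul_neg, ← hd.eqv g hg, h' k hk, h.2 g hg k hk, hd.mul g hg k hk, cob]
  simp only [map_add, map_sub, AddMonoidHom.add_apply]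
  ring

variable {z z' : Gam → Gam → ZMod (3 ^ m)}

theorem Spl.congr (h : Spl m D z) (e : ∀ g ∈ D, ∀ k ∈ D, z' g k = z g k) : Spl m D z' :=
  let ⟨β, h1, h2⟩ := h
  ⟨β, h1, fun g hg k hk => (e g hg k hk).trans (h2 g hg k hk)⟩

theorem Spl.zero : Spl m D fun _ _ => 0 := ⟨fun _ => 0, Sm.const _, fun _ _ _ _ => by simp⟩

theorem Spl.add (h : Spl m D z) (h' : Spl m D z') : Spl m D fun g k => z g k + z' g k := by
  obtain ⟨β, h1, h2⟩ := h
  obtain ⟨β', h3, h4⟩ := h'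
  refine ⟨fun g => β g + β' g, h1.comp₂ h3 (· + ·), fun g hg k hk => ?_⟩
  simp only [h2 g hg k hk, h4 g hg k hk]
  ring

theorem Spl.smul (h : Spl m D z) (u : ZMod (3 ^ m)) : Spl m D fun g k => u * z g k := by
  obtain ⟨β, h1, h2⟩ := h
  refine ⟨fun g => u * β g, h1.comp (u * ·), fun g hg k hk => ?_⟩
  simp only [h2 g hg k hk]
  ring

theorem Spl.sum {ι : Type*} (s : Finset ι) {z : ι → Gam → Gam → ZMod (3 ^ m)}
    (h : ∀ i ∈ s, Spl m D (z i)) : Spl m D fun g k => ∑ i ∈ s, z i g k := by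
  induction s using Finset.induction_on with
  | empty => exact Spl.zero
  | insert i s hi ih =>
    simp only [sum_insert hi]
    exact (h i (mem_insert_self _ _)).add (ih fun j hj => h j (mem_insert_of_mem hj))

theorem Spl.inv (F : CFT) {H : Subgroup Gam} {w : Plc} (hH : Op H) (hD : Dec w ≤ H)
    (h : Spl m (Dec w) z) : F.inv m H w z = 0 := by
  rw [← inf_eq_right.2 hD] at h
  exact (F.zero_iff hH h.c2).2 h

end

theorem l3_act0 (ρ : Gam →* M3) (k : ℕ) (g : Gam) (x : Fin 2 → ZMod (3 ^ k)) :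
    act0 ρ k g x = mred k (ρ g) *ᵥ x := by
  rw [act0, tact_apply, Pi.one_apply, one_smul]
  rfl

/-- The reduction modulo three. -/
abbrev dn (k : ℕ) : ZMod (3 ^ (1 + k)) →+* ZMod (3 ^ 1) :=
  ZMod.castHom (pow_dvd_pow 3 (Nat.le_add_right 1 k)) (ZMod (3 ^ 1))

theorem mul_up (k : ℕ) (u : ZMod (3 ^ (1 + k))) (a : Z3) : u * up k a = up k (dn k u * a) := by
  rw [← ZMod.natCast_zmod_val u, map_natCast, ← nsmul_eq_mul, ← nsmul_eq_mul]
  exact (map_nsmul (AddMonoidHom.mk' (up k) (up_add k)) _ _).symm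

theorem mred_up (k : ℕ) (A : M3) (y : Fin 2 → Z3) :
    (mred (1 + k) A *ᵥ fun i => up k (y i)) = fun i => up k ((mred 1 A *ᵥ y) i) := by
  have h : ∀ z, dn k (PadicInt.toZModPow (1 + k) z) = PadicInt.toZModPow 1 z := fun z =>
    PadicInt.cast_toZModPow _ _ (Nat.le_add_right 1 k) z
  funext i
  simp only [mulVec, dotProduct, Fin.sum_univ_two, mred, map_apply, mul_up, up_add, h]

/-- Unramified towers at a place above three. -/
structure Ut (w : Plc) {s : ℕ} (d : Gam → ZMod (3 ^ s)) (φ : Gam) : Prop where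
  p3 : w.p = 3
  sm : Sm (Dec w) d
  hom : IsHom (Dec w) d
  unr : ∀ σ ∈ Ine w, d σ = 0
  frob : IsFrob w 3 φ
  unit : IsUnit (d φ)

variable {P : Type} [AddCommGroup P] [DistribMulAction Gam P]

/-- Families of points over a cyclic tower that are permuted up to torsion. -/
def Fam (M : Mot P) (k : ℕ) (D : Subgroup Gam) {N : ℕ} (d : Gam → ZMod N) (S : ZMod N → P)
    (x : Gam → ZMod N → Fin 2 → ZMod (3 ^ k)) : Prop :=
  ∀ g ∈ D, ∀ i, M.Cd k (g • S (i - d g) - S i) (x g i)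

/-- The class of a family. -/
def fe {k s : ℕ} {B : Type} [AddCommGroup B] (χ : ZMod (3 ^ s) → B)
    (x : Gam → ZMod (3 ^ s) → Fin 2 → ZMod (3 ^ k)) (g : Gam) (l : Fin 2) : B :=
  ∑ i, (x g i l).val • χ i

/-- Its reduction at the trivial character modulo three. -/
def fb {k s : ℕ} (x : Gam → ZMod (3 ^ s) → Fin 2 → ZMod (3 ^ (1 + k))) (g : Gam) (l : Fin 2) :
    ZMod (3 ^ 1) := dn k (∑ i, x g i l)

/-- Cocycles modulo three that generate the Kummer classes. -/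
structure Gn (M : Mot P) (w : Plc) (e : Gam → Fin 2 → ZMod (3 ^ 1)) : Prop where
  coc : Coc (Dec w) (act0 M.ρ 1) e
  snd : ∀ g ∈ Dec w, e g 1 = 0
  ncob : ¬ IsCob (Dec w) (act0 M.ρ 1) e

end Pool.Agent.H3
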