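import Pool.Agent.Lib.MP_23455a_nt.H3.L30
import Pool.Agent.Lib.MP_23455a_nt.H3.CLh

/-! The local Kummer classes modulo three at a place above three. -/

set_option autoImplicit false

open scoped NNReal Classical
open Finset Matrix

namespace Pool.Agent.H3

open Pool.Agent.Lib.MP_696deb_nt.B2

/-- Elements that become cubes after multiplication by powers of two and three. -/
def l3a_Sp (D : Subgroup Gam) (a : Qbar) : Prop :=
  ∃ (i j : ℕ) (y : Qbar), Fx D y ∧ y ^ 3 = a * 2 ^ i * 3 ^ j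

theorem l3a_nine {w : Plc} (hw : w.p = 3) : w.V 3 < 1 ∧ 0 < w.V 9 ∧ w.V 9 ≤ 1 := by
  have h1 : w.V 3 = 3⁻¹ := by simpa [hw] using w.hV
  refine ⟨by rw [h1]; norm_num, (Valuation.pos_iff _).2 (by norm_num), ?_⟩
  simpa using w.V_int_le 9

theorem l3a_int {w : Plc} (hw : w.p = 3) {n : ℤ} (hn : n ≠ 0) : l3a_Sp (Dec w) n := by
  obtain ⟨e, m, hm, rfl⟩ := WfDvdMonoid.max_power_factor hn Int.prime_three.irreducible
  have h1 : ∀ x : ZMod 27, ZMod.castHom (by norm_num : 3 ∣ 27) (ZMod 3) x ≠ 0 →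
      ∃ i : Fin 18, x * 2 ^ (i : ℕ) - 1 = 0 := by decide
  obtain ⟨i, hi⟩ := h1 m (by
    rw [map_intCast]
    exact fun h => hm ((ZMod.intCast_zmod_eq_zero_iff_dvd m 3).1 h))
  obtain ⟨c, hc⟩ := (ZMod.intCast_zmod_eq_zero_iff_dvd (m * 2 ^ (i : ℕ) - 1) 27).1
    (by push_cast; exact hi)
  obtain ⟨h2, h3, -⟩ := l3a_nine hw
  obtain ⟨y, y1, y2, -⟩ := exists_cbrt (w := w) le_rfl (a := m * 2 ^ (i : ℕ))
    (fun g _ => by rw [map_mul, map_intCast, map_pow, map_ofNat]) (by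
      have h4 : (m * 2 ^ (i : ℕ) - 1 : Qbar) = 9 * (3 * c) := by
        have := congrArg (Int.cast : ℤ → Qbar) hc
        push_cast at this
        rw [this]
        ring
      rw [h4, map_mul, map_mul]
      exact mul_lt_of_lt_one_right h3 (mul_lt_one_of_lt_of_le h2 (w.V_int_le c)))
  refine ⟨i, 2 * e, 3 ^ e * y, fun g hg => by rw [map_mul, y1 g hg, map_pow, map_ofNat], ?_⟩
  rw [mul_pow, y2]
  push_cast
  ring

theorem l3a_all {w : Plc} (hw : w.p = 3) {a : Qbar} (h0 : a ≠ 0) (ha : Fx (Dec w) a) :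
    l3a_Sp (Dec w) a := by
  obtain ⟨-, h3, h4⟩ := l3a_nine hw
  have h1 : 0 < w.V a := (Valuation.pos_iff _).2 h0
  obtain ⟨r, hr⟩ := approx_rat ha (mul_pos h3 h1)
  have h2 : w.V r = w.V a := w.V.map_eq_of_sub_lt (by
    rw [w.V.map_sub_swap]
    exact hr.trans_le (mul_le_of_le_one_left' h4))
  have h5 : (r : Qbar) ≠ 0 := (Valuation.pos_iff _).1 (h2 ▸ h1)
  have h6 : r ≠ 0 := fun h => h5 (by simp [h])
  have h7 : (r.den : Qbar) ≠ 0 := Nat.cast_ne_zero.2 r.den_nz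
  obtain ⟨y, y1, y2, -⟩ := exists_cbrt (w := w) le_rfl (a := a / r)
    (fun g hg => by rw [map_div₀, ha g hg, map_ratCast]) (by
      rwa [div_sub_one h5, map_div₀, h2, div_lt_iff₀ h1])
  obtain ⟨i, j, z, z1, z2⟩ := l3a_int hw (n := r.num * r.den ^ 2)
    (mul_ne_zero (Rat.num_ne_zero.2 h6) (pow_ne_zero _ (Int.natCast_ne_zero.2 r.den_nz)))
  refine ⟨i, j, y * z / r.den, fun g hg => by
    rw [map_div₀, map_mul, y1 g hg, z1 g hg, map_natCast], ?_⟩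
  have h8 : (r.num : Qbar) = r * r.den := by rw [Rat.cast_def, div_mul_cancel₀ _ h7]
  rw [div_pow, mul_pow, y2, z2]
  push_cast
  rw [h8]
  field_simp

theorem l3a_pow {D : Subgroup Gam} {a : Qbar} {κ : Gam → Z3} (h : Kum 1 D a κ) (n : ℕ) :
    Kum 1 D (a ^ n) (n • κ) := by
  induction n with
  | zero => exact ⟨1, one_ne_zero, by simp, fun g _ => by simp⟩
  | succ n ih => rw [pow_succ, succ_nsmul]; exact ih.mul h

theorem l3a_step {w : Plc} (hw : w.p = 3) {κ₂ κ : Gam → Z3} (h2 : Kum 1 (Dec w) 2 κ₂)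
    (s1 : Sm (Dec w) κ) (c1 : ∀ g ∈ Dec w, ∀ h ∈ Dec w, κ (g * h) = κ g + cy 1 g * κ h) :
    ∃ i j x, ∀ g ∈ Dec w, κ g + i * κ₂ g + j * km 1 g = (cy 1 g - 1) * x := by
  obtain ⟨a, ha⟩ := kum_surj (closed_Dec w) s1 c1
  obtain ⟨i, j, y, y1, y2⟩ := l3a_all hw ha.fx.1 ha.fx.2
  obtain ⟨x, hx⟩ := ((ha.mul (l3a_pow h2 i)).mul (l3a_pow (kum_km 1 _) j)).pow_iff.1
    ⟨y, y1, by rw [pow_one, y2]⟩
  exact ⟨i, j, x, fun g hg => by simpa using hx g hg⟩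

/-- The group of local classes with values in the cube roots of unity has two generators. -/
theorem l3_span {w : Plc} (hw : w.p = 3) {κ₀ κ : Gam → Z3} (s0 : Sm (Dec w) κ₀)
    (c0 : ∀ g ∈ Dec w, ∀ h ∈ Dec w, κ₀ (g * h) = κ₀ g + cy 1 g * κ₀ h)
    (n0 : ¬ ∃ j x, ∀ g ∈ Dec w, κ₀ g = j * km 1 g + (cy 1 g - 1) * x) (s1 : Sm (Dec w) κ)
    (c1 : ∀ g ∈ Dec w, ∀ h ∈ Dec w, κ (g * h) = κ g + cy 1 g * κ h) :
    ∃ i j x, ∀ g ∈ Dec w, κ g = i * κ₀ g + j * km 1 g + (cy 1 g - 1) * x := by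
  obtain ⟨κ₂, h2⟩ := exists_kum (H := Dec w) 1 (a := 2) two_ne_zero fun g _ => map_ofNat g 2
  obtain ⟨i0, j0, x0, k0⟩ := l3a_step hw h2 s0 c0
  obtain ⟨i, j, x, k⟩ := l3a_step hw h2 s1 c1
  have h3 : i0 * i0 = 1 := Z3.mul_self fun h =>
    n0 ⟨-j0, x0, fun g hg => by linear_combination k0 g hg - κ₂ g * h⟩
  exact ⟨i * i0, i * i0 * j0 - j, x - i * i0 * x0, fun g hg => by
    linear_combination k g hg - i * i0 * k0 g hg + i * κ₂ g * h3⟩

end Pool.Agent.H3
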