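import Pool.Agent.Lib.MP_23455a_nt.H3.RCe
import Pool.Agent.Lib.MP_23455a_nt.H3.RCu
import Pool.Agent.Lib.MP_23455a_nt.H3.BAe
import Pool.Agent.Lib.MP_23455a_nt.H3.D1b

/-! The three-primary ring class groups with their reciprocity maps. -/

set_option autoImplicit false

open scoped Classical NumberTheorySymbols

namespace Pool.Agent.H3.CM

open Pool.Agent.Lib.MP_696deb_nt.B2
open Pool.Agent.Lib.MP_696deb_nt.B2.CM

variable {n c d l : ℕ} {w : Plc} {g τ : Gam}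

theorem mrc_ok (hn : Nk n) (hc : Adm n c) : Ok n c :=
  ⟨by have := hn.m12; omega, by have := hn.m12; omega, hc.1.ne_zero⟩

theorem mrc_dvd (h : Adm n d) (hc : c ∣ d) : Adm n c :=
  ⟨h.1.squarefree_of_dvd hc, fun l hl k => h.2 l hl (k.trans hc)⟩

theorem mrc_mul (h : Adm n (c * l)) (hl : l.Prime) :
    l ≠ 3 ∧ l ≠ 2 ∧ J(-n | l) = -1 ∧ ¬ l ∣ c := by
  obtain ⟨h1, h2, h3⟩ := h.2 l hl (dvd_mul_left l c)
  exact ⟨by omega, h2, h3, fun k => hl.not_isUnit (h.1 l (mul_dvd_mul_right k l))⟩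

theorem mrc_fin (hn : Nk n) (c : ℕ) : Finite (Pc n c) :=
  finite_Pc (by have := hn.m12; omega) (by have := hn.m12; omega) c

/-- The three-primary part of the action on the class group. -/
noncomputable def psc (n c : ℕ) (g : Gam) : Tw (Pc n c) := tq _ (rho n c g)

theorem psc_mul (ok : Ok n c) (g : Gam) (hg : g ∈ GK n) (h : Gam) (_ : h ∈ GK n) :
    psc n c (g * h) = psc n c g * psc n c h := by
  rw [psc, rho_mul ok hg, map_mul]; rfl

theorem psc_surj (ok : Ok n c) (a : Tw (Pc n c)) : ∃ g ∈ GK n, psc n c g = a := by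
  obtain ⟨x, rfl⟩ := tq_surj a
  obtain ⟨g, hg, rfl⟩ := rho_surj ok x
  exact ⟨g, hg, rfl⟩

theorem pr_psc (ok : Ok n d) (hc : c ∣ d) (g : Gam) : twm (pj n c d) (psc n d g) = psc n c g := by
  rw [psc, twm_tq, pj_rho ok hc]; rfl

/-- The three-primary part is unramified at the primes that divide the discriminant. -/
theorem psc_ram (ok : Ok n c) (hs : Squarefree n) (h3 : w.p ≠ 3) (hw : w.p ∣ n)
    (hg : g ∈ GK n ⊓ Ine w) : psc n c g = 1 := by
  obtain ⟨h2, h4⟩ := cmh_gen ok hs hw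
  obtain ⟨τ, hτ⟩ := Lib.MP_696deb_nt.B2.exists_gen h2
  have := finite_Pc ok.m4 ok.gt c
  have h5 := tame_frob h3 (π := psc n c) ((sm_rho _ n c).comp (tq _))
    (fun g hg k hk => psc_mul ok g hg.1 k hk.1) (fun g _ => tw_three _) (op_GK n)
    (isFrob_one.2 hτ.1) hg ((normal_GK n).conj_mem _ hg.1 τ)
  rw [pow_one, psc, rho_conj ok (h4 τ hτ) hg.1, map_inv, inv_eq_iff_mul_eq_one] at h5
  obtain ⟨k, hk⟩ := tw_three (psc n c g)
  have h6 : psc n c g ^ 2 = 1 := by rw [sq]; exact h5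
  rw [← pow_one (psc n c g), ← Nat.coprime_iff_gcd_eq_one.1
    ((by norm_num : Nat.Coprime 2 3).pow_right k)]
  exact pow_gcd_eq_one.2 ⟨h6, hk⟩

theorem mrc_two (ok : Ok n c) (hw : w.p = 2) (hc : ¬ w.p ∣ c) (h : Dec w ≤ GK n) :
    ∃ b k : ℤ, b ^ 2 + n * c ^ 2 = 4 * w.p * k ∧ ¬ (w.p : ℤ) ∣ b := by
  have h4 := ok.m4
  have h8 : n % 8 = 7 := by
    by_contra h8
    obtain ⟨φ, hφ⟩ := exists_frob w
    have h1 := chi_dec_two (a := -n * 5) hw (by omega) hφ.1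
    rw [chi_mul (by omega) (by norm_num), B4c_mem.1 (h hφ.1), chi_frob_two hw (hw ▸ hφ)] at h1
    exact absurd h1 (by decide)
  rw [hw] at hc ⊢
  obtain ⟨t, rfl⟩ : ∃ t, c = 2 * t + 1 := ⟨c / 2, by omega⟩
  obtain ⟨s, rfl⟩ : ∃ s, n = 8 * s + 7 := ⟨n / 8, by omega⟩
  obtain ⟨u, hu⟩ := Nat.even_mul_succ_self t
  have hu' : (t : ℤ) * (t + 1) = u + u := by exact_mod_cast hu
  refine ⟨1, (8 * s + 7) * u + s + 1, ?_, by norm_num⟩
  push_cast
  linear_combination 4 * (8 * s + 7) * hu'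

theorem psc_unr (F : CFT) (hn : Nk n) (hc : Adm n c) (hw : ¬ w.p ∣ c) (hg : g ∈ GK n ⊓ Ine w) :
    psc n c g = 1 := by
  have ok := mrc_ok hn hc
  have := mrc_fin hn c
  by_cases h : w.p ∣ n
  · refine psc_ram ok hn.sqf (fun e => ?_) h hg
    have := hn.m12
    rw [e] at h
    omega
  by_cases k : ∃ s ∈ Dec w, s ∉ GK n
  · obtain ⟨s, hs, hs'⟩ := k
    by_contra k
    obtain ⟨m, θ, -, h2⟩ := exists_char tw_three ⊥ (a := psc n c g) k
    exact h2 (unr_inert F ok (θ.comp (tq _)) h hw hs hs' hg)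
  have h3 : Dec w ≤ GK n := fun s hs => by_contra fun e => k ⟨s, hs, e⟩
  obtain ⟨b, k, e, hb⟩ : ∃ b k : ℤ, b ^ 2 + n * c ^ 2 = 4 * w.p * k ∧ ¬ (w.p : ℤ) ∣ b := by
    by_cases h2 : w.p = 2
    · exact mrc_two ok h2 hw h3
    obtain ⟨φ, hφ⟩ := exists_frob w
    have h4 : ¬ (w.p : ℤ) ∣ 2 * -n := fun e => by
      rcases (Nat.prime_iff_prime_int.1 w.prime).dvd_mul.1 e with e | e
      · exact h2 ((Nat.prime_dvd_prime_iff_eq w.prime Nat.prime_two).1 (by exact_mod_cast e))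
      · exact h (by exact_mod_cast (dvd_neg.1 e))
    have h5 := chi_frob h4 hφ
    rw [B4c_mem.1 (h3 hφ.1)] at h5
    exact exists_root_split ok.m4 w.prime h2 h5.symm hw
  rw [psc, rho_ine_split ok e hb hg.2, map_one]

theorem card_ker_psc (hn : Nk n) (hd : d = c * l) (hl : l.Prime) (ha : Adm n d) :
    Nat.card (twm (pj n c d)).ker = ordProj[3] (l + 1) := by
  subst hd
  obtain ⟨-, h2, hJ, hc⟩ := mrc_mul ha hl
  have := mrc_fin hn (c * l)
  rw [card_ker_twm, card_ker_pj (mrc_ok hn (mrc_dvd ha (dvd_mul_right c l))) hl h2 hJ hc]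

/-- The inertia group generates the kernel of the projection. -/
theorem ker_psc (F : CFT) (hn : Nk n) (hd : d = c * w.p) (ha : Adm n d) (hτ : Gen w τ) :
    (twm (pj n c d)).ker = Subgroup.zpowers (psc n d τ) := by
  subst hd
  obtain ⟨h3, h2, hJ, hc⟩ := mrc_mul ha w.prime
  have ha' := mrc_dvd ha (dvd_mul_right c w.p)
  have hI : Ine w ≤ GK n := fun _ hg =>
    B4c_mem.2 (chi_ine (B4c_not_dvd h2 (by rw [hJ]; decide)) hg)
  have := mrc_fin hn (c * w.p)
  refine le_antisymm (fun a h => by_contra fun k => ?_) (Subgroup.zpowers_le.2 ?_)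
  · obtain ⟨m, θ, h1, h4⟩ := exists_char tw_three _ k
    obtain ⟨x, hx, rfl⟩ := ker_twm h
    refine h4 (ram_onto F (mrc_ok hn ha') (θ.comp (tq _)) h2 hJ hc (fun s hs => h1 _ ?_) hx)
    obtain ⟨j, hj⟩ := tame_gen h3 hτ (π := psc n (c * w.p)) ((sm_rho _ _ _).comp (tq _))
      (fun g hg k hk => psc_mul (mrc_ok hn ha) g (hI hg) k (hI hk)) (fun g _ => tw_three _) hs
    exact ⟨j, (zpow_natCast _ j).trans hj.symm⟩
  · rw [MonoidHom.mem_ker, pr_psc (mrc_ok hn ha) (dvd_mul_right c w.p)]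
    exact psc_unr F hn ha' hc ⟨hI hτ.1, hτ.1⟩

end Pool.Agent.H3.CM

namespace Pool.Agent.H3

open Pool.Agent.Lib.MP_696deb_nt.B2.CM (Pc pj sm_rho rho_sq)

open CM in
/-- The ring class system exists. -/
theorem rc (F : CFT) : RCStmt := fun n hn => by
  have i0 := mrc_fin hn
  exact ⟨{
    C := fun c => Tw (Pc n c)
    fin := fun c => Fintype.ofFinite _
    pr := fun c c' => twm (pj n c c')
    ψ := psc n
    three := fun _ => tw_three
    sm := fun c _ => (sm_rho _ n c).comp (tq _)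
    mul := fun _ h => psc_mul (mrc_ok hn h)
    surj := fun _ h => psc_surj (mrc_ok hn h)
    pr_ψ := fun _ _ h k g _ => pr_psc (mrc_ok hn h) k g
    dih := fun _ h _ hg => by rw [psc, rho_sq (mrc_ok hn h) hg, map_one]
    unr := fun _ _ h k _ hg => psc_unr F hn h k hg
    card := fun _ _ _ => card_ker_psc hn
    gen := fun _ _ _ _ => ker_psc F hn }, fun _ => tq _, fun _ => tq_surj, fun _ _ => tq_eq_one,
    fun _ _ => rfl, fun _ _ _ => rfl⟩

end Pool.Agent.H3
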