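import Pool.Agent.Lib.MP_696deb_nt.B2.CMe

/-! The three-primary quotient of a finite commutative group. -/

set_option autoImplicit false

open scoped Classical

namespace Pool.Agent.H3.CM

open Pool.Agent.Lib.MP_696deb_nt.B2.CM

/-- The elements of order prime to three. -/
def copP (G : Type) [CommGroup G] : Subgroup G where
  carrier := {x | ∃ k : ℕ, ¬ 3 ∣ k ∧ x ^ k = 1}
  one_mem' := ⟨1, by norm_num, one_pow _⟩
  mul_mem' := by
    rintro x y ⟨k, hk, h⟩ ⟨l, hl, h'⟩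
    exact ⟨k * l, fun e => (Nat.prime_three.dvd_mul.1 e).elim hk hl, by
      rw [mul_pow, pow_mul, h, mul_comm k, pow_mul, h', one_pow, one_pow, one_mul]⟩
  inv_mem' := by
    rintro x ⟨k, hk, h⟩
    exact ⟨k, hk, by rw [inv_pow, h, inv_one]⟩

/-- The quotient by the elements of order prime to three. -/
abbrev Tw (G : Type) [CommGroup G] : Type := G ⧸ copP G

/-- The projection. -/
def tq (G : Type) [CommGroup G] : G →* Tw G := QuotientGroup.mk' (copP G)

/-- The induced map. -/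
def twm {G H : Type} [CommGroup G] [CommGroup H] (f : G →* H) : Tw G →* Tw H :=
  QuotientGroup.map _ _ f fun x ⟨k, hk, h⟩ => ⟨k, hk, by rw [← map_pow, h, map_one]⟩

theorem twm_tq {G H : Type} [CommGroup G] [CommGroup H] (f : G →* H) (x : G) :
    twm f (tq G x) = tq H (f x) := rfl

variable {G H : Type} [CommGroup G] [CommGroup H] {f : G →* H}

theorem tq_surj (a : Tw G) : ∃ x, tq G x = a := by
  exact QuotientGroup.mk'_surjective _ a

theorem tq_eq_one {x : G} : tq G x = 1 ↔ ∃ k : ℕ, ¬ 3 ∣ k ∧ x ^ k = 1 := by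
  exact QuotientGroup.eq_one_iff x

theorem tw_three [Finite G] (a : Tw G) : ∃ k : ℕ, a ^ 3 ^ k = 1 := by
  obtain ⟨x, rfl⟩ := tq_surj a
  obtain ⟨e, k, hk, h⟩ :=
    Nat.exists_eq_pow_mul_and_not_dvd (Nat.card_pos (α := G)).ne' 3 (by norm_num)
  exact ⟨e, by rw [← map_pow, tq_eq_one]; exact ⟨k, hk, by rw [← pow_mul, ← h, pow_card_eq_one']⟩⟩

theorem ker_twm [Finite G] {a : Tw G} (h : twm f a = 1) : ∃ x, f x = 1 ∧ tq G x = a := by
  obtain ⟨x, rfl⟩ := tq_surj a
  obtain ⟨l, hl, h⟩ := tq_eq_one.1 ((twm_tq f x).symm.trans h)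
  obtain ⟨k, hk⟩ := tw_three (tq G x)
  obtain ⟨m, hm⟩ := exists_pow_eq_self_of_coprime (x := tq G x)
    (((Nat.prime_three.coprime_iff_not_dvd.2 hl).symm.pow_right k).coprime_dvd_right
      (orderOf_dvd_of_pow_eq_one hk))
  exact ⟨(x ^ l) ^ m, by rw [map_pow, map_pow, h, one_pow], by rw [map_pow, map_pow, hm]⟩

theorem rce_ker : (tq G).ker = copP G := QuotientGroup.ker_mk' _

theorem rce_split [Finite G] : Nat.card (twm f).ker = ordProj[3] (Nat.card f.ker) ∧
    Nat.card ↥(f.ker ⊓ copP G) = ordCompl[3] (Nat.card f.ker) := by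
  have h1 : f.ker.map (tq G) = (twm f).ker := by
    refine le_antisymm ?_ fun a ha => ker_twm ha
    rintro _ ⟨x, hx, rfl⟩
    rw [MonoidHom.mem_ker, twm_tq, show f x = 1 from hx, map_one]
  have h2 : IsPGroup 3 (twm f).ker := IsPGroup.to_subgroup (fun a => tw_three a) _
  obtain ⟨e, he⟩ := IsPGroup.iff_card.1 h2
  have h3 : ¬ 3 ∣ Nat.card ↥(f.ker ⊓ copP G) := fun h => by
    obtain ⟨x, hx⟩ := exists_prime_orderOf_dvd_card' 3 h
    obtain ⟨k, hk, h4⟩ := x.2.2
    rw [← Subgroup.orderOf_coe] at hx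
    exact hk (hx ▸ orderOf_dvd_of_pow_eq_one h4)
  have h4 := cme_card f.ker (tq G)
  rw [h1, he, rce_ker] at h4
  have h5 : (Nat.card f.ker).factorization 3 = e := by
    rw [h4, Nat.factorization_mul Nat.card_pos.ne' (by positivity), Finsupp.add_apply,
      Nat.factorization_eq_zero_of_not_dvd h3, Nat.prime_three.factorization_pow, zero_add,
      Finsupp.single_eq_same]
  rw [h5, he, h4, Nat.mul_div_cancel _ (by positivity)]
  exact ⟨rfl, rfl⟩

theorem card_ker_twm [Finite G] : Nat.card (twm f).ker = ordProj[3] (Nat.card f.ker) := by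
  exact rce_split.1

/-- Characters separate subgroups. -/
theorem exists_char [Finite G] (h2 : ∀ a : G, ∃ k : ℕ, a ^ 3 ^ k = 1) (S : Subgroup G) {a : G}
    (ha : a ∉ S) : ∃ (m : ℕ) (θ : G →* Multiplicative (ZMod (3 ^ m))),
      (∀ x ∈ S, θ x = 1) ∧ θ a ≠ 1 := by
  obtain ⟨ι, _, n, -, ⟨e⟩⟩ := CommGroup.equiv_prod_multiplicative_zmod_of_finite (G ⧸ S)
  obtain ⟨i, hi⟩ := Function.ne_iff.1
    (mt (fun h => (QuotientGroup.eq_one_iff a).1 ((map_eq_one_iff e e.injective).1 h)) ha)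
  obtain ⟨b, hb⟩ := QuotientGroup.mk_surjective
    (e.symm (Pi.mulSingle i (Multiplicative.ofAdd (1 : ZMod (n i)))))
  obtain ⟨k, hk⟩ := h2 b
  let θ : G →* Multiplicative (ZMod (n i)) :=
    (Pi.evalMonoidHom _ i).comp (e.toMonoidHom.comp (QuotientGroup.mk' S))
  have h1 : θ b = Multiplicative.ofAdd 1 := by
    change e (b : G ⧸ S) i = _
    rw [hb, e.apply_symm_apply, Pi.mulSingle_eq_same]
  have h3 := congrArg (fun x => (θ x).toAdd) hk
  simp only [map_pow, h1, map_one, toAdd_pow, toAdd_ofAdd, nsmul_one, toAdd_one] at h3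
  obtain ⟨m, -, hm⟩ := (Nat.dvd_prime_pow Nat.prime_three).1 ((ZMod.natCast_eq_zero_iff _ _).1 h3)
  have h4 : ∃ θ : G →* Multiplicative (ZMod (n i)), (∀ x ∈ S, θ x = 1) ∧ θ a ≠ 1 :=
    ⟨θ, fun x hx => by
      change e (x : G ⧸ S) i = _
      rw [(QuotientGroup.eq_one_iff x).2 hx, map_one, Pi.one_apply], hi⟩
  exact ⟨m, hm ▸ h4⟩

end Pool.Agent.H3.CM
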