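import Pool.Agent.Lib.MP_23455a_nt.H3.BAd
import Pool.Agent.Lib.MP_23455a_nt.H3.CLh
import Pool.Agent.Lib.MP_696deb_nt.B2.CMu

/-! The reciprocity law for ring class characters. -/

set_option autoImplicit false

open scoped Classical NumberTheorySymbols NNReal

namespace Pool.Agent.H3.CM

open Pool.Agent.Lib.MP_696deb_nt.B2
open Pool.Agent.Lib.MP_696deb_nt.B2.CM

variable {n c m : ℕ} {w : Plc} {g : Gam} {x y b k : ℤ}

theorem rcr_root {D : Subgroup Gam} (hD : D ≤ Dec w) {a : Qbar} (m : ℕ) (ha : Fx D a)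
    (h : w.V (a - 1) < w.V (3 ^ (m + 1))) : ∃ r, Fx D r ∧ r ^ 3 ^ m = a := by
  induction m generalizing a with
  | zero => exact ⟨a, ha, by simp⟩
  | succ m ih =>
    have h2 : w.V 3 ≤ 1 := by simpa using w.V_int_le 3
    obtain ⟨s, s1, s2, s3⟩ := exists_cbrt hD ha (h.trans_le (by
      rw [show (3 : Qbar) ^ (m + 1 + 1) = 3 ^ m * 9 by ring, map_mul, map_pow]
      exact mul_le_of_le_one_left' (pow_le_one' h2 m)))
    rw [← s3, pow_succ, map_mul] at h
    obtain ⟨r, r1, r2⟩ := ih s1 (lt_of_mul_lt_mul_right h zero_le)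
    exact ⟨r, r1, by rw [pow_succ, pow_mul, r2, s2]⟩

theorem rcr_hom (ok : Ok n c) (θ : Pc n c →* Multiplicative (ZMod (3 ^ m))) (D : Subgroup Gam) :
    Sm (GK n ⊓ D) (fun g => (θ (rho n c g)).toAdd) ∧
      IsHom (GK n ⊓ D) fun g => (θ (rho n c g)).toAdd :=
  ⟨(sm_rho _ n c).comp fun z => (θ z).toAdd, fun g hg h _ => by
    simp only [rho_mul ok hg.1, map_mul, toAdd_mul]⟩

/-- The local invariant at a prime factor of the norm. -/
theorem rcr_split (F : CFT) (ok : Ok n c) (θ : Pc n c →* Multiplicative (ZMod (3 ^ m))) {N : ℕ}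
    {κ : Gam → ZMod (3 ^ m)} {a : Qbar} (hN : N ≠ 0) (hp : w.p ∣ N) (h2 : ¬ w.p ∣ 2 * n * c)
    (e : b ^ 2 + n = 4 * N * k) (hβ : w.V (beQ n 1 b) < 1) (hκ : Kum m (GK n) a κ)
    (ha : w.V a = w.V N) : F.inv m (GK n) w (cup m (fun g => (θ (rho n c g)).toAdd) κ) =
      -(θ (cl _ (idl n c w.p (b * c)) ^ N.factorization w.p)).toAdd := by
  obtain ⟨t, ht⟩ := hp
  have e' : (b * c) ^ 2 + n * c ^ 2 = 4 * w.p * (t * k * c ^ 2) := by
    rw [ht] at e
    push_cast at e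
    linear_combination c ^ 2 * e
  have hb : ¬ (w.p : ℤ) ∣ b * c := fun h => by
    rcases (Nat.prime_iff_prime_int.1 w.prime).dvd_mul.1 h with h | h
    · refine h2 (((Int.natCast_dvd_natCast.1 ((dvd_add_right (h.pow two_ne_zero)).1
        ⟨4 * t * k, ?_⟩)).mul_left 2).mul_right c)
      rw [e, ht]
      push_cast
      ring
    · exact h2 ((Int.natCast_dvd_natCast.1 h).mul_left _)
  have hD : Dec w ≤ GK n := dec_le_split (fun h => h2 (h ▸ (dvd_mul_right 2 n).mul_right c))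
    (jac_of_root w.prime e' hb)
  obtain ⟨φ, hφ⟩ := exists_frob w
  have h3 : w.V (beQ n c (b * c)) < 1 := by
    rw [show beQ n c (b * c) = (c : ℤ) * beQ n 1 b by simp only [beQ]; push_cast; ring]
    exact b2a_mul_lt w (w.V_int_le c) hβ
  rw [F.kum (N.factorization w.p) (op_GK n) ((Ine_le w).trans hD) (hD hφ.1)
    (by rwa [Subgroup.relIndex_eq_one.2 (le_inf hD le_rfl), pow_one]) (rcr_hom ok θ _).1
    (rcr_hom ok θ _).2 (fun σ hσ => by rw [rho_ine_split ok e' hb hσ, map_one, toAdd_one])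
    (hκ.mono inf_le_left) (by
      rw [ha, ← Int.cast_natCast, b2a_V_int w (by exact_mod_cast hN), padicValInt.of_nat,
        zpow_natCast, Nat.factorization_def _ w.prime]), rho_frob_split ok e' hb h3 hφ]
  simp [mul_comm]

theorem rcr_pow {q : ℕ} {M : ℤ} (hn : n % 4 = 3) (hq : (w.p : ℤ) ^ (q + 2) ∣ M) (hx : M ∣ x - 1)
    (hy : M ∣ y) : w.V (elQ n x y - 1) < w.V (3 ^ (q + 1)) := by
  obtain ⟨s, hs⟩ := hq.trans hx
  obtain ⟨t, rfl⟩ := hq.trans hy
  have h0 : 0 < w.V w.p := b3a_pos w (b4a_V_p w).1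
  have h1 : w.V w.p ≤ w.V 3 := by
    by_cases h : w.p = 3
    · rw [h]; rfl
    · have h2 := w.V_int_eq_one.2
        (Lib.MP_696deb_nt.not_dvd_of_prime_ne w.prime Nat.prime_three h)
      exact (b2a_p_lt w).le.trans (by simpa using h2.ge)
  rw [show elQ n x (w.p ^ (q + 2) * t) - 1 = elQ n s t * w.p ^ (q + 2) by
    rw [elQ, elQ, eq_add_of_sub_eq hs]; push_cast; ring, map_mul, map_pow, map_pow]
  exact (mul_le_of_le_one_left' (V_elQ_le hn w s t)).trans_lt
    ((pow_lt_pow_right_of_lt_one₀ h0 (b2a_p_lt w) (by omega)).trans_le (pow_le_pow_left' h1 _))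

/-- The reciprocity law for a ring class character and a primitive integer. -/
theorem recip_el (F : CFT) (ok : Ok n c) (θ : Pc n c →* Multiplicative (ZMod (3 ^ m)))
    (hw : ¬ w.p ∣ n) (hg : g ∈ Dec w) (hg' : g ∉ GK n) :
    ∃ M : ℕ, M ≠ 0 ∧ ¬ w.p ∣ M ∧ ∀ (x y b k : ℤ) (κ : Gam → ZMod (3 ^ m)), IsCoprime x y →
      (M : ℤ) ∣ x - 1 → (M : ℤ) ∣ y → b ^ 2 + n = 4 * nrm n x y * k →
      sc (el n x y) (ot (Oc n 1)) = idl n 1 (nrm n x y) b → Kum m (GK n) (elQ n x y) κ →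
      F.inv m (GK n) w (cup m (fun g => (θ (rho n c g)).toAdd) κ) =
        (θ (cl _ (idl n c (nrm n x y) (b * c)))).toAdd := by
  have hn := ok.m4
  have n0 : 0 < n := by omega
  obtain ⟨U, hU, -, hU'⟩ := sm_rho ⊤ n c
  obtain ⟨s, hs⟩ := finite_ram hU
  let S := ((s ∪ (2 * n * c).primeFactors).filter Nat.Prime).erase w.p
  have hS : ∀ q ∈ S, q.Prime := fun q h => (Finset.mem_filter.1 (Finset.mem_of_mem_erase h)).2
  have hS' : ∀ q, q.Prime → q ≠ w.p → q ∉ S → q ∉ s ∧ ¬ q ∣ 2 * n * c := fun q h1 h2 h3 =>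
    ⟨fun h => h3 (by simp [S, h, h1, h2]), fun h => h3 (by simp [S, h, h1, h2, ok.ne, n0.ne'])⟩
  refine ⟨∏ q ∈ S, q ^ (m + 2), Finset.prod_ne_zero_iff.2 fun q h => pow_ne_zero _ (hS q h).ne_zero,
    fun h => ?_, fun x y b k κ hxy hx hy e he hκ => ?_⟩
  · obtain ⟨q, h1, h2⟩ := (w.prime.prime.dvd_finsetProd_iff _).1 h
    exact Finset.ne_of_mem_erase h1
      ((Nat.prime_dvd_prime_iff_eq w.prime (hS q h1)).1 (w.prime.dvd_of_dvd_pow h2)).symm
  have hM : ∀ q ∈ S, (q : ℤ) ^ (m + 2) ∣ (∏ q ∈ S, q ^ (m + 2) : ℕ) := fun q h => by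
    exact_mod_cast Finset.dvd_prod_of_mem (fun q => q ^ (m + 2)) h
  have hpos := nrm_pos ⟨hn, ok.gt, one_ne_zero⟩ hxy
  have hmul := elQ_mul hn x y
  have hnc : ∀ p : ℕ, p.Prime → ¬ ((p : ℤ) ∣ x ∧ (p : ℤ) ∣ y) := fun p hp h =>
    (Nat.prime_iff_prime_int.1 hp).not_isUnit (hxy.isUnit_of_dvd' h.1 h.2)
  have hmod : ∀ q ∈ S, ¬ (q : ℤ) ∣ nrm n x y := fun q h h1 => by
    have h2 := (dvd_pow_self _ (by omega)).trans (hM q h)
    refine (Nat.prime_iff_prime_int.1 (hS q h)).not_dvd_one ?_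
    rw [show 1 = nrm n x y - (x - 1) * (x + 1) - y * (x + y * ((n + 1) / 4)) by rw [nrm]; ring]
    exact (h1.sub ((h2.trans hx).mul_right _)).sub ((h2.trans hy).mul_right _)
  obtain ⟨N, hN⟩ := Int.eq_ofNat_of_zero_le hpos.le
  rw [hN] at e he hmul hmod hpos ⊢
  have N0 : N ≠ 0 := by omega
  rw [Int.cast_natCast] at hmul
  have hfac : ∀ p : ℕ, p.Prime → p ∣ N → p ≠ w.p ∧ ¬ p ∣ 2 * n * c := fun p hp h => by
    have h1 : p ≠ w.p := by
      rintro rfl
      have h2 := V_elQ_inert hn hw hg hg' (hnc _ hp)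
      have h3 := b2c_lt.2 (Int.natCast_dvd_natCast.2 h)
      rw [Int.cast_natCast, ← hmul, map_mul, ← cmr_conj hg', mem_Dec.1 hg, h2, mul_one] at h3
      exact h3.ne rfl
    exact ⟨h1, (hS' p hp h1 fun k => hmod p k (Int.natCast_dvd_natCast.2 h)).2⟩
  have hc' : cc⁻¹ ∉ GK n := fun h => cc_notMem n0 (inv_mem_iff.1 h)
  have hv : ∀ p : ℕ, ∃ v : Plc, p ∈ N.primeFactors → v.p = p ∧ v.V (elQ n x y) < 1 := fun p => by
    by_cases h : p ∈ N.primeFactors
    swap
    · exact ⟨w, fun k => absurd k h⟩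
    obtain ⟨v, rfl⟩ := exists_plc (Nat.prime_of_mem_primeFactors h)
    by_cases k : v.V (elQ n x y) < 1
    · exact ⟨v, fun _ => ⟨rfl, k⟩⟩
    have h3 := b2c_lt.2 (Int.natCast_dvd_natCast.2 (Nat.dvd_of_mem_primeFactors h))
    rw [Int.cast_natCast, ← hmul, map_mul, (V_elQ_le hn v x y).eq_or_lt.resolve_right k,
      one_mul] at h3
    exact ⟨cc • v, fun _ => ⟨rfl, by rwa [smul_V, cmr_conj hc']⟩⟩
  choose v hv using hv
  have hbar : ∀ p ∈ N.primeFactors, (v p).V (elQ n (x + y) (-y)) = 1 := fun p h =>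
    (V_elQ_le hn _ _ _).eq_or_lt.resolve_right fun k => hnc _ (v p).prime (cmr_both hn (by
      rw [(hv p h).1]
      exact fun j => (hfac p (Nat.prime_of_mem_primeFactors h)
        (Nat.dvd_of_mem_primeFactors h)).2 ((j.mul_left 2).mul_right c)) (hv p h).2 k)
  have hp : ∀ u ∈ insert w (N.primeFactors.image v), u = w ∧ u.p ∉ N.primeFactors ∨
      u.p ∈ N.primeFactors ∧ u = v u.p := fun u h => by
    rcases Finset.mem_insert.1 h with rfl | h
    · exact .inl ⟨rfl, fun k => (hfac _ u.prime (Nat.dvd_of_mem_primeFactors k)).1 rfl⟩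
    · obtain ⟨p, h1, rfl⟩ := Finset.mem_image.1 h
      exact .inr (by rw [(hv p h1).1]; exact ⟨h1, rfl⟩)
  have hh := rcr_hom ok θ
  have key := F.recip (insert w (N.primeFactors.image v)) (op_GK n)
    (c2_cup (by simpa using (hh ⊤).1) (by simpa using (hh ⊤).2) hκ.sm hκ.coc)
    (fun u hu u' hu' j _ h => by
      have h1 : u.p = u'.p := h ▸ rfl
      rcases hp u hu with h2 | h2 <;> rcases hp u' hu' with h3 | h3
      · rw [h2.1, h3.1]
      · exact absurd (h1 ▸ h3.1) h2.2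
      · exact absurd (h1 ▸ h2.1) h3.2
      · rw [h2.2, h3.2, h1]) fun u hu => by
      have h1 : u.p ≠ w.p := fun h => by
        obtain ⟨j, h1, h2⟩ := conj_of_inert h hg hg'
        exact hu w (Finset.mem_insert_self _ _) j h1 h2
      by_cases h2 : u.p ∈ S
      · exact F.cup_pow (op_GK n) (hh _).1 (hh _).2 (hκ.mono inf_le_left) (rcr_root inf_le_right m
          (fun j hj => fx_elQ x y j hj.1) (rcr_pow hn (hM _ h2) hx hy))
      refine F.unit (op_GK n) (hh _).1 (hh _).2 (fun σ hσ => ?_) (hκ.mono inf_le_left)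
        ((V_elQ_le hn u x y).eq_or_lt.resolve_right fun h => ?_)
      · rw [← hU' 1 trivial σ trivial (by simpa using hs u (hS' _ u.prime h1 h2).1 hσ.2),
          rho_one ok, map_one, toAdd_one]
      · have h3 := b2a_mul_lt u (V_elQ_le hn u (x + y) (-y)) h
        rw [mul_comm, hmul, ← Int.cast_natCast, b2c_lt, Int.natCast_dvd_natCast] at h3
        have h4 := Nat.mem_primeFactors.2 ⟨u.prime, h3, N0⟩
        obtain ⟨j, h5, h6 | h6⟩ := conj_or n0 (hv _ h4).1.symm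
        · exact hu _ (Finset.mem_insert_of_mem (Finset.mem_image_of_mem v h4)) j h5 h6
        · rw [← h6, smul_V, fx_elQ x y _ (inv_mem h5), smul_V, cmr_conj hc', hbar _ h4] at h
          exact h.ne rfl
  obtain ⟨z, hz, hz'⟩ := mem_sc.1 (he ▸ right_mem_sp2 _ _ : be n 1 b ∈ sc (el n x y) (ot (Oc n 1)))
  obtain ⟨s', t', -, rfl⟩ := (mem_Oc hn).1 hz
  have hβ : beQ n 1 b = elQ n s' t' * elQ n x y :=
    jC.injective (by rw [map_mul, jC_elQ, jC_elQ, jC_beQ, mul_comm, hz'])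
  have hcop : IsCoprime (N : ℤ) (b * c) := by
    rw [Int.isCoprime_iff_gcd_eq_one, Int.gcd, Int.natAbs_natCast]
    refine Nat.coprime_of_dvd fun p h1 h2 h3 => (hfac p h1 h2).2 ?_
    rcases (Nat.prime_iff_prime_int.1 h1).dvd_mul.1 (Int.natCast_dvd.2 h3) with h | h
    · refine ((Int.natCast_dvd_natCast.1 ((dvd_add_right (h.pow two_ne_zero)).1 ?_)).mul_left
        2).mul_right c
      rw [e]
      exact ((Int.natCast_dvd_natCast.2 h2).mul_left 4).mul_right k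
    · exact (Int.natCast_dvd_natCast.1 h).mul_left _
  rw [Finset.sum_insert fun h => by
      obtain ⟨p, h1, h2⟩ := Finset.mem_image.1 h
      exact (hfac p (Nat.prime_of_mem_primeFactors h1) (Nat.dvd_of_mem_primeFactors h1)).1
        (by rw [← h2, (hv p h1).1]),
    Finset.sum_image fun p h p' h' j => by rw [← (hv p h).1, j, (hv p' h').1],
    Finset.sum_congr rfl fun p h => by
      have h1 := (hv p h).1
      rw [rcr_split F ok θ N0 (by rw [h1]; exact Nat.dvd_of_mem_primeFactors h) (by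
        rw [h1]
        exact (hfac p (Nat.prime_of_mem_primeFactors h) (Nat.dvd_of_mem_primeFactors h)).2) e
        (by rw [hβ]; exact b2a_mul_lt _ (V_elQ_le hn _ _ _) (hv p h).2) hκ
        (by rw [← hmul, map_mul, hbar p h, mul_one]), h1],
    Finset.sum_neg_distrib, add_neg_eq_zero] at key
  rw [key, cl_idl_prod hn N0 (k := k * c ^ 2) (by linear_combination c ^ 2 * e) hcop, map_prod,
    toAdd_prod]

end Pool.Agent.H3.CM
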