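import Pool.Agent.Lib.MP_23455a_nt.H3.D1b

/-! The kernel of reduction on the curve of conductor twenty-seven. -/

set_option autoImplicit false

open scoped NNReal Classical
open WeierstrassCurve WeierstrassCurve.Affine

namespace Pool.Agent.H3

open Pool.Agent.Lib.MP_696deb_nt.B2 Pool.Agent.Lib.MP_696deb_nt.B2.CM
open Pool.Agent.Lib.MP_696deb_nt (xco yco xco_neg xco_some yco_some)
open Pool.Agent.Lib.MP_23455a_nt (W27 pm phiX phiY fT gm mu e3 ns_iff cA cB cC tA tC co_self)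

variable {w : Plc} {P Q : PW} {g : Gam}

theorem xco_smul (g : Gam) (P : PW) : xco (g • P) = g (xco P) := by
  rcases P with _ | ⟨x, y, h⟩
  · exact (map_zero g).symm
  · rfl

theorem yco_smul (g : Gam) (P : PW) : yco (g • P) = g (yco P) := by
  rcases P with _ | ⟨x, y, h⟩
  · exact (map_zero g).symm
  · rfl

theorem rd_eqn (h : P ≠ 0) : yco P ^ 2 + yco P = xco P ^ 3 - 7 := by
  rcases P with _ | ⟨x, y, k⟩
  · exact absurd rfl h
  · exact ns_iff.1 k

theorem rd_negY {F : Type} [Field F] (x y : F) : (W27.baseChange F).toAffine.negY x y = -y - 1 := by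
  simp [negY, W27]

theorem rd_neg {F : Type} [Field F] {P : Lib.MP_23455a_nt.Pt F} (h : P ≠ 0) :
    yco (-P) = -yco P - 1 := by
  rcases P with _ | ⟨x, y, k⟩
  · exact absurd rfl h
  · exact rd_negY x y

theorem rd_ext (hP : P ≠ 0) (hQ : Q ≠ 0) (hx : xco P = xco Q) (hy : yco P = yco Q) : P = Q := by
  rcases P with _ | ⟨x, y, h⟩
  · exact absurd rfl hP
  rcases Q with _ | ⟨x', y', h'⟩
  · exact absurd rfl hQ
  simp only [Point.some.injEq]
  exact ⟨hx, hy⟩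

/-- The line through two points. -/
theorem rd_line {F : Type} [Field F] [CharZero F] [DecidableEq F] {P Q : Lib.MP_23455a_nt.Pt F}
    (hP : P ≠ 0) (hQ : Q ≠ 0) (h : P + Q ≠ 0) : ∃ l ν : F,
    yco P = l * xco P + ν ∧ yco Q = l * xco Q + ν ∧ yco (-(P + Q)) = l * xco (P + Q) + ν ∧
      xco P + xco Q + xco (P + Q) = l ^ 2 ∧
      xco P * xco Q + xco P * xco (P + Q) + xco Q * xco (P + Q) = -(2 * l * ν + l) := by
  rw [rd_neg h]
  rcases P with _ | ⟨x1, y1, h1⟩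
  · exact absurd rfl hP
  rcases Q with _ | ⟨x2, y2, h2⟩
  · exact absurd rfl hQ
  have hxy : ¬ (x1 = x2 ∧ y1 = (W27.baseChange F).toAffine.negY x2 y2) := fun k =>
    h (Point.add_of_Y_eq k.1 k.2)
  have e1 := ns_iff.1 h1
  have e2 := ns_iff.1 h2
  have key : ∀ l, l = (W27.baseChange F).toAffine.slope x1 x2 y1 y2 →
      l * (x1 - x2) = y1 - y2 ∧ l * (y1 + y2 + 1) = x1 ^ 2 + x1 * x2 + x2 ^ 2 := by
    intro l hl
    by_cases hx : x1 = x2
    · have hy := fun k => hxy ⟨hx, k⟩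
      obtain rfl := Y_eq_of_Y_ne h1.1 h2.1 hx hy
      subst hx
      rw [slope_of_Y_ne rfl hy, eq_div_iff (sub_ne_zero.2 hy), rd_negY] at hl
      simp [W27] at hl
      exact ⟨by ring, by linear_combination hl⟩
    · rw [slope_of_X_ne hx, eq_div_iff (sub_ne_zero.2 hx)] at hl
      exact ⟨hl, mul_left_cancel₀ (sub_ne_zero.2 hx)
        (by linear_combination (y1 + y2 + 1) * hl + e1 - e2)⟩
  obtain ⟨a, b⟩ := key _ rfl
  rw [Point.add_some hxy]
  simp only [xco_some, yco_some]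
  generalize (W27.baseChange F).toAffine.slope x1 x2 y1 y2 = l at a b ⊢
  have h3 : (W27.baseChange F).toAffine.addX x1 x2 l = l ^ 2 - x1 - x2 := by simp [addX, W27]
  have h4 : (W27.baseChange F).toAffine.addY x1 x2 y1 l =
    -(l * (l ^ 2 - x1 - x2 - x1) + y1) - 1 := by simp [addY, negAddY, negY, W27]
  rw [h3, h4]
  exact ⟨l, y1 - l * x1, by ring, by linear_combination a, by ring, by ring,
    by linear_combination b - l * a⟩

theorem rd_yco (w : Plc) (h : w.V (xco P) ≤ 1) : w.V (yco P) ≤ 1 := by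
  by_cases h0 : P = 0
  · simp [h0]
  have h1 : xco P ∈ w.V.integer := h
  refine r0_quad w (one_mem _) ?_
  rw [one_mul, rd_eqn h0]
  exact sub_mem (pow_mem h1 3) (ofNat_mem _ 7)

theorem rd_key (w : Plc) {x1 x2 x3 y3 l ν : Qbar} (e0 : y3 = l * x3 + ν)
    (e1 : x1 + x2 + x3 = l ^ 2) (e2 : x1 * x2 + x1 * x3 + x2 * x3 = -(2 * l * ν + l))
    (h1 : 1 < w.V x1) (h2 : 1 < w.V x2) (h3 : x3 ∈ w.V.integer) (h4 : y3 ∈ w.V.integer) :
    False := by
  have e3 : x1 * x2 = l ^ 2 * x3 - 2 * l * y3 - l + x3 ^ 2 := by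
    linear_combination e2 - x3 * e1 + 2 * l * e0
  clear e0 e2
  rcases le_or_gt (w.V l) 1 with hl | hl
  · have h5 : l ∈ w.V.integer := hl
    refine (r0_big w h1 ?_).not_gt h2
    rw [e3]
    clear e1 e3 h1 h2 hl
    aesop
  have l0 : l ≠ 0 := by rintro rfl; simp at hl
  obtain ⟨t, rfl⟩ : ∃ t, l = t⁻¹ := ⟨l⁻¹, (inv_inv l).symm⟩
  have t0 : t ≠ 0 := fun k => l0 (by rw [k, inv_zero])
  have t1 : w.V t < 1 := r0_big w hl (by rw [inv_mul_cancel₀ t0]; exact one_mem _)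
  have t2 : t ∈ w.V.integer := t1.le
  have a1 : x1 * (x2 * t ^ 2) ∈ w.V.integer := by
    rw [show x1 * (x2 * t ^ 2) = x3 - 2 * t * y3 - t + t ^ 2 * x3 ^ 2 by
      rw [← mul_assoc, e3]; field_simp]
    clear e1 e3 h1 h2 hl l0 t0 t1
    aesop
  have a2 := r0_big w h1 a1
  have a3 := r0_big w h2 (a := x1 * t ^ 2) (by rwa [mul_left_comm])
  have a4 := w.V.map_add_lt a3 a2
  rw [show x1 * t ^ 2 + x2 * t ^ 2 = 1 + t * (t * -x3) by
    rw [← add_mul, eq_sub_of_add_eq e1]; field_simp; ring, r0_one w (r0_mul w t1 ?_)] at a4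
  · exact a4.false
  · exact mul_mem t2 (neg_mem h3)

theorem rd_add (w : Plc) (hP : P = 0 ∨ 1 < w.V (xco P)) (hQ : Q = 0 ∨ 1 < w.V (xco Q)) :
    P + Q = 0 ∨ 1 < w.V (xco (P + Q)) := by
  by_cases p0 : P = 0
  · rwa [p0, zero_add]
  by_cases q0 : Q = 0
  · rwa [q0, add_zero]
  refine or_iff_not_imp_left.2 fun h => not_le.1 fun k => ?_
  obtain ⟨l, ν, -, -, e0, e1, e2⟩ := rd_line p0 q0 h
  exact rd_key w e0 e1 e2 (hP.resolve_left p0) (hQ.resolve_left q0) k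
    (rd_yco w (P := -(P + Q)) (by rwa [xco_neg]))

theorem mem_K1 : P ∈ K1 w ↔ P = 0 ∨ 1 < w.V (xco P) := by
  constructor
  · intro h
    induction h using AddSubgroup.closure_induction with
    | mem x hx => exact .inr hx
    | zero => exact .inl rfl
    | add x y _ _ hx hy => exact rd_add w hx hy
    | neg x _ hx => exact hx.imp neg_eq_zero.2 fun k => by rwa [xco_neg]
  · rintro (rfl | h)
    · exact zero_mem _
    · exact AddSubgroup.subset_closure h

theorem rd_ne (h : P ∉ K1 w) : P ≠ 0 := fun k => h (mem_K1.2 (.inl k))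

theorem rd_not (h0 : P ≠ 0) (h : w.V (xco P) ≤ 1) : P ∉ K1 w := fun k =>
  ((mem_K1.1 k).resolve_left h0).not_ge h

theorem V_xco_le (h : P ∉ K1 w) : w.V (xco P) ≤ 1 ∧ w.V (yco P) ≤ 1 := by
  have h1 := not_lt.1 fun k => h (mem_K1.2 (.inr k))
  exact ⟨h1, rd_yco w h1⟩

theorem rd_three (hw : w.p ≠ 3) : w.V 3 = 1 := by
  have h : w.V ((3 : ℤ) : Qbar) = 1 := w.V_int_eq_one.2 fun e =>
    hw ((Nat.prime_dvd_prime_iff_eq w.prime Nat.prime_three).1 (by exact_mod_cast e))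
  simpa using h

theorem rd_sing (hw : w.p ≠ 3) {x1 x2 x3 y1 y2 l ν : Qbar}
    (e : y1 ^ 2 + y1 = x1 ^ 3 - 7) (e3 : y1 = l * x1 + ν)
    (e4 : -y2 - 1 = l * x2 + ν) (e1 : x1 + x2 + x3 = l ^ 2)
    (e2 : x1 * x2 + x1 * x3 + x2 * x3 = -(2 * l * ν + l)) (h1 : x1 ∈ w.V.integer)
    (h2 : x2 ∈ w.V.integer) (h3 : x3 ∈ w.V.integer) (h4 : y1 ∈ w.V.integer)
    (hx : w.V (x1 - x2) < 1) (hy : w.V (y1 - y2) < 1) : False := by
  have hl : l ∈ w.V.integer := r0_quad w (zero_mem _) (by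
    rw [show l ^ 2 + 0 * l = x1 + x2 + x3 by linear_combination -e1]
    exact add_mem (add_mem h1 h2) h3)
  have s1 : w.V (2 * y1 + 1) < 1 := by
    rw [show 2 * y1 + 1 = (x1 - x2) * l + (y1 - y2) by linear_combination e3 - e4]
    exact w.V.map_add_lt (r0_mul w hx hl) hy
  have s2 : w.V (3 * x1 ^ 2) < 1 := by
    rw [show 3 * x1 ^ 2 = (y1 - y2) * l + (x1 - x2) * (2 * x1 + x2) by
      linear_combination (x1 + x2) * e1 - e2 - l * e3 - l * e4]
    exact w.V.map_add_lt (r0_mul w hy hl) (r0_mul w hx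
      (add_mem (mul_mem (ofNat_mem _ 2) h1) h2))
  have s4 := w.V.map_sub_lt (r0_mul w s2 (mul_mem (ofNat_mem _ 4) h1)) (r0_mul w s1
    (mul_mem (ofNat_mem _ 3) (add_mem (mul_mem (ofNat_mem _ 2) h4) (one_mem _))))
  rw [show _ - _ = (3 : Qbar) ^ 4 by linear_combination -12 * e, map_pow, rd_three hw,
    one_pow] at s4
  exact s4.false

/-- Points with congruent coordinates have the same reduction. -/
theorem K1_near (hw : w.p ≠ 3) (hP : P ∉ K1 w) (hQ : Q ∉ K1 w) (hx : w.V (xco P - xco Q) < 1)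
    (hy : w.V (yco P - yco Q) < 1) : P - Q ∈ K1 w := by
  have p0 := rd_ne hP
  have q0 : -Q ≠ 0 := neg_ne_zero.2 (rd_ne hQ)
  rw [sub_eq_add_neg, mem_K1]
  refine or_iff_not_imp_left.2 fun h => not_le.1 fun k => ?_
  obtain ⟨l, ν, e3, e4, -, e1, e2⟩ := rd_line p0 q0 h
  rw [rd_neg (rd_ne hQ)] at e4
  rw [xco_neg] at e1 e2 e4
  exact rd_sing hw (rd_eqn p0) e3 e4 e1 e2 (V_xco_le hP).1 (V_xco_le hQ).1 k (V_xco_le hP).2 hx hy

/-- The converse. -/
theorem near_of_K1 (hP : P ∉ K1 w) (h : P - Q ∈ K1 w) :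
    w.V (xco P - xco Q) < 1 ∧ w.V (yco P - yco Q) < 1 := by
  by_cases h0 : P - Q = 0
  · simp [sub_eq_zero.1 h0]
  have hQ : Q ∉ K1 w := fun k => hP (by simpa using add_mem h k)
  have p0 : Q + (P - Q) ≠ 0 := fun k => rd_ne hP (by simpa using k)
  obtain ⟨l, ν, e3, -, e4, e1, e2⟩ := rd_line (rd_ne hQ) h0 p0
  rw [rd_neg p0] at e4
  rw [add_sub_cancel] at e1 e2 e4
  have h1 : xco P ∈ w.V.integer := (V_xco_le hP).1
  have h2 : yco P ∈ w.V.integer := (V_xco_le hP).2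
  have h3 : xco Q ∈ w.V.integer := (V_xco_le hQ).1
  have h4 : yco Q ∈ w.V.integer := (V_xco_le hQ).2
  have h5 := (mem_K1.1 h).resolve_left h0
  generalize xco P = x3, yco P = y3, xco Q = x1, yco Q = y1, xco (P - Q) = x2 at *
  clear hP h h0 hQ p0
  have hl : 1 < w.V l := not_le.1 fun k => h5.not_ge (by
    have h6 : l ∈ w.V.integer := k
    change x2 ∈ w.V.integer
    rw [show x2 = l ^ 2 - x1 - x3 by linear_combination e1]
    exact sub_mem (sub_mem (pow_mem h6 2) h3) h1)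
  constructor
  · refine r0_big w hl ?_
    rw [show l * (x3 - x1) = -y3 - 1 - y1 by linear_combination e3 - e4]
    exact sub_mem (sub_mem (neg_mem h2) (one_mem _)) h4
  · refine r0_big w hl ?_
    rw [show l * (y3 - y1) = -(x1 ^ 2 + x1 * x3 + x3 ^ 2) by
      linear_combination (x1 + x3) * e1 - e2 - l * e3 - l * e4]
    exact neg_mem (add_mem (add_mem (pow_mem h3 2) (mul_mem h3 h1)) (pow_mem h1 2))

theorem K1_smul (hg : g ∈ Dec w) : g • P ∈ K1 w ↔ P ∈ K1 w := by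
  rw [mem_K1, mem_K1, xco_smul, mem_Dec.1 hg, smul_eq_zero_iff_eq]

theorem K1_ine (hw : w.p ≠ 3) (hg : g ∈ Ine w) (P : PW) : g • P - P ∈ K1 w := by
  by_cases h : P ∈ K1 w
  · exact sub_mem ((K1_smul hg.1).2 h) h
  · refine K1_near hw (mt (K1_smul hg.1).1 h) h ?_ ?_
    · rw [xco_smul]; exact hg.2 _ (V_xco_le h).1
    · rw [yco_smul]; exact hg.2 _ (V_xco_le h).2

theorem rd_co (h : P ≠ 0) : cA P = yco P + 5 ∧ cB P = 4 - yco P ∧ cC P = -3 * xco P := by
  rcases P with _ | ⟨x, y, k⟩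
  · exact absurd rfl h
  · exact ⟨rfl, rfl, rfl⟩

/-- Points of order three have integral coordinates at every place. -/
theorem rd_tors (w : Plc) (h : 3 • P = 0) : w.V (xco P) ≤ 1 := by
  by_cases h0 : P = 0
  · simp [h0]
  have h1 := (co_self P).three
  have h2 := (co_self P).tA_add
  rw [h] at h1
  obtain ⟨l, -, a, b, -⟩ := Lib.MP_23455a_nt.co_zero.eq h1
  obtain ⟨e1, e2, e3⟩ := rd_co h0
  have h3 : cA P * cB P * cC P = 0 :=
    pow_eq_zero_iff three_ne_zero |>.1 (by linear_combination (1 / 9) * h2 - (1 / 9) * (a + b))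
  rw [e1, e2, e3] at h3
  have h4 : xco P * (xco P ^ 3 - 27) = 0 := by
    linear_combination (1 / 3) * h3 - xco P * rd_eqn h0
  rcases mul_eq_zero.1 h4 with k | k
  · simp [k]
  · have h5 : w.V (xco P) ^ 3 ≤ 1 := by
      rw [← map_pow, sub_eq_zero.1 k]
      exact (ofNat_mem w.V.integer 27 :)
    exact (pow_le_one_iff three_ne_zero).1 h5

theorem rd_K1_tors (h : P ∈ K1 w) {m : ℕ} (k : 3 ^ m • P = 0) : P = 0 := by
  induction m generalizing P with
  | zero => simpa using k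
  | succ m ih =>
    have h1 := ih (nsmul_mem h 3) (by rw [smul_smul, ← pow_succ, k])
    exact (mem_K1.1 h).resolve_right (rd_tors w h1).not_gt

theorem K1_tors (hw : w.p ≠ 3) (h : P ∈ K1 w) {m : ℕ} (k : 3 ^ m • P = 0) : P = 0 :=
  (fun _ => rd_K1_tors h k) hw

theorem sm_pt (H : Subgroup Gam) (P : PW) : Sm H fun g => g • P := by
  rcases P with _ | ⟨x, y, h⟩
  · exact (Sm.const 0).congr fun g _ => (smul_zero g).symm
  · refine ((sm_apply x).comp₂ (sm_apply y) fun a b =>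
      if k : b ^ 2 + b = a ^ 3 - 7 then (.some a b (ns_iff.2 k) : PW) else 0).congr fun g _ => ?_
    have k : g y ^ 2 + g y = g x ^ 3 - 7 := by simpa [map_ofNat] using congrArg g (ns_iff.1 h)
    exact dif_pos k

theorem pw_third (P : PW) : ∃ Q, 3 • Q = P := Lib.MP_23455a_nt.exists_third P

theorem rd_or {a b : Qbar} (h : w.V (a * b) < 1) : w.V a < 1 ∨ w.V b < 1 := by
  by_contra k
  rw [not_or, not_lt, not_lt] at k
  rw [map_mul] at h
  exact h.not_ge (one_le_mul k.1 k.2)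

theorem rd_small (hw : w.p ≠ 3) (hQ : Q ∉ K1 w) (h : 3 • Q ∈ K1 w) :
    w.V (xco Q * (xco Q ^ 3 - 27)) < 1 := by
  have q0 := rd_ne hQ
  have h1 := (co_self Q).three
  have h2 := (co_self Q).tA_add
  obtain ⟨e1, e2, e3⟩ := rd_co q0
  have h3 : cA Q * cB Q * cC Q = 3 * (xco Q * (xco Q ^ 3 - 27)) := by
    rw [e1, e2, e3]
    linear_combination 3 * xco Q * rd_eqn q0
  by_contra k
  rw [not_lt] at k
  by_cases h0 : 3 • Q = 0
  · rw [h0] at h1
    obtain ⟨l, -, a, b, -⟩ := Lib.MP_23455a_nt.co_zero.eq h1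
    have h4 : cA Q * cB Q * cC Q = 0 :=
      pow_eq_zero_iff three_ne_zero |>.1 (by linear_combination (1 / 9) * h2 - (1 / 9) * (a + b))
    rw [show xco Q * (xco Q ^ 3 - 27) = 0 by linear_combination (1 / 3) * (h4 - h3)] at k
    simp at k
  · obtain ⟨l, -, a, b, c⟩ := (co_self (3 • Q)).eq h1
    obtain ⟨f1, f2, f3⟩ := rd_co h0
    have h5 := (mem_K1.1 h).resolve_left h0
    have hx : xco Q ∈ w.V.integer := (V_xco_le hQ).1
    have hy : yco Q ∈ w.V.integer := (V_xco_le hQ).2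
    have hA : cA Q ∈ w.V.integer := e1 ▸ add_mem hy (ofNat_mem _ 5)
    have hB : cB Q ∈ w.V.integer := e2 ▸ sub_mem (ofNat_mem _ 4) hy
    have hC : cC Q ∈ w.V.integer := e3 ▸ mul_mem (neg_mem (ofNat_mem _ 3)) hx
    have h6 : tC (cA Q) (cB Q) (cC Q) ∈ w.V.integer := by
      generalize cA Q = A, cB Q = B, cC Q = C at hA hB hC
      unfold tC
      clear * - hA hB hC
      aesop
    rw [f1] at a
    rw [f2] at b
    rw [f3] at c
    rw [h3] at h2
    generalize xco Q * (xco Q ^ 3 - 27) = u at h2 k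
    rw [show tC (cA Q) (cB Q) (cC Q) = xco (3 • Q) * (3 ^ 4 * u ^ 3) by
      linear_combination c + xco (3 • Q) / 3 * (a + b - h2)] at h6
    have h7 := r0_big w h5 h6
    rw [map_mul, map_pow, map_pow, rd_three hw, one_pow, one_mul] at h7
    exact h7.not_ge (one_le_pow₀ k)

theorem rd_three_of {x y : Qbar} (e : y ^ 2 + y = x ^ 3 - 7) (h : x * (x ^ 3 - 27) = 0) :
    ∃ R : PW, R ≠ 0 ∧ 3 • R = 0 ∧ xco R = x ∧ yco R = y := by
  refine ⟨.some x y (ns_iff.2 e), Point.some_ne_zero _, ?_, rfl, rfl⟩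
  obtain ⟨i, u, hu, k⟩ := (co_self (.some x y (ns_iff.2 e) : PW)).exists_e3 (by
    change (y + 5) * (4 - y) * (-3 * x) = 0
    linear_combination 3 * h + 3 * x * e)
  rw [k]
  exact Lib.MP_23455a_nt.three_e3 i hu

theorem rd_cong (hQ : Q ∉ K1 w) (h : w.V (xco Q * (xco Q ^ 3 - 27)) < 1) :
    ∃ R : PW, R ≠ 0 ∧ 3 • R = 0 ∧ w.V (xco Q - xco R) < 1 ∧ w.V (yco Q - yco R) < 1 := by
  have e := rd_eqn (rd_ne hQ)
  have hx : xco Q ∈ w.V.integer := (V_xco_le hQ).1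
  generalize xco Q = x, yco Q = y at e hx h
  obtain ⟨b, hb⟩ := r0_root 3 (-9)
  obtain ⟨a, ha, ha'⟩ : ∃ a, a * (a ^ 3 - 27) = 0 ∧ w.V (x - a) < 1 := by
    rw [show x * (x ^ 3 - 27) = (x - 0) * ((x - 3) * ((x - b) * (x - (-3 - b)))) by
      linear_combination x * (x - 3) * hb] at h
    rcases rd_or h with k | k
    · exact ⟨_, by ring, k⟩
    rcases rd_or k with k | k
    · exact ⟨_, by norm_num, k⟩
    rcases rd_or k with k | k
    · exact ⟨_, by linear_combination b * (b - 3) * hb, k⟩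
    · exact ⟨_, by linear_combination (b + 3) * (b + 6) * hb, k⟩
  have ha1 : a ∈ w.V.integer := by
    rw [show a = x - (x - a) by ring]
    exact sub_mem hx ha'.le
  obtain ⟨c, hc⟩ := r0_root 1 (a ^ 3 - 7)
  have h1 : w.V ((y - c) * (y - (-1 - c))) < 1 := by
    rw [show (y - c) * (y - (-1 - c)) = (x - a) * (x ^ 2 + x * a + a ^ 2) by
      linear_combination e - hc]
    exact r0_mul w ha' (add_mem (add_mem (pow_mem hx 2) (mul_mem hx ha1)) (pow_mem ha1 2))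
  rcases rd_or h1 with k | k
  · obtain ⟨R, r0, r1, r2, r3⟩ := rd_three_of (x := a) (y := c) (by linear_combination hc) ha
    exact ⟨R, r0, r1, r2 ▸ ha', r3 ▸ k⟩
  · obtain ⟨R, r0, r1, r2, r3⟩ := rd_three_of (x := a) (y := -1 - c) (by linear_combination hc) ha
    exact ⟨R, r0, r1, r2 ▸ ha', r3 ▸ k⟩

/-- The kernel of reduction is divisible by three. -/
theorem K1_third (hw : w.p ≠ 3) (h : P ∈ K1 w) : ∃ Q ∈ K1 w, 3 • Q = P := by
  obtain ⟨Q, rfl⟩ := pw_third P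
  by_cases hQ : Q ∈ K1 w
  · exact ⟨Q, hQ, rfl⟩
  obtain ⟨R, r0, r1, r2, r3⟩ := rd_cong hQ (rd_small hw hQ h)
  exact ⟨Q - R, K1_near hw hQ (rd_not r0 (rd_tors w r1)) r2 r3, by rw [smul_sub, r1, sub_zero]⟩

theorem rd_prod {s : Multiset Qbar} (h : w.V s.prod < 1) : ∃ a ∈ s, w.V a < 1 := by
  induction s using Multiset.induction_on with
  | empty => simp at h
  | cons a s ih =>
    rw [Multiset.prod_cons] at h
    rcases rd_or h with k | k
    · exact ⟨a, Multiset.mem_cons_self a s, k⟩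
    · obtain ⟨b, hb, k⟩ := ih k
      exact ⟨b, Multiset.mem_cons_of_mem hb, k⟩

open Polynomial in
theorem rd_res (w : Plc) {q : ℕ} (hq : 1 < q) : ∃ S : Finset Qbar, ∀ x : Qbar,
    w.V (x ^ q - x) < 1 → ∃ a ∈ S, w.V (x - a) < 1 := by
  have hm : (X ^ q - X : Qbar[X]).Monic :=
    monic_X_pow_sub (by rw [degree_X]; exact_mod_cast hq)
  refine ⟨(X ^ q - X : Qbar[X]).roots.toFinset, fun x hx => ?_⟩
  have e := (IsAlgClosed.splits (X ^ q - X : Qbar[X])).eval_eq_prod_roots_of_monic hm x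
  rw [eval_sub, eval_pow, eval_X] at e
  rw [e] at hx
  obtain ⟨a, ha, k⟩ := rd_prod hx
  obtain ⟨b, hb, rfl⟩ := Multiset.mem_map.1 ha
  exact ⟨b, Multiset.mem_toFinset.2 hb, k⟩

theorem rd_near {x y a : Qbar} (h : w.V (x - a) < 1) (k : w.V (y - a) < 1) : w.V (x - y) < 1 := by
  rw [show x - y = x - a - (y - a) by ring]
  exact w.V.map_sub_lt h k

/-- The reduction of a point has finite order. -/
theorem exists_mul_K1 (hw : w.p ≠ 3) (P : PW) : ∃ N : ℕ, 0 < N ∧ N • P ∈ K1 w := by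
  by_contra h
  have h1 : ∀ N : ℕ, (N + 1) • P ∉ K1 w := fun N k => h ⟨N + 1, N.succ_pos, k⟩
  obtain ⟨φ, hφ⟩ := exists_frob w
  obtain ⟨U, hU, -, hP⟩ := sm_pt ⊤ P
  obtain ⟨n, n0, -, hn⟩ := Subgroup.exists_pow_mem_of_index_ne_zero hU.index_ne_zero φ
  have h2 : φ ^ n • P = P := by
    have := hP 1 trivial (φ ^ n) trivial (by simpa using hn)
    simpa using this.symm
  have h3 : ∀ N : ℕ, φ ^ n • N • P = N • P := fun N => by rw [smul_comm, h2]
  obtain ⟨S, hS⟩ := rd_res w (Nat.one_lt_pow n0.ne' w.prime.one_lt)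
  have h4 : ∀ x : Qbar, w.V x ≤ 1 → (φ ^ n) x = x → ∃ a ∈ S, w.V (x - a) < 1 := fun x a b =>
    hS x (by rw [Valuation.map_sub_swap]; simpa only [b] using (hφ.pow n).2 x a)
  choose a ha ha' using fun N => h4 _ (V_xco_le (h1 N)).1 (by rw [← xco_smul, h3])
  choose b hb hb' using fun N => h4 _ (V_xco_le (h1 N)).2 (by rw [← yco_smul, h3])
  obtain ⟨i, j, hij, e⟩ := Set.Finite.exists_lt_map_eq_of_forall_mem
    (f := fun N => (a N, b N)) (t := (S ×ˢ S : Finset _))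
    (fun N => Finset.mem_product.2 ⟨ha N, hb N⟩) (Finset.finite_toSet _)
  obtain ⟨e1, e2⟩ := Prod.mk.inj e
  have h5 := K1_near hw (h1 j) (h1 i) (rd_near (ha' j) (e1 ▸ ha' i)) (rd_near (hb' j) (e2 ▸ hb' i))
  obtain ⟨d, rfl⟩ := Nat.exists_eq_add_of_lt hij
  refine h1 d ?_
  rwa [show i + d + 1 + 1 = d + 1 + (i + 1) by ring, add_nsmul, add_sub_cancel_right] at h5

end Pool.Agent.H3
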