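import Pool.Agent.Lib.MP_23455a_nt.H3.D1b

/-! The reference motive: the multiplicative group. -/

set_option autoImplicit false

open scoped NNReal Classical
open Finset Matrix

namespace Pool.Agent.H3

open Pool.Agent.Lib.MP_696deb_nt.B2

theorem PR.val_zero : (0 : PR).val = 1 := rfl

theorem PR.val_neg (x : PR) : (-x).val = x.val⁻¹ := Units.val_inv_eq_inv_val _

theorem PR.val_sub (x y : PR) : (x - y).val = x.val / y.val := by
  rw [sub_eq_add_neg, PR.val_add, PR.val_neg, div_eq_mul_inv]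

theorem PR.val_nsmul (n : ℕ) (x : PR) : (n • x).val = x.val ^ n := Units.val_pow_eq_pow_val _ _

/-- The logarithm of a root of unity. -/
noncomputable def rmLog (m : ℕ) : Qbar → ZMod (3 ^ m) :=
  Function.invFun fun a : ZMod (3 ^ m) => zeta m ^ a.val

theorem rm_log {m : ℕ} {a : ZMod (3 ^ m)} {x : Qbar} (h : x = zeta m ^ a.val) : rmLog m x = a :=
  h ▸ Function.leftInverse_invFun (fun _ _ => zeta_val_inj) a

theorem rm_pow {m : ℕ} {x : PR} (h : 3 ^ m • x = 0) : x.val ^ 3 ^ m = 1 := by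
  rw [← PR.val_nsmul, h, PR.val_zero]

theorem rm_one {w : Plc} {x : Qbar} (h : w.V (x - 1) < 1) : w.V x = 1 := by
  have := w.V.map_one_add_of_lt h
  rwa [add_sub_cancel] at this

theorem rm_div {w : Plc} {x y : Qbar} (h : w.V (x - y) < 1) (hy : w.V y = 1) :
    w.V (x / y - 1) < 1 := by
  have y0 : y ≠ 0 := fun e => by simp [e] at hy
  rwa [div_sub_one y0, map_div₀, hy, div_one]

/-- The units. -/
noncomputable def rmG (w : Plc) : AddSubgroup PR where
  carrier := {x | w.V x.val = 1}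
  zero_mem' := map_one w.V
  add_mem' {x y} hx hy := by
    change w.V (x.val * y.val) = 1
    rw [map_mul, hx, hy, one_mul]
  neg_mem' {x} hx := by
    change w.V (-x).val = 1
    rw [PR.val_neg, map_inv₀, hx, inv_one]

/-- The principal units. -/
noncomputable def rmK (w : Plc) : AddSubgroup PR where
  carrier := {x | w.V (x.val - 1) < 1}
  zero_mem' := by
    change w.V (1 - 1) < 1
    simp
  add_mem' {x y} hx hy := by
    change w.V (x.val * y.val - 1) < 1
    rw [show x.val * y.val - 1 = x.val * (y.val - 1) + (x.val - 1) by ring]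
    exact w.V.map_add_lt (by rwa [map_mul, rm_one hx, one_mul]) hx
  neg_mem' {x} hx := by
    change w.V ((-x).val - 1) < 1
    rw [PR.val_neg, ← one_div]
    exact rm_div (by rwa [w.V.map_sub_swap]) (rm_one hx)

theorem rm_smul {w : Plc} {g : Gam} (hg : g ∈ Dec w) {x : PR} (hx : x ∈ rmK w) :
    g • x ∈ rmK w := by
  change w.V (g x.val - 1) < 1
  rwa [← map_one g, ← map_sub, mem_Dec.1 hg]

/-- The reference motive. -/
noncomputable def rmM : Mot PR where
  ρ := (rpK 1).ρ
  sm := (rpK 1).sm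
  det := (rpK 1).det
  conj := (rpK 1).conj
  unr := (rpK 1).unr
  md g := by simpa only [Nat.cast_one] using (rpK 1).md g
  crd m x := ![rmLog m x.val, 0]
  G := rmG
  K := rmK
  a l := l + 1
  crd_add m x y hx hy := by
    obtain ⟨a, ha⟩ := exists_zeta_val (rm_pow hx)
    obtain ⟨b, hb⟩ := exists_zeta_val (rm_pow hy)
    rw [rm_log ha, rm_log hb, rm_log (a := a + b) (by rw [PR.val_add, ha, hb, zeta_val_add])]
    simp
  crd_inj m x hx h := by
    obtain ⟨a, ha⟩ := exists_zeta_val (rm_pow hx)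
    have h1 : a = 0 := (rm_log ha).symm.trans (congrFun h 0)
    exact PR.ext (by rw [ha, h1, ZMod.val_zero, pow_zero, PR.val_zero])
  crd_smul m g x hx := by
    obtain ⟨a, ha⟩ := exists_zeta_val (rm_pow hx)
    rw [rm_log ha, rm_log (a := cy m g * a) (by rw [PR.val_smul, ha, smul_zeta_val])]
    ext i
    fin_cases i <;> simp [mred, rpK_apply, cy, mulVec, dotProduct]
  crd_red m k x hx := by
    obtain ⟨a, ha⟩ := exists_zeta_val (rm_pow hx)
    rw [rm_log ha, rm_log (a := (a.val : ZMod (3 ^ m))) (by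
      rw [PR.val_nsmul, ha, pow_right_comm, zeta_add_pow, b1b_zeta_cast])]
    ext i
    fin_cases i <;> simp
  smP x := by
    obtain ⟨U, h1, h2, h3⟩ := sm_apply (H := ⊤) x.val
    exact ⟨U, h1, h2, fun g hg k hk e => PR.ext (h3 g hg k hk e)⟩
  div x := by
    obtain ⟨r, hr⟩ := IsAlgClosed.exists_pow_nat_eq x.val three_pos
    have r0 : r ≠ 0 := fun e => x.val_ne (by rw [← hr, e, zero_pow three_ne_zero])
    exact ⟨Additive.ofMul (Units.mk0 r r0), PR.ext ((PR.val_nsmul _ _).trans hr)⟩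
  G_sat w x h := by
    have h1 : w.V (3 • x).val = 1 := h
    rw [PR.val_nsmul, map_pow] at h1
    exact (pow_eq_one_iff_of_nonneg zero_le three_ne_zero).1 h1
  G_smul w g hg x hx := (mem_Dec.1 hg x.val).trans hx
  K_smul w g hg x hx := rm_smul hg hx
  K_ine w _ σ hσ x hx := by
    change w.V ((σ • x - x).val - 1) < 1
    rw [PR.val_sub]
    exact rm_div (hσ.2 _ (le_of_eq hx)) hx
  K_tors w m hw x hx h := PR.ext (w.eq_one_of_root (d0b_ndvd hw m) (rm_pow h) hx)
  a_dvd _ := dvd_rfl
  es w φ _ hφ x hx := by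
    have h1 : φ • x - w.p • x ∈ rmK w := by
      change w.V ((φ • x - w.p • x).val - 1) < 1
      rw [PR.val_sub, PR.val_nsmul]
      exact rm_div (hφ.2 _ (le_of_eq hx)) (by rw [map_pow, show w.V x.val = 1 from hx, one_pow])
    have h2 := sub_mem (rm_smul hφ.1 h1) h1
    rw [smul_sub, smul_comm φ w.p] at h2
    rwa [add_zsmul, one_zsmul, natCast_zsmul, show φ • φ • x - (w.p • φ • x + φ • x) + w.p • x =
      φ • φ • x - w.p • φ • x - (φ • x - w.p • x) by abel]

theorem rm : RMStmt :=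
  ⟨rmM, rfl, fun _ => rfl, fun _ _ => Iff.rfl, fun _ _ => Iff.rfl,
    fun _ _ _ h => congrArg (![·, 0]) (rm_log h)⟩

end Pool.Agent.H3
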