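import Pool.Agent.Lib.MP_23455a_nt.H3.RD
import Pool.Agent.Lib.MP_23455a_nt.H3.KM

/-! Bases of Tate modules and the function that computes the Weil pairing. -/

set_option autoImplicit false

open scoped NNReal Classical
open Matrix

namespace Pool.Agent.H3.TA

open Pool.Agent.Lib.MP_696deb_nt.B2
open Pool.Agent.Lib.MP_696deb_nt (xco yco)
open Pool.Agent.Lib.MP_23455a_nt (mu e3)

/-- The quotient `σ(nu+v) σ(v)^(n-1) / (σ(u+v)^n σ(u)^(n(n-1)))`. -/
noncomputable def ppi (n : ℕ) (A B : PW) : Qbar :=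
  ∏ k ∈ Finset.range n, ∏ j ∈ Finset.range k, (xco A - xco ((j + 1) • A + B))

/-- The quotient `σ(nu+v) / σ(u+nv)` for `n = 3 ^ m`, up to functions of one variable. -/
noncomputable def wpsi (m : ℕ) (A B : PW) : Qbar := ppi (3 ^ m) A B / ppi (3 ^ m) B A

/-- Neither point is a multiple of the other. -/
def Gn (P Q : PW) : Prop := P ∉ AddSubgroup.zmultiples Q ∧ Q ∉ AddSubgroup.zmultiples P

/-- Reduction of a vector. -/
noncomputable def vred (m k : ℕ) (x : Fin 2 → ZMod (3 ^ (m + k))) (i : Fin 2) : ZMod (3 ^ m) :=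
  ZMod.castHom (pow_dvd_pow 3 (Nat.le_add_right m k)) (ZMod (3 ^ m)) (x i)

/-- A basis of the Tate module. -/
structure Emb (P : Type) [AddCommGroup P] where
  emb : (m : ℕ) → (Fin 2 → ZMod (3 ^ m)) →+ P
  inj : ∀ m, Function.Injective (emb m)
  surj : ∀ m x, 3 ^ m • x = 0 → ∃ v, emb m v = x
  three : ∀ m k x, 3 ^ k • emb (m + k) x = emb m (vred m k x)

/-- The Weil pairing is the determinant. -/
def Emb.Weil (E : Emb PW) : Prop := ∀ m, ∃ u : (ZMod (3 ^ m))ˣ, ∀ A B x y,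
  Gn (3 ^ m • A) (3 ^ m • B) → wpsi m (A + E.emb m x) (B + E.emb m y) * wpsi m A B =
    zeta m ^ (u * det2 x y).val * (wpsi m A (B + E.emb m y) * wpsi m (A + E.emb m x) B)

/-- A basis with the Galois representation. -/
structure TB (P : Type) [AddCommGroup P] [DistribMulAction Gam P] extends Emb P where
  ρ : Gam →* M3
  smul : ∀ m g x, g • emb m x = emb m (mred m (ρ g) *ᵥ x)

/-- A normalised basis for the curve of conductor twenty-seven. -/
structure TN extends TB PW where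
  weil : toEmb.Weil
  conj : ρ cc = tauM ℤ_[3]
  e0 : emb 1 ![1, 0] = mu (zeta 1 ^ 2)
  e1 : emb 1 ![0, 1] = T3

section

variable {P : Type} [AddCommGroup P] [DistribMulAction Gam P]

/-- Kummer cocycles are orthogonal. -/
def TB.Iso (T : TB P) : Prop := ∀ (m : ℕ) (D : Subgroup Gam) (x y : Gam → Fin 2 → ZMod (3 ^ m))
  (S S' : P), IsClosed (D : Set Gam) → (∀ g ∈ D, T.emb m (x g) = g • S - S) →
  (∀ g ∈ D, T.emb m (y g) = g • S' - S') →
  Spl m D fun g h => det2 (x g) (mred m (T.ρ g) *ᵥ y h)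

/-- The vector `v'` of level `m + 1` lies above the vector `v` of level `m`. -/
def Lft (m : ℕ) (v' : Fin 2 → ZMod (3 ^ (m + 1))) (v : Fin 2 → ZMod (3 ^ m)) : Prop :=
  v' 0 = 3 * ((v 0).val : ZMod (3 ^ (m + 1))) ∧ vred m 1 v' 1 = v 1

/-- The basis `T'` of the quotient curve is the image of the basis `T`. -/
structure Quo (T : TN) (φ : PW →+ P) (T' : TB P) : Prop where
  emb : ∀ m v' v, Lft m v' v → φ (T.emb (m + 1) v') = T'.emb m v
  r00 : ∀ g, T'.ρ g 0 0 = T.ρ g 0 0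
  r01 : ∀ g, 3 * T'.ρ g 0 1 = T.ρ g 0 1
  r10 : ∀ g, T'.ρ g 1 0 = 3 * T.ρ g 1 0
  r11 : ∀ g, T'.ρ g 1 1 = T.ρ g 1 1

end

theorem Gn.symm {A B : PW} (h : Gn A B) : Gn B A := ⟨h.2, h.1⟩

theorem Gn.of_nsmul {n : ℕ} {A B : PW} (h : Gn (n • A) (n • B)) : Gn A B := by
  have k : ∀ {A B : PW}, A ∈ AddSubgroup.zmultiples B → n • A ∈ AddSubgroup.zmultiples (n • B) := by
    rintro _ B ⟨c, rfl⟩
    exact ⟨c, smul_comm c n B⟩
  exact ⟨mt k h.1, mt k h.2⟩

theorem Gn.ne {A B : PW} (h : Gn A B) : A ≠ 0 := fun e => h.1 (e ▸ zero_mem _)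

theorem Gn.add_ne {A B : PW} (h : Gn A B) (k : ℕ) : k • A + B ≠ 0 := fun e =>
  h.2 (eq_neg_of_add_eq_zero_right e ▸ neg_mem (nsmul_mem (AddSubgroup.mem_zmultiples _) _))

theorem Gn.smul {A B : PW} (h : Gn A B) (g : Gam) : Gn (g • A) (g • B) := by
  have k : ∀ {A B : PW}, g • A ∈ AddSubgroup.zmultiples (g • B) → A ∈ AddSubgroup.zmultiples B := by
    rintro A B ⟨c, e⟩
    exact ⟨c, MulAction.injective g ((map_zsmul (DistribSMul.toAddMonoidHom PW g) c B).trans e)⟩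
  exact ⟨mt k h.1, mt k h.2⟩

theorem eq_or_of_xco {P Q : PW} (hP : P ≠ 0) (hQ : Q ≠ 0) (h : xco P = xco Q) :
    P = Q ∨ P = -Q := by
  rcases P with _ | ⟨x, y, hp⟩
  · exact absurd rfl hP
  rcases Q with _ | ⟨x', y', hq⟩
  · exact absurd rfl hQ
  exact WeierstrassCurve.Affine.Point.X_eq_iff.1 h

theorem smul_T3 (g : Gam) : g • T3 = T3 := Lib.MP_23455a_nt.pm_T _

theorem three_T3 : 3 • T3 = 0 := Lib.MP_23455a_nt.three_T

theorem T3_ne : T3 ≠ 0 := Lib.MP_23455a_nt.T_ne_zero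

theorem zeta_cube : zeta 1 ^ 3 = 1 := zeta_succ_cube 0

theorem smul_e3 (g : Gam) (i : ZMod 3) {w : Qbar} (hw : w ^ 3 = 1) :
    g • (e3 i w : PW) = e3 i (g w) := Lib.MP_23455a_nt.pm_e3 _ i hw

theorem mem_three {A : Type*} [AddCommGroup A] {P Q : A} (h : 3 • Q = 0)
    (e : P ∈ AddSubgroup.zmultiples Q) : P = 0 ∨ P = Q ∨ P = -Q := by
  obtain ⟨c, rfl⟩ := AddSubgroup.mem_zmultiples_iff.1 e
  have k : ∀ k : ℤ, (k * 3) • Q = 0 := fun k => by
    rw [mul_smul, show (3 : ℤ) • Q = 0 from (natCast_zsmul Q 3).trans h, smul_zero]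
  obtain ⟨a, rfl | rfl | rfl⟩ : ∃ a, c = a * 3 ∨ c = a * 3 + 1 ∨ c = a * 3 - 1 :=
    ⟨(c + 1) / 3, by omega⟩
  · exact .inl (k a)
  · exact .inr (.inl (by rw [add_smul, k, zero_add, one_smul]))
  · exact .inr (.inr (by rw [sub_smul, k, zero_sub, one_smul]))

theorem pw_third_pow (m : ℕ) (P : PW) : ∃ R : PW, 3 ^ m • R = P := by
  induction m with
  | zero => exact ⟨P, one_smul _ _⟩
  | succ m ih =>
    obtain ⟨R, rfl⟩ := ih
    obtain ⟨R, rfl⟩ := pw_third R
    exact ⟨R, by rw [pow_succ, mul_smul]⟩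

theorem mred_apply (m : ℕ) (A : M3) (i j : Fin 2) : mred m A i j = PadicInt.toZModPow m (A i j) :=
  rfl

theorem red_eq_iff {m : ℕ} {x y : ℤ_[3]} :
    PadicInt.toZModPow m x = PadicInt.toZModPow m y ↔ 3 ^ m ∣ x - y := by
  rw [← sub_eq_zero, ← map_sub, ← RingHom.mem_ker, PadicInt.ker_toZModPow,
    Ideal.mem_span_singleton, Nat.cast_ofNat]

theorem mred_ext {A B : M3} (h : ∀ m, mred m A = mred m B) : A = B :=
  Matrix.ext fun i j => PadicInt.ext_of_toZModPow.1 fun m => congrFun (congrFun (h m) i) j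

theorem vred_mulVec (m k : ℕ) (A : M3) (x : Fin 2 → ZMod (3 ^ (m + k))) :
    vred m k (mred (m + k) A *ᵥ x) = mred m A *ᵥ vred m k x := by
  funext i
  simp only [vred, mulVec, dotProduct, map_sum, map_mul, mred_apply, ZMod.castHom_apply,
    PadicInt.cast_toZModPow _ _ (Nat.le_add_right m k)]

variable {P : Type} [AddCommGroup P]

theorem Emb.tors (E : Emb P) (m : ℕ) (x : Fin 2 → ZMod (3 ^ m)) : 3 ^ m • E.emb m x = 0 := by
  rw [← map_nsmul, show 3 ^ m • x = 0 from funext fun i => by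
    rw [Pi.smul_apply, nsmul_eq_mul, ZMod.natCast_self, zero_mul, Pi.zero_apply], map_zero]

/-- Matrices are determined by their action on the torsion points. -/
theorem Emb.mat_ext (E : Emb P) {A B : M3}
    (h : ∀ m x, E.emb m (mred m A *ᵥ x) = E.emb m (mred m B *ᵥ x)) : A = B :=
  mred_ext fun m => Matrix.ext_of_mulVec_single fun _ => E.inj m (h m _)

variable [DistribMulAction Gam P]

theorem TB.mred_eq (T : TB P) {m : ℕ} {g : Gam} {A : Matrix (Fin 2) (Fin 2) (ZMod (3 ^ m))}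
    (h : ∀ x, g • T.emb m x = T.emb m (A *ᵥ x)) : mred m (T.ρ g) = A :=
  Matrix.ext_of_mulVec_single fun _ => T.inj m ((T.smul m g _).symm.trans (h _))

theorem TB.mred_eq_one (T : TB P) {m : ℕ} {g : Gam} (h : ∀ x : P, 3 ^ m • x = 0 → g • x = x) :
    mred m (T.ρ g) = 1 :=
  T.mred_eq fun x => by rw [one_mulVec, h _ (T.tors m x)]

theorem TB.sm (T : TB P) (h : ∀ x : P, Sm ⊤ fun g => g • x) (m : ℕ) :
    Sm ⊤ fun g => mred m (T.ρ g) :=
  ((Sm.pi fun j : Fin 2 => h (T.emb m (Pi.single j 1))).comp fun P =>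
    of fun i j => Function.invFun (T.emb m) (P j) i).congr fun g _ => Matrix.ext fun i j => by
      rw [of_apply, T.smul, Function.leftInverse_invFun (T.inj m), mulVec_single_one, col_apply]

end Pool.Agent.H3.TA
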