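import Pool.Agent.Lib.MP_23455a_nt.H3.TA0
import Pool.Agent.Shared.Weier.Leg
import Pool.Agent.Shared.Weier.Unif
import Pool.Agent.Lib.MP_696deb_nt.UnifP

/-! The period lattice gives a basis of the Tate module. -/

set_option autoImplicit false

open scoped NNReal Classical Real PeriodPair
open Matrix Complex Pool.Agent.Shared.Weier

namespace Pool.Agent.H3.TA

open Pool.Agent.Lib.MP_696deb_nt.B2
open Pool.Agent.Lib.MP_696deb_nt (xco yco)
open Pool.Agent.Lib.MP_23455a_nt (W27 pm mu e3 pm_inj)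

theorem taa_per : ∃ L : PeriodPair, IsPer L (W27.baseChange ℂ) := by
  obtain ⟨τ, hτ⟩ := Lib.MP_696deb_nt.Unif.exists_E_rel (x := 1) (y := 0) one_ne_zero
  have h4 : ModularForm.E₄ τ = 0 := by simpa using hτ
  have h6 : ModularForm.E₆ τ ≠ 0 := fun h => Lib.MP_696deb_nt.Unif.E_ne τ (by rw [h4, h]; ring)
  have hz : riemannZeta (6 : ℕ) ≠ 0 := riemannZeta_ne_zero_of_one_lt_re (by simp)
  obtain ⟨c, hc⟩ := IsAlgClosed.exists_pow_nat_eq
    (140 * (2 * riemannZeta (6 : ℕ) * ModularForm.E₆ τ) / 27) (n := 6) (by norm_num)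
  have hc0 : c ≠ 0 := by
    rintro rfl
    exact div_ne_zero (mul_ne_zero (by norm_num) (mul_ne_zero (mul_ne_zero two_ne_zero hz) h6))
      (by norm_num) (hc.symm.trans (by norm_num))
  refine ⟨Lib.MP_696deb_nt.Unif.pairOf τ hc0, ?_, ?_⟩
  · rw [PeriodPair.g₂, Lib.MP_696deb_nt.Unif.G_pairOf τ hc0 (by norm_num : 3 ≤ 4),
      show ModularForm.E _ τ = 0 from h4]
    simp [W27, WeierstrassCurve.c₄, WeierstrassCurve.b₂, WeierstrassCurve.b₄]
  · rw [PeriodPair.g₃, Lib.MP_696deb_nt.Unif.G_pairOf τ hc0 (by norm_num : 3 ≤ 6), hc,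
      show (W27.baseChange ℂ).c₆ = 216 * 27 by
        simp [W27, WeierstrassCurve.c₆, WeierstrassCurve.b₂, WeierstrassCurve.b₄,
          WeierstrassCurve.b₆]
        norm_num]
    field_simp

/-- The period lattice. -/
noncomputable def taaL : PeriodPair := taa_per.choose

theorem taa_isPer : IsPer taaL (W27.baseChange ℂ) := taa_per.choose_spec

/-- The uniformization. -/
noncomputable def taaU : ℂ →+ PC := taa_isPer.unif

theorem taa_alg (m : ℕ) {R : PC} (h : 3 ^ m • R = 0) : ∃ P : PW, pm jC P = R := by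
  induction m generalizing R with
  | zero => exact ⟨0, (map_zero _).trans ((one_smul ℕ R).symm.trans h).symm⟩
  | succ m ih =>
    obtain ⟨P, hP⟩ := ih (R := 3 • R) (by rw [← mul_smul, ← pow_succ, h])
    obtain ⟨Q, rfl⟩ := pw_third P
    have e : 3 • (R - pm jC Q) = 0 := by rw [smul_sub, ← map_nsmul, hP, sub_self]
    obtain ⟨i, w, hw, k⟩ := Lib.MP_23455a_nt.exists_e3 e
    obtain ⟨a, -, rfl⟩ := ((zeta_prim 1).map_of_injective jC.injective).eq_pow_of_pow_eq_one hw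
    refine ⟨e3 i (zeta 1 ^ a) + Q, ?_⟩
    rw [map_add, Lib.MP_23455a_nt.pm_e3 _ i (by rw [← pow_mul, mul_comm, pow_mul, zeta_cube,
      one_pow]), map_pow, ← k, sub_add_cancel]

/-- The sigma function. -/
noncomputable abbrev taaS : ℂ → ℂ := Shared.Weier.sig taaL

/-- A lattice vector. -/
noncomputable def taaV (a b : ℤ) : ℂ := a * taaL.ω₁ + b * taaL.ω₂

theorem taa_mem (a b : ℤ) : taaV a b ∈ taaL.lattice := PeriodPair.mem_lattice.2 ⟨a, b, rfl⟩

theorem taa_ne (m : ℕ) : (3 : ℂ) ^ m ≠ 0 := pow_ne_zero _ three_ne_zero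

theorem taa_zero {z : ℂ} : taaU z = 0 ↔ z ∈ taaL.lattice := taa_isPer.unif_eq_zero_iff

theorem taa_nsmul (m : ℕ) (u : ℂ) : 3 ^ m • taaU u = taaU (3 ^ m * u) := by
  rw [← map_nsmul, nsmul_eq_mul, Nat.cast_pow, Nat.cast_ofNat]

theorem taa_iff {m : ℕ} {a b c d : ℤ} : taaU (taaV a b / 3 ^ m) = taaU (taaV c d / 3 ^ m) ↔
    (a : ZMod (3 ^ m)) = c ∧ (b : ZMod (3 ^ m)) = d := by
  rw [taaU, taa_isPer.unif_eq_iff, PeriodPair.mem_lattice, eq_comm,
    ZMod.intCast_eq_intCast_iff_dvd_sub, eq_comm (a := (b : ZMod (3 ^ m))),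
    ZMod.intCast_eq_intCast_iff_dvd_sub]
  have := taa_ne m
  constructor
  · rintro ⟨s, t, e⟩
    obtain ⟨h1, h2⟩ := LinearIndependent.pair_iff.1 taaL.indep (a - c - 3 ^ m * s)
      (b - d - 3 ^ m * t) (by
        simp only [real_smul, taaV] at e ⊢
        field_simp at e
        push_cast
        linear_combination -e)
    exact ⟨⟨s, by exact_mod_cast sub_eq_zero.1 h1⟩, t, by exact_mod_cast sub_eq_zero.1 h2⟩
  · rintro ⟨⟨s, hs⟩, t, ht⟩
    refine ⟨s, t, ?_⟩
    rw [eq_add_of_sub_eq hs, eq_add_of_sub_eq ht, taaV, taaV]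
    push_cast
    field_simp
    ring

theorem taa_ex (m : ℕ) (x : Fin 2 → ZMod (3 ^ m)) : ∃ P : PW, ∀ a b : ℤ, (a : ZMod (3 ^ m)) = x 0 →
    (b : ZMod (3 ^ m)) = x 1 → pm jC P = taaU (taaV a b / 3 ^ m) := by
  obtain ⟨P, hP⟩ := taa_alg m (R := taaU (taaV (x 0).val (x 1).val / 3 ^ m)) (by
    rw [taa_nsmul, mul_div_cancel₀ _ (taa_ne m), taa_zero]
    exact taa_mem _ _)
  exact ⟨P, fun a b ha hb => hP.trans (taa_iff.2 ⟨by simp [ha], by simp [hb]⟩)⟩

theorem taa_int {m : ℕ} (z : ZMod (3 ^ m)) : ((z.val : ℤ) : ZMod (3 ^ m)) = z := by simp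

/-- The torsion points. -/
noncomputable def taaE (m : ℕ) : (Fin 2 → ZMod (3 ^ m)) →+ PW :=
  AddMonoidHom.mk' (fun x => (taa_ex m x).choose) fun x y => pm_inj jC (by
    rw [map_add, (taa_ex m x).choose_spec _ _ (taa_int _) (taa_int _),
      (taa_ex m y).choose_spec _ _ (taa_int _) (taa_int _),
      (taa_ex m (x + y)).choose_spec ((x 0).val + (y 0).val) ((x 1).val + (y 1).val) (by simp)
        (by simp), ← map_add, taaV, taaV, taaV]
    push_cast
    ring_nf)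

theorem taa_spec {m : ℕ} {x : Fin 2 → ZMod (3 ^ m)} {a b : ℤ} (ha : (a : ZMod (3 ^ m)) = x 0)
    (hb : (b : ZMod (3 ^ m)) = x 1) : pm jC (taaE m x) = taaU (taaV a b / 3 ^ m) :=
  (taa_ex m x).choose_spec a b ha hb

variable {A B : PW} {u v : ℂ}

theorem taa_sig (h : pm jC A = taaU u) (h0 : A ≠ 0) : u ∉ taaL.lattice := fun k =>
  h0 (pm_inj jC (by rw [h, taa_zero.2 k, map_zero]))

theorem taa_x (h : pm jC A = taaU u) (h0 : A ≠ 0) : jC (xco A) = ℘[taaL] u := by
  have e : jC (xco A) = xco (pm jC A) := by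
    rcases A with _ | ⟨x, y, k⟩
    exacts [absurd rfl h0, rfl]
  rw [e, h, taaU, taa_isPer.unif_of_notMem (taa_sig h h0), Lib.MP_696deb_nt.xco_some, ux]
  simp [W27, WeierstrassCurve.b₂]

theorem taa_add (h : pm jC A = taaU u) (k : pm jC B = taaU v) :
    pm jC (A + B) = taaU (u + v) := by rw [map_add, map_add, h, k]

theorem taa_mul (h : pm jC A = taaU u) (n : ℕ) : pm jC (n • A) = taaU (n * u) := by
  rw [map_nsmul, h, ← map_nsmul, nsmul_eq_mul]

theorem taa_pow (h : pm jC A = taaU u) (m : ℕ) : pm jC (3 ^ m • A) = taaU (3 ^ m * u) := by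
  rw [map_nsmul, h, taa_nsmul]

theorem taa_tel {s : ℕ → ℂ} {a : ℂ} (hs : ∀ k, s k ≠ 0) (ha : a ≠ 0) (n : ℕ) :
    ∏ k ∈ Finset.range n, ∏ j ∈ Finset.range k, s (j + 2) * s j / (a ^ 2 * s (j + 1) ^ 2) =
      s n * s 0 ^ n / (s 0 * s 1 ^ n * ∏ k ∈ Finset.range n, a ^ (2 * k)) := by
  have h0 := hs 0
  have h1 := hs 1
  have e : ∀ k, ∏ j ∈ Finset.range k, s (j + 2) * s j / (a ^ 2 * s (j + 1) ^ 2) =
      s (k + 1) * s 0 / (s k * s 1 * a ^ (2 * k)) := fun k => by
    induction k with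
    | zero =>
      simp only [Finset.range_zero, Finset.prod_empty, zero_add, mul_zero, pow_zero]
      field_simp
    | succ k ih =>
      have := hs k
      have := hs (k + 1)
      rw [Finset.prod_range_succ, ih, mul_add, pow_add]
      field_simp
  simp only [e]
  induction n with
  | zero => simp [h0]
  | succ n ih =>
    have := hs n
    have : ∏ k ∈ Finset.range n, a ^ (2 * k) ≠ 0 :=
      Finset.prod_ne_zero_iff.2 fun k _ => pow_ne_zero _ ha
    rw [Finset.prod_range_succ, ih, Finset.prod_range_succ, pow_succ, pow_succ]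
    field_simp

theorem taa_ppi (n : ℕ) (h : pm jC A = taaU u) (k : pm jC B = taaU v) (hw : Gn A B) :
    jC (ppi n A B) = taaS (n * u + v) * taaS v ^ n /
      (taaS v * taaS (u + v) ^ n * ∏ i ∈ Finset.range n, taaS u ^ (2 * i)) := by
  have a1 := taa_sig h hw.ne
  have a2 := fun i : ℕ => taa_sig (taa_add (taa_mul h i) k) (hw.add_ne i)
  have e := taa_tel (s := fun i : ℕ => taaS (i * u + v)) (fun i => sig_ne (a2 i)) (sig_ne a1) n
  simp only [Nat.cast_zero, zero_mul, zero_add, Nat.cast_one, one_mul] at e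
  rw [← e, ppi, map_prod]
  refine Finset.prod_congr rfl fun i _ => ?_
  rw [map_prod]
  refine Finset.prod_congr rfl fun j _ => ?_
  rw [map_sub, taa_x h hw.ne, taa_x (taa_add (taa_mul h _) k) (hw.add_ne _), wp_sub a1 (a2 _),
    show u + (((j + 1 : ℕ) : ℂ) * u + v) = ((j + 2 : ℕ) : ℂ) * u + v by push_cast; ring,
    show u - (((j + 1 : ℕ) : ℂ) * u + v) = -(j * u + v) by push_cast; ring, sig_neg, mul_neg,
    neg_neg]

/-- The factor that depends on one variable. -/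
noncomputable def taaF (n : ℕ) (u : ℂ) : ℂ :=
  taaS u ^ n / taaS u * ∏ i ∈ Finset.range n, taaS u ^ (2 * i)

theorem taa_psi (m : ℕ) (h : pm jC A = taaU u) (k : pm jC B = taaU v) (hw : Gn A B) :
    jC (wpsi m A B) = taaS (3 ^ m * u + v) / taaS (u + 3 ^ m * v) * taaF (3 ^ m) v *
      (taaF (3 ^ m) u)⁻¹ := by
  have := pow_ne_zero (3 ^ m) (sig_ne (taa_sig (taa_add h k) (by simpa using hw.add_ne 1)))
  rw [wpsi, map_div₀, taa_ppi _ h k hw, taa_ppi _ k h hw.symm, taaF, taaF, add_comm v u,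
    add_comm _ u, Nat.cast_pow, Nat.cast_ofNat]
  simp only [div_eq_mul_inv, mul_inv, inv_inv]
  linear_combination (taaS (3 ^ m * u + v) * taaS v ^ 3 ^ m * (taaS v)⁻¹ *
    (∏ i ∈ Finset.range (3 ^ m), taaS u ^ (2 * i))⁻¹ * (taaS (u + 3 ^ m * v))⁻¹ *
    (taaS u ^ 3 ^ m)⁻¹ * taaS u * ∏ i ∈ Finset.range (3 ^ m), taaS v ^ (2 * i)) *
    inv_mul_cancel₀ this

theorem taa_root (m : ℕ) : ∃ k : ℕ, k.Coprime (3 ^ m) ∧
    jC (zeta m) ^ k = cexp (leg taaL / 3 ^ m) := by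
  have h1 : IsPrimitiveRoot (jC (zeta m)) (3 ^ m) := (zeta_prim m).map_of_injective jC.injective
  have h2 := isPrimitiveRoot_exp (3 ^ m) (by positivity)
  have h3 : IsPrimitiveRoot (cexp (leg taaL / 3 ^ m)) (3 ^ m) := by
    rcases legendre (L := taaL) with e | e <;> rw [e]
    · simpa using h2
    · simpa [neg_div, exp_neg] using h2.inv
  obtain ⟨k, -, e⟩ := h1.eq_pow_of_pow_eq_one h3.pow_eq_one
  exact ⟨k, (h1.pow_iff_coprime (by positivity) k).1 (e ▸ h3), e⟩

theorem taa_weil (m : ℕ) : ∃ u : (ZMod (3 ^ m))ˣ, ∀ A B x y, Gn (3 ^ m • A) (3 ^ m • B) →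
    wpsi m (A + taaE m x) (B + taaE m y) * wpsi m A B =
      zeta m ^ (u * det2 x y).val * (wpsi m A (B + taaE m y) * wpsi m (A + taaE m x) B) := by
  obtain ⟨k, k1, k2⟩ := taa_root m
  refine ⟨ZMod.unitOfCoprime k k1, fun A B x y h => jC.injective ?_⟩
  obtain ⟨u, hu : taaU u = _⟩ := taa_isPer.unif_surjective (pm jC A)
  obtain ⟨v, hv : taaU v = _⟩ := taa_isPer.unif_surjective (pm jC B)
  obtain ⟨a, ha⟩ := ZMod.intCast_surjective (x 0)
  obtain ⟨b, hb⟩ := ZMod.intCast_surjective (x 1)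
  obtain ⟨c, hc⟩ := ZMod.intCast_surjective (y 0)
  obtain ⟨d, hd⟩ := ZMod.intCast_surjective (y 1)
  have n0 := taa_ne m
  have t : ∀ (A : PW) x, 3 ^ m • (A + taaE m x) = 3 ^ m • A := fun A x => by
    rw [smul_add, ← map_nsmul, show 3 ^ m • x = 0 from funext fun i => by
      rw [Pi.smul_apply, nsmul_eq_mul, ZMod.natCast_self, zero_mul, Pi.zero_apply], map_zero,
      add_zero]
  have hu' := taa_add hu.symm (taa_spec ha hb)
  have hv' := taa_add hv.symm (taa_spec hc hd)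
  have g2 : Gn (3 ^ m • (A + taaE m x)) (3 ^ m • B) := by rwa [t]
  have s1 := sig_ne (taa_sig (taa_add hu.symm (taa_pow hv.symm m))
    (by rw [add_comm]; exact h.of_nsmul.symm.add_ne _))
  have s2 := sig_ne (taa_sig (taa_add hu' (taa_pow hv.symm m))
    (by rw [add_comm]; exact g2.of_nsmul.symm.add_ne _))
  have z : jC (zeta m ^ (ZMod.unitOfCoprime k k1 * det2 x y).val) =
      cexp (Shared.Weier.eta taaL (taaV a b) * (taaV c d / 3 ^ m) -
        Shared.Weier.eta taaL (taaV c d) * (taaV a b / 3 ^ m)) := by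
    obtain ⟨s, hs⟩ := (ZMod.intCast_eq_intCast_iff_dvd_sub
      ((ZMod.unitOfCoprime k k1 * det2 x y).val : ℤ) (k * (a * d - b * c)) (3 ^ m)).1 (by
        simp [det2, ha, hb, hc, hd])
    have z0 : jC (zeta m) ^ 3 ^ m = 1 := by rw [← map_pow, (zeta_prim m).pow_eq_one, map_one]
    have z1 : jC (zeta m) ≠ 0 := fun e => by simp [e] at z0
    rw [map_pow, ← zpow_natCast, ← sub_eq_iff_eq_add.2 (sub_eq_iff_eq_add'.1 hs), zpow_sub₀ z1,
      _root_.zpow_mul, _root_.zpow_mul, zpow_natCast, zpow_natCast, z0, k2, _root_.one_zpow,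
      div_one, ← exp_int_mul, taaV, taaV, eta_lattice, eta_lattice, leg]
    congr 1
    push_cast
    ring
  obtain ⟨e, -, -, e1⟩ := sig_add (taa_mem a b)
  obtain ⟨e', he, -, e2⟩ := sig_add (taa_mem c d)
  have e0 : e' ≠ 0 := by rcases he with rfl | rfl <;> simp
  rw [map_mul, map_mul, map_mul, z, taa_psi m hu' hv' (Gn.of_nsmul (n := 3 ^ m) (by rwa [t, t])),
    taa_psi m hu.symm hv.symm h.of_nsmul,
    taa_psi m hu.symm hv' (Gn.of_nsmul (n := 3 ^ m) (by rwa [t])),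
    taa_psi m hu' hv.symm g2.of_nsmul]
  generalize taaV a b = l at *
  generalize taaV c d = l' at *
  simp only [mul_add (3 ^ m : ℂ), mul_div_cancel₀ _ n0, add_right_comm _ l, ← add_assoc _ _ l', e1,
    e2]
  generalize (taaF (3 ^ m) u)⁻¹ = c1
  generalize (taaF (3 ^ m) (u + l / 3 ^ m))⁻¹ = c2
  simp only [mul_add, exp_add, exp_sub]
  field_simp

theorem exists_emb : ∃ E : Emb PW, E.Weil := by
  refine ⟨⟨taaE, fun m x y h => ?_, fun m P h => ?_, fun m k x => pm_inj jC ?_⟩, taa_weil⟩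
  · have e := congrArg (pm jC) h
    rw [taa_spec (taa_int _) (taa_int _), taa_spec (taa_int _) (taa_int _), taa_iff, taa_int,
      taa_int, taa_int, taa_int] at e
    funext i
    fin_cases i
    exacts [e.1, e.2]
  · obtain ⟨u, hu : taaU u = _⟩ := taa_isPer.unif_surjective (pm jC P)
    obtain ⟨a, b, e⟩ := PeriodPair.mem_lattice.1 (taa_zero.1
      ((taa_pow hu.symm m).symm.trans (by rw [h, map_zero])))
    refine ⟨![a, b], pm_inj jC ?_⟩
    rw [taa_spec (a := a) (b := b) rfl rfl, taaV, e, mul_div_cancel_left₀ _ (taa_ne m), hu]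
  · rw [taa_pow (taa_spec (taa_int _) (taa_int _)),
      taa_spec (a := (x 0).val) (b := (x 1).val) (by simp [vred]) (by simp [vred]), pow_add (3 : ℂ)]
    congr 1
    have := taa_ne m
    have := taa_ne k
    field_simp

end Pool.Agent.H3.TA
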