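import Pool.Agent.Lib.MP_23455a_nt.H3.TA0

/-! The Galois representation and its determinant. -/

set_option autoImplicit false

open scoped NNReal Classical
open Matrix

namespace Pool.Agent.H3.TA

open Pool.Agent.Lib.MP_696deb_nt.B2
open Pool.Agent.Lib.MP_696deb_nt (xco yco)
open Pool.Agent.Lib.MP_23455a_nt (mu e3)

theorem wpsi_smul (g : Gam) (m : ℕ) (A B : PW) : g (wpsi m A B) = wpsi m (g • A) (g • B) := by
  simp only [wpsi, ppi, map_div₀, map_prod, map_sub, ← xco_smul, smul_add, smul_comm g]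

theorem tab_ppi (n : ℕ) {A B : PW} (h : Gn A B) : ppi n A B ≠ 0 := by
  refine Finset.prod_ne_zero_iff.2 fun k _ => Finset.prod_ne_zero_iff.2 fun j _ e => ?_
  rcases eq_or_of_xco h.ne (h.add_ne _) (sub_eq_zero.1 e) with e | e
  · exact h.add_ne j (by rwa [succ_nsmul', add_assoc, left_eq_add] at e)
  · exact h.add_ne (j + 1 + 1) (by rw [succ_nsmul', add_assoc]; exact add_eq_zero_iff_eq_neg.2 e)

theorem wpsi_ne (m : ℕ) {A B : PW} (h : Gn A B) : wpsi m A B ≠ 0 :=
  div_ne_zero (tab_ppi _ h) (tab_ppi _ h.symm)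

section

variable {P : Type} [AddCommGroup P]

/-- The matrix of an endomorphism. -/
theorem Emb.exists_mat (E : Emb P) (f : P →+ P) :
    ∃ A : M3, ∀ m x, f (E.emb m x) = E.emb m (mred m A *ᵥ x) := by
  choose F hF using fun (m : ℕ) (x : Fin 2 → ZMod (3 ^ m)) =>
    E.surj m (f (E.emb m x)) (by rw [← map_nsmul, E.tors, map_zero])
  choose r hr using fun i j : Fin 2 => exists_lim (fun m => F m (Pi.single j 1) i)
    fun m => congrFun (E.inj m ((E.three m 1 (F (m + 1) (Pi.single j 1))).symm.trans (by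
      rw [hF, hF m (Pi.single j 1), ← map_nsmul, E.three]
      congr 2
      funext l
      rw [vred, Pi.single_apply, Pi.single_apply, apply_ite (ZMod.castHom _ _), map_one,
        map_zero]))) i
  refine ⟨of r, fun m x => ?_⟩
  have e : x = (x 0).val • Pi.single 0 1 + (x 1).val • Pi.single 1 1 := by
    funext i
    rw [Pi.add_apply, Pi.smul_apply, Pi.smul_apply]
    fin_cases i <;> simp
  have e' : ∀ j, mred m (of r) *ᵥ Pi.single j 1 = F m (Pi.single j 1) := fun j => by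
    funext i
    rw [mulVec_single_one, col_apply, mred_apply, of_apply, hr]
  rw [e, mulVec_add, mulVec_smul, mulVec_smul, e', e']
  simp only [map_add, map_nsmul, hF]

theorem Emb.exists_rho [DistribMulAction Gam P] (E : Emb P) : ∃ T : TB P, T.toEmb = E := by
  choose r k using fun g : Gam => E.exists_mat (DistribSMul.toAddMonoidHom P g)
  replace k : ∀ m (g : Gam) x, g • E.emb m x = E.emb m (mred m (r g) *ᵥ x) := fun m g => k g m
  refine ⟨⟨E, ⟨⟨r, E.mat_ext fun m x => ?_⟩, fun g h => E.mat_ext fun m x => ?_⟩, k⟩, rfl⟩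
  · rw [← k, mred_one, one_mulVec, one_smul]
  · rw [← k, mred_mul, ← mulVec_mulVec, ← k, ← k, mul_smul]

end

theorem Emb.exists_change (E : Emb PW) (hE : E.Weil) {B : M3} (h : IsUnit B.det) :
    ∃ E' : Emb PW, E'.Weil ∧ ∀ m x, E'.emb m x = E.emb m (mred m B *ᵥ x) := by
  obtain ⟨⟨B, C, h1, h2⟩, rfl⟩ := (isUnit_iff_isUnit_det B).2 h
  refine ⟨⟨fun m => (E.emb m).comp (mulVecLin (mred m B)).toAddMonoidHom, fun m x y e => ?_,
    fun m P e => ?_, fun m k x => (E.three m k _).trans (congrArg _ (vred_mulVec m k B x))⟩,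
    fun m => ?_, fun _ _ => rfl⟩
  · have e' : mred m C *ᵥ mred m B *ᵥ x = mred m C *ᵥ mred m B *ᵥ y :=
      congrArg (mred m C *ᵥ ·) (E.inj m e)
    rwa [mulVec_mulVec, mulVec_mulVec, ← mred_mul, h2, mred_one, one_mulVec, one_mulVec] at e'
  · obtain ⟨x, rfl⟩ := E.surj m P e
    refine ⟨mred m C *ᵥ x, congrArg (E.emb m) (?_ : mred m B *ᵥ mred m C *ᵥ x = x)⟩
    rw [mulVec_mulVec, ← mred_mul, h1, mred_one, one_mulVec]
  · obtain ⟨u, hu⟩ := hE m
    refine ⟨u * (h.map (PadicInt.toZModPow m)).unit, fun A A' x y k => (hu A A' _ _ k).trans ?_⟩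
    rw [Units.val_mul, IsUnit.unit_spec, mul_assoc, ← mred_det, ← det2_mulVec]
    rfl

open Lib.MP_23455a_nt in
theorem gn_T3 : Gn T3 (mu (zeta 1)) := by
  have h1 : T3 = e3 1 1 := by rw [← Nat.cast_one, e3_nat, mu_one, one_smul, add_zero, T3]
  have h2 : (1 : Qbar) ^ 3 = 1 := one_pow 3
  have h3 : (zeta 1)⁻¹ ^ 3 = 1 := by rw [inv_pow, zeta_cube, inv_one]
  rw [h1, ← e3_zero]
  constructor <;> intro e
  · rcases mem_three (three_e3 0 zeta_cube) e with e | e | e
    · exact absurd (e3_eq_zero h2 e).1 (by decide)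
    · exact absurd (e3_inj h2 zeta_cube e).1 (by decide)
    · exact absurd (e3_inj h2 h3 (e.trans (neg_e3 0 zeta_cube))).1 (by decide)
  · rcases mem_three (three_e3 1 h2) e with e | e | e
    · exact zeta_one_ne (e3_eq_zero zeta_cube e).2
    · exact zeta_one_ne (e3_inj zeta_cube h2 e).2
    · exact zeta_one_ne ((e3_inj zeta_cube (by simp) (e.trans (neg_e3 1 h2))).2.trans inv_one)

theorem TB.det (T : TB PW) (h : T.Weil) (g : Gam) : (T.ρ g).det = cyc g := by
  refine PadicInt.ext_of_toZModPow.1 fun m => ?_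
  obtain ⟨u, hu⟩ := h m
  obtain ⟨A, hA⟩ := pw_third_pow m T3
  obtain ⟨B, hB⟩ := pw_third_pow m (mu (zeta 1))
  have k : Gn (3 ^ m • A) (3 ^ m • B) := hA ▸ hB ▸ gn_T3
  have k' : Gn (3 ^ m • g • A) (3 ^ m • g • B) := by
    rw [smul_comm, smul_comm _ g]
    exact k.smul g
  have e := congrArg g (hu A B ![1, 0] ![0, 1] k)
  simp only [map_mul, wpsi_smul, smul_add, T.smul, smul_zeta_val] at e
  rw [hu _ _ _ _ k', det2_mulVec, mred_det] at e
  have e' := zeta_val_inj (mul_right_cancel₀ (mul_ne_zero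
    (wpsi_ne m (Gn.of_nsmul (n := 3 ^ m) (by rwa [smul_add, T.tors, add_zero])))
    (wpsi_ne m (Gn.of_nsmul (n := 3 ^ m) (by rwa [smul_add, T.tors, add_zero])))) e)
  simpa [det2, cy, mul_comm] using e'

end Pool.Agent.H3.TA
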