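import Pool.Agent.Lib.MP_23455a_nt.H3.TAb
import Pool.Agent.Lib.MP_23455a_nt.H3.CLa
import Pool.Agent.Lib.MP_696deb_nt.B2.CLb

/-! Kummer cocycles are orthogonal for the Weil pairing. -/

set_option autoImplicit false

open scoped NNReal Classical
open Matrix

namespace Pool.Agent.H3.TA

open Pool.Agent.Lib.MP_696deb_nt.B2
open Pool.Agent.Lib.MP_696deb_nt (xco yco)
open Pool.Agent.Lib.MP_23455a_nt (mu e3)

section

variable {P : Type} [AddCommGroup P] [DistribMulAction Gam P] (T : TB P) {m : ℕ}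
  {D : Subgroup Gam} {x y z : Gam → Fin 2 → ZMod (3 ^ m)} {S S' R : P}

/-- `x` is the Kummer cocycle of `S`. -/
def tacK (D : Subgroup Gam) (x : Gam → Fin 2 → ZMod (3 ^ m)) (S : P) : Prop :=
  ∀ g ∈ D, T.emb m (x g) = g • S - S

/-- The cup product. -/
noncomputable def tacU (x y : Gam → Fin 2 → ZMod (3 ^ m)) (g h : Gam) : ZMod (3 ^ m) :=
  det2 (x g) (mred m (T.ρ g) *ᵥ y h)

theorem tac_mul (g h : Gam) (a : Fin 2 → ZMod (3 ^ m)) :
    mred m (T.ρ (g * h)) *ᵥ a = mred m (T.ρ g) *ᵥ mred m (T.ρ h) *ᵥ a := by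
  rw [map_mul, mred_mul, mulVec_mulVec]

variable {T}

theorem tac_det (hd : ∀ g, (T.ρ g).det = cyc g) (g : Gam) (a b : Fin 2 → ZMod (3 ^ m)) :
    det2 (mred m (T.ρ g) *ᵥ a) (mred m (T.ρ g) *ᵥ b) = cy m g * det2 a b := by
  rw [det2_mulVec, mred_det, hd, cy]

theorem tacK.coc (hx : tacK T D x S) {g h : Gam} (hg : g ∈ D) (hh : h ∈ D) :
    x (g * h) = x g + mred m (T.ρ g) *ᵥ x h := T.inj m (by
  rw [map_add, ← T.smul, hx _ hg, hx _ hh, hx _ (mul_mem hg hh), smul_sub, mul_smul]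
  abel)

theorem tacK.fix (hx : tacK T D x S) {g : Gam} (hg : g ∈ D) : g • 3 ^ m • S = 3 ^ m • S := by
  rw [smul_comm, ← sub_eq_zero, ← smul_sub, ← hx g hg, T.tors]

theorem tacK.add (hx : tacK T D x S) (hy : tacK T D y S') : tacK T D (x + y) (S + S') :=
  fun g hg => by
    rw [Pi.add_apply, map_add, hx g hg, hy g hg, smul_add]
    abel

theorem tac_ex (h : ∀ g ∈ D, g • 3 ^ m • R = 3 ^ m • R) :
    ∃ z : Gam → Fin 2 → ZMod (3 ^ m), tacK T D z R := by
  choose! z hz using fun g (hg : g ∈ D) =>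
    T.surj m (g • R - R) (by rw [smul_sub, smul_comm, h g hg, sub_self])
  exact ⟨z, hz⟩

theorem tac_lin {c c' c'' : Gam → Gam → ZMod (3 ^ m)} (h : Spl m D c) (h' : Spl m D c')
    (a a' : ZMod (3 ^ m)) (e : ∀ g ∈ D, ∀ k ∈ D, c'' g k = a * c g k + a' * c' g k) :
    Spl m D c'' := by
  obtain ⟨b, b1, b2⟩ := h
  obtain ⟨b', b1', b2'⟩ := h'
  refine ⟨fun g => a * b g + a' * b' g, b1.comp₂ b1' fun s t => a * s + a' * t,
    fun g hg k hk => ?_⟩
  rw [e g hg k hk, b2 g hg k hk, b2' g hg k hk]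
  ring

theorem tac_z {t : P} (h : 3 • t = 0) (k : ℤ) : (3 * k) • t = 0 := by
  rw [mul_comm, mul_smul, show (3 : ℤ) • t = 0 from (natCast_zsmul t 3).trans h, smul_zero]

theorem tac_sq {t : P} (h : 3 • t = 0) (c : ℤ) : 3 ∣ c ∨ c • c • t = t := by
  have k : ∀ k : ℤ, c * c - 1 = 3 * k → c • c • t = t := fun k e => by
    rw [← mul_smul, eq_add_of_sub_eq e, add_smul, tac_z h, zero_add, one_smul]
  obtain e | ⟨a, e⟩ | ⟨a, e⟩ : 3 ∣ c ∨ 3 ∣ c - 1 ∨ 3 ∣ c + 1 := by omega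
  · exact Or.inl e
  · exact Or.inr (k (a * (c + 1)) (by linear_combination (c + 1) * e))
  · exact Or.inr (k (a * (c - 1)) (by linear_combination (c - 1) * e))

variable (hs : ∀ x : P, Sm ⊤ fun g => g • x)
include hs

theorem tacK.sm (hx : tacK T D x S) : Sm D x :=
  (((hs S).mono le_top).comp fun Q => Function.invFun (T.emb m) (Q - S)).congr fun g hg => by
    rw [← hx g hg, Function.leftInverse_invFun (T.inj m)]

variable (hd : ∀ g, (T.ρ g).det = cyc g)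
include hd

theorem tac_c2 (hx : tacK T D x S) (hy : tacK T D y S') : C2 m D (tacU T x y) := by
  refine ⟨(((hx.sm hs).comp₂ ((T.sm hs m).mono le_top) Prod.mk).left.comp₂ (hy.sm hs).right
    fun a b => det2 a.1 (a.2 *ᵥ b)), fun g hg h hh k hk => ?_⟩
  simp only [tacU]
  rw [← tac_det hd, hx.coc hg hh, hy.coc hh hk, tac_mul, mulVec_add]
  simp only [det2, Pi.add_apply]
  ring

theorem tac_swap (hx : tacK T D x S) (hy : tacK T D y S') (h : Spl m D (tacU T y x)) :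
    Spl m D (tacU T x y) := by
  refine tac_lin h (c' := fun g k => tacU T x y g k - tacU T y x g k)
    ⟨fun g => det2 (y g) (x g), (hy.sm hs).comp₂ (hx.sm hs) det2, fun g hg k hk => ?_⟩ 1 1
    fun _ _ _ _ => by ring
  simp only [tacU]
  rw [← tac_det hd, hx.coc hg hk, hy.coc hg hk]
  simp only [det2, Pi.add_apply]
  ring

theorem tac_cob (hx : tacK T D x S) (hy : tacK T D y S') (h1 : ∀ g ∈ D, g • R = R)
    (h2 : 3 ^ m • (S' - R) = 0) : Spl m D (tacU T x y) := by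
  obtain ⟨s, hs'⟩ := T.surj m _ h2
  have e : ∀ g ∈ D, y g = mred m (T.ρ g) *ᵥ s - s := fun g hg => T.inj m (by
    rw [map_sub, ← T.smul, hs', hy g hg, smul_sub, h1 g hg]
    abel)
  refine ⟨fun g => -det2 (x g) (mred m (T.ρ g) *ᵥ s),
    (hx.sm hs).comp₂ ((T.sm hs m).mono le_top) fun a b => -det2 a (b *ᵥ s), fun g hg k hk => ?_⟩
  simp only [tacU]
  rw [mul_neg, ← tac_det hd, hx.coc hg hk, e k hk, tac_mul, mulVec_sub]
  simp only [det2, Pi.add_apply, Pi.sub_apply]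
  ring

end

/-- The cup product of two Kummer cocycles is a cocycle. -/
theorem TB.c2 {P : Type} [AddCommGroup P] [DistribMulAction Gam P] (T : TB P)
    (hs : ∀ x : P, Sm ⊤ fun g => g • x) (hd : ∀ g, (T.ρ g).det = cyc g) {m : ℕ} {D : Subgroup Gam}
    {x y : Gam → Fin 2 → ZMod (3 ^ m)} {S S' : P} (hx : ∀ g ∈ D, T.emb m (x g) = g • S - S)
    (hy : ∀ g ∈ D, T.emb m (y g) = g • S' - S') :
    C2 m D fun g h => det2 (x g) (mred m (T.ρ g) *ᵥ y h) := tac_c2 hs hd hx hy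

/-- Restriction to the field of cube roots of unity is injective. -/
theorem spl_of_GK {m : ℕ} {D : Subgroup Gam} (hD : IsClosed (D : Set Gam))
    {c : Gam → Gam → ZMod (3 ^ m)} (hc : C2 m D c) (h : Spl m (GK 3 ⊓ D) c) : Spl m D c := by
  have h1 := coh_pow_index (op_GK 3) hc.cq (coh_one_iff.2
    ((spl_iff ((op_GK 3).closed.inter hD) (hc.mono inf_le_right)).1 h))
  have := normal_GK 3
  obtain ⟨u, hu⟩ := Subgroup.relIndex_dvd_index_of_normal (GK 3) D
  obtain ⟨v, hv⟩ : Odd (3 ^ m) := Odd.pow (by decide)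
  have h2 := h1.pow (u * (v + 1))
  rw [Subgroup.inf_relIndex_right, ← pow_mul, ← mul_assoc, ← hu, index_GK (by norm_num),
    show 2 * (v + 1) = 3 ^ m + 1 by omega, pow_succ, zc_pow, one_mul, one_pow] at h2
  exact (spl_iff hD hc).2 (coh_one_iff.1 h2)

section

variable {T : TB PW} {m : ℕ} {D : Subgroup Gam} {x y : Gam → Fin 2 → ZMod (3 ^ m)} {S S' : PW}

theorem tac_gen (hw : T.Weil) (hD : IsClosed (D : Set Gam)) (hx : tacK T D x S)
    (hy : tacK T D y S') (h : Gn (3 ^ m • S) (3 ^ m • S')) : Spl m D (tacU T x y) := by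
  obtain ⟨u, hu⟩ := hw m
  have k1 : ∀ g ∈ D, Gn (3 ^ m • S) (3 ^ m • g • S') := fun g hg => by
    rwa [smul_comm, hy.fix hg]
  have k0 := wpsi_ne m h.of_nsmul
  have key : Spl m D fun g k => u * tacU T x y g k := by
    refine (spl_iff hD ((tac_c2 (sm_pt ⊤) (T.det hw) hx hy).smul u)).2
      ⟨fun g => if g ∈ D then wpsi m S (g • S') / wpsi m S S' else 1,
        ((sm_pt D S').comp fun P => wpsi m S P / wpsi m S S').congr fun g hg => (if_pos hg).symm,
        fun g => ?_, fun g hg k hk => ?_⟩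
    · dsimp only
      split_ifs with hg
      exacts [div_ne_zero (wpsi_ne m (k1 g hg).of_nsmul) k0, one_ne_zero]
    · have e := hu S (g • S') (x g) (mred m (T.ρ g) *ᵥ y k) (k1 g hg)
      have k2 : wpsi m (g • S) (g • S') ≠ 0 := by
        rw [← wpsi_smul]
        exact (map_ne_zero g).2 k0
      rw [← T.smul, hx g hg, hy k hk, smul_sub, add_sub_cancel, add_sub_cancel] at e
      simp only [if_pos hg, if_pos hk, if_pos (mul_mem hg hk), tacU]
      rw [map_div₀, wpsi_smul, wpsi_smul, mul_smul]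
      field_simp
      linear_combination -e
  exact tac_lin key key ↑u⁻¹ 0 fun g _ k _ => by simp

theorem tac_three (Q : PW) : ∃ t : PW, (∀ g ∈ GK 3, g • t = t) ∧ 3 • t = 0 ∧
    t ∉ AddSubgroup.zmultiples Q := by
  by_contra hc
  push Not at hc
  have h3 : 3 • (mu (zeta 1) : PW) = 0 :=
    Lib.MP_23455a_nt.e3_zero (zeta 1) ▸ Lib.MP_23455a_nt.three_e3 0 zeta_cube
  obtain ⟨a, ha⟩ := AddSubgroup.mem_zmultiples_iff.1 (hc T3 (fun g _ => smul_T3 g) three_T3)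
  obtain ⟨b, hb⟩ := AddSubgroup.mem_zmultiples_iff.1 (hc _ (fun g hg => by
    rw [← Lib.MP_23455a_nt.e3_zero, smul_e3 g 0 zeta_cube, smul_zeta_one hg]) h3)
  have h2 : 3 • (a.gcd b : ℤ) • Q = 0 := by
    rw [Int.gcd_eq_gcd_ab, add_smul, mul_comm a, mul_comm b, mul_smul, mul_smul, ha, hb, smul_add,
      smul_comm 3, smul_comm 3, three_T3, h3]
    simp
  obtain ⟨c, hc⟩ := Int.gcd_dvd_left a b
  obtain ⟨d, hd⟩ := Int.gcd_dvd_right a b
  rw [hc, mul_comm, mul_smul] at ha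
  generalize (a.gcd b : ℤ) = k at *
  rw [hd, mul_comm, mul_smul] at hb
  obtain ⟨d, rfl⟩ | e := tac_sq h2 d
  · exact gn_T3.symm.ne (hb.symm.trans (tac_z h2 d))
  · exact gn_T3.1 (by
      rw [← ha, ← e, hb]
      exact zsmul_mem (zsmul_mem (AddSubgroup.mem_zmultiples _) _) _)

theorem tac_mem (hw : T.Weil) (hD : IsClosed (D : Set Gam)) (h3 : D ≤ GK 3) (hx : tacK T D x S)
    (hy : tacK T D y S') (h : 3 ^ m • S ∈ AddSubgroup.zmultiples (3 ^ m • S')) :
    Spl m D (tacU T x y) := by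
  by_cases ho : ∃ k : ℤ, (3 * k + 1) • 3 ^ m • S' = 0
  · obtain ⟨k, hk⟩ := ho
    obtain ⟨a, b, e⟩ : IsCoprime ((3 : ℤ) ^ m) (3 * k + 1) :=
      IsCoprime.pow_left ⟨-k, 1, by ring⟩
    refine tac_cob (sm_pt ⊤) (T.det hw) hx hy (R := a • 3 ^ m • S')
      (fun g hg => by rw [smul_comm, hy.fix hg]) ?_
    rw [smul_sub, ← natCast_zsmul (a • _), ← mul_smul, Nat.cast_pow, Nat.cast_ofNat, mul_comm,
      eq_sub_of_add_eq e, sub_smul, mul_smul b, hk, one_smul, smul_zero, sub_zero, sub_self]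
  obtain ⟨t, t1, t2, t3⟩ := tac_three (3 ^ m • S')
  obtain ⟨R, hR⟩ := pw_third_pow m t
  obtain ⟨z, hz⟩ := tac_ex (T := T) (D := D) (m := m) (R := R) fun g hg => hR ▸ t1 g (h3 hg)
  have k : ∀ P ∈ AddSubgroup.zmultiples (3 ^ m • S'), Gn (P + t) (3 ^ m • S') := fun P hP => by
    refine ⟨fun e => t3 (by simpa using sub_mem e hP), fun e => ?_⟩
    obtain ⟨a, rfl⟩ := AddSubgroup.mem_zmultiples_iff.1 hP
    obtain ⟨c, e⟩ := AddSubgroup.mem_zmultiples_iff.1 e
    obtain ⟨k, rfl⟩ | e' := tac_sq t2 c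
    · refine ho ⟨-(k * a), ?_⟩
      rw [smul_add, tac_z t2, add_zero, ← mul_smul] at e
      rw [add_smul, one_smul, mul_neg, neg_smul, ← mul_assoc, e, neg_add_cancel]
    · rw [smul_add] at e
      rw [← e', eq_sub_of_add_eq' e] at t3
      exact t3 (zsmul_mem (sub_mem (AddSubgroup.mem_zmultiples _) (zsmul_mem hP _)) _)
  refine tac_lin (tac_gen hw hD (hx.add hz) hy (by rw [smul_add, hR]; exact k _ h))
    (tac_gen hw hD hz hy (by simpa [hR] using k 0 (zero_mem _))) 1 (-1) fun g _ k _ => ?_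
  simp only [tacU, det2, Pi.add_apply]
  ring

end

theorem TB.iso (T : TB PW) (h : T.Weil) : T.Iso := by
  intro m D x y S S' hD hx hy
  refine spl_of_GK hD (T.c2 (sm_pt ⊤) (T.det h) hx hy) ?_
  have hD' : IsClosed ((GK 3 ⊓ D : Subgroup Gam) : Set Gam) := (op_GK 3).closed.inter hD
  have hx' : tacK T (GK 3 ⊓ D) x S := fun g hg => hx g hg.2
  have hy' : tacK T (GK 3 ⊓ D) y S' := fun g hg => hy g hg.2
  by_cases h1 : 3 ^ m • S ∈ AddSubgroup.zmultiples (3 ^ m • S')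
  · exact tac_mem h hD' inf_le_left hx' hy' h1
  by_cases h2 : 3 ^ m • S' ∈ AddSubgroup.zmultiples (3 ^ m • S)
  · exact tac_swap (sm_pt ⊤) (T.det h) hx' hy' (tac_mem h hD' inf_le_left hy' hx' h2)
  · exact tac_gen h hD' hx' hy' ⟨h1, h2⟩

end Pool.Agent.H3.TA
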