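import Pool.Agent.Lib.MP_23455a_nt.H3.TAb

/-! Complex multiplication. -/

set_option autoImplicit false

open scoped NNReal Classical
open Matrix

namespace Pool.Agent.H3.TA

open Pool.Agent.Lib.MP_696deb_nt.B2
open Pool.Agent.Lib.MP_696deb_nt (xco yco)
open Pool.Agent.Lib.MP_23455a_nt (W27 mu e3)

section

open WeierstrassCurve.Affine Pool.Agent.Lib.MP_23455a_nt

variable {F : Type} [Field F] {z : F}

theorem tae_a (F : Type) [Field F] : (W27.baseChange F).toAffine.a₁ = 0 ∧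
    (W27.baseChange F).toAffine.a₂ = 0 ∧ (W27.baseChange F).toAffine.a₄ = 0 := by
  simp [W27, WeierstrassCurve.baseChange]

theorem tae_ext {x y x' y' : F} {h : (W27.baseChange F).toAffine.Nonsingular x y}
    {h' : (W27.baseChange F).toAffine.Nonsingular x' y'} (hx : x = x') (hy : y = y') :
    (Point.some x y h : Pt F) = Point.some x' y' h' := by
  subst hx hy
  rfl

theorem tae_ne (hz : z ^ 3 = 1) : z ≠ 0 := fun e => by simp [e] at hz

variable [CharZero F]

/-- The automorphism as a map. -/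
noncomputable def taeOm (hz : z ^ 3 = 1) : Pt F → Pt F
  | .zero => .zero
  | .some x y h => .some (z * x) y (ns_iff.2 (by rw [mul_pow, hz, one_mul]; exact ns_iff.1 h))

variable [DecidableEq F]

omit [CharZero F] in
theorem tae_slope (hz : z ^ 3 = 1) (x₁ x₂ y₁ y₂ : F) :
    (W27.baseChange F).toAffine.slope (z * x₁) (z * x₂) y₁ y₂ =
      z ^ 2 * (W27.baseChange F).toAffine.slope x₁ x₂ y₁ y₂ := by
  obtain ⟨a1, a2, a4⟩ := tae_a F
  simp only [WeierstrassCurve.Affine.slope, rd_negY, mul_right_inj' (tae_ne hz), a1, a2, a4]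
  split_ifs with h1 h2
  · rw [mul_zero]
  · ring
  · rw [← mul_sub, ← mul_div_assoc, div_eq_div_iff (mul_ne_zero (tae_ne hz) (sub_ne_zero.2 h1))
      (sub_ne_zero.2 h1)]
    linear_combination (-(y₁ - y₂) * (x₁ - x₂)) * hz

theorem tae_add (hz : z ^ 3 = 1) (P Q : Pt F) : taeOm hz (P + Q) = taeOm hz P + taeOm hz Q := by
  obtain ⟨a1, a2, a4⟩ := tae_a F
  rcases P with _ | ⟨x₁, y₁, h₁⟩
  · exact (congrArg (taeOm hz) (zero_add Q)).trans (zero_add _).symm
  rcases Q with _ | ⟨x₂, y₂, h₂⟩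
  · exact (congrArg (taeOm hz) (add_zero _)).trans (add_zero _).symm
  by_cases h : x₁ = x₂ ∧ y₁ = (W27.baseChange F).toAffine.negY x₂ y₂
  · rw [Point.add_of_Y_eq h.1 h.2]
    refine (Point.add_of_Y_eq (by rw [h.1]) ?_).symm
    rw [h.2, rd_negY, rd_negY]
  · have h' : ¬ (z * x₁ = z * x₂ ∧ y₁ = (W27.baseChange F).toAffine.negY (z * x₂) y₂) := by
      rwa [mul_right_inj' (tae_ne hz), rd_negY, ← rd_negY x₂]
    rw [Point.add_some h]
    refine Eq.trans ?_ (Point.add_some h').symm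
    refine tae_ext ?_ ?_
    · simp only [tae_slope hz, addX, a1, a2]
      linear_combination (-z * (W27.baseChange F).toAffine.slope x₁ x₂ y₁ y₂ ^ 2) * hz
    · simp only [tae_slope hz, addY, negAddY, addX, rd_negY, a1, a2]
      linear_combination ((W27.baseChange F).toAffine.slope x₁ x₂ y₁ y₂ ^ 3 * (z ^ 3 + 1) -
        (W27.baseChange F).toAffine.slope x₁ x₂ y₁ y₂ * (2 * x₁ + x₂)) * hz

theorem tae_sq (hz : z ^ 3 = 1) (h1 : z ≠ 1) (P : Pt F) :
    taeOm hz (taeOm hz P) + taeOm hz P = -P := by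
  obtain ⟨a1, a2, a4⟩ := tae_a F
  rcases P with _ | ⟨x, y, h⟩
  · exact add_zero _
  have h2 : z ^ 2 + z + 1 = 0 :=
    mul_left_cancel₀ (sub_ne_zero.2 h1) (by linear_combination hz)
  have h0 : z * (z * x) = z * x → x = 0 := fun e => by
    have : (z - 1) * x = 0 := by linear_combination mul_left_cancel₀ (tae_ne hz) e
    exact (mul_eq_zero.1 this).resolve_left (sub_ne_zero.2 h1)
  have h' : ¬ (z * (z * x) = z * x ∧ y = (W27.baseChange F).toAffine.negY (z * x) y) := by
    rintro ⟨e, e'⟩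
    have e1 := ns_iff.1 h
    rw [rd_negY] at e'
    rw [h0 e] at e1
    have : (27 : F) = 0 := by linear_combination 4 * e1 - (2 * y + 1) * e'
    norm_num at this
  have hs : (W27.baseChange F).toAffine.slope (z * (z * x)) (z * x) y y = 0 := by
    rw [WeierstrassCurve.Affine.slope]
    split_ifs with h1 h2
    · rfl
    · rw [a1, a4, h0 h1]
      simp
    · rw [sub_self, zero_div]
  refine (Point.add_some h').trans (tae_ext ?_ ?_)
  · simp only [hs, addX, a1, a2]
    linear_combination (-x) * h2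
  · simp only [hs, addY, negAddY, rd_negY, zero_mul, zero_add]

end

/-- The automorphism of order three. -/
theorem exists_om : ∃ om : PW →+ PW, (∀ g ∈ GK 3, ∀ x, om (g • x) = g • om x) ∧
    (∀ x, om (om x) + om x + x = 0) ∧ ∀ x, cc • om x = om (om (cc • x)) := by
  refine ⟨AddMonoidHom.mk' (taeOm zeta_cube) (tae_add zeta_cube), fun g hg x => ?_, fun x => ?_,
    fun x => ?_⟩
  · rcases x with _ | ⟨x, y, h⟩
    · rfl
    · refine tae_ext ?_ rfl
      change zeta 1 * g x = g (zeta 1 * x)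
      rw [map_mul, smul_zeta_one hg]
  · exact add_eq_zero_iff_eq_neg.2 (tae_sq zeta_cube zeta_one_ne x)
  · rcases x with _ | ⟨x, y, h⟩
    · rfl
    · refine tae_ext ?_ rfl
      change cc (zeta 1 * x) = zeta 1 * (zeta 1 * cc x)
      rw [map_mul, b1b_spec, cy_cc, show (-1 : ZMod (3 ^ 1)).val = 2 from rfl]
      ring

theorem tae_scal (E : Emb PW) (m n : ℕ) (x : Fin 2 → ZMod (3 ^ m)) :
    E.emb m (mred m !![-(n : ℤ_[3]), 0; 0, -(n : ℤ_[3])] *ᵥ x) = -(n • E.emb m x) := by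
  rw [← map_nsmul, ← map_neg]
  congr 1
  funext i
  fin_cases i <;> simp [mulVec, dotProduct, mred_apply]

theorem tae_neg (m : ℕ) (A : M3) : mred m (-A) = -mred m A :=
  Matrix.ext fun i j => by rw [mred_apply, neg_apply, neg_apply, map_neg, mred_apply]

theorem TN.cm (T : TN) : ∃ v : ℤ_[3], v ≠ 0 ∧ ∀ g ∈ GK 3,
    T.ρ g 0 0 = T.ρ g 1 1 ∧ 9 * T.ρ g 1 0 = -3 * v ^ 2 * T.ρ g 0 1 := by
  obtain ⟨om, h1, h2, h3⟩ := exists_om
  obtain ⟨f, hf⟩ : ∃ f : PW →+ PW, ∀ x, f x = x + 2 • om x :=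
    ⟨AddMonoidHom.id _ + 2 • om, fun _ => rfl⟩
  have h4 : ∀ x, om (om x) = -om x - x := fun x => by
    rw [← sub_eq_zero, ← h2 x]
    abel
  obtain ⟨J, hJ⟩ := T.toEmb.exists_mat f
  have e1 : J * J = !![-((3 : ℕ) : ℤ_[3]), 0; 0, -((3 : ℕ) : ℤ_[3])] :=
    T.toEmb.mat_ext fun m x => by
      rw [tae_scal, mred_mul, ← mulVec_mulVec, ← hJ, ← hJ, hf, hf, map_add, map_nsmul, h4]
      abel
  have e2 : T.ρ cc * J = -(J * T.ρ cc) := T.toEmb.mat_ext fun m x => by
    rw [tae_neg, neg_mulVec, map_neg, mred_mul, mred_mul, ← mulVec_mulVec, ← mulVec_mulVec,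
      ← T.smul, ← hJ, ← hJ, ← T.smul, hf, hf, smul_add, smul_comm, h3, h4]
    abel
  have e3 : ∀ g ∈ GK 3, T.ρ g * J = J * T.ρ g := fun g hg => T.toEmb.mat_ext fun m x => by
    rw [mred_mul, mred_mul, ← mulVec_mulVec, ← mulVec_mulVec, ← T.smul, ← hJ, ← hJ, ← T.smul, hf,
      hf, smul_add, smul_comm, h1 g hg]
  rw [T.conj] at e2
  have a0 := congrFun (congrFun e2 0) 0
  have a1 := congrFun (congrFun e2 1) 1
  have a2 := congrFun (congrFun e1 0) 0
  simp only [tauM, mul_apply, Fin.sum_univ_two, Matrix.neg_apply, of_apply, cons_val', cons_val_zero,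
    cons_val_one, cons_val_fin_one, Nat.cast_ofNat] at a0 a1 a2
  have j0 : J 0 0 = 0 := by
    have : 2 * J 0 0 = 0 := by linear_combination -a0
    exact (mul_eq_zero.1 this).resolve_left two_ne_zero
  have j1 : J 1 1 = 0 := by
    have : 2 * J 1 1 = 0 := by linear_combination a1
    exact (mul_eq_zero.1 this).resolve_left two_ne_zero
  have hst : J 0 1 * J 1 0 = -3 := by linear_combination a2 - J 0 0 * j0
  have hne : J 0 1 * J 1 0 ≠ 0 := by rw [hst]; norm_num
  refine ⟨J 1 0, right_ne_zero_of_mul hne, fun g hg => ?_⟩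
  have b0 := congrFun (congrFun (e3 g hg) 0) 0
  have b1 := congrFun (congrFun (e3 g hg) 0) 1
  simp only [mul_apply, Fin.sum_univ_two, j0, j1] at b0 b1
  refine ⟨mul_left_cancel₀ (left_ne_zero_of_mul hne) (by linear_combination b1), ?_⟩
  linear_combination 3 * J 1 0 * b0 + 3 * T.ρ g 1 0 * hst

/-- The relation of Eichler and Shimura on torsion points at an inert prime. -/
theorem TN.es (T : TN) {w : Plc} {φ : Gam} (hw : w.p % 3 = 2) (hφ : IsFrob w w.p φ) {m : ℕ} {t : PW}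
    (ht : 3 ^ m • t = 0) : φ • φ • t + w.p • t = 0 := by
  have hc : cyc φ = w.p := d0b_cyc_frob (by omega) hφ
  have h1 : φ ∉ GK 3 := fun h => by
    rw [mem_GK3, cy, hc, map_natCast, ← ZMod.natCast_mod, show w.p % 3 ^ 1 = 2 from hw] at h
    exact absurd h (by decide)
  obtain ⟨u, -, hu⟩ := T.cm
  have h2 := (hu _ (mul_mem_GK h1 (cc_notMem (by norm_num)))).1
  rw [map_mul, T.conj] at h2
  have h3 := (T.toTB.det T.weil φ).trans hc
  simp only [tauM, mul_apply, Fin.sum_univ_two, of_apply, cons_val', cons_val_zero,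
    cons_val_one, cons_val_fin_one] at h2
  rw [det_fin_two] at h3
  have e : T.ρ φ * T.ρ φ = !![-(w.p : ℤ_[3]), 0; 0, -(w.p : ℤ_[3])] := by
    ext i j
    fin_cases i <;> fin_cases j <;>
      simp only [mul_apply, Fin.sum_univ_two, of_apply, cons_val', cons_val_zero, cons_val_one,
        cons_val_fin_one, Fin.zero_eta, Fin.mk_one]
    · linear_combination -h3 - T.ρ φ 0 0 * h2
    · linear_combination - T.ρ φ 0 1 * h2
    · linear_combination - T.ρ φ 1 0 * h2
    · linear_combination -h3 - T.ρ φ 1 1 * h2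
  obtain ⟨v, rfl⟩ := T.surj m t ht
  rw [T.smul, T.smul, mulVec_mulVec, ← mred_mul, e, tae_scal, neg_add_cancel]

end Pool.Agent.H3.TA
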