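import Pool.Agent.Lib.MP_23455a_nt.H3.ZVa
import Pool.Agent.Lib.MP_23455a_nt.H3.SL0

/-! Consequences of the reciprocity law and of the density theorem. -/

set_option autoImplicit false

open scoped NNReal Classical
open Finset Matrix NumberTheorySymbols

namespace Pool.Agent.H3

open Pool.Agent.Lib.MP_696deb_nt.B2

variable {n h m : ℕ} {H N : Subgroup Gam} {η κ : Gam → ZMod (3 ^ m)} {a : Qbar}

theorem zca_kill (x : ZMod (3 ^ m)) : 3 ^ m • x = 0 := by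
  rw [nsmul_eq_mul, ZMod.natCast_self, zero_mul]

theorem zca_unit {a : ℕ} (k : a.Coprime 6) : IsUnit (a : ZMod (3 ^ m)) :=
  (ZMod.isUnit_iff_coprime _ _).2 ((k.coprime_dvd_right (by norm_num : 3 ∣ 6)).pow_right m)

theorem zca_pow {A : Type} [AddCommGroup A] {x : Gam → A} (h2 : IsHom N x) {g : Gam} (hg : g ∈ N)
    (k : ℕ) : x (g ^ k) = k • x g :=
  congrArg Multiplicative.toAdd (b4a_pow (π := fun g => Multiplicative.ofAdd (x g))
    (fun g hg k hk => congrArg Multiplicative.ofAdd (h2 g hg k hk)) hg k)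

/-- The density theorem modulo the normal core of the kernel of a homomorphism. -/
theorem zca_cheb (ch : ChebStmt) (hN : Op N) (hn : N.Normal) {A : Type} [Group A] {π : Gam → A}
    (h1 : Sm N π) (h2 : IsMul N π) (h3 : ∀ g ∈ N, ∃ k : ℕ, π g ^ 3 ^ k = 1) {s : Gam}
    (hs : s * s ∈ N) (B : Finset ℕ) : ∃ (w : Plc) (a : ℕ) (U : Subgroup Gam), w.p ∉ B ∧
      a.Coprime 6 ∧ U.Normal ∧ (∀ u ∈ U, u ∈ N ∧ π u = 1) ∧ Ine w ≤ U ∧
      ∃ u ∈ U, fr w = s ^ a * u := by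
  obtain ⟨k, hk⟩ : ∃ k, ∀ g ∈ N, π g ^ 3 ^ k = 1 := by
    have : ∀ y ∈ π '' N, ∃ k : ℕ, y ^ 3 ^ k = 1 := by
      rintro _ ⟨g, hg, rfl⟩
      exact h3 g hg
    choose! f hf using this
    obtain ⟨k, hk⟩ := (h1.finite_range.image f).bddAbove
    refine ⟨k, fun g hg => ?_⟩
    obtain ⟨j, rfl⟩ := Nat.exists_eq_add_of_le (hk ⟨π g, ⟨g, hg, rfl⟩, rfl⟩)
    rw [pow_add, pow_mul, hf _ ⟨g, hg, rfl⟩, one_pow]
  let K : Subgroup Gam :=
    { carrier := {g | g ∈ N ∧ π g = 1}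
      one_mem' := ⟨one_mem _, b4a_one h2⟩
      mul_mem' := fun h h' => ⟨mul_mem h.1 h'.1, by rw [h2 _ h.1 _ h'.1, h.2, h'.2, mul_one]⟩
      inv_mem' := fun {g} h => ⟨inv_mem h.1, by
        have := h2 _ h.1 _ (inv_mem h.1)
        rwa [mul_inv_cancel, b4a_one h2, h.2, one_mul, eq_comm] at this⟩ }
  obtain ⟨V, v1, v2, v3⟩ := h1
  have hU : Op K.normalCore := Subgroup.isOpen_mono (H₁ := V ⊓ N)
    (Subgroup.normal_le_normalCore.2 fun g hg => ⟨hg.2, by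
      rw [← v3 1 (one_mem _) g hg.2 (by simpa using hg.1), b4a_one h2]⟩) (v1.inf hN)
  obtain ⟨B', hB⟩ := finite_ram hU
  obtain ⟨w, φ, a, k1, k2, k3, k4⟩ := ch _ s k (B ∪ B') hU inferInstance fun h => by
    have m3 := hn.conj_mem _ hs h
    rw [← conj_pow, pow_mul, conj_pow, pow_two]
    exact ⟨pow_mem m3 _, by rw [b4a_pow h2 m3, hk _ m3]⟩
  have k5 := hB w fun h => k1 (mem_union_right _ h)
  exact ⟨w, a, _, fun h => k1 (mem_union_left _ h), k3, inferInstance,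
    fun u hu => K.normalCore_le hu, k5, _,
    mul_mem (inv_mem k4) (k5 (k2.inv_mul_mem (fr_spec w))), by group⟩

/-- The reciprocity law for a character and a number. -/
theorem zc_recip (F : CFT) (hH : Op H) (h1 : Sm H η) (h2 : IsHom H η) (h3 : Kum m H a κ)
    (s t : Finset Plc) (v : Plc → ℤ) (hd : Disjoint s t) (ha : Apart H (s ∪ t))
    (hs : ∀ w ∈ s, Dec w ≤ H ∧ (∀ σ ∈ Ine w, η σ = 0) ∧ w.V a = ((w.p : ℝ≥0) ^ v w)⁻¹)
    (ho : ∀ w, Away H (s ∪ t) w → (∀ σ ∈ H ⊓ Ine w, η σ = 0) ∧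
      (w.V a = 1 ∨ w.p ≠ 3 ∧ ∀ σ ∈ H ⊓ Ine w, κ σ = 0)) :
    ∑ w ∈ s, η (fr w) * v w + ∑ w ∈ t, F.inv m H w (cup m η κ) = 0 := by
  have k1 : ∀ w : Plc, Sm (H ⊓ Dec w) η := fun w => h1.mono inf_le_left
  have k2 : ∀ w : Plc, IsHom (H ⊓ Dec w) η := fun w g hg k hk => h2 g hg.1 k hk.1
  have k3 : ∀ w : Plc, Kum m (H ⊓ Dec w) a κ := fun w => h3.mono inf_le_left
  have c := c2_cup h1 h2 h3.sm h3.coc
  have r := F.recip (s ∪ t) hH c ha fun w hw => by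
    obtain ⟨o1, o2 | ⟨o2, o3⟩⟩ := ho w hw
    · exact F.unit hH (k1 w) (k2 w) o1 (k3 w) o2
    · refine F.unr hH (c.mono inf_le_left) fun g hg k hk σ hσ σ' hσ' => ?_
      rw [cup, cup, h2 g hg.1 σ hσ.1, o1 σ hσ, add_zero, cy_mul, cy_ine o2 hσ.2, mul_one,
        h3.coc k hk.1 σ' hσ'.1, o3 σ' hσ', mul_zero, add_zero]
  rw [sum_union hd] at r
  rw [← r]
  refine congrArg (· + _) (sum_congr rfl fun w hw => ?_)
  obtain ⟨s1, s2, s3⟩ := hs w hw
  refine (F.kum (v w) hH ((Ine_le w).trans s1) (s1 (fr_spec w).1) ?_ (k1 w) (k2 w) s2 (k3 w)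
    s3).symm
  rw [inf_eq_right.2 s1, Subgroup.relIndex_self, pow_one]
  exact fr_spec w

theorem zca_one (F : CFT) (hH : Op H) (h1 : Sm H η) (h2 : IsHom H η) (h3 : Kum m H a κ) {w : Plc}
    {j : ℤ} (hw : Dec w ≤ H) (e : w.V a = ((w.p : ℝ≥0) ^ j)⁻¹)
    (h4 : ∀ w : Plc, ∀ σ ∈ H ⊓ Ine w, η σ = 0) (h5 : ∀ v, Away H {w} v → v.V a = 1) :
    η (fr w) * j = 0 := by
  simpa using zc_recip F hH h1 h2 h3 {w} ∅ (fun _ => j) (disjoint_empty_right _)
    (fun v hv x hx _ _ _ => by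
      rw [union_empty, mem_singleton] at hv hx
      rw [hv, hx])
    (fun v hv => by
      rw [mem_singleton.1 hv]
      exact ⟨hw, fun σ hσ => h4 w σ ⟨hw hσ.1, hσ⟩, e⟩)
    fun v hv => ⟨h4 v, Or.inl (h5 v (by rwa [union_empty] at hv))⟩

/-- The local term at a deep inert place. -/
theorem zc_lam (F : CFT) {w : Plc} (hw : Adm n w.p) (hd : 3 ^ m ∣ w.p + 1) :
    ∃ u : (ZMod (3 ^ m))ˣ, ∀ (η κ : Gam → ZMod (3 ^ m)) (a : Qbar), Sm (GK n) η → IsHom (GK n) η →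
      η (fq w) = 0 → Kum m (GK n) a κ →
      F.inv m (GK n) w (cup m η κ) = u * η (gn w) * κ (fq w) := by
  have t := tm_inert hw.ne3 hw.ine (fr_spec w) (hw.out (fr_spec w)) (gn_spec hw.ne3)
  have hq : ((w.p ^ 2 : ℕ) : ZMod (3 ^ m)) = 1 := by
    have := (ZMod.natCast_eq_zero_iff _ _).2 hd
    push_cast at this ⊢
    linear_combination ((w.p : ZMod (3 ^ m)) - 1) * this
  obtain ⟨u, hu⟩ := t.deep_inv hq
  have hD : ∀ g ∈ GK n ⊓ Dec w, cy m g = 1 := fun g hg => t.cy_one hq hg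
  refine ⟨-u, fun η κ a h1 h2 h3 h4 => ?_⟩
  have e := hu F _ _ AddMonoidHom.mul (fun _ => AddMonoidHom.id _) (fun _ => AddMonoidHom.id _) η κ
    zca_kill zca_kill (fun _ _ _ => rfl) (fun _ _ _ => rfl)
    ((coc_triv fun _ _ _ => rfl).2 ⟨h1.mono inf_le_left, fun g hg k hk => h2 g hg.1 k hk.1⟩)
    ((coc_triv fun _ _ _ => rfl).2 ⟨h4.sm.mono inf_le_left, fun g hg k hk => by
      rw [h4.coc g hg.1 k hk.1, hD g hg, one_mul]⟩)
  refine (F.congr fun g hg k _ => ?_).trans (e.trans ?_)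
  · rw [cup, hD g hg, mul_one]
    rfl
  · simp only [AddMonoidHom.mul_apply, ← fq.eq_1, h3, Units.val_neg]
    ring

/-- A split place whose Frobenius element is a power of a given element. -/
theorem zc_split (ch : ChebStmt) (hn : Nk n) {A : Type} [Group A] {π : Gam → A} (h1 : Sm (GK n) π)
    (h2 : IsMul (GK n) π) (h3 : ∀ g ∈ GK n, ∃ k : ℕ, π g ^ 3 ^ k = 1) {g : Gam} (hg : g ∈ GK n)
    (B : Finset ℕ) : ∃ (w : Plc) (a : ℕ), w.p ∉ B ∧ Dec w ≤ GK n ∧ a.Coprime 6 ∧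
      (∀ σ ∈ Ine w, π σ = 1) ∧ π (fr w) = π g ^ a := by
  have _ := hn
  obtain ⟨w, a, U, k1, k2, -, k3, k4, u, hu, e⟩ :=
    zca_cheb ch (op_GK n) (normal_GK n) h1 h2 h3 (mul_mem hg hg) B
  refine ⟨w, a, k1, fun x hx => b2c_dec (fun σ hσ => (k3 σ (k4 hσ)).1) (fr_spec w) ?_ hx, k2,
    fun σ hσ => (k3 σ (k4 hσ)).2, ?_⟩
  · rw [e]
    exact mul_mem (pow_mem hg a) (k3 u hu).1
  · rw [e, h2 _ (pow_mem hg a) _ (k3 u hu).1, (k3 u hu).2, mul_one, b4a_pow h2 hg]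

theorem unr_char (F : CFT) (ch : ChebStmt) (hn : Nk n) (hp : Prin n h) (h1 : Sm (GK n) η)
    (h2 : IsHom (GK n) η) (h3 : ∀ w : Plc, ∀ σ ∈ GK n ⊓ Ine w, η σ = 0) :
    ∀ g ∈ GK n, h * η g = 0 := by
  intro g hg
  obtain ⟨w, a, -, k1, k2, k3, k4⟩ := zc_split ch hn (π := fun g => Multiplicative.ofAdd (η g))
    (h1.comp _) (fun g hg k hk => congrArg Multiplicative.ofAdd (h2 g hg k hk))
    (fun g _ => ⟨m, congrArg Multiplicative.ofAdd (zca_kill (η g))⟩) hg ∅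
  obtain ⟨π, p1, p2, p3⟩ := hp.2 w
  obtain ⟨κ, hκ⟩ := exists_kum m (a := π) (fun e => by
    rw [e, map_zero] at p2
    exact inv_ne_zero (pow_ne_zero h (zero_lt_one.trans (b2a_one_lt w)).ne') p2.symm) p1
  have r := zca_one F (op_GK n) h1 h2 hκ (j := h) k1 (by rwa [zpow_natCast]) h3 p3
  have k5 : η (fr w) = a • η g := congrArg Multiplicative.toAdd k4
  rw [k5, nsmul_eq_mul, Int.cast_natCast, mul_assoc, mul_comm (η g)] at r
  exact (zca_unit k2).mul_right_eq_zero.1 r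

theorem unr_top (F : CFT) (ch : ChebStmt) (h1 : Sm ⊤ η) (h2 : IsHom ⊤ η)
    (h3 : ∀ w : Plc, ∀ σ ∈ Ine w, η σ = 0) (g : Gam) : η g = 0 := by
  obtain ⟨w, a, U, -, k2, -, k3, -, u, hu, e⟩ := zca_cheb ch (N := ⊤) isOpen_univ inferInstance
    (π := fun g => Multiplicative.ofAdd (η g)) (h1.comp _)
    (fun g hg k hk => congrArg Multiplicative.ofAdd (h2 g hg k hk))
    (fun g _ => ⟨m, congrArg Multiplicative.ofAdd (zca_kill (η g))⟩) (s := g) trivial ∅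
  obtain ⟨κ, hκ⟩ := exists_kum (H := ⊤) (a := (w.p : Qbar)) m
    (Nat.cast_ne_zero.2 w.prime.ne_zero) fun g _ => map_natCast g _
  have r := zca_one F isOpen_univ h1 h2 hκ (j := 1) (w := w) le_top (by rw [w.hV, zpow_one])
    (fun w σ hσ => h3 w σ hσ.2) fun v hv => by
      rw [← Int.cast_natCast, v.V_int_eq_one, Int.natCast_dvd_natCast,
        Nat.prime_dvd_prime_iff_eq v.prime w.prime]
      intro k
      obtain ⟨x, hx⟩ := plc_conj k.symm
      exact hv w (mem_singleton_self w) x trivial hx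
  have k4 : η u = 0 := congrArg Multiplicative.toAdd (k3 u hu).2
  rw [e, h2 _ trivial _ trivial, k4, add_zero, zca_pow h2 (Subgroup.mem_top g), nsmul_eq_mul,
    Int.cast_one, mul_one] at r
  exact (zca_unit k2).mul_right_eq_zero.1 r

/-- The choice of an inert prime with prescribed Frobenius element. -/
theorem zc_deep (ch : ChebStmt) (hN : Op N) (hn : N.Normal) {A : Type} [AddCommGroup A]
    {k : ℕ} (hA : ∀ y : A, 3 ^ k • y = 0) {x : Gam → A} (h1 : Sm N x) (h2 : IsHom N x) {s : Gam}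
    (hs : s ∈ N) (B : Finset ℕ) : ∃ (w : Plc) (a : ℕ), w.p ∉ B ∧ a.Coprime 6 ∧ cc * fr w ∈ N ∧
      Ine w ≤ N ∧ x (fq w) = a • (x s + x (cc * s * cc)) := by
  have m1 : cc * s * cc ∈ N := by simpa only [cc_inv] using hn.conj_mem s hs cc
  have m2 : cc * s * (cc * s) ∈ N := by simpa only [mul_assoc] using mul_mem m1 hs
  obtain ⟨w, a, U, k1, k2, k0, k3, k4, u, hu, e⟩ := zca_cheb ch hN hn
    (π := fun g => Multiplicative.ofAdd (x g)) (h1.comp _)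
    (fun g hg k hk => congrArg Multiplicative.ofAdd (h2 g hg k hk))
    (fun g _ => ⟨k, congrArg Multiplicative.ofAdd (hA (x g))⟩) m2 B
  have k5 := k3 u hu
  have k6 := k3 _ (k0.conj_mem u hu ((cc * s) ^ a)⁻¹)
  refine ⟨w, a, k1, k2, ?_, fun σ hσ => (k3 σ (k4 hσ)).1, ?_⟩
  · obtain ⟨j, rfl⟩ : Odd a := (k2.coprime_dvd_right (by norm_num : 2 ∣ 6)).odd_of_right
    rw [e, pow_succ', pow_mul, pow_two, ← mul_assoc, ← mul_assoc, ← mul_assoc, cc_mul_cc, one_mul]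
    exact mul_mem (mul_mem hs (pow_mem m2 j)) k5.1
  · have e2 : fq w = (cc * s * (cc * s)) ^ a * (((cc * s) ^ a)⁻¹ * u * ((cc * s) ^ a)⁻¹⁻¹ * u) := by
      rw [← pow_two (cc * s), ← pow_mul, two_mul a, pow_add _ a, fq, e]
      generalize (cc * s) ^ a = y
      group
    have k7 : x u = 0 := congrArg Multiplicative.toAdd k5.2
    have k8 : x (((cc * s) ^ a)⁻¹ * u * ((cc * s) ^ a)⁻¹⁻¹) = 0 :=
      congrArg Multiplicative.toAdd k6.2
    rw [e2, h2 _ (pow_mem m2 _) _ (mul_mem k6.1 k5.1), h2 _ k6.1 _ k5.1, k7, k8, add_zero,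
      add_zero, zca_pow h2 m2, ← mul_assoc, h2 _ m1 _ hs, add_comm (x s)]

/-- Split places whose Frobenius elements generate the class group. -/
theorem zc_gens (ch : ChebStmt) (hn : Nk n) (S : RC n) : ∃ Q : Finset Plc,
    (∀ w ∈ Q, w.p ≠ 3 ∧ Dec w ≤ GK n) ∧ (∀ w ∈ Q, ∀ v ∈ Q, w.p = v.p → w = v) ∧
    Subgroup.closure ((fun w => S.ψ 1 (fr w)) '' Q) = ⊤ := by
  have key : ∀ T : Finset (S.C 1), ∃ Q : Finset Plc,
      (∀ w ∈ Q, w.p ≠ 3 ∧ Dec w ≤ GK n) ∧ (∀ w ∈ Q, ∀ v ∈ Q, w.p = v.p → w = v) ∧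
      ∀ c ∈ T, c ∈ Subgroup.closure ((fun w => S.ψ 1 (fr w)) '' Q) := fun T => by
    induction T using Finset.induction_on with
    | empty => exact ⟨∅, by simp, by simp, by simp⟩
    | insert c T _ ih =>
      obtain ⟨Q, q1, q2, q3⟩ := ih
      obtain ⟨g, hg, rfl⟩ := S.surj 1 (adm_one n) c
      obtain ⟨w, a, k1, k2, k3, -, k4⟩ := zc_split ch hn (S.sm 1 (adm_one n))
        (S.mul 1 (adm_one n)) (fun g _ => S.three 1 _) hg (insert 3 (Q.image Plc.p))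
      have k5 : ∀ v ∈ Q, w.p ≠ v.p := fun v hv e =>
        k1 (mem_insert_of_mem (e ▸ mem_image_of_mem _ hv))
      refine ⟨insert w Q, forall_mem_insert _ _ _ |>.2
        ⟨⟨fun e => k1 (e ▸ mem_insert_self _ _), k2⟩, q1⟩, fun x hx y hy e => ?_,
        forall_mem_insert _ _ _ |>.2 ⟨?_, fun c hc => Subgroup.closure_mono
          (Set.image_mono (coe_subset.2 (subset_insert w Q))) (q3 c hc)⟩⟩
      · rcases mem_insert.1 hx with rfl | hx' <;> rcases mem_insert.1 hy with rfl | hy'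
        exacts [rfl, absurd e (k5 y hy'), absurd e.symm (k5 x hx'), q2 x hx' y hy' e]
      · obtain ⟨k, hk⟩ := S.three 1 (S.ψ 1 g)
        obtain ⟨j, hj⟩ := exists_pow_eq_self_of_coprime (x := S.ψ 1 g)
          (((k3.coprime_dvd_right (by norm_num : 3 ∣ 6)).pow_right k).coprime_dvd_right
            (orderOf_dvd_of_pow_eq_one hk))
        rw [← hj, ← k4]
        exact pow_mem (Subgroup.subset_closure
          (Set.mem_image_of_mem _ (mem_coe.2 (mem_insert_self w Q)))) j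
  obtain ⟨Q, q1, q2, q3⟩ := key univ
  exact ⟨Q, q1, q2, eq_top_iff.2 fun c _ => q3 c (mem_univ c)⟩

end Pool.Agent.H3
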