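import Pool.Agent.Lib.MP_23455a_nt.H3.D3
import Pool.Agent.Lib.MP_23455a_nt.H3.MRC

/-! Principal powers of prime ideals, and units. -/

set_option autoImplicit false

open scoped NNReal Classical
open Finset Matrix NumberTheorySymbols

namespace Pool.Agent.H3

open Pool.Agent.Lib.MP_696deb_nt.B2

variable {n : ℕ}

section

open Pool.Agent.Lib.MP_696deb_nt.B2.CM

variable {v w : Plc} {I J : Lt} {c d : ℝ≥0} {b k : ℤ}

/-- The largest value of a valuation on a lattice. -/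
def ZpaS (n : ℕ) (v : Plc) (I : Lt) (c : ℝ≥0) : Prop :=
  (∀ x ∈ I, ∃ z, Fx (GK n) z ∧ jC z = x ∧ v.V z ≤ c) ∧ ∃ z, jC z ∈ I ∧ v.V z = c

theorem zpa_mul (h : ZpaS n v I c) (h' : ZpaS n v J d) : ZpaS n v (I * J) (c * d) := by
  obtain ⟨h1, z, h2, h3⟩ := h
  obtain ⟨k1, y, k2, k3⟩ := h'
  refine ⟨fun x hx => Submodule.mul_induction_on hx (fun s hs t ht => ?_) ?_, z * y,
    map_mul jC z y ▸ Submodule.mul_mem_mul h2 k2, by rw [map_mul, h3, k3]⟩
  · obtain ⟨s, s1, rfl, s2⟩ := h1 s hs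
    obtain ⟨t, t1, rfl, t2⟩ := k1 t ht
    exact ⟨s * t, fun g hg => by rw [map_mul, s1 g hg, t1 g hg], map_mul _ _ _,
      (map_mul _ _ _).trans_le (mul_le_mul' s2 t2)⟩
  · rintro _ _ ⟨s, s1, rfl, s2⟩ ⟨t, t1, rfl, t2⟩
    exact ⟨s + t, fun g hg => by rw [map_add, s1 g hg, t1 g hg], map_add _ _ _,
      v.V.map_add_le s2 t2⟩

theorem zpa_one (hn : n % 4 = 3) (v : Plc) : ZpaS n v (ot (Oc n 1)) 1 := by
  refine ⟨fun x hx => ?_, 1, (map_one jC).symm ▸ (Oc n 1).one_mem, map_one _⟩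
  obtain ⟨s, t, -, rfl⟩ := (mem_Oc hn).1 hx
  exact ⟨_, fx_elQ s t, jC_elQ n s t, V_elQ_le hn v s t⟩

theorem zpa_fx (b : ℤ) : Fx (GK n) (beQ n 1 b) := fun g hg => by
  simp only [beQ, map_add, map_mul, map_div₀, map_intCast, map_natCast, map_ofNat, smul_dq hg]

theorem zpa_idl (m b : ℤ) (v : Plc) :
    ZpaS n v (idl n 1 m b) (max (v.V m) (v.V (beQ n 1 b))) := by
  refine ⟨fun x hx => ?_, ?_⟩
  · obtain ⟨s, t, rfl⟩ := mem_sp2.1 hx
    refine ⟨s * m + t * beQ n 1 b, fun g hg => ?_, ?_, v.V.map_add_le ?_ ?_⟩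
    · simp only [map_add, map_mul, map_intCast, zpa_fx b g hg]
    · simp only [map_add, map_mul, map_intCast, jC_beQ]
    · exact (map_mul _ _ _).trans_le ((mul_le_of_le_one_left' (v.V_int_le s)).trans
        (le_max_left _ _))
    · exact (map_mul _ _ _).trans_le ((mul_le_of_le_one_left' (v.V_int_le t)).trans
        (le_max_right _ _))
  · rcases max_choice (v.V m) (v.V (beQ n 1 b)) with e | e
    · exact ⟨m, (map_intCast jC m).symm ▸ left_mem_sp2 _ _, e.symm⟩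
    · exact ⟨_, (jC_beQ n 1 b).symm ▸ right_mem_sp2 _ _, e.symm⟩

theorem zpa_pow (hn : n % 4 = 3) {x : Iv (Oc n 1)} (h : ZpaS n v x.1 c) (m : ℕ) :
    ZpaS n v (x ^ m).1 (c ^ m) := by
  induction m with
  | zero =>
    rw [pow_zero, pow_zero]
    exact zpa_one hn v
  | succ m ih =>
    rw [pow_succ, pow_succ]
    exact zpa_mul ih h

theorem zpa_gen (hn : n % 4 = 3) {a : Qbar} (h : ZpaS n v (sc (jC a) (ot (Oc n 1))) c) :
    v.V a = c := by
  obtain ⟨h1, z, h2, h3⟩ := h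
  obtain ⟨y, -, y1, y2⟩ := h1 _ (mem_sc.2 ⟨1, (Oc n 1).one_mem, mul_one _⟩)
  obtain ⟨t, t1, t2⟩ := mem_sc.1 h2
  obtain ⟨t, -, rfl, t3⟩ := (zpa_one hn v).1 t t1
  rw [← map_mul] at t2
  rw [← jC.injective t2, map_mul] at h3
  exact le_antisymm (jC.injective y1 ▸ y2) (h3.ge.trans (mul_le_of_le_one_right' t3))

theorem zpa_split (ok : Ok n 1) (e : b ^ 2 + n * (1 : ℕ) ^ 2 = 4 * w.p * k)
    (hb : ¬ (w.p : ℤ) ∣ b) (hβ : w.V (beQ n 1 b) < 1) : ∃ π, Fx (GK n) π ∧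
      w.V π = ((w.p : ℝ≥0) ^ Nat.card (Pc n 1))⁻¹ ∧ ∀ v, Away (GK n) {w} v → v.V π = 1 := by
  have hn : 0 < n := (by decide : 0 < 3).trans ok.gt
  have hI := isIv_idl ok.m4 e (by exact_mod_cast w.prime.ne_zero) (cmf_prim w.prime hb k)
  have h1 : cl _ (idl n 1 w.p b) ^ Nat.card (Pc n 1) = 1 := pow_card_eq_one'
  obtain ⟨x, hx, hx'⟩ : ∃ x : Iv (Oc n 1), x.1 = idl n 1 w.p b ∧ cl _ (idl n 1 w.p b) =
    QuotientGroup.mk (s := (pri (Oc n 1)).range) x := ⟨⟨_, hI⟩, rfl, cl_eq hI⟩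
  rw [hx'] at h1
  obtain ⟨a, ha⟩ := (QuotientGroup.eq_one_iff (N := (pri (Oc n 1)).range)
    (x ^ Nat.card (Pc n 1))).1 h1
  have h2 : ∀ v : Plc, ZpaS n v (sc a (ot (Oc n 1)))
      (max (v.V w.p) (v.V (beQ n 1 b)) ^ Nat.card (Pc n 1)) := fun v => by
    have := zpa_pow ok.m4 (hx ▸ zpa_idl w.p b v) (Nat.card (Pc n 1))
    rwa [← ha, Int.cast_natCast] at this
  obtain ⟨π, h3, h4, -⟩ := (h2 w).1 a (mem_sc.2 ⟨1, (Oc n 1).one_mem, mul_one _⟩)
  rw [← h4] at h2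
  have h5 : w.V (b - beQ n 1 b) = 1 := by
    rw [w.V.map_sub_eq_of_lt_left, w.V_int_eq_one.2 hb]
    rwa [w.V_int_eq_one.2 hb]
  have h6 : beQ n 1 b * (b - beQ n 1 b) = k * w.p := by
    have h2 := congrArg (Int.cast : ℤ → Qbar) e
    rw [beQ]
    push_cast at h2 ⊢
    linear_combination (1 / 4) * h2 - (1 / 4) * dq_sq n
  have h7 : ∀ v : Plc, v.V (beQ n 1 b) ≤ 1 := fun v => by
    obtain ⟨z, -, z1, z2⟩ := (zpa_one ok.m4 v).1 _ (be_mem ok.m4 (two_dvd_sub ok.m4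
      (e.trans (mul_assoc _ _ _))))
    rwa [jC.injective (z1.trans (jC_beQ n 1 b).symm)] at z2
  refine ⟨π, h3, ?_, fun v hv => ?_⟩
  · rw [zpa_gen ok.m4 (h2 w), max_eq_left, w.hV, inv_pow]
    rw [← mul_one (w.V (beQ n 1 b)), ← h5, ← map_mul, h6, map_mul]
    exact mul_le_of_le_one_left' (w.V_int_le k)
  rw [zpa_gen ok.m4 (h2 v)]
  by_cases hp : v.p = w.p
  · obtain ⟨g, hg, h | rfl⟩ := conj_or hn hp
    · exact absurd h (hv w (mem_singleton_self w) g hg)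
    have h8 : cc (beQ n 1 b) = b - beQ n 1 b := by
      simp only [beQ, map_add, map_mul, map_div₀, map_intCast, map_natCast, map_ofNat,
        smul_dq' (cc_notMem hn)]
      ring
    rw [smul_V _ _ (beQ n 1 b), zpa_fx b _ (inv_mem hg), smul_V _ _ (beQ n 1 b), cc_inv, h8, h5,
      max_eq_right (by exact_mod_cast Plc.V_int_le _ w.p), one_pow]
  · have h8 : v.V w.p = 1 := by
      exact_mod_cast v.V_int_eq_one.2 fun h => hp ((Nat.prime_dvd_prime_iff_eq v.prime w.prime).1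
        (by exact_mod_cast h))
    rw [h8, max_eq_left (h7 v), one_pow]

theorem zpa_int {r : ℚ} (h : ∀ w : Plc, w.V r ≤ 1) : ∃ t : ℤ, (t : ℚ) = r :=
  IsIntegrallyClosed.isIntegral_iff.1
    ((isIntegral_algebraMap_iff (algebraMap ℚ Qbar).injective).1 (isIntegral_of_V h))

end

theorem prin (hn : Nk n) : Prin n (Nat.card (CM.Pc n 1)) := by
  have ok := CM.mrc_ok hn (adm_one n)
  have := CM.mrc_fin hn 1
  refine ⟨Nat.card_pos.ne', fun w => ?_⟩
  by_cases k : ∃ s ∈ Dec w, s ∉ GK n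
  · obtain ⟨s, hs, hs'⟩ := k
    refine ⟨w.p ^ Nat.card (CM.Pc n 1), fun g _ => by rw [map_pow, map_natCast],
      by rw [map_pow, w.hV, inv_pow], fun v hv => ?_⟩
    have h8 : v.V w.p = 1 := by
      refine mod_cast v.V_int_eq_one.2 fun h => ?_
      obtain ⟨g, hg, e⟩ := conj_of_inert ((Nat.prime_dvd_prime_iff_eq v.prime w.prime).1
        (by exact_mod_cast h)) hs hs'
      exact hv w (mem_singleton_self w) g hg e
    rw [map_pow, h8, one_pow]
  have h3 : Dec w ≤ GK n := fun s hs => by_contra fun e => k ⟨s, hs, e⟩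
  obtain ⟨b, k, e, hb⟩ : ∃ b k : ℤ, b ^ 2 + n * (1 : ℕ) ^ 2 = 4 * w.p * k ∧ ¬ (w.p : ℤ) ∣ b := by
    by_cases h2 : w.p = 2
    · exact CM.mrc_two ok h2 w.prime.not_dvd_one h3
    obtain ⟨φ, hφ⟩ := exists_frob w
    have h4 : ¬ (w.p : ℤ) ∣ 2 * -n := fun e => by
      rcases (Nat.prime_iff_prime_int.1 w.prime).dvd_mul.1 e with e | e
      · exact h2 ((Nat.prime_dvd_prime_iff_eq w.prime Nat.prime_two).1 (by exact_mod_cast e))
      · obtain ⟨τ, hτ⟩ := Lib.MP_696deb_nt.B2.exists_gen h2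
        exact (CM.cmh_gen ok hn.sqf (by exact_mod_cast (dvd_neg.1 e))).2 τ hτ (h3 hτ.1.1)
    have h5 := chi_frob h4 hφ
    rw [B4c_mem.1 (h3 hφ.1)] at h5
    exact CM.exists_root_split ok.m4 w.prime h2 h5.symm w.prime.not_dvd_one
  rcases CM.V_beQ_or ok.m4 e with h | h
  · exact zpa_split ok e hb h
  · exact zpa_split ok (k := k) (by rw [neg_sq, e]) (by rwa [dvd_neg]) h

theorem std_card (hn : Nk n) {S : RC n} (h : S.Std) :
    Fintype.card (S.C 1) = ordProj[3] (Nat.card (CM.Pc n 1)) := by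
  obtain ⟨q, h1, h2, -⟩ := h
  have := CM.mrc_fin hn 1
  have h3 := CM.card_ker_twm (f := (1 : CM.Pc n 1 →* CM.Pc n 1))
  have h4 : (CM.twm (1 : CM.Pc n 1 →* CM.Pc n 1)).ker = ⊤ := eq_top_iff.2 fun a _ => by
    obtain ⟨x, rfl⟩ := CM.tq_surj a
    exact map_one (CM.tq _)
  have h5 : (q 1).ker = CM.copP _ := Subgroup.ext (h2 1)
  rw [h4, MonoidHom.ker_one, Subgroup.card_top, Subgroup.card_top] at h3
  rw [← h3, ← Nat.card_eq_fintype_card, ← Nat.card_congr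
    (QuotientGroup.quotientKerEquivOfSurjective _ (h1 1)).toEquiv, h5]

theorem unit_eq (hn : Nk n) {a : Qbar} (ha : Fx (GK n) a) (h : ∀ w : Plc, w.V a = 1) :
    a = 1 ∨ a = -1 := by
  have h0 := hn.m12
  obtain ⟨r, s, e⟩ := fx_GK hn.pos ha
  have h1 : cc (rt (-n)) = -rt (-n) := b2c_neg fun k => cc_notMem hn.pos (B4c_mem.2 k)
  have h2 : cc a = r - s * rt (-n) := by
    rw [e, map_add, map_mul, map_ratCast, map_ratCast, h1, mul_neg, sub_eq_add_neg]
  have h3 : ∀ w : Plc, w.V (cc a) = 1 := fun w => h (cc⁻¹ • w)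
  have h4 : rt (-n) ^ 2 = -n := by exact_mod_cast rt_sq (-n)
  obtain ⟨t, ht⟩ := zpa_int (r := 2 * r) fun w => by
    rw [show ((2 * r : ℚ) : Qbar) = a + cc a by rw [h2, e]; push_cast; ring]
    exact w.V.map_add_le (h w).le (h3 w).le
  obtain ⟨u, hu⟩ := zpa_int (r := 2 * s * n) fun w => by
    rw [show ((2 * s * n : ℚ) : Qbar) = (cc a - a) * rt (-n) by
      rw [h2, e]; push_cast; linear_combination 2 * s * h4]
    refine b2a_mul_le w (w.V.map_sub_le (h3 w).le (h w).le) ?_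
    rw [← pow_le_one_iff two_ne_zero, ← map_pow, rt_sq]
    exact w.V_int_le _
  have h5 : ((r ^ 2 + n * s ^ 2 : ℚ) : Qbar) = a * cc a := by
    rw [h2, e]; push_cast; linear_combination s ^ 2 * h4
  obtain ⟨N, hN⟩ := zpa_int (r := r ^ 2 + n * s ^ 2) fun w => by
    rw [h5, map_mul, h w, h3 w, one_mul]
  have h6 : N.natAbs = 1 := Nat.eq_one_iff_not_exists_prime_dvd.2 fun p hp k => by
    obtain ⟨w, rfl⟩ := exists_plc hp
    refine w.V_int_eq_one.1 ?_ (Int.natCast_dvd.2 k)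
    rw [← Rat.cast_intCast, hN, h5, map_mul, h w, h3 w, one_mul]
  have h7 : n * t ^ 2 + u ^ 2 = 4 * n * N := by
    have : (n * t ^ 2 + u ^ 2 : ℚ) = 4 * n * N := by rw [ht, hu, hN]; ring
    exact_mod_cast this
  have h8 : (11 : ℤ) ≤ n := by omega
  have h9 : N = 1 := by
    have : 0 ≤ 4 * n * N := h7 ▸ by positivity
    rcases Int.natAbs_eq N with k | k <;> rw [h6] at k
    · exact k
    · rw [k] at this
      omega
  rw [h9, mul_one] at h7
  obtain ⟨t1, t2⟩ := abs_le_of_sq_le_sq' (a := t) (b := 2) (le_of_mul_le_mul_left (a := (n : ℤ))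
    (by linarith [sq_nonneg u]) (by omega)) (by norm_num)
  have key : u = 0 → a = r := fun k => by
    have : s = 0 := by simpa [k, hn.pos.ne'] using hu
    rw [e, this, Rat.cast_zero, zero_mul, add_zero]
  have m9 : u ^ 2 % 9 ≠ 6 := by
    rw [sq, Int.mul_emod]
    have : u % 9 < 9 := by omega
    have : 0 ≤ u % 9 := by omega
    interval_cases u % 9 <;> decide
  have m16 : u ^ 2 % 16 ≠ 12 := by
    rw [sq, Int.mul_emod]
    have : u % 16 < 16 := by omega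
    have : 0 ≤ u % 16 := by omega
    interval_cases u % 16 <;> decide
  interval_cases t
  · right
    rw [key (pow_eq_zero_iff two_ne_zero |>.1 (by omega)), show r = -1 by
      push_cast at ht; linarith]
    norm_num
  · omega
  · omega
  · omega
  · left
    rw [key (pow_eq_zero_iff two_ne_zero |>.1 (by omega)), show r = 1 by
      push_cast at ht; linarith]
    norm_num

end Pool.Agent.H3
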