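import Pool.Agent.Lib.MP_23455a_nt.H3.D3
import Pool.Agent.Lib.MP_23455a_nt.H3.BAe

/-! Kummer cocycles and valuations. -/

set_option autoImplicit false

open scoped NNReal Classical
open Finset Matrix NumberTheorySymbols

namespace Pool.Agent.H3

open Pool.Agent.Lib.MP_696deb_nt.B2

variable {n m k : ℕ} {H D : Subgroup Gam} {w : Plc} {a b : Qbar} {κ κ' : Gam → ZMod (3 ^ m)}

theorem zva_neg (m : ℕ) (x : ZMod (3 ^ m)) : zeta m ^ (-x).val = (zeta m ^ x.val)⁻¹ :=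
  eq_inv_of_mul_eq_one_left (by rw [← zeta_val_add, neg_add_cancel, ZMod.val_zero, pow_zero])

theorem zva_nat (m i : ℕ) (x : ZMod (3 ^ m)) :
    zeta m ^ ((i : ZMod (3 ^ m)) * x).val = (zeta m ^ x.val) ^ i := by
  induction i with
  | zero => simp
  | succ i ih => rw [Nat.cast_succ, add_mul, one_mul, zeta_val_add, ih, ← pow_succ]

theorem zva_int (m : ℕ) (i : ℤ) (x : ZMod (3 ^ m)) :
    zeta m ^ ((i : ZMod (3 ^ m)) * x).val = (zeta m ^ x.val) ^ i := by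
  obtain ⟨i, rfl | rfl⟩ := i.eq_nat_or_neg
  · rw [Int.cast_natCast, zva_nat, zpow_natCast]
  · rw [Int.cast_neg, neg_mul, zva_neg, Int.cast_natCast, zva_nat, _root_.zpow_neg, zpow_natCast]

theorem zva_p0 (w : Plc) : (w.p : ℝ≥0) ≠ 0 := (zero_lt_one.trans (b2a_one_lt w)).ne'

theorem zva_exp {x y : ℤ} (h : ((w.p : ℝ≥0) ^ x)⁻¹ = ((w.p : ℝ≥0) ^ y)⁻¹) : x = y :=
  zpow_right_injective₀ (zero_lt_one.trans (b2a_one_lt w)) (b2a_one_lt w).ne' (_root_.inv_inj.1 h)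

theorem zva_pow (w : Plc) (x : ℤ) (N : ℕ) :
    ((w.p : ℝ≥0) ^ x)⁻¹ ^ N = ((w.p : ℝ≥0) ^ (N * x))⁻¹ := by
  rw [inv_pow, ← zpow_natCast, ← _root_.zpow_mul, mul_comm]

theorem zva_mul (w : Plc) (x y : ℤ) :
    ((w.p : ℝ≥0) ^ x)⁻¹ * ((w.p : ℝ≥0) ^ y)⁻¹ = ((w.p : ℝ≥0) ^ (x + y))⁻¹ := by
  rw [zpow_add₀ (zva_p0 w), mul_inv]

theorem zva_app (g h : Gam) (x : Qbar) : g (h x) = h ((h⁻¹ * g * h) x) := by
  rw [← AlgEquiv.mul_apply, ← AlgEquiv.mul_apply h, ← mul_assoc, ← mul_assoc, mul_inv_cancel, one_mul]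

theorem zva_conj {g : Gam} (hg : g ∈ GK n) (i : Gam) : i⁻¹ * g * i ∈ GK n := by
  simpa only [inv_inv] using (normal_GK n).conj_mem g hg i⁻¹

theorem Kum.zv_congr (h : Kum m H a κ) (e : ∀ g ∈ H, κ' g = κ g) : Kum m H a κ' := by
  obtain ⟨r, r0, hr, h⟩ := h
  exact ⟨r, r0, hr, fun g hg => by rw [e g hg, h g hg]⟩

theorem Kum.zv_red {κ : Gam → ZMod (3 ^ k)} (h : Kum k H a κ) (hm : m ≤ k) :
    Kum m H a fun g => ZMod.castHom (pow_dvd_pow 3 hm) (ZMod (3 ^ m)) (κ g) := by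
  obtain ⟨d, rfl⟩ := Nat.exists_eq_add_of_le hm
  obtain ⟨r, r0, hr, h⟩ := h
  refine ⟨r ^ 3 ^ d, pow_ne_zero _ r0, by rw [← pow_mul, ← pow_add, add_comm, hr], fun g hg => ?_⟩
  beta_reduce
  rw [map_pow, h g hg, mul_pow, pow_right_comm, zeta_add_pow, ZMod.castHom_apply,
    ← ZMod.natCast_val, b1b_zeta_cast]

theorem Kum.zv_zpow (h : Kum m H a κ) (i : ℤ) : Kum m H (a ^ i) fun g => i * κ g := by
  obtain ⟨r, r0, hr, h⟩ := h
  refine ⟨r ^ i, zpow_ne_zero _ r0, ?_, fun g hg => ?_⟩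
  · rw [← hr, ← zpow_natCast, ← zpow_natCast, ← _root_.zpow_mul, ← _root_.zpow_mul, mul_comm]
  · rw [map_zpow₀, h g hg, mul_zpow, zva_int]

theorem Kum.zv_cob (h : Kum m H a κ) (x : ZMod (3 ^ m)) :
    Kum m H a fun g => κ g + (cy m g - 1) * x := by
  obtain ⟨r, r0, hr, h⟩ := h
  refine ⟨r * zeta m ^ x.val, mul_ne_zero r0 (b3b_ne m x), by rw [mul_pow, hr, b3b_pow, mul_one],
    fun g hg => ?_⟩
  rw [map_mul, h g hg, smul_zeta_val, mul_assoc, mul_assoc, ← zeta_val_add, ← zeta_val_add]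
  congr 3
  ring

theorem Kum.zv_prod {ι : Type} (s : Finset ι) {a : ι → Qbar} {κ : ι → Gam → ZMod (3 ^ m)}
    (h : ∀ i ∈ s, Kum m H (a i) (κ i)) : Kum m H (∏ i ∈ s, a i) fun g => ∑ i ∈ s, κ i g := by
  induction s using Finset.induction_on with
  | empty => exact ⟨1, one_ne_zero, by simp, fun g _ => by simp⟩
  | insert i s hi ih =>
    rw [prod_insert hi]
    exact ((h i (mem_insert_self i s)).mul (ih fun j hj => h j (mem_insert_of_mem hj))).zv_congr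
      fun g _ => by rw [sum_insert hi, Pi.add_apply]

/-- The conjugate of a Kummer cocycle. -/
theorem Kum.zv_cc (h : Kum m H a κ) (e : ∀ g ∈ D, cc * g * cc ∈ H) :
    Kum m D (cc a) fun g => -κ (cc * g * cc) := by
  obtain ⟨r, r0, hr, h⟩ := h
  refine ⟨cc r, (map_ne_zero cc).2 r0, by rw [← map_pow, hr], fun g hg => ?_⟩
  rw [zva_app, cc_inv, h _ (e g hg), map_mul, smul_zeta_val, cy_cc, neg_one_mul]

set_option linter.unusedVariables false in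
theorem Kum.zv_val (hn : Nk n) (h : Kum m (GK n) a κ) (e : ∀ σ ∈ GK n ⊓ Ine w, κ σ = 0) :
    ∃ j : ℤ, w.V a ^ 2 = ((w.p : ℝ≥0) ^ (3 ^ m * j))⁻¹ := by
  obtain ⟨r, r0, hr, h⟩ := h
  have f : ∀ σ ∈ GK n, σ ∈ Ine w → σ r = r := fun σ h1 h2 => by
    rw [h σ h1, e σ ⟨h1, h2⟩, ZMod.val_zero, pow_zero, mul_one]
  have k : ∃ j : ℤ, w.V r ^ 2 = ((w.p : ℝ≥0) ^ j)⁻¹ := by
    by_cases hI : Ine w ≤ GK n
    · obtain ⟨j, hj⟩ := V_of_fx_ine (w := w) (fun σ hσ => f σ (hI hσ) hσ) r0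
      exact ⟨_, by rw [hj, zva_pow]⟩
    · obtain ⟨i, hi, hi'⟩ := SetLike.not_le_iff_exists.1 hI
      obtain ⟨j, hj⟩ := V_of_fx_ine (w := w) (x := r * i r) (fun σ hσ => by
        rw [map_mul]
        by_cases hs : σ ∈ GK n
        · rw [f σ hs hσ, zva_app, f _ (zva_conj hs i) (mul_mem (mul_mem (inv_mem hi) hσ) hi)]
        · have h1 := f _ (mul_mem_GK (fun k => hi' (inv_mem_iff.1 k)) hs) (mul_mem (inv_mem hi) hσ)
          have h2 := congrArg i h1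
          rw [← AlgEquiv.mul_apply, mul_inv_cancel_left] at h2
          rw [h2, ← AlgEquiv.mul_apply σ, f _ (mul_mem_GK hs hi') (mul_mem hσ hi), mul_comm])
        (mul_ne_zero r0 ((map_ne_zero i).2 r0))
      exact ⟨j, by rw [← hj, map_mul, mem_Dec.1 (Ine_le w hi), sq]⟩
  obtain ⟨j, hj⟩ := k
  exact ⟨j, by rw [← hr, map_pow, pow_right_comm, hj, zva_pow, Nat.cast_pow, Nat.cast_ofNat]⟩

theorem zva_ine (hw : w.p ≠ 3) (h : Kum m D a κ) (h' : Kum m D w.p κ') {j : ℤ}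
    (e : w.V a = ((w.p : ℝ≥0) ^ j)⁻¹) : ∀ σ ∈ D ⊓ Ine w, κ σ = j * κ' σ := fun σ hσ => by
  have h1 := (h.mul (h'.zv_zpow (-j))).unr hw (by
    rw [map_mul, map_zpow₀, e, w.hV, _root_.inv_zpow', neg_neg,
      inv_mul_cancel₀ (zpow_ne_zero _ (zva_p0 w))]) σ hσ
  rw [Pi.add_apply, Int.cast_neg] at h1
  linear_combination h1

theorem Kum.zv_unr (hw : w.p ≠ 3) (h : Kum m D a κ) {j : ℤ}
    (e : w.V a = ((w.p : ℝ≥0) ^ (3 ^ m * j))⁻¹) : ∀ σ ∈ D ⊓ Ine w, κ σ = 0 := fun σ hσ => by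
  obtain ⟨κ', h'⟩ := exists_kum (H := D) m (a := w.p) (Nat.cast_ne_zero.2 w.prime.ne_zero)
    fun g _ => map_natCast g _
  have h0 : (((3 : ℤ) ^ m : ℤ) : ZMod (3 ^ m)) = 0 := by
    exact_mod_cast ZMod.natCast_self (3 ^ m)
  rw [zva_ine hw h h' e σ hσ, Int.cast_mul, h0, zero_mul, zero_mul]

/-- On inertia a Kummer cocycle only depends on the valuation. -/
theorem Kum.zv_ine (hw : w.p ≠ 3) (h : Kum m D a κ) (h' : Kum m D w.p κ') {j : ℤ}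
    (e : w.V a = ((w.p : ℝ≥0) ^ j)⁻¹) : ∀ σ ∈ D ⊓ Ine w, κ σ = j * κ' σ := zva_ine hw h h' e

/-- Characters of tame inertia are multiples of the Kummer character of the prime. -/
theorem zv_tame (hn : Nk n) (hw : w.p ≠ 3) (h' : Kum m (GK n) w.p κ') (h1 : Sm (GK n ⊓ Ine w) κ)
    (h2 : IsHom (GK n ⊓ Ine w) κ) : ∃ i : ZMod (3 ^ m), ∀ σ ∈ GK n ⊓ Ine w, κ σ = i * κ' σ := by
  obtain ⟨τ, -, hτ⟩ := tame_cyc (op_GK n) hw
  have h3 := hτ (Multiplicative (ZMod (3 ^ m) × ZMod (3 ^ m)))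
    (fun g => Multiplicative.ofAdd (κ g, κ' g))
    (h1.comp₂ (h'.sm.mono inf_le_left) fun x y => Multiplicative.ofAdd (x, y))
    (fun g hg k hk => by
      beta_reduce
      rw [← ofAdd_add, Prod.mk_add_mk, h2 g hg k hk, h'.coc g hg.1 k hk.1, cy_ine hw hg.2, one_mul])
    fun g _ => ⟨m, by
      rw [← ofAdd_nsmul, Prod.smul_mk, nsmul_eq_mul, nsmul_eq_mul, ZMod.natCast_self, zero_mul,
        zero_mul]
      rfl⟩
  have h4 : ∀ σ ∈ GK n ⊓ Ine w, ∃ k : ℕ, κ σ = k * κ τ ∧ κ' σ = k * κ' τ := fun σ hσ => by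
    obtain ⟨k, hk⟩ := h3 σ hσ
    rw [← ofAdd_nsmul, Prod.smul_mk, nsmul_eq_mul, nsmul_eq_mul] at hk
    exact ⟨k, Prod.mk.inj (Multiplicative.ofAdd.injective hk)⟩
  have h5 : IsUnit (κ' τ) := by
    rcases Nat.eq_zero_or_pos m with rfl | hm
    · exact isUnit_of_subsingleton (M := ZMod 1) _
    rw [← ZMod.natCast_zmod_val (κ' τ), ZMod.isUnit_iff_coprime]
    refine Nat.Coprime.pow_right m ((Nat.Prime.coprime_iff_not_dvd Nat.prime_three).2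
      fun hd => ?_).symm
    obtain ⟨j, hj⟩ := (h'.zv_red (m := 1) hm).zv_val (w := w) hn fun σ hσ => by
      obtain ⟨k, -, hk⟩ := h4 σ hσ
      rw [hk, map_mul, ZMod.castHom_apply (κ' τ), ← ZMod.natCast_val,
        (ZMod.natCast_eq_zero_iff _ (3 ^ 1)).2 hd, mul_zero]
    rw [w.hV, ← zpow_one (w.p : ℝ≥0), zva_pow, zpow_one] at hj
    have := zva_exp hj
    omega
  obtain ⟨u, hu⟩ := h5.exists_right_inv
  refine ⟨κ τ * u, fun σ hσ => ?_⟩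
  obtain ⟨k, e1, e2⟩ := h4 σ hσ
  rw [e1, e2]
  linear_combination -(k * κ τ) * hu

theorem zv_val_dec (ha : Fx (Dec w) a) (a0 : a ≠ 0) : ∃ j : ℤ, w.V a = ((w.p : ℝ≥0) ^ j)⁻¹ :=
  b3a_dec ha a0

/-- The valuation of a local Kummer class. -/
noncomputable def vK (m : ℕ) (w : Plc) (κ : Gam → ZMod (3 ^ m)) : ZMod (3 ^ m) :=
  if h : ∃ j : ℤ, ∃ a, Kum m (Dec w) a κ ∧ w.V a = ((w.p : ℝ≥0) ^ j)⁻¹ then (h.choose : ℤ) else 0

theorem vK_eq (h : Kum m (Dec w) a κ) {j : ℤ} (e : w.V a = ((w.p : ℝ≥0) ^ j)⁻¹) :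
    vK m w κ = j := by
  have h0 : ∃ j : ℤ, ∃ a, Kum m (Dec w) a κ ∧ w.V a = ((w.p : ℝ≥0) ^ j)⁻¹ := ⟨j, a, h, e⟩
  rw [vK, dif_pos h0]
  obtain ⟨b, ⟨s, s0, hs, h'⟩, e'⟩ := h0.choose_spec
  obtain ⟨r, r0, hr, h⟩ := h
  obtain ⟨i, hi⟩ := b3a_dec (w := w) (x := r / s) (fun g hg => by
    rw [map_div₀, h g hg, h' g hg, mul_div_mul_right _ _ (b3b_ne m _)]) (div_ne_zero r0 s0)
  have h1 : a = (r / s) ^ 3 ^ m * b := by
    rw [div_pow, hr, hs, div_mul_cancel₀ _ (hs ▸ pow_ne_zero _ s0)]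
  rw [h1, map_mul, map_pow, hi, e', zva_pow, zva_mul] at e
  rw [← zva_exp e, Int.cast_add, Int.cast_mul, Int.cast_natCast, ZMod.natCast_self, zero_mul,
    zero_add]

theorem exists_vK (h1 : Sm (Dec w) κ)
    (h2 : ∀ g ∈ Dec w, ∀ k ∈ Dec w, κ (g * k) = κ g + cy m g * κ k) :
    ∃ (j : ℤ) (a : Qbar), Kum m (Dec w) a κ ∧ w.V a = ((w.p : ℝ≥0) ^ j)⁻¹ := by
  obtain ⟨a, ha⟩ := kum_surj (closed_Dec w) h1 h2
  obtain ⟨j, hj⟩ := zv_val_dec ha.fx.2 ha.fx.1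
  exact ⟨j, a, ha, hj⟩

/-- A Kummer class that dies on a normal subgroup which is not contained in the group of the
quadratic field is invariant under conjugation. -/
theorem zv_ki (hn : Nk n) {U : Subgroup Gam} (hU : U.Normal) {i : Gam} (hi : i ∈ U)
    (hi' : i ∉ GK n) (hc : cy m i = 1) (h : Kum m (GK n) a κ) (e : ∀ g ∈ GK n ⊓ U, κ g = 0) :
    ∃ y, Fx (GK n) y ∧ y ^ 3 ^ m * cc a = a := by
  have h1 : ∀ g ∈ GK n, κ (i⁻¹ * g * i) = κ g := fun g hg => by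
    have k1 : g⁻¹ * (i⁻¹ * g * i) ∈ GK n := mul_mem (inv_mem hg) (zva_conj hg i)
    have k2 : g⁻¹ * (i⁻¹ * g * i) ∈ U := by
      simpa only [inv_inv, mul_assoc] using mul_mem (hU.conj_mem _ (inv_mem hi) g⁻¹) hi
    have k3 := h.coc g hg _ k1
    rwa [e _ ⟨k1, k2⟩, mul_zero, add_zero, mul_inv_cancel_left] at k3
  have h2 : cc a = i a := by
    rw [← cc_cc (i a), ← AlgEquiv.mul_apply cc i, h.fx.2 _ (mul_mem_GK (cc_notMem hn.pos) hi')]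
  have a0 := h.fx.1
  obtain ⟨r, r0, hr, h⟩ := h
  refine ⟨r / i r, fun g hg => ?_, ?_⟩
  · rw [map_div₀, zva_app g i, h _ (zva_conj hg i), h g hg, map_mul, smul_zeta_val, hc, one_mul,
      h1 g hg, mul_div_mul_right _ _ (b3b_ne m _)]
  · rw [div_pow, ← map_pow, hr, h2, div_mul_cancel₀ _ ((map_ne_zero i).2 a0)]

theorem zv_ki_val (hn : Nk n) {U : Subgroup Gam} (hU : U.Normal) {i : Gam} (hi : i ∈ U)
    (hi' : i ∉ GK n) (hc : cy m i = 1) (h : Kum m (GK n) a κ) (e : ∀ g ∈ GK n ⊓ U, κ g = 0)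
    (hw : Dec w ≤ GK n) {j j' : ℤ} (h1 : w.V a = ((w.p : ℝ≥0) ^ j)⁻¹)
    (h2 : (cc • w).V a = ((w.p : ℝ≥0) ^ j')⁻¹) : (3 : ℤ) ^ m ∣ j - j' := by
  obtain ⟨y, k1, k2⟩ := zv_ki hn hU hi hi' hc h e
  have y0 : y ≠ 0 := by
    rintro rfl
    exact h.fx.1 (by rw [← k2, zero_pow (pow_ne_zero m three_ne_zero), zero_mul])
  obtain ⟨l, hl⟩ := b3a_dec (w := w) (fun g hg => k1 g (hw hg)) y0
  rw [smul_V, cc_inv] at h2
  rw [← k2, map_mul, map_pow, hl, h2, zva_pow, zva_mul] at h1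
  exact ⟨l, by rw [← zva_exp h1, add_sub_cancel_right, Nat.cast_pow, Nat.cast_ofNat]⟩

/-- An element of an inertia group outside of the group of the quadratic field. -/
theorem zv_ram (hn : Nk n) : ∃ (w : Plc) (i : Gam), w.p ≠ 3 ∧ i ∈ Ine w ∧ i ∉ GK n := by
  have h12 := hn.m12
  obtain ⟨p, hp, u, hu⟩ := Nat.exists_prime_and_dvd (n := n) (by omega)
  obtain ⟨w, rfl⟩ := exists_plc hp
  have h1 : ¬ (w.p : ℤ) ∣ (u : ℤ) := fun k => by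
    obtain ⟨c, rfl⟩ := Int.natCast_dvd_natCast.1 k
    exact hp.one_lt.ne' (Nat.isUnit_iff.1 (hn.sqf w.p ⟨c, by rw [hu, mul_assoc]⟩))
  obtain ⟨i, hi, hi'⟩ := exists_ine_ne (w := w) (x := rt (-n)) (a := 2) (b := 1) two_ne_zero
    (by norm_num) (by
      have := w.V_int_eq_one.2 h1
      rw [Int.cast_natCast] at this
      rw [← map_pow, rt_sq, Int.cast_neg, Valuation.map_neg, Int.cast_natCast, hu, Nat.cast_mul,
        map_mul, this, mul_one, pow_one])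
  refine ⟨w, i, fun k => ?_, hi, fun k => hi' (chi_eq_one.1 (B4c_mem.1 k))⟩
  rw [k] at hu
  omega

theorem zv_three (hn : Nk n) (hw : w.p = 3) : ∃ g ∈ GK n, g • w3 = w ∨ g • cc • w3 = w :=
  conj_or hn.pos (hw.trans w3_p.symm)

theorem zv_apart (hn : Nk n) : Apart (GK n) {w3, cc • w3} ∧ w3 ≠ cc • w3 := by
  have h : ∀ g ∈ GK n, g • w3 ≠ cc • w3 := fun g hg => not_conj_cc hn.pos (hn.dec_le w3_p) hg
  refine ⟨fun v hv u hu g hg e => ?_, by simpa using h 1 (one_mem _)⟩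
  simp only [mem_insert, mem_singleton] at hv hu
  rcases hv with rfl | rfl <;> rcases hu with rfl | rfl
  · rfl
  · exact (h g hg e).elim
  · exact (h _ (inv_mem hg) (inv_smul_eq_iff.2 e.symm)).elim
  · rfl

theorem zv_away (hn : Nk n) {s : Finset Plc} (h1 : w3 ∈ s) (h2 : cc • w3 ∈ s)
    (h : Away (GK n) s w) : w.p ≠ 3 := fun k => by
  obtain ⟨g, hg, e | e⟩ := zv_three hn k
  · exact h _ h1 g hg e
  · exact h _ h2 g hg e

end Pool.Agent.H3
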