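import Pool.Agent.Lib.MP_23455a_nt.H3.ZVa
import Pool.Agent.Lib.MP_23455a_nt.H3.ZPa

/-! Numbers whose valuations are divisible by a power of three. -/

set_option autoImplicit false

open scoped NNReal Classical
open Finset Matrix NumberTheorySymbols

namespace Pool.Agent.H3

open Pool.Agent.Lib.MP_696deb_nt.B2

variable {n h : ℕ}

theorem zvb_V {H : Subgroup Gam} {a : Qbar} (ha : Fx H a) {g : Gam} (hg : g ∈ H) (w : Plc) :
    (g • w).V a = w.V a := by rw [smul_V, ha _ (inv_mem hg)]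

theorem zvb_pow (hn : Nk n) {H : Subgroup Gam} (hH : Op H) (hG : GK n ≤ H)
    (hp : ∀ w : Plc, ∃ π, Fx H π ∧ w.V π = ((w.p : ℝ≥0) ^ h)⁻¹ ∧ ∀ v, Away H {w} v → v.V π = 1)
    {a : Qbar} (ha : Fx H a) (a0 : a ≠ 0) {N : ℕ}
    (e : ∀ w : Plc, ∃ j : ℤ, w.V a ^ 2 = ((w.p : ℝ≥0) ^ (N * j))⁻¹) :
    ∃ y, Fx H y ∧ (a ^ (2 * h) = y ^ N ∨ a ^ (2 * h) = -y ^ N) := by
  choose π h1 h2 h3 using hp
  choose j hj using e
  obtain ⟨s, hs⟩ := finite_supp a0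
  obtain ⟨t, t1, -, t2⟩ := exists_reps hH s
  have p0 : ∀ w : Plc, (w.p : ℝ≥0) ≠ 0 := fun w => (zero_lt_one.trans (b2a_one_lt w)).ne'
  have y0 : (∏ w ∈ t, π w ^ j w) ^ N ≠ 0 := pow_ne_zero _ (prod_ne_zero_iff.2 fun w _ =>
    zpow_ne_zero _ (w.V.ne_zero_iff.1 (h2 w ▸ inv_ne_zero (pow_ne_zero _ (p0 w)))))
  have hy : Fx H (∏ w ∈ t, π w ^ j w) := fun g hg => by
    simp only [map_prod, map_zpow₀, fun w => h1 w g hg]
  have hu : Fx H (a ^ (2 * h) / (∏ w ∈ t, π w ^ j w) ^ N) := fun g hg => by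
    rw [map_div₀, map_pow, map_pow, ha g hg, hy g hg]
  refine ⟨_, hy, (unit_eq hn (fun g hg => hu g (hG hg)) fun v => ?_).imp
    (div_eq_one_iff_eq y0).1 fun e => by rw [div_eq_iff y0, neg_one_mul] at e; exact e⟩
  by_cases hv : Away H t v
  · rw [map_div₀, map_pow, map_pow, map_prod, hs v fun k => t2 v k hv, prod_eq_one fun w hw => by
      rw [map_zpow₀, h3 w v fun u hu => mem_singleton.1 hu ▸ hv w hw, _root_.one_zpow]]
    simp
  · simp only [Away, not_forall, not_not] at hv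
    obtain ⟨w, hw, g, hg, rfl⟩ := hv
    rw [zvb_V hu hg, map_div₀, map_pow, map_pow, map_prod, prod_eq_single_of_mem w hw
      fun u hu k => by
        rw [map_zpow₀, h3 u w fun u' hu' g hg e => k (t1 u hu w hw g hg (mem_singleton.1 hu' ▸ e)),
          _root_.one_zpow], map_zpow₀, h2, pow_mul, hj, div_eq_one_iff_eq
      (pow_ne_zero _ (zpow_ne_zero _ (inv_ne_zero (pow_ne_zero _ (p0 w)))))]
    simp only [← zpow_natCast, ← _root_.zpow_neg, ← _root_.zpow_mul]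
    congr 1
    ring

theorem Prin.pow (hn : Nk n) (hp : Prin n h) {a : Qbar} (ha : Fx (GK n) a) (a0 : a ≠ 0) {N : ℕ}
    (e : ∀ w : Plc, ∃ j : ℤ, w.V a ^ 2 = ((w.p : ℝ≥0) ^ (N * j))⁻¹) :
    ∃ y, Fx (GK n) y ∧ (a ^ (2 * h) = y ^ N ∨ a ^ (2 * h) = -y ^ N) :=
  zvb_pow hn (op_GK n) le_rfl hp.2 ha a0 e

theorem zvb_cob {H : Subgroup Gam} {m : ℕ} {a y : Qbar} {κ : Gam → ZMod (3 ^ m)}
    (hk : Kum m H a κ) (hy : Fx H y) (e : a ^ h = y ^ 3 ^ m ∨ a ^ h = -y ^ 3 ^ m) :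
    ∃ x, ∀ g ∈ H, h * κ g = (cy m g - 1) * x := by
  have h1 := (hk.zv_zpow h).pow_iff
  simp only [zpow_natCast, Int.cast_natCast] at h1
  refine h1.1 (e.elim (fun e => ⟨y, hy, e.symm⟩) fun e => ⟨-y, fun g hg => ?_, ?_⟩)
  · rw [map_neg, hy g hg]
  · rw [e, (Odd.pow (by decide)).neg_pow]

theorem cn : CNStmt := fun n hn => by
  have hp := prin hn
  obtain ⟨e, u, hu, he⟩ := Nat.exists_eq_pow_mul_and_not_dvd (mul_ne_zero two_ne_zero hp.1) 3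
    (by norm_num)
  refine ⟨e, fun m a κ hk h1 h2 => ?_⟩
  obtain ⟨y, hy, h3⟩ := hp.pow hn hk.fx.2 hk.fx.1 (N := 3 ^ m) fun w => by
    push_cast
    by_cases hw : w.p = 3
    · obtain ⟨g, hg, h4⟩ := zv_three hn hw
      obtain ⟨j, hj⟩ : ∃ j : ℤ, w.V a = ((3 : ℝ≥0) ^ (3 ^ m * j))⁻¹ := by
        rcases h4 with rfl | rfl <;> rw [zvb_V hk.fx.2 hg]
        exacts [h2 _ (.inl rfl), h2 _ (.inr rfl)]
      exact ⟨j * 2, by
        rw [hj, hw, inv_pow, ← zpow_natCast, ← _root_.zpow_mul, mul_assoc, Nat.cast_ofNat,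
          Nat.cast_ofNat]⟩
    · exact hk.zv_val hn (h1 w hw)
  obtain ⟨x, hx⟩ := zvb_cob hk hy h3
  obtain ⟨v, hv⟩ := ((ZMod.isUnit_iff_coprime u (3 ^ m)).2
    ((Nat.prime_three.coprime_iff_not_dvd.2 hu).symm.pow_right m)).exists_right_inv
  refine ⟨x * v, fun g hg => ?_⟩
  have h4 := hx g hg
  rw [he] at h4
  push_cast at h4
  linear_combination v * h4 - 3 ^ e * κ g * hv

end Pool.Agent.H3
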